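import Pool.Agent.Lib.MP_2b3e36_an.Ex.Defs

/-!
L0. Holomorphic logarithms on star shaped open sets.

Proof. A star shaped set is contractible, hence simply connected; `exists_continuousOn_eqOn_exp_comp`
(Mathlib, Analysis/Complex/BranchLogRoot) gives a continuous logarithm, which is holomorphic because
`exp` is a local biholomorphism (or: use a primitive of `deriv g / g`). Add a constant for the value
at `z₀`.
-/

set_option autoImplicit false

open Complex Set Filter Topology Metric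

namespace Pool.Agent.Choc

theorem l0_diff {Ω : Set ℂ} (ho : IsOpen Ω) {g l : ℂ → ℂ} (hg : DifferentiableOn ℂ g Ω)
    (h0 : ∀ z ∈ Ω, g z ≠ 0) (hl : ContinuousOn l Ω) (he : ∀ z ∈ Ω, exp (l z) = g z) :
    DifferentiableOn ℂ l Ω := by
  intro w hw
  apply DifferentiableAt.differentiableWithinAt
  have hn : Ω ∈ 𝓝 w := ho.mem_nhds hw
  have hlc : ContinuousAt l w := hl.continuousAt hn
  have hgd : DifferentiableAt ℂ g w := (hg w hw).differentiableAt hn
  have h1 : ∀ᶠ z in 𝓝 w, ‖l z - l w‖ < 1 := by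
    have : Tendsto (fun z => l z - l w) (𝓝 w) (𝓝 0) := by
      have h2 : Tendsto (fun z => l z - l w) (𝓝 w) (𝓝 (l w - l w)) := hlc.sub tendsto_const_nhds
      rwa [sub_self] at h2
    have h3 := this.norm
    rw [norm_zero] at h3
    exact h3.eventually (gt_mem_nhds one_pos)
  have heq : l =ᶠ[𝓝 w] fun z => l w + log (g z / g w) := by
    filter_upwards [h1, hn] with z hz hzΩ
    have e1 : g z / g w = exp (l z - l w) := by
      rw [exp_sub, he z hzΩ, he w hw]
    have him : |(l z - l w).im| < 1 := lt_of_le_of_lt (abs_im_le_norm _) hz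
    have hpi := Real.pi_gt_three
    rw [e1, log_exp (by linarith [(abs_lt.mp him).1]) (by linarith [(abs_lt.mp him).2])]
    ring
  refine DifferentiableAt.congr_of_eventuallyEq ?_ heq
  refine (differentiableAt_const _).add ?_
  refine DifferentiableAt.clog (hgd.div_const _) ?_
  rw [div_self (h0 w hw)]
  exact one_mem_slitPlane

theorem exists_log {Ω : Set ℂ} (ho : IsOpen Ω) {z₀ : ℂ} (hz : z₀ ∈ Ω) (hs : StarConvex ℝ z₀ Ω)
    {g : ℂ → ℂ} (hg : DifferentiableOn ℂ g Ω) (h0 : ∀ z ∈ Ω, g z ≠ 0) {c : ℂ}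
    (hc : exp c = g z₀) :
    ∃ l : ℂ → ℂ, DifferentiableOn ℂ l Ω ∧ (∀ z ∈ Ω, exp (l z) = g z) ∧ l z₀ = c := by
  have hsc : IsSimplyConnected Ω := by
    have := hs.contractibleSpace ⟨z₀, hz⟩
    exact (inferInstance : SimplyConnectedSpace Ω)
  obtain ⟨l, hlc, hle⟩ := exists_continuousOn_eqOn_exp_comp hsc ho hg.continuousOn
    (by rintro ⟨z, hz, h⟩; exact h0 z hz h)
  have hle' : ∀ z ∈ Ω, exp (l z) = g z := fun z hz => hle hz
  refine ⟨fun z => l z + (c - l z₀), (l0_diff ho hg h0 hlc hle').add_const _, ?_, by ring⟩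
  intro z hzΩ
  rw [exp_add, exp_sub, hle' z hzΩ, hc, hle' z₀ hz, div_self (h0 z₀ hz), mul_one]

end Pool.Agent.Choc
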