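import Pool.Agent.Lib.MP_2b3e36_an.Ex.S1

/-!
S2. Rational and holomorphic solutions are equivalent.

(→) `P, Q` as in `StableSol`. `Q`, `P`, `P - Q` have finitely many zeros, so there is `r > 1` such that in
`1 < ‖z‖ < r` none of them vanishes (`P`, `Q`, `P - Q` are not the zero polynomial). `f = P/Q` on `ball 0 r`.
`deriv f a = P'(a)/Q(a)`, `deriv f b = (P-Q)'(b)/Q(b)`.
(←) Let `f` be as in `SolA`, `|a| < 1`, `‖b‖ < 1`, `Im b > 0`. Let `1 < s < r`, `P_n` the Taylor polynomials of
`f` at `0`: real coefficients (`f` real), `P_n → f` uniformly on `closedBall 0 s` with derivatives. Let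
`E_n` be the real polynomial of degree `≤ 2` with `E_n(a) = P_n(a)`, `E_n(b) = P_n(b) - 1` (and conjugate):
`E_n → 0` coefficientwise (Lagrange interpolation at the three distinct points `a, b, conj b`). `P = P_n - E_n`
satisfies `P(a) = 0`, `P(b) = 1`, and tends to `f` uniformly on the closed unit disc, with derivatives. For
large `n` `P` has no other zeros and ones in the closed unit disc: write `f z = (z - a) u z`,
`f z - 1 = (z-b)(z - conj b) w z`, `u, w` nonvanishing on the closed disc, `P = (z-a) u_n`,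
`P - 1 = (z-b)(z - conj b) w_n` with `u_n → u`, `w_n → w` uniformly on the closed unit disc (on `‖z‖ = s` clear,
inside by the maximum principle), so `u_n, w_n` have no zeros there for large `n`; this also gives simple
zeros: `P'(a) = u_n(a) ≠ 0`. Take `Q = 1`.
-/

set_option autoImplicit false

open Complex Set Filter Topology Metric Polynomial

namespace Pool.Agent.Choc

theorem s2_radius (T : Finset ℂ) (hT : ∀ z ∈ T, 1 < ‖z‖) :
    ∃ r : ℝ, 1 < r ∧ ∀ z ∈ T, r ≤ ‖z‖ := by
  classical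
  induction T using Finset.induction_on with
  | empty => exact ⟨2, by norm_num, fun z hz => absurd hz (Finset.notMem_empty z)⟩
  | insert a S ha ih =>
    obtain ⟨r, hr, h⟩ := ih (fun z hz => hT z (Finset.mem_insert_of_mem hz))
    refine ⟨min r ‖a‖, lt_min hr (hT a (Finset.mem_insert_self _ _)), fun z hz => ?_⟩
    rcases Finset.mem_insert.1 hz with h1 | h1
    · rw [h1]
      exact min_le_right _ _
    · exact (min_le_left _ _).trans (h z h1)

theorem s2_deriv_conj {f : ℂ → ℂ} {r : ℝ} {z : ℂ} (hz : z ∈ ball (0 : ℂ) r)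
    (hd : DifferentiableOn ℂ f (ball 0 r))
    (hr : ∀ z ∈ ball (0 : ℂ) r, f (starRingEnd ℂ z) = starRingEnd ℂ (f z)) :
    deriv f (starRingEnd ℂ z) = starRingEnd ℂ (deriv f z) := by
  have h1 : HasDerivAt f (deriv f z) z :=
    (hd.differentiableAt (isOpen_ball.mem_nhds hz)).hasDerivAt
  have h2 := h1.conj_conj
  have hzc : starRingEnd ℂ z ∈ ball (0 : ℂ) r := by
    rw [mem_ball_zero_iff, Complex.norm_conj]
    rwa [mem_ball_zero_iff] at hz
  have h3 : f =ᶠ[𝓝 (starRingEnd ℂ z)] (starRingEnd ℂ ∘ f ∘ starRingEnd ℂ) := by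
    filter_upwards [isOpen_ball.mem_nhds hzc] with y hy
    show f y = starRingEnd ℂ (f (starRingEnd ℂ y))
    rw [hr y hy, Complex.conj_conj]
  exact (h2.congr_of_eventuallyEq h3).deriv

theorem s2_aeval_conj (P : ℝ[X]) (z : ℂ) :
    aeval (starRingEnd ℂ z) P = starRingEnd ℂ (aeval z P) := by
  exact Polynomial.aeval_conj P z

theorem solA_of_stable {a : ℝ} {b : ℂ} (ha : |a| < 1) (hb : ‖b‖ < 1) (hb' : 0 < b.im)
    (h : StableSol a b) : ∃ (r : ℝ) (f : ℂ → ℂ), SolA a b r f := by
  classical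
  obtain ⟨P, Q, hQ, hP, hPQ, hPa, hPb⟩ := h
  have hP0 : P ≠ 0 := by
    rintro rfl
    simp at hPa
  have hQ0 : Q ≠ 0 := by
    rintro rfl
    exact hQ 0 (by simp) (by simp)
  have hPQ0 : P - Q ≠ 0 := by
    intro h0
    rw [h0] at hPb
    simp at hPb
  have hR0 : P * Q * (P - Q) ≠ 0 := mul_ne_zero (mul_ne_zero hP0 hQ0) hPQ0
  set R : ℂ[X] := (P * Q * (P - Q)).map (algebraMap ℝ ℂ) with hR
  have hR1 : R ≠ 0 := (Polynomial.map_ne_zero_iff (algebraMap ℝ ℂ).injective).2 hR0
  obtain ⟨r, hr, hrT⟩ := s2_radius (R.roots.toFinset.filter (fun z => 1 < ‖z‖))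
    (fun z hz => (Finset.mem_filter.1 hz).2)
  have key : ∀ z ∈ ball (0 : ℂ) r, aeval z (P * Q * (P - Q)) = 0 → ‖z‖ ≤ 1 := by
    intro z hz h0
    by_contra hcon
    push Not at hcon
    have h1 : z ∈ R.roots.toFinset.filter (fun z => 1 < ‖z‖) := by
      rw [Finset.mem_filter, Multiset.mem_toFinset, Polynomial.mem_roots hR1]
      refine ⟨?_, hcon⟩
      rw [Polynomial.IsRoot, hR, Polynomial.eval_map_algebraMap]
      exact h0
    have h2 := hrT z h1
    rw [mem_ball_zero_iff] at hz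
    linarith
  have kQ : ∀ z ∈ ball (0 : ℂ) r, aeval z Q ≠ 0 := by
    intro z hz h0
    exact hQ z (key z hz (by rw [map_mul, map_mul, h0]; ring)) h0
  have kP : ∀ z ∈ ball (0 : ℂ) r, (aeval z P = 0 ↔ z = a) := by
    intro z hz
    constructor
    · intro h0
      exact (hP z (key z hz (by rw [map_mul, map_mul, h0]; ring))).1 h0
    · rintro rfl
      exact (hP a (by rw [Complex.norm_real, Real.norm_eq_abs]; exact ha.le)).2 rfl
  have kPQ : ∀ z ∈ ball (0 : ℂ) r, (aeval z P = aeval z Q ↔ z = b ∨ z = starRingEnd ℂ b) := by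
    intro z hz
    constructor
    · intro h0
      exact (hPQ z (key z hz (by rw [map_mul, map_sub, h0]; ring))).1 h0
    · intro h1
      refine (hPQ z ?_).2 h1
      rcases h1 with rfl | rfl
      · exact hb.le
      · rw [Complex.norm_conj]
        exact hb.le
  have har : (a : ℂ) ∈ ball (0 : ℂ) r := by
    rw [mem_ball_zero_iff, Complex.norm_real, Real.norm_eq_abs]
    linarith
  have hbr : b ∈ ball (0 : ℂ) r := by
    rw [mem_ball_zero_iff]
    linarith
  have hder : ∀ z ∈ ball (0 : ℂ) r, HasDerivAt (fun z => aeval z P / aeval z Q)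
      ((aeval z (derivative P) * aeval z Q - aeval z P * aeval z (derivative Q)) /
        (aeval z Q) ^ 2) z := fun z hz =>
    (P.hasDerivAt_aeval z).div (Q.hasDerivAt_aeval z) (kQ z hz)
  refine ⟨r, fun z => aeval z P / aeval z Q, hr, ?_, ?_, ?_, ?_, ?_, ?_⟩
  · intro z hz
    exact (hder z hz).differentiableAt.differentiableWithinAt
  · intro z hz
    rw [s2_aeval_conj, s2_aeval_conj, ← map_div₀]
  · intro z hz
    rw [div_eq_zero_iff, or_iff_left (kQ z hz), kP z hz]
  · intro z hz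
    rw [div_eq_one_iff_eq (kQ z hz), kPQ z hz]
  · rw [(hder _ har).deriv, (kP _ har).2 rfl, zero_mul, sub_zero]
    exact div_ne_zero (mul_ne_zero hPa (kQ _ har)) (pow_ne_zero 2 (kQ _ har))
  · rw [(hder _ hbr).deriv, (kPQ _ hbr).2 (Or.inl rfl)]
    rw [derivative_sub, map_sub] at hPb
    refine div_ne_zero ?_ (pow_ne_zero 2 (kQ _ hbr))
    have e : aeval b (derivative P) * aeval b Q - aeval b Q * aeval b (derivative Q) =
      (aeval b (derivative P) - aeval b (derivative Q)) * aeval b Q := by ring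
    rw [e]
    exact mul_ne_zero hPb (kQ _ hbr)

/-- uniform approximation by polynomials on the closed unit disc -/
theorem s2_approx {w : ℂ → ℂ} {r : ℝ} (hr : 1 < r) (hw : DifferentiableOn ℂ w (ball 0 r))
    {ε : ℝ} (hε : 0 < ε) : ∃ (n : ℕ) (c : ℕ → ℂ),
      ∀ z : ℂ, ‖z‖ ≤ 1 → ‖∑ k ∈ Finset.range n, c k * z ^ k - w z‖ < ε := by
  obtain ⟨s, hs1, hs2⟩ := exists_between hr
  obtain ⟨t, ht1, ht2⟩ := exists_between hs1
  set R : NNReal := ⟨s, by linarith⟩ with hR
  set R' : NNReal := ⟨t, by linarith⟩ with hR'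
  have hRpos : 0 < R := by
    rw [← NNReal.coe_pos]
    show 0 < s
    linarith
  have hd : DifferentiableOn ℂ w (closedBall 0 R) := by
    apply hw.mono
    exact closedBall_subset_ball hs2
  have hps := hd.hasFPowerSeriesOnBall hRpos
  have hlt : (R' : ENNReal) < R := by
    rw [ENNReal.coe_lt_coe, ← NNReal.coe_lt_coe]
    exact ht2
  have hunif := hps.tendstoUniformlyOn hlt
  rw [Metric.tendstoUniformlyOn_iff] at hunif
  obtain ⟨n, hn⟩ := (hunif ε hε).exists
  refine ⟨n, fun k => (cauchyPowerSeries w 0 R).coeff k, fun z hz => ?_⟩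
  have h1 := hn z (by
    rw [mem_ball_zero_iff]
    exact lt_of_le_of_lt hz ht1)
  rw [zero_add, dist_comm, dist_eq_norm] at h1
  have e : (cauchyPowerSeries w 0 R).partialSum n z =
      ∑ k ∈ Finset.range n, (cauchyPowerSeries w 0 R).coeff k * z ^ k := by
    rw [FormalMultilinearSeries.partialSum]
    apply Finset.sum_congr rfl
    intro k _
    rw [FormalMultilinearSeries.apply_eq_pow_smul_coeff, smul_eq_mul, mul_comm]
  rw [e] at h1
  exact h1

/-- approximation by real polynomials on the unit circle -/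
theorem s2_approx_real {w : ℂ → ℂ} {r : ℝ} (hr : 1 < r) (hw : DifferentiableOn ℂ w (ball 0 r))
    (hreal : ∀ z : ℂ, ‖z‖ = 1 → w (starRingEnd ℂ z) = starRingEnd ℂ (w z))
    {ε : ℝ} (hε : 0 < ε) : ∃ W : ℝ[X], ∀ z : ℂ, ‖z‖ = 1 → ‖aeval z W - w z‖ < ε := by
  obtain ⟨n, c, hc⟩ := s2_approx hr hw hε
  refine ⟨∑ k ∈ Finset.range n, C (c k).re * X ^ k, fun z hz => ?_⟩
  have e1 : aeval z (∑ k ∈ Finset.range n, C (c k).re * X ^ k) =
      ∑ k ∈ Finset.range n, ((c k).re : ℂ) * z ^ k := by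
    rw [map_sum]
    apply Finset.sum_congr rfl
    intro k _
    rw [map_mul, aeval_C, map_pow, aeval_X, Complex.coe_algebraMap]
  have h1 := hc z hz.le
  have h2 := hc (starRingEnd ℂ z) (by rw [Complex.norm_conj]; exact hz.le)
  rw [hreal z hz, ← Complex.norm_conj, map_sub, Complex.conj_conj, map_sum] at h2
  have e2 : aeval z (∑ k ∈ Finset.range n, C (c k).re * X ^ k) - w z =
      ((∑ k ∈ Finset.range n, c k * z ^ k - w z) +
        (∑ k ∈ Finset.range n, starRingEnd ℂ (c k * (starRingEnd ℂ z) ^ k) - w z)) / 2 := by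
    rw [e1]
    have e3 : ∀ k, starRingEnd ℂ (c k * (starRingEnd ℂ z) ^ k) = starRingEnd ℂ (c k) * z ^ k := by
      intro k
      rw [map_mul, map_pow, Complex.conj_conj]
    simp only [e3]
    have e4 : ∑ k ∈ Finset.range n, ((c k).re : ℂ) * z ^ k =
        (∑ k ∈ Finset.range n, c k * z ^ k + ∑ k ∈ Finset.range n, starRingEnd ℂ (c k) * z ^ k) / 2 := by
      rw [← Finset.sum_add_distrib, Finset.sum_div]
      apply Finset.sum_congr rfl
      intro k _
      rw [Complex.re_eq_add_conj]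
      ring
    rw [e4]
    ring
  rw [e2, norm_div]
  have e5 : ‖(2 : ℂ)‖ = 2 := by simp
  rw [e5, div_lt_iff₀ (by norm_num)]
  refine lt_of_le_of_lt (norm_add_le _ _) ?_
  linarith

/-- maximum principle on the unit disc -/
theorem s2_max {g : ℂ → ℂ} {r : ℝ} (hr : 1 < r) (hg : DifferentiableOn ℂ g (ball 0 r)) {c : ℝ}
    (hc : ∀ z : ℂ, ‖z‖ = 1 → ‖g z‖ ≤ c) : ∀ z : ℂ, ‖z‖ ≤ 1 → ‖g z‖ ≤ c := by
  intro z hz
  have hd : DifferentiableOn ℂ g (closure (ball 0 1)) := by
    rw [closure_ball _ one_ne_zero]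
    exact hg.mono (closedBall_subset_ball hr)
  refine Complex.norm_le_of_forall_mem_frontier_norm_le (U := ball (0 : ℂ) 1) isBounded_ball
    hd.diffContOnCl (fun y hy => ?_) ?_
  · rw [frontier_ball _ one_ne_zero, mem_sphere_zero_iff_norm] at hy
    exact hc y hy
  · rw [closure_ball _ one_ne_zero, mem_closedBall_zero_iff]
    exact hz

/-- a continuous function without zeros is bounded below on the closed unit disc -/
theorem s2_min {g : ℂ → ℂ} {r : ℝ} (hr : 1 < r) (hg : DifferentiableOn ℂ g (ball 0 r))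
    (h0 : ∀ z ∈ ball (0 : ℂ) r, g z ≠ 0) : ∃ δ : ℝ, 0 < δ ∧ ∀ z : ℂ, ‖z‖ ≤ 1 → δ ≤ ‖g z‖ := by
  have hc : ContinuousOn (fun z => ‖g z‖) (closedBall 0 1) :=
    (hg.continuousOn.mono (closedBall_subset_ball hr)).norm
  obtain ⟨z₀, hz₀, hmin⟩ := (isCompact_closedBall (0 : ℂ) 1).exists_isMinOn
    ⟨0, mem_closedBall_self zero_le_one⟩ hc
  refine ⟨‖g z₀‖, norm_pos_iff.2 (h0 _ (closedBall_subset_ball hr hz₀)), fun z hz => ?_⟩
  exact hmin (mem_closedBall_zero_iff.2 hz)

/-- A polynomial solution. -/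
theorem poly_of_solA {a : ℝ} {b : ℂ} (ha : |a| < 1) (hb : ‖b‖ < 1) (hb' : 0 < b.im)
    {r : ℝ} {f : ℂ → ℂ} (h : SolA a b r f) : ∃ U W : ℝ[X],
    (∀ z : ℂ, ‖z‖ ≤ 1 → aeval z U ≠ 0) ∧ (∀ z : ℂ, ‖z‖ ≤ 1 → aeval z W ≠ 0) ∧
    (X - C a) * U - (X ^ 2 - C (2 * b.re) * X + C (‖b‖ ^ 2)) * W = 1 := by
  have hr := h.one_lt
  set b' : ℂ := starRingEnd ℂ b with hb'def
  have har : (a : ℂ) ∈ ball (0 : ℂ) r := by
    rw [mem_ball_zero_iff, Complex.norm_real, Real.norm_eq_abs]
    linarith
  have hbr : b ∈ ball (0 : ℂ) r := by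
    rw [mem_ball_zero_iff]
    linarith
  have hb'r : b' ∈ ball (0 : ℂ) r := by
    rw [mem_ball_zero_iff, hb'def, Complex.norm_conj]
    linarith
  have hbb : b' ≠ b := by
    intro h1
    have h2 := congrArg Complex.im h1
    rw [hb'def, Complex.conj_im] at h2
    linarith
  have hab : (a : ℂ) ≠ b := by
    intro h1
    have h2 := congrArg Complex.im h1
    rw [Complex.ofReal_im] at h2
    linarith
  have hab' : (a : ℂ) ≠ b' := by
    intro h1
    have h2 := congrArg Complex.im h1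
    rw [Complex.ofReal_im, hb'def, Complex.conj_im] at h2
    linarith
  have hfa : f a = 0 := (h.zero _ har).2 rfl
  have hfb : f b = 1 := (h.one _ hbr).2 (Or.inl rfl)
  have hfb' : f b' = 1 := (h.one _ hb'r).2 (Or.inr rfl)
  -- the function u
  set u : ℂ → ℂ := dslope f a with hu
  have hud : DifferentiableOn ℂ u (ball 0 r) :=
    (Complex.differentiableOn_dslope (isOpen_ball.mem_nhds har)).2 h.diff
  have hueq : ∀ z, (z - a) * u z = f z := by
    intro z
    have := sub_smul_dslope f (a : ℂ) z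
    rw [smul_eq_mul, hfa, sub_zero] at this
    exact this
  have hu0 : ∀ z ∈ ball (0 : ℂ) r, u z ≠ 0 := by
    intro z hz h0
    by_cases hza : z = a
    · rw [hza, hu, dslope_same] at h0
      exact h.deriv_a h0
    · have h1 := hueq z
      rw [h0, mul_zero] at h1
      exact hza ((h.zero z hz).1 h1.symm)
  -- the function w
  set g : ℂ → ℂ := fun z => f z - 1 with hg
  have hgd : DifferentiableOn ℂ g (ball 0 r) := h.diff.sub_const 1
  set g1 : ℂ → ℂ := dslope g b with hg1
  have hg1d : DifferentiableOn ℂ g1 (ball 0 r) :=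
    (Complex.differentiableOn_dslope (isOpen_ball.mem_nhds hbr)).2 hgd
  have hg1eq : ∀ z, (z - b) * g1 z = g z := by
    intro z
    have h1 := sub_smul_dslope g b z
    have h2 : g b = 0 := by
      rw [hg]
      simp [hfb]
    rw [smul_eq_mul, h2, sub_zero] at h1
    exact h1
  have hg1b' : g1 b' = 0 := by
    have h1 := hg1eq b'
    have h2 : g b' = 0 := by
      rw [hg]
      simp [hfb']
    rw [h2] at h1
    exact (mul_eq_zero.1 h1).resolve_left (sub_ne_zero.2 hbb)
  set w : ℂ → ℂ := dslope g1 b' with hw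
  have hwd : DifferentiableOn ℂ w (ball 0 r) :=
    (Complex.differentiableOn_dslope (isOpen_ball.mem_nhds hb'r)).2 hg1d
  have hweq1 : ∀ z, (z - b') * w z = g1 z := by
    intro z
    have h1 := sub_smul_dslope g1 b' z
    rw [smul_eq_mul, hg1b', sub_zero] at h1
    exact h1
  have hweq : ∀ z, (z - b) * (z - b') * w z = f z - 1 := by
    intro z
    rw [mul_assoc, hweq1, hg1eq]
  have hgderiv : ∀ z, deriv g z = deriv f z := fun z => deriv_sub_const (f := f) (x := z) 1
  have hderiv_b' : deriv f b' ≠ 0 := by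
    rw [hb'def, s2_deriv_conj hbr h.diff h.real]
    intro h0
    apply h.deriv_b
    rw [← Complex.conj_conj (deriv f b), h0, map_zero]
  have hw0 : ∀ z ∈ ball (0 : ℂ) r, w z ≠ 0 := by
    intro z hz h0
    by_cases hzb : z = b
    · have h1 := hweq1 b
      rw [← hzb, h0, mul_zero, hzb, hg1, dslope_same, hgderiv] at h1
      exact h.deriv_b h1.symm
    · by_cases hzb' : z = b'
      · rw [hzb', hw, dslope_same] at h0
        -- the derivative of g at b'
        have h1 : HasDerivAt g1 (deriv g1 b') b' :=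
          (hg1d.differentiableAt (isOpen_ball.mem_nhds hb'r)).hasDerivAt
        have h2 : HasDerivAt (fun z => (z - b) * g1 z) (1 * g1 b' + (b' - b) * deriv g1 b') b' :=
          ((hasDerivAt_id' b').sub_const b).mul h1
        have h3 : (fun z => (z - b) * g1 z) = g := funext hg1eq
        rw [h3, h0, hg1b', mul_zero, mul_zero, add_zero] at h2
        have h4 := h2.deriv
        rw [hgderiv] at h4
        exact hderiv_b' h4
      · have h1 := hweq z
        rw [h0, mul_zero] at h1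
        have h2 : f z = 1 := by linear_combination -h1
        rcases (h.one z hz).1 h2 with h3 | h3
        · exact hzb h3
        · exact hzb' h3
  have hwreal : ∀ z : ℂ, ‖z‖ = 1 → w (starRingEnd ℂ z) = starRingEnd ℂ (w z) := by
    intro z hz
    have hzr : z ∈ ball (0 : ℂ) r := by
      rw [mem_ball_zero_iff, hz]
      exact hr
    have h1 := hweq z
    have h2 := hweq (starRingEnd ℂ z)
    rw [h.real z hzr] at h2
    have h3 := congrArg (starRingEnd ℂ) h1
    rw [map_mul, map_mul, map_sub, map_sub, map_sub, map_one, hb'def, Complex.conj_conj] at h3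
    rw [hb'def] at h2
    have hne1 : starRingEnd ℂ z - b ≠ 0 := by
      intro h4
      have h5 : ‖starRingEnd ℂ z‖ = ‖b‖ := by rw [sub_eq_zero.1 h4]
      rw [Complex.norm_conj] at h5
      linarith
    have hne2 : starRingEnd ℂ z - starRingEnd ℂ b ≠ 0 := by
      intro h4
      have h5 : ‖starRingEnd ℂ z‖ = ‖starRingEnd ℂ b‖ := by rw [sub_eq_zero.1 h4]
      rw [Complex.norm_conj, Complex.norm_conj] at h5
      linarith
    apply mul_left_cancel₀ (mul_ne_zero hne1 hne2)
    rw [h2]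
    linear_combination -h3
  obtain ⟨δu, hδu, hmu⟩ := s2_min hr hud hu0
  obtain ⟨δw, hδw, hmw⟩ := s2_min hr hwd hw0
  have h1a : 0 < 1 - |a| := by linarith
  -- the precision
  obtain ⟨ε, hε, hε1, hε2⟩ : ∃ ε > 0, 2 * ε < δw ∧ 8 * ε < δu * (1 - |a|) := by
    refine ⟨min (δw / 4) (δu * (1 - |a|) / 16), by positivity, ?_, ?_⟩
    · have := min_le_left (δw / 4) (δu * (1 - |a|) / 16)
      linarith
    · have := min_le_right (δw / 4) (δu * (1 - |a|) / 16)
      have := mul_pos hδu h1a
      linarith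
  obtain ⟨W₀, hW₀⟩ := s2_approx_real hr hwd hwreal hε
  -- the quadratic polynomial
  set q : ℝ[X] := X ^ 2 - C (2 * b.re) * X + C (‖b‖ ^ 2) with hq
  have hqz : ∀ z : ℂ, aeval z q = (z - b) * (z - b') := by
    intro z
    rw [hq, map_add, map_sub, map_pow, map_mul, aeval_X, aeval_C, aeval_C, Complex.coe_algebraMap,
      hb'def]
    have e1 : ((2 * b.re : ℝ) : ℂ) = b + starRingEnd ℂ b := by
      rw [Complex.add_conj]
    have e2 : ((‖b‖ ^ 2 : ℝ) : ℂ) = b * starRingEnd ℂ b := by
      rw [Complex.mul_conj, Complex.normSq_eq_norm_sq]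
    rw [e1, e2]
    ring
  have hqa : ((eval a q : ℝ) : ℂ) = ((a : ℂ) - b) * (a - b') := by
    rw [← hqz, ← Complex.coe_algebraMap, Polynomial.aeval_algebraMap_apply, ]
    simp
  have hqa0 : eval a q ≠ 0 := by
    intro h0
    rw [h0, Complex.ofReal_zero] at hqa
    exact mul_ne_zero (sub_ne_zero.2 hab) (sub_ne_zero.2 hab') hqa.symm
  set κ : ℝ := -1 / eval a q - eval a W₀ with hκ
  set W : ℝ[X] := W₀ + C κ with hW
  have hWa : 1 + eval a q * eval a W = 0 := by
    have h1 : eval a W = -1 / eval a q := by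
      rw [hW, eval_add, eval_C, hκ]
      exact add_sub_cancel _ _
    rw [h1, mul_div_cancel₀ _ hqa0]
    norm_num
  have hwa : w a = ((-1 / eval a q : ℝ) : ℂ) := by
    have h1 := hweq a
    rw [hfa, ← hqa] at h1
    have h2 : ((eval a q : ℝ) : ℂ) ≠ 0 := by exact_mod_cast hqa0
    push_cast
    rw [eq_div_iff h2]
    linear_combination h1
  have hW₀a : (aeval (a : ℂ) W₀) = ((eval a W₀ : ℝ) : ℂ) := by
    rw [← Complex.coe_algebraMap, Polynomial.aeval_algebraMap_apply]
    simp
  have hWd : ∀ P : ℝ[X], DifferentiableOn ℂ (fun z : ℂ => aeval z P) (ball 0 r) :=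
    fun P => P.differentiable_aeval.differentiableOn
  have hκε : |κ| ≤ ε := by
    have h1 := s2_max hr ((hWd W₀).sub hwd) (c := ε) (fun z hz => (hW₀ z hz).le) (a : ℂ)
      (by rw [Complex.norm_real, Real.norm_eq_abs]; exact ha.le)
    simp only [Pi.sub_apply] at h1
    rw [hwa, hW₀a, ← Complex.ofReal_sub, Complex.norm_real, Real.norm_eq_abs, abs_sub_comm] at h1
    exact h1
  have hWw1 : ∀ z : ℂ, ‖z‖ = 1 → ‖aeval z W - w z‖ ≤ 2 * ε := by
    intro z hz
    have h1 := (hW₀ z hz).le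
    have e : aeval z W - w z = (aeval z W₀ - w z) + (κ : ℂ) := by
      rw [hW, map_add, aeval_C, Complex.coe_algebraMap]
      ring
    rw [e]
    refine (norm_add_le _ _).trans ?_
    rw [Complex.norm_real, Real.norm_eq_abs]
    linarith
  have hWw : ∀ z : ℂ, ‖z‖ ≤ 1 → ‖aeval z W - w z‖ ≤ 2 * ε :=
    s2_max hr ((hWd W).sub hwd) hWw1
  -- the polynomial U
  obtain ⟨U, hU⟩ : (X - C a) ∣ (1 + q * W) := by
    rw [Polynomial.dvd_iff_isRoot, Polynomial.IsRoot, eval_add, eval_one, eval_mul]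
    exact hWa
  have hUz : ∀ z : ℂ, (z - a) * aeval z U = 1 + (z - b) * (z - b') * aeval z W := by
    intro z
    have h1 := congrArg (fun p : ℝ[X] => aeval z p) hU
    simp only [map_add, map_mul, map_sub, map_one, aeval_X, aeval_C, Complex.coe_algebraMap] at h1
    rw [hqz] at h1
    exact h1.symm
  have hUu1 : ∀ z : ℂ, ‖z‖ = 1 → ‖aeval z U - u z‖ ≤ 8 * ε / (1 - |a|) := by
    intro z hz
    have h1 : (z - a) * (aeval z U - u z) = (z - b) * (z - b') * (aeval z W - w z) := by
      have h2 := hUz z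
      have h3 := hueq z
      have h4 := hweq z
      linear_combination h2 - h3 + h4
    have h2 := congrArg norm h1
    rw [norm_mul, norm_mul, norm_mul] at h2
    have h3 : 1 - |a| ≤ ‖z - a‖ := by
      have := norm_sub_norm_le z (a : ℂ)
      rwa [hz, Complex.norm_real, Real.norm_eq_abs] at this
    have h4 : ‖z - b‖ ≤ 2 := by
      refine (norm_sub_le _ _).trans ?_
      rw [hz]
      linarith
    have h5 : ‖z - b'‖ ≤ 2 := by
      refine (norm_sub_le _ _).trans ?_
      rw [hz, hb'def, Complex.norm_conj]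
      linarith
    have h6 := hWw1 z hz
    rw [le_div_iff₀ h1a]
    have h7 : ‖z - b‖ * ‖z - b'‖ * ‖aeval z W - w z‖ ≤ 2 * 2 * (2 * ε) := by
      apply mul_le_mul (mul_le_mul h4 h5 (norm_nonneg _) (by norm_num)) h6 (norm_nonneg _)
        (by norm_num)
    have h8 : ‖aeval z U - u z‖ * (1 - |a|) ≤ ‖z - a‖ * ‖aeval z U - u z‖ := by
      rw [mul_comm]
      exact mul_le_mul_of_nonneg_right h3 (norm_nonneg _)
    linarith
  have hUu : ∀ z : ℂ, ‖z‖ ≤ 1 → ‖aeval z U - u z‖ ≤ 8 * ε / (1 - |a|) :=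
    s2_max hr ((hWd U).sub hud) hUu1
  refine ⟨U, W, fun z hz h0 => ?_, fun z hz h0 => ?_, ?_⟩
  · have h1 := hUu z hz
    rw [h0, zero_sub, norm_neg, le_div_iff₀ h1a] at h1
    have h2 := mul_le_mul_of_nonneg_right (hmu z hz) h1a.le
    linarith
  · have h1 := hWw z hz
    rw [h0, zero_sub, norm_neg] at h1
    have h2 := hmw z hz
    linarith
  · rw [← hU]
    ring

theorem stable_of_solA {a : ℝ} {b : ℂ} (ha : |a| < 1) (hb : ‖b‖ < 1) (hb' : 0 < b.im)
    {r : ℝ} {f : ℂ → ℂ} (h : SolA a b r f) : StableSol a b := by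
  obtain ⟨U, W, hU, hW, hUW⟩ := poly_of_solA ha hb hb' h
  set q : ℝ[X] := X ^ 2 - C (2 * b.re) * X + C (‖b‖ ^ 2) with hq
  have hqz : ∀ z : ℂ, aeval z q = (z - b) * (z - starRingEnd ℂ b) := by
    intro z
    rw [hq, map_add, map_sub, map_pow, map_mul, aeval_X, aeval_C, aeval_C, Complex.coe_algebraMap]
    have e1 : ((2 * b.re : ℝ) : ℂ) = b + starRingEnd ℂ b := by
      rw [Complex.add_conj]
    have e2 : ((‖b‖ ^ 2 : ℝ) : ℂ) = b * starRingEnd ℂ b := by
      rw [Complex.mul_conj, Complex.normSq_eq_norm_sq]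
    rw [e1, e2]
    ring
  have hPz : ∀ z : ℂ, aeval z ((X - C a) * U) = (z - a) * aeval z U := by
    intro z
    rw [map_mul, map_sub, aeval_X, aeval_C, Complex.coe_algebraMap]
  have hP1 : (X - C a) * U - 1 = q * W := by
    rw [← hUW]
    ring
  have hP1z : ∀ z : ℂ, aeval z ((X - C a) * U) - 1 =
      (z - b) * (z - starRingEnd ℂ b) * aeval z W := by
    intro z
    have h1 : aeval z ((X - C a) * U - 1) = aeval z (q * W) := by rw [hP1]
    rw [map_sub, map_one, map_mul (aeval z) q W, hqz] at h1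
    exact h1
  refine ⟨(X - C a) * U, 1, ?_, ?_, ?_, ?_, ?_⟩
  · intro z _
    rw [map_one]
    exact one_ne_zero
  · intro z hz
    rw [hPz, mul_eq_zero, or_iff_left (hU z hz), sub_eq_zero]
  · intro z hz
    rw [map_one, ← sub_eq_zero, hP1z, mul_eq_zero, or_iff_left (hW z hz), mul_eq_zero,
      sub_eq_zero, sub_eq_zero]
  · rw [derivative_mul, map_add, map_mul, map_mul, derivative_sub, derivative_X, derivative_C,
      sub_zero, map_one, one_mul, map_sub, aeval_X, aeval_C, Complex.coe_algebraMap, sub_self,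
      zero_mul, add_zero]
    exact hU a (by rw [Complex.norm_real, Real.norm_eq_abs]; exact ha.le)
  · rw [hP1, derivative_mul, map_add, map_mul, map_mul, hqz, sub_self, zero_mul, zero_mul,
      add_zero]
    refine mul_ne_zero ?_ (hW b hb.le)
    have h1 := q.hasDerivAt_aeval b
    have h2 : HasDerivAt (fun z : ℂ => (z - b) * (z - starRingEnd ℂ b))
        (1 * (b - starRingEnd ℂ b) + (b - b) * 1) b :=
      ((hasDerivAt_id' b).sub_const b).mul ((hasDerivAt_id' b).sub_const (starRingEnd ℂ b))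
    have h3 : (fun z : ℂ => aeval z q) = fun z : ℂ => (z - b) * (z - starRingEnd ℂ b) :=
      funext hqz
    rw [h3] at h1
    rw [h1.unique h2, sub_self, zero_mul, add_zero, one_mul]
    intro h0
    have h4 := congrArg Complex.im h0
    rw [Complex.sub_im, Complex.conj_im, Complex.zero_im] at h4
    linarith

end Pool.Agent.Choc
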