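import Pool.Agent.Lib.MP_2b3e36_an.Ex.T5

/-!
L3. The nome as a product: for small `q`,
`q = (1 - J q)/16 * exp (- sum_m 2^(1-m) log ((1 + rho(q^(2^m))^2)/2))`.

Proof. Put `k_m = rho (q^(2^m))^2`, `l_m = log ((1+k_m)/2)` (principal; for `‖q‖ < δ` all `k_m` are in
the disc of radius `1/4` about `1`), `S_m = sum_{j ≥ 0} 2^(1-j) l_(m+j)` and
`G_m = (1 - J (q^(2^m)))/16 * exp (- S_m)`. Since `1 - J (s^2) = ((1 - rho(s)^2)/(1 + rho(s)^2))^2`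
(`J_sq`) `= (1 - J s)^2/(1 + rho(s)^2)^4`, one gets
`(1 - J (q^(2^(m+1))))/16 = ((1 - J (q^(2^m)))/16)^2 * exp (-4 l_m)`, and `S_m = 2 l_m + (1/2) S_(m+1)`, so
`G_(m+1) = G_m^2` and `G_m = G_0^(2^m)`. As `s → 0`: `(1 - J s)/(16 s) → 1`; `S_m → 0`. So for `q ≠ 0`
`(G_0/q)^(2^m) = G_m / q^(2^m) → 1`, hence `|G_0 / q| = 1` for all small `q ≠ 0`. The function `G_0/q`
(extended by the value `1` at `0`) is holomorphic near `0` (locally uniform convergence of `S_0`), has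
constant modulus, so is constant, `= 1`.
-/

set_option autoImplicit false

open Complex Set Filter Topology Metric

namespace Pool.Agent.Choc

noncomputable section

/-- the logarithm in the terms of the series -/
def l3a (q : ℂ) : ℂ := log ((1 + rho q ^ 2) / 2)

/-- the series -/
def l3S (q : ℂ) : ℂ := ∑' m : ℕ, (2 : ℂ) * (1 / 2) ^ m * l3a (q ^ (2 ^ m))

/-- the right hand side -/
def l3H (q : ℂ) : ℂ := (1 - J q) / 16 * exp (-l3S q)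

theorem l3_small (ε : ℝ) (hε : 0 < ε) :
    ∃ δ > 0, δ ≤ 1 / 2 ∧ ∀ q : ℂ, ‖q‖ < δ → ‖rho q ^ 2 - 1‖ ≤ ε := by
  have hc : ContinuousAt rho 0 := rho_hasDerivAt_zero.continuousAt
  have h2 : Tendsto (fun q => rho q ^ 2 - 1) (𝓝 0) (𝓝 (rho 0 ^ 2 - 1)) :=
    (hc.tendsto.pow 2).sub tendsto_const_nhds
  rw [rho_zero, one_pow, sub_self] at h2
  have h3 := h2.norm
  rw [norm_zero] at h3
  obtain ⟨δ, hδ, hsub⟩ := Metric.mem_nhds_iff.mp (h3.eventually (gt_mem_nhds hε))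
  refine ⟨min δ (1 / 2), lt_min hδ (by norm_num), min_le_right _ _, ?_⟩
  intro q hq
  have h4 : q ∈ ball (0 : ℂ) δ := by
    rw [mem_ball_zero_iff]; exact lt_of_lt_of_le hq (min_le_left _ _)
  have h5 : ‖rho q ^ 2 - 1‖ < ε := hsub h4
  exact h5.le

theorem l3_log {q : ℂ} {ε : ℝ} (hε : ε ≤ 1) (h : ‖rho q ^ 2 - 1‖ ≤ ε) : ‖l3a q‖ ≤ ε := by
  have e1 : (1 + rho q ^ 2) / 2 = 1 + (rho q ^ 2 - 1) / 2 := by ring
  have h0 : 0 ≤ ‖rho q ^ 2 - 1‖ := norm_nonneg _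
  have h2 : ‖(rho q ^ 2 - 1) / 2‖ = ‖rho q ^ 2 - 1‖ / 2 := by
    rw [norm_div]; simp
  have h1 : ‖(rho q ^ 2 - 1) / 2‖ ≤ 1 / 2 := by rw [h2]; linarith
  rw [l3a, e1]
  refine (norm_log_one_add_half_le_self h1).trans ?_
  rw [h2]; linarith

theorem l3_pow {q : ℂ} {δ : ℝ} (hδ : δ ≤ 1) (hq : ‖q‖ < δ) (m : ℕ) : ‖q ^ (2 ^ m)‖ < δ := by
  rw [norm_pow]
  refine lt_of_le_of_lt ?_ hq
  exact pow_le_of_le_one (norm_nonneg _) (by linarith) (by positivity)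

theorem l3_term {q : ℂ} {δ ε : ℝ} (hδ : δ ≤ 1) (hε : ε ≤ 1)
    (h : ∀ q : ℂ, ‖q‖ < δ → ‖rho q ^ 2 - 1‖ ≤ ε) (hq : ‖q‖ < δ) (m : ℕ) :
    ‖(2 : ℂ) * (1 / 2) ^ m * l3a (q ^ (2 ^ m))‖ ≤ (1 / 2) ^ m * (2 * ε) := by
  have h1 := l3_log hε (h _ (l3_pow hδ hq m))
  rw [norm_mul, norm_mul, norm_pow]
  have h2 : ‖(2 : ℂ)‖ = 2 := by simp
  have h3 : ‖(1 / 2 : ℂ)‖ = 1 / 2 := by simp
  rw [h2, h3]
  have h4 : (0 : ℝ) ≤ 2 * (1 / 2) ^ m := by positivity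
  nlinarith [mul_le_mul_of_nonneg_left h1 h4]

theorem l3_summable {q : ℂ} {δ ε : ℝ} (hδ : δ ≤ 1) (hε : ε ≤ 1)
    (h : ∀ q : ℂ, ‖q‖ < δ → ‖rho q ^ 2 - 1‖ ≤ ε) (hq : ‖q‖ < δ) :
    Summable fun m : ℕ => (2 : ℂ) * (1 / 2) ^ m * l3a (q ^ (2 ^ m)) :=
  Summable.of_norm_bounded (summable_geometric_two.mul_right (2 * ε)) (l3_term hδ hε h hq)

theorem l3_S_le {q : ℂ} {δ ε : ℝ} (hδ : δ ≤ 1) (hε : ε ≤ 1)
    (h : ∀ q : ℂ, ‖q‖ < δ → ‖rho q ^ 2 - 1‖ ≤ ε) (hq : ‖q‖ < δ) : ‖l3S q‖ ≤ 4 * ε := by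
  have h1 := tsum_of_norm_bounded (hasSum_geometric_two.mul_right (2 * ε)) (l3_term hδ hε h hq)
  calc ‖l3S q‖ ≤ 2 * (2 * ε) := h1
    _ = 4 * ε := by ring

theorem l3_S_sq {q : ℂ} {δ ε : ℝ} (hδ : δ ≤ 1) (hε : ε ≤ 1)
    (h : ∀ q : ℂ, ‖q‖ < δ → ‖rho q ^ 2 - 1‖ ≤ ε) (hq : ‖q‖ < δ) :
    l3S q = 2 * l3a q + 1 / 2 * l3S (q ^ 2) := by
  rw [l3S, (l3_summable hδ hε h hq).tsum_eq_zero_add]
  congr 1
  · simp
  · rw [l3S, ← tsum_mul_left]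
    refine tsum_congr fun m => ?_
    rw [← pow_mul, pow_succ 2 m, mul_comm (2 ^ m) 2, pow_succ (1 / 2 : ℂ) m]
    ring

theorem l3_H_sq {q : ℂ} {δ ε : ℝ} (hδ : δ ≤ 1) (hε : ε ≤ 1)
    (h : ∀ q : ℂ, ‖q‖ < δ → ‖rho q ^ 2 - 1‖ ≤ ε) (hq : ‖q‖ < δ) : l3H (q ^ 2) = l3H q ^ 2 := by
  have hq1 : ‖q‖ < 1 := lt_of_lt_of_le hq hδ
  have h1 := l3_S_sq hδ hε h hq
  have hne : 1 + rho q ^ 2 ≠ 0 := one_add_rho_sq_ne hq1
  have h2 : exp (l3a q) = (1 + rho q ^ 2) / 2 := by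
    rw [l3a, exp_log (div_ne_zero hne two_ne_zero)]
  have h3 : -l3S (q ^ 2) = (-l3S q + -l3S q) + (l3a q + l3a q + (l3a q + l3a q)) := by
    linear_combination 2 * h1
  rw [l3H, l3H, h3, exp_add, exp_add, exp_add, exp_add, h2, J_sq hq1]
  have hJ : J q = rho q ^ 4 := rfl
  rw [hJ]
  field_simp
  ring

theorem l3_ratio : Tendsto (fun q => l3H q / q) (𝓝[≠] 0) (𝓝 1) := by
  have h1 : Tendsto (fun q => (1 - J q) / 16 / q) (𝓝[≠] 0) (𝓝 1) := by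
    have h2 := J_hasDerivAt_zero.tendsto_slope
    have h3 := h2.const_mul (-(1 / 16 : ℂ))
    have e1 : -(1 / 16 : ℂ) * -16 = 1 := by norm_num
    rw [e1] at h3
    refine h3.congr' ?_
    filter_upwards [self_mem_nhdsWithin] with q hq
    have hq0 : q ≠ 0 := hq
    rw [slope_def_field, J_zero, sub_zero]
    field_simp
    ring
  have h4 : Tendsto l3S (𝓝 0) (𝓝 0) := by
    rw [Metric.tendsto_nhds_nhds]
    intro ε hε
    obtain ⟨δ, hδ, hδ2, h⟩ := l3_small (min (ε / 8) 1) (lt_min (by positivity) one_pos)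
    refine ⟨δ, hδ, ?_⟩
    intro q hq
    rw [dist_zero_right] at hq ⊢
    have h5 := l3_S_le (by linarith) (min_le_right _ _) h hq
    have h6 : min (ε / 8) 1 ≤ ε / 8 := min_le_left _ _
    linarith
  have h5 : Tendsto (fun q => exp (-l3S q)) (𝓝[≠] 0) (𝓝 1) := by
    have h6 : Tendsto (fun q => exp (-l3S q)) (𝓝 0) (𝓝 (exp (-0))) :=
      (continuous_exp.tendsto _).comp h4.neg
    rw [neg_zero, exp_zero] at h6
    exact h6.mono_left nhdsWithin_le_nhds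
  have h6 := h1.mul h5
  rw [one_mul] at h6
  refine h6.congr fun q => ?_
  rw [l3H]
  ring

theorem l3_main : ∃ δ > 0, δ < 1 ∧ ∀ q : ℂ, ‖q‖ < δ →
    (∀ m : ℕ, ‖rho (q ^ (2 ^ m)) ^ 2 - 1‖ ≤ 1 / 4) ∧ l3H q = q := by
  obtain ⟨δ₁, hδ₁, hδ₁2, h⟩ := l3_small (1 / 4) (by norm_num)
  have hδ1 : δ₁ ≤ 1 := by linarith
  have hr : ∀ᶠ q in 𝓝[≠] (0 : ℂ), ‖l3H q / q - 1‖ < 1 / 4 := by
    have h2 : Tendsto (fun q => l3H q / q - 1) (𝓝[≠] 0) (𝓝 (1 - 1)) :=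
      l3_ratio.sub tendsto_const_nhds
    rw [sub_self] at h2
    have h3 := h2.norm
    rw [norm_zero] at h3
    exact h3.eventually (gt_mem_nhds (by norm_num))
  rw [eventually_nhdsWithin_iff, Metric.eventually_nhds_iff] at hr
  obtain ⟨δ₂, hδ₂, h2⟩ := hr
  have h2' : ∀ q : ℂ, ‖q‖ < δ₂ → q ≠ 0 → ‖l3H q / q - 1‖ < 1 / 4 := by
    intro q hq hq0
    exact h2 (by rw [dist_zero_right]; exact hq) hq0
  obtain ⟨δ, hδ⟩ : ∃ δ, δ = min δ₁ δ₂ := ⟨_, rfl⟩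
  have hδa : δ ≤ δ₁ := by rw [hδ]; exact min_le_left _ _
  have hδb : δ ≤ δ₂ := by rw [hδ]; exact min_le_right _ _
  refine ⟨δ, by rw [hδ]; exact lt_min hδ₁ hδ₂, by linarith, ?_⟩
  intro q hq
  refine ⟨fun m => h _ (l3_pow hδ1 (lt_of_lt_of_le hq hδa) m), ?_⟩
  by_cases hq0 : q = 0
  · rw [hq0, l3H, J_zero]; simp
  -- the logarithm of the quotient
  have hG : ∀ w : ℂ, ‖w‖ < δ → w ≠ 0 → ‖log (l3H w / w)‖ ≤ 3 / 8 := by
    intro w hw hw0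
    have h3 := (h2' w (lt_of_lt_of_le hw hδb) hw0).le
    have h4 : ‖l3H w / w - 1‖ ≤ 1 / 2 := by linarith
    have h5 := norm_log_one_add_half_le_self h4
    rw [add_sub_cancel] at h5
    linarith
  have hne : ∀ w : ℂ, ‖w‖ < δ → w ≠ 0 → l3H w / w ≠ 0 := by
    intro w hw hw0 h0
    have h3 := h2' w (lt_of_lt_of_le hw hδb) hw0
    rw [h0, zero_sub, norm_neg, norm_one] at h3
    norm_num at h3
  have hdouble : ∀ w : ℂ, ‖w‖ < δ → w ≠ 0 →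
      log (l3H (w ^ 2) / w ^ 2) = 2 * log (l3H w / w) := by
    intro w hw hw0
    have h3 : l3H (w ^ 2) / w ^ 2 = (l3H w / w) ^ 2 := by
      rw [l3_H_sq hδ1 (by norm_num) h (lt_of_lt_of_le hw hδa), div_pow]
    have h4 : (l3H w / w) ^ 2 = exp (2 * log (l3H w / w)) := by
      rw [two_mul, exp_add, exp_log (hne w hw hw0), sq]
    have h5 := hG w hw hw0
    have h6 : |(2 * log (l3H w / w)).im| ≤ 3 / 4 := by
      refine (abs_im_le_norm _).trans ?_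
      rw [norm_mul]
      have : ‖(2 : ℂ)‖ = 2 := by simp
      rw [this]; linarith
    have hpi := Real.pi_gt_three
    rw [h3, h4, log_exp (by linarith [(abs_le.mp h6).1]) (by linarith [(abs_le.mp h6).2])]
  have hit : ∀ m : ℕ, log (l3H (q ^ (2 ^ m)) / q ^ (2 ^ m)) = 2 ^ m * log (l3H q / q) := by
    intro m
    induction m with
    | zero => simp
    | succ m ih =>
      have h3 := hdouble (q ^ (2 ^ m)) (l3_pow (by linarith) hq m) (pow_ne_zero _ hq0)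
      rw [← pow_mul, ← pow_succ] at h3
      rw [h3, ih, pow_succ]
      ring
  have hz : log (l3H q / q) = 0 := by
    by_contra hcon
    have hpos : 0 < ‖log (l3H q / q)‖ := norm_pos_iff.mpr hcon
    obtain ⟨m, hm⟩ := pow_unbounded_of_one_lt (1 / ‖log (l3H q / q)‖) (one_lt_two : (1 : ℝ) < 2)
    have h3 := hG (q ^ (2 ^ m)) (l3_pow (by linarith) hq m) (pow_ne_zero _ hq0)
    rw [hit m, norm_mul, norm_pow] at h3
    have : ‖(2 : ℂ)‖ = 2 := by simp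
    rw [this] at h3
    rw [div_lt_iff₀ hpos] at hm
    linarith
  have h7 : l3H q / q = 1 := by
    have := exp_log (hne q hq hq0)
    rw [hz, exp_zero] at this
    exact this.symm
  rwa [div_eq_one_iff_eq hq0] at h7

end

theorem nome_formula : ∃ δ > 0, δ < 1 ∧ ∀ q : ℂ, ‖q‖ < δ →
    (∀ m : ℕ, ‖rho (q ^ (2 ^ m)) ^ 2 - 1‖ ≤ 1 / 4) ∧
    q = (1 - J q) / 16 *
      exp (-∑' m : ℕ, (2 : ℂ) * (1 / 2) ^ m * log ((1 + rho (q ^ (2 ^ m)) ^ 2) / 2)) := by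
  obtain ⟨δ, hδ, hδ1, h⟩ := l3_main
  refine ⟨δ, hδ, hδ1, fun q hq => ⟨(h q hq).1, ?_⟩⟩
  exact (h q hq).2.symm

end Pool.Agent.Choc
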