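import Pool.Agent.Lib.MP_2b3e36_an.Ex.L2
import Pool.Agent.Lib.MP_2b3e36_an.Ex.L3

/-!
L4. Lifting a function through `J`, and uniqueness of the lift.

Proof of `lift_exists`. Take `k` from `agm_exists`; `1 + k m` has no zeros and `(1 + k m z₀)/2 = 1`, let
`l m` be the holomorphic logarithm of `(1 + k m)/2` on `Ω` with `l m z₀ = 0` (`exists_log`). Since
`k m → 1` locally uniformly (L2), `l m → 0` locally uniformly (near `z₀` it is the principal logarithm for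
large `m`; on a compact connected neighbourhood of a segment from `z₀` to `z`, for large `m` all values
of `(1+k m)/2` are in the disc of radius `1/2` about `1`, so `l m` is the principal logarithm on this
segment). So `S_m = sum_j 2^(1-j) l (m+j)` converges locally uniformly to a holomorphic function and
`S_m → 0` pointwise. `G_m = (1 - k m ^2)/16 * exp (- S_m)`, `G = G_0`. From `step`:
`1 - k (m+1)^2 = (1 - k m ^2)^2/(1 + k m)^4`, so as in L3 `G_(m+1) = G_m^2`, `G_m = G^(2^m)`, and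
`G_m z → 0` pointwise gives `‖G z‖ < 1`. `G z₀ = 0`.
`J ∘ G = f`: near `z₀` let `q` be the local inverse of `J` at `0` (`J_hasDerivAt_zero`) composed with `f`:
`q z₀ = 0`, `J (q z) = f z`. On a small connected neighbourhood both `k m z` and `rho (q z ^(2^m))^2` are
within `1/4` of `1`, agree for `m = 0` (the squares are `f`), and satisfy the same recursion for the
square of the next term (`rho_landen`, `J_sq`), so they agree for all `m`; by `nome_formula` `G = q` near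
`z₀`. So `J ∘ G = f` near `z₀`, and on `Ω` by the identity theorem (`J ∘ G` is holomorphic on `Ω`).
`lift_unique`: `J` is injective near `0` (`J_loc_inj`), so `G₁ = G₂` near `z₀`; identity theorem.
`lift_deriv`: chain rule, `deriv J 0 = -16`.
-/

set_option autoImplicit false

open Complex Set Filter Topology Metric

namespace Pool.Agent.Choc

/-- a continuous logarithm of a function near `1` is the principal one -/
theorem l4_principal {K : Set ℂ} (hK : IsPreconnected K) {l g : ℂ → ℂ} (hl : ContinuousOn l K)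
    (hg : ContinuousOn g K) (he : ∀ w ∈ K, exp (l w) = g w) (h1 : ∀ w ∈ K, ‖g w - 1‖ ≤ 1 / 2)
    {z₀ : ℂ} (hz₀ : z₀ ∈ K) (h0 : l z₀ = log (g z₀)) : ∀ w ∈ K, l w = log (g w) := by
  have hsl : ∀ w ∈ K, g w ∈ slitPlane := by
    intro w hw
    have h2 : g w = 1 + (g w - 1) := by ring
    rw [h2]
    exact mem_slitPlane_of_norm_lt_one (lt_of_le_of_lt (h1 w hw) (by norm_num))
  have hne : ∀ w ∈ K, g w ≠ 0 := fun w hw => slitPlane_ne_zero (hsl w hw)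
  have hcont : ContinuousOn (fun v => ‖l v - log (g v)‖) K :=
    (hl.sub (hg.clog hsl)).norm
  have hd : ∀ v ∈ K, ∃ n : ℤ, l v - log (g v) = n * (2 * Real.pi * I) := by
    intro v hv
    rw [← exp_eq_one_iff, exp_sub, he v hv, exp_log (hne v hv), div_self (hne v hv)]
  have hnorm : ∀ n : ℤ, ‖(n : ℂ) * (2 * Real.pi * I)‖ = |(n : ℝ)| * (2 * Real.pi) := by
    intro n
    rw [norm_mul, norm_mul, norm_mul, norm_I, mul_one, norm_real, norm_intCast, Real.norm_eq_abs,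
      abs_of_pos Real.pi_pos]
    simp
  intro w hw
  by_contra hcon
  obtain ⟨n, hn⟩ := hd w hw
  have hn0 : n ≠ 0 := by
    rintro rfl
    apply hcon
    rw [Int.cast_zero, zero_mul] at hn
    exact sub_eq_zero.mp hn
  have hn1 : (1 : ℝ) ≤ |(n : ℝ)| := by
    have : 1 ≤ |n| := Int.one_le_abs hn0
    exact_mod_cast this
  have hpi := Real.pi_pos
  have hmem : Real.pi ∈ Icc ‖l z₀ - log (g z₀)‖ ‖l w - log (g w)‖ := by
    refine ⟨?_, ?_⟩
    · rw [h0, sub_self, norm_zero]; exact hpi.le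
    · rw [hn, hnorm]; nlinarith
  obtain ⟨v, hv, hv2⟩ := hK.intermediate_value hz₀ hw hcont hmem
  obtain ⟨n', hn'⟩ := hd v hv
  have hv3 : ‖l v - log (g v)‖ = Real.pi := hv2
  rw [hn', hnorm] at hv3
  have h5 : (2 * |(n' : ℝ)| - 1) * Real.pi = 0 := by linarith
  have h6 : 2 * |(n' : ℝ)| = 1 := by
    rcases mul_eq_zero.mp h5 with h | h
    · linarith
    · exact absurd h hpi.ne'
  have h7 : 2 * |n'| = 1 := by exact_mod_cast h6
  omega

/-- the sequence near the base point -/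
theorem l4_near {Ω : Set ℂ} (ho : IsOpen Ω) {z₀ : ℂ} (hz : z₀ ∈ Ω)
    {f : ℂ → ℂ} {k : ℕ → ℂ → ℂ} (hk : AGMSeq Ω z₀ f k) :
    ∃ s > 0, ball z₀ s ⊆ Ω ∧ ∀ m : ℕ, ∀ w ∈ ball z₀ s, ‖k m w - 1‖ ≤ 1 / 4 := by
  have hc0 : ContinuousAt (k 0) z₀ := ((hk.diff 0).continuousOn.continuousAt (ho.mem_nhds hz))
  have h1 : ∀ᶠ z in 𝓝 z₀, ‖k 0 z - 1‖ < 1 / 4 := by
    have h2 : Tendsto (fun z => k 0 z - 1) (𝓝 z₀) (𝓝 (k 0 z₀ - 1)) := hc0.sub tendsto_const_nhds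
    rw [hk.base 0, sub_self] at h2
    have h3 := h2.norm
    rw [norm_zero] at h3
    exact h3.eventually (gt_mem_nhds (by norm_num))
  obtain ⟨s, hs, hsub⟩ := Metric.mem_nhds_iff.mp (h1.and (ho.mem_nhds hz))
  have hsΩ : ball z₀ s ⊆ Ω := fun w hw => (hsub hw).2
  refine ⟨s, hs, hsΩ, ?_⟩
  intro m
  induction m with
  | zero =>
    intro w hw
    exact (hsub hw).1.le
  | succ m ih =>
    refine l2_sign (convex_ball z₀ s).isPreconnected
      ((hk.diff (m + 1)).continuousOn.mono hsΩ) (mem_ball_self hs) ?_ (by norm_num) ?_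
    · rw [hk.base]; simp
    · intro w hw
      have hwΩ := hsΩ hw
      have h4 := ih w hw
      rw [l2_rec (hk.neNeg m w hwΩ) (hk.step m w hwΩ), norm_neg, norm_div, norm_pow, norm_pow]
      have h5 : 1 ≤ ‖1 + k m w‖ := by
        have h6 : (1 : ℂ) + k m w = 2 + (k m w - 1) := by ring
        have h7 := norm_sub_norm_le (2 : ℂ) (-(k m w - 1))
        rw [norm_neg, sub_neg_eq_add, ← h6] at h7
        have h8 : ‖(2 : ℂ)‖ = 2 := by simp
        rw [h8] at h7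
        linarith
      have h9 : 1 ≤ ‖1 + k m w‖ ^ 2 := one_le_pow₀ h5
      rw [div_le_iff₀ (by positivity)]
      have h10 : ‖k m w - 1‖ ^ 2 ≤ 1 / 4 := by
        have := norm_nonneg (k m w - 1)
        nlinarith
      nlinarith

/-- a compact convex set around a point and the base point -/
theorem l4_hull {Ω : Set ℂ} (hc : Convex ℝ Ω) (ho : IsOpen Ω) {z₀ : ℂ} (hz : z₀ ∈ Ω) {z : ℂ}
    (hzΩ : z ∈ Ω) : ∃ s > 0, ∃ K : Set ℂ, IsCompact K ∧ IsPreconnected K ∧ K ⊆ Ω ∧ z₀ ∈ K ∧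
      closedBall z s ⊆ K := by
  obtain ⟨s, hs, hsub⟩ := Metric.nhds_basis_closedBall.mem_iff.mp (ho.mem_nhds hzΩ)
  have hcont : Continuous (fun p : ℝ × ℂ => z₀ + p.1 • (p.2 - z₀)) := by fun_prop
  refine ⟨s, hs, (fun p : ℝ × ℂ => z₀ + p.1 • (p.2 - z₀)) '' (Icc 0 1 ×ˢ closedBall z s),
    ?_, ?_, ?_, ?_, ?_⟩
  · exact (isCompact_Icc.prod (isCompact_closedBall z s)).image hcont
  · exact (isPreconnected_Icc.prod (convex_closedBall z s).isPreconnected).image _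
      hcont.continuousOn
  · rintro _ ⟨⟨t, w⟩, ⟨ht, hw⟩, rfl⟩
    exact hc.add_smul_sub_mem hz (hsub hw) ht
  · refine ⟨(0, z), ⟨⟨le_refl _, zero_le_one⟩, mem_closedBall_self hs.le⟩, ?_⟩
    simp
  · intro w hw
    refine ⟨(1, w), ⟨⟨zero_le_one, le_refl _⟩, hw⟩, ?_⟩
    simp

/-- logarithms of the sequence -/
structure L4Log (Ω : Set ℂ) (z₀ : ℂ) (k l : ℕ → ℂ → ℂ) : Prop where
  diff : ∀ m, DifferentiableOn ℂ (l m) Ω
  eq : ∀ m, ∀ z ∈ Ω, exp (l m z) = (1 + k m z) / 2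
  base : ∀ m, l m z₀ = 0

theorem l4_bound {Ω : Set ℂ} (hc : Convex ℝ Ω) (ho : IsOpen Ω) {z₀ : ℂ} (hz : z₀ ∈ Ω)
    {f : ℂ → ℂ} {k l : ℕ → ℂ → ℂ} (hk : AGMSeq Ω z₀ f k) (hl : L4Log Ω z₀ k l) {z : ℂ}
    (hzΩ : z ∈ Ω) : ∃ s > 0, ball z s ⊆ Ω ∧ ∃ C : ℝ, ∀ j, ∀ w ∈ ball z s, ‖l j w‖ ≤ C := by
  obtain ⟨s, hs, K, hK, hKc, hKΩ, hz₀K, hsK⟩ := l4_hull hc ho hz hzΩ
  have h1 := (tendstoLocallyUniformlyOn_iff_forall_isCompact ho).mp
    (agm_tendsto hc ho hz hk) K hKΩ hK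
  rw [Metric.tendstoUniformlyOn_iff] at h1
  obtain ⟨m₀, hm₀⟩ := eventually_atTop.mp (h1 1 one_pos)
  have hbig : ∀ m, m₀ ≤ m → ∀ w ∈ K, ‖l m w‖ ≤ 1 := by
    intro m hm w hw
    have h2 : ∀ w ∈ K, ‖(1 + k m w) / 2 - 1‖ ≤ 1 / 2 := by
      intro w hw
      have h3 := hm₀ m hm w hw
      rw [dist_eq_norm, norm_sub_rev] at h3
      have e1 : (1 + k m w) / 2 - 1 = (k m w - 1) / 2 := by ring
      rw [e1, norm_div]
      have : ‖(2 : ℂ)‖ = 2 := by simp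
      rw [this]; linarith
    have h4 := l4_principal hKc ((hl.diff m).continuousOn.mono hKΩ)
      (g := fun w => (1 + k m w) / 2)
      ((((hk.diff m).const_add 1).div_const 2).continuousOn.mono hKΩ)
      (fun w hw => hl.eq m w (hKΩ hw)) h2 hz₀K
      (by
        show l m z₀ = log ((1 + k m z₀) / 2)
        rw [hl.base, hk.base]
        norm_num) w hw
    have h5 := norm_log_one_add_half_le_self (h2 w hw)
    rw [add_sub_cancel] at h5
    rw [h4]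
    have h6 := h2 w hw
    linarith
  have hex : ∀ j, ∃ C : ℝ, ∀ w ∈ closedBall z s, ‖l j w‖ ≤ C := fun j =>
    (isCompact_closedBall z s).exists_bound_of_continuousOn
      ((hl.diff j).continuousOn.mono (hsK.trans hKΩ))
  choose C hC using hex
  refine ⟨s, hs, ball_subset_closedBall.trans (hsK.trans hKΩ),
    1 + ∑ j ∈ Finset.range m₀, |C j|, ?_⟩
  intro j w hw
  have hw' := ball_subset_closedBall hw
  by_cases hj : m₀ ≤ j
  · have h7 := hbig j hj w (hsK hw')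
    have h8 : 0 ≤ ∑ j ∈ Finset.range m₀, |C j| := Finset.sum_nonneg fun _ _ => abs_nonneg _
    linarith
  · push Not at hj
    have h9 : |C j| ≤ ∑ j ∈ Finset.range m₀, |C j| :=
      Finset.single_le_sum (f := fun j => |C j|) (fun _ _ => abs_nonneg _)
        (Finset.mem_range.mpr hj)
    have h10 := (hC j w hw').trans (le_abs_self (C j))
    linarith

noncomputable section

/-- the series -/
def l4S (l : ℕ → ℂ → ℂ) (m : ℕ) (z : ℂ) : ℂ := ∑' j : ℕ, (2 : ℂ) * (1 / 2) ^ j * l (m + j) z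

/-- the lift and its powers -/
def l4G (k l : ℕ → ℂ → ℂ) (m : ℕ) (z : ℂ) : ℂ := (1 - k m z ^ 2) / 16 * exp (-l4S l m z)

end

theorem l4_term {l : ℕ → ℂ → ℂ} {z : ℂ} {C : ℝ} (h : ∀ j, ‖l j z‖ ≤ C) (m j : ℕ) :
    ‖(2 : ℂ) * (1 / 2) ^ j * l (m + j) z‖ ≤ (1 / 2) ^ j * (2 * C) := by
  rw [norm_mul, norm_mul, norm_pow]
  have h2 : ‖(2 : ℂ)‖ = 2 := by simp
  have h3 : ‖(1 / 2 : ℂ)‖ = 1 / 2 := by simp
  rw [h2, h3]
  have h4 : (0 : ℝ) ≤ 2 * (1 / 2) ^ j := by positivity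
  nlinarith [mul_le_mul_of_nonneg_left (h (m + j)) h4]

theorem l4_summable {l : ℕ → ℂ → ℂ} {z : ℂ} {C : ℝ} (h : ∀ j, ‖l j z‖ ≤ C) (m : ℕ) :
    Summable fun j : ℕ => (2 : ℂ) * (1 / 2) ^ j * l (m + j) z :=
  Summable.of_norm_bounded (summable_geometric_two.mul_right (2 * C)) (l4_term h m)

theorem l4_S_le {l : ℕ → ℂ → ℂ} {z : ℂ} {C : ℝ} (h : ∀ j, ‖l j z‖ ≤ C) (m : ℕ) :
    ‖l4S l m z‖ ≤ 4 * C := by
  have h1 := tsum_of_norm_bounded (hasSum_geometric_two.mul_right (2 * C)) (l4_term h m)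
  calc ‖l4S l m z‖ ≤ 2 * (2 * C) := h1
    _ = 4 * C := by ring

theorem l4_S_succ {l : ℕ → ℂ → ℂ} {z : ℂ} {C : ℝ} (h : ∀ j, ‖l j z‖ ≤ C) (m : ℕ) :
    l4S l m z = 2 * l m z + 1 / 2 * l4S l (m + 1) z := by
  rw [l4S, (l4_summable h m).tsum_eq_zero_add]
  congr 1
  · simp
  · rw [l4S, ← tsum_mul_left]
    refine tsum_congr fun j => ?_
    rw [show m + (j + 1) = m + 1 + j by ring, pow_succ (1 / 2 : ℂ) j]
    ring

theorem l4_G_succ {Ω : Set ℂ} {z₀ : ℂ} {f : ℂ → ℂ} {k l : ℕ → ℂ → ℂ} (hk : AGMSeq Ω z₀ f k)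
    (hl : L4Log Ω z₀ k l) {z : ℂ} (hzΩ : z ∈ Ω) {C : ℝ} (h : ∀ j, ‖l j z‖ ≤ C) (m : ℕ) :
    l4G k l (m + 1) z = l4G k l m z ^ 2 := by
  have h1 := l4_S_succ h m
  have hne := hk.neNeg m z hzΩ
  have h2 := hl.eq m z hzΩ
  have h3 : -l4S l (m + 1) z = (-l4S l m z + -l4S l m z) +
      (l m z + l m z + (l m z + l m z)) := by
    linear_combination 2 * h1
  have h4 := l2_rec hne (hk.step m z hzΩ)
  have h5 : 1 - k (m + 1) z ^ 2 = (k m z - 1) ^ 2 / (1 + k m z) ^ 2 := by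
    linear_combination -h4
  rw [l4G, l4G, h3, exp_add, exp_add, exp_add, exp_add, h2, h5]
  field_simp
  ring

theorem l4_G_pow {Ω : Set ℂ} {z₀ : ℂ} {f : ℂ → ℂ} {k l : ℕ → ℂ → ℂ} (hk : AGMSeq Ω z₀ f k)
    (hl : L4Log Ω z₀ k l) {z : ℂ} (hzΩ : z ∈ Ω) {C : ℝ} (h : ∀ j, ‖l j z‖ ≤ C) (m : ℕ) :
    l4G k l m z = l4G k l 0 z ^ (2 ^ m) := by
  induction m with
  | zero => simp
  | succ m ih => rw [l4_G_succ hk hl hzΩ h, ih, ← pow_mul, ← pow_succ]

theorem l4_G_lt {Ω : Set ℂ} (hc : Convex ℝ Ω) (ho : IsOpen Ω) {z₀ : ℂ} (hz : z₀ ∈ Ω)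
    {f : ℂ → ℂ} {k l : ℕ → ℂ → ℂ} (hk : AGMSeq Ω z₀ f k) (hl : L4Log Ω z₀ k l) {z : ℂ}
    (hzΩ : z ∈ Ω) : ‖l4G k l 0 z‖ < 1 := by
  obtain ⟨s, hs, -, C, hC⟩ := l4_bound hc ho hz hk hl hzΩ
  have h : ∀ j, ‖l j z‖ ≤ C := fun j => hC j z (mem_ball_self hs)
  have hlim : Tendsto (fun m => k m z) atTop (𝓝 1) :=
    (agm_tendsto hc ho hz hk).tendsto_at hzΩ
  have h2 : Tendsto (fun m => ‖(1 - k m z ^ 2) / 16‖ * Real.exp (4 * C)) atTop (𝓝 0) := by
    have h3 : Tendsto (fun m => (1 - k m z ^ 2) / 16) atTop (𝓝 ((1 - 1 ^ 2) / 16)) :=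
      ((tendsto_const_nhds.sub (hlim.pow 2)).div_const 16)
    rw [one_pow, sub_self, zero_div] at h3
    have h4 := h3.norm.mul_const (Real.exp (4 * C))
    rwa [norm_zero, zero_mul] at h4
  obtain ⟨m, hm⟩ := (h2.eventually (gt_mem_nhds one_pos)).exists
  have h5 : ‖l4G k l m z‖ ≤ ‖(1 - k m z ^ 2) / 16‖ * Real.exp (4 * C) := by
    rw [l4G, norm_mul]
    apply mul_le_mul_of_nonneg_left _ (norm_nonneg _)
    refine (norm_exp_le_exp_norm _).trans ?_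
    rw [norm_neg]
    exact Real.exp_le_exp.mpr (l4_S_le h m)
  by_contra hcon
  push Not at hcon
  have h6 : 1 ≤ ‖l4G k l m z‖ := by
    rw [l4_G_pow hk hl hzΩ h m, norm_pow]
    exact one_le_pow₀ hcon
  linarith

theorem l4_G_diff {Ω : Set ℂ} (hc : Convex ℝ Ω) (ho : IsOpen Ω) {z₀ : ℂ} (hz : z₀ ∈ Ω)
    {f : ℂ → ℂ} {k l : ℕ → ℂ → ℂ} (hk : AGMSeq Ω z₀ f k) (hl : L4Log Ω z₀ k l) :
    DifferentiableOn ℂ (l4G k l 0) Ω := by
  have hS : DifferentiableOn ℂ (l4S l 0) Ω := by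
    intro z hzΩ
    obtain ⟨s, hs, hsΩ, C, hC⟩ := l4_bound hc ho hz hk hl hzΩ
    have h1 : DifferentiableOn ℂ (fun w => ∑' j : ℕ, (2 : ℂ) * (1 / 2) ^ j * l (0 + j) w)
        (ball z s) := by
      refine differentiableOn_tsum_of_summable_norm
        (u := fun j => (1 / 2 : ℝ) ^ j * (2 * C)) (summable_geometric_two.mul_right (2 * C))
        (fun j => ((hl.diff (0 + j)).mono hsΩ).const_mul _) isOpen_ball ?_
      intro j w hw
      exact l4_term (fun j => hC j w hw) 0 j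
    exact ((h1 z (mem_ball_self hs)).differentiableAt
      (isOpen_ball.mem_nhds (mem_ball_self hs))).differentiableWithinAt
  exact ((((hk.diff 0).pow 2).const_sub 1).div_const 16).mul hS.neg.cexp

theorem l4_J_onto {δ : ℝ} (hδ : 0 < δ) : J '' (ball 0 δ) ∈ 𝓝 (1 : ℂ) := by
  have hd : DifferentiableOn ℂ J (ball 0 1) := J_diff
  have ha : AnalyticAt ℂ J 0 := hd.analyticAt (isOpen_ball.mem_nhds (mem_ball_self one_pos))
  have hst : HasStrictDerivAt J (-16) 0 := by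
    have := ha.hasStrictDerivAt
    rwa [J_hasDerivAt_zero.deriv] at this
  have hmap := hst.map_nhds_eq (by norm_num)
  rw [J_zero] at hmap
  rw [← hmap]
  exact image_mem_map (ball_mem_nhds 0 hδ)

theorem l4_local {Ω : Set ℂ} (ho : IsOpen Ω) {z₀ : ℂ} (hz : z₀ ∈ Ω)
    {f : ℂ → ℂ} (hf : DifferentiableOn ℂ f Ω) (h1 : f z₀ = 1)
    {k l : ℕ → ℂ → ℂ} (hk : AGMSeq Ω z₀ f k) (hl : L4Log Ω z₀ k l) :
    ∀ᶠ z in 𝓝 z₀, J (l4G k l 0 z) = f z := by
  obtain ⟨s, hs, hsΩ, hnear⟩ := l4_near ho hz hk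
  obtain ⟨δ, hδ, hδ1, hnome⟩ := nome_formula
  have hfc : Tendsto f (𝓝 z₀) (𝓝 1) := by
    have : ContinuousAt f z₀ := hf.continuousOn.continuousAt (ho.mem_nhds hz)
    have h2 := this.tendsto
    rwa [h1] at h2
  filter_upwards [hfc.eventually (l4_J_onto hδ), ball_mem_nhds z₀ hs] with z hzJ hzs
  obtain ⟨q, hq, hJq⟩ := hzJ
  rw [mem_ball_zero_iff] at hq
  obtain ⟨hq1, hq2⟩ := hnome q hq
  have hzΩ := hsΩ hzs
  have hqm : ∀ m : ℕ, ‖q ^ (2 ^ m)‖ < 1 := by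
    intro m
    rw [norm_pow]
    refine lt_of_le_of_lt ?_ (hq.trans hδ1)
    exact pow_le_of_le_one (norm_nonneg _) (by linarith) (by positivity)
  -- values with the same square near one
  have hsqeq : ∀ a b : ℂ, ‖a - 1‖ ≤ 1 / 4 → ‖b - 1‖ ≤ 1 / 4 → a ^ 2 = b ^ 2 → a = b := by
    intro a b ha hb hab
    rcases sq_eq_sq_iff_eq_or_eq_neg.mp hab with h | h
    · exact h
    · exfalso
      have e1 : (2 : ℂ) = -((a - 1) + (b - 1)) := by rw [h]; ring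
      have e2 : ‖(2 : ℂ)‖ ≤ 1 / 2 := by
        rw [e1, norm_neg]
        refine (norm_add_le _ _).trans ?_
        linarith
      have : ‖(2 : ℂ)‖ = 2 := by simp
      rw [this] at e2
      norm_num at e2
  have hmatch : ∀ m : ℕ, k m z = rho (q ^ (2 ^ m)) ^ 2 := by
    intro m
    induction m with
    | zero =>
      refine hsqeq _ _ (hnear 0 z hzs) (hq1 0) ?_
      rw [hk.zero z hzΩ, ← hJq, pow_zero, pow_one, J]
      ring
    | succ m ih =>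
      refine hsqeq _ _ (hnear (m + 1) z hzs) (hq1 (m + 1)) ?_
      have h3 := hk.step m z hzΩ
      have h4 := J_sq (hqm m)
      rw [← pow_mul, ← pow_succ] at h4
      have h5 : J (q ^ 2 ^ (m + 1)) = (rho (q ^ 2 ^ (m + 1)) ^ 2) ^ 2 := by
        rw [J]; ring
      rw [← h5, h4, ← ih]
      have hne := hk.neNeg m z hzΩ
      rw [eq_div_iff (pow_ne_zero 2 hne)]
      exact h3
  -- the logarithms are principal
  have hball2 : ∀ m, ∀ w ∈ ball z₀ s, ‖(1 + k m w) / 2 - 1‖ ≤ 1 / 2 := by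
    intro m w hw
    have h3 := hnear m w hw
    have e1 : (1 + k m w) / 2 - 1 = (k m w - 1) / 2 := by ring
    rw [e1, norm_div]
    have : ‖(2 : ℂ)‖ = 2 := by simp
    rw [this]; linarith
  have hlog : ∀ m, l m z = log ((1 + k m z) / 2) := by
    intro m
    exact l4_principal (convex_ball z₀ s).isPreconnected ((hl.diff m).continuousOn.mono hsΩ)
      (g := fun w => (1 + k m w) / 2)
      ((((hk.diff m).const_add 1).div_const 2).continuousOn.mono hsΩ)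
      (fun w hw => hl.eq m w (hsΩ hw)) (hball2 m) (mem_ball_self hs)
      (by
        show l m z₀ = log ((1 + k m z₀) / 2)
        rw [hl.base, hk.base]
        norm_num) z hzs
  have hG : l4G k l 0 z = q := by
    rw [hq2, l4G]
    have e1 : k 0 z ^ 2 = J q := by
      rw [hJq, hk.zero z hzΩ]
    rw [e1]
    congr 3
    rw [l4S]
    refine tsum_congr fun m => ?_
    rw [zero_add, hlog m, hmatch m]
  rw [hG, hJq]

theorem lift_exists {Ω : Set ℂ} (hc : Convex ℝ Ω) (ho : IsOpen Ω) {z₀ : ℂ} (hz : z₀ ∈ Ω)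
    {f : ℂ → ℂ} (hf : DifferentiableOn ℂ f Ω) (h0 : ∀ z ∈ Ω, f z ≠ 0)
    (h1 : ∀ z ∈ Ω, f z = 1 ↔ z = z₀) :
    ∃ G : ℂ → ℂ, DifferentiableOn ℂ G Ω ∧ (∀ z ∈ Ω, ‖G z‖ < 1 ∧ J (G z) = f z) ∧ G z₀ = 0 := by
  obtain ⟨k, hk⟩ := agm_exists hc ho hz hf h0 h1
  have hex : ∀ m, ∃ l : ℂ → ℂ, DifferentiableOn ℂ l Ω ∧
      (∀ z ∈ Ω, exp (l z) = (1 + k m z) / 2) ∧ l z₀ = 0 := by
    intro m
    refine exists_log ho hz (hc.starConvex hz) (((hk.diff m).const_add 1).div_const 2) ?_ ?_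
    · intro z hz
      exact div_ne_zero (hk.neNeg m z hz) two_ne_zero
    · rw [exp_zero, hk.base]; norm_num
  choose l hl1 hl2 hl3 using hex
  have hl : L4Log Ω z₀ k l := ⟨hl1, hl2, hl3⟩
  have hd := l4_G_diff hc ho hz hk hl
  have hlt : ∀ z ∈ Ω, ‖l4G k l 0 z‖ < 1 := fun z hz' => l4_G_lt hc ho hz hk hl hz'
  refine ⟨l4G k l 0, hd, ?_, ?_⟩
  · have hloc := l4_local ho hz hf ((h1 z₀ hz).mpr rfl) hk hl
    have hJd : DifferentiableOn ℂ (fun z => J (l4G k l 0 z)) Ω :=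
      J_diff.comp hd (fun z hz' => by rw [mem_ball_zero_iff]; exact hlt z hz')
    have heq := (hJd.analyticOnNhd ho).eqOn_of_preconnected_of_eventuallyEq
      (hf.analyticOnNhd ho) hc.isPreconnected hz hloc
    intro z hz'
    exact ⟨hlt z hz', heq hz'⟩
  · rw [l4G, hk.base]; simp

theorem lift_unique {Ω : Set ℂ} (ho : IsOpen Ω) (hc : IsPreconnected Ω) {z₀ : ℂ} (hz : z₀ ∈ Ω)
    {G₁ G₂ : ℂ → ℂ} (hd₁ : DifferentiableOn ℂ G₁ Ω) (hd₂ : DifferentiableOn ℂ G₂ Ω)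
    (hb₁ : ∀ z ∈ Ω, ‖G₁ z‖ < 1) (hb₂ : ∀ z ∈ Ω, ‖G₂ z‖ < 1)
    (hJ : ∀ z ∈ Ω, J (G₁ z) = J (G₂ z)) (e₁ : G₁ z₀ = 0) (e₂ : G₂ z₀ = 0) :
    ∀ z ∈ Ω, G₁ z = G₂ z := by
  obtain ⟨δ, hδ, -, hinj⟩ := J_loc_inj
  have hn : Ω ∈ 𝓝 z₀ := ho.mem_nhds hz
  have hc₁ : Tendsto G₁ (𝓝 z₀) (𝓝 0) := by
    have := (hd₁.continuousOn.continuousAt hn).tendsto
    rwa [e₁] at this
  have hc₂ : Tendsto G₂ (𝓝 z₀) (𝓝 0) := by
    have := (hd₂.continuousOn.continuousAt hn).tendsto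
    rwa [e₂] at this
  have hev : G₁ =ᶠ[𝓝 z₀] G₂ := by
    filter_upwards [hc₁.eventually (ball_mem_nhds 0 hδ), hc₂.eventually (ball_mem_nhds 0 hδ), hn]
      with z h₁ h₂ hzΩ
    exact hinj h₁ h₂ (hJ z hzΩ)
  exact (hd₁.analyticOnNhd ho).eqOn_of_preconnected_of_eventuallyEq
    (hd₂.analyticOnNhd ho) hc hz hev

theorem lift_deriv {Ω : Set ℂ} (ho : IsOpen Ω) {z₀ : ℂ} (hz : z₀ ∈ Ω) {f G : ℂ → ℂ}
    (hG : DifferentiableOn ℂ G Ω) (hb : ∀ z ∈ Ω, ‖G z‖ < 1) (hJ : ∀ z ∈ Ω, J (G z) = f z)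
    (e : G z₀ = 0) : deriv f z₀ = -16 * deriv G z₀ := by
  have hn : Ω ∈ 𝓝 z₀ := ho.mem_nhds hz
  have hGd : HasDerivAt G (deriv G z₀) z₀ := ((hG z₀ hz).differentiableAt hn).hasDerivAt
  have hJ0 : HasDerivAt J (-16) (G z₀) := by rw [e]; exact J_hasDerivAt_zero
  have h1 : HasDerivAt (fun z => J (G z)) (-16 * deriv G z₀) z₀ := hJ0.comp z₀ hGd
  have h2 : f =ᶠ[𝓝 z₀] fun z => J (G z) := by
    filter_upwards [hn] with z hz'
    exact (hJ z hz').symm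
  exact (h1.congr_of_eventuallyEq h2).deriv

end Pool.Agent.Choc
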