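import Pool.Agent.Lib.MP_2b3e36_an.Ex.L1
import Pool.Agent.Lib.MP_e4ee3e_an.Q04
import Pool.Agent.Lib.MP_2794d1_ag.PC.CA1

/-!
L2. `k m → 1` locally uniformly on `Ω`.

Proof. (1) Near `z₀`: on a small ball `|k 0 - 1| ≤ 1/4`. From `step`,
`1 - k (m+1)^2 = ((1 - k m)/(1 + k m))^2`; if `|k m - 1| ≤ 1/4` on the ball then `|1 - k (m+1)^2| ≤ |1 - k m|^2 / 3`
is small, so `k (m+1)` is near `1` or near `-1`; the ball is connected and `k (m+1) z₀ = 1`, so
`|1 + k (m+1)| ≥ 1` and `|1 - k (m+1)| ≤ |1 - k m|^2`. So `k m → 1` uniformly on the ball.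
(2) Let `E` be the set of the points of `Ω` having a ball on which `k m → 1` uniformly; `E` is open and
not empty. It is relatively closed: let `zs ∈ Ω`, `zs ≠ z₀`, be a limit of points of `E`; take `r` with
`ball zs r ⊆ Ω`, `z₀ ∉ ball zs r`, and `z₁ ∈ E` with `|z₁ - zs| < r/16`; `ball z₁ (r/2) ⊆ Ω \ {z₀}`.
There `f_m = k m ^2` omits `0` (ne0) and `1` (eq1), and `f_m z₁ → 1`, so for large `m`
`1/2 ≤ |f_m z₁| ≤ 2` and `schottky01` (library MP_e4ee3e_an, Q04) gives `|f_m| ≤ M'` on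
`ball z₁ (r/4)`. The Taylor coefficients `a_{m,j}` of `f_m - 1` at `z₁` tend to `0` for `m → ∞` (Cauchy
estimate on a small circle about `z₁ ∈ E`) and are bounded by `(M'+1) (r/4)^(-j)` up to shrinking; so
by dominated convergence `sum_j |a_{m,j}| (r/8)^j → 0`: `f_m → 1` uniformly on `ball z₁ (r/8)`, which
contains `zs`. There `k m` is close to `1` or to `-1`, constant sign on the ball (connected), and it is
near `1` at `z₁`; so `k m → 1` uniformly. Hence `zs ∈ E`. `Ω` is convex, so connected: `E = Ω`.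
-/

set_option autoImplicit false

open Complex Set Filter Topology Metric

namespace Pool.Agent.Choc

/-- a branch of the square root near `1` -/
theorem l2_sign {B : Set ℂ} (hB : IsPreconnected B) {g : ℂ → ℂ} (hg : ContinuousOn g B) {w₀ : ℂ}
    (hw₀ : w₀ ∈ B) (hpos : 0 < (g w₀).re) {δ : ℝ} (hδ : δ < 1)
    (h : ∀ w ∈ B, ‖g w ^ 2 - 1‖ ≤ δ) : ∀ w ∈ B, ‖g w - 1‖ ≤ δ := by
  have hne : ∀ w ∈ B, (g w).re ≠ 0 := by
    intro w hw h0
    have h1 := h w hw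
    have h2 : (g w ^ 2 - 1).re = -((g w).im ^ 2) - 1 := by
      rw [sub_re, one_re, sq, mul_re, h0]; ring
    have h3 := abs_re_le_norm (g w ^ 2 - 1)
    rw [h2] at h3
    have h4 := (abs_le.mp (h3.trans h1)).1
    nlinarith [sq_nonneg (g w).im]
  have hre : ContinuousOn (fun w => (g w).re) B := continuous_re.comp_continuousOn hg
  intro w hw
  have hwpos : 0 < (g w).re := by
    by_contra hc
    push Not at hc
    have h5 := hB.intermediate_value hw hw₀ hre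
    obtain ⟨v, hv, hv0⟩ := h5 ⟨hc, hpos.le⟩
    exact hne v hv hv0
  have h6 : 1 ≤ ‖g w + 1‖ := by
    have h7 := abs_re_le_norm (g w + 1)
    rw [add_re, one_re] at h7
    have h8 := le_abs_self ((g w).re + 1)
    linarith
  calc ‖g w - 1‖ ≤ ‖g w - 1‖ * ‖g w + 1‖ := le_mul_of_one_le_right (norm_nonneg _) h6
    _ = ‖g w ^ 2 - 1‖ := by rw [← norm_mul]; congr 1; ring
    _ ≤ δ := h w hw

/-- `1 - k (m+1)^2` in terms of `k m` -/
theorem l2_rec {a b : ℂ} (hb : 1 + b ≠ 0) (h : a ^ 2 * (1 + b) ^ 2 = 4 * b) :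
    a ^ 2 - 1 = -((b - 1) ^ 2 / (1 + b) ^ 2) := by
  have h2 : (1 + b) ^ 2 ≠ 0 := pow_ne_zero 2 hb
  field_simp
  linear_combination h

/-- good points -/
def L2Good (Ω : Set ℂ) (k : ℕ → ℂ → ℂ) (z : ℂ) : Prop :=
  ∃ s > 0, ball z s ⊆ Ω ∧ ∀ ε > 0, ∀ᶠ m in atTop, ∀ w ∈ ball z s, ‖k m w - 1‖ ≤ ε

theorem l2_base {Ω : Set ℂ} (ho : IsOpen Ω) {z₀ : ℂ} (hz : z₀ ∈ Ω)
    {f : ℂ → ℂ} {k : ℕ → ℂ → ℂ} (hk : AGMSeq Ω z₀ f k) : L2Good Ω k z₀ := by
  have hc0 : ContinuousAt (k 0) z₀ := ((hk.diff 0).continuousOn.continuousAt (ho.mem_nhds hz))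
  have h1 : ∀ᶠ z in 𝓝 z₀, ‖k 0 z - 1‖ < 1 / 4 := by
    have h2 : Tendsto (fun z => k 0 z - 1) (𝓝 z₀) (𝓝 (k 0 z₀ - 1)) := hc0.sub tendsto_const_nhds
    rw [hk.base 0, sub_self] at h2
    have h3 := h2.norm
    rw [norm_zero] at h3
    exact h3.eventually (gt_mem_nhds (by norm_num))
  obtain ⟨s, hs, hsub⟩ := Metric.mem_nhds_iff.mp (h1.and (ho.mem_nhds hz))
  have hsΩ : ball z₀ s ⊆ Ω := fun w hw => (hsub hw).2
  have hind : ∀ m : ℕ, ∀ w ∈ ball z₀ s, ‖k m w - 1‖ ≤ (1 / 4) ^ (m + 1) := by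
    intro m
    induction m with
    | zero =>
      intro w hw
      have := (hsub hw).1
      simp only [zero_add, pow_one]
      exact this.le
    | succ m ih =>
      have hδ : ((1 : ℝ) / 4) ^ (m + 1) ≤ 1 / 4 := by
        rw [pow_succ]
        have : ((1 : ℝ) / 4) ^ m ≤ 1 := pow_le_one₀ (by norm_num) (by norm_num)
        linarith
      have hδ0 : (0 : ℝ) < (1 / 4) ^ (m + 1) := by positivity
      have hδ' : ((1 : ℝ) / 4) ^ (m + 1 + 1) = (1 / 4) ^ (m + 1) * (1 / 4) := pow_succ _ _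
      refine l2_sign (convex_ball z₀ s).isPreconnected
        ((hk.diff (m + 1)).continuousOn.mono hsΩ) (mem_ball_self hs) ?_ ?_ ?_
      · rw [hk.base]; simp
      · rw [hδ']; linarith
      · intro w hw
        have hwΩ := hsΩ hw
        have h4 := ih w hw
        rw [l2_rec (hk.neNeg m w hwΩ) (hk.step m w hwΩ), norm_neg, norm_div, norm_pow, norm_pow]
        have h5 : 1 ≤ ‖1 + k m w‖ := by
          have h6 : (1 : ℂ) + k m w = 2 + (k m w - 1) := by ring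
          have h7 := norm_sub_norm_le (2 : ℂ) (-(k m w - 1))
          rw [norm_neg, sub_neg_eq_add, ← h6] at h7
          have h8 : ‖(2 : ℂ)‖ = 2 := by simp
          rw [h8] at h7
          linarith
        have h9 : 1 ≤ ‖1 + k m w‖ ^ 2 := one_le_pow₀ h5
        rw [div_le_iff₀ (by positivity), hδ']
        have h10 : ‖k m w - 1‖ ^ 2 ≤ (1 / 4) ^ (m + 1) * (1 / 4) := by
          rw [sq]
          exact mul_le_mul h4 (h4.trans hδ) (norm_nonneg _) hδ0.le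
        calc ‖k m w - 1‖ ^ 2 ≤ (1 / 4) ^ (m + 1) * (1 / 4) := h10
          _ ≤ (1 / 4) ^ (m + 1) * (1 / 4) * ‖1 + k m w‖ ^ 2 :=
            le_mul_of_one_le_right (by positivity) h9
  refine ⟨s, hs, hsΩ, ?_⟩
  intro ε hε
  have hlim : Tendsto (fun m : ℕ => ((1 : ℝ) / 4) ^ (m + 1)) atTop (𝓝 0) :=
    (tendsto_pow_atTop_nhds_zero_of_lt_one (by norm_num) (by norm_num)).comp (tendsto_add_atTop_nat 1)
  filter_upwards [hlim.eventually (gt_mem_nhds hε)] with m hm w hw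
  exact (hind m w hw).trans hm.le

/-- three circles on a ball, smallness is transported to the half ball -/
theorem l2_circles {x : ℂ} {r s B : ℝ} (hr : 0 < r) (hs : 0 < s) {h : ℕ → ℂ → ℂ}
    (hd : ∀ᶠ m in atTop, DifferentiableOn ℂ (h m) (ball x r))
    (hB : ∀ᶠ m in atTop, ∀ w ∈ ball x r, ‖h m w‖ ≤ B)
    (hsm : ∀ ε > 0, ∀ᶠ m in atTop, ∀ w ∈ ball x s, ‖h m w‖ ≤ ε) :
    ∀ ε > 0, ∀ᶠ m in atTop, ∀ w ∈ ball x (r / 2), ‖h m w‖ ≤ ε := by
  intro ε hε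
  obtain ⟨ρ, hρ⟩ : ∃ ρ : ℝ, ρ = min (s / r) (1 / 2) := ⟨_, rfl⟩
  have hρ0 : 0 < ρ := by rw [hρ]; exact lt_min (by positivity) (by norm_num)
  have hρ2 : ρ ≤ 1 / 2 := by rw [hρ]; exact min_le_right _ _
  have hρs : ρ * r ≤ s := by
    have : ρ ≤ s / r := by rw [hρ]; exact min_le_left _ _
    rwa [le_div_iff₀ hr] at this
  have hlog2 : 0 < Real.log 2 := Real.log_pos (by norm_num)
  have hlogρ : Real.log 2 ≤ Real.log (1 / ρ) := by
    apply Real.log_le_log (by norm_num)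
    rw [le_div_iff₀ hρ0]; linarith
  obtain ⟨θ, hθ⟩ : ∃ θ : ℝ, θ = Real.log 2 / Real.log (1 / ρ) := ⟨_, rfl⟩
  have hθ0 : 0 < θ := by rw [hθ]; exact div_pos hlog2 (by linarith)
  have hθ1 : θ ≤ 1 := by rw [hθ, div_le_one (by linarith)]; exact hlogρ
  have hθl : θ * Real.log (1 / ρ) = Real.log 2 := by
    rw [hθ, div_mul_cancel₀]; linarith
  obtain ⟨M, hM⟩ : ∃ M : ℝ, M = max B 1 := ⟨_, rfl⟩
  have hM1 : 1 ≤ M := by rw [hM]; exact le_max_right _ _
  have hBM : B ≤ M := by rw [hM]; exact le_max_left _ _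
  -- choose δ
  have hlim : Tendsto (fun η : ℝ => η ^ θ * M ^ (1 - θ)) (𝓝[>] 0) (𝓝 0) := by
    have h1 : Tendsto (fun η : ℝ => η ^ θ * M ^ (1 - θ)) (𝓝 0) (𝓝 (0 ^ θ * M ^ (1 - θ))) :=
      ((Real.continuous_rpow_const hθ0.le).tendsto 0).mul_const _
    rw [Real.zero_rpow hθ0.ne', zero_mul] at h1
    exact h1.mono_left nhdsWithin_le_nhds
  obtain ⟨δ, hδ1, hδ0, hδ2⟩ : ∃ δ : ℝ, δ ^ θ * M ^ (1 - θ) < ε ∧ 0 < δ ∧ δ < 1 := by
    have h2 := hlim.eventually (gt_mem_nhds hε)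
    have h3 : ∀ᶠ η : ℝ in 𝓝[>] 0, η ∈ Ioo (0 : ℝ) 1 := Ioo_mem_nhdsGT one_pos
    obtain ⟨δ, h4, h5⟩ := (h2.and h3).exists
    exact ⟨δ, h4, h5.1, h5.2⟩
  filter_upwards [hd, hB, hsm δ hδ0] with m hdm hBm hsmm w hw
  have haff : ∀ ζ ∈ ball (0 : ℂ) 1, x + r * ζ ∈ ball x r := by
    intro ζ hζ
    rw [mem_ball_zero_iff] at hζ
    rw [mem_ball_iff_norm, add_sub_cancel_left, norm_mul, norm_real, Real.norm_eq_abs,
      abs_of_pos hr]
    nlinarith
  have hF : DifferentiableOn ℂ (fun ζ : ℂ => h m (x + r * ζ)) (ball 0 1) := by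
    refine hdm.comp ?_ haff
    fun_prop
  obtain ⟨ζ, hζ⟩ : ∃ ζ : ℂ, x + r * ζ = w := by
    refine ⟨(w - x) / r, ?_⟩
    have : (r : ℂ) ≠ 0 := by exact_mod_cast hr.ne'
    field_simp
    ring
  have hζn : ‖ζ‖ < 1 / 2 := by
    rw [← hζ, mem_ball_iff_norm, add_sub_cancel_left, norm_mul, norm_real, Real.norm_eq_abs,
      abs_of_pos hr] at hw
    by_contra hcon
    push Not at hcon
    nlinarith
  have h6 := MP2794d1.PC.three_circles ρ hρ0 (by linarith) (fun ζ : ℂ => h m (x + r * ζ)) hF M δ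
    hδ0.le (by linarith) (fun ζ hζ => (hBm _ (haff ζ hζ)).trans hBM)
    (by
      intro ζ hζ
      apply hsmm
      rw [mem_ball_zero_iff] at hζ
      rw [mem_ball_iff_norm, add_sub_cancel_left, norm_mul, norm_real, Real.norm_eq_abs,
        abs_of_pos hr]
      nlinarith)
    ζ (by rw [mem_ball_zero_iff]; linarith) θ hθ0 hθ1
    (by
      intro hζ0
      rw [hθl]
      apply Real.log_le_log (by norm_num)
      have : 0 < ‖ζ‖ := norm_pos_iff.mpr hζ0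
      rw [le_div_iff₀ this]
      linarith)
  simp only [hζ] at h6
  exact h6.trans hδ1.le

theorem l2_closed {Ω : Set ℂ} (ho : IsOpen Ω) {z₀ : ℂ}
    {f : ℂ → ℂ} {k : ℕ → ℂ → ℂ} (hk : AGMSeq Ω z₀ f k) {zs : ℂ} (hzs : zs ∈ Ω) (hne : zs ≠ z₀)
    (hcl : zs ∈ closure {z | L2Good Ω k z}) : L2Good Ω k zs := by
  obtain ⟨R, hR, hRsub⟩ := Metric.mem_nhds_iff.mp
    (Filter.inter_mem (ho.mem_nhds hzs) (isOpen_ne.mem_nhds hne : {z : ℂ | z ≠ z₀} ∈ 𝓝 zs))
  obtain ⟨z₁, hz₁, hdist⟩ := Metric.mem_closure_iff.mp hcl (R / 16) (by positivity)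
  obtain ⟨s, hs, hsΩ, hsconv⟩ := hz₁
  have hdist' : dist z₁ zs < R / 16 := by rwa [dist_comm]
  have hb : ball z₁ (R / 2) ⊆ ball zs R := by
    intro w hw
    rw [mem_ball] at hw ⊢
    calc dist w zs ≤ dist w z₁ + dist z₁ zs := dist_triangle _ _ _
      _ < R := by linarith
  have hbΩ : ball z₁ (R / 2) ⊆ Ω := fun w hw => (hRsub (hb hw)).1
  have hz₁Ω : z₁ ∈ Ω := hbΩ (mem_ball_self (by positivity))
  obtain ⟨M', hM'⟩ := Pool.Agent.Lib.MP_e4ee3e_an.schottky01 2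
  -- k m z₁ → 1
  have hk1 : ∀ ε > 0, ∀ᶠ m in atTop, ‖k m z₁ - 1‖ ≤ ε := by
    intro ε hε
    filter_upwards [hsconv ε hε] with m hm
    exact hm z₁ (mem_ball_self hs)
  have hbd : ∀ᶠ m in atTop, ∀ w ∈ ball z₁ (R / 4), ‖k m w ^ 2 - 1‖ ≤ M' + 1 := by
    filter_upwards [hk1 (1 / 8) (by norm_num)] with m hm w hw
    have hd : DifferentiableOn ℂ (fun w => k m w ^ 2) (ball z₁ (R / 2)) :=
      ((hk.diff m).mono hbΩ).pow 2
    have hsq : ‖k m z₁ ^ 2 - 1‖ ≤ 1 / 2 := by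
      have e1 : k m z₁ ^ 2 - 1 = (k m z₁ - 1) * (2 + (k m z₁ - 1)) := by ring
      rw [e1, norm_mul]
      have e2 : ‖(2 : ℂ) + (k m z₁ - 1)‖ ≤ 2 + 1 / 8 := by
        refine (norm_add_le _ _).trans ?_
        have : ‖(2 : ℂ)‖ = 2 := by simp
        rw [this]; linarith
      calc ‖k m z₁ - 1‖ * ‖(2 : ℂ) + (k m z₁ - 1)‖ ≤ (1 / 8) * (2 + 1 / 8) :=
            mul_le_mul hm e2 (norm_nonneg _) (by norm_num)
        _ ≤ 1 / 2 := by norm_num
    have h1 : ‖k m z₁ ^ 2‖ ≤ 2 := by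
      have e3 : k m z₁ ^ 2 = 1 + (k m z₁ ^ 2 - 1) := by ring
      have e4 := norm_add_le (1 : ℂ) (k m z₁ ^ 2 - 1)
      rw [← e3, norm_one] at e4
      linarith
    have h2 : 1 / 2 ≤ ‖k m z₁ ^ 2‖ := by
      have e4 := norm_sub_norm_le (1 : ℂ) (1 - k m z₁ ^ 2)
      rw [norm_one, sub_sub_cancel, norm_sub_rev] at e4
      linarith
    have h3 := hM' z₁ (R / 2) (fun w => k m w ^ 2) (by positivity) hd
      (by
        intro z hz
        refine ⟨pow_ne_zero 2 (hk.ne0 m z (hbΩ hz)), ?_⟩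
        intro hz1
        exact (hRsub (hb hz)).2 (hk.eq1 m z (hbΩ hz) hz1)) h2 h1 w
      (by rw [show R / 2 / 2 = R / 4 by ring]; exact hw)
    calc ‖k m w ^ 2 - 1‖ ≤ ‖k m w ^ 2‖ + ‖(1 : ℂ)‖ := norm_sub_le _ _
      _ ≤ M' + 1 := by rw [norm_one]; linarith
  have hsm : ∀ ε > 0, ∀ᶠ m in atTop, ∀ w ∈ ball z₁ s, ‖k m w ^ 2 - 1‖ ≤ ε := by
    intro ε hε
    filter_upwards [hsconv (min (ε / 3) 1) (lt_min (by positivity) one_pos)] with m hm w hw
    have h4 := hm w hw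
    have h5 : ‖k m w - 1‖ ≤ ε / 3 := h4.trans (min_le_left _ _)
    have h6 : ‖k m w - 1‖ ≤ 1 := h4.trans (min_le_right _ _)
    have e1 : k m w ^ 2 - 1 = (k m w - 1) * (2 + (k m w - 1)) := by ring
    rw [e1, norm_mul]
    have e2 : ‖(2 : ℂ) + (k m w - 1)‖ ≤ 3 := by
      refine (norm_add_le _ _).trans ?_
      have : ‖(2 : ℂ)‖ = 2 := by simp
      rw [this]; linarith
    calc ‖k m w - 1‖ * ‖(2 : ℂ) + (k m w - 1)‖ ≤ (ε / 3) * 3 :=
          mul_le_mul h5 e2 (norm_nonneg _) (by positivity)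
      _ = ε := by ring
  have hb4 : ball z₁ (R / 4) ⊆ Ω := (ball_subset_ball (by linarith)).trans hbΩ
  have hcirc := l2_circles (h := fun m w => k m w ^ 2 - 1) (by positivity : 0 < R / 4) hs
    (Filter.Eventually.of_forall fun m => (((hk.diff m).mono hb4).pow 2).sub_const 1) hbd hsm
  refine ⟨R / 16, by positivity, ?_, ?_⟩
  · exact (ball_subset_ball (by linarith)).trans (fun w hw => (hRsub hw).1)
  · intro ε hε
    filter_upwards [hcirc (min ε (1 / 2)) (lt_min hε (by norm_num)), hk1 (1 / 2) (by norm_num)]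
      with m hm hm1 w hw
    have hw' : w ∈ ball z₁ (R / 4 / 2) := by
      rw [mem_ball] at hw ⊢
      calc dist w z₁ ≤ dist w zs + dist zs z₁ := dist_triangle _ _ _
        _ < R / 4 / 2 := by linarith
    have hpos : 0 < (k m z₁).re := by
      have h7 := abs_re_le_norm (k m z₁ - 1)
      rw [sub_re, one_re] at h7
      have h8 := (abs_le.mp (h7.trans hm1)).1
      linarith
    have h9 := l2_sign (convex_ball z₁ (R / 4 / 2)).isPreconnected
      ((hk.diff m).continuousOn.mono ((ball_subset_ball (by linarith)).trans hb4))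
      (mem_ball_self (by positivity)) hpos
      (lt_of_le_of_lt (min_le_right _ _) (by norm_num) : min ε (1 / 2) < (1 : ℝ)) hm w hw'
    exact h9.trans (min_le_left _ _)

theorem l2_good {Ω : Set ℂ} (hc : Convex ℝ Ω) (ho : IsOpen Ω) {z₀ : ℂ} (hz : z₀ ∈ Ω)
    {f : ℂ → ℂ} {k : ℕ → ℂ → ℂ} (hk : AGMSeq Ω z₀ f k) : ∀ z ∈ Ω, L2Good Ω k z := by
  have hopen : IsOpen {z | L2Good Ω k z} := by
    rw [Metric.isOpen_iff]
    rintro z ⟨s, hs, hsΩ, hconv⟩
    refine ⟨s, hs, ?_⟩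
    intro w hw
    have hd : 0 < s - dist w z := by rw [mem_ball] at hw; linarith
    have hsub : ball w (s - dist w z) ⊆ ball z s := by
      intro v hv
      rw [mem_ball] at hv ⊢
      calc dist v z ≤ dist v w + dist w z := dist_triangle _ _ _
        _ < s := by linarith
    refine ⟨s - dist w z, hd, hsub.trans hsΩ, ?_⟩
    intro ε hε
    filter_upwards [hconv ε hε] with m hm v hv
    exact hm v (hsub hv)
  refine hc.isPreconnected.subset_of_closure_inter_subset hopen ⟨z₀, hz, l2_base ho hz hk⟩ ?_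
  rintro z ⟨hzc, hzΩ⟩
  by_cases hne : z = z₀
  · rw [hne]; exact l2_base ho hz hk
  · exact l2_closed ho hk hzΩ hne hzc

theorem agm_tendsto {Ω : Set ℂ} (hc : Convex ℝ Ω) (ho : IsOpen Ω) {z₀ : ℂ} (hz : z₀ ∈ Ω)
    {f : ℂ → ℂ} {k : ℕ → ℂ → ℂ} (hk : AGMSeq Ω z₀ f k) :
    TendstoLocallyUniformlyOn k (fun _ => (1 : ℂ)) atTop Ω := by
  rw [Metric.tendstoLocallyUniformlyOn_iff]
  intro ε hε z hzΩ
  obtain ⟨s, hs, hsΩ, hconv⟩ := l2_good hc ho hz hk z hzΩ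
  refine ⟨ball z s, mem_nhdsWithin_of_mem_nhds (ball_mem_nhds z hs), ?_⟩
  filter_upwards [hconv (ε / 2) (by positivity)] with m hm w hw
  rw [dist_comm, dist_eq_norm]
  exact lt_of_le_of_lt (hm w hw) (by linarith)

end Pool.Agent.Choc
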