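import Pool.Agent.Lib.MP_2b3e36_an.Ex.Defs

/-!
A1. Maximum principle for bounded harmonic functions with finitely many exceptional boundary points.

Proof. Let `D > diam Ω + 1` bound the distances, and `β z = sum_{x ∈ F} log (D / |z - x|) ≥ 0` (harmonic on
`Ω` off `F`; if a point of `F` is in `Ω`, drop it from `F`: only points of the frontier matter, and the
frontier of an open set is disjoint from it). For `ε > 0` let `w = u - ε β`. Suppose `w z₁ > ε` for some
`z₁ ∈ Ω`; let `m = sup_Ω w > ε`, `z_n ∈ Ω` with `w z_n → m`; a subsequence converges to `ζ ∈ closure Ω`.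
`ζ ∈ frontier Ω \ F`: then eventually `u < ε`, `w < ε`, contradiction. `ζ ∈ F ∩ frontier Ω`: `w → -∞`,
contradiction. So `ζ ∈ Ω` and `w ζ = m` is a maximum of the harmonic function `w` on `Ω`. The set
`{w = m}` is closed in `Ω`, and open by the mean value property (or: `w = Re h` near the point,
`exp h` has a local maximum of the modulus, so is constant near it). Let `C` be the connected component
of `Ω` containing `ζ`: `w = m` on `C`. `C` is open, bounded and nonempty, so its frontier is nonempty and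
contained in the frontier of `Ω` (a frontier point of `C` in `Ω` would belong to a component); at such a
point the above contradiction applies. So `w ≤ ε` on `Ω` for all `ε`; let `ε → 0` with `z` fixed.
-/

set_option autoImplicit false

open Complex Set Filter Topology Metric

namespace Pool.Agent.Choc

open InnerProductSpace in
theorem a1_open {Ω : Set ℂ} (ho : IsOpen Ω) {u : ℂ → ℝ} (hu : HarmonicOnNhd u Ω) {z : ℂ}
    (hz : z ∈ Ω) (hmax : ∀ y ∈ Ω, u y ≤ u z) : ∀ᶠ y in 𝓝 z, u y = u z := by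
  obtain ⟨R, hR, hball⟩ := Metric.isOpen_iff.1 ho z hz
  obtain ⟨h, hh, hre⟩ := (hu.mono hball).exists_analyticOnNhd_ball_re_eq
  have e0 : (h z).re = u z := hre (mem_ball_self hR)
  have hd : ∀ᶠ y in 𝓝 z, DifferentiableAt ℂ (fun y => Complex.exp (h y)) y := by
    filter_upwards [ball_mem_nhds z hR] with y hy
    exact ((hh y hy).differentiableAt).cexp
  have hmx : IsLocalMax (norm ∘ fun y => Complex.exp (h y)) z := by
    filter_upwards [ball_mem_nhds z hR] with y hy
    have e1 : (h y).re = u y := hre hy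
    show ‖Complex.exp (h y)‖ ≤ ‖Complex.exp (h z)‖
    rw [Complex.norm_exp, Complex.norm_exp, Real.exp_le_exp, e1, e0]
    exact hmax y (hball hy)
  filter_upwards [Complex.norm_eventually_eq_of_isLocalMax hd hmx, ball_mem_nhds z hR] with y hy hyb
  have e1 : (h y).re = u y := hre hyb
  rw [Complex.norm_exp, Complex.norm_exp, Real.exp_eq_exp, e1, e0] at hy
  exact hy

open InnerProductSpace in
/-- the maximum principle without exceptional points -/
theorem a1_max0 {Ω : Set ℂ} (ho : IsOpen Ω) (hb : Bornology.IsBounded Ω) {w : ℂ → ℝ}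
    (hw : HarmonicOnNhd w Ω)
    (hbd : ∀ ζ ∈ frontier Ω, ∀ δ > 0, ∀ᶠ z in 𝓝[Ω] ζ, w z < δ) :
    ∀ z ∈ Ω, w z ≤ 0 := by
  intro z₁ hz₁
  by_contra hcon
  push Not at hcon
  set δ := w z₁ with hδ
  have hcont : ∀ z ∈ Ω, ContinuousAt w z := fun z hz => (hw z hz).1.continuousAt
  set K : Set ℂ := {z | z ∈ Ω ∧ δ ≤ w z} with hK
  have hKc : IsClosed K := by
    apply isClosed_of_closure_subset
    intro z hz
    have hfr := mem_closure_iff_frequently.1 hz
    by_cases hzΩ : z ∈ Ω
    · refine ⟨hzΩ, ?_⟩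
      by_contra hlt
      push Not at hlt
      have h1 := (hcont z hzΩ).eventually_lt_const hlt
      obtain ⟨y, hy1, hy2⟩ := (hfr.and_eventually h1).exists
      exact absurd hy1.2 (not_le.2 hy2)
    · exfalso
      have hzf : z ∈ frontier Ω := by
        rw [ho.frontier_eq]
        exact ⟨closure_mono (fun y hy => hy.1) hz, hzΩ⟩
      have h1 := hbd z hzf δ hcon
      rw [eventually_nhdsWithin_iff] at h1
      obtain ⟨y, hy1, hy2⟩ := (hfr.and_eventually h1).exists
      exact absurd hy1.2 (not_le.2 (hy2 hy1.1))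
  have hKcomp : IsCompact K :=
    Metric.isCompact_of_isClosed_isBounded hKc (hb.subset (fun y hy => hy.1))
  have hcK : ContinuousOn w K := fun z hz => (hcont z hz.1).continuousWithinAt
  obtain ⟨ζ, hζ, hmax⟩ := hKcomp.exists_isMaxOn ⟨z₁, hz₁, le_rfl⟩ hcK
  have hmaxΩ : ∀ y ∈ Ω, w y ≤ w ζ := by
    intro y hy
    by_cases h : δ ≤ w y
    · exact hmax ⟨hy, h⟩
    · push Not at h
      exact h.le.trans hζ.2
  set S : Set ℂ := K ∩ w ⁻¹' {w ζ} with hS
  have hSc : IsClosed S := hcK.preimage_isClosed_of_isClosed hKc isClosed_singleton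
  have hSo : IsOpen S := by
    rw [isOpen_iff_mem_nhds]
    intro z hz
    have hzeq : w z = w ζ := hz.2
    have h1 := a1_open ho hw hz.1.1 (fun y hy => (hmaxΩ y hy).trans hzeq.ge)
    filter_upwards [h1, ho.mem_nhds hz.1.1] with y hy hyΩ
    refine ⟨⟨hyΩ, ?_⟩, ?_⟩
    · rw [hy, hzeq]
      exact hζ.2
    · show w y = w ζ
      rw [hy, hzeq]
  have hSu : S = univ := IsClopen.eq_univ ⟨hSc, hSo⟩ ⟨ζ, hζ, rfl⟩
  have hSK : IsCompact S := hKcomp.of_isClosed_subset hSc Set.inter_subset_left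
  rw [hSu] at hSK
  exact noncompact_univ ℂ hSK

open InnerProductSpace in
theorem a1_beta (S : Finset ℂ) (D : ℝ) {z : ℂ} (hz : z ∉ S) :
    HarmonicAt (fun z : ℂ => ∑ x ∈ S, (Real.log D - Real.log ‖z - x‖)) z := by
  induction S using Finset.induction_on with
  | empty =>
    simp only [Finset.sum_empty]
    exact harmonicAt_const 0
  | insert a S ha ih =>
    rw [Finset.mem_insert, not_or] at hz
    have e : (fun z : ℂ => ∑ x ∈ insert a S, (Real.log D - Real.log ‖z - x‖)) =
        ((fun _ : ℂ => Real.log D) - (fun z : ℂ => Real.log ‖z - a‖)) +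
          (fun z : ℂ => ∑ x ∈ S, (Real.log D - Real.log ‖z - x‖)) := by
      funext z
      simp only [Pi.add_apply, Pi.sub_apply]
      rw [Finset.sum_insert ha]
    rw [e]
    have h1 : HarmonicAt (fun z : ℂ => Real.log ‖z - a‖) z :=
      AnalyticAt.harmonicAt_log_norm (f := fun z => z - a) (by fun_prop) (sub_ne_zero.2 hz.1)
    exact ((harmonicAt_const _).sub h1).add (ih hz.2)

theorem max_principle {Ω : Set ℂ} (ho : IsOpen Ω) (hb : Bornology.IsBounded Ω) {F : Set ℂ}
    (hF : F.Finite) {u : ℂ → ℝ} (hu : InnerProductSpace.HarmonicOnNhd u Ω) {M : ℝ}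
    (hM : ∀ z ∈ Ω, u z ≤ M)
    (hbd : ∀ ζ ∈ frontier Ω, ζ ∉ F → ∀ ε > 0, ∀ᶠ z in 𝓝[Ω] ζ, u z < ε) :
    ∀ z ∈ Ω, u z ≤ 0 := by
  classical
  intro z₀ hz₀
  have hfin : (F ∩ frontier Ω).Finite := hF.inter_of_left _
  set S : Finset ℂ := hfin.toFinset with hS
  have hSmem : ∀ x, x ∈ S ↔ x ∈ F ∧ x ∈ frontier Ω := by
    intro x
    rw [hS, Set.Finite.mem_toFinset]
    rfl
  have hdisj : ∀ x ∈ frontier Ω, x ∉ Ω := by
    intro x hx
    rw [ho.frontier_eq] at hx
    exact hx.2
  obtain ⟨C, hC⟩ := Metric.isBounded_iff.1 hb.closure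
  have hD : ∀ z ∈ Ω, ∀ x ∈ S, 0 < ‖z - x‖ ∧ ‖z - x‖ ≤ C := by
    intro z hz x hx
    have hxf := ((hSmem x).1 hx).2
    refine ⟨?_, ?_⟩
    · rw [norm_pos_iff, sub_ne_zero]
      rintro rfl
      exact hdisj _ hxf hz
    · rw [← dist_eq_norm]
      exact hC (subset_closure hz) hxf.1
  set β : ℂ → ℝ := fun z => ∑ x ∈ S, (Real.log C - Real.log ‖z - x‖) with hβ
  have hterm : ∀ z ∈ Ω, ∀ x ∈ S, 0 ≤ Real.log C - Real.log ‖z - x‖ := by
    intro z hz x hx
    obtain ⟨h1, h2⟩ := hD z hz x hx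
    have := Real.log_le_log h1 h2
    linarith
  have hβ0 : ∀ z ∈ Ω, 0 ≤ β z := fun z hz => Finset.sum_nonneg (hterm z hz)
  have key : ∀ ε > 0, u z₀ ≤ ε * β z₀ := by
    intro ε hε
    have h := a1_max0 ho hb (w := u - ε • β) (fun z hz => (hu z hz).sub
      ((a1_beta S C (fun hzS => hdisj z ((hSmem z).1 hzS).2 hz)).const_smul))
      (fun ζ hζ δ hδ => ?_) z₀ hz₀
    · simp only [Pi.sub_apply, Pi.smul_apply, smul_eq_mul] at h
      linarith
    · by_cases hζF : ζ ∈ F
      · have hζS : ζ ∈ S := (hSmem ζ).2 ⟨hζF, hζ⟩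
        have hη : 0 < Real.exp (Real.log C - |M| / ε) := Real.exp_pos _
        filter_upwards [mem_nhdsWithin_of_mem_nhds (ball_mem_nhds ζ hη), self_mem_nhdsWithin]
          with z hz1 hz2
        have h1 := (hD z hz2 ζ hζS).1
        have h2 : Real.log ‖z - ζ‖ < Real.log C - |M| / ε := by
          rw [mem_ball, dist_eq_norm] at hz1
          have := Real.log_lt_log h1 hz1
          rwa [Real.log_exp] at this
        have h3 : Real.log C - Real.log ‖z - ζ‖ ≤ β z :=
          Finset.single_le_sum (f := fun x => Real.log C - Real.log ‖z - x‖) (hterm z hz2) hζS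
        have h4 : |M| / ε < β z := by linarith
        have h5 : |M| < ε * β z := by
          rw [div_lt_iff₀ hε] at h4
          linarith
        have h6 := hM z hz2
        have h7 := le_abs_self M
        simp only [Pi.sub_apply, Pi.smul_apply, smul_eq_mul]
        linarith
      · filter_upwards [hbd ζ hζ hζF δ hδ, self_mem_nhdsWithin] with z hz1 hz2
        have := mul_nonneg hε.le (hβ0 z hz2)
        simp only [Pi.sub_apply, Pi.smul_apply, smul_eq_mul]
        linarith
  by_contra hcon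
  push Not at hcon
  have hb1 : 0 < β z₀ + 1 := by linarith [hβ0 z₀ hz₀]
  have h := key (u z₀ / (β z₀ + 1)) (div_pos hcon hb1)
  rw [div_mul_eq_mul_div, le_div_iff₀ hb1] at h
  nlinarith

/-- Strong maximum principle: a harmonic function `≤ 0` on a preconnected open set which vanishes at
one point vanishes identically. -/
theorem strong_max {Ω : Set ℂ} (ho : IsOpen Ω) (hc : IsPreconnected Ω) {u : ℂ → ℝ}
    (hu : InnerProductSpace.HarmonicOnNhd u Ω) (h0 : ∀ z ∈ Ω, u z ≤ 0) {z₁ : ℂ} (hz : z₁ ∈ Ω)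
    (h1 : u z₁ = 0) : ∀ z ∈ Ω, u z = 0 := by
  set S : Set ℂ := {z | z ∈ Ω ∧ u z = 0} with hS
  have hSo : IsOpen S := by
    rw [isOpen_iff_mem_nhds]
    intro z hz
    have h2 := a1_open ho hu hz.1 (fun y hy => (h0 y hy).trans hz.2.ge)
    filter_upwards [h2, ho.mem_nhds hz.1] with y hy hyΩ
    exact ⟨hyΩ, hy.trans hz.2⟩
  have hsub : Ω ⊆ S := by
    apply hc.subset_of_closure_inter_subset hSo ⟨z₁, hz, hz, h1⟩
    rintro z ⟨hzc, hzΩ⟩
    refine ⟨hzΩ, ?_⟩
    by_contra hne
    have h2 : ∀ᶠ y in 𝓝 z, u y ≠ 0 := (hu z hzΩ).1.continuousAt.eventually_ne hne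
    obtain ⟨y, hy1, hy2⟩ := ((mem_closure_iff_frequently.1 hzc).and_eventually h2).exists
    exact hy2 hy1.2
  exact fun z hz => (hsub hz).2

end Pool.Agent.Choc
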