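import Pool.Agent.Lib.MP_2b3e36_an.Ex.A1

/-!
A2. The reflection principle.

`reflect`: let `h` be holomorphic on the upper half of a ball about a real point and let `Im h → 0` at all
real points of the ball. Then `h` extends holomorphically to the ball, real on the reals.
Proof. First on every smaller ball `ball x ρ`, `ρ < r`. Let `w = Im h` on the upper half of the circle
`|z - x| = ρ`, `0` at the two real points, `w z = - Im h (conj z)` on the lower half: a continuous function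
on the circle (by the hypothesis). `P z` = its Poisson integral on `ball x ρ`; it is the real part (with a
factor `-i`, the imaginary part) of a holomorphic function `F` (Mathlib: Analysis/Complex/Poisson,
`differentiableOn_circleAverage_herglotzRieszKernel_smul`, Herglotz kernel); it has the boundary values `w`
at all points of the circle (approximate identity), and it is odd under conjugation, so `P = 0` on the
reals. On the upper half ball `Im h - P` is bounded harmonic with boundary values `0` at every boundary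
point, so `= 0` by `max_principle` (for it and its negative). So `h - F` (suitable normalisation
`Im F = P`) has vanishing imaginary part on the upper half ball, so is a real constant; `H = F + const`.
The extensions for different `ρ` agree (identity theorem); glue them. Alternatively: show that `Im h`,
extended by `0` and oddly, satisfies the local mean value property.
`reflect_except`: the same if the boundary condition fails at the centre `x` but `Im h` is bounded: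
`max_principle` allows the exceptional boundary point (the function `w` on the circle does not see `x`).
-/

set_option autoImplicit false

open Complex Set Filter Topology Metric

namespace Pool.Agent.Choc

/-- The Poisson integral with centre `0`. -/
noncomputable def a2_P (R : ℝ) (w : ℂ → ℝ) (z : ℂ) : ℝ :=
  Real.circleAverage ((Complex.re ∘ herglotzRieszKernel 0 z) • w) 0 R

theorem a2_ker {z ζ : ℂ} : (herglotzRieszKernel 0 z ζ).re =
    (‖ζ‖ ^ 2 - ‖z‖ ^ 2) / ‖ζ - z‖ ^ 2 := by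
  have h := congrFun (poissonKernel_eq_re_herglotzRieszKernel (c := 0) (w := z)) ζ
  rw [Function.comp_apply, poissonKernel_def] at h
  simpa using h.symm

theorem a2_ker_cont {R : ℝ} {z : ℂ} (hz : z ∈ ball (0 : ℂ) R) :
    ContinuousOn (Complex.re ∘ herglotzRieszKernel 0 z) (sphere (0 : ℂ) |R|) :=
  Complex.continuous_re.comp_continuousOn (continuousOn_herglotzRieszKernel_sphere hz)

theorem a2_one {R : ℝ} {z : ℂ} (hz : z ∈ ball (0 : ℂ) R) : a2_P R (fun _ => 1) z = 1 := by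
  have h := InnerProductSpace.HarmonicOnNhd.circleAverage_re_herglotzRieszKernel_smul
    (f := fun _ => (1 : ℝ)) (c := 0) (w := z) (R := R)
    (fun y _ => InnerProductSpace.harmonicAt_const 1) hz
  exact h

theorem a2_const {R : ℝ} {z : ℂ} (hz : z ∈ ball (0 : ℂ) R) (a : ℝ) :
    Real.circleAverage ((Complex.re ∘ herglotzRieszKernel 0 z) • fun _ => a) 0 R = a := by
  exact InnerProductSpace.HarmonicOnNhd.circleAverage_re_herglotzRieszKernel_smul
    (f := fun _ => (a : ℝ)) (c := 0) (w := z) (R := R)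
    (fun y _ => InnerProductSpace.harmonicAt_const a) hz

theorem a2_int {R : ℝ} {w : ℂ → ℝ} (hw : ContinuousOn w (sphere (0 : ℂ) |R|)) {z : ℂ}
    (hz : z ∈ ball (0 : ℂ) R) :
    CircleIntegrable ((Complex.re ∘ herglotzRieszKernel 0 z) • w) 0 R :=
  ((a2_ker_cont hz).smul hw).circleIntegrable'

theorem a2_le {R : ℝ} {w : ℂ → ℝ} (hw : ContinuousOn w (sphere (0 : ℂ) |R|)) {z : ℂ}
    (hz : z ∈ ball (0 : ℂ) R) {a b : ℝ}
    (h : ∀ ζ ∈ sphere (0 : ℂ) |R|, (herglotzRieszKernel 0 z ζ).re * w ζ ≤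
      (herglotzRieszKernel 0 z ζ).re * a + b) : a2_P R w z ≤ a + b := by
  have h1 : CircleIntegrable ((Complex.re ∘ herglotzRieszKernel 0 z) • fun _ => a) 0 R :=
    a2_int continuousOn_const hz
  have h2 : CircleIntegrable (fun _ : ℂ => b) 0 R := continuousOn_const.circleIntegrable'
  have h3 : Real.circleAverage (((Complex.re ∘ herglotzRieszKernel 0 z) • fun _ => a) +
      fun _ => b) 0 R = a + b := by
    rw [Real.circleAverage_add h1 h2, a2_const hz, Real.circleAverage_const]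
  rw [← h3]
  refine Real.circleAverage_mono (a2_int hw hz) (h1.add h2) ?_
  intro ζ hζ
  have := h ζ hζ
  simpa using this

theorem a2_ker_nonneg {R : ℝ} {z ζ : ℂ} (hz : z ∈ ball (0 : ℂ) R) (hζ : ζ ∈ sphere (0 : ℂ) |R|) :
    0 ≤ (herglotzRieszKernel 0 z ζ).re := by
  rw [a2_ker]
  apply div_nonneg _ (sq_nonneg _)
  rw [mem_sphere_zero_iff_norm] at hζ
  rw [mem_ball_zero_iff] at hz
  rw [hζ, sq_abs, sub_nonneg]
  exact pow_le_pow_left₀ (norm_nonneg _) hz.le 2

theorem a2_upper {R : ℝ} (hR : 0 < R) {w : ℂ → ℝ} (hw : ContinuousOn w (sphere (0 : ℂ) |R|))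
    {ζ₀ : ℂ} (hζ : ζ₀ ∈ sphere (0 : ℂ) |R|) {ε : ℝ} (hε : 0 < ε) :
    ∀ᶠ z in 𝓝[ball (0 : ℂ) R] ζ₀, a2_P R w z < w ζ₀ + ε := by
  obtain ⟨C, hC⟩ := (isCompact_sphere (0 : ℂ) |R|).exists_bound_of_continuousOn hw
  obtain ⟨δ, hδ, hδw⟩ := Metric.continuousOn_iff.1 hw ζ₀ hζ (ε / 2) (by positivity)
  have hC0 : 0 ≤ C := (norm_nonneg _).trans (hC ζ₀ hζ)
  have hlim : Tendsto (fun z : ℂ => (2 * C) * (R ^ 2 - ‖z‖ ^ 2) / (δ / 2) ^ 2) (𝓝 ζ₀)
      (𝓝 0) := by
    have hc : Continuous (fun z : ℂ => (2 * C) * (R ^ 2 - ‖z‖ ^ 2) / (δ / 2) ^ 2) := by fun_prop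
    have := hc.tendsto ζ₀
    rw [mem_sphere_zero_iff_norm] at hζ
    rwa [hζ, sq_abs, sub_self, mul_zero, zero_div] at this
  have h1 : ∀ᶠ z in 𝓝 ζ₀, (2 * C) * (R ^ 2 - ‖z‖ ^ 2) / (δ / 2) ^ 2 < ε / 2 :=
    hlim.eventually (gt_mem_nhds (by positivity))
  filter_upwards [self_mem_nhdsWithin, nhdsWithin_le_nhds h1,
    nhdsWithin_le_nhds (ball_mem_nhds ζ₀ (show 0 < δ / 2 by positivity))] with z hz hz1 hz2
  have h2 : a2_P R w z ≤ (w ζ₀ + ε / 2) + (2 * C) * (R ^ 2 - ‖z‖ ^ 2) / (δ / 2) ^ 2 := by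
    apply a2_le hw hz
    intro ζ hζs
    have hk0 := a2_ker_nonneg hz hζs
    have hRz : 0 ≤ R ^ 2 - ‖z‖ ^ 2 := by
      rw [mem_ball_zero_iff] at hz
      rw [sub_nonneg]
      exact pow_le_pow_left₀ (norm_nonneg _) hz.le 2
    have hK : 0 ≤ (2 * C) * (R ^ 2 - ‖z‖ ^ 2) / (δ / 2) ^ 2 := by positivity
    by_cases hd : dist ζ ζ₀ < δ
    · have h3 := hδw ζ hζs hd
      rw [Real.dist_eq, abs_lt] at h3
      have h4 : (herglotzRieszKernel 0 z ζ).re * w ζ ≤
          (herglotzRieszKernel 0 z ζ).re * (w ζ₀ + ε / 2) :=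
        mul_le_mul_of_nonneg_left (by linarith [h3.2]) hk0
      linarith
    · have h5 : δ / 2 ≤ ‖ζ - z‖ := by
        rw [mem_ball] at hz2
        have := dist_triangle ζ z ζ₀
        rw [← dist_eq_norm]
        push Not at hd
        linarith
      have h6 : (herglotzRieszKernel 0 z ζ).re ≤ (R ^ 2 - ‖z‖ ^ 2) / (δ / 2) ^ 2 := by
        rw [a2_ker]
        rw [mem_sphere_zero_iff_norm] at hζs
        rw [hζs, sq_abs]
        apply div_le_div_of_nonneg_left hRz (by positivity)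
        exact pow_le_pow_left₀ (by positivity) h5 2
      have h7 : w ζ - (w ζ₀ + ε / 2) ≤ 2 * C := by
        have h8 := hC ζ hζs
        have h9 := hC ζ₀ hζ
        rw [Real.norm_eq_abs, abs_le] at h8 h9
        linarith [h8.2, h9.1]
      have h10 : (herglotzRieszKernel 0 z ζ).re * (w ζ - (w ζ₀ + ε / 2)) ≤
          (R ^ 2 - ‖z‖ ^ 2) / (δ / 2) ^ 2 * (2 * C) := by
        calc (herglotzRieszKernel 0 z ζ).re * (w ζ - (w ζ₀ + ε / 2)) ≤
            (herglotzRieszKernel 0 z ζ).re * (2 * C) := mul_le_mul_of_nonneg_left h7 hk0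
          _ ≤ (R ^ 2 - ‖z‖ ^ 2) / (δ / 2) ^ 2 * (2 * C) :=
            mul_le_mul_of_nonneg_right h6 (by positivity)
      have h11 : (R ^ 2 - ‖z‖ ^ 2) / (δ / 2) ^ 2 * (2 * C) =
          (2 * C) * (R ^ 2 - ‖z‖ ^ 2) / (δ / 2) ^ 2 := by ring
      rw [h11, mul_sub] at h10
      linarith
  linarith

theorem a2_neg {R : ℝ} {w : ℂ → ℝ} (z : ℂ) : a2_P R (fun ζ => -w ζ) z = -a2_P R w z := by
  have h := Real.circleAverage_fun_smul (a := (-1 : ℝ))
    (f := ((Complex.re ∘ herglotzRieszKernel 0 z) • w)) (c := 0) (R := R)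
  unfold a2_P
  have e : ((Complex.re ∘ herglotzRieszKernel 0 z) • fun ζ => -w ζ) =
      fun ζ => (-1 : ℝ) • ((Complex.re ∘ herglotzRieszKernel 0 z) • w) ζ := by
    funext ζ
    simp
  rw [e, h]
  simp

theorem a2_poisson_bd {R : ℝ} (hR : 0 < R) {w : ℂ → ℝ}
    (hw : ContinuousOn w (sphere (0 : ℂ) |R|)) {ζ₀ : ℂ} (hζ : ζ₀ ∈ sphere (0 : ℂ) |R|) :
    Tendsto (a2_P R w) (𝓝[ball (0 : ℂ) R] ζ₀) (𝓝 (w ζ₀)) := by
  rw [Metric.tendsto_nhds]
  intro ε hε
  filter_upwards [a2_upper hR hw hζ hε, a2_upper hR hw.neg hζ hε] with z h1 h2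
  have e : a2_P R (fun ζ => -w ζ) z = -a2_P R w z := a2_neg z
  have h3 : a2_P R (fun ζ => -w ζ) z < -w ζ₀ + ε := h2
  rw [e] at h3
  rw [Real.dist_eq, abs_lt]
  constructor <;> linarith

theorem a2_bound {R : ℝ} {w : ℂ → ℝ} (hw : ContinuousOn w (sphere (0 : ℂ) |R|)) {C : ℝ}
    (hC : ∀ ζ ∈ sphere (0 : ℂ) |R|, |w ζ| ≤ C) {z : ℂ} (hz : z ∈ ball (0 : ℂ) R) :
    |a2_P R w z| ≤ C := by
  rw [abs_le]
  constructor
  · have := a2_le (a := C) (b := 0) hw.neg hz (fun ζ hζ => by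
      have h1 := abs_le.1 (hC ζ hζ)
      have h2 : (herglotzRieszKernel 0 z ζ).re * -w ζ ≤ (herglotzRieszKernel 0 z ζ).re * C :=
        mul_le_mul_of_nonneg_left (by linarith [h1.1]) (a2_ker_nonneg hz hζ)
      show (herglotzRieszKernel 0 z ζ).re * -w ζ ≤ (herglotzRieszKernel 0 z ζ).re * C + 0
      linarith)
    have e : a2_P R (fun ζ => -w ζ) z = -a2_P R w z := a2_neg z
    have h3 : a2_P R (fun ζ => -w ζ) z ≤ C + 0 := this
    linarith
  · have := a2_le (a := C) (b := 0) hw hz (fun ζ hζ => by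
      have h1 := abs_le.1 (hC ζ hζ)
      have : (herglotzRieszKernel 0 z ζ).re * w ζ ≤ (herglotzRieszKernel 0 z ζ).re * C :=
        mul_le_mul_of_nonneg_left (by linarith [h1.2]) (a2_ker_nonneg hz hζ)
      linarith)
    linarith

/-- The boundary function: `Im h` above, `0` below. -/
noncomputable def a2_w (h : ℂ → ℂ) (ζ : ℂ) : ℝ := if 0 < ζ.im then (h ζ).im else 0

theorem a2_w_pos {h : ℂ → ℂ} {ζ : ℂ} (hζ : 0 < ζ.im) : a2_w h ζ = (h ζ).im := if_pos hζ

theorem a2_w_neg {h : ℂ → ℂ} {ζ : ℂ} (hζ : ¬ 0 < ζ.im) : a2_w h ζ = 0 := if_neg hζ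

theorem a2_UH_open : IsOpen UH := isOpen_lt continuous_const Complex.continuous_im

theorem a2_w_cont {r : ℝ} {h : ℂ → ℂ} (hd : DifferentiableOn ℂ h (ball (0 : ℂ) r ∩ UH))
    {S : Set ℂ}
    (hb : ∀ u : ℝ, |u| < r → (u : ℂ) ∉ S → Tendsto (fun z => (h z).im) (𝓝[UH] (u : ℂ)) (𝓝 0))
    {ζ : ℂ} (h1 : ‖ζ‖ < r) (h2 : ζ ∉ S) : ContinuousAt (a2_w h) ζ := by
  rcases lt_trichotomy ζ.im 0 with h3 | h3 | h3
  · have hev : a2_w h =ᶠ[𝓝 ζ] fun _ => 0 := by
      filter_upwards [(isOpen_lt Complex.continuous_im continuous_const).mem_nhds h3] with z hz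
      exact a2_w_neg (not_lt.2 (le_of_lt hz))
    exact continuousAt_const.congr hev.symm
  · have e : ζ = (ζ.re : ℂ) := Complex.ext (by simp) (by simp [h3])
    have h4 : |ζ.re| < r := lt_of_le_of_lt (Complex.abs_re_le_norm ζ) h1
    have h5 := hb ζ.re h4 (by rw [← e]; exact h2)
    rw [← e] at h5
    have h6 : a2_w h ζ = 0 := a2_w_neg (by rw [h3]; exact lt_irrefl _)
    rw [ContinuousAt, h6, ← nhdsWithin_univ, ← union_compl_self UH, nhdsWithin_union,
      tendsto_sup]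
    refine ⟨h5.congr' ?_, tendsto_const_nhds.congr' ?_⟩
    · filter_upwards [self_mem_nhdsWithin] with z hz
      exact (a2_w_pos hz).symm
    · filter_upwards [self_mem_nhdsWithin] with z hz
      exact (a2_w_neg hz).symm
  · have hm : ball (0 : ℂ) r ∩ UH ∈ 𝓝 ζ :=
      (isOpen_ball.inter a2_UH_open).mem_nhds ⟨by rwa [mem_ball_zero_iff], h3⟩
    have hc : ContinuousAt (fun z => (h z).im) ζ :=
      Complex.continuous_im.continuousAt.comp (hd.differentiableAt hm).continuousAt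
    refine hc.congr ?_
    filter_upwards [hm] with z hz
    exact (a2_w_pos hz.2).symm

theorem a2_core {r ρ : ℝ} (hρ : 0 < ρ) (hρr : ρ < r) {h : ℂ → ℂ}
    (hd : DifferentiableOn ℂ h (ball (0 : ℂ) r ∩ UH)) {S : Set ℂ} (hS : S ⊆ {0})
    (hSM : S = ∅ ∨ ∃ M, ∀ z ∈ ball (0 : ℂ) r, 0 < z.im → |(h z).im| ≤ M)
    (hb : ∀ u : ℝ, |u| < r → (u : ℂ) ∉ S → Tendsto (fun z => (h z).im) (𝓝[UH] (u : ℂ)) (𝓝 0)) :
    ∃ H : ℂ → ℂ, DifferentiableOn ℂ H (ball 0 ρ) ∧
      (∀ z ∈ ball (0 : ℂ) ρ, 0 < z.im → H z = h z) ∧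
      (∀ u : ℝ, |u| < ρ → (H u).im = 0) := by
  have habs : |ρ| = ρ := abs_of_pos hρ
  have hwc : ContinuousOn (a2_w h) (sphere (0 : ℂ) |ρ|) := by
    intro ζ hζ
    rw [habs, mem_sphere_zero_iff_norm] at hζ
    refine (a2_w_cont hd hb (by rw [hζ]; exact hρr) ?_).continuousWithinAt
    intro h0
    have := hS h0
    rw [mem_singleton_iff] at this
    rw [this, norm_zero] at hζ
    exact hρ.ne hζ
  obtain ⟨C, hC⟩ := (isCompact_sphere (0 : ℂ) |ρ|).exists_bound_of_continuousOn hwc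
  have hCi : CircleIntegrable (fun ζ => ((a2_w h ζ : ℝ) : ℂ)) 0 ρ :=
    (Complex.continuous_ofReal.comp_continuousOn hwc).circleIntegrable'
  have hCr : CircleIntegrable (a2_w h) 0 ρ := hwc.circleIntegrable'
  set F₁ : ℂ → ℂ := fun z => Real.circleAverage
    (fun ζ => herglotzRieszKernel 0 z ζ • ((a2_w h ζ : ℝ) : ℂ)) 0 ρ with hF₁
  have hF₁d : DifferentiableOn ℂ F₁ (ball 0 ρ) :=
    differentiableOn_circleAverage_herglotzRieszKernel_smul hCi
  have hF₁re : ∀ z ∈ ball (0 : ℂ) ρ, (F₁ z).re = a2_P ρ (a2_w h) z := fun z hz =>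
    re_circleAverage_herglotzRieszKernel_smul hCr hz
  have hconj : ∀ z ∈ ball (0 : ℂ) ρ, (starRingEnd ℂ) z ∈ ball (0 : ℂ) ρ := by
    intro z hz
    rwa [mem_ball_zero_iff, Complex.norm_conj, ← mem_ball_zero_iff]
  set F : ℂ → ℂ := fun z => F₁ z - (starRingEnd ℂ) (F₁ ((starRingEnd ℂ) z)) with hF
  have hFd : DifferentiableOn ℂ F (ball 0 ρ) := by
    intro z hz
    have d1 : DifferentiableAt ℂ F₁ z := hF₁d.differentiableAt (isOpen_ball.mem_nhds hz)
    have d2 : DifferentiableAt ℂ F₁ ((starRingEnd ℂ) z) :=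
      hF₁d.differentiableAt (isOpen_ball.mem_nhds (hconj z hz))
    have d3 := d2.conj_conj
    rw [Complex.conj_conj] at d3
    exact (d1.sub d3).differentiableWithinAt
  have hFre : ∀ z ∈ ball (0 : ℂ) ρ, (F z).re =
      a2_P ρ (a2_w h) z - a2_P ρ (a2_w h) ((starRingEnd ℂ) z) := by
    intro z hz
    rw [hF, Complex.sub_re, Complex.conj_re, hF₁re z hz, hF₁re _ (hconj z hz)]
  have hFreal : ∀ u : ℝ, |u| < ρ → (F u).re = 0 := by
    intro u hu
    rw [hF]
    simp
  set D : Set ℂ := ball (0 : ℂ) ρ ∩ UH with hD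
  have hDo : IsOpen D := isOpen_ball.inter a2_UH_open
  have hDsub : D ⊆ ball (0 : ℂ) r ∩ UH := inter_subset_inter_left _ (ball_subset_ball hρr.le)
  have hDc : Convex ℝ D := by
    apply (convex_ball _ _).inter
    exact convex_halfSpace_im_gt 0
  set f : ℂ → ℂ := fun z => h z - I * F z with hf
  have hfd : DifferentiableOn ℂ f D :=
    (hd.mono hDsub).sub ((hFd.mono inter_subset_left).const_mul I)
  have hfa : AnalyticOnNhd ℂ f D := hfd.analyticOnNhd hDo
  have hfim : ∀ z, (f z).im = (h z).im - (F z).re := by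
    intro z
    rw [hf]
    simp
  have hbd : ∀ ζ ∈ frontier D, ζ ∉ S → Tendsto (fun z => (f z).im) (𝓝[D] ζ) (𝓝 0) := by
    intro ζ hζ hζS
    have hcl : ζ ∈ closure D := frontier_subset_closure hζ
    have hn : ‖ζ‖ ≤ ρ := by
      have := closure_mono (inter_subset_left : D ⊆ ball (0 : ℂ) ρ) hcl
      rwa [closure_ball _ hρ.ne', mem_closedBall_zero_iff] at this
    have him : 0 ≤ ζ.im := by
      have h1 : closure D ⊆ {z | 0 ≤ z.im} := by
        apply closure_minimal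
        · rintro z ⟨-, hz⟩
          have hz' : 0 < z.im := hz
          exact hz'.le
        · exact isClosed_le continuous_const Complex.continuous_im
      exact h1 hcl
    have t1 : Tendsto (fun z => (h z).im) (𝓝[D] ζ) (𝓝 (a2_w h ζ)) := by
      have := (a2_w_cont hd hb (lt_of_le_of_lt hn hρr) hζS).tendsto.mono_left
        (nhdsWithin_le_nhds (s := D))
      refine this.congr' ?_
      filter_upwards [self_mem_nhdsWithin] with z hz
      exact a2_w_pos hz.2
    have t2 : Tendsto (fun z => (F z).re) (𝓝[D] ζ) (𝓝 (a2_w h ζ)) := by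
      rcases hn.lt_or_eq with h1 | h1
      · have hmem : ζ ∈ ball (0 : ℂ) ρ := by rwa [mem_ball_zero_iff]
        have h2 : ζ.im = 0 := by
          by_contra h3
          have h4 : ζ ∈ D := ⟨hmem, lt_of_le_of_ne him (Ne.symm h3)⟩
          rw [hDo.frontier_eq] at hζ
          exact hζ.2 h4
        have e : ζ = (ζ.re : ℂ) := Complex.ext (by simp) (by simp [h2])
        have h5 : a2_w h ζ = 0 := a2_w_neg (by rw [h2]; exact lt_irrefl _)
        have h6 : (F ζ).re = 0 := by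
          rw [e]
          exact hFreal _ (lt_of_le_of_lt (Complex.abs_re_le_norm ζ) h1)
        have h7 := (Complex.continuous_re.tendsto _).comp
          ((hFd.differentiableAt (isOpen_ball.mem_nhds hmem)).continuousAt.tendsto.mono_left
            (nhdsWithin_le_nhds (s := D)))
        rw [h6] at h7
        rw [h5]
        exact h7
      · have hs : ζ ∈ sphere (0 : ℂ) |ρ| := by rw [habs, mem_sphere_zero_iff_norm]; exact h1
        have hs' : (starRingEnd ℂ) ζ ∈ sphere (0 : ℂ) |ρ| := by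
          rw [habs, mem_sphere_zero_iff_norm, Complex.norm_conj]; exact h1
        have h2 := (a2_poisson_bd hρ hwc hs).mono_left
          (nhdsWithin_mono ζ (inter_subset_left : D ⊆ ball (0 : ℂ) ρ))
        have h3 : Tendsto (fun z => (starRingEnd ℂ) z) (𝓝[D] ζ)
            (𝓝[ball (0 : ℂ) ρ] ((starRingEnd ℂ) ζ)) := by
          apply tendsto_nhdsWithin_of_tendsto_nhds_of_eventually_within
          · exact (Complex.continuous_conj.tendsto ζ).mono_left nhdsWithin_le_nhds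
          · filter_upwards [self_mem_nhdsWithin] with z hz
            exact hconj z hz.1
        have h4 := (a2_poisson_bd hρ hwc hs').comp h3
        have h5 : a2_w h ((starRingEnd ℂ) ζ) = 0 := a2_w_neg (by
          rw [Complex.conj_im]; linarith)
        rw [h5] at h4
        have h6 := h2.sub h4
        rw [sub_zero] at h6
        refine h6.congr' ?_
        filter_upwards [self_mem_nhdsWithin] with z hz
        exact (hFre z hz.1).symm
    have t3 := t1.sub t2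
    rw [sub_self] at t3
    refine t3.congr fun z => ?_
    rw [hfim]
  have hDb : Bornology.IsBounded D := isBounded_ball.subset inter_subset_left
  have hmax : ∀ g : ℂ → ℂ, AnalyticOnNhd ℂ g D → (∀ z, |(g z).im| = |(f z).im|) →
      ∀ z ∈ D, (g z).im ≤ 0 := by
    intro g hg hgf
    have hgh : InnerProductSpace.HarmonicOnNhd (fun z => (g z).im) D := fun z hz =>
      (hg z hz).harmonicAt_im
    have hgb : ∀ ζ ∈ frontier D, ζ ∉ S → ∀ δ > 0, ∀ᶠ z in 𝓝[D] ζ, (g z).im < δ := by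
      intro ζ hζ hζS δ hδ
      have h1 := (hbd ζ hζ hζS).abs
      rw [abs_zero] at h1
      filter_upwards [h1.eventually (gt_mem_nhds hδ)] with z hz
      rw [← hgf] at hz
      exact lt_of_le_of_lt (le_abs_self _) hz
    rcases hSM with hSe | ⟨M, hM⟩
    · refine a1_max0 hDo hDb hgh ?_
      intro ζ hζ
      exact hgb ζ hζ (by rw [hSe]; exact notMem_empty ζ)
    · refine max_principle hDo hDb (F := S) ((finite_singleton (0 : ℂ)).subset hS) hgh
        (M := M + 2 * C) ?_ hgb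
      intro z hz
      have h1 : (g z).im ≤ |(f z).im| := by rw [← hgf]; exact le_abs_self _
      have h2 : |(f z).im| ≤ |(h z).im| + |(F z).re| := by rw [hfim]; exact abs_sub _ _
      have h3 := hM z (hDsub hz).1 hz.2
      have h4 : |(F z).re| ≤ 2 * C := by
        rw [hFre z hz.1]
        have h5 := a2_bound hwc (fun ζ hζ => by
          have := hC ζ hζ
          rwa [Real.norm_eq_abs] at this) hz.1
        have h6 := a2_bound hwc (fun ζ hζ => by
          have := hC ζ hζ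
          rwa [Real.norm_eq_abs] at this) (hconj z hz.1)
        have h7 := abs_sub (a2_P ρ (a2_w h) z) (a2_P ρ (a2_w h) ((starRingEnd ℂ) z))
        linarith
      linarith
  have hzero : ∀ z ∈ D, (f z).im = ((0 : ℝ)) := by
    intro z hz
    apply le_antisymm
    · exact hmax f hfa (fun _ => rfl) z hz
    · have h1 := hmax (fun z => -f z) hfa.neg (fun z => by
        rw [Complex.neg_im, abs_neg]) z hz
      rw [Complex.neg_im] at h1
      linarith
  have hDne : D.Nonempty := by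
    refine ⟨(ρ / 2 : ℝ) * I, ?_, ?_⟩
    · rw [mem_ball_zero_iff, norm_mul, Complex.norm_I, mul_one, Complex.norm_real,
        Real.norm_eq_abs, abs_of_pos (by positivity)]
      linarith
    · show 0 < (((ρ / 2 : ℝ) : ℂ) * I).im
      simp [hρ]
  obtain ⟨c, hc⟩ := AnalyticOnNhd.eq_const_add_im_mul_I_of_re_eq_const hfa hzero hDo
    ⟨hDne, hDc.isPreconnected⟩
  refine ⟨fun z => I * F z + c, (hFd.const_mul I).add_const _, ?_, ?_⟩
  · intro z hz hz0
    have h1 := hc z ⟨hz, hz0⟩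
    rw [hf] at h1
    show I * F z + c = h z
    simp only [Complex.ofReal_zero, zero_mul, add_zero] at h1
    rw [← h1]
    ring
  · intro u hu
    show (I * F u + c).im = 0
    have := hFreal u hu
    simp [this]

theorem a2_glue {r : ℝ} (hr : 0 < r) {h : ℂ → ℂ}
    (hcore : ∀ ρ : ℝ, 0 < ρ → ρ < r → ∃ H : ℂ → ℂ, DifferentiableOn ℂ H (ball 0 ρ) ∧
      (∀ z ∈ ball (0 : ℂ) ρ, 0 < z.im → H z = h z) ∧
      (∀ u : ℝ, |u| < ρ → (H u).im = 0)) :
    ∃ H : ℂ → ℂ, DifferentiableOn ℂ H (ball 0 r) ∧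
      (∀ z ∈ ball (0 : ℂ) r, 0 < z.im → H z = h z) ∧
      (∀ u : ℝ, |u| < r → (H u).im = 0) := by
  choose! G hGd hGe hGr using hcore
  have hle : ∀ ρ₁ ρ₂ : ℝ, 0 < ρ₁ → ρ₁ ≤ ρ₂ → ρ₂ < r → EqOn (G ρ₁) (G ρ₂) (ball 0 ρ₁) := by
    intro ρ₁ ρ₂ h1 h2 h3
    have ha1 : AnalyticOnNhd ℂ (G ρ₁) (ball 0 ρ₁) :=
      (hGd ρ₁ h1 (lt_of_le_of_lt h2 h3)).analyticOnNhd isOpen_ball
    have ha2 : AnalyticOnNhd ℂ (G ρ₂) (ball 0 ρ₁) :=
      ((hGd ρ₂ (lt_of_lt_of_le h1 h2) h3).mono (ball_subset_ball h2)).analyticOnNhd isOpen_ball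
    have hz0 : ((ρ₁ / 2 : ℝ) : ℂ) * I ∈ ball (0 : ℂ) ρ₁ := by
      rw [mem_ball_zero_iff, norm_mul, Complex.norm_I, mul_one, Complex.norm_real,
        Real.norm_eq_abs, abs_of_pos (by positivity)]
      linarith
    refine ha1.eqOn_of_preconnected_of_eventuallyEq ha2 (convex_ball _ _).isPreconnected hz0 ?_
    have hz1 : 0 < (((ρ₁ / 2 : ℝ) : ℂ) * I).im := by simp [h1]
    filter_upwards [isOpen_ball.mem_nhds hz0, a2_UH_open.mem_nhds hz1] with z h4 h5
    rw [hGe ρ₁ h1 (lt_of_le_of_lt h2 h3) z h4 h5,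
      hGe ρ₂ (lt_of_lt_of_le h1 h2) h3 z (ball_subset_ball h2 h4) h5]
  have heq : ∀ ρ₁ ρ₂ : ℝ, ρ₁ < r → ρ₂ < r → ∀ z : ℂ, ‖z‖ < ρ₁ → ‖z‖ < ρ₂ → G ρ₁ z = G ρ₂ z := by
    intro ρ₁ ρ₂ h1 h2 z h3 h4
    have h5 : 0 < ρ₁ := lt_of_le_of_lt (norm_nonneg z) h3
    have h6 : 0 < ρ₂ := lt_of_le_of_lt (norm_nonneg z) h4
    rcases le_total ρ₁ ρ₂ with h7 | h7
    · exact hle ρ₁ ρ₂ h5 h7 h2 (by rwa [mem_ball_zero_iff])
    · exact (hle ρ₂ ρ₁ h6 h7 h1 (by rwa [mem_ball_zero_iff])).symm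
  have hmid : ∀ z : ℂ, ‖z‖ < r → 0 < (‖z‖ + r) / 2 ∧ ‖z‖ < (‖z‖ + r) / 2 ∧ (‖z‖ + r) / 2 < r := by
    intro z hz
    refine ⟨by linarith [norm_nonneg z], by linarith, by linarith⟩
  refine ⟨fun z => G ((‖z‖ + r) / 2) z, ?_, ?_, ?_⟩
  · intro z hz
    rw [mem_ball_zero_iff] at hz
    obtain ⟨h1, h2, h3⟩ := hmid z hz
    have h4 : DifferentiableAt ℂ (G ((‖z‖ + r) / 2)) z :=
      (hGd _ h1 h3).differentiableAt (isOpen_ball.mem_nhds (by rwa [mem_ball_zero_iff]))
    have h5 : (fun z' => G ((‖z'‖ + r) / 2) z') =ᶠ[𝓝 z] G ((‖z‖ + r) / 2) := by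
      have hm : ball (0 : ℂ) ((‖z‖ + r) / 2) ∈ 𝓝 z :=
        isOpen_ball.mem_nhds (by rwa [mem_ball_zero_iff])
      filter_upwards [hm] with z' hz'
      rw [mem_ball_zero_iff] at hz'
      obtain ⟨h6, h7, h8⟩ := hmid z' (hz'.trans h3)
      exact heq _ _ h8 h3 z' h7 hz'
    exact (h4.congr_of_eventuallyEq h5).differentiableWithinAt
  · intro z hz hz0
    rw [mem_ball_zero_iff] at hz
    obtain ⟨h1, h2, h3⟩ := hmid z hz
    exact hGe _ h1 h3 z (by rwa [mem_ball_zero_iff]) hz0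
  · intro u hu
    have hz : ‖(u : ℂ)‖ < r := by rwa [Complex.norm_real, Real.norm_eq_abs]
    obtain ⟨h1, h2, h3⟩ := hmid u hz
    have h4 : |u| = ‖(u : ℂ)‖ := by rw [Complex.norm_real, Real.norm_eq_abs]
    exact hGr _ h1 h3 u (h4.trans_lt h2)

theorem a2_gen {x r : ℝ} (hr : 0 < r) {h : ℂ → ℂ}
    (hd : DifferentiableOn ℂ h (ball (x : ℂ) r ∩ UH)) {S : Set ℂ} (hS : S ⊆ {0})
    (hSM : S = ∅ ∨ ∃ M, ∀ z ∈ ball (x : ℂ) r, 0 < z.im → |(h z).im| ≤ M)
    (hb : ∀ u : ℝ, |u - x| < r → ((u - x : ℝ) : ℂ) ∉ S →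
      Tendsto (fun z => (h z).im) (𝓝[UH] (u : ℂ)) (𝓝 0)) :
    ∃ H : ℂ → ℂ, DifferentiableOn ℂ H (ball (x : ℂ) r) ∧
      (∀ z ∈ ball (x : ℂ) r, 0 < z.im → H z = h z) ∧
      (∀ u : ℝ, |u - x| < r → (H u).im = 0) := by
  have hmem : ∀ z : ℂ, z ∈ ball (0 : ℂ) r → z + x ∈ ball (x : ℂ) r := by
    intro z hz
    rw [mem_ball_zero_iff] at hz
    rwa [mem_ball, dist_eq_norm, add_sub_cancel_right]
  have hd' : DifferentiableOn ℂ (fun z => h (z + x)) (ball (0 : ℂ) r ∩ UH) := by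
    refine hd.comp (differentiableOn_id.add_const _) ?_
    rintro z ⟨hz, hz0⟩
    refine ⟨hmem z hz, ?_⟩
    show 0 < (z + x).im
    have : 0 < z.im := hz0
    simpa using this
  have hb' : ∀ u : ℝ, |u| < r → (u : ℂ) ∉ S →
      Tendsto (fun z => (h (z + x)).im) (𝓝[UH] (u : ℂ)) (𝓝 0) := by
    intro u hu huS
    have h1 := hb (u + x) (by rwa [add_sub_cancel_right]) (by rwa [add_sub_cancel_right])
    have h2 : Tendsto (fun z : ℂ => z + x) (𝓝[UH] (u : ℂ)) (𝓝[UH] ((u + x : ℝ) : ℂ)) := by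
      apply tendsto_nhdsWithin_of_tendsto_nhds_of_eventually_within
      · have hc : Continuous (fun z : ℂ => z + x) := by fun_prop
        have := (hc.tendsto (u : ℂ)).mono_left (nhdsWithin_le_nhds (s := UH))
        push_cast
        exact this
      · filter_upwards [self_mem_nhdsWithin] with z hz
        show 0 < (z + x).im
        have : 0 < z.im := hz
        simpa using this
    exact h1.comp h2
  have hSM' : S = ∅ ∨ ∃ M, ∀ z ∈ ball (0 : ℂ) r, 0 < z.im → |(h (z + x)).im| ≤ M := by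
    rcases hSM with h1 | ⟨M, hM⟩
    · exact Or.inl h1
    · refine Or.inr ⟨M, fun z hz hz0 => hM (z + x) (hmem z hz) ?_⟩
      simpa using hz0
  obtain ⟨H, hH1, hH2, hH3⟩ := a2_glue hr (h := fun z => h (z + x))
    (fun ρ h1 h2 => a2_core h1 h2 hd' hS hSM' hb')
  have hmem' : ∀ z : ℂ, z ∈ ball (x : ℂ) r → z - x ∈ ball (0 : ℂ) r := by
    intro z hz
    rw [mem_ball, dist_eq_norm] at hz
    rwa [mem_ball_zero_iff]
  refine ⟨fun z => H (z - x), ?_, ?_, ?_⟩
  · exact hH1.comp (differentiableOn_id.sub_const _) hmem'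
  · intro z hz hz0
    have := hH2 (z - x) (hmem' z hz) (by simpa using hz0)
    simpa using this
  · intro u hu
    have := hH3 (u - x) hu
    rw [Complex.ofReal_sub] at this
    exact this

theorem reflect {x r : ℝ} (hr : 0 < r) {h : ℂ → ℂ}
    (hd : DifferentiableOn ℂ h (ball (x : ℂ) r ∩ UH))
    (hb : ∀ u : ℝ, |u - x| < r → Tendsto (fun z => (h z).im) (𝓝[UH] (u : ℂ)) (𝓝 0)) :
    ∃ H : ℂ → ℂ, DifferentiableOn ℂ H (ball (x : ℂ) r) ∧
      (∀ z ∈ ball (x : ℂ) r, 0 < z.im → H z = h z) ∧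
      (∀ u : ℝ, |u - x| < r → (H u).im = 0) :=
  a2_gen hr hd (empty_subset _) (Or.inl rfl) (fun u hu _ => hb u hu)

theorem reflect_except {x r M : ℝ} (hr : 0 < r) {h : ℂ → ℂ}
    (hd : DifferentiableOn ℂ h (ball (x : ℂ) r ∩ UH))
    (hM : ∀ z ∈ ball (x : ℂ) r, 0 < z.im → |(h z).im| ≤ M)
    (hb : ∀ u : ℝ, |u - x| < r → u ≠ x → Tendsto (fun z => (h z).im) (𝓝[UH] (u : ℂ)) (𝓝 0)) :
    ∃ H : ℂ → ℂ, DifferentiableOn ℂ H (ball (x : ℂ) r) ∧
      (∀ z ∈ ball (x : ℂ) r, 0 < z.im → H z = h z) ∧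
      (∀ u : ℝ, |u - x| < r → (H u).im = 0) := by
  refine a2_gen hr hd (S := {0}) subset_rfl (Or.inr ⟨M, hM⟩) (fun u hu hne => hb u hu ?_)
  rintro rfl
  apply hne
  simp

end Pool.Agent.Choc
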