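import Pool.Agent.Lib.MP_2b3e36_an.Ex.A1

/-!
A3. The Phragmén-Lindelöf argument for the main rigidity proof.

Let `Φ` be holomorphic on `UH` with `liminf Im Φ ≥ 0` at every real point except `±1`,
`|Φ| ≤ C |v ∓ 1|^(-1/2)` near `±1`, and `|Φ| ≤ C / |v|^2` near infinity. Then `Φ = 0`.
Proof. Step 1: `Im Φ ≥ 0`. For `a = ±1` let `B_a v = Re ((-i (v - a))^(-3/4))` (principal power,
`Re (-i (v-a)) > 0` on `UH`): harmonic and `≥ cos (3 pi/8) |v - a|^(-3/4) > 0`. For `ε > 0` consider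
`u = - Im Φ - ε (B_1 + B_{-1}) - ε` on the half disc `{|v| < R, Im v > 0}`; near `±1` `u` is bounded above
(`C t^(-1/2) - ε c t^(-3/4)` is bounded above, and `→ -∞`), at the real points `limsup u ≤ -ε < 0`, on
`|v| = R` `u ≤ C/R^2 - ε ≤ 0` for `R` large. `max_principle` with `F = {1, -1}` (and if you like the two
corners `±R`; `u` is bounded above on the half disc: by compactness, or apply the principle to the half
disc without small half discs about `±1`) gives `u ≤ 0`; let `R → ∞`, `ε → 0`.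
Step 2: if `Im Φ` vanishes at a point of `UH` then `Φ` is constant (open mapping), and the constant is
`0` by the decay. Otherwise `g = -1/Φ` maps `UH` to `UH`, and by Schwarz-Pick for the half plane
`|g v - g i| / |g v - conj (g i)| ≤ |v - i| / |v + i|`; for `v = i T`, `T > 1`, the right side is
`(T-1)/(T+1) = 1 - 2/(T+1)`, so `|g v| - |g i| ≤ (1 - 2/(T+1)) (|g v| + |g i|)`, `|g (iT)| ≤ |g i| (T + 1)`.
But `|g (iT)| = 1/|Φ (iT)| ≥ T^2 / C`: contradiction for large `T`.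
-/

set_option autoImplicit false

open Complex Set Filter Topology Metric

namespace Pool.Agent.Choc

theorem a3_pow {w : ℂ} (hw : 0 < w.im) :
    Real.cos (3 * Real.pi / 8) * ‖w‖ ^ (-(3 : ℝ) / 4) ≤ ((-I * w) ^ (-(3 : ℂ) / 4)).re := by
  have hre : (-I * w).re = w.im := by simp
  have hz : -I * w ≠ 0 := by
    intro h
    rw [h] at hre
    simp at hre
    linarith
  have hn : ‖-I * w‖ = ‖w‖ := by simp
  have hpos : 0 < ‖w‖ := by
    rw [← hn]; exact norm_pos_iff.mpr hz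
  rw [cpow_def_of_ne_zero hz, exp_re]
  have e1 : (log (-I * w) * (-(3 : ℂ) / 4)).re = Real.log ‖w‖ * (-(3 : ℝ) / 4) := by
    have : (-(3 : ℂ) / 4) = ((-(3 : ℝ) / 4 : ℝ) : ℂ) := by push_cast; ring
    rw [this, re_mul_ofReal, log_re, hn]
  have e2 : (log (-I * w) * (-(3 : ℂ) / 4)).im = arg (-I * w) * (-(3 : ℝ) / 4) := by
    have : (-(3 : ℂ) / 4) = ((-(3 : ℝ) / 4 : ℝ) : ℂ) := by push_cast; ring
    rw [this, im_mul_ofReal, log_im]
  rw [e1, e2, ← Real.rpow_def_of_pos hpos, mul_comm]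
  apply mul_le_mul_of_nonneg_left _ (Real.rpow_nonneg hpos.le _)
  have harg : |arg (-I * w)| ≤ Real.pi / 2 := abs_arg_le_pi_div_two_iff.mpr (by rw [hre]; exact hw.le)
  rw [← Real.cos_abs (arg (-I * w) * (-(3 : ℝ) / 4))]
  apply Real.cos_le_cos_of_nonneg_of_le_pi (abs_nonneg _)
  · linarith [Real.pi_pos]
  · rw [abs_mul, abs_of_neg (by norm_num : (-(3 : ℝ) / 4) < 0)]
    linarith

theorem a3_im1 {v : ℂ} (hv : v ∈ UH) : 0 < (v - 1).im := by
  have : 0 < v.im := hv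
  simpa using this

theorem a3_im2 {v : ℂ} (hv : v ∈ UH) : 0 < (v + 1).im := by
  have : 0 < v.im := hv
  simpa using this

theorem a3_cos : 0 < Real.cos (3 * Real.pi / 8) := by
  apply Real.cos_pos_of_mem_Ioo
  constructor <;> linarith [Real.pi_pos]

theorem a3_pow_pos {w : ℂ} (hw : 0 < w.im) : 0 ≤ ((-I * w) ^ (-(3 : ℂ) / 4)).re :=
  le_trans (mul_nonneg a3_cos.le (Real.rpow_nonneg (norm_nonneg _) _)) (a3_pow hw)

/-- `C t^(-1/2) - e t^(-3/4)` is bounded above. -/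
theorem a3_bdd {C e t : ℝ} (he : 0 < e) (ht : 0 < t) :
    C * t ^ (-(1 : ℝ) / 2) - e * t ^ (-(3 : ℝ) / 4) ≤ |C| ^ 3 / e ^ 2 := by
  set s : ℝ := t ^ (-(1 : ℝ) / 4) with hs
  have hs0 : 0 < s := Real.rpow_pos_of_pos ht _
  have h2 : t ^ (-(1 : ℝ) / 2) = s ^ 2 := by
    rw [hs, ← Real.rpow_natCast, ← Real.rpow_mul ht.le]
    norm_num
  have h3 : t ^ (-(3 : ℝ) / 4) = s ^ 3 := by
    rw [hs, ← Real.rpow_natCast, ← Real.rpow_mul ht.le]
    norm_num
  rw [h2, h3]
  have hC : C * s ^ 2 ≤ |C| * s ^ 2 := mul_le_mul_of_nonneg_right (le_abs_self C) (by positivity)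
  have hpos : 0 ≤ |C| ^ 3 / e ^ 2 := by positivity
  by_cases hc : |C| ≤ e * s
  · have : |C| * s ^ 2 ≤ e * s ^ 3 := by
      have := mul_le_mul_of_nonneg_right hc (by positivity : 0 ≤ s ^ 2)
      nlinarith
    linarith
  · push Not at hc
    have hs1 : s < |C| / e := by rw [lt_div_iff₀ he]; linarith
    have h4 : s ^ 2 ≤ (|C| / e) ^ 2 := by
      apply pow_le_pow_left₀ hs0.le hs1.le
    have h5 : |C| * s ^ 2 ≤ |C| ^ 3 / e ^ 2 := by
      calc |C| * s ^ 2 ≤ |C| * (|C| / e) ^ 2 := mul_le_mul_of_nonneg_left h4 (abs_nonneg C)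
        _ = |C| ^ 3 / e ^ 2 := by ring
    have h6 : 0 ≤ e * s ^ 3 := by positivity
    linarith

/-- The comparison function. -/
noncomputable def a3H (Φ : ℂ → ℂ) (ε : ℝ) (v : ℂ) : ℂ :=
  I * Φ v - ε * ((-I * (v - 1)) ^ (-(3 : ℂ) / 4) + (-I * (v + 1)) ^ (-(3 : ℂ) / 4)) - ε

theorem a3H_re (Φ : ℂ → ℂ) (ε : ℝ) (v : ℂ) : (a3H Φ ε v).re =
    -(Φ v).im - ε * (((-I * (v - 1)) ^ (-(3 : ℂ) / 4)).re + ((-I * (v + 1)) ^ (-(3 : ℂ) / 4)).re)
      - ε := by
  simp [a3H]

theorem a3_open : IsOpen UH := isOpen_lt continuous_const Complex.continuous_im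

theorem a3H_an {Φ : ℂ → ℂ} (hd : DifferentiableOn ℂ Φ UH) (ε : ℝ) :
    DifferentiableOn ℂ (a3H Φ ε) UH := by
  have hp : ∀ a : ℝ, DifferentiableOn ℂ (fun v : ℂ => (-I * (v - a)) ^ (-(3 : ℂ) / 4)) UH := by
    intro a v hv
    apply DifferentiableAt.differentiableWithinAt
    apply DifferentiableAt.cpow
    · fun_prop
    · fun_prop
    · left
      have : 0 < v.im := hv
      simpa using this
  have h1 := hp 1
  have h2 := hp (-1)
  simp only [ofReal_one, ofReal_neg, sub_neg_eq_add] at h1 h2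
  unfold a3H
  exact (((hd.const_mul I).sub ((h1.add h2).const_mul _)).sub_const _)

theorem a3_step1 {Φ : ℂ → ℂ} (hd : DifferentiableOn ℂ Φ UH)
    (hreal : ∀ x : ℝ, x ≠ 1 → x ≠ -1 → ∀ ε > 0, ∀ᶠ v in 𝓝[UH] (x : ℂ), -ε < (Φ v).im)
    {C r : ℝ} (hr : 0 < r)
    (h1 : ∀ v ∈ UH, ‖v - 1‖ < r → ‖Φ v‖ ≤ C * ‖v - 1‖ ^ (-(1 : ℝ) / 2))
    (h2 : ∀ v ∈ UH, ‖v + 1‖ < r → ‖Φ v‖ ≤ C * ‖v + 1‖ ^ (-(1 : ℝ) / 2))
    {R : ℝ} (h3 : ∀ v ∈ UH, R < ‖v‖ → ‖Φ v‖ ≤ C / ‖v‖ ^ 2) {ε : ℝ} (hε : 0 < ε) {T : ℝ}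
    (hT0 : 0 < T) (hTR : R < T / 2) (hTε : |C| / (T / 2) ^ 2 ≤ ε) :
    ∀ v ∈ Om T, (a3H Φ ε v).re ≤ 0 := by
  have hsub : Om T ⊆ UH := fun v hv => hv.2
  have hOo : IsOpen (Om T) := by
    apply IsOpen.inter
    · exact isOpen_lt continuous_norm continuous_const
    · exact a3_open
  have himΦ : ∀ v : ℂ, -(Φ v).im ≤ ‖Φ v‖ := fun v => by
    have := abs_im_le_norm (Φ v)
    have h := neg_abs_le (Φ v).im
    linarith
  have hH := a3H_an hd ε
  -- pointwise bounds
  have hb1 : ∀ v ∈ UH, ‖v - 1‖ < r → (a3H Φ ε v).re ≤ |C| ^ 3 / (ε * Real.cos (3 * Real.pi / 8)) ^ 2 := by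
    intro v hv hvr
    have hvi : 0 < (v - 1).im := a3_im1 hv
    have hvi2 : 0 < (v + 1).im := a3_im2 hv
    have hn : 0 < ‖v - 1‖ := norm_pos_iff.mpr (fun h => by rw [h] at hvi; simp at hvi)
    rw [a3H_re]
    have e1 := h1 v hv hvr
    have e2 := a3_pow hvi
    have e3 := a3_pow_pos hvi2
    have e4 := a3_bdd (C := C) (mul_pos hε a3_cos) hn
    have e5 := mul_le_mul_of_nonneg_left e2 hε.le
    have e6 := mul_nonneg hε.le e3
    have := himΦ v
    nlinarith
  have hb2 : ∀ v ∈ UH, ‖v + 1‖ < r → (a3H Φ ε v).re ≤ |C| ^ 3 / (ε * Real.cos (3 * Real.pi / 8)) ^ 2 := by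
    intro v hv hvr
    have hvi : 0 < (v - 1).im := a3_im1 hv
    have hvi2 : 0 < (v + 1).im := a3_im2 hv
    have hn : 0 < ‖v + 1‖ := norm_pos_iff.mpr (fun h => by rw [h] at hvi2; simp at hvi2)
    rw [a3H_re]
    have e1 := h2 v hv hvr
    have e2 := a3_pow hvi2
    have e3 := a3_pow_pos hvi
    have e4 := a3_bdd (C := C) (mul_pos hε a3_cos) hn
    have e5 := mul_le_mul_of_nonneg_left e2 hε.le
    have e6 := mul_nonneg hε.le e3
    have := himΦ v
    nlinarith
  have hbr : ∀ x : ℝ, x ≠ 1 → x ≠ -1 → ∀ᶠ v in 𝓝[UH] (x : ℂ), (a3H Φ ε v).re ≤ 0 := by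
    intro x hx1 hx2
    filter_upwards [hreal x hx1 hx2 ε hε, self_mem_nhdsWithin] with v hv hvU
    have hvi : 0 < (v - 1).im := a3_im1 hvU
    have hvi2 : 0 < (v + 1).im := a3_im2 hvU
    rw [a3H_re]
    have e2 := mul_nonneg hε.le (a3_pow_pos hvi)
    have e3 := mul_nonneg hε.le (a3_pow_pos hvi2)
    linarith
  -- bounded above
  obtain ⟨M, hM⟩ : ∃ M, ∀ z ∈ closedBall (0 : ℂ) T ∩ UH, (a3H Φ ε z).re ≤ M := by
    have hcpt : IsCompact (closedBall (0 : ℂ) T) := isCompact_closedBall _ _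
    apply hcpt.induction_on (p := fun s => ∃ M, ∀ z ∈ s ∩ UH, (a3H Φ ε z).re ≤ M)
    · exact ⟨0, fun z hz => absurd hz.1 (by simp)⟩
    · rintro s t hst ⟨M, hM⟩
      exact ⟨M, fun z hz => hM z ⟨hst hz.1, hz.2⟩⟩
    · rintro s t ⟨M, hM⟩ ⟨N, hN⟩
      refine ⟨max M N, fun z hz => ?_⟩
      rcases hz.1 with h | h
      · exact le_trans (hM z ⟨h, hz.2⟩) (le_max_left _ _)
      · exact le_trans (hN z ⟨h, hz.2⟩) (le_max_right _ _)
    · intro x hx
      rcases lt_trichotomy x.im 0 with hxi | hxi | hxi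
      · refine ⟨{z : ℂ | z.im < 0}, mem_nhdsWithin_of_mem_nhds
          ((isOpen_lt Complex.continuous_im continuous_const).mem_nhds hxi), 0, ?_⟩
        rintro z ⟨hz1, hz2⟩
        have h1 : z.im < 0 := hz1
        have h2 : 0 < z.im := hz2
        linarith
      · have hxx : x = (x.re : ℂ) := by
          apply Complex.ext <;> simp [hxi]
        by_cases hx1 : x.re = 1
        · refine ⟨ball 1 r, mem_nhdsWithin_of_mem_nhds ?_,
            |C| ^ 3 / (ε * Real.cos (3 * Real.pi / 8)) ^ 2, ?_⟩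
          · rw [hxx, hx1]
            simpa using ball_mem_nhds (1 : ℂ) hr
          · rintro z ⟨hz1, hz2⟩
            exact hb1 z hz2 (by simpa [dist_eq_norm] using hz1)
        by_cases hx2 : x.re = -1
        · refine ⟨ball (-1) r, mem_nhdsWithin_of_mem_nhds ?_,
            |C| ^ 3 / (ε * Real.cos (3 * Real.pi / 8)) ^ 2, ?_⟩
          · rw [hxx, hx2]
            simpa using ball_mem_nhds (-1 : ℂ) hr
          · rintro z ⟨hz1, hz2⟩
            exact hb2 z hz2 (by simpa [dist_eq_norm] using hz1)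
        have := hbr x.re hx1 hx2
        rw [← hxx, eventually_nhdsWithin_iff] at this
        refine ⟨_, mem_nhdsWithin_of_mem_nhds this, 0, ?_⟩
        rintro z ⟨hz1, hz2⟩
        exact hz1 hz2
      · have hc : ContinuousAt (fun z => (a3H Φ ε z).re) x :=
          Complex.continuous_re.continuousAt.comp
            ((hH.differentiableAt (a3_open.mem_nhds hxi)).continuousAt)
        have := hc.eventually (gt_mem_nhds (lt_add_one ((a3H Φ ε x).re)))
        refine ⟨_, mem_nhdsWithin_of_mem_nhds this, (a3H Φ ε x).re + 1, ?_⟩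
        rintro z ⟨hz1, hz2⟩
        exact le_of_lt hz1
  apply max_principle (F := {(1 : ℂ), (-1 : ℂ)}) hOo ?_ (by simp) (u := fun z => (a3H Φ ε z).re) ?_
    (M := M) ?_ ?_
  · apply (isBounded_ball (x := (0 : ℂ)) (r := T)).subset
    intro v hv
    simpa using hv.1
  · intro v hv
    apply AnalyticAt.harmonicAt_re
    exact hH.analyticAt (a3_open.mem_nhds (hsub hv))
  · intro z hz
    exact hM z ⟨by simpa using hz.1.le, hz.2⟩
  · intro ζ hζ hζF δ hδ
    have hζ1 : ‖ζ‖ ≤ T := by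
      have : ζ ∈ closure (Om T) := frontier_subset_closure hζ
      have h2 : closure (Om T) ⊆ {z : ℂ | ‖z‖ ≤ T} :=
        closure_minimal (fun z hz => hz.1.le) (isClosed_le continuous_norm continuous_const)
      exact h2 this
    have hζ2 : 0 ≤ ζ.im := by
      have : ζ ∈ closure (Om T) := frontier_subset_closure hζ
      have h2 : closure (Om T) ⊆ {z : ℂ | 0 ≤ z.im} :=
        closure_minimal (fun z hz => le_of_lt hz.2)
          (isClosed_le continuous_const Complex.continuous_im)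
      exact h2 this
    have hζ3 : ζ ∉ Om T := by
      rw [hOo.frontier_eq] at hζ
      exact hζ.2
    rcases hζ2.eq_or_lt with hi | hi
    · have hxx : ζ = (ζ.re : ℂ) := by
        apply Complex.ext <;> simp [← hi]
      have hx1 : ζ.re ≠ 1 := by
        intro h
        rw [h] at hxx
        apply hζF
        simp [hxx]
      have hx2 : ζ.re ≠ -1 := by
        intro h
        rw [h] at hxx
        apply hζF
        simp [hxx]
      have := hbr ζ.re hx1 hx2
      rw [← hxx] at this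
      filter_upwards [nhdsWithin_mono _ hsub this] with v hv
      have : (a3H Φ ε v).re ≤ 0 := hv
      linarith
    · have hTn : ‖ζ‖ = T := by
        apply le_antisymm hζ1
        by_contra hlt
        push Not at hlt
        exact hζ3 ⟨hlt, hi⟩
      have hev : ∀ᶠ v in 𝓝[Om T] ζ, T / 2 < ‖v‖ := by
        apply mem_nhdsWithin_of_mem_nhds
        apply (isOpen_lt continuous_const continuous_norm).mem_nhds
        show T / 2 < ‖ζ‖
        rw [hTn]; linarith
      filter_upwards [hev, self_mem_nhdsWithin] with v hv hvO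
      have hvU : v ∈ UH := hsub hvO
      have hvi : 0 < (v - 1).im := a3_im1 hvU
      have hvi2 : 0 < (v + 1).im := a3_im2 hvU
      have e0 := h3 v hvU (by linarith)
      have e1 : C / ‖v‖ ^ 2 ≤ ε := by
        have h5 : (T / 2) ^ 2 ≤ ‖v‖ ^ 2 := pow_le_pow_left₀ (by linarith) hv.le 2
        calc C / ‖v‖ ^ 2 ≤ |C| / ‖v‖ ^ 2 := by
              apply div_le_div_of_nonneg_right (le_abs_self C) (by positivity)
          _ ≤ |C| / (T / 2) ^ 2 := by
              apply div_le_div_of_nonneg_left (abs_nonneg C) (by positivity) h5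
          _ ≤ ε := hTε
      have e2 := mul_nonneg hε.le (a3_pow_pos hvi)
      have e3 := mul_nonneg hε.le (a3_pow_pos hvi2)
      have e4 := himΦ v
      show (a3H Φ ε v).re < δ
      rw [a3H_re]
      linarith

theorem a3_im_nonneg {Φ : ℂ → ℂ} (hd : DifferentiableOn ℂ Φ UH)
    (hreal : ∀ x : ℝ, x ≠ 1 → x ≠ -1 → ∀ ε > 0, ∀ᶠ v in 𝓝[UH] (x : ℂ), -ε < (Φ v).im)
    {C r : ℝ} (hr : 0 < r)
    (h1 : ∀ v ∈ UH, ‖v - 1‖ < r → ‖Φ v‖ ≤ C * ‖v - 1‖ ^ (-(1 : ℝ) / 2))
    (h2 : ∀ v ∈ UH, ‖v + 1‖ < r → ‖Φ v‖ ≤ C * ‖v + 1‖ ^ (-(1 : ℝ) / 2))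
    {R : ℝ} (h3 : ∀ v ∈ UH, R < ‖v‖ → ‖Φ v‖ ≤ C / ‖v‖ ^ 2) : ∀ v ∈ UH, 0 ≤ (Φ v).im := by
  intro v hv
  set B : ℝ := ((-I * (v - 1)) ^ (-(3 : ℂ) / 4)).re + ((-I * (v + 1)) ^ (-(3 : ℂ) / 4)).re with hB
  have key : ∀ ε > 0, -(Φ v).im ≤ ε * (B + 1) := by
    intro ε hε
    have ht1 : ∀ᶠ T : ℝ in atTop, |C| / (T / 2) ^ 2 ≤ ε := by
      have : Tendsto (fun T : ℝ => |C| / (T / 2) ^ 2) atTop (𝓝 0) := by
        apply Tendsto.div_atTop tendsto_const_nhds
        exact (tendsto_pow_atTop (by norm_num)).comp (tendsto_id.atTop_div_const (by norm_num))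
      exact (this.eventually (gt_mem_nhds hε)).mono (fun _ h => h.le)
    obtain ⟨T, hT1, hT2, hT3, hT4⟩ := (ht1.and ((eventually_gt_atTop (2 * R)).and
      ((eventually_gt_atTop 0).and (eventually_gt_atTop ‖v‖)))).exists
    have := a3_step1 hd hreal hr h1 h2 h3 hε hT3 (by linarith) hT1 v ⟨hT4, hv⟩
    rw [a3H_re] at this
    rw [hB]
    linarith
  by_contra hneg
  push Not at hneg
  have hBn : 0 ≤ B := by
    have hvi : 0 < (v - 1).im := a3_im1 hv
    have hvi2 : 0 < (v + 1).im := a3_im2 hv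
    exact add_nonneg (a3_pow_pos hvi) (a3_pow_pos hvi2)
  have h5 := key (-(Φ v).im / (2 * (B + 1))) (by apply div_pos <;> linarith)
  have h6 : -(Φ v).im / (2 * (B + 1)) * (B + 1) = -(Φ v).im / 2 := by
    field_simp
  rw [h6] at h5
  linarith

/-- Schwarz-Pick at the points `i T`. -/
theorem a3_pick {Φ : ℂ → ℂ} (hd : DifferentiableOn ℂ Φ UH) (hpos : ∀ v ∈ UH, 0 < (Φ v).im) {T : ℝ}
    (hT : 1 < T) :
    ‖(Φ (I * T) - Φ I) / (Φ (I * T) - starRingEnd ℂ (Φ I))‖ ≤ (T - 1) / (T + 1) := by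
  set a : ℂ := Φ I with ha
  have haI : 0 < a.im := hpos I (by show 0 < I.im; simp)
  have hden : ∀ w : ℂ, 0 < w.im → w - starRingEnd ℂ a ≠ 0 := by
    intro w hw h
    have := congrArg Complex.im h
    simp at this
    linarith
  have hcay : ∀ w ∈ ball (0 : ℂ) 1, I * (1 + w) / (1 - w) ∈ UH := by
    intro w hw
    have hw1 : ‖w‖ < 1 := by simpa using hw
    have hne : (1 : ℂ) - w ≠ 0 := by
      intro h
      have : w = 1 := (sub_eq_zero.mp h).symm
      rw [this] at hw1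
      simp at hw1
    show 0 < (I * (1 + w) / (1 - w)).im
    have hns : 0 < normSq (1 - w) := normSq_pos.mpr hne
    have hw2 : w.re ^ 2 + w.im ^ 2 < 1 := by
      have h1 : ‖w‖ ^ 2 < 1 := by nlinarith [norm_nonneg w]
      rw [← normSq_eq_norm_sq, normSq_apply] at h1
      nlinarith
    rw [div_im]
    have e : (I * (1 + w)).im * (1 - w).re / normSq (1 - w) - (I * (1 + w)).re * (1 - w).im / normSq (1 - w)
        = (1 - w.re ^ 2 - w.im ^ 2) / normSq (1 - w) := by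
      rw [← sub_div]
      congr 1
      simp
      ring
    rw [e]
    apply div_pos _ hns
    linarith
  set f : ℂ → ℂ := fun w => (Φ (I * (1 + w) / (1 - w)) - a) / (Φ (I * (1 + w) / (1 - w)) - starRingEnd ℂ a)
    with hf
  have hfd : DifferentiableOn ℂ f (ball 0 1) := by
    have hc : DifferentiableOn ℂ (fun w : ℂ => I * (1 + w) / (1 - w)) (ball 0 1) := by
      apply DifferentiableOn.div
      · fun_prop
      · fun_prop
      · intro w hw h
        have hw1 : ‖w‖ < 1 := by simpa using hw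
        have : w = 1 := (sub_eq_zero.mp h).symm
        rw [this] at hw1
        simp at hw1
    have h1 : DifferentiableOn ℂ (fun w : ℂ => Φ (I * (1 + w) / (1 - w))) (ball 0 1) :=
      hd.comp hc (fun w hw => hcay w hw)
    apply (h1.sub_const _).div (h1.sub_const _)
    intro w hw
    exact hden _ (hpos _ (hcay w hw))
  have hmaps : MapsTo f (ball 0 1) (closedBall 0 1) := by
    intro w hw
    rw [mem_closedBall, dist_zero_right, hf]
    simp only
    set z := Φ (I * (1 + w) / (1 - w)) with hz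
    have hzi : 0 < z.im := hpos _ (hcay w hw)
    rw [norm_div, div_le_one (norm_pos_iff.mpr (hden z hzi))]
    have h1 : ‖z - a‖ ^ 2 ≤ ‖z - starRingEnd ℂ a‖ ^ 2 := by
      rw [← normSq_eq_norm_sq, ← normSq_eq_norm_sq, normSq_apply, normSq_apply]
      simp
      nlinarith [mul_pos hzi haI]
    exact le_of_sq_le_sq h1 (norm_nonneg _)
  have hf0 : f 0 = 0 := by
    simp [hf, ha]
  have hw : ((((T - 1) / (T + 1) : ℝ) : ℂ)) ∈ ball (0 : ℂ) 1 := by
    rw [mem_ball, dist_zero_right, norm_real, Real.norm_of_nonneg (by apply div_nonneg <;> linarith),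
      div_lt_one (by linarith)]
    linarith
  have := norm_le_norm_of_mapsTo_ball hfd hmaps hf0 (mem_ball_zero_iff.mp hw)
  have hcT : I * (1 + (((T - 1) / (T + 1) : ℝ) : ℂ)) / (1 - (((T - 1) / (T + 1) : ℝ) : ℂ)) = I * T := by
    have h1 : (T : ℂ) + 1 ≠ 0 := by
      intro h
      have := congrArg Complex.re h
      simp at this
      linarith
    push_cast
    field_simp
    ring
  rw [hf] at this
  simp only at this
  rw [hcT, norm_real, Real.norm_of_nonneg (by apply div_nonneg <;> linarith)] at this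
  exact this

theorem phragmen {Φ : ℂ → ℂ} (hd : DifferentiableOn ℂ Φ UH)
    (hreal : ∀ x : ℝ, x ≠ 1 → x ≠ -1 → ∀ ε > 0, ∀ᶠ v in 𝓝[UH] (x : ℂ), -ε < (Φ v).im)
    {C r : ℝ} (hr : 0 < r)
    (h1 : ∀ v ∈ UH, ‖v - 1‖ < r → ‖Φ v‖ ≤ C * ‖v - 1‖ ^ (-(1 : ℝ) / 2))
    (h2 : ∀ v ∈ UH, ‖v + 1‖ < r → ‖Φ v‖ ≤ C * ‖v + 1‖ ^ (-(1 : ℝ) / 2))
    {R : ℝ} (h3 : ∀ v ∈ UH, R < ‖v‖ → ‖Φ v‖ ≤ C / ‖v‖ ^ 2) :
    ∀ v ∈ UH, Φ v = 0 := by
  have hnn := a3_im_nonneg hd hreal hr h1 h2 h3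
  have hIT : ∀ T : ℝ, 0 < T → I * T ∈ UH := by
    intro T hT
    show 0 < (I * T).im
    simpa using hT
  have hnIT : ∀ T : ℝ, 0 < T → ‖I * (T : ℂ)‖ = T := by
    intro T hT
    rw [norm_mul, norm_I, one_mul, norm_real, Real.norm_of_nonneg hT.le]
  have hpre : IsPreconnected UH := (convex_halfSpace_im_gt 0).isPreconnected
  rcases (hd.analyticOnNhd a3_open).is_constant_or_isOpen hpre with ⟨w, hw⟩ | hop
  · -- constant
    have hw0 : w = 0 := by
      by_contra hne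
      have hwp : 0 < ‖w‖ := norm_pos_iff.mpr hne
      have ht : Tendsto (fun T : ℝ => C / T ^ 2) atTop (𝓝 0) := by
        apply Tendsto.div_atTop tendsto_const_nhds
        exact tendsto_pow_atTop (by norm_num)
      obtain ⟨T, hT1, hT2, hT3⟩ := ((ht.eventually (gt_mem_nhds hwp)).and
        ((eventually_gt_atTop R).and (eventually_gt_atTop 0))).exists
      have := h3 (I * T) (hIT T hT3) (by rw [hnIT T hT3]; exact hT2)
      rw [hw _ (hIT T hT3), hnIT T hT3] at this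
      linarith
    intro v hv
    rw [hw v hv, hw0]
  · exfalso
    have hopen := hop UH subset_rfl a3_open
    have hpos : ∀ v ∈ UH, 0 < (Φ v).im := by
      have hs : Φ '' UH ⊆ interior {z : ℂ | 0 ≤ z.im} := by
        apply interior_maximal _ hopen
        rintro _ ⟨v, hv, rfl⟩
        exact hnn v hv
      rw [Complex.interior_setOfPred_le_im] at hs
      intro v hv
      exact hs ⟨v, hv, rfl⟩
    have haI : 0 < (Φ I).im := hpos I (by show 0 < I.im; simp)
    have han : 0 < ‖Φ I‖ := norm_pos_iff.mpr (fun h => by rw [h] at haI; simp at haI)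
    have ht : Tendsto (fun T : ℝ => 2 * |C| / T) atTop (𝓝 0) :=
      Tendsto.div_atTop tendsto_const_nhds tendsto_id
    obtain ⟨T, hT1, hT2, hT3⟩ := ((ht.eventually (gt_mem_nhds han)).and
        ((eventually_gt_atTop R).and (eventually_gt_atTop 1))).exists
    have hTp : 0 < T := by linarith
    have hp := a3_pick hd hpos hT3
    have hdec := h3 (I * T) (hIT T hTp) (by rw [hnIT T hTp]; exact hT2)
    rw [hnIT T hTp] at hdec
    set w : ℂ := Φ (I * T) with hw
    have hden : 0 < ‖w - starRingEnd ℂ (Φ I)‖ := by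
      apply norm_pos_iff.mpr
      intro h
      have := congrArg Complex.im h
      have h9 : 0 < w.im := hpos _ (hIT T hTp)
      simp at this
      linarith
    rw [norm_div, div_le_iff₀ hden] at hp
    have g1 : ‖Φ I‖ - ‖w‖ ≤ ‖w - Φ I‖ := by
      rw [norm_sub_rev]
      exact norm_sub_norm_le _ _
    have g2 : ‖w - starRingEnd ℂ (Φ I)‖ ≤ ‖w‖ + ‖Φ I‖ := by
      refine (norm_sub_le _ _).trans ?_
      rw [Complex.norm_conj]
    have g3 : (T - 1) / (T + 1) * ‖w - starRingEnd ℂ (Φ I)‖ ≤ (T - 1) / (T + 1) * (‖w‖ + ‖Φ I‖) :=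
      mul_le_mul_of_nonneg_left g2 (by apply div_nonneg <;> linarith)
    have g4 : ‖Φ I‖ - ‖w‖ ≤ (T - 1) / (T + 1) * (‖w‖ + ‖Φ I‖) := by linarith
    have hT1' : 0 < T + 1 := by linarith
    have g5 : (‖Φ I‖ - ‖w‖) * (T + 1) ≤ (T - 1) * (‖w‖ + ‖Φ I‖) := by
      have := mul_le_mul_of_nonneg_right g4 hT1'.le
      have e : (T - 1) / (T + 1) * (‖w‖ + ‖Φ I‖) * (T + 1) = (T - 1) * (‖w‖ + ‖Φ I‖) := by
        field_simp
      linarith
    have g6 : ‖Φ I‖ ≤ ‖w‖ * T := by nlinarith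
    have g7 : ‖w‖ * T ≤ |C| / T := by
      have h8 : C / T ^ 2 ≤ |C| / T ^ 2 := by
        apply div_le_div_of_nonneg_right (le_abs_self C) (by positivity)
      calc ‖w‖ * T ≤ (|C| / T ^ 2) * T := mul_le_mul_of_nonneg_right (hdec.trans h8) hTp.le
        _ = |C| / T := by field_simp
    have g8 : |C| / T ≤ 2 * |C| / T := by
      apply div_le_div_of_nonneg_right _ hTp.le
      linarith [abs_nonneg C]
    linarith

end Pool.Agent.Choc
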