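import Pool.Agent.Lib.MP_2b3e36_an.Ex.L4

/-!
C1. The lift `G` of a solution `f` through `J`, on the sector `Om2 r δ`.

Proof. Let `0 < arg b < pi`; choose `0 < δ < pi/4` with `δ < arg b < pi - δ`. The two sets
`Ω± = {‖z‖ < r, 0 < Im (z exp (± i δ))}` are open convex (half discs), contain `b`, and contain neither
`0` nor `conj b` (`arg (conj b) = - arg b`, so `Im (conj b exp (i δ)) = |b| sin (δ - arg b) < 0`, and
`Im (conj b exp (-iδ)) = - |b| sin (arg b + δ) < 0`). So on each `f ≠ 0` and `f z = 1 ↔ z = b`: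
`lift_exists` gives `G±`. They agree on `Ω+ ∩ Ω-` (convex, contains `b`) by `lift_unique`. Glue.
`G b = 0` and `deriv G b ≠ 0` from `lift_deriv` and `deriv f b ≠ 0`. If `G z = 0` then `f z = J 0 = 1`, so
`z = b`.
-/

set_option autoImplicit false

open Complex Set Filter Topology Metric

namespace Pool.Agent.Choc

/-- The lift of a solution. -/
structure GLift (b : ℂ) (r δ : ℝ) (f G : ℂ → ℂ) : Prop where
  δ_pos : 0 < δ
  δ_lt : δ < Real.pi / 4
  b_mem : b ∈ Om r
  conj_b : starRingEnd ℂ b ∉ Om2 r δ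
  diff : DifferentiableOn ℂ G (Om2 r δ)
  lt_one : ∀ z ∈ Om2 r δ, ‖G z‖ < 1
  lift : ∀ z ∈ Om2 r δ, J (G z) = f z
  zero : ∀ z ∈ Om2 r δ, G z = 0 ↔ z = b
  deriv_b : deriv G b ≠ 0

theorem c1_im (z : ℂ) (δ : ℝ) :
    (z * exp (δ * I)).im = z.re * Real.sin δ + z.im * Real.cos δ := by
  rw [Complex.mul_im, Complex.exp_ofReal_mul_I_re, Complex.exp_ofReal_mul_I_im]

theorem c1_im_neg (z : ℂ) (δ : ℝ) :
    (z * exp (-δ * I)).im = -z.re * Real.sin δ + z.im * Real.cos δ := by
  have h : (-δ : ℂ) * I = ((-δ : ℝ) : ℂ) * I := by push_cast; ring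
  rw [h, c1_im, Real.sin_neg, Real.cos_neg]
  ring

theorem om_subset_om2 {r δ : ℝ} (h0 : 0 < δ) (h1 : δ < Real.pi / 4) : Om r ⊆ Om2 r δ := by
  rintro z ⟨hz, him⟩
  refine ⟨hz, ?_⟩
  rw [c1_im, c1_im_neg]
  have hc : 0 < Real.cos δ := Real.cos_pos_of_mem_Ioo ⟨by linarith [Real.pi_pos], by
    linarith [Real.pi_pos]⟩
  have hs : 0 < Real.sin δ := Real.sin_pos_of_pos_of_lt_pi h0 (by linarith [Real.pi_pos])
  have hp : 0 < z.im * Real.cos δ := mul_pos him hc
  rcases le_total 0 z.re with h | h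
  · left
    have := mul_nonneg h hs.le
    linarith
  · right
    have := mul_nonneg (neg_nonneg.2 h) hs.le
    linarith

theorem real_mem_om2 {r δ : ℝ} (h0 : 0 < δ) (h1 : δ < Real.pi / 4) {x : ℝ} (hx : x ≠ 0)
    (hxr : |x| < r) : (x : ℂ) ∈ Om2 r δ := by
  refine ⟨by rwa [Complex.norm_real], ?_⟩
  rw [c1_im, c1_im_neg]
  have hs : 0 < Real.sin δ := Real.sin_pos_of_pos_of_lt_pi h0 (by linarith [Real.pi_pos])
  simp only [Complex.ofReal_re, Complex.ofReal_im, zero_mul, add_zero]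
  rcases lt_or_gt_of_ne hx with h | h
  · right
    exact mul_pos (neg_pos.2 h) hs
  · left
    exact mul_pos h hs

theorem c1_open (r : ℝ) (c : ℂ) : IsOpen {z : ℂ | ‖z‖ < r ∧ 0 < (z * c).im} :=
  (isOpen_lt continuous_norm continuous_const).inter
    (isOpen_lt continuous_const (Complex.continuous_im.comp (continuous_id.mul continuous_const)))

theorem c1_convex (r : ℝ) (c : ℂ) : Convex ℝ {z : ℂ | ‖z‖ < r ∧ 0 < (z * c).im} := by
  have h1 : Convex ℝ {z : ℂ | ‖z‖ < r} := by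
    have : {z : ℂ | ‖z‖ < r} = ball (0 : ℂ) r := by
      ext z; simp
    rw [this]
    exact convex_ball 0 r
  have h2 : Convex ℝ {z : ℂ | 0 < (z * c).im} := by
    intro x hx y hy a b ha hb hab
    have hx' : 0 < (x * c).im := hx
    have hy' : 0 < (y * c).im := hy
    show 0 < ((a • x + b • y) * c).im
    have e : ((a • x + b • y) * c).im = a * (x * c).im + b * (y * c).im := by
      simp only [Complex.real_smul, add_mul, Complex.add_im, Complex.mul_im, Complex.mul_re,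
        Complex.ofReal_re, Complex.ofReal_im]
      ring
    rw [e]
    rcases eq_or_lt_of_le ha with h | h
    · have hb1 : b = 1 := by linarith
      rw [← h, hb1]
      simpa using hy'
    · have h3 : 0 < a * (x * c).im := mul_pos h hx'
      have h4 : 0 ≤ b * (y * c).im := mul_nonneg hb hy'.le
      linarith
  exact h1.inter h2

theorem c1_om2_eq (r δ : ℝ) : Om2 r δ = {z : ℂ | ‖z‖ < r ∧ 0 < (z * exp (δ * I)).im} ∪
    {z : ℂ | ‖z‖ < r ∧ 0 < (z * exp (-δ * I)).im} := by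
  ext z
  simp only [Om2, Set.mem_setOf_eq, Set.mem_union]
  tauto

theorem isOpen_om2 (r δ : ℝ) : IsOpen (Om2 r δ) := by
  rw [c1_om2_eq]
  exact (c1_open r _).union (c1_open r _)

theorem glift_exists {b : ℂ} {r : ℝ} {f : ℂ → ℂ} (h : Sol b r f) :
    ∃ (δ : ℝ) (G : ℂ → ℂ), GLift b r δ f G := by
  have hbim := h.b_im
  set δ : ℝ := min (1 / 4) (b.im / (4 * (|b.re| + 1))) with hδ
  have hre := abs_nonneg b.re
  have hδ0 : 0 < δ := lt_min (by norm_num) (by positivity)
  have hδ1 : δ ≤ 1 / 4 := min_le_left _ _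
  have hδ2 : δ ≤ b.im / (4 * (|b.re| + 1)) := min_le_right _ _
  have hpi := Real.pi_gt_three
  have hδ3 : δ < Real.pi / 4 := by linarith
  have hs0 : 0 < Real.sin δ := Real.sin_pos_of_pos_of_lt_pi hδ0 (by linarith)
  have hs1 : Real.sin δ ≤ δ := Real.sin_le hδ0.le
  have hc1 : 1 / 2 < Real.cos δ := by
    have := Real.one_sub_sq_div_two_le_cos (x := δ)
    nlinarith
  have hkey : |b.re| * Real.sin δ < b.im * Real.cos δ := by
    have e1 : |b.re| * Real.sin δ ≤ |b.re| * (b.im / (4 * (|b.re| + 1))) :=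
      mul_le_mul_of_nonneg_left (hs1.trans hδ2) hre
    have e2 : |b.re| * (b.im / (4 * (|b.re| + 1))) ≤ b.im / 4 := by
      rw [mul_div_assoc', div_le_div_iff₀ (by positivity) (by norm_num)]
      nlinarith
    have e3 : b.im * (1 / 2) < b.im * Real.cos δ := mul_lt_mul_of_pos_left hc1 hbim
    linarith
  have hk1 : b.re * Real.sin δ < b.im * Real.cos δ :=
    lt_of_le_of_lt (mul_le_mul_of_nonneg_right (le_abs_self _) hs0.le) hkey
  have hk2 : -b.re * Real.sin δ < b.im * Real.cos δ :=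
    lt_of_le_of_lt (mul_le_mul_of_nonneg_right (neg_le_abs _) hs0.le) hkey
  have hbr : ‖b‖ < r := h.b_norm.trans h.one_lt
  set P : Set ℂ := {z : ℂ | ‖z‖ < r ∧ 0 < (z * exp (δ * I)).im} with hP
  set M : Set ℂ := {z : ℂ | ‖z‖ < r ∧ 0 < (z * exp (-δ * I)).im} with hM
  have hbP : b ∈ P := ⟨hbr, by rw [c1_im]; linarith⟩
  have hbM : b ∈ M := ⟨hbr, by rw [c1_im_neg]; linarith⟩
  have hcP : starRingEnd ℂ b ∉ P := by
    rintro ⟨-, h2⟩
    rw [c1_im, Complex.conj_re, Complex.conj_im] at h2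
    linarith
  have hcM : starRingEnd ℂ b ∉ M := by
    rintro ⟨-, h2⟩
    rw [c1_im_neg, Complex.conj_re, Complex.conj_im] at h2
    linarith
  have h0P : (0 : ℂ) ∉ P := by
    rintro ⟨-, h2⟩
    simp at h2
  have h0M : (0 : ℂ) ∉ M := by
    rintro ⟨-, h2⟩
    simp at h2
  have hsub : ∀ S : Set ℂ, (∀ z ∈ S, ‖z‖ < r) → starRingEnd ℂ b ∉ S → (0 : ℂ) ∉ S →
      S ⊆ ball (0 : ℂ) r ∧ (∀ z ∈ S, f z ≠ 0) ∧ ∀ z ∈ S, f z = 1 ↔ z = b := by
    intro S hS hcS h0S
    have hSb : S ⊆ ball (0 : ℂ) r := fun z hz => by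
      rw [mem_ball_zero_iff]; exact hS z hz
    refine ⟨hSb, ?_, ?_⟩
    · intro z hz hf
      have := (h.zero z (hSb hz)).1 hf
      subst this
      exact h0S hz
    · intro z hz
      rw [h.one z (hSb hz)]
      constructor
      · rintro (h1 | h1)
        · exact h1
        · subst h1
          exact absurd hz hcS
      · exact Or.inl
  obtain ⟨hP1, hP2, hP3⟩ := hsub P (fun z hz => hz.1) hcP h0P
  obtain ⟨hM1, hM2, hM3⟩ := hsub M (fun z hz => hz.1) hcM h0M
  obtain ⟨Gp, hGp1, hGp2, hGp3⟩ := lift_exists (c1_convex r _) (c1_open r _) hbP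
    (h.diff.mono hP1) hP2 hP3
  obtain ⟨Gm, hGm1, hGm2, hGm3⟩ := lift_exists (c1_convex r _) (c1_open r _) hbM
    (h.diff.mono hM1) hM2 hM3
  have hPo : IsOpen P := c1_open r _
  have hMo : IsOpen M := c1_open r _
  have hagree : ∀ z ∈ P ∩ M, Gp z = Gm z := by
    refine lift_unique (hPo.inter hMo) ((c1_convex r _).inter (c1_convex r _)).isPreconnected
      ⟨hbP, hbM⟩ (hGp1.mono inter_subset_left) (hGm1.mono inter_subset_right)
      (fun z hz => (hGp2 z hz.1).1) (fun z hz => (hGm2 z hz.2).1) ?_ hGp3 hGm3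
    intro z hz
    rw [(hGp2 z hz.1).2, (hGm2 z hz.2).2]
  classical
  set G : ℂ → ℂ := fun z => if z ∈ P then Gp z else Gm z with hG
  have hGP : ∀ z ∈ P, G z = Gp z := fun z hz => if_pos hz
  have hGM : ∀ z ∈ M, G z = Gm z := by
    intro z hz
    by_cases hzP : z ∈ P
    · rw [hGP z hzP]
      exact hagree z ⟨hzP, hz⟩
    · exact if_neg hzP
  have hun : Om2 r δ = P ∪ M := c1_om2_eq r δ
  have hdiff : DifferentiableOn ℂ G (Om2 r δ) := by
    rw [hun]
    rintro z (hz | hz)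
    · have h1 : DifferentiableAt ℂ Gp z := hGp1.differentiableAt (hPo.mem_nhds hz)
      have h2 : G =ᶠ[𝓝 z] Gp := by
        filter_upwards [hPo.mem_nhds hz] with y hy using hGP y hy
      exact (h1.congr_of_eventuallyEq h2).differentiableWithinAt
    · have h1 : DifferentiableAt ℂ Gm z := hGm1.differentiableAt (hMo.mem_nhds hz)
      have h2 : G =ᶠ[𝓝 z] Gm := by
        filter_upwards [hMo.mem_nhds hz] with y hy using hGM y hy
      exact (h1.congr_of_eventuallyEq h2).differentiableWithinAt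
  have hval : ∀ z ∈ Om2 r δ, ‖G z‖ < 1 ∧ J (G z) = f z := by
    rw [hun]
    rintro z (hz | hz)
    · rw [hGP z hz]; exact hGp2 z hz
    · rw [hGM z hz]; exact hGm2 z hz
  have hGb : G b = 0 := by rw [hGP b hbP, hGp3]
  have hbOm : b ∈ Om2 r δ := by rw [hun]; exact Or.inl hbP
  have hcOm : starRingEnd ℂ b ∉ Om2 r δ := by
    rw [hun]
    rintro (h1 | h1)
    · exact hcP h1
    · exact hcM h1
  refine ⟨δ, G, ⟨hδ0, hδ3, ⟨hbr, hbim⟩, hcOm, hdiff, fun z hz => (hval z hz).1,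
    fun z hz => (hval z hz).2, ?_, ?_⟩⟩
  · intro z hz
    constructor
    · intro h1
      have h2 := (hval z hz).2
      rw [h1, J_zero] at h2
      have hzb : z ∈ ball (0 : ℂ) r := by
        rw [mem_ball_zero_iff]; exact hz.1
      rcases (h.one z hzb).1 h2.symm with h3 | h3
      · exact h3
      · subst h3
        exact absurd hz hcOm
    · rintro rfl
      exact hGb
  · have h1 := lift_deriv (isOpen_om2 r δ) hbOm hdiff (fun z hz => (hval z hz).1)
      (fun z hz => (hval z hz).2) hGb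
    intro h2
    rw [h2, mul_zero] at h1
    exact h.deriv_b h1

end Pool.Agent.Choc
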