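import Pool.Agent.Lib.MP_2b3e36_an.Ex.L4

/-!
C2. The lift `p` of `1 - f` near the real diameter.

Proof. `S = {‖z‖ < r, |Im z| < Im b}` is open and convex, contains `0`, not `b`, `conj b`. On `S`
`1 - f ≠ 0`, and `1 - f z = 1 ↔ z = 0`. `lift_exists` gives `p`. `z ↦ conj (p (conj z))` is another lift
(`J_conj`, `real`), so equal by `lift_unique`: `p` is real on the reals. `p z = 0` gives `f z = 0`,
`z = 0`. `deriv p 0 = deriv f 0 / 16` (`lift_deriv` for `1 - f`), real and positive. So `p x > 0` for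
small `x > 0`, and `p x ≠ 0` for `x ≠ 0`: intermediate value theorem.
-/

set_option autoImplicit false

open Complex Set Filter Topology Metric

namespace Pool.Agent.Choc

/-- The lift of `1 - f` near the diameter. -/
structure PLift (b : ℂ) (r : ℝ) (f p : ℂ → ℂ) : Prop where
  diff : DifferentiableOn ℂ p {z : ℂ | ‖z‖ < r ∧ |z.im| < b.im}
  lt_one : ∀ z : ℂ, ‖z‖ < r → |z.im| < b.im → ‖p z‖ < 1
  lift : ∀ z : ℂ, ‖z‖ < r → |z.im| < b.im → J (p z) = 1 - f z
  real : ∀ z : ℂ, ‖z‖ < r → |z.im| < b.im → p (starRingEnd ℂ z) = starRingEnd ℂ (p z)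
  zero : p 0 = 0
  ne : ∀ z : ℂ, ‖z‖ < r → |z.im| < b.im → z ≠ 0 → p z ≠ 0
  deriv_re : 0 < (deriv p 0).re
  deriv_im : (deriv p 0).im = 0
  pos : ∀ x : ℝ, 0 < x → x < r → 0 < (p x).re ∧ (p x).im = 0
  neg : ∀ x : ℝ, -r < x → x < 0 → (p x).re < 0 ∧ (p x).im = 0

theorem c2_pos {φ : ℝ → ℝ} {r c : ℝ} (hc : 0 < c) (hφ : ContinuousOn φ (Ioo (-r) r))
    (h0 : φ 0 = 0) (hd : HasDerivAt φ c 0) (hne : ∀ x, |x| < r → x ≠ 0 → φ x ≠ 0) :
    ∀ x, 0 < x → x < r → 0 < φ x := by
  intro x hx hxr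
  by_contra hcon
  have hxn : φ x < 0 := by
    rcases lt_or_eq_of_le (not_lt.1 hcon) with h | h
    · exact h
    · exact absurd h (hne x (by rw [abs_of_pos hx]; exact hxr) hx.ne')
  have h1 := hasDerivAt_iff_tendsto_slope.1 hd
  have h2 : ∀ᶠ t in 𝓝[≠] (0 : ℝ), 0 < slope φ 0 t := h1.eventually (lt_mem_nhds hc)
  have h3 : ∀ᶠ t in 𝓝[>] (0 : ℝ), 0 < slope φ 0 t :=
    h2.filter_mono (nhdsWithin_mono _ (fun t ht => (ne_of_gt ht)))
  have h4 : ∀ᶠ t in 𝓝[>] (0 : ℝ), t < x :=
    (Iio_mem_nhds hx |> fun h => mem_nhdsWithin_of_mem_nhds h)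
  obtain ⟨t, ⟨ht1, ht2⟩, ht3⟩ := ((h3.and h4).and self_mem_nhdsWithin).exists
  have ht0 : 0 < t := ht3
  have ht4 : 0 < φ t := by
    rw [slope_def_field, h0, sub_zero, sub_zero] at ht1
    exact (div_pos_iff_of_pos_right ht0).1 ht1
  have hsub : Icc t x ⊆ Ioo (-r) r := fun y hy => ⟨by linarith [hy.1], by linarith [hy.2]⟩
  have h5 := intermediate_value_Icc' ht2.le (hφ.mono hsub)
  obtain ⟨y, hy, hy0⟩ := h5 ⟨hxn.le, ht4.le⟩
  have hy1 : 0 < y := by linarith [hy.1]
  exact hne y (by rw [abs_of_pos hy1]; linarith [hy.2]) hy1.ne' hy0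

theorem c2_neg {φ : ℝ → ℝ} {r c : ℝ} (hc : 0 < c) (hφ : ContinuousOn φ (Ioo (-r) r))
    (h0 : φ 0 = 0) (hd : HasDerivAt φ c 0) (hne : ∀ x, |x| < r → x ≠ 0 → φ x ≠ 0) :
    ∀ x, -r < x → x < 0 → φ x < 0 := by
  intro x hx hx0
  have h1 : ContinuousOn (fun t => -φ (-t)) (Ioo (-r) r) := by
    refine ContinuousOn.neg (hφ.comp continuous_neg.continuousOn ?_)
    intro y hy
    exact ⟨by linarith [hy.2], by linarith [hy.1]⟩
  have hd' : HasDerivAt φ c (-(0 : ℝ)) := by rw [neg_zero]; exact hd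
  have h2 : HasDerivAt (fun t => -φ (-t)) c 0 := by
    have h3 := (hd'.comp (0 : ℝ) (hasDerivAt_neg (0 : ℝ))).neg
    have h4 : -(c * -1) = c := by ring
    rw [h4] at h3
    exact h3
  have h3 := c2_pos hc h1 (by simp [h0]) h2 (fun t ht ht0 => by
    have := hne (-t) (by rwa [abs_neg]) (neg_ne_zero.2 ht0)
    exact neg_ne_zero.2 this) (-x) (by linarith) (by linarith)
  simp only [neg_neg] at h3
  linarith

theorem c2_real_deriv {p : ℂ → ℂ} {r : ℝ} (hr : 0 < r) (hd : DifferentiableAt ℂ p 0)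
    (hreal : ∀ x : ℝ, |x| < r → (p x).im = 0) :
    (deriv p 0).im = 0 ∧ HasDerivAt (fun x : ℝ => (p x).re) (deriv p 0).re 0 := by
  have h1 : HasDerivAt p (deriv p 0) ((0 : ℝ) : ℂ) := by
    rw [Complex.ofReal_zero]; exact hd.hasDerivAt
  have h2 := h1.comp_ofReal
  have h3 : HasDerivAt (fun x : ℝ => (p x).re) (deriv p 0).re 0 := by
    have := (Complex.reCLM.hasFDerivAt.comp_hasDerivAt (0 : ℝ) h2)
    exact this
  have h4 : HasDerivAt (fun x : ℝ => (p x).im) (deriv p 0).im 0 := by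
    have := (Complex.imCLM.hasFDerivAt.comp_hasDerivAt (0 : ℝ) h2)
    exact this
  refine ⟨?_, h3⟩
  have h5 : (fun x : ℝ => (p x).im) =ᶠ[𝓝 0] fun _ => 0 := by
    have : Ioo (-r) r ∈ 𝓝 (0 : ℝ) := Ioo_mem_nhds (by linarith) hr
    filter_upwards [this] with x hx
    exact hreal x (abs_lt.2 hx)
  have h6 : HasDerivAt (fun x : ℝ => (p x).im) 0 0 :=
    (hasDerivAt_const (0 : ℝ) (0 : ℝ)).congr_of_eventuallyEq h5
  exact h4.unique h6

theorem plift_exists {b : ℂ} {r : ℝ} {f : ℂ → ℂ} (h : Sol b r f) :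
    ∃ p : ℂ → ℂ, PLift b r f p := by
  have hr0 : 0 < r := zero_lt_one.trans h.one_lt
  have hbim := h.b_im
  set S : Set ℂ := {z : ℂ | ‖z‖ < r ∧ |z.im| < b.im} with hS
  have hSo : IsOpen S := (isOpen_lt continuous_norm continuous_const).inter
    (isOpen_lt (Complex.continuous_im.abs) continuous_const)
  have hSc : Convex ℝ S := by
    have h1 : Convex ℝ {z : ℂ | ‖z‖ < r} := by
      have : {z : ℂ | ‖z‖ < r} = ball (0 : ℂ) r := by
        ext z; simp
      rw [this]
      exact convex_ball 0 r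
    have h2 : Convex ℝ {z : ℂ | |z.im| < b.im} := by
      intro x hx y hy a c ha hc hac
      have hx' : |x.im| < b.im := hx
      have hy' : |y.im| < b.im := hy
      show |(a • x + c • y).im| < b.im
      have e : (a • x + c • y).im = a * x.im + c * y.im := by
        simp
      rw [e]
      calc |a * x.im + c * y.im| ≤ |a * x.im| + |c * y.im| := abs_add_le _ _
        _ = a * |x.im| + c * |y.im| := by rw [abs_mul, abs_mul, abs_of_nonneg ha, abs_of_nonneg hc]
        _ < b.im := by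
          rcases eq_or_lt_of_le ha with h | h
          · have hb1 : c = 1 := by linarith
            rw [← h, hb1]
            simpa using hy'
          · have h3 : a * |x.im| < a * b.im := mul_lt_mul_of_pos_left hx' h
            have h4 : c * |y.im| ≤ c * b.im := mul_le_mul_of_nonneg_left hy'.le hc
            have h5 : a * b.im + c * b.im = b.im := by rw [← add_mul, hac, one_mul]
            linarith
    exact h1.inter h2
  have h0S : (0 : ℂ) ∈ S := ⟨by simpa using hr0, by simpa using hbim⟩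
  have hSb : ∀ z ∈ S, z ∈ ball (0 : ℂ) r := fun z hz => by
    rw [mem_ball_zero_iff]; exact hz.1
  have hne1 : ∀ z ∈ S, f z ≠ 1 := by
    intro z hz hf
    rcases (h.one z (hSb z hz)).1 hf with h1 | h1
    · have := hz.2
      rw [h1, abs_of_pos hbim] at this
      exact lt_irrefl _ this
    · have := hz.2
      rw [h1, Complex.conj_im, abs_neg, abs_of_pos hbim] at this
      exact lt_irrefl _ this
  have hgd : DifferentiableOn ℂ (fun z => 1 - f z) S :=
    (differentiableOn_const _).sub (h.diff.mono hSb)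
  obtain ⟨p, hp1, hp2, hp3⟩ := lift_exists hSc hSo h0S hgd
    (fun z hz hf => hne1 z hz (by linear_combination -hf))
    (fun z hz => by
      rw [← h.zero z (hSb z hz)]
      constructor
      · intro h1; linear_combination -h1
      · intro h1; rw [h1, sub_zero])
  have hconjS : ∀ z ∈ S, starRingEnd ℂ z ∈ S := by
    intro z hz
    refine ⟨?_, ?_⟩
    · rw [Complex.norm_conj]; exact hz.1
    · rw [Complex.conj_im, abs_neg]; exact hz.2
  have hreal : ∀ z ∈ S, p (starRingEnd ℂ z) = starRingEnd ℂ (p z) := by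
    have hqd : DifferentiableOn ℂ (fun z => starRingEnd ℂ (p (starRingEnd ℂ z))) S := by
      intro z hz
      have h1 : DifferentiableAt ℂ p (starRingEnd ℂ z) :=
        hp1.differentiableAt (hSo.mem_nhds (hconjS z hz))
      have h2 := h1.conj_conj
      rw [Complex.conj_conj] at h2
      exact h2.differentiableWithinAt
    have h3 := lift_unique hSo hSc.isPreconnected h0S hp1 hqd (fun z hz => (hp2 z hz).1)
      (fun z hz => by
        rw [Complex.norm_conj]
        exact (hp2 _ (hconjS z hz)).1)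
      (fun z hz => by
        rw [J_conj, (hp2 _ (hconjS z hz)).2, (hp2 z hz).2, h.real z (hSb z hz), map_sub, map_one,
          Complex.conj_conj])
      hp3 (by simp [hp3])
    intro z hz
    rw [h3 z hz, Complex.conj_conj]
  have hne : ∀ z ∈ S, z ≠ 0 → p z ≠ 0 := by
    intro z hz hz0 hp
    have h1 := (hp2 z hz).2
    rw [hp, J_zero] at h1
    exact hz0 ((h.zero z (hSb z hz)).1 (by linear_combination h1))
  have hrealS : ∀ x : ℝ, |x| < r → (x : ℂ) ∈ S := by
    intro x hx
    refine ⟨by rwa [Complex.norm_real], ?_⟩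
    rw [Complex.ofReal_im, abs_zero]
    exact hbim
  have him : ∀ x : ℝ, |x| < r → (p x).im = 0 := by
    intro x hx
    have h1 := hreal x (hrealS x hx)
    rw [Complex.conj_ofReal] at h1
    have h2 := congrArg Complex.im h1
    rw [Complex.conj_im] at h2
    linarith
  have hpd0 : DifferentiableAt ℂ p 0 := hp1.differentiableAt (hSo.mem_nhds h0S)
  obtain ⟨hdim, hdre⟩ := c2_real_deriv hr0 hpd0 him
  have hfd0 : DifferentiableAt ℂ f 0 :=
    h.diff.differentiableAt (isOpen_ball.mem_nhds (mem_ball_self hr0))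
  have hder := lift_deriv hSo h0S hp1 (fun z hz => (hp2 z hz).1) (fun z hz => (hp2 z hz).2) hp3
  have hder2 : deriv (fun z => 1 - f z) 0 = -deriv f 0 := by
    rw [deriv_const_sub]
  rw [hder2] at hder
  have hdpos : 0 < (deriv p 0).re := by
    have h1 := congrArg Complex.re hder
    simp only [Complex.neg_re, Complex.mul_re, Complex.re_ofNat, Complex.im_ofNat,
      Complex.neg_im, neg_zero, zero_mul, sub_zero] at h1
    have h2 := h.deriv_zero
    linarith
  have hcont : ContinuousOn (fun x : ℝ => (p x).re) (Ioo (-r) r) := by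
    refine Complex.continuous_re.comp_continuousOn ?_
    refine hp1.continuousOn.comp Complex.continuous_ofReal.continuousOn ?_
    intro x hx
    exact hrealS x (abs_lt.2 hx)
  have hnere : ∀ x : ℝ, |x| < r → x ≠ 0 → (p x).re ≠ 0 := by
    intro x hx hx0 hre
    refine hne x (hrealS x hx) (by exact_mod_cast hx0) ?_
    exact Complex.ext hre (him x hx)
  have hpos := c2_pos hdpos hcont (by simp [hp3]) hdre hnere
  have hneg := c2_neg hdpos hcont (by simp [hp3]) hdre hnere
  exact ⟨p, ⟨hp1, fun z h1 h2 => (hp2 z ⟨h1, h2⟩).1, fun z h1 h2 => (hp2 z ⟨h1, h2⟩).2,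
    fun z h1 h2 => hreal z ⟨h1, h2⟩, hp3, fun z h1 h2 => hne z ⟨h1, h2⟩, hdpos, hdim,
    fun x h1 h2 => ⟨hpos x h1 h2, him x (by rw [abs_of_pos h1]; exact h2)⟩,
    fun x h1 h2 => ⟨hneg x h1 h2, him x (by rw [abs_of_neg h2]; linarith)⟩⟩⟩

end Pool.Agent.Choc
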