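import Pool.Agent.Lib.MP_2b3e36_an.Ex.T5

/-!
T6. Above the geodesic the number `rho^2` has positive real part.

Let `Tri = {τ : -1 < Re τ < 0, ‖τ + 1/2‖ > 1/2, Im τ > 0}`.
Step 1 (high points). If `-1 < Re τ < 0`, `|τ| ≥ 1` and `|τ+1| ≥ 1` then `Im τ ≥ sqrt 3 / 2`, so
`q = nome τ` has `‖q‖ ≤ exp (- pi sqrt 3/2) < 0.07` and `Im q < 0`. Write `th q = E + O`,
`th (-q) = E - O` with `E = sum_{n even} q^(n^2) = 1 + 2 q^4 + ...`, `O = sum_{n odd} q^(n^2) = 2 q + 2 q^9 + ...`.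
`Im (rho q)` has the sign of `Im ((E - O) conj (E + O)) = - 2 Im (O conj E)`, and
`Im (O conj E) = 2 Im q * (1 + small)` because `|Im (q^n)| ≤ n ‖q‖^(n-1) |Im q|`; so `Im (rho q) > 0`.
Also `‖rho q - 1‖ ≤ 2 ‖O‖/‖E+O‖ < 0.35`, so `0 < arg (rho q) < pi/8` and `0 < arg (J q) < pi/2`, in
particular `Im (J q) > 0`. (Any other proof of `Im J (nome τ) > 0` for `Im τ ≥ sqrt 3/2`,
`-1 < Re τ < 0` will do.)
Step 2. `σ τ = -1/(τ+1)` maps `Tri` to itself, and
`J (nome (σ τ)) = 1 - J (nome (τ+1)) = 1 - 1 / J (nome τ)` (`J_inv`, `nome (τ+1) = - nome τ`, `J_neg`),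
so `Im J (nome (σ τ)) > 0` iff `Im J (nome τ) > 0`. Among `τ, σ τ, σ σ τ` take the point with the
largest imaginary part; since `Im σ τ = Im τ / |τ+1|^2` and `Im σσ τ = Im τ / |τ|^2` (`σσ τ = -(τ+1)/τ`),
a point of the orbit with maximal imaginary part satisfies `|τ| ≥ 1, |τ+1| ≥ 1`. By Step 1
`Im J (nome τ) > 0` on `Tri`.
Step 3. `τ in Tri`: the ray `τ + i t`, `t ≥ 0`, stays in `Tri`; `Re (rho (nome (τ+it))^2)` is continuous
in `t`, tends to `1`, and is never `0` (`rho^2` purely imaginary gives `J = (rho^2)^2` real). So it is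
positive at `t = 0`.
`mem_B`: `q ≠ 0` as `Im q ≠ 0`; write `q = nome τ`, `-1 < Re τ ≤ 1`; `Im q < 0` means `-1 < Re τ < 0`
(`Im q = ‖q‖ sin (pi Re τ)`). If `‖τ+1/2‖ > 1/2` then `Re (rho q^2) > 0`, contradiction.
`conj_mem_B`: apply `mem_B` to `conj q` (`rho_conj`).
-/

set_option autoImplicit false

open Complex Set Filter Topology Metric

namespace Pool.Agent.Choc

/-- The error term of `th q`. -/
noncomputable def t6_h (q : ℂ) : ℂ := th q - 1 - 2 * q

theorem t6_th_diff {q : ℂ} (hq : ‖q‖ < 1) : DifferentiableAt ℂ th q := by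
  have hq' : q ∈ ball (0 : ℂ) 1 := by rwa [mem_ball, dist_zero_right]
  exact (th_diff q hq').differentiableAt (isOpen_ball.mem_nhds hq')

theorem t6_h_diff {q : ℂ} (hq : ‖q‖ < 1) : DifferentiableAt ℂ t6_h q := by
  unfold t6_h
  exact ((t6_th_diff hq).sub_const 1).sub (differentiableAt_id.const_mul 2)

theorem t6_h_deriv {q : ℂ} (hq : ‖q‖ ≤ 9 / 100) : ‖deriv t6_h q‖ ≤ 5 / 8 := by
  have h1 : ‖deriv t6_h q‖ ≤ (1 / 4) / (2 / 5) := by
    apply Complex.norm_deriv_le_of_forall_mem_sphere_norm_le (by norm_num)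
    · apply DifferentiableOn.diffContOnCl
      intro z hz
      have h2 : z ∈ closedBall q (2 / 5) := closure_ball_subset_closedBall hz
      rw [mem_closedBall, dist_eq_norm] at h2
      have h3 : ‖z‖ ≤ ‖z - q‖ + ‖q‖ := by
        calc ‖z‖ = ‖z - q + q‖ := by rw [sub_add_cancel]
          _ ≤ _ := norm_add_le _ _
      exact (t6_h_diff (by linarith)).differentiableWithinAt
    · intro z hz
      rw [mem_sphere, dist_eq_norm] at hz
      have h3 : ‖z‖ ≤ ‖z - q‖ + ‖q‖ := by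
        calc ‖z‖ = ‖z - q + q‖ := by rw [sub_add_cancel]
          _ ≤ _ := norm_add_le _ _
      have h4 : ‖z‖ ≤ 1 / 2 := by linarith
      calc ‖t6_h z‖ ≤ 4 * ‖z‖ ^ 4 := th_expand h4
        _ ≤ 4 * (1 / 2) ^ 4 := by gcongr
        _ = 1 / 4 := by norm_num
  linarith

theorem t6_h_real (x : ℝ) : (t6_h x).im = 0 := by
  have h1 : starRingEnd ℂ (th x) = th x := by
    rw [← th_conj, Complex.conj_ofReal]
  have h2 := Complex.conj_eq_iff_im.1 h1
  unfold t6_h
  simp [h2]

theorem t6_h_im {q : ℂ} (hq : ‖q‖ ≤ 9 / 100) : |(t6_h q).im| ≤ 5 / 8 * |q.im| := by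
  have hre : ‖(q.re : ℂ)‖ ≤ 9 / 100 := by
    rw [Complex.norm_real]
    exact (Complex.abs_re_le_norm q).trans hq
  have h1 : ‖t6_h q - t6_h (q.re : ℂ)‖ ≤ 5 / 8 * ‖q - (q.re : ℂ)‖ := by
    apply Convex.norm_image_sub_le_of_norm_deriv_le (s := closedBall (0 : ℂ) (9 / 100)) (𝕜 := ℂ)
    · intro z hz
      rw [mem_closedBall, dist_zero_right] at hz
      exact t6_h_diff (by linarith)
    · intro z hz
      rw [mem_closedBall, dist_zero_right] at hz
      exact t6_h_deriv hz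
    · exact convex_closedBall _ _
    · rw [mem_closedBall, dist_zero_right]
      exact hre
    · rw [mem_closedBall, dist_zero_right]
      exact hq
  have h2 : q - (q.re : ℂ) = (q.im : ℂ) * I := by
    apply Complex.ext <;> simp
  rw [h2, norm_mul, Complex.norm_I, mul_one, Complex.norm_real, Real.norm_eq_abs] at h1
  have h3 := (Complex.abs_im_le_norm _).trans h1
  rw [Complex.sub_im, t6_h_real, sub_zero] at h3
  exact h3

theorem t6_rho {q : ℂ} (hq : ‖q‖ ≤ 9 / 100) (him : q.im < 0) :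
    0 < (rho q).im ∧ (rho q).im < (rho q).re := by
  have hqn : ‖-q‖ ≤ 9 / 100 := by rwa [norm_neg]
  have hx := abs_le.1 ((Complex.abs_re_le_norm q).trans hq)
  have hy := abs_le.1 ((Complex.abs_im_le_norm q).trans hq)
  have i1 := abs_le.1 (t6_h_im hq)
  have i2 := abs_le.1 (t6_h_im hqn)
  rw [Complex.neg_im, abs_neg] at i2
  rw [abs_of_neg him] at i1 i2
  have hpow : ∀ w : ℂ, ‖w‖ ≤ 9 / 100 → ‖t6_h w‖ ≤ 3 / 10000 := by
    intro w hw
    calc ‖t6_h w‖ ≤ 4 * ‖w‖ ^ 4 := th_expand (by linarith)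
      _ ≤ 4 * (9 / 100) ^ 4 := by gcongr
      _ ≤ 3 / 10000 := by norm_num
  have r1 := abs_le.1 ((Complex.abs_re_le_norm _).trans (hpow q hq))
  have r2 := abs_le.1 ((Complex.abs_re_le_norm _).trans (hpow (-q) hqn))
  have j1 := abs_le.1 ((Complex.abs_im_le_norm _).trans (hpow q hq))
  have j2 := abs_le.1 ((Complex.abs_im_le_norm _).trans (hpow (-q) hqn))
  have eA1 : (th q).re = 1 + 2 * q.re + (t6_h q).re := by
    unfold t6_h
    simp
  have eB1 : (th q).im = 2 * q.im + (t6_h q).im := by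
    unfold t6_h
    simp
  have eA2 : (th (-q)).re = 1 - 2 * q.re + (t6_h (-q)).re := by
    unfold t6_h
    simp
  have eB2 : (th (-q)).im = -(2 * q.im) + (t6_h (-q)).im := by
    unfold t6_h
    simp
  obtain ⟨A1, hA1⟩ : ∃ A, A = (th q).re := ⟨_, rfl⟩
  obtain ⟨B1, hB1⟩ : ∃ A, A = (th q).im := ⟨_, rfl⟩
  obtain ⟨A2, hA2⟩ : ∃ A, A = (th (-q)).re := ⟨_, rfl⟩
  obtain ⟨B2, hB2⟩ : ∃ A, A = (th (-q)).im := ⟨_, rfl⟩
  have a1 : 4 / 5 ≤ A1 ∧ A1 ≤ 6 / 5 := by
    rw [hA1, eA1]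
    constructor <;> linarith
  have a2 : 4 / 5 ≤ A2 ∧ A2 ≤ 6 / 5 := by
    rw [hA2, eA2]
    constructor <;> linarith
  have b1 : -(19 / 100) ≤ B1 ∧ B1 < 0 := by
    rw [hB1, eB1]
    constructor <;> linarith
  have b2 : 0 < B2 ∧ B2 ≤ 19 / 100 := by
    rw [hB2, eB2]
    constructor <;> linarith
  have hN : 0 < Complex.normSq (th q) := by
    rw [Complex.normSq_apply, ← hA1, ← hB1]
    nlinarith
  have eim : (rho q).im = (B2 * A1 - A2 * B1) / Complex.normSq (th q) := by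
    unfold rho
    rw [Complex.div_im, ← hA1, ← hB1, ← hA2, ← hB2]
    ring
  have ere : (rho q).re = (A2 * A1 + B2 * B1) / Complex.normSq (th q) := by
    unfold rho
    rw [Complex.div_re, ← hA1, ← hB1, ← hA2, ← hB2]
    ring
  have p1 : 0 < B2 * A1 := mul_pos b2.1 (by linarith)
  have p2 : 0 < A2 * (-B1) := mul_pos (by linarith) (by linarith)
  have p3 : B2 * A1 ≤ 19 / 100 * (6 / 5) :=
    mul_le_mul b2.2 a1.2 (by linarith) (by norm_num)
  have p4 : A2 * (-B1) ≤ 6 / 5 * (19 / 100) :=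
    mul_le_mul a2.2 (by linarith) (by linarith) (by norm_num)
  have p5 : 4 / 5 * (4 / 5) ≤ A2 * A1 :=
    mul_le_mul a2.1 a1.1 (by norm_num) (by linarith)
  have p6 : B2 * (-B1) ≤ 19 / 100 * (19 / 100) :=
    mul_le_mul b2.2 (by linarith) (by linarith) (by norm_num)
  rw [eim, ere]
  refine ⟨div_pos (by linarith) hN, ?_⟩
  apply div_lt_div_of_pos_right _ hN
  nlinarith

theorem t6_J_im {q : ℂ} (hq : ‖q‖ ≤ 9 / 100) (him : q.im < 0) : 0 < (J q).im := by
  obtain ⟨h1, h2⟩ := t6_rho hq him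
  have e : (J q).im = 4 * ((rho q).re * (rho q).im) * ((rho q).re ^ 2 - (rho q).im ^ 2) := by
    unfold J
    have e1 : rho q ^ 4 = (rho q * rho q) * (rho q * rho q) := by ring
    rw [e1]
    simp only [Complex.mul_im, Complex.mul_re]
    ring
  rw [e]
  have h3 : 0 < (rho q).re := by linarith
  apply mul_pos
  · have := mul_pos h3 h1
    linarith
  · nlinarith

theorem t6_nome_norm (τ : ℂ) : ‖nome τ‖ = Real.exp (-(Real.pi * τ.im)) := by
  unfold nome
  rw [Complex.norm_exp]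
  congr 1
  simp

theorem t6_nome_im (τ : ℂ) : (nome τ).im =
    Real.exp (-(Real.pi * τ.im)) * Real.sin (Real.pi * τ.re) := by
  unfold nome
  rw [Complex.exp_im]
  congr 1
  · congr 1
    simp
  · congr 1
    simp

theorem t6_high {τ : ℂ} (h1 : -1 < τ.re) (h2 : τ.re < 0) (h3 : 1 ≤ Complex.normSq τ)
    (h4 : 1 ≤ Complex.normSq (τ + 1)) (h5 : 0 < τ.im) : 0 < (J (nome τ)).im := by
  have him : 17 / 20 ≤ τ.im := by
    rw [Complex.normSq_apply] at h3 h4
    simp only [Complex.add_re, Complex.one_re, Complex.add_im, Complex.one_im, add_zero] at h4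
    by_contra hc
    push Not at hc
    nlinarith
  apply t6_J_im
  · rw [t6_nome_norm]
    have hpi := Real.pi_gt_d2
    have h6 : 53 / 20 ≤ Real.pi * τ.im := by nlinarith
    have h7 : (25 / 2 : ℝ) * (9 / 10) ≤ Real.exp (Real.pi * τ.im) := by
      have e1 : (2.7182818283 : ℝ) < Real.exp 1 := Real.exp_one_gt_d9
      have e2 : (13 / 20 : ℝ) + 1 ≤ Real.exp (13 / 20) := Real.add_one_le_exp _
      have e3 : Real.exp (53 / 20) = Real.exp 1 * Real.exp 1 * Real.exp (13 / 20) := by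
        rw [← Real.exp_add, ← Real.exp_add]
        norm_num
      have e4 : Real.exp (53 / 20) ≤ Real.exp (Real.pi * τ.im) := Real.exp_le_exp.2 h6
      have e5 : (2.7182818283 : ℝ) * 2.7182818283 ≤ Real.exp 1 * Real.exp 1 := by
        apply mul_le_mul e1.le e1.le (by norm_num) (by linarith)
      have e6 : (2.7182818283 : ℝ) * 2.7182818283 * (13 / 20 + 1) ≤
          Real.exp 1 * Real.exp 1 * Real.exp (13 / 20) := by
        apply mul_le_mul e5 e2 (by norm_num) (by positivity)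
      rw [e3] at e4
      norm_num at e6
      linarith
    rw [Real.exp_neg]
    have h8 : (Real.exp (Real.pi * τ.im))⁻¹ ≤ ((25 / 2 : ℝ) * (9 / 10))⁻¹ := by
      apply inv_anti₀ (by norm_num) h7
    refine h8.trans (by norm_num)
  · rw [t6_nome_im]
    apply mul_neg_of_pos_of_neg (Real.exp_pos _)
    apply Real.sin_neg_of_neg_of_neg_pi_lt
    · exact mul_neg_of_pos_of_neg Real.pi_pos h2
    · nlinarith [Real.pi_pos]

/-- The triangle. -/
def T6Tri (τ : ℂ) : Prop := -1 < τ.re ∧ τ.re < 0 ∧ 0 < τ.re ^ 2 + τ.re + τ.im ^ 2 ∧ 0 < τ.im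

theorem t6_sig_re {τ : ℂ} : (-1 / (τ + 1)).re = -(τ.re + 1) / Complex.normSq (τ + 1) := by
  rw [Complex.div_re]
  simp

theorem t6_sig_im {τ : ℂ} : (-1 / (τ + 1)).im = τ.im / Complex.normSq (τ + 1) := by
  rw [Complex.div_im]
  simp
  ring

theorem t6_N_pos {τ : ℂ} (h : T6Tri τ) : 0 < Complex.normSq (τ + 1) := by
  rw [Complex.normSq_apply]
  simp only [Complex.add_re, Complex.one_re, Complex.add_im, Complex.one_im, add_zero]
  nlinarith [h.2.2.2, mul_pos h.2.2.2 h.2.2.2, sq_nonneg (τ.re + 1)]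

theorem t6_sig {τ : ℂ} (h : T6Tri τ) : T6Tri (-1 / (τ + 1)) := by
  have hN := t6_N_pos h
  obtain ⟨h1, h2, h3, h4⟩ := h
  have eN : Complex.normSq (τ + 1) = (τ.re + 1) ^ 2 + τ.im ^ 2 := by
    rw [Complex.normSq_apply]
    simp only [Complex.add_re, Complex.one_re, Complex.add_im, Complex.one_im, add_zero]
    ring
  refine ⟨?_, ?_, ?_, ?_⟩
  · rw [t6_sig_re, lt_div_iff₀ hN, eN]
    nlinarith
  · rw [t6_sig_re]
    exact div_neg_of_neg_of_pos (by linarith) hN
  · rw [t6_sig_re, t6_sig_im]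
    have e : (-(τ.re + 1) / Complex.normSq (τ + 1)) ^ 2 + -(τ.re + 1) / Complex.normSq (τ + 1) +
        (τ.im / Complex.normSq (τ + 1)) ^ 2 = -τ.re / Complex.normSq (τ + 1) := by
      have e2 : (-(τ.re + 1) / Complex.normSq (τ + 1)) ^ 2 + (τ.im / Complex.normSq (τ + 1)) ^ 2 =
          1 / Complex.normSq (τ + 1) := by
        rw [div_pow, div_pow, ← add_div, div_eq_div_iff (by positivity) hN.ne', eN]
        ring
      have e3 : (-(τ.re + 1) / Complex.normSq (τ + 1)) ^ 2 +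
          -(τ.re + 1) / Complex.normSq (τ + 1) + (τ.im / Complex.normSq (τ + 1)) ^ 2 =
          ((-(τ.re + 1) / Complex.normSq (τ + 1)) ^ 2 + (τ.im / Complex.normSq (τ + 1)) ^ 2) +
          -(τ.re + 1) / Complex.normSq (τ + 1) := by ring
      rw [e3, e2, ← add_div]
      congr 1
      ring
    rw [e]
    exact div_pos (by linarith) hN
  · rw [t6_sig_im]
    exact div_pos h4 hN

theorem t6_nome_add_one (τ : ℂ) : nome (τ + 1) = -nome τ := by
  unfold nome
  rw [mul_add, mul_one, Complex.exp_add, Complex.exp_pi_mul_I, mul_neg_one]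

theorem t6_J_sig {τ : ℂ} (h : T6Tri τ) (h2 : 0 < (J (nome (-1 / (τ + 1)))).im) :
    0 < (J (nome τ)).im := by
  have h3 : 0 < (τ + 1).im := by
    rw [Complex.add_im, Complex.one_im, add_zero]
    exact h.2.2.2
  have h4 := J_inv h3
  rw [t6_nome_add_one, J_neg] at h4
  have h5 : J (nome (-1 / (τ + 1))) = 1 - (J (nome τ))⁻¹ := by
    linear_combination h4
  rw [h5, Complex.sub_im, Complex.one_im, Complex.inv_im, zero_sub] at h2
  have hne : J (nome τ) ≠ 0 := J_ne_zero (nome_norm_lt h.2.2.2)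
  have hN : 0 < Complex.normSq (J (nome τ)) := Complex.normSq_pos.2 hne
  have h6 : -(-(J (nome τ)).im / Complex.normSq (J (nome τ))) =
      (J (nome τ)).im / Complex.normSq (J (nome τ)) := by ring
  rw [h6] at h2
  exact (div_pos_iff_of_pos_right hN).1 h2

theorem t6_ns1 {τ : ℂ} : Complex.normSq (-1 / (τ + 1)) = 1 / Complex.normSq (τ + 1) := by
  rw [Complex.normSq_div, Complex.normSq_neg, Complex.normSq_one]

theorem t6_ns2 {τ : ℂ} (h : T6Tri τ) :
    Complex.normSq (-1 / (τ + 1) + 1) = Complex.normSq τ / Complex.normSq (τ + 1) := by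
  have hne : τ + 1 ≠ 0 := by
    intro h0
    have := t6_N_pos h
    rw [h0, map_zero] at this
    exact lt_irrefl _ this
  have e : -1 / (τ + 1) + 1 = τ / (τ + 1) := by
    field_simp
    ring
  rw [e, Complex.normSq_div]

theorem t6_tri {τ : ℂ} (h : T6Tri τ) : 0 < (J (nome τ)).im := by
  have hN := t6_N_pos h
  have hM : 0 < Complex.normSq τ := by
    apply Complex.normSq_pos.2
    intro h0
    have := h.2.2.2
    rw [h0] at this
    simp at this
  by_cases hc : 1 ≤ Complex.normSq τ ∧ 1 ≤ Complex.normSq (τ + 1)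
  · exact t6_high h.1 h.2.1 hc.1 hc.2 h.2.2.2
  · have hs := t6_sig h
    rcases le_total (Complex.normSq (τ + 1)) (Complex.normSq τ) with hle | hle
    · -- use the first image
      have hlt : Complex.normSq (τ + 1) ≤ 1 := by
        by_contra h6
        push Not at h6
        exact hc ⟨by linarith, h6.le⟩
      apply t6_J_sig h
      apply t6_high hs.1 hs.2.1 _ _ hs.2.2.2
      · rw [t6_ns1, le_div_iff₀ hN]
        linarith
      · rw [t6_ns2 h, le_div_iff₀ hN]
        linarith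
    · have hlt : Complex.normSq τ ≤ 1 := by
        by_contra h6
        push Not at h6
        exact hc ⟨h6.le, by linarith⟩
      have hs2 := t6_sig hs
      apply t6_J_sig h
      apply t6_J_sig hs
      apply t6_high hs2.1 hs2.2.1 _ _ hs2.2.2.2
      · rw [t6_ns1, t6_ns2 h, one_div_div, le_div_iff₀ hM]
        linarith
      · rw [t6_ns2 hs, t6_ns1, t6_ns2 h, div_div_div_cancel_right₀ hN.ne', le_div_iff₀ hM]
        linarith

theorem t6_nsq {τ : ℂ} : ‖τ + 1 / 2‖ ^ 2 = τ.re ^ 2 + τ.re + τ.im ^ 2 + 1 / 4 := by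
  rw [Complex.sq_norm, Complex.normSq_apply]
  have e1 : (τ + 1 / 2).re = τ.re + 1 / 2 := by simp
  have e2 : (τ + 1 / 2).im = τ.im := by simp
  rw [e1, e2]
  ring

theorem rho_sq_re_pos {τ : ℂ} (h1 : -1 < τ.re) (h2 : τ.re < 0) (h3 : 1 / 2 < ‖τ + 1 / 2‖)
    (h4 : 0 < τ.im) : 0 < (rho (nome τ) ^ 2).re := by
  have h3' : 0 < τ.re ^ 2 + τ.re + τ.im ^ 2 := by
    have e := t6_nsq (τ := τ)
    nlinarith [norm_nonneg (τ + 1 / 2)]
  have er : ∀ t : ℝ, (τ + t * I).re = τ.re := fun t => by simp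
  have ei : ∀ t : ℝ, (τ + t * I).im = τ.im + t := fun t => by simp
  have hT : ∀ t : ℝ, 0 ≤ t → T6Tri (τ + t * I) := by
    intro t ht
    refine ⟨?_, ?_, ?_, ?_⟩
    · rw [er]; exact h1
    · rw [er]; exact h2
    · rw [er, ei]
      nlinarith [mul_nonneg ht h4.le, mul_nonneg ht ht]
    · rw [ei]; linarith
  obtain ⟨g, hg⟩ : ∃ g : ℝ → ℝ, g = fun t : ℝ => (rho (nome (τ + t * I)) ^ 2).re := ⟨_, rfl⟩
  have hrc : ∀ q : ℂ, ‖q‖ < 1 → ContinuousAt rho q := by
    intro q hq
    have hq' : q ∈ ball (0 : ℂ) 1 := by rwa [mem_ball, dist_zero_right]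
    exact ((rho_diff q hq').differentiableAt (isOpen_ball.mem_nhds hq')).continuousAt
  have hnc : Continuous fun t : ℝ => nome (τ + t * I) := by
    unfold nome
    fun_prop
  have hgc : ContinuousOn g (Ici 0) := by
    intro t ht
    apply ContinuousAt.continuousWithinAt
    rw [hg]
    apply Complex.continuous_re.continuousAt.comp
    apply ContinuousAt.pow
    apply ContinuousAt.comp (g := rho) (f := fun t : ℝ => nome (τ + t * I))
    · exact hrc _ (nome_norm_lt (hT t ht).2.2.2)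
    · exact hnc.continuousAt
  have hne : ∀ t : ℝ, 0 ≤ t → g t ≠ 0 := by
    intro t ht h0
    rw [hg] at h0
    have h5 := t6_tri (hT t ht)
    have e : J (nome (τ + t * I)) =
        rho (nome (τ + t * I)) ^ 2 * rho (nome (τ + t * I)) ^ 2 := by
      unfold J
      ring
    rw [e, Complex.mul_im] at h5
    have h6 : (rho (nome (τ + t * I)) ^ 2).re = 0 := h0
    rw [h6] at h5
    simp at h5
  by_contra hneg
  push Not at hneg
  have hg0 : g 0 ≤ 0 := by
    rw [hg]
    simpa using hneg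
  have hlim : Tendsto g atTop (𝓝 1) := by
    have hn : Tendsto (fun t : ℝ => nome (τ + t * I)) atTop (𝓝 0) := by
      rw [tendsto_zero_iff_norm_tendsto_zero]
      have e : (fun t : ℝ => ‖nome (τ + t * I)‖) =
          fun t : ℝ => Real.exp (-(Real.pi * (τ.im + t))) := by
        funext t
        rw [t6_nome_norm, ei]
      rw [e]
      apply Real.tendsto_exp_neg_atTop_nhds_zero.comp
      apply Tendsto.const_mul_atTop Real.pi_pos
      exact tendsto_atTop_add_const_left atTop τ.im tendsto_id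
    have hr : Tendsto (fun t : ℝ => rho (nome (τ + t * I))) atTop (𝓝 1) := by
      have hc := (hrc 0 (by simp)).tendsto
      rw [rho_zero] at hc
      exact hc.comp hn
    have hr2 := (Complex.continuous_re.tendsto _).comp (hr.pow 2)
    rw [hg]
    rw [one_pow, Complex.one_re] at hr2
    exact hr2
  have hev : ∀ᶠ t in atTop, 0 < g t := hlim.eventually (lt_mem_nhds one_pos)
  obtain ⟨T, hT1, hT2⟩ := (hev.and (eventually_ge_atTop (0 : ℝ))).exists
  have hivt := intermediate_value_Icc hT2 (hgc.mono Icc_subset_Ici_self)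
  obtain ⟨t, ht, ht0⟩ := hivt ⟨hg0, hT1.le⟩
  exact hne t ht.1 ht0

theorem mem_B_of_re_nonpos {q : ℂ} (hq : ‖q‖ < 1) (him : q.im < 0)
    (h : (rho q ^ 2).re ≤ 0) : q ∈ Bset := by
  have h0 : q ≠ 0 := by
    intro h0
    rw [h0] at him
    simp at him
  obtain ⟨τ, hi, hr1, hr2, hn⟩ := exists_nome h0 hq
  have hre : τ.re < 0 := by
    by_contra hc
    push Not at hc
    rw [← hn, t6_nome_im] at him
    have h1 : 0 ≤ Real.sin (Real.pi * τ.re) := by
      apply Real.sin_nonneg_of_nonneg_of_le_pi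
      · exact mul_nonneg Real.pi_pos.le hc
      · nlinarith [Real.pi_pos]
    have h2 := mul_nonneg (Real.exp_pos (-(Real.pi * τ.im))).le h1
    linarith
  refine ⟨τ, hi, ?_, hn⟩
  by_contra hc
  push Not at hc
  have h1 := rho_sq_re_pos hr1 hre hc hi
  rw [hn] at h1
  linarith

theorem conj_mem_B_of_re_nonpos {q : ℂ} (hq : ‖q‖ < 1) (him : 0 < q.im)
    (h : (rho q ^ 2).re ≤ 0) : starRingEnd ℂ q ∈ Bset := by
  apply mem_B_of_re_nonpos
  · rw [Complex.norm_conj]
    exact hq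
  · rw [Complex.conj_im]
    linarith
  · rw [rho_conj, ← map_pow, Complex.conj_re]
    exact h

end Pool.Agent.Choc
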