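import Pool.Agent.Lib.MP_2b3e36_an.Ex.C1
import Pool.Agent.Lib.MP_2b3e36_an.Ex.T6

/-!
C3. The dichotomy: main class or not.

Proof. For `x ∈ (0, r)`: `f x` is real (`real`), `≠ 0, 1`, and `f 0 = 0 < f' 0`, so `f x ∈ (0, 1)`.
Put `q_m z = G z ^(2^m)`, `k_m z = rho (q_m z)^2` (continuous, nonvanishing on `Om2 r δ`). By T3/T4:
`k_m^2 = J (q_m)`, `k_0^2 = f`, `k_(m+1) = 2 rho (q_m)/(1 + k_m)`, `k_(m+1)^2 = 4 k_m/(1+k_m)^2`.
Case A: all `k_m x` (`x ∈ (0,r)`, `m ≥ 0`) are real and positive. Then `k_0 x ∈ (0,1)` and inductively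
`k_m x ∈ (0,1)`. For large `m` `q_m x` is small (`‖G x‖ < 1`), `J (q_m x) = k_m^2 ∈ (0,1)`, so
`q_m x > 0` by `J_real_small`. Descend: if `q_(m+1) x = q_m x ^2 > 0` then `q_m x` is real, `≠ 0`; if it were
negative, `J (q_m x) > 1` (`J_Ioo_neg`), but `J (q_m x) = k_m^2 < 1`. So `q_m x > 0`; finally `G x > 0`.
Case B: otherwise let `m` be minimal such that `k_m x` is not real positive for some `x ∈ (0,r)`. For all
`x ∈ (0,r)` `k_m x ^2 > 0` (`m = 0`: it is `f x`; `m > 0`: `4 k/(1+k)^2` with `k = k_(m-1) x > 0`), so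
`k_m` is real without zeros on `(0,r)`, of constant sign: negative.
Let `S = (0,r) ∪ {ρ exp (i φ) : 0 ≤ φ ≤ pi} ∪ (-r, 0)`, `ρ > 0` so small that `Im f ≥ 0` on the closed
upper half disc of radius `ρ` (`f' 0 > 0`, `f` real: `Im f z = Im z * (f' 0 + O(z))`); `S` is connected and
contained in `Om2 r δ`. On `S` `f` is in the closed upper half plane minus `0` (on `(-r,0)`: `f < 0`, as
`f' 0 > 0` and no further zeros). So `k_0` is on `S` in the closed first or closed third quadrant (minus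
`0`), by connectedness always the same one. If `m = 0`: `k_0 < 0` on `(0,r)`, third quadrant,
`Re k_0 ≤ 0` on `S`. If `m > 0`: first quadrant; then for `j = 1, ..., m`: `k_(j-1) ∉ (-∞, 0]` on `S`,
so `Re rho (q_(j-1)) ≠ 0` on `S` (`rho^2 = k_(j-1)`), and `k_j = 2/(rho + 1/rho)` has real part of the same
sign as `Re rho`; so `Re k_j` has constant sign on `S`, the sign on `(0,r)`: positive for `j < m`,
negative for `j = m`. In all cases `Re k_m ≤ 0` on `S`.
`q_m` is not real on `S` (a real `q_m ∈ (-1,1)` has `rho (q_m) > 0`, `rho_real`, so `k_m > 0`). By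
connectedness `Im q_m` has constant sign on `S`: if negative, `q_m z ∈ Bset` for all `z ∈ S` by
`mem_B_of_re_nonpos`; if positive, `conj (q_m z) ∈ Bset`.
-/

set_option autoImplicit false

open Complex Set Filter Topology Metric

namespace Pool.Agent.Choc

theorem c3_sign {S : Set ℂ} (hS : IsPreconnected S) {φ : ℂ → ℝ} (hφ : ContinuousOn φ S)
    (hne : ∀ z ∈ S, φ z ≠ 0) {z₀ : ℂ} (h0 : z₀ ∈ S) (hpos : 0 < φ z₀) : ∀ z ∈ S, 0 < φ z := by
  intro z hz
  by_contra hc
  push Not at hc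
  obtain ⟨w, hw, hw0⟩ := hS.intermediate_value hz h0 hφ ⟨hc, hpos.le⟩
  exact hne w hw hw0

theorem c3_sign_neg {S : Set ℂ} (hS : IsPreconnected S) {φ : ℂ → ℝ} (hφ : ContinuousOn φ S)
    (hne : ∀ z ∈ S, φ z ≠ 0) {z₀ : ℂ} (h0 : z₀ ∈ S) (hneg : φ z₀ < 0) : ∀ z ∈ S, φ z < 0 := by
  intro z hz
  have := c3_sign hS (φ := fun z => - φ z) hφ.neg (fun z hz => neg_ne_zero.2 (hne z hz)) h0
    (by linarith) z hz
  linarith

theorem c3_nw {f : ℂ → ℂ} {ρ : ℝ} (hd : DifferentiableOn ℂ f (ball 0 ρ))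
    (hp : ∀ z ∈ ball (0 : ℂ) ρ, 0 < (deriv f z).re) {a b : ℂ} (ha : a ∈ ball (0 : ℂ) ρ)
    (hb : b ∈ ball (0 : ℂ) ρ) (hab : b - a ≠ 0) : 0 < ((f b - f a) / (b - a)).re := by
  have hseg : ∀ s : ℝ, 0 ≤ s → s ≤ 1 → a + s * (b - a) ∈ ball (0 : ℂ) ρ := by
    intro s h0 h1
    have := (convex_ball (0 : ℂ) ρ).add_smul_sub_mem ha hb ⟨h0, h1⟩
    simpa using this
  have hder : ∀ s : ℝ, 0 ≤ s → s ≤ 1 →
      HasDerivAt (fun s : ℝ => (f (a + s * (b - a)) / (b - a)).re)
        (deriv f (a + s * (b - a))).re s := by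
    intro s h0 h1
    have h2 : HasDerivAt f (deriv f (a + s * (b - a))) (a + s * (b - a)) :=
      (hd.differentiableAt (isOpen_ball.mem_nhds (hseg s h0 h1))).hasDerivAt
    have h3 : HasDerivAt (fun s : ℂ => a + s * (b - a)) (b - a) (s : ℂ) := by
      simpa using ((hasDerivAt_id (s : ℂ)).mul_const (b - a)).const_add a
    have h4 : HasDerivAt (fun s : ℂ => f (a + s * (b - a)) / (b - a))
        (deriv f (a + s * (b - a))) (s : ℂ) := by
      have h5 := (HasDerivAt.comp (s : ℂ) h2 h3).div_const (b - a)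
      rw [mul_div_assoc, div_self hab, mul_one] at h5
      exact h5
    exact h4.real_of_complex
  obtain ⟨c, hc, hc'⟩ := exists_hasDerivAt_eq_slope
    (fun s : ℝ => (f (a + s * (b - a)) / (b - a)).re)
    (fun s : ℝ => (deriv f (a + s * (b - a))).re) one_pos
    (fun s hs => (hder s hs.1 hs.2).continuousAt.continuousWithinAt)
    (fun s hs => hder s hs.1.le hs.2.le)
  have h6 := hp _ (hseg c hc.1.le hc.2.le)
  rw [hc'] at h6
  have e1 : a + ((1 : ℝ) : ℂ) * (b - a) = b := by push_cast; ring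
  have e2 : a + ((0 : ℝ) : ℂ) * (b - a) = a := by push_cast; ring
  rw [e1, e2] at h6
  rw [sub_div, Complex.sub_re]
  simpa using h6

theorem c3_real {b : ℂ} {r : ℝ} {f : ℂ → ℂ} (h : Sol b r f) {z : ℂ} (hz : ‖z‖ < r)
    (him : z.im = 0) : (f z).im = 0 := by
  have h1 := h.real z (by simpa using hz)
  have h2 : starRingEnd ℂ z = z := Complex.conj_eq_iff_im.2 him
  rw [h2] at h1
  exact Complex.conj_eq_iff_im.1 h1.symm

theorem c3_zero {b : ℂ} {r : ℝ} {f : ℂ → ℂ} (h : Sol b r f) : f 0 = 0 := by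
  have hr := h.one_lt
  exact (h.zero 0 (by simp; linarith)).2 rfl

theorem c3_local {b : ℂ} {r : ℝ} {f : ℂ → ℂ} (h : Sol b r f) :
    ∃ ρ : ℝ, 0 < ρ ∧ ρ < r ∧ (∀ z : ℂ, ‖z‖ < ρ → 0 < z.im → 0 < (f z).im) ∧
      (∀ x : ℝ, 0 < x → x < ρ → 0 < (f x).re) := by
  have hr := h.one_lt
  have h0 : (0 : ℂ) ∈ ball (0 : ℂ) r := by simp; linarith
  have hd' : DifferentiableOn ℂ (deriv f) (ball 0 r) := h.diff.deriv isOpen_ball
  have hc : ContinuousAt (fun z => (deriv f z).re) 0 :=
    Complex.continuous_re.continuousAt.comp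
      (hd'.differentiableAt (isOpen_ball.mem_nhds h0)).continuousAt
  have hev : ∀ᶠ z in 𝓝 (0 : ℂ), 0 < (deriv f z).re :=
    hc.eventually (lt_mem_nhds h.deriv_zero)
  obtain ⟨ε, hε, hball⟩ := Metric.eventually_nhds_iff_ball.1 hev
  have hρ : 0 < min ε 1 := lt_min hε one_pos
  have hp : ∀ z ∈ ball (0 : ℂ) (min ε 1), 0 < (deriv f z).re := fun z hz =>
    hball z (ball_subset_ball (min_le_left _ _) hz)
  have hd : DifferentiableOn ℂ f (ball 0 (min ε 1)) :=
    h.diff.mono (ball_subset_ball ((min_le_right _ _).trans hr.le))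
  refine ⟨min ε 1, hρ, lt_of_le_of_lt (min_le_right _ _) hr, ?_, ?_⟩
  · intro z hz him
    have hre : ‖((z.re : ℝ) : ℂ)‖ < min ε 1 := by
      rw [Complex.norm_real]
      exact lt_of_le_of_lt (Complex.abs_re_le_norm z) hz
    have e1 : z - ((z.re : ℝ) : ℂ) = (z.im : ℂ) * I := by
      apply Complex.ext <;> simp
    have h1 := c3_nw hd hp (a := ((z.re : ℝ) : ℂ)) (b := z) (by simpa using hre)
      (by simpa using hz) (by rw [e1]; simp [him.ne'])
    rw [e1] at h1
    have h2 : (f ((z.re : ℝ) : ℂ)).im = 0 := c3_real h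
      (lt_of_lt_of_le hre ((min_le_right _ _).trans hr.le)) (by simp)
    have e2 : ((f z - f ((z.re : ℝ) : ℂ)) / ((z.im : ℂ) * I)).re =
        ((f z).im - (f ((z.re : ℝ) : ℂ)).im) / z.im := by
      have hne : (z.im : ℂ) ≠ 0 := by exact_mod_cast him.ne'
      have e3 : (f z - f ((z.re : ℝ) : ℂ)) / ((z.im : ℂ) * I) =
          (-I * (f z - f ((z.re : ℝ) : ℂ))) / (z.im : ℂ) := by
        field_simp
        rw [Complex.I_sq]
        ring
      rw [e3, Complex.div_ofReal_re]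
      simp
    rw [e2, h2, sub_zero] at h1
    exact (div_pos_iff_of_pos_right him).1 h1
  · intro x hx hx'
    have h1 := c3_nw hd hp (a := 0) (b := (x : ℂ)) (by simpa using hρ)
      (by
        rw [mem_ball, dist_zero_right, Complex.norm_real, Real.norm_of_nonneg hx.le]
        exact hx') (by
        rw [sub_zero]
        exact_mod_cast hx.ne')
    rw [c3_zero h, sub_zero, sub_zero, Complex.div_ofReal_re] at h1
    exact (div_pos_iff_of_pos_right hx).1 h1

/-- The positive part of the real diameter. -/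
def c3P (r : ℝ) : Set ℂ := {z | 0 < z.re ∧ z.re < r ∧ z.im = 0}

/-- The connected set: real points and a small upper half disc. -/
def c3S (r ρ : ℝ) : Set ℂ :=
  {z | (z.im = 0 ∧ z ≠ 0 ∧ ‖z‖ < r) ∨ (0 < z.im ∧ ‖z‖ < ρ)}

theorem c3_convex_P (r : ℝ) : Convex ℝ (c3P r) := by
  have h : c3P r = ({z : ℂ | 0 < z.re} ∩ {z : ℂ | z.re < r}) ∩
      ({z : ℂ | 0 ≤ z.im} ∩ {z : ℂ | z.im ≤ 0}) := by
    ext z
    simp only [c3P, Set.mem_ofPred_eq, mem_inter_iff]
    constructor
    · rintro ⟨h1, h2, h3⟩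
      exact ⟨⟨h1, h2⟩, h3.ge, h3.le⟩
    · rintro ⟨⟨h1, h2⟩, h3, h4⟩
      exact ⟨h1, h2, le_antisymm h4 h3⟩
  rw [h]
  exact ((convex_halfSpace_re_gt 0).inter (convex_halfSpace_re_lt r)).inter
    ((convex_halfSpace_im_ge 0).inter (convex_halfSpace_im_le 0))

theorem c3_norm_real {z : ℂ} (h : z.im = 0) : ‖z‖ = |z.re| := by
  have : z = (z.re : ℂ) := by apply Complex.ext <;> simp [h]
  rw [this, Complex.norm_real, Real.norm_eq_abs]
  simp

theorem c3_P_sub {r ρ : ℝ} : c3P r ⊆ c3S r ρ := by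
  rintro z ⟨h1, h2, h3⟩
  left
  refine ⟨h3, ?_, ?_⟩
  · rintro rfl
    simp at h1
  · rw [c3_norm_real h3, abs_of_pos h1]
    exact h2

theorem c3_S_neg {r ρ : ℝ} {z : ℂ} (hz : z ∈ c3S r ρ) : -(starRingEnd ℂ z) ∈ c3S r ρ := by
  rcases hz with ⟨h1, h2, h3⟩ | ⟨h1, h2⟩
  · left
    refine ⟨by simp [h1], ?_, by simpa using h3⟩
    simpa using h2
  · right
    exact ⟨by simpa using h1, by simpa using h2⟩

theorem c3_preconnected {r ρ : ℝ} (h0 : 0 < ρ) (h1 : ρ < r) : IsPreconnected (c3S r ρ) := by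
  have hρ2 : ‖((ρ / 2 : ℝ) : ℂ)‖ < ρ := by
    rw [Complex.norm_real, Real.norm_of_nonneg (by positivity)]
    linarith
  -- the right half
  have key : ∀ y : ℂ, y ∈ c3S r ρ → 0 < y.re → ∃ t, t ⊆ c3S r ρ ∧
      ((ρ / 2 : ℝ) : ℂ) * I ∈ t ∧ y ∈ t ∧ IsPreconnected t := by
    intro y hy hyre
    have hB : Convex ℝ (ball (0 : ℂ) ρ ∩ {z : ℂ | 0 < z.im}) :=
      (convex_ball _ _).inter (convex_halfSpace_im_gt 0)
    have hA : Convex ℝ (ball (0 : ℂ) ρ ∩ ({z : ℂ | 0 ≤ z.im} ∩ {z : ℂ | 0 < z.re})) :=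
      (convex_ball _ _).inter ((convex_halfSpace_im_ge 0).inter (convex_halfSpace_re_gt 0))
    have hBA : IsPreconnected ((ball (0 : ℂ) ρ ∩ {z : ℂ | 0 < z.im}) ∪
        (ball (0 : ℂ) ρ ∩ ({z : ℂ | 0 ≤ z.im} ∩ {z : ℂ | 0 < z.re}))) := by
      have hw : ‖((ρ / 4 : ℝ) : ℂ) + ((ρ / 4 : ℝ) : ℂ) * I‖ < ρ := by
        refine lt_of_le_of_lt (norm_add_le _ _) ?_
        rw [norm_mul, Complex.norm_I, Complex.norm_real, Real.norm_of_nonneg (by positivity)]
        linarith
      refine IsPreconnected.union (((ρ / 4 : ℝ) : ℂ) + ((ρ / 4 : ℝ) : ℂ) * I) ?_ ?_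
        hB.isPreconnected hA.isPreconnected
      · refine ⟨by simpa using hw, ?_⟩
        simp [h0]
      · refine ⟨by simpa using hw, ?_, ?_⟩
        · simp
          linarith
        · simp [h0]
    have hall : IsPreconnected (((ball (0 : ℂ) ρ ∩ {z : ℂ | 0 < z.im}) ∪
        (ball (0 : ℂ) ρ ∩ ({z : ℂ | 0 ≤ z.im} ∩ {z : ℂ | 0 < z.re}))) ∪ c3P r) := by
      refine IsPreconnected.union ((ρ / 2 : ℝ) : ℂ) ?_ ?_ hBA (c3_convex_P r).isPreconnected
      · right
        refine ⟨by simpa using hρ2, ?_, ?_⟩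
        · simp
        · simp [h0]
      · refine ⟨?_, ?_, ?_⟩
        · simp [h0]
        · rw [Complex.ofReal_re]; linarith
        · exact Complex.ofReal_im _
    refine ⟨_, ?_, ?_, ?_, hall⟩
    · rintro z ((⟨hz1, hz2⟩ | ⟨hz1, hz2, hz3⟩) | hz)
      · right
        exact ⟨hz2, by simpa using hz1⟩
      · rcases (show 0 ≤ z.im from hz2).eq_or_lt with h2 | h2
        · left
          refine ⟨h2.symm, ?_, lt_trans (by simpa using hz1) h1⟩
          rintro rfl
          simp at hz3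
        · right
          exact ⟨h2, by simpa using hz1⟩
      · exact c3_P_sub hz
    · left; left
      refine ⟨?_, ?_⟩
      · rw [mem_ball, dist_zero_right, norm_mul, Complex.norm_I, mul_one]
        exact hρ2
      · simp [h0]
    · rcases hy with ⟨hy1, hy2, hy3⟩ | ⟨hy1, hy2⟩
      · right
        refine ⟨hyre, ?_, hy1⟩
        rw [c3_norm_real hy1, abs_of_pos hyre] at hy3
        exact hy3
      · left; left
        exact ⟨by simpa using hy2, hy1⟩
  refine isPreconnected_of_forall (((ρ / 2 : ℝ) : ℂ) * I) ?_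
  intro y hy
  rcases lt_trichotomy y.re 0 with h2 | h2 | h2
  · obtain ⟨t, ht1, ht2, ht3, ht4⟩ := key (-(starRingEnd ℂ y)) (c3_S_neg hy) (by simpa using h2)
    refine ⟨(fun z : ℂ => -(starRingEnd ℂ z)) '' t, ?_, ?_, ?_, ?_⟩
    · rintro z ⟨w, hw, rfl⟩
      exact c3_S_neg (ht1 hw)
    · refine ⟨_, ht2, ?_⟩
      show -(starRingEnd ℂ (((ρ / 2 : ℝ) : ℂ) * I)) = _
      rw [map_mul, Complex.conj_ofReal, Complex.conj_I]
      ring
    · refine ⟨_, ht3, ?_⟩
      simp
    · refine ht4.image _ ?_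
      exact (Complex.continuous_conj.neg).continuousOn
  · refine ⟨ball (0 : ℂ) ρ ∩ {z : ℂ | 0 < z.im}, ?_, ?_, ?_, ?_⟩
    · rintro z ⟨hz1, hz2⟩
      right
      exact ⟨hz2, by simpa using hz1⟩
    · refine ⟨?_, ?_⟩
      · rw [mem_ball, dist_zero_right, norm_mul, Complex.norm_I, mul_one]
        exact hρ2
      · simp [h0]
    · rcases hy with ⟨hy1, hy2, hy3⟩ | ⟨hy1, hy2⟩
      · exfalso
        apply hy2
        apply Complex.ext <;> simp [h2, hy1]
      · exact ⟨by simpa using hy2, hy1⟩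
    · exact ((convex_ball _ _).inter (convex_halfSpace_im_gt 0)).isPreconnected
  · exact key y hy h2

theorem c3_S_sub {r ρ δ : ℝ} (h1 : ρ < r) (hδ : 0 < δ) (hδ' : δ < Real.pi / 4) :
    c3S r ρ ⊆ Om2 r δ := by
  rintro z (⟨h2, h3, h4⟩ | ⟨h2, h3⟩)
  · have e1 : z = (z.re : ℂ) := by apply Complex.ext <;> simp [h2]
    rw [e1]
    apply real_mem_om2 hδ hδ'
    · intro h5
      apply h3
      rw [e1, h5]
      simp
    · rw [← c3_norm_real h2]
      exact h4
  · exact om_subset_om2 hδ hδ' ⟨h3.trans h1, h2⟩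

/-! The sequence `k_m`. -/

/-- `q_m = G^(2^m)`. -/
noncomputable def c3q (G : ℂ → ℂ) (m : ℕ) (z : ℂ) : ℂ := G z ^ (2 ^ m)

/-- `k_m = rho (q_m)^2`. -/
noncomputable def c3k (G : ℂ → ℂ) (m : ℕ) (z : ℂ) : ℂ := rho (c3q G m z) ^ 2

theorem c3q_zero (G : ℂ → ℂ) (z : ℂ) : c3q G 0 z = G z := by
  simp [c3q]

theorem c3q_succ (G : ℂ → ℂ) (m : ℕ) (z : ℂ) : c3q G (m + 1) z = c3q G m z ^ 2 := by
  unfold c3q
  rw [← pow_mul, pow_succ]

theorem c3q_norm {G : ℂ → ℂ} {z : ℂ} (h : ‖G z‖ < 1) (m : ℕ) : ‖c3q G m z‖ < 1 := by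
  unfold c3q
  rw [norm_pow]
  exact pow_lt_one₀ (norm_nonneg _) h (by positivity)

theorem c3k_ne {G : ℂ → ℂ} {z : ℂ} (h : ‖G z‖ < 1) (m : ℕ) : c3k G m z ≠ 0 :=
  pow_ne_zero _ (rho_ne_zero (c3q_norm h m))

theorem c3k_one_add_ne {G : ℂ → ℂ} {z : ℂ} (h : ‖G z‖ < 1) (m : ℕ) : 1 + c3k G m z ≠ 0 :=
  one_add_rho_sq_ne (c3q_norm h m)

theorem c3k_succ {G : ℂ → ℂ} {z : ℂ} (h : ‖G z‖ < 1) (m : ℕ) :
    c3k G (m + 1) z = 2 * rho (c3q G m z) / (1 + c3k G m z) := by
  unfold c3k
  rw [c3q_succ]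
  exact rho_landen (c3q_norm h m)

theorem c3k_succ_sq {G : ℂ → ℂ} {z : ℂ} (h : ‖G z‖ < 1) (m : ℕ) :
    c3k G (m + 1) z ^ 2 = 4 * c3k G m z / (1 + c3k G m z) ^ 2 := by
  rw [c3k_succ h, div_pow, mul_pow]
  unfold c3k
  norm_num

theorem c3k_sq (G : ℂ → ℂ) (m : ℕ) (z : ℂ) : c3k G m z ^ 2 = J (c3q G m z) := by
  unfold c3k J
  ring

theorem c3_sq_pos {w : ℂ} {a : ℝ} (ha : 0 < a) (h : w ^ 2 = a) : w.im = 0 ∧ w.re ≠ 0 := by
  have h1 : w.re ^ 2 - w.im ^ 2 = a := by
    have := congrArg Complex.re h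
    simpa [sq] using this
  have h2 : w.re * w.im = 0 := by
    have := congrArg Complex.im h
    simp [sq] at this
    linarith
  rcases mul_eq_zero.1 h2 with h3 | h3
  · exfalso
    rw [h3] at h1
    nlinarith [sq_nonneg w.im]
  · refine ⟨h3, ?_⟩
    intro h4
    rw [h3, h4] at h1
    simp at h1
    linarith

theorem c3_landen_pos {t : ℝ} (ht : 0 < t) :
    (4 * (t : ℂ) / (1 + (t : ℂ)) ^ 2) = ((4 * t / (1 + t) ^ 2 : ℝ) : ℂ) := by
  push_cast
  ring

/-- `2ρ/(1+ρ^2)` has real part of the same sign as `ρ`; so it is nonzero if `ρ^2` is not in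
`(-∞, 0]`. -/
theorem c3_re_ne {ρ : ℂ} (h0 : 1 + ρ ^ 2 ≠ 0) (h : ¬((ρ ^ 2).im = 0 ∧ (ρ ^ 2).re ≤ 0)) :
    (2 * ρ / (1 + ρ ^ 2)).re ≠ 0 := by
  have hre : ρ.re ≠ 0 := by
    intro h1
    apply h
    simp [sq, h1]
    nlinarith [sq_nonneg ρ.im]
  have hn : 0 < normSq (1 + ρ ^ 2) := Complex.normSq_pos.2 h0
  have e1 : (2 * ρ / (1 + ρ ^ 2)).re =
      2 * ρ.re * (1 + normSq ρ) / normSq (1 + ρ ^ 2) := by
    rw [Complex.div_re]
    rw [← add_div]
    congr 1
    simp [sq, Complex.normSq_apply]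
    ring
  rw [e1]
  have h2 : 0 < 1 + normSq ρ := by
    have := Complex.normSq_nonneg ρ
    linarith
  exact div_ne_zero (mul_ne_zero (mul_ne_zero two_ne_zero hre) h2.ne') hn.ne'

theorem dichotomy {b : ℂ} {r δ : ℝ} {f G : ℂ → ℂ} (h : Sol b r f) (hG : GLift b r δ f G) :
    (∀ x : ℝ, 0 < x → x < r → (G x).im = 0 ∧ 0 < (G x).re) ∨
    (∃ m : ℕ, ∀ x : ℝ, x ≠ 0 → |x| < r → G x ^ (2 ^ m) ∈ Bset) ∨
    (∃ m : ℕ, ∀ x : ℝ, x ≠ 0 → |x| < r → starRingEnd ℂ (G x ^ (2 ^ m)) ∈ Bset) := by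
  have hr := h.one_lt
  obtain ⟨ρ, hρ0, hρr, hupper, hpos⟩ := c3_local h
  have hSO : c3S r ρ ⊆ Om2 r δ := c3_S_sub hρr hG.δ_pos hG.δ_lt
  have hPO : c3P r ⊆ Om2 r δ := c3_P_sub.trans hSO
  have hcon := c3_preconnected hρ0 hρr
  have hPcon : IsPreconnected (c3P r) := (c3_convex_P r).isPreconnected
  have hOmBall : Om2 r δ ⊆ ball (0 : ℂ) r := by
    intro z hz
    simpa using hz.1
  have hfc : ContinuousOn f (ball (0 : ℂ) r) := h.diff.continuousOn
  have hPball : c3P r ⊆ ball (0 : ℂ) r := hPO.trans hOmBall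
  have hqc : ∀ m, ContinuousOn (c3q G m) (Om2 r δ) := fun m => hG.diff.continuousOn.pow _
  have hkc : ∀ m, ContinuousOn (c3k G m) (Om2 r δ) := by
    intro m
    refine ContinuousOn.pow ?_ 2
    refine rho_diff.continuousOn.comp (hqc m) ?_
    intro z hz
    simpa using c3q_norm (hG.lt_one z hz) m
  have hx0 : ((ρ / 2 : ℝ) : ℂ) ∈ c3P r := by
    refine ⟨by simp [hρ0], ?_, Complex.ofReal_im _⟩
    rw [Complex.ofReal_re]; linarith
  -- values of `f` on `(0, r)`
  have hfP : ∀ z ∈ c3P r, (f z).im = 0 ∧ 0 < (f z).re ∧ (f z).re < 1 := by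
    have him : ∀ z ∈ c3P r, (f z).im = 0 := fun z hz =>
      c3_real h (by simpa using hPball hz) hz.2.2
    have h1 : ∀ z ∈ c3P r, 0 < (f z).re := by
      refine c3_sign hPcon (Complex.continuous_re.comp_continuousOn (hfc.mono hPball)) ?_ hx0 ?_
      · intro z hz h2
        have h3 : f z = 0 := Complex.ext h2 (him z hz)
        have h4 := (h.zero z (hPball hz)).1 h3
        have h5 := hz.1
        rw [h4] at h5
        simp at h5
      · exact hpos (ρ / 2) (by linarith) (by linarith)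
    have h2 : ∀ z ∈ ({z : ℂ | 0 ≤ z.re ∧ z.re < r ∧ z.im = 0} : Set ℂ),
        0 < 1 - (f z).re := by
      have hconv : IsPreconnected ({z : ℂ | 0 ≤ z.re ∧ z.re < r ∧ z.im = 0} : Set ℂ) := by
        have h : ({z : ℂ | 0 ≤ z.re ∧ z.re < r ∧ z.im = 0} : Set ℂ) =
            ({z : ℂ | 0 ≤ z.re} ∩ {z : ℂ | z.re < r}) ∩
            ({z : ℂ | 0 ≤ z.im} ∩ {z : ℂ | z.im ≤ 0}) := by
          ext z
          simp only [Set.mem_ofPred_eq, mem_inter_iff]
          constructor
          · rintro ⟨h1, h2, h3⟩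
            exact ⟨⟨h1, h2⟩, h3.ge, h3.le⟩
          · rintro ⟨⟨h1, h2⟩, h3, h4⟩
            exact ⟨h1, h2, le_antisymm h4 h3⟩
        rw [h]
        exact (((convex_halfSpace_re_ge 0).inter (convex_halfSpace_re_lt r)).inter
          ((convex_halfSpace_im_ge 0).inter (convex_halfSpace_im_le 0))).isPreconnected
      have hsub : ({z : ℂ | 0 ≤ z.re ∧ z.re < r ∧ z.im = 0} : Set ℂ) ⊆ ball (0 : ℂ) r := by
        rintro z ⟨h3, h4, h5⟩
        rw [mem_ball, dist_zero_right, c3_norm_real h5, abs_of_nonneg h3]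
        exact h4
      refine c3_sign hconv (z₀ := 0) ?_ ?_ ?_ ?_
      · exact continuousOn_const.sub
          (Complex.continuous_re.comp_continuousOn (hfc.mono hsub))
      · intro z hz h3
        have h4 : (f z).im = 0 := c3_real h (by simpa using hsub hz) hz.2.2
        have h5 : f z = 1 := Complex.ext (by simp; linarith) (by simp [h4])
        have hb := h.b_im
        have hz0 := hz.2.2
        rcases (h.one z (hsub hz)).1 h5 with h6 | h6
        · rw [h6] at hz0
          linarith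
        · rw [h6] at hz0
          simp at hz0
          linarith
      · refine ⟨by simp, ?_, by simp⟩
        rw [Complex.zero_re]; linarith
      · rw [c3_zero h]; simp
    intro z hz
    refine ⟨him z hz, h1 z hz, ?_⟩
    have := h2 z ⟨hz.1.le, hz.2.1, hz.2.2⟩
    linarith
  have hk0 : ∀ z ∈ Om2 r δ, c3k G 0 z ^ 2 = f z := by
    intro z hz
    rw [c3k_sq, c3q_zero]
    exact hG.lift z hz
  by_cases hcase : ∀ m : ℕ, ∀ z ∈ c3P r, ∃ t : ℝ, 0 < t ∧ c3k G m z = t
  · -- main class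
    left
    intro x hx hxr
    have hxP : (x : ℂ) ∈ c3P r := ⟨by simpa using hx, by simpa using hxr, by simp⟩
    have hxO := hPO hxP
    have hGx := hG.lt_one _ hxO
    have hk : ∀ m : ℕ, ∃ t : ℝ, 0 < t ∧ t < 1 ∧ c3k G m (x : ℂ) = t := by
      intro m
      induction m with
      | zero =>
        obtain ⟨t, ht, ht'⟩ := hcase 0 _ hxP
        refine ⟨t, ht, ?_, ht'⟩
        have h1 := hk0 _ hxO
        rw [ht'] at h1
        have h2 := (hfP _ hxP).2.2
        rw [← h1] at h2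
        have h3 : ((t : ℂ) ^ 2).re = t ^ 2 := by
          rw [← Complex.ofReal_pow, Complex.ofReal_re]
        rw [h3] at h2
        nlinarith
      | succ m ih =>
        obtain ⟨s, hs, hs', hs''⟩ := ih
        obtain ⟨t, ht, ht'⟩ := hcase (m + 1) _ hxP
        refine ⟨t, ht, ?_, ht'⟩
        have h1 := c3k_succ_sq hGx m
        rw [ht', hs'', c3_landen_pos hs] at h1
        have h2 : t ^ 2 = 4 * s / (1 + s) ^ 2 := by exact_mod_cast h1
        have h3 : 4 * s / (1 + s) ^ 2 < 1 := by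
          rw [div_lt_one (by positivity)]
          nlinarith [sq_nonneg (1 - s), sq_pos_of_pos (sub_pos.2 hs')]
        nlinarith
    obtain ⟨d, hd0, hd1, hd⟩ := J_real_small
    have hlarge : ∃ m : ℕ, ‖c3q G m (x : ℂ)‖ < d := by
      obtain ⟨n, hn⟩ := exists_pow_lt_of_lt_one hd0 hGx
      refine ⟨n, lt_of_le_of_lt ?_ hn⟩
      unfold c3q
      rw [norm_pow]
      exact pow_le_pow_of_le_one (norm_nonneg _) hGx.le (Nat.lt_two_pow_self).le
    obtain ⟨m, hm⟩ := hlarge
    have hJ : ∀ m, ∃ t : ℝ, 0 < t ∧ t < 1 ∧ J (c3q G m (x : ℂ)) = (t : ℂ) := by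
      intro m
      obtain ⟨t, ht, ht1, ht'⟩ := hk m
      refine ⟨t ^ 2, by positivity, by nlinarith, ?_⟩
      rw [← c3k_sq, ht']
      push_cast
      ring
    have hqm : (c3q G m (x : ℂ)).im = 0 ∧ 0 < (c3q G m (x : ℂ)).re := by
      obtain ⟨t, ht, ht1, ht'⟩ := hJ m
      apply hd _ hm
      · rw [ht']; simp
      · rw [ht']; simpa using ht1
    have hdesc : ∀ n : ℕ, ((c3q G n (x : ℂ)).im = 0 ∧ 0 < (c3q G n (x : ℂ)).re) →
        ((G x).im = 0 ∧ 0 < (G x).re) := by
      intro n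
      induction n with
      | zero =>
        intro hn
        rwa [c3q_zero] at hn
      | succ n ih =>
        intro hn
        apply ih
        rw [c3q_succ] at hn
        have h1 : c3q G n (x : ℂ) ^ 2 = (((c3q G n (x : ℂ) ^ 2).re : ℝ) : ℂ) := by
          apply Complex.ext
          · simp
          · rw [Complex.ofReal_im]; exact hn.1
        obtain ⟨h2, h3⟩ := c3_sq_pos hn.2 h1
        refine ⟨h2, ?_⟩
        rcases lt_or_gt_of_ne h3 with h4 | h4
        · exfalso
          have h5 : c3q G n (x : ℂ) = ((c3q G n (x : ℂ)).re : ℂ) := by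
            apply Complex.ext <;> simp [h2]
          have h6 : -1 < (c3q G n (x : ℂ)).re := by
            have h7 := c3q_norm hGx n
            rw [c3_norm_real h2, abs_lt] at h7
            exact h7.1
          have h8 := (J_Ioo_neg h6 h4).2
          rw [← h5] at h8
          obtain ⟨t, ht, ht1, ht'⟩ := hJ n
          rw [ht', Complex.ofReal_re] at h8
          linarith
        · exact h4
    exact hdesc m hqm
  · -- non-main class
    right
    push Not at hcase
    classical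
    let m := Nat.find hcase
    have hm := Nat.find_spec hcase
    have hmin : ∀ j < m, ∀ z ∈ c3P r, ∃ t : ℝ, 0 < t ∧ c3k G j z = t := by
      intro j hj
      have := Nat.find_min hcase hj
      push Not at this
      exact this
    have hrealm : ∀ z ∈ c3P r, (c3k G m z).im = 0 ∧ (c3k G m z).re ≠ 0 := by
      intro z hz
      have hzO := hPO hz
      rcases Nat.eq_zero_or_pos m with h0 | h0
      · rw [h0]
        have h1 := hk0 z hzO
        obtain ⟨h2, h3, -⟩ := hfP z hz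
        apply c3_sq_pos h3
        rw [h1]
        apply Complex.ext <;> simp [h2]
      · obtain ⟨j, hj⟩ : ∃ j, m = j + 1 := ⟨m - 1, by omega⟩
        rw [hj]
        obtain ⟨t, ht, ht'⟩ := hmin j (by omega) z hz
        have h1 := c3k_succ_sq (hG.lt_one z hzO) j
        rw [ht', c3_landen_pos ht] at h1
        exact c3_sq_pos (by positivity) h1
    have hnegm : ∀ z ∈ c3P r, (c3k G m z).re < 0 := by
      obtain ⟨z1, hz1, hz1'⟩ := hm
      refine c3_sign_neg hPcon
        (Complex.continuous_re.comp_continuousOn ((hkc m).mono hPO))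
        (fun z hz => (hrealm z hz).2) hz1 ?_
      rcases lt_or_gt_of_ne (hrealm z1 hz1).2 with h1 | h1
      · exact h1
      · exfalso
        apply hz1' _ h1
        apply Complex.ext
        · simp [m]
        · rw [Complex.ofReal_im]; exact (hrealm z1 hz1).1
    -- `f` on `S` is in the closed upper half plane without `0`
    have hfS : ∀ z ∈ c3S r ρ, 0 ≤ (f z).im ∧ f z ≠ 0 := by
      intro z hz
      have hzb := hOmBall (hSO hz)
      refine ⟨?_, ?_⟩
      · rcases hz with ⟨h1, h2, h3⟩ | ⟨h1, h2⟩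
        · exact (c3_real h h3 h1).ge
        · exact (hupper z h2 h1).le
      · intro h1
        have h2 := (h.zero z hzb).1 h1
        rcases hz with ⟨h3, h4, h5⟩ | ⟨h3, h4⟩
        · exact h4 h2
        · rw [h2] at h3
          simp at h3
    have hprod : ∀ z ∈ c3S r ρ, 0 ≤ (c3k G 0 z).re * (c3k G 0 z).im := by
      intro z hz
      have h1 := hk0 z (hSO hz)
      have h2 := (hfS z hz).1
      rw [← h1] at h2
      simp [sq] at h2
      linarith
    have hsum_ne : ∀ z ∈ c3S r ρ, (c3k G 0 z).re + (c3k G 0 z).im ≠ 0 := by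
      intro z hz h1
      have h2 := hprod z hz
      have h3 : (c3k G 0 z).im = -(c3k G 0 z).re := by linarith
      rw [h3] at h2
      have h4 : (c3k G 0 z).re = 0 := by nlinarith [sq_nonneg (c3k G 0 z).re]
      apply c3k_ne (hG.lt_one z (hSO hz)) 0
      apply Complex.ext
      · simpa using h4
      · rw [h3, h4]; simp
    have hsum_c : ContinuousOn (fun z => (c3k G 0 z).re + (c3k G 0 z).im) (c3S r ρ) :=
      (Complex.continuous_re.comp_continuousOn ((hkc 0).mono hSO)).add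
        (Complex.continuous_im.comp_continuousOn ((hkc 0).mono hSO))
    have hx0S : ((ρ / 2 : ℝ) : ℂ) ∈ c3S r ρ := c3_P_sub hx0
    -- real part of `k_m` on `S`
    have hre : ∀ z ∈ c3S r ρ, (c3k G m z).re ≤ 0 := by
      rcases Nat.eq_zero_or_pos m with h0 | h0
      · have h1 : ∀ z ∈ c3S r ρ, (c3k G 0 z).re + (c3k G 0 z).im < 0 := by
          refine c3_sign_neg hcon hsum_c hsum_ne hx0S ?_
          have h2 := hnegm _ hx0
          have h3 := (hrealm _ hx0).1
          rw [h0] at h2 h3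
          rw [h3]
          linarith
        intro z hz
        rw [h0]
        have h2 := h1 z hz
        have h3 := hprod z hz
        by_contra hc
        push Not at hc
        have h4 : 0 ≤ (c3k G 0 z).im := by
          by_contra h5
          push Not at h5
          nlinarith
        linarith
      · -- first quadrant for `k_0`
        have h1 : ∀ z ∈ c3S r ρ, 0 < (c3k G 0 z).re + (c3k G 0 z).im := by
          refine c3_sign hcon hsum_c hsum_ne hx0S ?_
          obtain ⟨t, ht, ht'⟩ := hmin 0 h0 _ hx0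
          rw [ht']
          simpa using ht
        have hq0 : ∀ z ∈ c3S r ρ, ¬((c3k G 0 z).im = 0 ∧ (c3k G 0 z).re ≤ 0) := by
          rintro z hz ⟨h2, h3⟩
          have h4 := h1 z hz
          rw [h2] at h4
          linarith
        have hstep : ∀ j, (∀ z ∈ c3S r ρ, ¬((c3k G j z).im = 0 ∧ (c3k G j z).re ≤ 0)) →
            ∀ z ∈ c3S r ρ, (c3k G (j + 1) z).re ≠ 0 := by
          intro j hj z hz
          have hz1 := hG.lt_one z (hSO hz)
          rw [c3k_succ hz1]
          exact c3_re_ne (c3k_one_add_ne hz1 j) (hj z hz)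
        have hgood : ∀ j, j < m → ∀ z ∈ c3S r ρ,
            ¬((c3k G j z).im = 0 ∧ (c3k G j z).re ≤ 0) := by
          intro j
          induction j with
          | zero => intro _; exact hq0
          | succ j ih =>
            intro hj z hz h2
            have h3 : ∀ z ∈ c3S r ρ, 0 < (c3k G (j + 1) z).re := by
              refine c3_sign hcon
                (Complex.continuous_re.comp_continuousOn ((hkc (j + 1)).mono hSO))
                (hstep j (ih (by omega))) hx0S ?_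
              obtain ⟨t, ht, ht'⟩ := hmin (j + 1) hj _ hx0
              have h7 : (c3k G (j + 1) ((ρ / 2 : ℝ) : ℂ)).re = t := by
                rw [ht', Complex.ofReal_re]
              exact lt_of_lt_of_eq ht h7.symm
            have h4 := h3 z hz
            linarith [h2.2]
        obtain ⟨j, hj⟩ : ∃ j, m = j + 1 := ⟨m - 1, by omega⟩
        have h5 : ∀ z ∈ c3S r ρ, (c3k G m z).re < 0 := by
          refine c3_sign_neg hcon
            (Complex.continuous_re.comp_continuousOn ((hkc m).mono hSO)) ?_ hx0S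
            (hnegm _ hx0)
          rw [hj]
          exact hstep j (hgood j (by omega))
        exact fun z hz => (h5 z hz).le
    have him : ∀ z ∈ c3S r ρ, (c3q G m z).im ≠ 0 := by
      intro z hz h1
      have h2 := c3q_norm (hG.lt_one z (hSO hz)) m
      rw [c3_norm_real h1] at h2
      obtain ⟨h3, h4⟩ := rho_real h2
      have h5 : c3q G m z = ((c3q G m z).re : ℂ) := by
        apply Complex.ext <;> simp [h1]
      rw [← h5] at h3 h4
      have h6 := hre z hz
      unfold c3k at h6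
      simp [sq, h3] at h6
      nlinarith
    have hqcS : ContinuousOn (fun z => (c3q G m z).im) (c3S r ρ) :=
      Complex.continuous_im.comp_continuousOn ((hqc m).mono hSO)
    have hxS : ∀ x : ℝ, x ≠ 0 → |x| < r → (x : ℂ) ∈ c3S r ρ := by
      intro x hx hxr
      left
      refine ⟨Complex.ofReal_im _, by exact_mod_cast hx, ?_⟩
      rw [Complex.norm_real]
      exact hxr
    rcases lt_or_gt_of_ne (him _ hx0S) with h1 | h1
    · left
      refine ⟨m, fun x hx hxr => ?_⟩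
      have h2 := c3_sign_neg hcon hqcS him hx0S h1 _ (hxS x hx hxr)
      exact mem_B_of_re_nonpos (c3q_norm (hG.lt_one _ (hSO (hxS x hx hxr))) m) h2
        (hre _ (hxS x hx hxr))
    · right
      refine ⟨m, fun x hx hxr => ?_⟩
      have h2 := c3_sign hcon hqcS him hx0S h1 _ (hxS x hx hxr)
      exact conj_mem_B_of_re_nonpos (c3q_norm (hG.lt_one _ (hSO (hxS x hx hxr))) m) h2
        (hre _ (hxS x hx hxr))

end Pool.Agent.Choc
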