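import Pool.Agent.Lib.MP_2b3e36_an.Ex.C1
import Pool.Agent.Lib.MP_2b3e36_an.Ex.C2

/-!
C4. The main class: boundary behaviour of `G` on the diameter.

Proof. Let `S+ = {‖z‖ < r, 0 < Im z < Im b}` (convex) and let `l` be a holomorphic logarithm of `p` on
`S+`, equal near `0` to the principal one: since `p' 0 > 0` and `p` is real, `Im p z > 0` on a small upper
half disc (`Im p z = Im z (p' 0 + O(z))`), where `Log p` has imaginary part in `(0, pi)`. `p ≠ 0` near every real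
`x ≠ 0`, so `l` extends holomorphically to a neighbourhood of `x`; at real points `exp (l) = p` is real, so
`Im l(x) ∈ pi ℤ`, constant on `(0,r)` and on `(-r,0)`, near `0` it lies in `[0, pi]` and `p > 0`, `p < 0`
respectively: `Im l = 0` on `(0,r)`, `Im l = pi` on `(-r,0)`; `Re l = log |p| < 0`.
Put `τ' = - i pi / l`: `Im τ' = - pi Re l / |l|^2 > 0`. Put `G' = nome τ'`. With `s = l/(i pi)` we have
`nome s = p`, `τ' = -1/s`, so `J (G') = 1 - J p = f` on `S+` (`J_inv`). On `(0,r)`: `l < 0`, so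
`G' x = exp (pi^2 / l x) ∈ (0,1)`, and `G x ∈ (0,1)` by hypothesis, `J (G x) = f x = J (G' x)`, so
`G x = G' x` (`J_inj_Ioo`). Both are holomorphic near `(0,r)` (for `G`: `real_mem_om2`), so equal near
`(0,r)` and, `S+` being connected, on `S+`.
(pos): near `x ∈ (0,r)` `τ = - i pi / l`, real part `0` on the reals, positive imaginary part.
(neg): near `x ∈ (-r,0)` `s = l/(i pi) = 1 + i t`, `t > 0` at real points, so `τ = -1/s` satisfies
`‖τ + 1/2‖ = |s - 2|/(2|s|) = 1/2` and `Im τ = t/|s|^2 > 0`. In both cases `G = nome τ` on the upper part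
of a small ball, so on the ball (identity theorem, `G` holomorphic there).
(zero): near `0` take `p` itself: `G z = nome (- pi i / log (p z))` for `Im z > 0`.
-/

set_option autoImplicit false

open Complex Set Filter Topology Metric

namespace Pool.Agent.Choc

theorem c4_nome_log {w : ℂ} (h0 : w ≠ 0) : nome (log w / (Real.pi * I)) = w := by
  have h1 : (Real.pi : ℂ) * I ≠ 0 :=
    mul_ne_zero (Complex.ofReal_ne_zero.2 Real.pi_ne_zero) Complex.I_ne_zero
  unfold nome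
  rw [mul_div_cancel₀ _ h1]
  exact exp_log h0

theorem c4_real_div (L : ℝ) : (L : ℂ) / (Real.pi * I) = ((-L / Real.pi : ℝ) : ℂ) * I := by
  have h1 : (Real.pi : ℂ) ≠ 0 := Complex.ofReal_ne_zero.2 Real.pi_ne_zero
  push_cast
  rw [div_mul_eq_mul_div, div_eq_div_iff (mul_ne_zero h1 Complex.I_ne_zero) h1]
  linear_combination ((L : ℂ) * Real.pi) * Complex.I_sq

theorem c4_im_tau {L : ℂ} (hL : L.re < 0) : 0 < (-(Real.pi * I) / L).im := by
  have hn : 0 < Complex.normSq L := by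
    apply Complex.normSq_pos.2
    intro h
    rw [h] at hL
    simp at hL
  rw [Complex.div_im]
  simp only [Complex.neg_im, Complex.neg_re, Complex.mul_im, Complex.mul_re, Complex.ofReal_re,
    Complex.ofReal_im, Complex.I_re, Complex.I_im, mul_zero, mul_one, zero_mul, sub_zero,
    add_zero, neg_zero, zero_div]
  have h2 : 0 < -Real.pi * L.re / Complex.normSq L := by
    apply div_pos _ hn
    nlinarith [Real.pi_pos]
  simpa using h2

theorem c4_J {L : ℂ} (hL : L.re < 0) : J (nome (-(Real.pi * I) / L)) = 1 - J (exp L) := by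
  have h1 : (Real.pi : ℂ) * I ≠ 0 :=
    mul_ne_zero (Complex.ofReal_ne_zero.2 Real.pi_ne_zero) Complex.I_ne_zero
  have hL0 : L ≠ 0 := by
    intro h
    rw [h] at hL
    simp at hL
  have h2 := J_inv (c4_im_tau hL)
  have h3 : nome (-1 / (-(Real.pi * I) / L)) = exp L := by
    unfold nome
    congr 1
    field_simp
  rw [h3] at h2
  linear_combination h2

theorem c4_strip {b : ℂ} {r : ℝ} {z : ℂ} (h1 : ‖z‖ < r)
    (h2 : |z.im| < b.im) : {z : ℂ | ‖z‖ < r ∧ |z.im| < b.im} ∈ 𝓝 z := by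
  apply IsOpen.mem_nhds
  · exact (isOpen_lt continuous_norm continuous_const).inter
      (isOpen_lt (continuous_abs.comp Complex.continuous_im) continuous_const)
  · exact ⟨h1, h2⟩

theorem c4_im_pos {b : ℂ} {r : ℝ} {f p : ℂ → ℂ} (h : Sol b r f) (hp : PLift b r f p) :
    ∃ ε > 0, ε ≤ r ∧ ε ≤ b.im ∧ ∀ z : ℂ, ‖z‖ < ε → 0 < z.im → 0 < (p z).im := by
  have hr : 0 < r := by linarith [h.one_lt]
  have hbi := h.b_im
  have hD : {z : ℂ | ‖z‖ < r ∧ |z.im| < b.im} ∈ 𝓝 (0:ℂ) :=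
    c4_strip (by simpa using hr) (by simpa using hbi)
  have ha : AnalyticAt ℂ p 0 := hp.diff.analyticAt hD
  have hs : HasStrictDerivAt p (deriv p 0) 0 := ha.hasStrictDerivAt
  obtain ⟨κ, hκ⟩ : ∃ κ : ℝ, κ = (deriv p 0).re := ⟨_, rfl⟩
  have hκ0 : 0 < κ := by rw [hκ]; exact hp.deriv_re
  have he : deriv p 0 = (κ : ℂ) := by
    apply Complex.ext
    · simp [hκ]
    · simp [hp.deriv_im]
  rw [he] at hs
  have hb := hs.hasStrictFDerivAt.isLittleO.def (c := κ / 2) (by positivity)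
  obtain ⟨ε, hε, H⟩ := Metric.eventually_nhds_iff.1 hb
  refine ⟨min ε (min r b.im), lt_min hε (lt_min hr hbi), ?_, ?_, ?_⟩
  · exact (min_le_right _ _).trans (min_le_left _ _)
  · exact (min_le_right _ _).trans (min_le_right _ _)
  intro z hz him
  have hz1 : ‖z‖ < ε := lt_of_lt_of_le hz (min_le_left _ _)
  have hz2 : ‖z‖ < r := lt_of_lt_of_le hz ((min_le_right _ _).trans (min_le_left _ _))
  have hre : |z.re| ≤ ‖z‖ := Complex.abs_re_le_norm z
  have hd : dist ((z, (z.re : ℂ)) : ℂ × ℂ) (0, 0) < ε := by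
    rw [Prod.dist_eq]
    apply max_lt
    · simpa [dist_eq_norm] using hz1
    · rw [dist_zero_right, Complex.norm_real]
      exact lt_of_le_of_lt hre hz1
  have H1 := H hd
  have hr0 : (p (z.re : ℂ)).im = 0 := by
    have := hp.real (z.re : ℂ) (by rw [Complex.norm_real]; exact lt_of_le_of_lt hre hz2)
      (by simpa using hbi)
    rw [Complex.conj_ofReal] at this
    have h2 := congrArg Complex.im this
    rw [Complex.conj_im] at h2
    linarith
  have e1 : z - (z.re : ℂ) = (z.im : ℂ) * I := by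
    apply Complex.ext <;> simp
  have H2 : ‖p z - p (z.re : ℂ) - (z - (z.re : ℂ)) * (κ : ℂ)‖ ≤ κ / 2 * ‖z - (z.re : ℂ)‖ := by
    simpa using H1
  rw [e1] at H2
  have H3 : ‖(z.im : ℂ) * I‖ = z.im := by
    rw [norm_mul, Complex.norm_I, mul_one, Complex.norm_real, Real.norm_of_nonneg him.le]
  rw [H3] at H2
  have H4 := (Complex.abs_im_le_norm _).trans H2
  have e2 : (p z - p (z.re : ℂ) - (z.im : ℂ) * I * (κ : ℂ)).im = (p z).im - z.im * κ := by
    simp [hr0]
  rw [e2] at H4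
  have H5 := (abs_le.1 H4).1
  nlinarith

theorem main_pos {b : ℂ} {r δ : ℝ} {f G p : ℂ → ℂ} (h : Sol b r f) (hG : GLift b r δ f G)
    (hp : PLift b r f p) (hm : ∀ x : ℝ, 0 < x → x < r → (G x).im = 0 ∧ 0 < (G x).re)
    {x : ℝ} (hx0 : 0 < x) (hxr : x < r) :
    ∃ ε > 0, ∃ τ : ℂ → ℂ, DifferentiableOn ℂ τ (ball (x : ℂ) ε) ∧
      (∀ z ∈ ball (x : ℂ) ε, G z = nome (τ z)) ∧
      (∀ u : ℝ, (u : ℂ) ∈ ball (x : ℂ) ε → (τ u).re = 0 ∧ 0 < (τ u).im) := by
  have hmem : (x : ℂ) ∈ Om2 r δ :=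
    real_mem_om2 hG.δ_pos hG.δ_lt hx0.ne' (by rw [abs_of_pos hx0]; exact hxr)
  have hGx := hm x hx0 hxr
  have hsl : G x ∈ slitPlane := Or.inl hGx.2
  have hdiff : ∀ z ∈ Om2 r δ, DifferentiableAt ℂ G z := fun z hz =>
    (hG.diff z hz).differentiableAt ((isOpen_om2 r δ).mem_nhds hz)
  have hc : ContinuousAt G x := (hdiff _ hmem).continuousAt
  have hev : ∀ᶠ z in 𝓝 (x : ℂ), z ∈ Om2 r δ ∧ G z ∈ slitPlane :=
    ((isOpen_om2 r δ).eventually_mem hmem).and (hc.eventually (isOpen_slitPlane.mem_nhds hsl))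
  obtain ⟨ε, hε, hball⟩ := Metric.eventually_nhds_iff_ball.1 hev
  have h1 : (Real.pi : ℂ) * I ≠ 0 :=
    mul_ne_zero (Complex.ofReal_ne_zero.2 Real.pi_ne_zero) Complex.I_ne_zero
  refine ⟨min ε (min x (r - x)), lt_min hε (lt_min hx0 (by linarith)),
    fun z => log (G z) / (Real.pi * I), ?_, ?_, ?_⟩
  · intro z hz
    have hz' := hball z (ball_subset_ball (min_le_left _ _) hz)
    exact (((hdiff z hz'.1).clog hz'.2).div_const _).differentiableWithinAt
  · intro z hz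
    have hz' := hball z (ball_subset_ball (min_le_left _ _) hz)
    exact (c4_nome_log (slitPlane_ne_zero hz'.2)).symm
  · intro u hu
    have hu1 : |u - x| < min ε (min x (r - x)) := by
      rw [mem_ball, dist_eq_norm, ← Complex.ofReal_sub, Complex.norm_real] at hu
      exact hu
    have hu2 : |u - x| < x := lt_of_lt_of_le hu1 ((min_le_right _ _).trans (min_le_left _ _))
    have hu3 : |u - x| < r - x :=
      lt_of_lt_of_le hu1 ((min_le_right _ _).trans (min_le_right _ _))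
    have hu4 := abs_lt.1 hu2
    have hu5 := abs_lt.1 hu3
    have hu0 : 0 < u := by linarith
    have hur : u < r := by linarith
    have hGu := hm u hu0 hur
    have hmu : (u : ℂ) ∈ Om2 r δ :=
      real_mem_om2 hG.δ_pos hG.δ_lt hu0.ne' (by rw [abs_of_pos hu0]; exact hur)
    have hlt := hG.lt_one _ hmu
    have eG : G u = ((G u).re : ℂ) := by
      apply Complex.ext <;> simp [hGu.1]
    have hlt2 : (G u).re < 1 := lt_of_le_of_lt (Complex.re_le_norm _) hlt
    have hL : Real.log (G u).re < 0 := Real.log_neg hGu.2 hlt2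
    have e3 : log (G u) / (Real.pi * I) = ((-Real.log (G u).re / Real.pi : ℝ) : ℂ) * I := by
      rw [← c4_real_div, Complex.ofReal_log hGu.2.le, ← eG]
    show (log (G u) / (Real.pi * I)).re = 0 ∧ 0 < (log (G u) / (Real.pi * I)).im
    rw [e3]
    refine ⟨by simp, ?_⟩
    have : 0 < -Real.log (G u).re / Real.pi := div_pos (by linarith) Real.pi_pos
    simpa using this

theorem c4_zero_real {b : ℂ} {r δ : ℝ} {f G p : ℂ → ℂ} (h : Sol b r f) (hG : GLift b r δ f G)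
    (hp : PLift b r f p) (hm : ∀ x : ℝ, 0 < x → x < r → (G x).im = 0 ∧ 0 < (G x).re)
    {x : ℝ} (hx0 : 0 < x) (hxr : x < r) :
    G x = nome (-(Real.pi * I) / log (p x)) := by
  have hmem : (x : ℂ) ∈ Om2 r δ :=
    real_mem_om2 hG.δ_pos hG.δ_lt hx0.ne' (by rw [abs_of_pos hx0]; exact hxr)
  have hn : ‖(x : ℂ)‖ < r := by
    rw [Complex.norm_real, Real.norm_of_nonneg hx0.le]
    exact hxr
  have hi : |(x : ℂ).im| < b.im := by simpa using h.b_im
  have hGx := hm x hx0 hxr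
  have hpx := hp.pos x hx0 hxr
  have hplt := hp.lt_one x hn hi
  have hlt := hG.lt_one _ hmem
  have eG : G x = ((G x).re : ℂ) := by
    apply Complex.ext <;> simp [hGx.1]
  have eP : p x = ((p x).re : ℂ) := by
    apply Complex.ext <;> simp [hpx.2]
  have hlt2 : (G x).re < 1 := lt_of_le_of_lt (Complex.re_le_norm _) hlt
  have hplt2 : (p x).re < 1 := lt_of_le_of_lt (Complex.re_le_norm _) hplt
  have hL : Real.log (p x).re < 0 := Real.log_neg hpx.1 hplt2
  have e3 : log (p x) = (Real.log (p x).re : ℂ) := by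
    rw [Complex.ofReal_log hpx.1.le, ← eP]
  have hLre : (log (p x)).re < 0 := by
    rw [e3]
    simpa using hL
  have hne : p x ≠ 0 := by
    intro h0
    rw [h0] at hpx
    simp at hpx
  have hJ : J (G x) = J (nome (-(Real.pi * I) / log (p x))) := by
    rw [c4_J hLre, exp_log hne, hG.lift _ hmem, hp.lift _ hn hi]
    ring
  have e4 : nome (-(Real.pi * I) / log (p x)) =
      ((Real.exp (Real.pi ^ 2 / Real.log (p x).re) : ℝ) : ℂ) := by
    rw [e3]
    unfold nome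
    rw [Complex.ofReal_exp]
    congr 1
    push_cast
    have h5 : ((Real.log (p x).re : ℝ) : ℂ) ≠ 0 := Complex.ofReal_ne_zero.2 hL.ne
    rw [mul_div_assoc', div_left_inj' h5]
    linear_combination (-(Real.pi : ℂ) ^ 2) * Complex.I_sq
  rw [e4] at hJ ⊢
  rw [eG] at hJ ⊢
  have h6 : Real.exp (Real.pi ^ 2 / Real.log (p x).re) < 1 := by
    rw [Real.exp_lt_one_iff]
    exact div_neg_of_pos_of_neg (by positivity) hL
  exact congrArg _ (J_inj_Ioo hGx.2 hlt2 (Real.exp_pos _) h6 hJ)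

theorem c4_real_eq {f g : ℂ → ℂ} {x : ℝ} (hf : AnalyticAt ℂ f x) (hg : AnalyticAt ℂ g x)
    (h : ∀ᶠ u : ℝ in 𝓝 x, f u = g u) : f =ᶠ[𝓝 (x : ℂ)] g := by
  apply (hf.frequently_eq_iff_eventually_eq hg).1
  have ht : Tendsto (fun u : ℝ => (u : ℂ)) (𝓝[≠] x) (𝓝[≠] (x : ℂ)) := by
    apply tendsto_nhdsWithin_iff.2
    refine ⟨(Complex.continuous_ofReal.tendsto x).mono_left nhdsWithin_le_nhds, ?_⟩
    filter_upwards [self_mem_nhdsWithin] with u hu
    intro h0
    exact hu (Complex.ofReal_injective h0)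
  exact ht.frequently (h.filter_mono nhdsWithin_le_nhds).frequently

theorem c4_up (x : ℝ) : Tendsto (fun t : ℝ => (x : ℂ) + t * I) (𝓝[>] 0) (𝓝[UH] (x : ℂ)) := by
  apply tendsto_nhdsWithin_iff.2
  refine ⟨?_, ?_⟩
  · have hc : Continuous fun t : ℝ => (x : ℂ) + t * I := by fun_prop
    have := hc.tendsto 0
    simp only [Complex.ofReal_zero, zero_mul, add_zero] at this
    exact this.mono_left nhdsWithin_le_nhds
  · filter_upwards [self_mem_nhdsWithin] with t ht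
    show 0 < ((x : ℂ) + t * I).im
    simpa using ht

theorem c4_up_eq {f g : ℂ → ℂ} {x : ℝ} (hf : AnalyticAt ℂ f x) (hg : AnalyticAt ℂ g x)
    (h : ∀ᶠ z in 𝓝[UH] (x : ℂ), f z = g z) : f =ᶠ[𝓝 (x : ℂ)] g := by
  apply (hf.frequently_eq_iff_eventually_eq hg).1
  have ht : Tendsto (fun t : ℝ => (x : ℂ) + t * I) (𝓝[>] 0) (𝓝[≠] (x : ℂ)) := by
    apply tendsto_nhdsWithin_iff.2
    refine ⟨(c4_up x).mono_right nhdsWithin_le_nhds, ?_⟩
    filter_upwards [self_mem_nhdsWithin] with t ht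
    intro h0
    have h1 := congrArg Complex.im h0
    simp at h1
    exact (ne_of_gt ht) h1
  exact ht.frequently ((c4_up x).eventually h).frequently

theorem c4_log_re {w : ℂ} (h0 : w ≠ 0) (h1 : ‖w‖ < 1) : (log w).re < 0 := by
  rw [Complex.log_re]
  exact Real.log_neg (norm_pos_iff.2 h0) h1

theorem c4_nome_an {l : ℂ → ℂ} {z : ℂ} (hl : AnalyticAt ℂ l z) (h0 : l z ≠ 0) :
    AnalyticAt ℂ (fun w => nome (-(Real.pi * I) / l w)) z := by
  unfold nome
  exact (analyticAt_const.mul (analyticAt_const.div hl h0)).cexp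

theorem main_zero {b : ℂ} {r δ : ℝ} {f G p : ℂ → ℂ} (h : Sol b r f) (hG : GLift b r δ f G)
    (hp : PLift b r f p) (hm : ∀ x : ℝ, 0 < x → x < r → (G x).im = 0 ∧ 0 < (G x).re) :
    ∃ ε > 0, ∀ z : ℂ, ‖z‖ < ε → 0 < z.im → 0 < (p z).im ∧ ‖p z‖ < 1 ∧
      G z = nome (-(Real.pi * I) / log (p z)) := by
  obtain ⟨ε, hε, hεr, hεb, him⟩ := c4_im_pos h hp
  refine ⟨ε, hε, ?_⟩
  have hstrip : ∀ z : ℂ, ‖z‖ < ε → ‖z‖ < r ∧ |z.im| < b.im := fun z hz =>
    ⟨lt_of_lt_of_le hz hεr, lt_of_le_of_lt (Complex.abs_im_le_norm z) (lt_of_lt_of_le hz hεb)⟩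
  have hpa : ∀ z : ℂ, ‖z‖ < ε → AnalyticAt ℂ p z := fun z hz =>
    hp.diff.analyticAt (c4_strip (hstrip z hz).1 (hstrip z hz).2)
  have hGa : ∀ z ∈ Om2 r δ, AnalyticAt ℂ G z := fun z hz =>
    hG.diff.analyticAt ((isOpen_om2 r δ).mem_nhds hz)
  have hFa : ∀ z : ℂ, ‖z‖ < ε → p z ∈ slitPlane →
      AnalyticAt ℂ (fun w => nome (-(Real.pi * I) / log (p w))) z := by
    intro z hz hsl
    apply c4_nome_an ((hpa z hz).clog hsl)
    intro h0
    have h1 := c4_log_re (slitPlane_ne_zero hsl) (hp.lt_one z (hstrip z hz).1 (hstrip z hz).2)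
    rw [h0] at h1
    simp at h1
  obtain ⟨x, hx⟩ : ∃ x : ℝ, x = ε / 2 := ⟨_, rfl⟩
  have hx0 : 0 < x := by rw [hx]; positivity
  have hxε : x < ε := by rw [hx]; linarith
  have hxr : x < r := lt_of_lt_of_le hxε hεr
  have hxn : ‖(x : ℂ)‖ < ε := by
    rw [Complex.norm_real, Real.norm_of_nonneg hx0.le]
    exact hxε
  have hmem : (x : ℂ) ∈ Om2 r δ :=
    real_mem_om2 hG.δ_pos hG.δ_lt hx0.ne' (by rw [abs_of_pos hx0]; exact hxr)
  have h1 : G =ᶠ[𝓝 (x : ℂ)] fun w => nome (-(Real.pi * I) / log (p w)) := by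
    apply c4_real_eq (hGa _ hmem) (hFa _ hxn (Or.inl (hp.pos x hx0 hxr).1))
    filter_upwards [isOpen_Ioo.mem_nhds (⟨hx0, hxr⟩ : x ∈ Ioo 0 r)] with u hu
    exact c4_zero_real h hG hp hm hu.1 hu.2
  have h2 : ∀ᶠ z in 𝓝 (x : ℂ), G =ᶠ[𝓝 z] fun w => nome (-(Real.pi * I) / log (p w)) :=
    h1.eventually_nhds
  have h3 : ∀ᶠ z in 𝓝 (x : ℂ), ‖z‖ < ε :=
    (isOpen_lt continuous_norm continuous_const).eventually_mem hxn
  have h4 : ∀ᶠ z in 𝓝[UH] (x : ℂ), (G =ᶠ[𝓝 z] fun w => nome (-(Real.pi * I) / log (p w))) ∧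
      ‖z‖ < ε ∧ z ∈ UH :=
    (h2.filter_mono nhdsWithin_le_nhds).and ((h3.filter_mono nhdsWithin_le_nhds).and
      self_mem_nhdsWithin)
  have h5 := (c4_up x).eventually h4
  obtain ⟨t, ht⟩ := h5.exists
  have hconv : Convex ℝ (ball (0 : ℂ) ε ∩ {z : ℂ | 0 < z.im}) :=
    (convex_ball 0 ε).inter (convex_halfSpace_im_gt 0)
  have hn : ∀ z : ℂ, z ∈ ball (0 : ℂ) ε ↔ ‖z‖ < ε := fun z => by
    rw [mem_ball, dist_zero_right]
  have hEq : EqOn G (fun w => nome (-(Real.pi * I) / log (p w)))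
      (ball (0 : ℂ) ε ∩ {z : ℂ | 0 < z.im}) := by
    have hA1 : AnalyticOnNhd ℂ G (ball (0 : ℂ) ε ∩ {z : ℂ | 0 < z.im}) := by
      intro z hz
      apply hGa z
      exact om_subset_om2 hG.δ_pos hG.δ_lt ⟨lt_of_lt_of_le ((hn z).1 hz.1) hεr, hz.2⟩
    have hA2 : AnalyticOnNhd ℂ (fun w => nome (-(Real.pi * I) / log (p w)))
        (ball (0 : ℂ) ε ∩ {z : ℂ | 0 < z.im}) := by
      intro z hz
      apply hFa z ((hn z).1 hz.1)
      exact Or.inr (him z ((hn z).1 hz.1) hz.2).ne'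
    exact hA1.eqOn_of_preconnected_of_eventuallyEq (z₀ := (x : ℂ) + t * I) hA2
      hconv.isPreconnected ⟨(hn _).2 ht.2.1, ht.2.2⟩ ht.1
  intro z hz hzi
  refine ⟨him z hz hzi, hp.lt_one z (hstrip z hz).1 (hstrip z hz).2, ?_⟩
  exact hEq ⟨(hn z).2 hz, hzi⟩

theorem c4_sig {L : ℝ} (hL : L < 0) : -(Real.pi * I) / ((L : ℂ) + Real.pi * I) ∈ Sig := by
  have hre : ((L : ℂ) + Real.pi * I).re < 0 := by simpa using hL
  have h0 : (L : ℂ) + Real.pi * I ≠ 0 := by
    intro h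
    rw [h] at hre
    simp at hre
  refine ⟨c4_im_tau hre, ?_⟩
  have e1 : -(Real.pi * I) / ((L : ℂ) + Real.pi * I) + 1 / 2 =
      (starRingEnd ℂ ((L : ℂ) + Real.pi * I) / ((L : ℂ) + Real.pi * I)) * (1 / 2) := by
    have e2 : starRingEnd ℂ ((L : ℂ) + Real.pi * I) = (L : ℂ) - Real.pi * I := by
      rw [map_add, map_mul, Complex.conj_ofReal, Complex.conj_ofReal, Complex.conj_I]
      ring
    rw [e2]
    field_simp
    ring
  rw [e1, norm_mul, norm_div, Complex.norm_conj, div_self (norm_ne_zero_iff.2 h0)]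
  norm_num

theorem main_neg {b : ℂ} {r δ : ℝ} {f G p : ℂ → ℂ} (h : Sol b r f) (hG : GLift b r δ f G)
    (hp : PLift b r f p) (hm : ∀ x : ℝ, 0 < x → x < r → (G x).im = 0 ∧ 0 < (G x).re)
    {x : ℝ} (hx0 : -r < x) (hxr : x < 0) :
    ∃ ε > 0, ∃ τ : ℂ → ℂ, DifferentiableOn ℂ τ (ball (x : ℂ) ε) ∧
      (∀ z ∈ ball (x : ℂ) ε, G z = nome (τ z)) ∧
      (∀ u : ℝ, (u : ℂ) ∈ ball (x : ℂ) ε → τ u ∈ Sig) := by
  obtain ⟨ε, hε, hz⟩ := main_zero h hG hp hm
  have hr : 0 < r := by linarith [h.one_lt]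
  have hGa : ∀ z ∈ Om2 r δ, AnalyticAt ℂ G z := fun z hz =>
    hG.diff.analyticAt ((isOpen_om2 r δ).mem_nhds hz)
  -- the real points of (-r, 0)
  have hu_n : ∀ u : ℝ, -r < u → u < 0 → ‖(u : ℂ)‖ < r ∧ |(u : ℂ).im| < b.im := by
    intro u h1 h2
    refine ⟨?_, by simpa using h.b_im⟩
    rw [Complex.norm_real, Real.norm_eq_abs, abs_of_neg h2]
    linarith
  have hpa : ∀ u : ℝ, -r < u → u < 0 → AnalyticAt ℂ p u := fun u h1 h2 =>
    hp.diff.analyticAt (c4_strip (hu_n u h1 h2).1 (hu_n u h1 h2).2)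
  have hsl : ∀ u : ℝ, -r < u → u < 0 → -p u ∈ slitPlane := fun u h1 h2 => by
    left
    have := (hp.neg u h1 h2).1
    rw [Complex.neg_re]
    linarith
  have hlog : ∀ u : ℝ, -r < u → u < 0 → ∃ L : ℝ, L < 0 ∧ log (-p u) = (L : ℂ) := by
    intro u h1 h2
    have h3 := hp.neg u h1 h2
    have h4 : -p u = ((-(p u).re : ℝ) : ℂ) := by
      apply Complex.ext
      · simp
      · simp [h3.2]
    refine ⟨Real.log (-(p u).re), ?_, ?_⟩
    · apply Real.log_neg (by linarith)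
      have h5 := hp.lt_one u (hu_n u h1 h2).1 (hu_n u h1 h2).2
      have h6 := Complex.re_le_norm (-p u)
      rw [norm_neg, Complex.neg_re] at h6
      linarith
    · rw [Complex.ofReal_log (by linarith [h3.1]), ← h4]
  have hne : ∀ u : ℝ, -r < u → u < 0 → log (-p u) + Real.pi * I ≠ 0 := by
    intro u h1 h2 h0
    obtain ⟨L, hL, e⟩ := hlog u h1 h2
    rw [e] at h0
    have := congrArg Complex.re h0
    simp at this
    linarith
  have hla : ∀ u : ℝ, -r < u → u < 0 →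
      AnalyticAt ℂ (fun z => log (-p z) + Real.pi * I) u := fun u h1 h2 =>
    ((hpa u h1 h2).neg.clog (hsl u h1 h2)).add analyticAt_const
  have hFa : ∀ u : ℝ, -r < u → u < 0 →
      AnalyticAt ℂ (fun z => nome (-(Real.pi * I) / (log (-p z) + Real.pi * I))) u :=
    fun u h1 h2 => c4_nome_an (hla u h1 h2) (hne u h1 h2)
  have hmem : ∀ u : ℝ, -r < u → u < 0 → (u : ℂ) ∈ Om2 r δ := fun u h1 h2 =>
    real_mem_om2 hG.δ_pos hG.δ_lt h2.ne (by rw [abs_of_neg h2]; linarith)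
  obtain ⟨x1, hx1⟩ : ∃ x1 : ℝ, x1 = -(min ε r) / 2 := ⟨_, rfl⟩
  have hmin : 0 < min ε r := lt_min hε hr
  have hx10 : x1 < 0 := by rw [hx1]; linarith
  have hx1r : -r < x1 := by
    have := min_le_right ε r
    rw [hx1]; linarith
  have hx1ε : ‖(x1 : ℂ)‖ < ε := by
    rw [Complex.norm_real, Real.norm_eq_abs, abs_of_neg hx10]
    have := min_le_left ε r
    rw [hx1]; linarith
  have h1 : G =ᶠ[𝓝 (x1 : ℂ)] fun z => nome (-(Real.pi * I) / (log (-p z) + Real.pi * I)) := by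
    apply c4_up_eq (hGa _ (hmem x1 hx1r hx10)) (hFa x1 hx1r hx10)
    have h3 : ∀ᶠ z in 𝓝[UH] (x1 : ℂ), ‖z‖ < ε :=
      ((isOpen_lt continuous_norm continuous_const).eventually_mem hx1ε).filter_mono
        nhdsWithin_le_nhds
    filter_upwards [h3, self_mem_nhdsWithin] with z hz1 hz2
    have h4 := hz z hz1 hz2
    have h5 : log (-p z) + Real.pi * I = log (p z) := by
      unfold Complex.log
      rw [norm_neg, Complex.arg_neg_eq_arg_sub_pi_of_im_pos h4.1]
      push_cast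
      ring
    rw [h5]
    exact h4.2.2
  have hEq : EqOn G (fun z => nome (-(Real.pi * I) / (log (-p z) + Real.pi * I)))
      ((fun u : ℝ => (u : ℂ)) '' Ioo (-r) 0) := by
    have hA1 : AnalyticOnNhd ℂ G ((fun u : ℝ => (u : ℂ)) '' Ioo (-r) 0) := by
      rintro _ ⟨u, hu, rfl⟩
      exact hGa _ (hmem u hu.1 hu.2)
    have hA2 : AnalyticOnNhd ℂ (fun z => nome (-(Real.pi * I) / (log (-p z) + Real.pi * I)))
        ((fun u : ℝ => (u : ℂ)) '' Ioo (-r) 0) := by
      rintro _ ⟨u, hu, rfl⟩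
      exact hFa u hu.1 hu.2
    exact hA1.eqOn_of_preconnected_of_eventuallyEq (z₀ := (x1 : ℂ)) hA2
      (isPreconnected_Ioo.image _ Complex.continuous_ofReal.continuousOn)
      ⟨x1, ⟨hx1r, hx10⟩, rfl⟩ h1
  have h2 : G =ᶠ[𝓝 (x : ℂ)] fun z => nome (-(Real.pi * I) / (log (-p z) + Real.pi * I)) := by
    apply c4_real_eq (hGa _ (hmem x hx0 hxr)) (hFa x hx0 hxr)
    filter_upwards [isOpen_Ioo.mem_nhds (⟨hx0, hxr⟩ : x ∈ Ioo (-r) 0)] with u hu
    exact hEq ⟨u, hu, rfl⟩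
  have h3 : ∀ᶠ z in 𝓝 (x : ℂ), AnalyticAt ℂ (fun z => log (-p z) + Real.pi * I) z :=
    (hla x hx0 hxr).eventually_analyticAt
  have h4 : ∀ᶠ z in 𝓝 (x : ℂ), log (-p z) + Real.pi * I ≠ 0 :=
    (hla x hx0 hxr).continuousAt.eventually_ne (hne x hx0 hxr)
  obtain ⟨ε', hε', hball⟩ := Metric.eventually_nhds_iff_ball.1 (h2.and (h3.and h4))
  refine ⟨min ε' (min (-x) (x + r)), lt_min hε' (lt_min (by linarith) (by linarith)),
    fun z => -(Real.pi * I) / (log (-p z) + Real.pi * I), ?_, ?_, ?_⟩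
  · intro z hz
    have hz' := hball z (ball_subset_ball (min_le_left _ _) hz)
    exact ((differentiableAt_const _).div hz'.2.1.differentiableAt
      hz'.2.2).differentiableWithinAt
  · intro z hz
    exact (hball z (ball_subset_ball (min_le_left _ _) hz)).1
  · intro u hu
    have hu1 : |u - x| < min ε' (min (-x) (x + r)) := by
      rw [mem_ball, dist_eq_norm, ← Complex.ofReal_sub, Complex.norm_real] at hu
      exact hu
    have hu4 := abs_lt.1 (lt_of_lt_of_le hu1 ((min_le_right _ _).trans (min_le_left _ _)))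
    have hu5 := abs_lt.1 (lt_of_lt_of_le hu1 ((min_le_right _ _).trans (min_le_right _ _)))
    obtain ⟨L, hL, e⟩ := hlog u (by linarith) (by linarith)
    show -(Real.pi * I) / (log (-p u) + Real.pi * I) ∈ Sig
    rw [e]
    exact c4_sig hL

end Pool.Agent.Choc
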