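import Mathlib

/-!
# The exact constant of the Belgian chocolate problem: definitions

`tau` is a point of the upper half plane, `nome tau = exp (pi i tau)` a point of the unit disc.
`V y` is the unit disc without the closed region `Bset` cut off by the geodesic from `-1` to `0`
(in the coordinate `tau`, modulo the translation by `2`) and without the slit
`{exp (- pi t) : 0 < t <= y}`.
-/

set_option autoImplicit false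

open Complex Set Filter Topology Metric

namespace Pool.Agent.Choc

noncomputable section

/-- Open upper half plane, as a set of complex numbers. -/
def UH : Set ℂ := {z | 0 < z.im}

/-- The nome `exp (pi i tau)`. -/
def nome (τ : ℂ) : ℂ := exp (Real.pi * I * τ)

/-- The geodesic from `-1` to `0`. -/
def Sig : Set ℂ := {τ | 0 < τ.im ∧ ‖τ + 1 / 2‖ = 1 / 2}

/-- The closed region below the geodesic from `-1` to `0`, in the nome coordinate. -/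
def Bset : Set ℂ := {q | ∃ τ : ℂ, 0 < τ.im ∧ ‖τ + 1 / 2‖ ≤ 1 / 2 ∧ nome τ = q}

/-- The geodesic from `-1` to `0`, in the nome coordinate. -/
def geo : Set ℂ := {q | ∃ τ : ℂ, 0 < τ.im ∧ ‖τ + 1 / 2‖ = 1 / 2 ∧ nome τ = q}

/-- The slit `{exp (- pi t) : 0 < t <= y}`. -/
def slit (y : ℝ) : Set ℂ := {q | ∃ t : ℝ, 0 < t ∧ t ≤ y ∧ nome (t * I) = q}

/-- The slit modular disc. -/
def V (y : ℝ) : Set ℂ := {q | ‖q‖ < 1 ∧ q ∉ Bset ∧ q ∉ slit y}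

/-- The open upper half of the unit circle. -/
def upperArc : Set ℂ := {q | ‖q‖ = 1 ∧ 0 < q.im}

/-- Harmonic measure of `(-∞, -1)` in the upper half plane. -/
def hA (v : ℂ) : ℝ := arg (v + 1) / Real.pi

/-- Harmonic measure of `(1, ∞)` in the upper half plane. -/
def hB (v : ℂ) : ℝ := 1 - arg (v - 1) / Real.pi

/-- The Joukowski map `-(z + 1/z)/2` from the upper half disc onto the upper half plane. -/
def jou (z : ℂ) : ℂ := -(z + z⁻¹) / 2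

/-- A pair of harmonic functions on `V y`: `h₁` is the harmonic measure of the slit, `h₂` that of
the geodesic. -/
structure HarmPair (y : ℝ) (h₁ h₂ : ℂ → ℝ) : Prop where
  harm₁ : InnerProductSpace.HarmonicOnNhd h₁ (V y)
  harm₂ : InnerProductSpace.HarmonicOnNhd h₂ (V y)
  bd₁ : ∀ q ∈ V y, 0 ≤ h₁ q ∧ h₁ q ≤ 1
  bd₂ : ∀ q ∈ V y, 0 ≤ h₂ q ∧ h₂ q ≤ 1
  slit₁ : ∀ ζ ∈ slit y, Tendsto h₁ (𝓝[V y] ζ) (𝓝 1)
  slit₂ : ∀ ζ ∈ slit y, Tendsto h₂ (𝓝[V y] ζ) (𝓝 0)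
  geo₁ : ∀ ζ ∈ geo, Tendsto h₁ (𝓝[V y] ζ) (𝓝 0)
  geo₂ : ∀ ζ ∈ geo, Tendsto h₂ (𝓝[V y] ζ) (𝓝 1)
  arc₁ : ∀ ζ ∈ upperArc, Tendsto h₁ (𝓝[V y] ζ) (𝓝 0)
  arc₂ : ∀ ζ ∈ upperArc, Tendsto h₂ (𝓝[V y] ζ) (𝓝 0)

/-- `ω₁`, `ω₂` are the harmonic measures at `0` of the slit and of the geodesic in `V y`. -/
def IsOmega (y ω₁ ω₂ : ℝ) : Prop := ∃ h₁ h₂ : ℂ → ℝ, HarmPair y h₁ h₂ ∧ h₁ 0 = ω₁ ∧ h₂ 0 = ω₂

/-- A solution of the interpolation problem with the simple zero `0` and the simple ones `b`,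
`conj b`, holomorphic in the disc of radius `r > 1`, normalised by a positive derivative at `0`. -/
structure Sol (b : ℂ) (r : ℝ) (f : ℂ → ℂ) : Prop where
  one_lt : 1 < r
  b_im : 0 < b.im
  b_norm : ‖b‖ < 1
  diff : DifferentiableOn ℂ f (ball 0 r)
  real : ∀ z ∈ ball (0 : ℂ) r, f (starRingEnd ℂ z) = starRingEnd ℂ (f z)
  zero : ∀ z ∈ ball (0 : ℂ) r, f z = 0 ↔ z = 0
  one : ∀ z ∈ ball (0 : ℂ) r, f z = 1 ↔ z = b ∨ z = starRingEnd ℂ b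
  deriv_zero : 0 < (deriv f 0).re
  deriv_b : deriv f b ≠ 0

/-- The pair `({0}, {b, conj b})` is realisable with positive derivative at `0`. -/
def Realp (b : ℂ) : Prop := ∃ (r : ℝ) (f : ℂ → ℂ), Sol b r f

/-- Open upper half disc of radius `r`. -/
def Om (r : ℝ) : Set ℂ := {z | ‖z‖ < r ∧ 0 < z.im}

/-- Open sector `- δ < arg z < π + δ` of the disc of radius `r` (for small `δ`). -/
def Om2 (r δ : ℝ) : Set ℂ :=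
  {z | ‖z‖ < r ∧ (0 < (z * exp (δ * I)).im ∨ 0 < (z * exp (-δ * I)).im)}

/-- The conformal map of the upper half plane onto `V y`, with all its boundary data:
`(-∞, -1)` is mapped to the two sides of the slit (the tip at `vc`), `(-1, 1)` to the upper half
circle, `(1, ∞)` to the geodesic, `∞` to the point `1` seen from the left of the slit. -/
structure Model (y : ℝ) (X : ℂ → ℂ) (v₀ : ℂ) (vc : ℝ) : Prop where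
  y_pos : 0 < y
  v0_im : 0 < v₀.im
  vc_lt : vc < -1
  diff : DifferentiableOn ℂ X UH
  inj : InjOn X UH
  deriv_ne : ∀ v ∈ UH, deriv X v ≠ 0
  img : X '' UH = V y
  zero : X v₀ = 0
  slit : ∀ x : ℝ, x < -1 → ∃ r > 0, ∃ τ : ℂ → ℂ, DifferentiableOn ℂ τ (ball (x : ℂ) r) ∧
    (∀ v ∈ ball (x : ℂ) r, 0 < v.im → X v = nome (τ v)) ∧
    (∀ u : ℝ, (u : ℂ) ∈ ball (x : ℂ) r → (τ u).re = 0 ∧ 0 < (τ u).im ∧ (τ u).im ≤ y) ∧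
    (x ≠ vc → deriv τ x ≠ 0) ∧
    (x = vc → deriv τ x = 0 ∧ deriv (deriv τ) x ≠ 0 ∧ τ x = y * I)
  arc : ∀ x : ℝ, 1 < x → ∃ r > 0, ∃ τ : ℂ → ℂ, DifferentiableOn ℂ τ (ball (x : ℂ) r) ∧
    (∀ v ∈ ball (x : ℂ) r, 0 < v.im → X v = nome (τ v)) ∧
    (∀ u : ℝ, (u : ℂ) ∈ ball (x : ℂ) r → τ u ∈ Sig) ∧
    ∃ κ : ℝ, 0 < κ ∧ deriv τ x = -(κ * I) * (τ x + 1 / 2)
  free : ∀ x : ℝ, -1 < x → x < 1 → ∃ r > 0, ∃ τ : ℂ → ℂ, DifferentiableOn ℂ τ (ball (x : ℂ) r) ∧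
    (∀ v ∈ ball (x : ℂ) r, 0 < v.im → X v = nome (τ v)) ∧
    (∀ u : ℝ, (u : ℂ) ∈ ball (x : ℂ) r → (τ u).im = 0) ∧
    0 < (nome (τ x)).im ∧ ∃ κ : ℝ, 0 < κ ∧ deriv τ x = κ
  negOne : ∃ r > 0, ∃ α : ℂ → ℂ, DifferentiableOn ℂ α (ball (-1 : ℂ) r) ∧ α (-1) = 0 ∧
    (∃ κ : ℝ, 0 < κ ∧ deriv α (-1) = κ) ∧
    (∀ v ∈ ball (-1 : ℂ) r, 0 < v.im → 0 < (α v).im ∧ X v = nome ((α v) ^ ((1 : ℂ) / 2)))
  posOne : ∃ r > 0, ∃ α : ℂ → ℂ, DifferentiableOn ℂ α (ball (1 : ℂ) r) ∧ α 1 = 0 ∧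
    (∃ κ : ℝ, 0 < κ ∧ deriv α 1 = κ) ∧
    (∀ v ∈ ball (1 : ℂ) r, 0 < v.im → 0 < (α v).im ∧
      X v = nome (-1 / (1 + I * (α v) ^ ((1 : ℂ) / 2))))
  infty : ∃ r > 0, ∃ p : ℂ → ℂ, DifferentiableOn ℂ p (ball (0 : ℂ) r) ∧ p 0 = 0 ∧
    (∃ κ : ℝ, 0 < κ ∧ deriv p 0 = κ) ∧ (∀ u : ℝ, |u| < r → (p u).im = 0) ∧
    (∀ v ∈ ball (0 : ℂ) r, 0 < v.im → 0 < (p v).im ∧ ‖p v‖ < 1 ∧
      X (-1 / v) = nome (-(Real.pi * I) / log (p v)))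

/-- The data of a competitor in the main class, in the coordinate of the upper half plane. -/
structure Lift (v₀ : ℂ) (g : ℂ → ℂ) : Prop where
  v0_im : 0 < v₀.im
  diff : DifferentiableOn ℂ g UH
  lt_one : ∀ v ∈ UH, ‖g v‖ < 1
  zero : ∀ v ∈ UH, g v = 0 ↔ v = v₀
  deriv_ne : deriv g v₀ ≠ 0
  slit : ∀ x : ℝ, x < -1 → ∃ r > 0, ∃ τ : ℂ → ℂ, DifferentiableOn ℂ τ (ball (x : ℂ) r) ∧
    (∀ v ∈ ball (x : ℂ) r, 0 < v.im → g v = nome (τ v)) ∧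
    (∀ u : ℝ, (u : ℂ) ∈ ball (x : ℂ) r → (τ u).re = 0 ∧ 0 < (τ u).im)
  arc : ∀ x : ℝ, 1 < x → ∃ r > 0, ∃ τ : ℂ → ℂ, DifferentiableOn ℂ τ (ball (x : ℂ) r) ∧
    (∀ v ∈ ball (x : ℂ) r, 0 < v.im → g v = nome (τ v)) ∧
    (∀ u : ℝ, (u : ℂ) ∈ ball (x : ℂ) r → τ u ∈ Sig)
  inner : ∀ x : ℝ, -1 ≤ x → x ≤ 1 → ∃ ℓ : ℂ, ℓ ≠ 0 ∧ ‖ℓ‖ < 1 ∧ Tendsto g (𝓝[UH] (x : ℂ)) (𝓝 ℓ)
  infty : ∃ r > 0, ∃ p : ℂ → ℂ, DifferentiableOn ℂ p (ball (0 : ℂ) r) ∧ p 0 = 0 ∧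
    (∃ κ : ℝ, 0 < κ ∧ deriv p 0 = κ) ∧ (∀ u : ℝ, |u| < r → (p u).im = 0) ∧
    (∀ v ∈ ball (0 : ℂ) r, 0 < v.im → 0 < (p v).im ∧ ‖p v‖ < 1 ∧
      g (-1 / v) = nome (-(Real.pi * I) / log (p v)))

/-- The conformal map onto `V y` before the local analysis at the boundary: `Θ` is the boundary
argument. -/
structure Pre (y : ℝ) (X : ℂ → ℂ) (v₀ : ℂ) (Θ : ℝ → ℝ) : Prop where
  y_pos : 0 < y
  v0_im : 0 < v₀.im
  diff : DifferentiableOn ℂ X UH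
  inj : InjOn X UH
  img : X '' UH = V y
  zero : X v₀ = 0
  cont : Continuous Θ
  left : ∀ x : ℝ, x ≤ -1 → Θ x = 0
  mid : ∀ x : ℝ, -1 < x → x < 1 → 0 < Θ x ∧ Θ x < Real.pi
  one : Θ 1 = Real.pi
  right : ∀ x : ℝ, 1 < x → Real.pi < Θ x ∧ Θ x < 2 * Real.pi
  lim : ∀ x : ℝ, Tendsto (fun v => X v / (‖X v‖ : ℂ)) (𝓝[UH] (x : ℂ)) (𝓝 (exp (Θ x * I)))
  lim_infty : Tendsto (fun u => X (-1 / u) / (‖X (-1 / u)‖ : ℂ)) (𝓝[UH] (0 : ℂ)) (𝓝 1)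
  esc : ∀ K : Set ℂ, IsCompact K → K ⊆ V y → ∀ x : ℝ, ∀ᶠ v in 𝓝[UH] (x : ℂ), X v ∉ K
  esc_infty : ∀ K : Set ℂ, IsCompact K → K ⊆ V y → ∀ᶠ u in 𝓝[UH] (0 : ℂ), X (-1 / u) ∉ K

/-! Theta functions. -/

/-- `sum over n in ℤ of q^(n^2)`. -/
def th (q : ℂ) : ℂ := ∑' n : ℤ, q ^ (n.natAbs ^ 2)

/-- The square root of the complementary modulus, `theta_4 / theta_3`. -/
def rho (q : ℂ) : ℂ := th (-q) / th q

/-- The complementary parameter `1 - lambda = (theta_4 / theta_3)^4`. -/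
def J (q : ℂ) : ℂ := rho q ^ 4

end

end Pool.Agent.Choc
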