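import Pool.Agent.Lib.MP_2b3e36_an.Ex.E8

/-!
E10. Local analysis at `-1`, `1` and infinity.

`pre_negOne`. Near `-1` `X/‖X‖` is near `1`; `τ = - i Log X/pi`, `Re τ` small, `0 < Im τ ≤ y + 1` (`esc_slit`).
`Im (τ^2) = 2 Re τ Im τ → 0` at the real points `u ≤ -1` (`Re τ → Θ u/pi = 0`, `Im τ` bounded) and at `u > -1`
near (`esc_upper`: `Im τ → 0`). `reflect` gives `α` extending `τ^2`, real on the reals; `α u = (Θ u/pi)^2` for
`u > -1`, so `α (-1) = 0` by continuity. `α` is not constant. `α v = a (v+1)^k + ...`, `a` real; for `u > -1`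
`α u > 0` so `a > 0`; `α u ≤ 0` for `u < -1` (`Re τ = 0` in the limit), so `k` is odd. As
`τ ∈ UH`, `arg τ ∈ (0,pi)` and `α = τ^2` with a continuous argument in `(0, 2pi)`; but `arg (v+1)` runs over
`(0, pi)` and `arg α` over an interval of length `k pi` (up to small errors): `k ≤ 2`. So `k = 1`:
`deriv α (-1) = a > 0`. Then, for a smaller ball, `Im α > 0` on the upper half (`α` real on the reals with
positive derivative), and `τ = α^(1/2)` (principal): `τ ∈ UH` and `τ^2 = α ∈ UH`, so `τ` is the root with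
positive imaginary part, which for `α ∈ UH` is the principal root.
(Simpler for `k`: at real `u > -1` `arg τ → 0`, at real `u < -1` near `-1` `α u < 0` (zeros are isolated) and
`τ → i |α u|^(1/2)`, `arg τ → pi/2`; so the continuous argument of `α = τ^2` increases by exactly `pi` along a
small half circle, and it increases by `k pi` because `α ~ a (v+1)^k`: `k = 1`.)
`pre_posOne`. Near `1` `X/‖X‖` is near `-1`; `τ = -1 - i Log (-X)/pi`, `nome τ = X`, `Re τ` near `-1`, and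
`X → -1` (`esc_upper` with `θ = pi`), so `τ → -1` as `v → 1`. `s = -1/τ`, `t = s - 1 → 0`, `Im t = Im s > 0`.
`α = - t^2`. At real `u < 1`: `Im τ → 0`, `τ`, `s`, `t` tend to real numbers; at `u > 1`: `τ → geoPt _ ∈ Sig` up to
the branch (`geoPt (Θ u - 2pi)` has real part near `-1`), `Re s = 1`, `t` tends to an imaginary number. So
`Im α → 0` at the real points (also at `1`, where `t → 0`). `reflect`; `α 1 = 0`; `α ≤ 0` for `u < 1`, `α ≥ 0`
for `u > 1`, so odd order; `t ∈ UH` gives order `1` as before; `deriv α 1 > 0`; `Im α > 0` above; `- t^2 = α`,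
`t = ± i α^(1/2)`, and `Im t > 0` with `Re α^(1/2) > 0` gives `t = i α^(1/2)`; `τ = -1/(1 + t)`.
`pre_infty`. Chart `v = -1/u`; `Z u = X (-1/u)` on a small upper half ball about `0`, `Z/‖Z‖` near `1`
(`lim_infty`); `τ = - i Log Z/pi`, `s = -1/τ`, `Im s > 0`, `p = nome s`, `‖p‖ < 1`. At real `u > 0` (`v < -1`,
large negative): `Z → ` a point with argument `0`, `0 < ` modulus; `Re τ → 0`. Here one has to know that
`τ` does not tend to `0`: by `pre_slit` at `-1/u`, `τ` extends with `Im τ > 0` on the reals; so `Re s → 0`,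
`p →` positive real. At real `u < 0` (`v > 1` large): by `pre_arc` `τ → ` a point of `Sig`, `Re s → 1`, `p →`
negative real. So `Im p → 0` at real `u ≠ 0`, `|p| < 1`: `reflect_except` gives the extension `p`, real on the
reals. `p 0 = 0`: `Θ` is continuous and tends to `2 pi` at `+∞`?: for `u → 0-`, `τ → geoPt (Θ(-1/u) - 2 pi)` and
`Θ (-1/u) → 2 pi` (from `lim_infty`: the boundary limits of `Z/‖Z‖` at real points near `0` are near `1`), so
`τ → 0` along real `u → 0-`, `s = 1 + i t`, `t → ∞`, `p → 0`. Order `k` of the zero of `p`: `p u > 0` for `u > 0`,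
`< 0` for `u < 0`: `k` odd, leading coefficient `> 0`. On the upper half ball `‖τ + 1/2‖ > 1/2` when
`Re τ < 0` (as `X ∉ Bset`), and trivially when `Re τ ≥ 0`; so `Re s < 1`; a continuous argument of `p` is
`pi Re s < pi`, it starts near `0` for `u > 0` (there `Re s = 0`) and near `pi k` for `arg u = pi`; so `k = 1`.
(Simpler: `Re s → 0` at real `u > 0` and `Re s → 1` at real `u < 0`, `pi Re s` is a continuous argument of `p`, and
`p ~ a u^k`: so `k pi = pi`.) `deriv p 0 > 0`, `Im p > 0` above (smaller ball), `log p = pi i s` (principal, as `Re s ∈ (0,1)`: `Im p > 0`,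
`Re s < 1` and `Re s > -1` by closeness), so `τ = -1/s = - pi i / log p`.
-/

set_option autoImplicit false

open Complex Set Filter Topology Metric

namespace Pool.Agent.Choc

lemma e10_sqrt_im {a : ℂ} (ha : 0 < a.im) : 0 < (a ^ ((1 : ℂ) / 2)).im ∧ 0 < (a ^ ((1 : ℂ) / 2)).re ∧
    (a ^ ((1 : ℂ) / 2)) ^ 2 = a := by
  have hp := Real.pi_pos
  have ha0 : a ≠ 0 := by intro h; rw [h] at ha; simp at ha
  have h1 : 0 < arg a := by
    have h2 : 0 ≤ arg a := Complex.arg_nonneg_iff.2 ha.le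
    rcases lt_or_eq_of_le h2 with h3 | h3
    · exact h3
    · exfalso
      have := (Complex.arg_eq_zero_iff.1 h3.symm).2
      rw [this] at ha
      exact lt_irrefl _ ha
  have h2 : arg a ≤ Real.pi := Complex.arg_le_pi a
  have e : a ^ ((1 : ℂ) / 2) = exp (((Real.log ‖a‖ / 2 : ℝ) : ℂ) + ((arg a / 2 : ℝ) : ℂ) * I) := by
    rw [Complex.cpow_def_of_ne_zero ha0]
    congr 1
    rw [Complex.log]
    push_cast
    ring
  have hre := Real.exp_pos (Real.log ‖a‖ / 2)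
  refine ⟨?_, ?_, ?_⟩
  · rw [e, Complex.exp_im]
    simp only [Complex.add_re, Complex.add_im, Complex.mul_re, Complex.mul_im, Complex.ofReal_re,
      Complex.ofReal_im, Complex.I_re, Complex.I_im, mul_zero, mul_one, sub_zero, add_zero, zero_add]
    exact mul_pos hre (Real.sin_pos_of_pos_of_lt_pi (by linarith) (by linarith))
  · have h3 : arg a < Real.pi := by
      rcases lt_or_eq_of_le h2 with h3 | h3
      · exact h3
      · exfalso
        have := (Complex.arg_eq_pi_iff.1 h3).2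
        rw [this] at ha
        exact lt_irrefl _ ha
    rw [e, Complex.exp_re]
    simp only [Complex.add_re, Complex.add_im, Complex.mul_re, Complex.mul_im, Complex.ofReal_re,
      Complex.ofReal_im, Complex.I_re, Complex.I_im, mul_zero, mul_one, sub_zero, add_zero, zero_add]
    exact mul_pos hre (Real.cos_pos_of_mem_Ioo ⟨by linarith, by linarith⟩)
  · rw [← Complex.cpow_nat_mul]
    norm_num

/-- The common part: an analytic function `α` near the real point `x`, real on the reals,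
positive at the right, with `α` avoiding a half line above. -/
lemma e10_order {x : ℝ} {α : ℂ → ℂ} (ha : AnalyticAt ℂ α x) (h0 : α x = 0)
    (hreal : ∀ᶠ u : ℝ in 𝓝 x, (α u).im = 0)
    (hpos : ∀ᶠ u : ℝ in 𝓝[>] x, 0 < (α u).re)
    (hav : (∀ᶠ v in 𝓝[UH] (x : ℂ), ∀ s : ℝ, 0 ≤ s → α v ≠ -(s : ℂ)) ∨
      ((∀ᶠ v in 𝓝[UH] (x : ℂ), ∀ s : ℝ, 0 ≤ s → α v ≠ (s : ℂ)) ∧
        ∀ᶠ u : ℝ in 𝓝[<] x, (α u).re ≤ 0)) :
    (∃ κ : ℝ, 0 < κ ∧ deriv α x = κ) ∧ ∀ᶠ v in 𝓝 (x : ℂ), 0 < v.im → 0 < (α v).im := by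
  have hp := Real.pi_pos
  have hofr : Tendsto (fun u : ℝ => (u : ℂ)) (𝓝 x) (𝓝 (x : ℂ)) := Complex.continuous_ofReal.tendsto x
  have hne : ¬ ∀ᶠ v in 𝓝 (x : ℂ), α v = 0 := by
    intro hall
    have h1 : ∀ᶠ u : ℝ in 𝓝[>] x, α u = 0 := nhdsWithin_le_nhds (hofr.eventually hall)
    obtain ⟨u, h2, h3⟩ := (h1.and hpos).exists
    rw [h2] at h3
    simp at h3
  obtain ⟨k, σ, ζ, κ, hk, hσ, hζa, hζ0, hκ, hζd, hF, hζr⟩ := e8_nf ha h0 hne hreal
  have hζr' : ∀ᶠ u : ℝ in 𝓝 x, (ζ u).im = 0 := hζr.mono fun u hu => hu.1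
  have hFr : ∀ᶠ u : ℝ in 𝓝 x, α u = σ * ζ u ^ k := hofr.eventually hF
  have hζof : ∀ u : ℝ, (ζ u).im = 0 → ζ u = (((ζ u).re : ℝ) : ℂ) := by
    intro u hu
    apply Complex.ext
    · simp
    · simp [hu]
  have hσ1 : σ = 1 := by
    rcases hσ with h | h
    · exact h
    · exfalso
      have hA : ∀ᶠ u : ℝ in 𝓝[>] x, α u = σ * ζ u ^ k := nhdsWithin_le_nhds hFr
      have hB : ∀ᶠ u : ℝ in 𝓝[>] x, (ζ u).im = 0 ∧ (x < u → 0 < (ζ u).re) ∧
          (u < x → (ζ u).re < 0) := nhdsWithin_le_nhds hζr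
      have hC : ∀ᶠ u : ℝ in 𝓝[>] x, x < u := self_mem_nhdsWithin
      obtain ⟨u, h1, h2, h3, h4⟩ := (hpos.and (hA.and (hB.and hC))).exists
      have h5 := h3.2.1 h4
      rw [h2, hζof u h3.1, ← Complex.ofReal_pow, ← Complex.ofReal_mul, Complex.ofReal_re, h] at h1
      have := pow_pos h5 k
      linarith
  have hk1' : (1 : ℝ) ≤ k := by exact_mod_cast hk
  have hk0 : (0 : ℝ) < k := by linarith
  have key : ∀ (φ s : ℝ), 0 < φ → φ < Real.pi → exp (((k * φ : ℝ) : ℂ) * I) = (s : ℂ) →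
      ∀ {P : ℂ → Prop}, (∀ᶠ v in 𝓝[UH] (x : ℂ), P v) →
        ∃ (ε : ℝ) (v : ℂ), 0 < ε ∧ P v ∧ α v = ((ε ^ k * s : ℝ) : ℂ) := by
    intro φ s h2 h3 h4 P hP
    obtain ⟨ε, ⟨v, hv, ⟨hPv, hFv⟩, hζv⟩, hε⟩ := ((e8_dir hζa hζ0 hζr' hκ hζd
      (hP.and (nhdsWithin_le_nhds hF)) h2 h3).and self_mem_nhdsWithin).exists
    refine ⟨ε, v, hε, hPv, ?_⟩
    have e : (k : ℂ) * (φ * I) = ((k * φ : ℝ) : ℂ) * I := by push_cast; ring
    rw [hζv, mul_pow, ← Complex.exp_nat_mul, e, h4, hσ1] at hFv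
    rw [hFv]; push_cast; ring
  have hk1 : k = 1 := by
    by_contra hk1
    have hk2 : 2 ≤ k := by omega
    have hk2' : (2 : ℝ) ≤ k := by exact_mod_cast hk2
    rcases hav with hav | ⟨hav, hneg⟩
    · obtain ⟨ε, v, hε, hPv, hαv⟩ := key (Real.pi / k) (-1) (by positivity) (by
        rw [div_lt_iff₀ hk0]; nlinarith) (by
          have e : (k : ℝ) * (Real.pi / k) = Real.pi := by field_simp
          rw [e, Complex.exp_pi_mul_I]; push_cast; ring) hav
      apply hPv (ε ^ k) (pow_nonneg hε.le k)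
      rw [hαv]; push_cast; ring
    · rcases Nat.lt_or_ge k 3 with h3 | h3
      · have hk22 : k = 2 := by omega
        have hA : ∀ᶠ u : ℝ in 𝓝[<] x, α u = σ * ζ u ^ k := nhdsWithin_le_nhds hFr
        have hB : ∀ᶠ u : ℝ in 𝓝[<] x, (ζ u).im = 0 ∧ (x < u → 0 < (ζ u).re) ∧
            (u < x → (ζ u).re < 0) := nhdsWithin_le_nhds hζr
        have hC : ∀ᶠ u : ℝ in 𝓝[<] x, u < x := self_mem_nhdsWithin
        obtain ⟨u, h1, h2, h3, h4⟩ := (hneg.and (hA.and (hB.and hC))).exists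
        have h5 := h3.2.2 h4
        rw [h2, hζof u h3.1, ← Complex.ofReal_pow, ← Complex.ofReal_mul, Complex.ofReal_re, hσ1,
          hk22] at h1
        nlinarith
      · have hk3'' : (3 : ℝ) ≤ k := by exact_mod_cast h3
        obtain ⟨ε, v, hε, hPv, hαv⟩ := key (2 * Real.pi / k) 1 (by positivity) (by
          rw [div_lt_iff₀ hk0]; nlinarith) (by
            have e : (k : ℝ) * (2 * Real.pi / k) = 2 * Real.pi := by field_simp
            rw [e]; push_cast; exact Complex.exp_two_pi_mul_I) hav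
        apply hPv (ε ^ k) (pow_nonneg hε.le k)
        rw [hαv]; push_cast; ring
  have hFζ : α =ᶠ[𝓝 (x : ℂ)] ζ := by
    filter_upwards [hF] with v hv
    rw [hv, hσ1, hk1]; simp
  refine ⟨⟨κ, hκ, by rw [hFζ.deriv_eq, hζd]⟩, ?_⟩
  filter_upwards [hFζ, e8_im_sign hζa hζr' hκ hζd] with v h1 h2 h3
  rw [h1]
  exact h2.1 h3

lemma e10_abs_lt {y : ℝ} {X : ℂ → ℂ} {v₀ : ℂ} {Θ : ℝ → ℝ} (h : Pre y X v₀ Θ) (x : ℝ) :
    ∀ᶠ u in 𝓝 x, |Θ u - Θ x| < Real.pi := by
  have := h.cont.continuousAt.tendsto (x := x) (ball_mem_nhds _ Real.pi_pos)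
  filter_upwards [this] with u hu
  rwa [mem_preimage, mem_ball_iff_norm, Real.norm_eq_abs] at hu

theorem pre_negOne {y : ℝ} {X : ℂ → ℂ} {v₀ : ℂ} {Θ : ℝ → ℝ} (h : Pre y X v₀ Θ) :
    ∃ r > 0, ∃ α : ℂ → ℂ, DifferentiableOn ℂ α (ball (-1 : ℂ) r) ∧ α (-1) = 0 ∧
    (∃ κ : ℝ, 0 < κ ∧ deriv α (-1) = κ) ∧
    (∀ v ∈ ball (-1 : ℂ) r, 0 < v.im → 0 < (α v).im ∧ X v = nome ((α v) ^ ((1 : ℂ) / 2))) := by
  have hp := Real.pi_pos
  have hcast : ((-1 : ℝ) : ℂ) = -1 := by push_cast; rfl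
  rw [← hcast]
  have hΘ1 : Θ (-1) = 0 := h.left _ le_rfl
  obtain ⟨r₁, hr₁, -, hd₁, hv₁⟩ := e8_lift (x := -1) (θ₀ := 0) one_pos
    (h.diff.mono inter_subset_right) (fun v hv => (e8_memV h hv.2).1)
    (by have := h.lim (-1); rwa [hΘ1] at this) one_pos
  have hc : ∀ᶠ u in 𝓝 (-1 : ℝ), |Θ u| < Real.pi ∧ u < 1 := by
    have h3 := e10_abs_lt h (-1)
    rw [hΘ1] at h3
    simp only [sub_zero] at h3
    exact h3.and (eventually_lt_nhds (by norm_num))
  obtain ⟨r₂, hr₂, hc⟩ := Metric.eventually_nhds_iff_ball.1 hc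
  set r := min r₁ r₂ with hr
  have hr0 : 0 < r := lt_min hr₁ hr₂
  have hsub : ball ((-1 : ℝ) : ℂ) r ⊆ ball ((-1 : ℝ) : ℂ) r₁ := ball_subset_ball (min_le_left _ _)
  set T : ℂ → ℂ := fun v => e4_lift 0 (X v) with hT
  have hlimR : ∀ u : ℝ, |u - (-1)| < r → -1 < u → Tendsto T (𝓝[UH] (u : ℂ))
      (𝓝 ((Θ u / Real.pi : ℝ) : ℂ)) := by
    intro u hu hu1
    obtain ⟨h3, h5⟩ := hc u (by
      rw [mem_ball_iff_norm, Real.norm_eq_abs]; exact lt_of_lt_of_le hu (min_le_right _ _))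
    obtain ⟨h6, h7⟩ := h.mid u hu1 h5
    have h8 := esc_upper h.y_pos (e8_esc h u) (fun K hK hKV => h.esc K hK hKV u) (h.lim u) h6 h7.le
    have h9 : Tendsto (fun v => ‖X v‖) (𝓝[UH] (u : ℂ)) (𝓝 1) := by
      have := h8.norm
      rwa [Complex.norm_exp_ofReal_mul_I] at this
    have := e8_lift_lim (θ₀ := 0) one_pos (h.lim u) (by simpa using h3) h9
    simpa using this
  have hlimL : ∀ u : ℝ, |u - (-1)| < r → u ≤ -1 → Tendsto (fun v => (T v).re) (𝓝[UH] (u : ℂ))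
      (𝓝 0) ∧ ∀ᶠ v in 𝓝[UH] (u : ℂ), |(T v).im| ≤ y + 1 := by
    intro u hu hu1
    have hl : Tendsto (fun v => X v / (‖X v‖ : ℂ)) (𝓝[UH] (u : ℂ)) (𝓝 (exp ((0 : ℝ) * I))) := by
      have := h.lim u; rwa [h.left u hu1] at this
    refine ⟨by simpa using e4_lift_tendsto (θ₀ := 0) hl (by simpa using hp), ?_⟩
    have hl' : Tendsto (fun v => X v / (‖X v‖ : ℂ)) (𝓝[UH] (u : ℂ)) (𝓝 1) := by simpa using hl
    have hη : 0 < Real.exp (-Real.pi * y) - Real.exp (-Real.pi * (y + 1)) := by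
      have : Real.exp (-Real.pi * (y + 1)) < Real.exp (-Real.pi * y) :=
        Real.exp_lt_exp.2 (by nlinarith)
      linarith
    have h2 := esc_slit h.y_pos (e8_esc h u) (fun K hK hKV => h.esc K hK hKV u) hl' _ hη
    filter_upwards [h2, self_mem_nhdsWithin] with v h3 h4
    have h5 : Real.exp (-Real.pi * (y + 1)) ≤ ‖X v‖ := by linarith
    have h6 : ‖X v‖ < 1 := (e8_memV h h4).1
    have h7 : 0 < ‖X v‖ := lt_of_lt_of_le (Real.exp_pos _) h5
    have h8 : (T v).im = -Real.log ‖X v‖ / Real.pi := e4_lift_im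
    have h9 : -Real.pi * (y + 1) ≤ Real.log ‖X v‖ := by
      rw [Real.le_log_iff_exp_le h7]; exact h5
    have h10 : Real.log ‖X v‖ < 0 := Real.log_neg h7 h6
    rw [h8, abs_of_pos (div_pos (by linarith) hp), div_le_iff₀ hp]
    linarith
  have him_sq : ∀ z : ℂ, (z ^ 2).im = 2 * (z.re * z.im) := by
    intro z; rw [sq, Complex.mul_im]; ring
  have hre_sq : ∀ z : ℂ, (z ^ 2).re = z.re ^ 2 - z.im ^ 2 := by
    intro z; rw [sq, Complex.mul_re]; ring
  have hTd : DifferentiableOn ℂ T (ball ((-1 : ℝ) : ℂ) r ∩ UH) :=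
    hd₁.mono (inter_subset_inter_left _ hsub)
  obtain ⟨α, hαd, hαe, hαr⟩ := reflect (x := -1) hr0 (h := fun v => T v ^ 2)
    (hTd.pow 2) (fun u hu => by
      rcases le_or_gt u (-1) with hu1 | hu1
      · obtain ⟨h2, h3⟩ := hlimL u hu hu1
        have h4 : Tendsto (fun v => (T v).re * (T v).im) (𝓝[UH] (u : ℂ)) (𝓝 0) := by
          have hb : IsBoundedUnder (· ≤ ·) (𝓝[UH] (u : ℂ)) (norm ∘ fun v => (T v).im) :=
            ⟨y + 1, by simpa using h3⟩
          exact h2.zero_mul_isBoundedUnder_le hb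
        have h5 := h4.const_mul 2
        rw [mul_zero] at h5
        refine h5.congr fun v => ?_
        rw [him_sq]
      · have h2 := (hlimR u hu hu1).pow 2
        have h3 := (Complex.continuous_im.tendsto _).comp h2
        rw [← Complex.ofReal_pow, Complex.ofReal_im] at h3
        exact h3)
  have hmem : ball ((-1 : ℝ) : ℂ) r ∈ 𝓝 ((-1 : ℝ) : ℂ) := ball_mem_nhds _ hr0
  have hαa : AnalyticAt ℂ α ((-1 : ℝ) : ℂ) := hαd.analyticAt hmem
  have hnear : ∀ᶠ u : ℝ in 𝓝 (-1 : ℝ), |u - (-1)| < r := by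
    have := ball_mem_nhds (-1 : ℝ) hr0
    filter_upwards [this] with u hu
    rwa [mem_ball_iff_norm, Real.norm_eq_abs] at hu
  have hright : ∀ u : ℝ, |u - (-1)| < r → -1 < u → α u = (((Θ u / Real.pi) ^ 2 : ℝ) : ℂ) := by
    intro u hu hu1
    have := e8_value hαd hu hαe ((hlimR u hu hu1).pow 2)
    rw [this]; push_cast; rfl
  have hleft : ∀ u : ℝ, |u - (-1)| < r → u ≤ -1 → (α u).re ≤ 0 := by
    intro u hu hu1
    have hnb := e8_neBot u
    obtain ⟨h2, h3⟩ := hlimL u hu hu1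
    have hmem' : ball ((-1 : ℝ) : ℂ) r ∈ 𝓝 (u : ℂ) := isOpen_ball.mem_nhds (e8_mem_ball.2 hu)
    have h4 : Tendsto (fun v => (α v).re) (𝓝[UH] (u : ℂ)) (𝓝 (α u).re) :=
      ((Complex.continuous_re.tendsto _).comp
        (hαd.differentiableAt hmem').continuousAt.tendsto).mono_left nhdsWithin_le_nhds
    have h5 : Tendsto (fun v => (T v).re ^ 2) (𝓝[UH] (u : ℂ)) (𝓝 (0 ^ 2)) := h2.pow 2
    have h6 : (α u).re ≤ 0 ^ 2 := by
      refine le_of_tendsto_of_tendsto h4 h5 ?_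
      filter_upwards [self_mem_nhdsWithin, nhdsWithin_le_nhds hmem'] with v h7 h8
      rw [hαe v h8 h7, hre_sq]
      nlinarith [sq_nonneg (T v).im]
    simpa using h6
  have hx0 : |(-1 : ℝ) - (-1)| < r := by simpa using hr0
  have hpos : ∀ᶠ u : ℝ in 𝓝[>] (-1 : ℝ), 0 < (α u).re := by
    filter_upwards [self_mem_nhdsWithin, nhdsWithin_le_nhds hnear, nhdsWithin_le_nhds
      (eventually_lt_nhds (show (-1 : ℝ) < 1 by norm_num))] with u h2 h3 h4
    rw [hright u h3 h2, Complex.ofReal_re]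
    have := (h.mid u h2 h4).1
    positivity
  have hα0 : α ((-1 : ℝ) : ℂ) = 0 := by
    apply Complex.ext
    · apply le_antisymm (hleft _ hx0 le_rfl)
      have h4 : Tendsto (fun u : ℝ => (α u).re) (𝓝[>] (-1 : ℝ)) (𝓝 (α ((-1 : ℝ) : ℂ)).re) := by
        have h5 : Tendsto (fun u : ℝ => α u) (𝓝 (-1 : ℝ)) (𝓝 (α ((-1 : ℝ) : ℂ))) :=
          hαa.continuousAt.tendsto.comp (Complex.continuous_ofReal.tendsto _)
        exact ((Complex.continuous_re.tendsto _).comp h5).mono_left nhdsWithin_le_nhds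
      exact ge_of_tendsto h4 (hpos.mono fun u hu => hu.le)
    · exact hαr _ hx0
  have hTup : ∀ v ∈ ball ((-1 : ℝ) : ℂ) r, 0 < v.im → 0 < (T v).im := fun v hv hv0 =>
    (hv₁ v (hsub hv) hv0).2.2.1
  obtain ⟨hder, hup⟩ := e10_order hαa hα0 (hnear.mono fun u hu => hαr u hu) hpos (Or.inr ⟨by
    filter_upwards [self_mem_nhdsWithin, nhdsWithin_le_nhds hmem] with v h2 h3 s hs hs'
    rw [hαe v h3 h2] at hs'
    have h4 := hTup v h3 h2
    have h5 := congrArg Complex.im hs'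
    have h6 := congrArg Complex.re hs'
    rw [him_sq, Complex.ofReal_im] at h5
    rw [hre_sq, Complex.ofReal_re] at h6
    have h7 : (T v).re = 0 := by
      rcases mul_eq_zero.1 (show (T v).re * (T v).im = 0 by linarith) with h | h
      · exact h
      · exact absurd h h4.ne'
    rw [h7] at h6
    nlinarith, by
    filter_upwards [self_mem_nhdsWithin, nhdsWithin_le_nhds hnear] with u h2 h3
    exact hleft u h3 (le_of_lt h2)⟩)
  obtain ⟨r₃, hr₃, hup⟩ := Metric.eventually_nhds_iff_ball.1 hup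
  refine ⟨min r r₃, lt_min hr0 hr₃, α, hαd.mono (ball_subset_ball (min_le_left _ _)), hα0, hder, ?_⟩
  intro v hv hv0
  have hvr : v ∈ ball ((-1 : ℝ) : ℂ) r := ball_subset_ball (min_le_left _ _) hv
  have hα1 := hup v (ball_subset_ball (min_le_right _ _) hv) hv0
  refine ⟨hα1, ?_⟩
  obtain ⟨h2, h3, h4⟩ := e10_sqrt_im hα1
  have h5 : T v ^ 2 = ((α v) ^ ((1 : ℂ) / 2)) ^ 2 := by rw [h4, hαe v hvr hv0]
  have h6 : T v = (α v) ^ ((1 : ℂ) / 2) := by
    rcases sq_eq_sq_iff_eq_or_eq_neg.1 h5 with h7 | h7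
    · exact h7
    · exfalso
      have h8 := hTup v hvr hv0
      rw [h7, Complex.neg_im] at h8
      linarith
  rw [← h6]
  exact (hv₁ v (hsub hvr) hv0).2.1.symm

theorem pre_posOne {y : ℝ} {X : ℂ → ℂ} {v₀ : ℂ} {Θ : ℝ → ℝ} (h : Pre y X v₀ Θ) :
    ∃ r > 0, ∃ α : ℂ → ℂ, DifferentiableOn ℂ α (ball (1 : ℂ) r) ∧ α 1 = 0 ∧
    (∃ κ : ℝ, 0 < κ ∧ deriv α 1 = κ) ∧
    (∀ v ∈ ball (1 : ℂ) r, 0 < v.im → 0 < (α v).im ∧
      X v = nome (-1 / (1 + I * (α v) ^ ((1 : ℂ) / 2)))) := by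
  have hp := Real.pi_pos
  have hcast : ((1 : ℝ) : ℂ) = 1 := by push_cast; rfl
  suffices hS : ∃ r > 0, ∃ α : ℂ → ℂ, DifferentiableOn ℂ α (ball ((1 : ℝ) : ℂ) r) ∧
      α ((1 : ℝ) : ℂ) = 0 ∧ (∃ κ : ℝ, 0 < κ ∧ deriv α ((1 : ℝ) : ℂ) = κ) ∧
      (∀ v ∈ ball ((1 : ℝ) : ℂ) r, 0 < v.im → 0 < (α v).im ∧
        X v = nome (-1 / (1 + I * (α v) ^ ((1 : ℂ) / 2)))) by
    rw [hcast] at hS
    exact hS
  have hΘ1 : Θ 1 = Real.pi := h.one
  have hexp : ∀ u : ℝ, exp ((Θ u - 2 * Real.pi : ℝ) * I) = exp (Θ u * I) := by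
    intro u
    push_cast
    rw [sub_mul, Complex.exp_sub, Complex.exp_two_pi_mul_I, div_one]
  have hlimX : ∀ u : ℝ, Tendsto (fun a => X a / (‖X a‖ : ℂ)) (𝓝[UH] (u : ℂ))
      (𝓝 (exp ((Θ u - 2 * Real.pi : ℝ) * I))) := by
    intro u; rw [hexp]; exact h.lim u
  obtain ⟨r₁, hr₁, -, hd₁, hv₁⟩ := e8_lift (x := 1) (θ₀ := Θ 1 - 2 * Real.pi) one_pos
    (h.diff.mono inter_subset_right) (fun v hv => (e8_memV h hv.2).1) (hlimX 1) one_pos
  have hc : ∀ᶠ u in 𝓝 (1 : ℝ), |Θ u - Θ 1| < Real.pi ∧ -1 < u :=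
    (e10_abs_lt h 1).and (eventually_gt_nhds (by norm_num))
  obtain ⟨r₂, hr₂, hc⟩ := Metric.eventually_nhds_iff_ball.1 hc
  set r := min r₁ r₂ with hr
  have hr0 : 0 < r := lt_min hr₁ hr₂
  have hsub : ball ((1 : ℝ) : ℂ) r ⊆ ball ((1 : ℝ) : ℂ) r₁ := ball_subset_ball (min_le_left _ _)
  set T : ℂ → ℂ := fun v => e4_lift (Θ 1 - 2 * Real.pi) (X v) with hT
  have hlimT : ∀ u : ℝ, |u - 1| < r → ∀ R : ℝ, 0 < R →
      Tendsto (fun v => ‖X v‖) (𝓝[UH] (u : ℂ)) (𝓝 R) → Tendsto T (𝓝[UH] (u : ℂ))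
        (𝓝 ((((Θ u - 2 * Real.pi) / Real.pi : ℝ) : ℂ) + ((-Real.log R / Real.pi : ℝ) : ℂ) * I)) := by
    intro u hu R hR hX
    obtain ⟨h3, h4⟩ := hc u (by
      rw [mem_ball_iff_norm, Real.norm_eq_abs]; exact lt_of_lt_of_le hu (min_le_right _ _))
    exact e8_lift_lim (θ₀ := Θ 1 - 2 * Real.pi) hR (hlimX u) (by
      have e : Θ u - 2 * Real.pi - (Θ 1 - 2 * Real.pi) = Θ u - Θ 1 := by ring
      rw [e]; exact h3) hX
  -- left of 1 and at 1
  have hlimL : ∀ u : ℝ, |u - 1| < r → u ≤ 1 → Tendsto T (𝓝[UH] (u : ℂ))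
      (𝓝 (((Θ u - 2 * Real.pi) / Real.pi : ℝ) : ℂ)) ∧ Θ u - 2 * Real.pi < 0 := by
    intro u hu hu1
    obtain ⟨h3, h4⟩ := hc u (by
      rw [mem_ball_iff_norm, Real.norm_eq_abs]; exact lt_of_lt_of_le hu (min_le_right _ _))
    have h6 : 0 < Θ u ∧ Θ u ≤ Real.pi := by
      rcases eq_or_lt_of_le hu1 with h5 | h5
      · rw [h5, hΘ1]; exact ⟨hp, le_rfl⟩
      · exact ⟨(h.mid u h4 h5).1, (h.mid u h4 h5).2.le⟩
    have h8 := esc_upper h.y_pos (e8_esc h u) (fun K hK hKV => h.esc K hK hKV u) (h.lim u) h6.1 h6.2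
    have h9 : Tendsto (fun v => ‖X v‖) (𝓝[UH] (u : ℂ)) (𝓝 1) := by
      have := h8.norm
      rwa [Complex.norm_exp_ofReal_mul_I] at this
    have h10 := hlimT u hu 1 one_pos h9
    refine ⟨by simpa using h10, by linarith [h6.2]⟩
  have hlimR : ∀ u : ℝ, |u - 1| < r → 1 < u → Tendsto T (𝓝[UH] (u : ℂ))
      (𝓝 (geoPt (Θ u - 2 * Real.pi))) ∧ geoPt (Θ u - 2 * Real.pi) ∈ Sig := by
    intro u hu hu1
    obtain ⟨h6, h7⟩ := h.right u hu1
    have h8 := esc_geo h.y_pos (e8_esc h u) (fun K hK hKV => h.esc K hK hKV u) (hlimX u)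
      (by linarith) (by linarith)
    have h9 := h8.norm
    rw [e4_norm_nome] at h9
    have h10 := hlimT u hu _ (Real.exp_pos _) h9
    refine ⟨?_, geoPt_mem (by linarith) (by linarith)⟩
    have e : (((Θ u - 2 * Real.pi) / Real.pi : ℝ) : ℂ) + ((-Real.log (Real.exp (-Real.pi *
        (geoPt (Θ u - 2 * Real.pi)).im)) / Real.pi : ℝ) : ℂ) * I = geoPt (Θ u - 2 * Real.pi) := by
      rw [Real.log_exp, ← e4_geoPt_re]
      have : -(-Real.pi * (geoPt (Θ u - 2 * Real.pi)).im) / Real.pi =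
          (geoPt (Θ u - 2 * Real.pi)).im := by field_simp
      rw [this]
      exact Complex.re_add_im _
    rwa [e] at h10
  have hTup : ∀ v ∈ ball ((1 : ℝ) : ℂ) r, 0 < v.im → 0 < (T v).im := fun v hv hv0 =>
    (hv₁ v (hsub hv) hv0).2.2.1
  have hT0 : ∀ v ∈ ball ((1 : ℝ) : ℂ) r, 0 < v.im → T v ≠ 0 := by
    intro v hv hv0 h0
    have := hTup v hv hv0
    rw [h0] at this; simp at this
  set t : ℂ → ℂ := fun v => -1 / T v - 1 with ht
  have htim : ∀ v ∈ ball ((1 : ℝ) : ℂ) r, 0 < v.im → 0 < (t v).im := by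
    intro v hv hv0
    have h2 := hTup v hv hv0
    have h3 : 0 < Complex.normSq (T v) := Complex.normSq_pos.2 (hT0 v hv hv0)
    show 0 < (-1 / T v - 1).im
    rw [Complex.sub_im, Complex.one_im, sub_zero, neg_div, Complex.neg_im, one_div, Complex.inv_im]
    rw [neg_div, neg_neg]
    exact div_pos h2 h3
  have hTd : DifferentiableOn ℂ T (ball ((1 : ℝ) : ℂ) r ∩ UH) :=
    hd₁.mono (inter_subset_inter_left _ hsub)
  have htd : DifferentiableOn ℂ t (ball ((1 : ℝ) : ℂ) r ∩ UH) := by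
    intro v hv
    exact ((differentiableWithinAt_const _).div (hTd v hv) (hT0 v hv.1 hv.2)).sub_const 1
  have him_sq : ∀ z : ℂ, (-z ^ 2).im = -(2 * (z.re * z.im)) := by
    intro z; rw [Complex.neg_im, sq, Complex.mul_im]; ring
  have hre_sq : ∀ z : ℂ, (-z ^ 2).re = z.im ^ 2 - z.re ^ 2 := by
    intro z; rw [Complex.neg_re, sq, Complex.mul_re]; ring
  have hltL : ∀ u : ℝ, |u - 1| < r → u ≤ 1 → Tendsto (fun v => -(t v) ^ 2) (𝓝[UH] (u : ℂ))
      (𝓝 ((-(-1 / ((Θ u - 2 * Real.pi) / Real.pi) - 1) ^ 2 : ℝ) : ℂ)) := by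
    intro u hu hu1
    obtain ⟨h2, h3⟩ := hlimL u hu hu1
    have h4 : (((Θ u - 2 * Real.pi) / Real.pi : ℝ) : ℂ) ≠ 0 := by
      have : (Θ u - 2 * Real.pi) / Real.pi < 0 := div_neg_of_neg_of_pos h3 hp
      exact_mod_cast this.ne
    have h5 : Tendsto (fun v => -(t v) ^ 2) (𝓝[UH] (u : ℂ))
        (𝓝 (-(-1 / (((Θ u - 2 * Real.pi) / Real.pi : ℝ) : ℂ) - 1) ^ 2)) :=
      (((tendsto_const_nhds.div h2 h4).sub_const 1).pow 2).neg
    convert h5 using 2
    push_cast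
    rfl
  have hltR : ∀ u : ℝ, |u - 1| < r → 1 < u → ∃ b : ℝ, 0 < b ∧
      Tendsto (fun v => -(t v) ^ 2) (𝓝[UH] (u : ℂ)) (𝓝 ((b ^ 2 : ℝ) : ℂ)) := by
    intro u hu hu1
    obtain ⟨h2, h3⟩ := hlimR u hu hu1
    set g := geoPt (Θ u - 2 * Real.pi) with hg
    have hg0 : g ≠ 0 := by
      intro h0
      have := h3.1
      rw [h0] at this; simp at this
    have h6 : 0 < Complex.normSq g := Complex.normSq_pos.2 hg0
    have h4 : Complex.normSq g = -g.re := by
      have h5 : Complex.normSq (g + 1 / 2) = 1 / 4 := by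
        rw [Complex.normSq_eq_norm_sq, h3.2]; norm_num
      rw [e8_normSq_add_half] at h5
      linarith
    have h7 : Tendsto (fun v => -(t v) ^ 2) (𝓝[UH] (u : ℂ)) (𝓝 (-(-1 / g - 1) ^ 2)) :=
      (((tendsto_const_nhds.div h2 hg0).sub_const 1).pow 2).neg
    refine ⟨g.im / Complex.normSq g, div_pos h3.1 h6, ?_⟩
    have e : -1 / g - 1 = ((g.im / Complex.normSq g : ℝ) : ℂ) * I := by
      apply Complex.ext
      · rw [Complex.sub_re, Complex.one_re, neg_div, Complex.neg_re, one_div, Complex.inv_re, h4,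
          Complex.re_ofReal_mul, Complex.I_re, mul_zero]
        have : g.re ≠ 0 := by rw [h4] at h6; linarith
        field_simp
        ring
      · rw [Complex.sub_im, Complex.one_im, neg_div, Complex.neg_im, one_div, Complex.inv_im,
          Complex.im_ofReal_mul, Complex.I_im]
        ring
    rw [e] at h7
    convert h7 using 2
    rw [mul_pow, Complex.I_sq]
    push_cast
    ring
  obtain ⟨α, hαd, hαe, hαr⟩ := reflect (x := 1) hr0 (h := fun v => -(t v) ^ 2)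
    ((htd.pow 2).neg) (fun u hu => by
      rcases le_or_gt u 1 with hu1 | hu1
      · have h3 := (Complex.continuous_im.tendsto _).comp (hltL u hu hu1)
        rw [Complex.ofReal_im] at h3
        exact h3
      · obtain ⟨b, hb, h2⟩ := hltR u hu hu1
        have h3 := (Complex.continuous_im.tendsto _).comp h2
        rw [Complex.ofReal_im] at h3
        exact h3)
  have hmem : ball ((1 : ℝ) : ℂ) r ∈ 𝓝 ((1 : ℝ) : ℂ) := ball_mem_nhds _ hr0
  have hαa : AnalyticAt ℂ α ((1 : ℝ) : ℂ) := hαd.analyticAt hmem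
  have hnear : ∀ᶠ u : ℝ in 𝓝 (1 : ℝ), |u - 1| < r := by
    have := ball_mem_nhds (1 : ℝ) hr0
    filter_upwards [this] with u hu
    rwa [mem_ball_iff_norm, Real.norm_eq_abs] at hu
  have hx0 : |(1 : ℝ) - 1| < r := by simpa using hr0
  have hpos : ∀ᶠ u : ℝ in 𝓝[>] (1 : ℝ), 0 < (α u).re := by
    filter_upwards [self_mem_nhdsWithin, nhdsWithin_le_nhds hnear] with u h2 h3
    obtain ⟨b, hb, h4⟩ := hltR u h3 h2
    rw [e8_value hαd h3 hαe h4, Complex.ofReal_re]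
    positivity
  have hα0 : α ((1 : ℝ) : ℂ) = 0 := by
    rw [e8_value hαd hx0 hαe (hltL 1 hx0 le_rfl), hΘ1]
    have : (-1 : ℝ) / ((Real.pi - 2 * Real.pi) / Real.pi) - 1 = 0 := by
      have : (Real.pi - 2 * Real.pi) / Real.pi = -1 := by field_simp; ring
      rw [this]; norm_num
    rw [this]
    simp
  obtain ⟨hder, hup⟩ := e10_order hαa hα0 (hnear.mono fun u hu => hαr u hu) hpos (Or.inl (by
    filter_upwards [self_mem_nhdsWithin, nhdsWithin_le_nhds hmem] with v h2 h3 s hs hs'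
    rw [hαe v h3 h2] at hs'
    have h4 := htim v h3 h2
    have h5 := congrArg Complex.im hs'
    have h6 := congrArg Complex.re hs'
    rw [him_sq, Complex.neg_im, Complex.ofReal_im] at h5
    rw [hre_sq, Complex.neg_re, Complex.ofReal_re] at h6
    have h7 : (t v).re = 0 := by
      rcases mul_eq_zero.1 (show (t v).re * (t v).im = 0 by linarith) with h | h
      · exact h
      · exact absurd h h4.ne'
    rw [h7] at h6
    nlinarith))
  obtain ⟨r₃, hr₃, hup⟩ := Metric.eventually_nhds_iff_ball.1 hup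
  refine ⟨min r r₃, lt_min hr0 hr₃, α, hαd.mono (ball_subset_ball (min_le_left _ _)), hα0, hder, ?_⟩
  intro v hv hv0
  have hvr : v ∈ ball ((1 : ℝ) : ℂ) r := ball_subset_ball (min_le_left _ _) hv
  have hα1 := hup v (ball_subset_ball (min_le_right _ _) hv) hv0
  refine ⟨hα1, ?_⟩
  obtain ⟨h2, h3, h4⟩ := e10_sqrt_im hα1
  have h5 : (t v) ^ 2 = (I * (α v) ^ ((1 : ℂ) / 2)) ^ 2 := by
    rw [mul_pow, h4, Complex.I_sq, hαe v hvr hv0]; ring
  have h6 : t v = I * (α v) ^ ((1 : ℂ) / 2) := by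
    rcases sq_eq_sq_iff_eq_or_eq_neg.1 h5 with h7 | h7
    · exact h7
    · exfalso
      have h8 := htim v hvr hv0
      rw [h7, Complex.neg_im, Complex.I_mul_im] at h8
      linarith
  have h7 : -1 / (1 + I * (α v) ^ ((1 : ℂ) / 2)) = T v := by
    rw [← h6]
    show -1 / (1 + (-1 / T v - 1)) = T v
    have := hT0 v hvr hv0
    have e : 1 + (-1 / T v - 1) = -1 / T v := by ring
    rw [e]
    field_simp
  rw [h7]
  exact (hv₁ v (hsub hvr) hv0).2.1.symm

end Pool.Agent.Choc
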