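import Pool.Agent.Lib.MP_2b3e36_an.Ex.E9

/-!
E11. Local analysis at infinity. Proof: see the part `pre_infty` in the head of E10.
-/

set_option autoImplicit false

open Complex Set Filter Topology Metric

namespace Pool.Agent.Choc

/-- `w ↦ -1/w` maps points of `UH` near a real `u ≠ 0` to points of `UH` near `-1/u`. -/
lemma e11_inv {u : ℝ} (hu : u ≠ 0) :
    Tendsto (fun w : ℂ => -1 / w) (𝓝[UH] (u : ℂ)) (𝓝[UH] ((-1 / u : ℝ) : ℂ)) := by
  have hu' : (u : ℂ) ≠ 0 := by exact_mod_cast hu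
  refine tendsto_nhdsWithin_iff.2 ⟨?_, ?_⟩
  · have h1 : ContinuousAt (fun w : ℂ => -1 / w) (u : ℂ) := continuousAt_const.div continuousAt_id hu'
    have h2 := h1.tendsto.mono_left (nhdsWithin_le_nhds (s := UH))
    have e : (-1 : ℂ) / (u : ℂ) = ((-1 / u : ℝ) : ℂ) := by push_cast; rfl
    rwa [e] at h2
  · filter_upwards [self_mem_nhdsWithin] with w hw
    have hw' : 0 < w.im := hw
    have hw0 : w ≠ 0 := by intro h; rw [h] at hw'; simp at hw'
    show 0 < (-1 / w).im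
    rw [neg_div, Complex.neg_im, one_div, Complex.inv_im, neg_div, neg_neg]
    exact div_pos hw' (Complex.normSq_pos.2 hw0)

lemma e11_inv_mem {w : ℂ} (hw : w ∈ UH) : -1 / w ∈ UH := by
  have hw' : 0 < w.im := hw
  have hw0 : w ≠ 0 := by intro h; rw [h] at hw'; simp at hw'
  show 0 < (-1 / w).im
  rw [neg_div, Complex.neg_im, one_div, Complex.inv_im, neg_div, neg_neg]
  exact div_pos hw' (Complex.normSq_pos.2 hw0)

theorem pre_infty {y : ℝ} {X : ℂ → ℂ} {v₀ : ℂ} {Θ : ℝ → ℝ} (h : Pre y X v₀ Θ) :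
    ∃ r > 0, ∃ p : ℂ → ℂ, DifferentiableOn ℂ p (ball (0 : ℂ) r) ∧ p 0 = 0 ∧
    (∃ κ : ℝ, 0 < κ ∧ deriv p 0 = κ) ∧ (∀ u : ℝ, |u| < r → (p u).im = 0) ∧
    (∀ v ∈ ball (0 : ℂ) r, 0 < v.im → 0 < (p v).im ∧ ‖p v‖ < 1 ∧
      X (-1 / v) = nome (-(Real.pi * I) / log (p v))) := by
  have hp := Real.pi_pos
  have hpc : (Real.pi : ℂ) ≠ 0 := by exact_mod_cast hp.ne'
  set Z : ℂ → ℂ := fun u => X (-1 / u) with hZ
  have hZd : DifferentiableOn ℂ Z UH := by
    intro w hw
    have hw' : 0 < w.im := hw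
    have hw0 : w ≠ 0 := by intro h; rw [h] at hw'; simp at hw'
    have h1 : DifferentiableAt ℂ X (-1 / w) :=
      h.diff.differentiableAt (e8_isOpen_UH.mem_nhds (e11_inv_mem hw))
    have h2 : DifferentiableAt ℂ (fun w : ℂ => -1 / w) w :=
      (differentiableAt_const _).div differentiableAt_id hw0
    exact (h1.comp w h2).differentiableWithinAt
  have hZV : ∀ w ∈ UH, Z w ∈ V y := fun w hw => e8_memV h (e11_inv_mem hw)
  have hl0 : Tendsto (fun u => Z u / (‖Z u‖ : ℂ)) (𝓝[UH] ((0 : ℝ) : ℂ)) (𝓝 (exp ((0 : ℝ) * I))) := by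
    have := h.lim_infty
    simpa using this
  obtain ⟨r₁, hr₁, -, hd₁, hv₁⟩ := e8_lift (x := 0) (θ₀ := 0) one_pos
    (hZd.mono inter_subset_right) (fun v hv => (hZV v hv.2).1) hl0 one_pos
  set r := min r₁ 1 with hr
  have hr0 : 0 < r := lt_min hr₁ one_pos
  have hsub : ball ((0 : ℝ) : ℂ) r ⊆ ball ((0 : ℝ) : ℂ) r₁ := ball_subset_ball (min_le_left _ _)
  set T : ℂ → ℂ := fun v => e4_lift 0 (Z v) with hT
  have hTup : ∀ v ∈ ball ((0 : ℝ) : ℂ) r, 0 < v.im → 0 < (T v).im := fun v hv hv0 =>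
    (hv₁ v (hsub hv) hv0).2.2.1
  have hT0 : ∀ v ∈ ball ((0 : ℝ) : ℂ) r, 0 < v.im → T v ≠ 0 := by
    intro v hv hv0 h0
    have := hTup v hv hv0
    rw [h0] at this; simp at this
  have hTd : DifferentiableOn ℂ T (ball ((0 : ℝ) : ℂ) r ∩ UH) :=
    hd₁.mono (inter_subset_inter_left _ hsub)
  set s : ℂ → ℂ := fun v => -1 / T v with hs
  have hsup : ∀ v ∈ ball ((0 : ℝ) : ℂ) r, 0 < v.im → 0 < (s v).im := by
    intro v hv hv0
    have h2 := hTup v hv hv0
    have h3 : 0 < Complex.normSq (T v) := Complex.normSq_pos.2 (hT0 v hv hv0)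
    show 0 < (-1 / T v).im
    rw [neg_div, Complex.neg_im, one_div, Complex.inv_im, neg_div, neg_neg]
    exact div_pos h2 h3
  have hsd : DifferentiableOn ℂ s (ball ((0 : ℝ) : ℂ) r ∩ UH) := by
    intro v hv
    exact (differentiableWithinAt_const _).div (hTd v hv) (hT0 v hv.1 hv.2)
  have hnd : Differentiable ℂ nome := by
    intro z
    exact ((differentiableAt_id).const_mul _).cexp
  -- right side
  have hright : ∀ u : ℝ, 0 < u → |u - 0| < r → ∃ h' : ℝ, 0 < h' ∧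
      Tendsto s (𝓝[UH] (u : ℂ)) (𝓝 (((1 / h' : ℝ) : ℂ) * I)) := by
    intro u hu hur
    rw [sub_zero, abs_of_pos hu] at hur
    have hu1 : u < 1 := lt_of_lt_of_le hur (min_le_right _ _)
    have hx : -1 / u < -1 := by
      rw [div_lt_iff₀ hu]; linarith
    obtain ⟨ρ, hρ, τ, hτd, hτe, hτr, -⟩ := pre_slit h (-1 / u) hx
    have hmem : ball ((-1 / u : ℝ) : ℂ) ρ ∈ 𝓝 ((-1 / u : ℝ) : ℂ) := ball_mem_nhds _ hρ
    obtain ⟨h2, h3, -⟩ := hτr (-1 / u) (mem_ball_self hρ)
    set h' := (τ ((-1 / u : ℝ) : ℂ)).im with hh'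
    have h4 : Tendsto (fun v => ‖X v‖) (𝓝[UH] ((-1 / u : ℝ) : ℂ)) (𝓝 (Real.exp (-Real.pi * h'))) := by
      have h5 : Tendsto (fun v => ‖nome (τ v)‖) (𝓝[UH] ((-1 / u : ℝ) : ℂ))
          (𝓝 ‖nome (τ ((-1 / u : ℝ) : ℂ))‖) :=
        ((hnd.continuous.tendsto _).comp
          ((hτd.differentiableAt hmem).continuousAt.tendsto.mono_left nhdsWithin_le_nhds)).norm
      rw [e4_norm_nome] at h5
      refine h5.congr' ?_
      filter_upwards [self_mem_nhdsWithin, nhdsWithin_le_nhds hmem] with v h6 h7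
      rw [hτe v h7 h6]
    have h5 : Tendsto (fun w => ‖Z w‖) (𝓝[UH] (u : ℂ)) (𝓝 (Real.exp (-Real.pi * h'))) :=
      h4.comp (e11_inv hu.ne')
    have h6 : Tendsto (fun w => Z w / (‖Z w‖ : ℂ)) (𝓝[UH] (u : ℂ)) (𝓝 (exp ((0 : ℝ) * I))) := by
      have := (h.lim (-1 / u)).comp (e11_inv hu.ne')
      rwa [h.left _ hx.le] at this
    have h7 := e8_lift_lim (θ₀ := 0) (Real.exp_pos _) h6 (by simpa using hp) h5
    rw [Real.log_exp] at h7
    have e : -(-Real.pi * h') / Real.pi = h' := by field_simp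
    rw [e, zero_div, Complex.ofReal_zero, zero_add] at h7
    refine ⟨h', h3, ?_⟩
    have hh0 : (h' : ℂ) * I ≠ 0 := mul_ne_zero (by exact_mod_cast h3.ne') Complex.I_ne_zero
    have h8 : Tendsto s (𝓝[UH] (u : ℂ)) (𝓝 (-1 / ((h' : ℂ) * I))) := tendsto_const_nhds.div h7 hh0
    have e2 : (-1 : ℂ) / ((h' : ℂ) * I) = ((1 / h' : ℝ) : ℂ) * I := by
      have : (h' : ℂ) ≠ 0 := by exact_mod_cast h3.ne'
      push_cast
      field_simp
      rw [Complex.I_sq]
    rwa [e2] at h8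
  have hleft : ∀ u : ℝ, u < 0 → |u - 0| < r → ∃ b : ℝ, 0 < b ∧
      Tendsto s (𝓝[UH] (u : ℂ)) (𝓝 (1 + (b : ℂ) * I)) := by
    intro u hu hur
    rw [sub_zero, abs_of_neg hu] at hur
    have hu1 : -1 < u := by linarith [lt_of_lt_of_le hur (min_le_right _ _)]
    have hx : 1 < -1 / u := by
      rw [lt_div_iff_of_neg hu]; linarith
    obtain ⟨ρ, hρ, τ, hτd, hτe, hτr, -⟩ := pre_arc h (-1 / u) hx
    have hmem : ball ((-1 / u : ℝ) : ℂ) ρ ∈ 𝓝 ((-1 / u : ℝ) : ℂ) := ball_mem_nhds _ hρ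
    obtain ⟨h6, h7⟩ := h.right (-1 / u) hx
    have hl : Tendsto (fun a => X a / (‖X a‖ : ℂ)) (𝓝[UH] ((-1 / u : ℝ) : ℂ))
        (𝓝 (exp ((Θ (-1 / u) - 2 * Real.pi : ℝ) * I))) := by
      have := h.lim (-1 / u)
      have e : exp ((Θ (-1 / u) - 2 * Real.pi : ℝ) * I) = exp (Θ (-1 / u) * I) := by
        push_cast
        rw [sub_mul, Complex.exp_sub, Complex.exp_two_pi_mul_I, div_one]
      rwa [e]
    have h8 := esc_geo h.y_pos (e8_esc h (-1 / u)) (fun K hK hKV => h.esc K hK hKV (-1 / u)) hl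
      (by linarith) (by linarith)
    have h9 := h8.norm
    rw [e4_norm_nome] at h9
    have h10 : Tendsto T (𝓝[UH] (u : ℂ)) _ := e8_lift_lim (θ₀ := 0) (Real.exp_pos _)
      (hl.comp (e11_inv hu.ne)) (by rw [sub_zero, abs_lt]; constructor <;> linarith)
      (h9.comp (e11_inv hu.ne))
    have e : (((Θ (-1 / u) - 2 * Real.pi) / Real.pi : ℝ) : ℂ) + ((-Real.log (Real.exp (-Real.pi *
        (geoPt (Θ (-1 / u) - 2 * Real.pi)).im)) / Real.pi : ℝ) : ℂ) * I =
          geoPt (Θ (-1 / u) - 2 * Real.pi) := by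
      rw [Real.log_exp, ← e4_geoPt_re]
      have : -(-Real.pi * (geoPt (Θ (-1 / u) - 2 * Real.pi)).im) / Real.pi =
          (geoPt (Θ (-1 / u) - 2 * Real.pi)).im := by field_simp
      rw [this]
      exact Complex.re_add_im _
    rw [e] at h10
    have h3 : geoPt (Θ (-1 / u) - 2 * Real.pi) ∈ Sig := geoPt_mem (by linarith) (by linarith)
    set g := geoPt (Θ (-1 / u) - 2 * Real.pi) with hg
    have hg0 : g ≠ 0 := by
      intro h0
      have := h3.1
      rw [h0] at this; simp at this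
    have h6' : 0 < Complex.normSq g := Complex.normSq_pos.2 hg0
    have h4 : Complex.normSq g = -g.re := by
      have h5 : Complex.normSq (g + 1 / 2) = 1 / 4 := by
        rw [Complex.normSq_eq_norm_sq, h3.2]; norm_num
      rw [e8_normSq_add_half] at h5
      linarith
    refine ⟨g.im / Complex.normSq g, div_pos h3.1 h6', ?_⟩
    have h11 : Tendsto s (𝓝[UH] (u : ℂ)) (𝓝 (-1 / g)) := tendsto_const_nhds.div h10 hg0
    have e3 : -1 / g = 1 + ((g.im / Complex.normSq g : ℝ) : ℂ) * I := by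
      apply Complex.ext
      · rw [Complex.add_re, Complex.one_re, neg_div, Complex.neg_re, one_div, Complex.inv_re, h4,
          Complex.re_ofReal_mul, Complex.I_re, mul_zero]
        have : g.re ≠ 0 := by rw [h4] at h6'; linarith
        field_simp
        ring
      · rw [Complex.add_im, Complex.one_im, neg_div, Complex.neg_im, one_div, Complex.inv_im,
          Complex.im_ofReal_mul, Complex.I_im]
        ring
    rwa [e3] at h11
  have hnome1 : ∀ b : ℝ, nome (1 + (b : ℂ) * I) = ((-Real.exp (-Real.pi * b) : ℝ) : ℂ) := by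
    intro b
    rw [e4_nome_re]
    have e1 : (1 + (b : ℂ) * I).im = b := by simp
    have e2 : (1 + (b : ℂ) * I).re = 1 := by simp
    rw [e1, e2, mul_one, Complex.exp_pi_mul_I]
    push_cast; ring
  have hnome2 : ∀ b : ℝ, nome ((b : ℂ) * I) = ((Real.exp (-Real.pi * b) : ℝ) : ℂ) := by
    intro b
    rw [e4_nome_re]
    have e1 : ((b : ℂ) * I).im = b := by simp
    have e2 : ((b : ℂ) * I).re = 0 := by simp
    rw [e1, e2]
    simp
  have hnc : ∀ z, Tendsto nome (𝓝 z) (𝓝 (nome z)) := fun z => hnd.continuous.tendsto z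
  obtain ⟨p, hpd, hpe, hpr⟩ := reflect_except (x := 0) (M := 1) hr0 (h := fun v => nome (s v))
    (by
      intro v hv
      exact (hnd (s v)).comp_differentiableWithinAt v (hsd v hv))
    (fun z hz hz0 => by
      refine (Complex.abs_im_le_norm _).trans ?_
      rw [e4_norm_nome, Real.exp_le_one_iff]
      have := hsup z hz hz0
      nlinarith)
    (fun u hu hu0 => by
      rcases lt_or_gt_of_ne hu0 with hu1 | hu1
      · obtain ⟨b, hb, h2⟩ := hleft u hu1 hu
        have h3 := (Complex.continuous_im.tendsto _).comp ((hnc _).comp h2)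
        rw [hnome1, Complex.ofReal_im] at h3
        exact h3
      · obtain ⟨b, hb, h2⟩ := hright u hu1 hu
        have h3 := (Complex.continuous_im.tendsto _).comp ((hnc _).comp h2)
        rw [hnome2, Complex.ofReal_im] at h3
        exact h3)
  have hmem : ball ((0 : ℝ) : ℂ) r ∈ 𝓝 ((0 : ℝ) : ℂ) := ball_mem_nhds _ hr0
  have hpa : AnalyticAt ℂ p ((0 : ℝ) : ℂ) := hpd.analyticAt hmem
  have hnear : ∀ᶠ u : ℝ in 𝓝 (0 : ℝ), |u - 0| < r := by
    have := ball_mem_nhds (0 : ℝ) hr0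
    filter_upwards [this] with u hu
    rwa [mem_ball_iff_norm, Real.norm_eq_abs] at hu
  have hposR : ∀ᶠ u : ℝ in 𝓝[>] (0 : ℝ), 0 < (p u).re := by
    filter_upwards [self_mem_nhdsWithin, nhdsWithin_le_nhds hnear] with u h2 h3
    obtain ⟨b, hb, h4⟩ := hright u h2 h3
    rw [e8_value hpd h3 hpe ((hnc _).comp h4), hnome2, Complex.ofReal_re]
    exact Real.exp_pos _
  have hnegL : ∀ᶠ u : ℝ in 𝓝[<] (0 : ℝ), (p u).re < 0 := by
    filter_upwards [self_mem_nhdsWithin, nhdsWithin_le_nhds hnear] with u h2 h3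
    obtain ⟨b, hb, h4⟩ := hleft u h2 h3
    rw [e8_value hpd h3 hpe ((hnc _).comp h4), hnome1, Complex.ofReal_re]
    linarith [Real.exp_pos (-Real.pi * b)]
  have hofr : Tendsto (fun u : ℝ => (u : ℂ)) (𝓝 (0 : ℝ)) (𝓝 ((0 : ℝ) : ℂ)) :=
    Complex.continuous_ofReal.tendsto 0
  have hpre : Tendsto (fun u : ℝ => (p u).re) (𝓝 (0 : ℝ)) (𝓝 (p ((0 : ℝ) : ℂ)).re) :=
    (Complex.continuous_re.tendsto _).comp (hpa.continuousAt.tendsto.comp hofr)
  have hx0 : |(0 : ℝ) - 0| < r := by simpa using hr0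
  have hp0 : p ((0 : ℝ) : ℂ) = 0 := by
    apply Complex.ext
    · apply le_antisymm
      · exact le_of_tendsto (hpre.mono_left nhdsWithin_le_nhds) (hnegL.mono fun u hu => hu.le)
      · exact ge_of_tendsto (hpre.mono_left nhdsWithin_le_nhds) (hposR.mono fun u hu => hu.le)
    · exact hpr _ hx0
  have hne : ¬ ∀ᶠ v in 𝓝 ((0 : ℝ) : ℂ), p v = 0 := by
    intro hall
    have h1 : ∀ᶠ u : ℝ in 𝓝[>] (0 : ℝ), p u = 0 := nhdsWithin_le_nhds (hofr.eventually hall)
    obtain ⟨u, h2, h3⟩ := (h1.and hposR).exists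
    rw [h2] at h3
    simp at h3
  obtain ⟨k, σ, ζ, κ, hk, hσ, hζa, hζ0, hκ, hζd, hF, hζr⟩ := e8_nf hpa hp0 hne
    (hnear.mono fun u hu => hpr u hu)
  have hζr' : ∀ᶠ u : ℝ in 𝓝 (0 : ℝ), (ζ u).im = 0 := hζr.mono fun u hu => hu.1
  have hFr : ∀ᶠ u : ℝ in 𝓝 (0 : ℝ), p u = σ * ζ u ^ k := hofr.eventually hF
  have hζof : ∀ u : ℝ, (ζ u).im = 0 → ζ u = (((ζ u).re : ℝ) : ℂ) := by
    intro u hu
    apply Complex.ext
    · simp
    · simp [hu]
  have hσ1 : σ = 1 := by
    rcases hσ with h | h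
    · exact h
    · exfalso
      have hA : ∀ᶠ u : ℝ in 𝓝[>] (0 : ℝ), p u = σ * ζ u ^ k := nhdsWithin_le_nhds hFr
      have hB : ∀ᶠ u : ℝ in 𝓝[>] (0 : ℝ), (ζ u).im = 0 ∧ (0 < u → 0 < (ζ u).re) ∧
          (u < 0 → (ζ u).re < 0) := nhdsWithin_le_nhds hζr
      have hC : ∀ᶠ u : ℝ in 𝓝[>] (0 : ℝ), 0 < u := self_mem_nhdsWithin
      obtain ⟨u, h1, h2, h3, h4⟩ := (hposR.and (hA.and (hB.and hC))).exists
      have h5 := h3.2.1 h4
      rw [h2, hζof u h3.1, ← Complex.ofReal_pow, ← Complex.ofReal_mul, Complex.ofReal_re, h] at h1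
      have := pow_pos h5 k
      linarith
  have hk1' : (1 : ℝ) ≤ k := by exact_mod_cast hk
  have hkc : (k : ℂ) ≠ 0 := by
    have : k ≠ 0 := by omega
    exact_mod_cast this
  -- a ball where everything holds
  have hloc : ∀ᶠ v in 𝓝 ((0 : ℝ) : ℂ), p v = ζ v ^ k ∧ (0 < v.im → 0 < (ζ v).im) ∧
      AnalyticAt ℂ ζ v := by
    filter_upwards [hF, e8_im_sign hζa hζr' hκ hζd, hζa.eventually_analyticAt] with v h1 h2 h3
    refine ⟨?_, h2.1, h3⟩
    rw [h1, hσ1]; simp
  obtain ⟨r₂, hr₂, hloc⟩ := Metric.eventually_nhds_iff_ball.1 hloc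
  obtain ⟨r₃, hr₃, hζr3⟩ := Metric.eventually_nhds_iff_ball.1 hζr
  set ρ := min r (min r₂ r₃) with hρ
  have hρ0 : 0 < ρ := lt_min hr0 (lt_min hr₂ hr₃)
  have hρr : ρ ≤ r := min_le_left _ _
  have hρ2 : ρ ≤ r₂ := (min_le_right _ _).trans (min_le_left _ _)
  have hρ3 : ρ ≤ r₃ := (min_le_right _ _).trans (min_le_right _ _)
  set B : Set ℂ := ball ((0 : ℝ) : ℂ) ρ ∩ UH with hB
  have hBr : ∀ v ∈ B, v ∈ ball ((0 : ℝ) : ℂ) r := fun v hv => ball_subset_ball hρr hv.1
  have hB2 : ∀ v ∈ B, v ∈ ball ((0 : ℝ) : ℂ) r₂ := fun v hv => ball_subset_ball hρ2 hv.1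
  have hζup : ∀ v ∈ B, 0 < (ζ v).im := fun v hv => (hloc v (hB2 v hv)).2.1 hv.2
  have hζ0' : ∀ v ∈ B, ζ v ≠ 0 := by
    intro v hv h0
    have := hζup v hv
    rw [h0] at this; simp at this
  have hζsl : ∀ v ∈ B, ζ v ∈ slitPlane := fun v hv => Or.inr (hζup v hv).ne'
  -- the difference is an even integer
  have hint : ∀ v ∈ B, ∃ n : ℤ, s v - (k : ℂ) * log (ζ v) / (Real.pi * I) = 2 * n := by
    intro v hv
    have h1 : exp (Real.pi * I * s v) = exp ((k : ℂ) * log (ζ v)) := by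
      rw [Complex.exp_nat_mul, Complex.exp_log (hζ0' v hv), ← (hloc v (hB2 v hv)).1,
        hpe v (hBr v hv) hv.2]
      rfl
    rw [Complex.exp_eq_exp_iff_exists_int] at h1
    obtain ⟨n, hn⟩ := h1
    refine ⟨n, ?_⟩
    have hI := Complex.I_ne_zero
    have h2 : s v = ((k : ℂ) * log (ζ v) + n * (2 * Real.pi * I)) / (Real.pi * I) := by
      rw [← hn]; field_simp
    rw [h2]
    field_simp
    ring
  set D : ℂ → ℂ := fun v => s v - (k : ℂ) * log (ζ v) / (Real.pi * I) with hD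
  have hBconv : Convex ℝ B := by
    refine (convex_ball _ _).inter ?_
    exact convex_halfSpace_im_gt 0
  have hDc : ContinuousOn D B := by
    intro v hv
    have h1 : ContinuousWithinAt s B v :=
      ((hsd v ⟨hBr v hv, hv.2⟩).continuousWithinAt).mono
        (inter_subset_inter_left _ (ball_subset_ball hρr))
    have h2 : ContinuousAt (fun v => log (ζ v)) v :=
      ((hloc v (hB2 v hv)).2.2.continuousAt).clog (hζsl v hv)
    exact h1.sub (((h2.const_mul _).div_const _).continuousWithinAt)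
  have hDconst : ∃ c : ℂ, ∀ v ∈ B, D v = c := by
    have hpre : IsPreconnected B := hBconv.isPreconnected
    have h1 : IsPreconnected (D '' B) := hpre.image D hDc
    have h2 : (D '' B).Subsingleton := by
      have h3 : D '' B ⊆ range (fun n : ℤ => (2 : ℂ) * n) := by
        rintro _ ⟨v, hv, rfl⟩
        obtain ⟨n, hn⟩ := hint v hv
        exact ⟨n, hn.symm⟩
      have h4 : (range (fun n : ℤ => (2 : ℂ) * n)).Countable := countable_range _
      exact h4.isTotallyDisconnected _ h3 h1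
    by_cases hBe : B.Nonempty
    · obtain ⟨v₁, hv₁⟩ := hBe
      exact ⟨D v₁, fun v hv => h2 (mem_image_of_mem _ hv) (mem_image_of_mem _ hv₁)⟩
    · exact ⟨0, fun v hv => absurd ⟨v, hv⟩ hBe⟩
  obtain ⟨c, hc⟩ := hDconst
  have hBmem : ∀ u : ℝ, |u| < ρ → B ∈ 𝓝[UH] (u : ℂ) := by
    intro u hu
    refine Filter.inter_mem (nhdsWithin_le_nhds ?_) self_mem_nhdsWithin
    exact isOpen_ball.mem_nhds (e8_mem_ball.2 (by rwa [sub_zero]))
  -- right limit: c.re = 0
  have hcre : c.re = 0 := by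
    have hu : 0 < ρ / 2 := by linarith
    have hu' : |ρ / 2| < ρ := by rw [abs_of_pos hu]; linarith
    set u := ρ / 2 with hudef
    have hnb := e8_neBot u
    obtain ⟨h', hh', h1⟩ := hright u hu (by rw [sub_zero]; linarith)
    have h2 : 0 < (ζ u).re := (hζr3 u (by
      rw [mem_ball_iff_norm, Real.norm_eq_abs, sub_zero]; linarith)).2.1 hu
    have h2' : (ζ u).im = 0 := (hζr3 u (by
      rw [mem_ball_iff_norm, Real.norm_eq_abs, sub_zero]; linarith)).1
    have h3 : ContinuousAt (fun v => log (ζ v)) (u : ℂ) := by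
      refine ContinuousAt.clog (hloc u ?_).2.2.continuousAt (Or.inl h2)
      exact e8_mem_ball.2 (by rw [sub_zero]; linarith)
    have h4 : Tendsto D (𝓝[UH] (u : ℂ)) (𝓝 (((1 / h' : ℝ) : ℂ) * I -
        (k : ℂ) * log (ζ u) / (Real.pi * I))) :=
      h1.sub (((h3.tendsto.mono_left nhdsWithin_le_nhds).const_mul _).div_const _)
    have h5 : Tendsto D (𝓝[UH] (u : ℂ)) (𝓝 c) := by
      refine tendsto_const_nhds.congr' ?_
      filter_upwards [hBmem u hu'] with v hv
      exact (hc v hv).symm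
    have h6 := tendsto_nhds_unique h5 h4
    rw [hζof u h2', ← Complex.ofReal_log h2.le] at h6
    rw [h6]
    have e : ((1 / h' : ℝ) : ℂ) * I - (k : ℂ) * ((Real.log (ζ u).re : ℝ) : ℂ) / (Real.pi * I) =
        ((1 / h' + k * Real.log (ζ u).re / Real.pi : ℝ) : ℂ) * I := by
      have hI := Complex.I_ne_zero
      have hh'c : (h' : ℂ) ≠ 0 := by exact_mod_cast hh'.ne'
      push_cast
      field_simp
      rw [Complex.I_sq]
      ring
    rw [e, Complex.re_ofReal_mul, Complex.I_re, mul_zero]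
  have hk1 : k = 1 := by
    have hu : -(ρ / 2) < 0 := by linarith
    have hu' : |-(ρ / 2)| < ρ := by rw [abs_of_neg hu]; linarith
    set u := -(ρ / 2) with hudef
    have hnb := e8_neBot u
    obtain ⟨b, hb, h1⟩ := hleft u hu (by rw [sub_zero]; linarith)
    have h2 : (ζ u).re < 0 := (hζr3 u (by
      rw [mem_ball_iff_norm, Real.norm_eq_abs, sub_zero]; linarith)).2.2 hu
    have h2' : (ζ u).im = 0 := (hζr3 u (by
      rw [mem_ball_iff_norm, Real.norm_eq_abs, sub_zero]; linarith)).1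
    have h3 : Tendsto (fun v => arg (ζ v)) (𝓝[UH] (u : ℂ)) (𝓝 Real.pi) := by
      have h4 := Complex.tendsto_arg_nhdsWithin_im_nonneg_of_re_neg_of_im_zero h2 h2'
      refine h4.comp (tendsto_nhdsWithin_iff.2 ⟨?_, ?_⟩)
      · refine Tendsto.mono_left ?_ nhdsWithin_le_nhds
        exact (hloc u (e8_mem_ball.2 (by rw [sub_zero]; linarith))).2.2.continuousAt.tendsto
      · filter_upwards [hBmem u hu'] with v hv
        exact (hζup v hv).le
    have h4 : Tendsto (fun v => (s v).re) (𝓝[UH] (u : ℂ)) (𝓝 1) := by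
      have := (Complex.continuous_re.tendsto _).comp h1
      have e1 : (1 + (b : ℂ) * I).re = 1 := by simp
      rw [e1] at this
      exact this
    have h5 : Tendsto (fun v => (s v).re - k * arg (ζ v) / Real.pi) (𝓝[UH] (u : ℂ))
        (𝓝 (1 - k * Real.pi / Real.pi)) :=
      h4.sub ((h3.const_mul _).div_const _)
    have h6 : Tendsto (fun v => (s v).re - k * arg (ζ v) / Real.pi) (𝓝[UH] (u : ℂ)) (𝓝 0) := by
      refine tendsto_const_nhds.congr' ?_
      filter_upwards [hBmem u hu'] with v hv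
      have h7 := congrArg Complex.re (hc v hv)
      rw [hcre] at h7
      have h8 : D v = s v - ((k / Real.pi : ℝ) : ℂ) * (-(I * log (ζ v))) := by
        show s v - (k : ℂ) * log (ζ v) / (Real.pi * I) = _
        have hI := Complex.I_ne_zero
        have hII : (1 : ℂ) / I = -I := by rw [one_div, Complex.inv_I]
        have e3 : (k : ℂ) * log (ζ v) / (Real.pi * I) =
            (k / Real.pi : ℂ) * (log (ζ v) * (1 / I)) := by field_simp
        rw [e3, hII]
        push_cast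
        ring
      rw [h8, Complex.sub_re, Complex.re_ofReal_mul, Complex.neg_re, Complex.I_mul_re, neg_neg,
        Complex.log_im] at h7
      rw [← h7]; ring
    have h7 := tendsto_nhds_unique h5 h6
    have h8 : (k : ℝ) = 1 := by
      have : (k : ℝ) * Real.pi / Real.pi = k := by field_simp
      rw [this] at h7
      linarith
    exact_mod_cast h8
  have hFζ : p =ᶠ[𝓝 ((0 : ℝ) : ℂ)] ζ := by
    filter_upwards [hF] with v hv
    rw [hv, hσ1, hk1]; simp
  have hc0 : c = 0 := by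
    apply Complex.ext hcre
    have hne : B.Nonempty := by
      have hnb := e8_neBot 0
      exact Filter.nonempty_of_mem (hBmem 0 (by simpa using hρ0))
    obtain ⟨v, hv⟩ := hne
    obtain ⟨n, hn⟩ := hint v hv
    have h7 := hc v hv
    rw [show D v = 2 * n from hn] at h7
    rw [← h7]
    simp
  have hcast : ((0 : ℝ) : ℂ) = 0 := Complex.ofReal_zero
  rw [hcast] at hp0
  refine ⟨ρ, hρ0, p, ?_, hp0, ⟨κ, hκ, ?_⟩, ?_, ?_⟩
  · rw [← hcast]; exact hpd.mono (ball_subset_ball hρr)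
  · rw [← hcast, hFζ.deriv_eq, hζd]
  · intro u hu
    exact hpr u (by rw [sub_zero]; linarith)
  · intro v hv hv0
    have hvB : v ∈ B := ⟨by rw [hcast]; exact hv, hv0⟩
    have h1 : p v = ζ v := by
      rw [(hloc v (hB2 v hvB)).1, hk1, pow_one]
    have h2 : s v = log (p v) / (Real.pi * I) := by
      have h3 := hc v hvB
      rw [hc0] at h3
      have h4 : s v - (k : ℂ) * log (ζ v) / (Real.pi * I) = 0 := h3
      rw [hk1, Nat.cast_one, one_mul, ← h1] at h4
      exact sub_eq_zero.1 h4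
    refine ⟨by rw [h1]; exact hζup v hvB, ?_, ?_⟩
    · rw [hpe v (hBr v hvB) hv0]
      show ‖nome (s v)‖ < 1
      rw [e4_norm_nome, Real.exp_lt_one_iff]
      have := hsup v (hBr v hvB) hv0
      nlinarith
    · have h3 : -(Real.pi * I) / log (p v) = T v := by
        have h4 : T v = -1 / s v := by
          show T v = -1 / (-1 / T v)
          have := hT0 v (hBr v hvB) hv0
          field_simp
        rw [h4, h2]
        by_cases hlog : log (p v) = 0
        · rw [hlog]; simp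
        · have hI := Complex.I_ne_zero
          field_simp
      rw [h3]
      exact (hv₁ v (hsub (hBr v hvB)) hv0).2.1.symm

end Pool.Agent.Choc
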