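import Pool.Agent.Lib.MP_2b3e36_an.Ex.E7
import Pool.Agent.Lib.MP_2b3e36_an.Ex.E10
import Pool.Agent.Lib.MP_2b3e36_an.Ex.E11

/-!
E12. Assembly: for every `y > 0` there is a `Model y`.

The only global point is `vc`. For `x < -1` let `T x = Im (τ x)` with the local `τ` of `pre_slit`; it does not
depend on the choices: `X v → nome (τ x) = exp (- pi T x)` as `v → x`, so `T x = - log (lim ‖X‖)/pi`.
`T` is continuous, `0 < T ≤ y`, differentiable with `T' u = Im τ'(u)`, `τ' u` purely imaginary. `T x → 0` as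
`x → -1` (`pre_negOne`: `X → 1` as `v → -1`, uniformly: `‖X‖ ≥ 1 - η` on `UH ∩ ball (-1) ρ`) and as `x → -∞`
(`pre_infty`: `X (-1/u) → 1` as `u → 0`, since `log p → ∞`). So `T` has a maximum at some `vc < -1`,
`T' vc = 0`, `τ' vc = 0`, hence `T vc = y`, `τ'' vc ≠ 0`. If `x₁ < x₂` were two critical points, both with
`T = y`; `T < y` near `x₁` off `x₁` (second derivative `≠ 0`, `T ≤ y`); the minimum of `T` on `[x₁, x₂]` is at
an interior point, a critical point with `T < y`: contradiction. So `vc` is the only critical point.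
`deriv_ne`: `deriv_ne_of_injOn`.
-/

set_option autoImplicit false

open Complex Set Filter Topology Metric

namespace Pool.Agent.Choc

lemma e12_nome_diff : Differentiable ℂ nome := by
  intro z
  exact ((differentiableAt_id).const_mul _).cexp

lemma e12_nome_zero : nome 0 = 1 := by simp [nome]

/-- If `X → 1` at the end, then the limits at nearby real points are near one. -/
lemma e12_negOne {y : ℝ} {X : ℂ → ℂ} {v₀ : ℂ} {Θ : ℝ → ℝ} (h : Pre y X v₀ Θ) :
    Tendsto (fun v => ‖X v‖) (𝓝[UH] ((-1 : ℝ) : ℂ)) (𝓝 1) := by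
  obtain ⟨r, hr, α, hαd, hα0, -, hα⟩ := pre_negOne h
  have hcast : ((-1 : ℝ) : ℂ) = -1 := by push_cast; rfl
  rw [hcast]
  have hmem : ball (-1 : ℂ) r ∈ 𝓝 (-1 : ℂ) := ball_mem_nhds _ hr
  have h1 : Tendsto α (𝓝[UH] (-1 : ℂ)) (𝓝 0) := by
    rw [← hα0]
    exact (hαd.differentiableAt hmem).continuousAt.tendsto.mono_left nhdsWithin_le_nhds
  have h2 : Tendsto (fun v => (α v) ^ ((1 : ℂ) / 2)) (𝓝[UH] (-1 : ℂ)) (𝓝 0) := by
    rw [tendsto_zero_iff_norm_tendsto_zero]
    have h3 : Tendsto (fun v => Real.sqrt ‖α v‖) (𝓝[UH] (-1 : ℂ)) (𝓝 0) := by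
      have := (Real.continuous_sqrt.tendsto _).comp h1.norm
      rw [norm_zero, Real.sqrt_zero] at this
      exact this
    refine h3.congr' ?_
    filter_upwards [self_mem_nhdsWithin, nhdsWithin_le_nhds hmem] with v h4 h5
    have h6 := (e10_sqrt_im (hα v h5 h4).1).2.2
    have h7 : ‖(α v) ^ ((1 : ℂ) / 2)‖ ^ 2 = ‖α v‖ := by rw [← norm_pow, h6]
    rw [← h7, Real.sqrt_sq (norm_nonneg _)]
  have h3 : Tendsto (fun v => ‖nome ((α v) ^ ((1 : ℂ) / 2))‖) (𝓝[UH] (-1 : ℂ)) (𝓝 1) := by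
    have := ((e12_nome_diff.continuous.tendsto 0).comp h2).norm
    rw [e12_nome_zero, norm_one] at this
    exact this
  refine h3.congr' ?_
  filter_upwards [self_mem_nhdsWithin, nhdsWithin_le_nhds hmem] with v h4 h5
  rw [(hα v h5 h4).2]

lemma e12_infty {y : ℝ} {X : ℂ → ℂ} {v₀ : ℂ} {Θ : ℝ → ℝ} (h : Pre y X v₀ Θ) :
    Tendsto (fun u => ‖X (-1 / u)‖) (𝓝[UH] ((0 : ℝ) : ℂ)) (𝓝 1) := by
  obtain ⟨r, hr, p, hpd, hp0, -, -, hp⟩ := pre_infty h
  rw [Complex.ofReal_zero]
  have hmem : ball (0 : ℂ) r ∈ 𝓝 (0 : ℂ) := ball_mem_nhds _ hr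
  have h1 : Tendsto p (𝓝[UH] (0 : ℂ)) (𝓝 0) := by
    have : Tendsto p (𝓝[UH] (0 : ℂ)) (𝓝 (p 0)) :=
      (hpd.differentiableAt hmem).continuousAt.tendsto.mono_left nhdsWithin_le_nhds
    rwa [hp0] at this
  have h1' : Tendsto (fun v => ‖p v‖) (𝓝[UH] (0 : ℂ)) (𝓝[>] 0) := by
    refine tendsto_nhdsWithin_iff.2 ⟨by simpa using h1.norm, ?_⟩
    filter_upwards [self_mem_nhdsWithin, nhdsWithin_le_nhds hmem] with v h4 h5
    have h6 := (hp v h5 h4).1
    have : p v ≠ 0 := by intro h; rw [h] at h6; simp at h6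
    exact norm_pos_iff.2 this
  have h2 : Tendsto (fun v => -Real.log ‖p v‖) (𝓝[UH] (0 : ℂ)) atTop :=
    tendsto_neg_atBot_atTop.comp (Real.tendsto_log_nhdsGT_zero.comp h1')
  have h3 : Tendsto (fun v => ‖log (p v)‖) (𝓝[UH] (0 : ℂ)) atTop := by
    refine tendsto_atTop_mono (fun v => ?_) h2
    have := Complex.abs_re_le_norm (log (p v))
    rw [Complex.log_re] at this
    exact (neg_le_abs _).trans this
  have h4 : Tendsto (fun v => -(Real.pi * I) / log (p v)) (𝓝[UH] (0 : ℂ)) (𝓝 0) := by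
    rw [tendsto_zero_iff_norm_tendsto_zero]
    have h5 : Tendsto (fun v => Real.pi / ‖log (p v)‖) (𝓝[UH] (0 : ℂ)) (𝓝 0) :=
      h3.const_div_atTop Real.pi
    refine h5.congr fun v => ?_
    rw [norm_div, norm_neg, norm_mul, Complex.norm_I, mul_one, Complex.norm_real,
      Real.norm_eq_abs, abs_of_pos Real.pi_pos]
  have h5 := ((e12_nome_diff.continuous.tendsto 0).comp h4).norm
  rw [e12_nome_zero, norm_one] at h5
  refine h5.congr' ?_
  filter_upwards [self_mem_nhdsWithin, nhdsWithin_le_nhds hmem] with v h6 h7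
  rw [(hp v h7 h6).2.2]
  rfl

/-- Real part data of the derivative along the reals. -/
lemma e12_deriv {x : ℝ} {τ : ℂ → ℂ} {Tf : ℝ → ℝ} (hd : DifferentiableAt ℂ τ x)
    (he : ∀ᶠ u : ℝ in 𝓝 x, τ u = (Tf u : ℂ) * I) :
    HasDerivAt Tf (deriv τ x).im x ∧ (deriv τ x).re = 0 := by
  have h1 : HasDerivAt (fun u : ℝ => τ u) (deriv τ x) x := hd.hasDerivAt.comp_ofReal
  have h2 : HasDerivAt (fun u : ℝ => (τ u).im) (deriv τ x).im x :=
    Complex.imCLM.hasFDerivAt.comp_hasDerivAt x h1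
  have h3 : HasDerivAt (fun u : ℝ => (τ u).re) (deriv τ x).re x :=
    Complex.reCLM.hasFDerivAt.comp_hasDerivAt x h1
  refine ⟨h2.congr_of_eventuallyEq ?_, ?_⟩
  · filter_upwards [he] with u hu
    rw [hu]; simp
  · have h4 : HasDerivAt (fun _ : ℝ => (0 : ℝ)) (deriv τ x).re x := by
      refine h3.congr_of_eventuallyEq ?_
      filter_upwards [he] with u hu
      rw [hu]; simp
    exact h4.unique (hasDerivAt_const x (0 : ℝ))

theorem model_exists {y : ℝ} (hy : 0 < y) :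
    ∃ (X : ℂ → ℂ) (v₀ : ℂ) (vc : ℝ), Model y X v₀ vc := by
  have hp := Real.pi_pos
  obtain ⟨X, v₀, Θ, h⟩ := pre_exists hy
  choose! r hr τ hτd hτe hτr hτc using fun (x : ℝ) (hx : x < -1) => pre_slit h x hx
  set T : ℝ → ℝ := fun x => (τ x x).im with hT
  have hmem : ∀ x : ℝ, x < -1 → ball (x : ℂ) (r x) ∈ 𝓝 (x : ℂ) := fun x hx => ball_mem_nhds _ (hr x hx)
  -- the limit of the modulus
  have hlim : ∀ x : ℝ, x < -1 → ∀ u : ℝ, (u : ℂ) ∈ ball (x : ℂ) (r x) →
      Tendsto (fun v => ‖X v‖) (𝓝[UH] (u : ℂ)) (𝓝 (Real.exp (-Real.pi * (τ x u).im))) := by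
    intro x hx u hu
    have hm : ball (x : ℂ) (r x) ∈ 𝓝 (u : ℂ) := isOpen_ball.mem_nhds hu
    have h1 : Tendsto (fun v => ‖nome (τ x v)‖) (𝓝[UH] (u : ℂ)) (𝓝 ‖nome (τ x u)‖) :=
      ((e12_nome_diff.continuous.tendsto _).comp
        (((hτd x hx).differentiableAt hm).continuousAt.tendsto.mono_left nhdsWithin_le_nhds)).norm
    rw [e4_norm_nome] at h1
    refine h1.congr' ?_
    filter_upwards [self_mem_nhdsWithin, nhdsWithin_le_nhds hm] with v h6 h7
    rw [hτe x hx v h7 h6]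
  have hTlim : ∀ x : ℝ, x < -1 → Tendsto (fun v => ‖X v‖) (𝓝[UH] (x : ℂ)) (𝓝 (Real.exp (-Real.pi * T x))) :=
    fun x hx => hlim x hx x (mem_ball_self (hr x hx))
  have hTeq : ∀ x : ℝ, x < -1 → ∀ u : ℝ, u < -1 → (u : ℂ) ∈ ball (x : ℂ) (r x) → T u = (τ x u).im := by
    intro x hx u hu hux
    have hnb := e8_neBot u
    have h1 := tendsto_nhds_unique (hTlim u hu) (hlim x hx u hux)
    have h2 := Real.exp_injective h1
    have h3 : Real.pi * (T u - (τ x u).im) = 0 := by linarith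
    rcases mul_eq_zero.1 h3 with h4 | h4
    · exact absurd h4 hp.ne'
    · linarith
  have hTpos : ∀ x : ℝ, x < -1 → 0 < T x ∧ T x ≤ y := fun x hx => (hτr x hx x (mem_ball_self (hr x hx))).2
  have hτT : ∀ x : ℝ, x < -1 → ∀ᶠ u : ℝ in 𝓝 x, τ x u = (T u : ℂ) * I := by
    intro x hx
    have h1 : ∀ᶠ u : ℝ in 𝓝 x, (u : ℂ) ∈ ball (x : ℂ) (r x) :=
      (Complex.continuous_ofReal.tendsto x).eventually (hmem x hx)
    filter_upwards [h1, eventually_lt_nhds hx] with u h2 h3
    rw [hTeq x hx u h3 h2]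
    apply Complex.ext
    · simp [(hτr x hx u h2).1]
    · simp
  have hder : ∀ x : ℝ, x < -1 → HasDerivAt T (deriv (τ x) x).im x ∧ (deriv (τ x) x).re = 0 := fun x hx =>
    e12_deriv ((hτd x hx).differentiableAt (hmem x hx)) (hτT x hx)
  have hcrit : ∀ x : ℝ, x < -1 → deriv T x = 0 → deriv (τ x) x = 0 := by
    intro x hx h1
    rw [(hder x hx).1.deriv] at h1
    exact Complex.ext (hder x hx).2 h1
  have hτI : ∀ x : ℝ, x < -1 → τ x x = y * I → T x = y := by
    intro x hx h1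
    show (τ x x).im = y
    rw [h1]; simp
  -- small values near the ends
  have hsmall1 : ∀ t > 0, ∃ b < -1, ∀ x, b ≤ x → x < -1 → T x < t := by
    intro t ht
    have h1 : Real.exp (-Real.pi * t) < 1 := by rw [Real.exp_lt_one_iff]; nlinarith
    have h2 : ∀ᶠ v in 𝓝[UH] ((-1 : ℝ) : ℂ), (Real.exp (-Real.pi * t) + 1) / 2 < ‖X v‖ :=
      (e12_negOne h).eventually_const_lt (by linarith)
    rw [eventually_nhdsWithin_iff, Metric.eventually_nhds_iff_ball] at h2
    obtain ⟨ρ, hρ, h2⟩ := h2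
    refine ⟨-1 - ρ / 2, by linarith, fun x hx1 hx2 => ?_⟩
    have hnb := e8_neBot x
    have hx3 : (x : ℂ) ∈ ball ((-1 : ℝ) : ℂ) ρ := by
      rw [e8_mem_ball, abs_lt]; constructor <;> linarith
    have h3 : (Real.exp (-Real.pi * t) + 1) / 2 ≤ Real.exp (-Real.pi * T x) := by
      refine ge_of_tendsto (hTlim x hx2) ?_
      filter_upwards [self_mem_nhdsWithin, nhdsWithin_le_nhds (isOpen_ball.mem_nhds hx3)] with v h4 h5
      exact (h2 v h5 h4).le
    have h4 : Real.exp (-Real.pi * t) < Real.exp (-Real.pi * T x) := by linarith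
    have h5 := Real.exp_lt_exp.1 h4
    nlinarith
  have hsmall2 : ∀ t > 0, ∃ a < -1, ∀ x, x ≤ a → T x < t := by
    intro t ht
    have h1 : Real.exp (-Real.pi * t) < 1 := by rw [Real.exp_lt_one_iff]; nlinarith
    have h2 : ∀ᶠ v in 𝓝[UH] ((0 : ℝ) : ℂ), (Real.exp (-Real.pi * t) + 1) / 2 < ‖X (-1 / v)‖ :=
      (e12_infty h).eventually_const_lt (by linarith)
    rw [eventually_nhdsWithin_iff, Metric.eventually_nhds_iff_ball] at h2
    obtain ⟨ρ, hρ, h2⟩ := h2
    refine ⟨-1 - 1 / ρ, by have := div_pos one_pos hρ; linarith, fun x hx1 => ?_⟩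
    have hρ1 : 0 < 1 / ρ := div_pos one_pos hρ
    have hx2 : x < -1 := by linarith
    have hx0 : x < 0 := by linarith
    have hu0 : 0 < -1 / x := div_pos_of_neg_of_neg (by norm_num) hx0
    have hxu : -1 / (-1 / x) = x := by field_simp
    have hnb := e8_neBot (-1 / x)
    have hx3 : ((-1 / x : ℝ) : ℂ) ∈ ball ((0 : ℝ) : ℂ) ρ := by
      rw [e8_mem_ball, sub_zero, abs_of_pos hu0, div_lt_iff_of_neg hx0]
      have : ρ * x < ρ * (-(1 / ρ)) := by
        apply mul_lt_mul_of_pos_left _ hρ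
        linarith
      have e : ρ * (-(1 / ρ)) = -1 := by field_simp
      linarith
    have h6 : Tendsto (fun w => ‖X (-1 / w)‖) (𝓝[UH] ((-1 / x : ℝ) : ℂ))
        (𝓝 (Real.exp (-Real.pi * T x))) := by
      have := e11_inv hu0.ne'
      rw [hxu] at this
      exact (hTlim x hx2).comp this
    have h3 : (Real.exp (-Real.pi * t) + 1) / 2 ≤ Real.exp (-Real.pi * T x) := by
      refine ge_of_tendsto h6 ?_
      filter_upwards [self_mem_nhdsWithin, nhdsWithin_le_nhds (isOpen_ball.mem_nhds hx3)] with v h4 h5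
      exact (h2 v h5 h4).le
    have h4 : Real.exp (-Real.pi * t) < Real.exp (-Real.pi * T x) := by linarith
    have h5 := Real.exp_lt_exp.1 h4
    nlinarith
  have hTc : ContinuousOn T (Iio (-1)) := fun x hx => (hder x hx).1.continuousAt.continuousWithinAt
  -- the maximum
  obtain ⟨vc, hvc1, hvc2⟩ : ∃ vc < -1, ∀ x : ℝ, x < -1 → T x ≤ T vc := by
    have ht := (hTpos (-2) (by norm_num)).1
    obtain ⟨b, hb, hb'⟩ := hsmall1 (T (-2)) ht
    obtain ⟨a, ha, ha'⟩ := hsmall2 (T (-2)) ht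
    have h2b : -2 < b := by
      by_contra hcon
      push Not at hcon
      exact lt_irrefl _ (hb' (-2) hcon (by norm_num))
    have h2a : a < -2 := by
      by_contra hcon
      push Not at hcon
      exact lt_irrefl _ (ha' (-2) hcon)
    obtain ⟨vc, hvc, hmax⟩ := isCompact_Icc.exists_isMaxOn (s := Icc a b) (f := T)
      ⟨-2, h2a.le, h2b.le⟩ (hTc.mono fun x hx => lt_of_le_of_lt hx.2 hb)
    refine ⟨vc, lt_of_le_of_lt hvc.2 hb, fun x hx => ?_⟩
    have h3 : T (-2) ≤ T vc := hmax ⟨h2a.le, h2b.le⟩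
    rcases le_or_gt x a with h4 | h4
    · exact (ha' x h4).le.trans h3
    · rcases le_or_gt b x with h5 | h5
      · exact (hb' x h5 hx).le.trans h3
      · exact hmax ⟨h4.le, h5.le⟩
  have hlocal : ∀ x : ℝ, x < -1 → IsLocalExtr T x → deriv (τ x) x = 0 := fun x hx hext =>
    hcrit x hx hext.deriv_eq_zero
  have hvcd : deriv (τ vc) vc = 0 := by
    refine hlocal vc hvc1 (Or.inr ?_)
    filter_upwards [eventually_lt_nhds hvc1] with u hu
    exact hvc2 u hu
  -- uniqueness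
  have huniq : ∀ x₁ x₂ : ℝ, x₁ < x₂ → x₂ < -1 → deriv (τ x₁) x₁ = 0 → deriv (τ x₂) x₂ = 0 →
      False := by
    intro x₁ x₂ h12 hx2 hd1 hd2
    have hx1 : x₁ < -1 := h12.trans hx2
    have hT1 : T x₁ = y := hτI x₁ hx1 (hτc x₁ hx1 hd1).2
    have hT2 : T x₂ = y := hτI x₂ hx2 (hτc x₂ hx2 hd2).2
    obtain ⟨m, hm, hmin⟩ := isCompact_Icc.exists_isMinOn (s := Icc x₁ x₂) (f := T)
      ⟨x₁, le_rfl, h12.le⟩ (hTc.mono fun x hx => lt_of_le_of_lt hx.2 hx2)
    have hm1 : m < -1 := lt_of_le_of_lt hm.2 hx2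
    have hmy : T m ≤ y := (hTpos m hm1).2
    rcases lt_or_eq_of_le hmy with h3 | h3
    · have hm3 : m ≠ x₁ := by intro h; rw [h, hT1] at h3; exact lt_irrefl _ h3
      have hm4 : m ≠ x₂ := by intro h; rw [h, hT2] at h3; exact lt_irrefl _ h3
      have hmIoo : m ∈ Ioo x₁ x₂ := ⟨lt_of_le_of_ne hm.1 hm3.symm, lt_of_le_of_ne hm.2 hm4⟩
      have hd := hlocal m hm1 (Or.inl (by
        filter_upwards [Ioo_mem_nhds hmIoo.1 hmIoo.2] with u hu
        exact hmin ⟨hu.1.le, hu.2.le⟩))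
      have := hτI m hm1 (hτc m hm1 hd).2
      linarith
    · set m' := (x₁ + x₂) / 2 with hm'
      have hm'1 : x₁ < m' := by rw [hm']; linarith
      have hm'2 : m' < x₂ := by rw [hm']; linarith
      have hm'3 : m' < -1 := by linarith
      have hTy : ∀ u ∈ Icc x₁ x₂, T u = y := by
        intro u hu
        apply le_antisymm (hTpos u (lt_of_le_of_lt hu.2 hx2)).2
        rw [← h3]; exact hmin hu
      have hreal : ∀ᶠ u : ℝ in 𝓝 m', τ m' u - y * I = 0 := by
        filter_upwards [hτT m' hm'3, Ioo_mem_nhds hm'1 hm'2] with u h4 h5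
        rw [h4, hTy u ⟨h5.1.le, h5.2.le⟩, sub_self]
      have hana : AnalyticAt ℂ (fun v => τ m' v - y * I) (m' : ℂ) :=
        ((hτd m' hm'3).analyticAt (hmem m' hm'3)).sub analyticAt_const
      have hev : ∀ᶠ v in 𝓝 (m' : ℂ), τ m' v - y * I = 0 := by
        rcases hana.eventually_eq_zero_or_eventually_ne_zero with h4 | h4
        · exact h4
        · exfalso
          have h5 : Tendsto (fun u : ℝ => (u : ℂ)) (𝓝[≠] m') (𝓝[≠] (m' : ℂ)) := by
            refine tendsto_nhdsWithin_iff.2 ⟨(Complex.continuous_ofReal.tendsto m').mono_left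
              nhdsWithin_le_nhds, ?_⟩
            filter_upwards [self_mem_nhdsWithin] with u hu
            intro h6
            exact hu (Complex.ofReal_injective h6)
          have h6 := h5.eventually h4
          obtain ⟨u, h7, h8⟩ := (h6.and (nhdsWithin_le_nhds hreal)).exists
          exact h7 h8
      have hc : τ m' =ᶠ[𝓝 (m' : ℂ)] fun _ => (y : ℂ) * I := by
        filter_upwards [hev] with v hv
        exact sub_eq_zero.1 hv
      have hd1 : deriv (τ m') =ᶠ[𝓝 (m' : ℂ)] fun _ => 0 := by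
        have := hc.deriv
        filter_upwards [this] with v hv
        rw [hv, deriv_const]
      have hd0 : deriv (τ m') m' = 0 := hd1.self_of_nhds
      have hd2 : deriv (deriv (τ m')) m' = 0 := by
        rw [hd1.deriv_eq, deriv_const]
      exact (hτc m' hm'3 hd0).1 hd2
  refine ⟨X, v₀, vc, ?_⟩
  exact
    { y_pos := hy
      v0_im := h.v0_im
      vc_lt := hvc1
      diff := h.diff
      inj := h.inj
      deriv_ne := deriv_ne_of_injOn e8_isOpen_UH h.diff h.inj
      img := h.img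
      zero := h.zero
      slit := by
        intro x hx
        refine ⟨r x, hr x hx, τ x, hτd x hx, hτe x hx, hτr x hx, ?_, ?_⟩
        · intro hne hd
          rcases lt_or_gt_of_ne hne with h1 | h1
          · exact huniq x vc h1 hvc1 hd hvcd
          · exact huniq vc x h1 hx hvcd hd
        · intro he
          subst he
          exact ⟨hvcd, (hτc x hx hvcd).1, (hτc x hx hvcd).2⟩
      arc := fun x hx => pre_arc h x hx
      free := fun x h1 h2 => pre_free h x h1 h2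
      negOne := pre_negOne h
      posOne := pre_posOne h
      infty := pre_infty h }

end Pool.Agent.Choc
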