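import Pool.Agent.Lib.MP_2b3e36_an.Ex.Defs

/-!
E1a. Montel's theorem for uniformly bounded sequences, and Hurwitz's theorem on injectivity.

montel. Proof: by Cauchy's estimates the `F n` are uniformly Lipschitz on compact subsets, hence
equicontinuous. Diagonal argument: a subsequence converges at all points of a countable dense subset of
`U`; equicontinuity gives locally uniform convergence (Cauchy criterion); or Arzela-Ascoli on an
exhaustion by compact sets and a diagonal sequence. (Mathlib: `BoundedContinuousFunction.arzela_ascoli`,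
or `ArzelaAscoli`; `TendstoLocallyUniformlyOn.differentiableOn`.)
hurwitz. Proof: suppose `f a = f b`, `a ≠ b` in `U`. `f` is not constant, so `f - f a` has isolated zeros:
choose disjoint closed discs about `a` and `b` in `U` on whose boundary circles `f ≠ f a`, `|f - f a| ≥ 2 c > 0`
there. For large `n` `|F n - f| < c/2` on both discs. If `F n - F n(a)` had no zero in the disc about `b`
then by the minimum principle (`1/(F n - F n a)`) `|F n b - F n a| ≥ min over the circle of |F n - F n a| ≥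
2c - c`; but `F n b - F n a → f b - f a = 0`. So `F n` takes the value `F n a` in the disc about `b`:
not injective.
-/

set_option autoImplicit false

open Complex Set Filter Topology Metric

namespace Pool.Agent.Choc

/-- pointwise convergence of a subsequence on a dense sequence -/
lemma e1a_diag {U : Set ℂ} {F : ℕ → ℂ → ℂ} (hb : ∀ n, ∀ z ∈ U, ‖F n z‖ ≤ 1) (d : ℕ → ℂ) :
    ∃ φ : ℕ → ℕ, StrictMono φ ∧ ∀ k, d k ∈ U → ∃ l : ℂ, Tendsto (fun n => F (φ n) (d k)) atTop (𝓝 l) := by
  classical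
  let G : ℕ → ℕ → ℂ := fun n k => if d k ∈ U then F n (d k) else 0
  have hG : ∀ n, G n ∈ Set.pi univ (fun _ : ℕ => closedBall (0 : ℂ) 1) := by
    intro n k _
    simp only [G]
    split_ifs with h
    · simpa using hb n (d k) h
    · simp
  have hc : IsCompact (Set.pi univ (fun _ : ℕ => closedBall (0 : ℂ) 1)) :=
    isCompact_univ_pi fun _ => isCompact_closedBall 0 1
  obtain ⟨g, _, φ, hφ, hlim⟩ := hc.tendsto_subseq hG
  refine ⟨φ, hφ, fun k hk => ⟨g k, ?_⟩⟩
  have h1 : Tendsto (fun n => G (φ n) k) atTop (𝓝 (g k)) := (tendsto_pi_nhds.1 hlim) k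
  have h2 : ∀ n, G (φ n) k = F (φ n) (d k) := fun n => by simp only [G, if_pos hk]
  simpa only [h2] using h1

lemma e1a_lip {U : Set ℂ} {f : ℂ → ℂ} (hf : DifferentiableOn ℂ f U) (hb : ∀ z ∈ U, ‖f z‖ ≤ 1)
    {c : ℂ} {r : ℝ} (hr : 0 < r) (hU : ball c r ⊆ U) {z : ℂ} (hz : z ∈ ball c r) :
    ‖f z - f c‖ ≤ 2 / r * ‖z - c‖ := by
  have h := Complex.dist_le_div_mul_dist_of_mapsTo_ball (R₁ := r) (R₂ := 2) (hf.mono hU)
    (fun w hw => by
      rw [mem_closedBall, dist_eq_norm]
      refine (norm_sub_le _ _).trans ?_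
      have h1 := hb w (hU hw)
      have h2 := hb c (hU (mem_ball_self hr))
      linarith) hz
  rwa [dist_eq_norm, dist_eq_norm] at h

theorem montel {U : Set ℂ} (hU : IsOpen U) {F : ℕ → ℂ → ℂ}
    (hF : ∀ n, DifferentiableOn ℂ (F n) U) (hb : ∀ n, ∀ z ∈ U, ‖F n z‖ ≤ 1) :
    ∃ φ : ℕ → ℕ, StrictMono φ ∧ ∃ f : ℂ → ℂ, DifferentiableOn ℂ f U ∧
      TendstoLocallyUniformlyOn (fun n => F (φ n)) f atTop U := by
  obtain ⟨φ, hφ, hd⟩ := e1a_diag hb (TopologicalSpace.denseSeq ℂ)
  refine ⟨φ, hφ, ?_⟩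
  -- pointwise Cauchy
  have hpt : ∀ z ∈ U, ∃ l : ℂ, Tendsto (fun n => F (φ n) z) atTop (𝓝 l) := by
    intro z hz
    obtain ⟨r, hr, hrU⟩ := Metric.isOpen_iff.1 hU z hz
    apply cauchySeq_tendsto_of_complete
    rw [Metric.cauchySeq_iff']
    intro ε hε
    set δ : ℝ := min r (ε * r / 8) with hδ
    have hδ0 : 0 < δ := lt_min hr (by positivity)
    obtain ⟨w, hw, k, rfl⟩ := (TopologicalSpace.denseRange_denseSeq ℂ).exists_dist_lt z hδ0 |>.elim
      fun k hk => (⟨_, hk, k, rfl⟩ : ∃ w, dist z w < δ ∧ ∃ k, TopologicalSpace.denseSeq ℂ k = w)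
    set w := TopologicalSpace.denseSeq ℂ k with hwd
    have hwr : w ∈ ball z r := by
      rw [mem_ball, dist_comm]
      exact hw.trans_le (min_le_left _ _)
    have hwU : w ∈ U := hrU hwr
    obtain ⟨l, hl⟩ := hd k hwU
    have hwδ : ‖w - z‖ ≤ ε * r / 8 := by
      rw [← dist_eq_norm, dist_comm]
      exact (hw.trans_le (min_le_right _ _)).le
    have hLip : ∀ n, ‖F (φ n) w - F (φ n) z‖ ≤ ε / 4 := by
      intro n
      refine (e1a_lip (hF (φ n)) (hb (φ n)) hr hrU hwr).trans ?_
      calc 2 / r * ‖w - z‖ ≤ 2 / r * (ε * r / 8) := mul_le_mul_of_nonneg_left hwδ (by positivity)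
        _ = ε / 4 := by field_simp; norm_num
    obtain ⟨N, hN⟩ := (Metric.cauchySeq_iff'.1 hl.cauchySeq) (ε / 4) (by positivity)
    refine ⟨N, fun n hn => ?_⟩
    have h1 := hN n hn
    rw [dist_eq_norm] at h1 ⊢
    have h2 := hLip n
    have h3 := hLip N
    have e : F (φ n) z - F (φ N) z = (F (φ n) w - F (φ N) w) - (F (φ n) w - F (φ n) z) +
        (F (φ N) w - F (φ N) z) := by ring
    rw [e]
    calc ‖(F (φ n) w - F (φ N) w) - (F (φ n) w - F (φ n) z) + (F (φ N) w - F (φ N) z)‖
        ≤ ‖F (φ n) w - F (φ N) w‖ + ‖F (φ n) w - F (φ n) z‖ + ‖F (φ N) w - F (φ N) z‖ :=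
          (norm_add_le _ _).trans (add_le_add (norm_sub_le _ _) le_rfl)
      _ < ε := by linarith
  choose! f hf using hpt
  have hloc : TendstoLocallyUniformlyOn (fun n => F (φ n)) f atTop U := by
    rw [Metric.tendstoLocallyUniformlyOn_iff]
    intro ε hε z hz
    obtain ⟨r, hr, hrU⟩ := Metric.isOpen_iff.1 hU z hz
    set δ : ℝ := min r (ε * r / 8) with hδ
    have hδ0 : 0 < δ := lt_min hr (by positivity)
    refine ⟨ball z δ, mem_nhdsWithin_of_mem_nhds (ball_mem_nhds z hδ0), ?_⟩
    have hLip : ∀ n, ∀ w ∈ ball z δ, ‖F (φ n) w - F (φ n) z‖ ≤ ε / 4 := by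
      intro n w hw
      have hwr : w ∈ ball z r := ball_subset_ball (min_le_left _ _) hw
      refine (e1a_lip (hF (φ n)) (hb (φ n)) hr hrU hwr).trans ?_
      have hwδ : ‖w - z‖ ≤ ε * r / 8 := by
        rw [← dist_eq_norm]
        exact (hw.trans_le (min_le_right _ _)).le
      calc 2 / r * ‖w - z‖ ≤ 2 / r * (ε * r / 8) := mul_le_mul_of_nonneg_left hwδ (by positivity)
        _ = ε / 4 := by field_simp; norm_num
    have hLipf : ∀ w ∈ ball z δ, ‖f w - f z‖ ≤ ε / 4 := by
      intro w hw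
      have hwU : w ∈ U := hrU (ball_subset_ball (min_le_left _ _) hw)
      exact le_of_tendsto ((hf w hwU).sub (hf z hz)).norm (Eventually.of_forall fun n => hLip n w hw)
    have h1 : ∀ᶠ n in atTop, dist (F (φ n) z) (f z) < ε / 4 :=
      (Metric.tendsto_nhds.1 (hf z hz)) (ε / 4) (by positivity)
    filter_upwards [h1] with n hn w hw
    rw [dist_eq_norm] at hn ⊢
    have h2 := hLip n w hw
    have h3 := hLipf w hw
    have e : f w - F (φ n) w = (f w - f z) - (F (φ n) z - f z) - (F (φ n) w - F (φ n) z) := by ring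
    rw [e]
    calc ‖(f w - f z) - (F (φ n) z - f z) - (F (φ n) w - F (φ n) z)‖
        ≤ ‖f w - f z‖ + ‖F (φ n) z - f z‖ + ‖F (φ n) w - F (φ n) z‖ :=
          (norm_sub_le _ _).trans (add_le_add (norm_sub_le _ _) le_rfl)
      _ < ε := by linarith
  exact ⟨f, hloc.differentiableOn (Eventually.of_forall fun n => hF (φ n)) hU, hloc⟩

theorem hurwitz {U : Set ℂ} (hU : IsOpen U) (hc : IsPreconnected U) {F : ℕ → ℂ → ℂ} {f : ℂ → ℂ}
    (hF : ∀ n, DifferentiableOn ℂ (F n) U) (hinj : ∀ n, InjOn (F n) U)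
    (hlim : TendstoLocallyUniformlyOn F f atTop U) {z₁ z₂ : ℂ} (h1 : z₁ ∈ U) (h2 : z₂ ∈ U)
    (hne : f z₁ ≠ f z₂) : InjOn f U := by
  have hfd : DifferentiableOn ℂ f U := hlim.differentiableOn (Eventually.of_forall hF) hU
  have hfa : AnalyticOnNhd ℂ f U := hfd.analyticOnNhd hU
  intro a ha b hb hab
  by_contra hne'
  -- isolated zeros
  have hiso : ∀ᶠ z in 𝓝[≠] b, f z ≠ f b := by
    rcases (hfa b hb).eventually_eq_or_eventually_ne (analyticAt_const (v := f b)) with h | h
    · exfalso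
      have := hfa.eqOn_of_preconnected_of_eventuallyEq (analyticOnNhd_const) hc hb h
      exact hne ((this h1).trans (this h2).symm)
    · exact h
  rw [eventually_nhdsWithin_iff, Metric.eventually_nhds_iff_ball] at hiso
  obtain ⟨r1, hr1, hiso⟩ := hiso
  obtain ⟨r2, hr2, hr2U⟩ := Metric.isOpen_iff.1 hU b hb
  have hab0 : 0 < dist a b := dist_pos.2 hne'
  set r : ℝ := min (min r1 r2) (dist a b) / 2 with hr
  have hr0 : 0 < r := by
    have : 0 < min (min r1 r2) (dist a b) := lt_min (lt_min hr1 hr2) hab0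
    positivity
  have hrlt : r < min (min r1 r2) (dist a b) := by
    have : 0 < min (min r1 r2) (dist a b) := lt_min (lt_min hr1 hr2) hab0
    rw [hr]
    linarith
  have hrr1 : r < r1 := hrlt.trans_le ((min_le_left _ _).trans (min_le_left _ _))
  have hrr2 : r < r2 := hrlt.trans_le ((min_le_left _ _).trans (min_le_right _ _))
  have hra : r < dist a b := hrlt.trans_le (min_le_right _ _)
  have hKU : closedBall b r ⊆ U := (closedBall_subset_ball hrr2).trans hr2U
  have haK : a ∉ closedBall b r := by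
    rw [mem_closedBall]
    exact not_le.2 hra
  have hsph : (sphere b r).Nonempty := NormedSpace.sphere_nonempty.2 hr0.le
  have hcs : ContinuousOn (fun z => ‖f z - f b‖) (sphere b r) :=
    ((hfd.continuousOn.mono (sphere_subset_closedBall.trans hKU)).sub continuousOn_const).norm
  obtain ⟨z₀, hz₀, hmin⟩ := (isCompact_sphere b r).exists_isMinOn hsph hcs
  set m : ℝ := ‖f z₀ - f b‖ with hm
  have hm0 : 0 < m := by
    rw [hm, norm_pos_iff, sub_ne_zero]
    apply hiso z₀
    · rw [mem_ball, (mem_sphere.1 hz₀)]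
      exact hrr1
    · rintro h
      rw [mem_singleton_iff] at h
      rw [h, mem_sphere, dist_self] at hz₀
      exact hr0.ne hz₀
  have hunif := (tendstoLocallyUniformlyOn_iff_forall_isCompact hU).1 hlim (closedBall b r ∪ {a})
    (union_subset hKU (singleton_subset_iff.2 ha))
    ((isCompact_closedBall b r).union isCompact_singleton)
  rw [Metric.tendstoUniformlyOn_iff] at hunif
  obtain ⟨n, hn⟩ := (hunif (m / 4) (by positivity)).exists
  have hna : ‖f a - F n a‖ < m / 4 := by
    rw [← dist_eq_norm]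
    exact hn a (Or.inr rfl)
  have hnK : ∀ z ∈ closedBall b r, ‖f z - F n z‖ < m / 4 := fun z hz => by
    rw [← dist_eq_norm]
    exact hn z (Or.inl hz)
  have hG0 : ∀ z ∈ closedBall b r, F n z - F n a ≠ 0 := by
    intro z hz h
    have := hinj n (hKU hz) ha (sub_eq_zero.1 h)
    exact haK (this ▸ hz)
  have hdc : DiffContOnCl ℂ (fun z => (F n z - F n a)⁻¹) (ball b r) := by
    have hd : DifferentiableOn ℂ (fun z => (F n z - F n a)⁻¹) (closedBall b r) :=
      (((hF n).mono hKU).sub_const _).inv hG0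
    exact hd.diffContOnCl_ball subset_rfl
  have hbd : ‖(F n b - F n a)⁻¹‖ ≤ 2 / m := by
    refine Complex.norm_le_of_forall_mem_frontier_norm_le isBounded_ball hdc (C := 2 / m) ?_
      (subset_closure (mem_ball_self hr0))
    intro z hz
    rw [frontier_ball b hr0.ne'] at hz
    have hzK := sphere_subset_closedBall hz
    have h3 : m ≤ ‖f z - f b‖ := hmin hz
    have h4 := hnK z hzK
    have h5 : m / 2 ≤ ‖F n z - F n a‖ := by
      have e : f z - f b = (f z - F n z) + (F n z - F n a) - (f a - F n a) := by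
        rw [hab]
        ring
      have h6 : ‖f z - f b‖ ≤ ‖f z - F n z‖ + ‖F n z - F n a‖ + ‖f a - F n a‖ := by
        rw [e]
        exact (norm_sub_le _ _).trans (add_le_add (norm_add_le _ _) le_rfl)
      linarith
    rw [norm_inv, inv_le_comm₀ (by linarith) (by positivity)]
    rw [inv_div]
    exact h5
  have hlt : ‖F n b - F n a‖ < m / 2 := by
    have e : F n b - F n a = (f a - F n a) - (f b - F n b) := by
      rw [hab]
      ring
    rw [e]
    refine (norm_sub_le _ _).trans_lt ?_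
    have := hnK b (mem_closedBall_self hr0.le)
    linarith
  have hpos : 0 < ‖F n b - F n a‖ := norm_pos_iff.2 (hG0 b (mem_closedBall_self hr0.le))
  rw [norm_inv, inv_le_comm₀ hpos (by positivity), inv_div] at hbd
  linarith

/-- an injective holomorphic map is open and its inverse is continuous -/
lemma e1a_open {U : Set ℂ} (hU : IsOpen U) {f : ℂ → ℂ} (hf : DifferentiableOn ℂ f U)
    (hinj : InjOn f U) : ∀ s ⊆ U, IsOpen s → IsOpen (f '' s) := by
  intro s hs hso
  rw [isOpen_iff_mem_nhds]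
  rintro _ ⟨z, hz, rfl⟩
  have han : AnalyticAt ℂ f z := hf.analyticAt (hU.mem_nhds (hs hz))
  rcases han.eventually_constant_or_nhds_le_map_nhds with h | h
  · exfalso
    obtain ⟨r, hr, hB⟩ := Metric.mem_nhds_iff.1 (Filter.inter_mem (hso.mem_nhds hz) h)
    have hy : z ∈ ball z r := mem_ball_self hr
    have hw : z + ((r / 2 : ℝ) : ℂ) ∈ ball z r := by
      rw [mem_ball, dist_eq_norm, add_sub_cancel_left, Complex.norm_real,
        Real.norm_of_nonneg (by positivity)]
      linarith
    have h4 := hinj (hs (hB hy).1) (hs (hB hw).1) ((hB hw).2 : f _ = f z).symm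
    have h5 : ((r / 2 : ℝ) : ℂ) = 0 := by
      have := congrArg (fun t => t - z) h4
      simpa using this.symm
    have h6 : r / 2 = 0 := by exact_mod_cast h5
    linarith
  · exact h (Filter.image_mem_map (hso.mem_nhds hz))

lemma e1a_inv_cont {U : Set ℂ} (hU : IsOpen U) {f : ℂ → ℂ} (hf : DifferentiableOn ℂ f U)
    (hinj : InjOn f U) {φ : ℂ → ℂ} (hφ : ∀ z ∈ U, φ (f z) = z) : ContinuousOn φ (f '' U) := by
  have hopen := e1a_open hU hf hinj
  rw [continuousOn_open_iff (hopen U subset_rfl hU)]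
  intro t ht
  have h3 : f '' U ∩ φ ⁻¹' t = f '' (U ∩ t) := by
    ext w
    constructor
    · rintro ⟨⟨z, hz, rfl⟩, hw⟩
      refine ⟨z, ⟨hz, ?_⟩, rfl⟩
      have : φ (f z) ∈ t := hw
      rwa [hφ z hz] at this
    · rintro ⟨z, ⟨hz, hzt⟩, rfl⟩
      refine ⟨⟨z, hz, rfl⟩, ?_⟩
      show φ (f z) ∈ t
      rwa [hφ z hz]
  rw [h3]
  exact hopen _ Set.inter_subset_left (hU.inter ht)

/-- the derivative of the inverse, at points with nonvanishing derivative -/
lemma e1a_inv_aux {U : Set ℂ} (hU : IsOpen U) {f : ℂ → ℂ} (hf : DifferentiableOn ℂ f U)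
    (hinj : InjOn f U) {φ : ℂ → ℂ} (hφ : ∀ z ∈ U, φ (f z) = z) {z : ℂ} (hz : z ∈ U)
    (hdz : deriv f z ≠ 0) : HasDerivAt φ (deriv f z)⁻¹ (f z) := by
  have hW : f '' U ∈ 𝓝 (f z) := (e1a_open hU hf hinj U subset_rfl hU).mem_nhds ⟨z, hz, rfl⟩
  have hgz : HasDerivAt f (deriv f z) (φ (f z)) := by
    rw [hφ z hz]
    exact (hf.differentiableAt (hU.mem_nhds hz)).hasDerivAt
  refine HasDerivAt.of_local_left_inverse ((e1a_inv_cont hU hf hinj hφ).continuousAt hW) hgz hdz ?_
  filter_upwards [hW] with w hw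
  obtain ⟨x, hx, rfl⟩ := hw
  rw [hφ x hx]

/-- The derivative of an injective holomorphic function does not vanish. -/
theorem deriv_ne_of_injOn {U : Set ℂ} (hU : IsOpen U) {f : ℂ → ℂ} (hf : DifferentiableOn ℂ f U)
    (hinj : InjOn f U) : ∀ z ∈ U, deriv f z ≠ 0 := by
  intro y hyU hd
  have hg : AnalyticAt ℂ f y := hf.analyticAt (hU.mem_nhds hyU)
  rcases hg.deriv.eventually_eq_zero_or_eventually_ne_zero with h2 | h2
  · obtain ⟨r, hr, hB⟩ := Metric.mem_nhds_iff.1 (Filter.inter_mem (hU.mem_nhds hyU) h2)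
    have hy : y ∈ Metric.ball y r := Metric.mem_ball_self hr
    have hz : y + (r / 2 : ℝ) ∈ Metric.ball y r := by
      rw [Metric.mem_ball, dist_eq_norm, add_sub_cancel_left, Complex.norm_real,
        Real.norm_of_nonneg (by positivity)]
      linarith
    have h3 : f y = f (y + (r / 2 : ℝ)) :=
      Metric.isOpen_ball.is_const_of_deriv_eq_zero (convex_ball y r).isPreconnected
        (fun z hz => (hf.differentiableAt (hU.mem_nhds (hB hz).1)).differentiableWithinAt)
        (fun z hz => (hB hz).2) hy hz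
    have h4 := hinj (hB hy).1 (hB hz).1 h3
    have h5 : ((r / 2 : ℝ) : ℂ) = 0 := by
      have := congrArg (fun t => t - y) h4
      simpa using this.symm
    have h6 : r / 2 = 0 := by exact_mod_cast h5
    linarith
  · rw [eventually_nhdsWithin_iff] at h2
    obtain ⟨r, hr, hB⟩ := Metric.mem_nhds_iff.1 (Filter.inter_mem (hU.mem_nhds hyU) h2)
    set B := Metric.ball y r with hBdef
    have hy : y ∈ B := Metric.mem_ball_self hr
    have hBo : IsOpen B := Metric.isOpen_ball
    have hinjB : Set.InjOn f B := hinj.mono (fun z hz => (hB hz).1)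
    have hfB : DifferentiableOn ℂ f B := hf.mono (fun z hz => (hB hz).1)
    set φ := Function.invFunOn f B with hφ
    have hleft : ∀ z ∈ B, φ (f z) = z := fun z hz => hinjB.leftInvOn_invFunOn hz
    have hWo : IsOpen (f '' B) := e1a_open hBo hfB hinjB B subset_rfl hBo
    have hcont : ContinuousOn φ (f '' B) := e1a_inv_cont hBo hfB hinjB hleft
    have hWy : f '' B ∈ 𝓝 (f y) := hWo.mem_nhds ⟨y, hy, rfl⟩
    have hdiff : DifferentiableOn ℂ φ (f '' B) := by
      rw [← Complex.differentiableOn_compl_singleton_and_continuousAt_iff hWy]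
      refine ⟨?_, hcont.continuousAt hWy⟩
      rintro w ⟨⟨z, hz, rfl⟩, hw⟩
      have hzy : z ≠ y := by
        rintro rfl
        exact hw rfl
      exact (e1a_inv_aux hBo hfB hinjB hleft hz
        ((hB hz).2 hzy)).differentiableAt.differentiableWithinAt
    have hφd : DifferentiableAt ℂ φ (f y) := hdiff.differentiableAt hWy
    have h6 : HasDerivAt (φ ∘ f) (deriv φ (f y) * deriv f y) y :=
      hφd.hasDerivAt.comp y hg.differentiableAt.hasDerivAt
    have h7 : (φ ∘ f) =ᶠ[𝓝 y] id := by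
      filter_upwards [hBo.mem_nhds hy] with z hz
      exact hleft z hz
    have h8 : HasDerivAt id (deriv φ (f y) * deriv f y) y := h6.congr_of_eventuallyEq h7.symm
    have h9 := h8.unique (hasDerivAt_id y)
    rw [hd, mul_zero] at h9
    exact zero_ne_one h9

/-- the inverse of an injective holomorphic function is holomorphic -/
lemma e1a_inv {U : Set ℂ} (hU : IsOpen U) {f : ℂ → ℂ} (hf : DifferentiableOn ℂ f U)
    (hinj : InjOn f U) {φ : ℂ → ℂ} (hφ : ∀ z ∈ U, φ (f z) = z) {z : ℂ} (hz : z ∈ U) :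
    HasDerivAt φ (deriv f z)⁻¹ (f z) :=
  e1a_inv_aux hU hf hinj hφ hz (deriv_ne_of_injOn hU hf hinj z hz)

end Pool.Agent.Choc
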