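import Pool.Agent.Lib.MP_2b3e36_an.Ex.E1a
import Pool.Agent.Lib.MP_2b3e36_an.Ex.L0

/-!
E1b. The Riemann mapping theorem for star shaped open subsets of the unit disc.

Proof (Koebe). `F = {f : V → unit disc holomorphic, injective, f 0 = 0}`; the identity belongs to it.
`s = sup |f' 0| ≥ 1`, finite by Cauchy. Take `f_n` with `|f_n' 0| → s`; `montel`: a subsequence converges
locally uniformly to `f` with `|f' 0| = s > 0`, so `f` is not constant, injective by `hurwitz`, `|f| ≤ 1`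
and `< 1` by the maximum principle (open mapping). Suppose `a` is in the unit disc but not in `f(V)`. Let
`T_a z = (z - a)/(1 - conj a z)`. `T_a ∘ f` has no zero on `V`: let `g` be a holomorphic square root
(`exists_log`, `V` star shaped), injective (as `g^2` is), `|g| < 1`; `h = T_(g 0) ∘ g`, `h 0 = 0`, belongs to
`F`. `f = Ψ ∘ h` with `Ψ = T_(-a) ∘ (square) ∘ T_(-g 0)` a holomorphic self map of the disc fixing `0`, not
injective, so `|Ψ' 0| < 1` by Schwarz; so `|h' 0| > |f' 0| = s`. Contradiction. So `f(V)` is the unit disc,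
`X = f⁻¹` (inverse functions of injective holomorphic functions are holomorphic).
-/

set_option autoImplicit false

open Complex Set Filter Topology Metric

namespace Pool.Agent.Choc

/-- the Moebius transformations of the disc -/
noncomputable def e1b_T (a z : ℂ) : ℂ := (z - a) / (1 - (starRingEnd ℂ) a * z)

lemma e1b_den {a z : ℂ} (ha : ‖a‖ < 1) (hz : ‖z‖ < 1) : 1 - (starRingEnd ℂ) a * z ≠ 0 := by
  intro h
  have h1 : (starRingEnd ℂ) a * z = 1 := (sub_eq_zero.1 h).symm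
  have h2 : ‖(starRingEnd ℂ) a * z‖ = 1 := by rw [h1, norm_one]
  rw [norm_mul, Complex.norm_conj] at h2
  have h3 : ‖a‖ * ‖z‖ < 1 := mul_lt_one_of_nonneg_of_lt_one_left (norm_nonneg _) ha hz.le
  linarith

lemma e1b_norm {a z : ℂ} (ha : ‖a‖ < 1) (hz : ‖z‖ < 1) : ‖e1b_T a z‖ < 1 := by
  have hd := e1b_den ha hz
  have hd0 : 0 < ‖1 - (starRingEnd ℂ) a * z‖ := norm_pos_iff.2 hd
  rw [e1b_T, norm_div, div_lt_one hd0]
  have h1 : normSq (1 - (starRingEnd ℂ) a * z) - normSq (z - a) =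
      (1 - normSq a) * (1 - normSq z) := by
    simp only [normSq_apply, sub_re, sub_im, one_re, one_im, mul_re, mul_im, conj_re, conj_im]
    ring
  have ha2 : normSq a < 1 := by
    rw [Complex.normSq_eq_norm_sq]
    exact pow_lt_one₀ (norm_nonneg _) ha two_ne_zero
  have hz2 : normSq z < 1 := by
    rw [Complex.normSq_eq_norm_sq]
    exact pow_lt_one₀ (norm_nonneg _) hz two_ne_zero
  have h2 : 0 < (1 - normSq a) * (1 - normSq z) := mul_pos (by linarith) (by linarith)
  rw [← h1, Complex.normSq_eq_norm_sq, Complex.normSq_eq_norm_sq] at h2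
  exact lt_of_pow_lt_pow_left₀ 2 hd0.le (by linarith)

lemma e1b_inj {a z w : ℂ} (ha : ‖a‖ < 1) (hz : ‖z‖ < 1) (hw : ‖w‖ < 1)
    (h : e1b_T a z = e1b_T a w) : z = w := by
  rw [e1b_T, e1b_T, div_eq_div_iff (e1b_den ha hz) (e1b_den ha hw)] at h
  have h1 : (z - w) * (1 - (starRingEnd ℂ) a * a) = 0 := by linear_combination h
  rcases mul_eq_zero.1 h1 with h2 | h2
  · exact sub_eq_zero.1 h2
  · exact absurd h2 (e1b_den ha ha)

lemma e1b_deriv {a z : ℂ} (ha : ‖a‖ < 1) (hz : ‖z‖ < 1) :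
    HasDerivAt (e1b_T a) ((1 - (starRingEnd ℂ) a * a) / (1 - (starRingEnd ℂ) a * z) ^ 2) z := by
  have h1 : HasDerivAt (fun z => z - a) 1 z := (hasDerivAt_id z).sub_const a
  have h2 : HasDerivAt (fun z => 1 - (starRingEnd ℂ) a * z) (-(starRingEnd ℂ) a) z := by
    have := ((hasDerivAt_id z).const_mul ((starRingEnd ℂ) a)).const_sub 1
    rw [mul_one] at this
    exact this
  have h3 := h1.div h2 (e1b_den ha hz)
  exact h3.congr_deriv (by ring)

/-- one step of Koebe's method: a map which is not onto can be improved -/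
lemma e1b_koebe {V : Set ℂ} (ho : IsOpen V) (h0 : (0 : ℂ) ∈ V) (hs : StarConvex ℝ (0 : ℂ) V)
    {f : ℂ → ℂ} (hf : DifferentiableOn ℂ f V) (hi : InjOn f V) (hm : MapsTo f V (ball 0 1))
    (hf0 : f 0 = 0) {a : ℂ} (ha : ‖a‖ < 1) (haV : a ∉ f '' V) :
    ∃ h : ℂ → ℂ, DifferentiableOn ℂ h V ∧ InjOn h V ∧ MapsTo h V (ball 0 1) ∧ h 0 = 0 ∧
      ‖deriv f 0‖ < ‖deriv h 0‖ := by
  have hfn : ∀ z ∈ V, ‖f z‖ < 1 := fun z hz => by simpa using hm hz
  have ha0 : a ≠ 0 := by
    rintro rfl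
    exact haV ⟨0, h0, hf0⟩
  have hdf0 : deriv f 0 ≠ 0 := deriv_ne_of_injOn ho hf hi 0 h0
  -- the map without zeros
  set u : ℂ → ℂ := fun z => e1b_T a (f z) with hu
  have hud : DifferentiableOn ℂ u V := by
    intro z hz
    exact ((e1b_deriv ha (hfn z hz)).differentiableAt.comp z
      (hf.differentiableAt (ho.mem_nhds hz))).differentiableWithinAt
  have hu0 : ∀ z ∈ V, u z ≠ 0 := by
    intro z hz h
    rw [hu] at h
    simp only [e1b_T, div_eq_zero_iff] at h
    rcases h with h | h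
    · exact haV ⟨z, hz, sub_eq_zero.1 h⟩
    · exact e1b_den ha (hfn z hz) h
  have hu0' : u 0 = -a := by
    rw [hu]
    simp [e1b_T, hf0]
  obtain ⟨l, hld, hl, _⟩ := exists_log ho h0 hs hud hu0 (c := Complex.log (u 0))
    (Complex.exp_log (hu0 0 h0))
  -- its square root
  set g : ℂ → ℂ := fun z => exp (l z / 2) with hg
  have hgd : DifferentiableOn ℂ g V := (hld.div_const 2).cexp
  have hg2 : ∀ z ∈ V, g z ^ 2 = u z := by
    intro z hz
    rw [hg, ← hl z hz, ← Complex.exp_nat_mul]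
    congr 1
    push_cast
    ring
  have hgn : ∀ z ∈ V, ‖g z‖ < 1 := by
    intro z hz
    have h1 : ‖g z‖ ^ 2 < 1 := by
      rw [← norm_pow, hg2 z hz]
      exact e1b_norm ha (hfn z hz)
    exact (pow_lt_one_iff_of_nonneg (norm_nonneg _) two_ne_zero).1 h1
  have hgi : InjOn g V := by
    intro z hz w hw h
    have h1 : u z = u w := by rw [← hg2 z hz, ← hg2 w hw, h]
    exact hi hz hw (e1b_inj ha (hfn z hz) (hfn w hw) h1)
  set b : ℂ := g 0 with hb
  have hbn : ‖b‖ < 1 := hgn 0 h0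
  have hb2 : b ^ 2 = -a := by rw [hb, hg2 0 h0, hu0']
  have hb0 : b ≠ 0 := by
    intro h
    rw [h] at hb2
    apply ha0
    have : -a = 0 := by rw [← hb2]; ring
    exact neg_eq_zero.1 this
  refine ⟨fun z => e1b_T b (g z), ?_, ?_, ?_, ?_, ?_⟩
  · intro z hz
    exact ((e1b_deriv hbn (hgn z hz)).differentiableAt.comp z
      (hgd.differentiableAt (ho.mem_nhds hz))).differentiableWithinAt
  · intro z hz w hw h
    exact hgi hz hw (e1b_inj hbn (hgn z hz) (hgn w hw) h)
  · intro z hz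
    simpa using e1b_norm hbn (hgn z hz)
  · show e1b_T b (g 0) = 0
    rw [← hb]
    simp [e1b_T]
  · -- the derivatives
    have hV0 : V ∈ 𝓝 (0 : ℂ) := ho.mem_nhds h0
    have dg : HasDerivAt g (deriv g 0) 0 := (hgd.differentiableAt hV0).hasDerivAt
    have df : HasDerivAt f (deriv f 0) 0 := (hf.differentiableAt hV0).hasDerivAt
    have dT : HasDerivAt (e1b_T a) (1 - (starRingEnd ℂ) a * a) (f 0) := by
      have := e1b_deriv ha (hfn 0 h0)
      rw [hf0] at this ⊢
      exact this.congr_deriv (by simp)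
    have du : HasDerivAt u ((1 - (starRingEnd ℂ) a * a) * deriv f 0) 0 := dT.comp (0 : ℂ) df
    have dg2 : HasDerivAt (fun z => g z ^ 2) (2 * g 0 * deriv g 0) 0 := by
      have := dg.pow 2
      exact this.congr_deriv (by norm_num)
    have e1 : (fun z => g z ^ 2) =ᶠ[𝓝 0] u := by
      filter_upwards [hV0] with z hz
      exact hg2 z hz
    have e2 : 2 * b * deriv g 0 = (1 - (starRingEnd ℂ) a * a) * deriv f 0 :=
      (dg2.congr_of_eventuallyEq e1.symm).unique du
    have dh : HasDerivAt (fun z => e1b_T b (g z))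
        ((1 - (starRingEnd ℂ) b * b) / (1 - (starRingEnd ℂ) b * b) ^ 2 * deriv g 0) 0 := by
      have := e1b_deriv hbn (hgn 0 h0)
      exact this.comp (0 : ℂ) dg
    rw [dh.deriv]
    set t : ℝ := ‖b‖ with ht
    have ht0 : 0 < t := norm_pos_iff.2 hb0
    have hta : t ^ 2 = ‖a‖ := by
      rw [ht, ← norm_pow, hb2, norm_neg]
    have nb : (starRingEnd ℂ) b * b = ((t ^ 2 : ℝ) : ℂ) := by
      rw [mul_comm, Complex.mul_conj, Complex.normSq_eq_norm_sq]
    have na : (starRingEnd ℂ) a * a = ((t ^ 4 : ℝ) : ℂ) := by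
      rw [mul_comm, Complex.mul_conj, Complex.normSq_eq_norm_sq, ← hta]
      norm_num
      ring
    have hp2 : 0 < 1 - t ^ 2 := by nlinarith
    have hp4 : 0 < 1 - t ^ 4 := by nlinarith
    have n1 : ‖1 - (starRingEnd ℂ) b * b‖ = 1 - t ^ 2 := by
      rw [nb, ← ofReal_one, ← ofReal_sub, Complex.norm_real, Real.norm_of_nonneg hp2.le]
    have n2 : ‖1 - (starRingEnd ℂ) a * a‖ = 1 - t ^ 4 := by
      rw [na, ← ofReal_one, ← ofReal_sub, Complex.norm_real, Real.norm_of_nonneg hp4.le]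
    have e3 : 2 * t * ‖deriv g 0‖ = (1 - t ^ 4) * ‖deriv f 0‖ := by
      have := congrArg norm e2
      rw [norm_mul, norm_mul, norm_mul, n2] at this
      simpa using this
    rw [norm_mul, norm_div, norm_pow, n1]
    have hD : 0 < ‖deriv f 0‖ := norm_pos_iff.2 hdf0
    have e4 : ‖deriv g 0‖ = (1 - t ^ 4) * ‖deriv f 0‖ / (2 * t) := by
      rw [eq_div_iff (by positivity)]
      linarith
    rw [e4]
    have e5 : (1 - t ^ 2) / (1 - t ^ 2) ^ 2 * ((1 - t ^ 4) * ‖deriv f 0‖ / (2 * t)) =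
        (1 + t ^ 2) / (2 * t) * ‖deriv f 0‖ := by
      have h1 : 1 - t ^ 2 ≠ 0 := hp2.ne'
      field_simp
      ring
    rw [e5]
    have h6 : 1 < (1 + t ^ 2) / (2 * t) := by
      rw [lt_div_iff₀ (by positivity)]
      nlinarith [sq_nonneg (1 - t), mul_pos (show 0 < 1 - t by linarith) (show 0 < 1 - t by linarith)]
    exact lt_mul_of_one_lt_left hD h6

theorem riemann_star {V : Set ℂ} (ho : IsOpen V) (h0 : (0 : ℂ) ∈ V) (hb : V ⊆ ball 0 1)
    (hs : StarConvex ℝ (0 : ℂ) V) :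
    ∃ X : ℂ → ℂ, DifferentiableOn ℂ X (ball 0 1) ∧ InjOn X (ball 0 1) ∧
      X '' ball 0 1 = V ∧ X 0 = 0 := by
  have hcon : IsPreconnected V := (hs.isPathConnected h0).isConnected.isPreconnected
  let P : (ℂ → ℂ) → Prop := fun f => DifferentiableOn ℂ f V ∧ InjOn f V ∧
    MapsTo f V (ball 0 1) ∧ f 0 = 0
  let S : Set ℝ := {x | ∃ f, P f ∧ ‖deriv f 0‖ = x}
  have hV0 : V ∈ 𝓝 (0 : ℂ) := ho.mem_nhds h0
  have hid : P id := ⟨differentiableOn_id, injOn_id _, fun z hz => hb hz, rfl⟩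
  have h1S : (1 : ℝ) ∈ S := ⟨id, hid, by simp⟩
  obtain ⟨r, hr, hrV⟩ := Metric.isOpen_iff.1 ho 0 h0
  have hbdd : BddAbove S := by
    refine ⟨1 / r, ?_⟩
    rintro x ⟨f, ⟨hf, _, hm, hf0⟩, rfl⟩
    refine Complex.norm_deriv_le_div_of_mapsTo_ball (hf.mono hrV) (R₂ := 1) ?_ hr
    intro z hz
    rw [hf0]
    exact ball_subset_closedBall (hm (hrV hz))
  obtain ⟨x, _, hx, hxS⟩ := exists_seq_tendsto_sSup ⟨1, h1S⟩ hbdd
  set s := sSup S with hs'
  have hs1 : 1 ≤ s := le_csSup hbdd h1S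
  choose F hFP hFx using hxS
  have hFd : ∀ n, DifferentiableOn ℂ (F n) V := fun n => (hFP n).1
  have hFn : ∀ n, ∀ z ∈ V, ‖F n z‖ ≤ 1 := fun n z hz => by
    have := (hFP n).2.2.1 hz
    rw [mem_ball_zero_iff] at this
    exact this.le
  obtain ⟨φ, hφ, f, hfd, hlim⟩ := montel ho hFd hFn
  have hpt : ∀ z ∈ V, Tendsto (fun n => F (φ n) z) atTop (𝓝 (f z)) := fun z hz =>
    hlim.tendsto_at hz
  have hf0 : f 0 = 0 := by
    have h1 := hpt 0 h0
    have h2 : (fun n => F (φ n) 0) = fun _ => 0 := funext fun n => (hFP (φ n)).2.2.2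
    rw [h2] at h1
    exact (tendsto_nhds_unique h1 tendsto_const_nhds)
  have hder : ‖deriv f 0‖ = s := by
    have h1 := (hlim.deriv (Eventually.of_forall fun n => hFd (φ n)) ho).tendsto_at h0
    have h2 : Tendsto (fun n => ‖deriv (F (φ n)) 0‖) atTop (𝓝 ‖deriv f 0‖) := h1.norm
    have h3 : Tendsto (fun n => ‖deriv (F (φ n)) 0‖) atTop (𝓝 s) := by
      have := hx.comp hφ.tendsto_atTop
      refine this.congr fun n => ?_
      exact (hFx (φ n)).symm
    exact tendsto_nhds_unique h2 h3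
  have hinj : InjOn f V := by
    by_cases hex : ∃ z ∈ V, f z ≠ f 0
    · obtain ⟨z, hz, hne⟩ := hex
      exact hurwitz ho hcon (fun n => hFd (φ n)) (fun n => (hFP (φ n)).2.1) hlim hz h0 hne
    · exfalso
      push Not at hex
      have h1 : f =ᶠ[𝓝 0] fun _ => f 0 := by
        filter_upwards [hV0] with z hz
        exact hex z hz
      have h2 : deriv f 0 = 0 := by
        rw [h1.deriv_eq]
        simp
      rw [h2, norm_zero] at hder
      linarith
  have hopen : IsOpen (f '' V) := e1a_open ho hfd hinj V subset_rfl ho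
  have hmaps : MapsTo f V (ball 0 1) := by
    have h1 : f '' V ⊆ closedBall 0 1 := by
      rintro _ ⟨z, hz, rfl⟩
      rw [mem_closedBall_zero_iff]
      exact le_of_tendsto (hpt z hz).norm (Eventually.of_forall fun n => hFn (φ n) z hz)
    have h2 : f '' V ⊆ interior (closedBall 0 1) := hopen.subset_interior_iff.2 h1
    rw [interior_closedBall _ one_ne_zero] at h2
    exact fun z hz => h2 ⟨z, hz, rfl⟩
  have hsurj : f '' V = ball 0 1 := by
    apply Subset.antisymm
    · rintro _ ⟨z, hz, rfl⟩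
      exact hmaps hz
    · intro a ha
      by_contra haV
      obtain ⟨g, g1, g2, g3, g4, g5⟩ := e1b_koebe ho h0 hs hfd hinj hmaps hf0 (by simpa using ha) haV
      have h1 : ‖deriv g 0‖ ≤ s := le_csSup hbdd ⟨g, ⟨g1, g2, g3, g4⟩, rfl⟩
      linarith
  set X := Function.invFunOn f V with hX
  have hleft : ∀ z ∈ V, X (f z) = z := fun z hz => hinj.leftInvOn_invFunOn hz
  refine ⟨X, ?_, ?_, ?_, ?_⟩
  · rw [← hsurj]
    rintro _ ⟨z, hz, rfl⟩
    exact (e1a_inv ho hfd hinj hleft hz).differentiableAt.differentiableWithinAt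
  · rw [← hsurj]
    rintro _ ⟨z, hz, rfl⟩ _ ⟨w, hw, rfl⟩ h
    rw [hleft z hz, hleft w hw] at h
    rw [h]
  · rw [← hsurj]
    ext z
    constructor
    · rintro ⟨_, ⟨w, hw, rfl⟩, rfl⟩
      rw [hleft w hw]
      exact hw
    · intro hz
      exact ⟨f z, ⟨z, hz, rfl⟩, hleft z hz⟩
  · have := hleft 0 h0
    rwa [hf0] at this

end Pool.Agent.Choc
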