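import Pool.Agent.Lib.MP_2b3e36_an.Ex.E1a

/-!
E2. A conformal map onto a star shaped domain has `Re (z X'(z)/X(z)) ≥ 0`.

Proof. For `0 < t < 1` let `φ_t = X⁻¹ (t X z)`, a holomorphic self map of the unit disc fixing `0`, so
`|φ_t z| ≤ |z|` (Schwarz). Fix `z ≠ 0`. `t ↦ φ_t z` is differentiable at `t = 1` from the left with
derivative `X z/X' z` (`X⁻¹` is holomorphic on `V` with derivative `1/X'`). So
`|z|^2 ≥ |φ_t z|^2 = |z|^2 + 2 (t - 1) Re (conj z * X z/X' z) + o(1 - t)`, hence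
`Re (conj z X z/X' z) ≥ 0`; divide by `|z|^2`: `Re (X z/(z X' z)) ≥ 0`, and `Re (1/w) ≥ 0` iff `Re w ≥ 0`.
-/

set_option autoImplicit false

open Complex Set Filter Topology Metric

namespace Pool.Agent.Choc

theorem starlike {V : Set ℂ} (hs : StarConvex ℝ (0 : ℂ) V) {X : ℂ → ℂ}
    (hd : DifferentiableOn ℂ X (ball 0 1)) (hi : InjOn X (ball 0 1)) (him : X '' ball 0 1 = V)
    (h0 : X 0 = 0) : ∀ z ∈ ball (0 : ℂ) 1, z ≠ 0 → 0 ≤ (z * deriv X z / X z).re := by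
  intro z hz hz0
  have hBo : IsOpen (ball (0 : ℂ) 1) := isOpen_ball
  set φ := Function.invFunOn X (ball (0 : ℂ) 1) with hφ
  have hleft : ∀ z ∈ ball (0 : ℂ) 1, φ (X z) = z := fun z hz => hi.leftInvOn_invFunOn hz
  have h0B : (0 : ℂ) ∈ ball (0 : ℂ) 1 := mem_ball_self one_pos
  have hXz0 : X z ≠ 0 := by
    intro h
    exact hz0 (hi hz h0B (h.trans h0.symm))
  have hdX : deriv X z ≠ 0 := deriv_ne_of_injOn hBo hd hi z hz
  -- the self maps `φ (t X z)`
  have hmem : ∀ t : ℝ, 0 ≤ t → t ≤ 1 → ∀ w ∈ ball (0 : ℂ) 1, (t : ℂ) * X w ∈ X '' ball 0 1 := by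
    intro t ht0 ht1 w hw
    rw [him]
    have h1 : X w ∈ V := him ▸ ⟨w, hw, rfl⟩
    have h2 := hs.smul_mem h1 ht0 ht1
    rwa [Complex.real_smul] at h2
  have hφd : DifferentiableOn ℂ φ (X '' ball 0 1) := by
    rintro _ ⟨w, hw, rfl⟩
    exact (e1a_inv hBo hd hi hleft hw).differentiableAt.differentiableWithinAt
  have hle : ∀ t : ℝ, 0 ≤ t → t ≤ 1 → ‖φ ((t : ℂ) * X z)‖ ≤ ‖z‖ := by
    intro t ht0 ht1
    refine Complex.norm_le_norm_of_mapsTo_ball (f := fun w => φ ((t : ℂ) * X w)) (R := 1)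
      (hφd.comp (hd.const_mul _) (fun w hw => hmem t ht0 ht1 w hw)) ?_ ?_ (by simpa using hz)
    · intro w hw
      obtain ⟨x, hx, hxe⟩ := hmem t ht0 ht1 w hw
      show φ ((t : ℂ) * X w) ∈ closedBall 0 1
      rw [← hxe, hleft x hx]
      exact ball_subset_closedBall hx
    · show φ ((t : ℂ) * X 0) = 0
      rw [h0, mul_zero, ← h0, hleft 0 h0B]
      exact h0.symm ▸ rfl
  -- the derivative at `t = 1`
  set c : ℂ := (deriv X z)⁻¹ * X z with hc
  have hder : HasDerivAt (fun t : ℝ => φ ((t : ℂ) * X z)) c 1 := by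
    have h1 : HasDerivAt φ (deriv X z)⁻¹ (((1 : ℝ) : ℂ) * X z) := by
      rw [ofReal_one, one_mul]
      exact e1a_inv hBo hd hi hleft hz
    have h2 : HasDerivAt (fun t : ℝ => (t : ℂ) * X z) (X z) 1 := by
      have := (Complex.ofRealCLM.hasDerivAt (x := (1 : ℝ))).mul_const (X z)
      simpa using this
    exact h1.comp_of_eq (1 : ℝ) h2 rfl
  have hu : HasDerivAt (fun t : ℝ => ‖φ ((t : ℂ) * X z)‖ ^ 2)
      (2 * inner ℝ (φ (((1 : ℝ) : ℂ) * X z)) c) 1 := hder.norm_sq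
  have hnn : 0 ≤ 2 * inner ℝ (φ (((1 : ℝ) : ℂ) * X z)) c := by
    have h1 := hu.hasDerivWithinAt (s := Iio 1)
    rw [hasDerivWithinAt_iff_tendsto_slope' (by simp)] at h1
    refine ge_of_tendsto h1 ?_
    have h2 : ∀ᶠ t : ℝ in 𝓝[<] (1 : ℝ), 0 < t :=
      (eventually_gt_nhds one_pos).filter_mono nhdsWithin_le_nhds
    filter_upwards [self_mem_nhdsWithin, h2] with t ht ht0
    have ht1 : t < 1 := ht
    rw [slope_def_field]
    apply div_nonneg_of_nonpos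
    · have h3 := hle t ht0.le ht1.le
      have h4 : φ (((1 : ℝ) : ℂ) * X z) = z := by rw [ofReal_one, one_mul, hleft z hz]
      rw [h4]
      have := pow_le_pow_left₀ (norm_nonneg _) h3 2
      linarith
    · linarith
  have h4 : φ (((1 : ℝ) : ℂ) * X z) = z := by rw [ofReal_one, one_mul, hleft z hz]
  rw [h4, Complex.inner] at hnn
  set w : ℂ := z * deriv X z / X z with hw
  have hzc : (starRingEnd ℂ) z * z ≠ 0 := mul_ne_zero ((map_ne_zero _).2 hz0) hz0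
  have e1 : w = (normSq z : ℂ) * ((starRingEnd ℂ) z * c)⁻¹ := by
    rw [hw, hc, ← Complex.mul_conj]
    have : (starRingEnd ℂ) z ≠ 0 := (map_ne_zero _).2 hz0
    field_simp
  rw [e1, Complex.re_ofReal_mul, Complex.inv_re]
  have h5 : 0 ≤ ((starRingEnd ℂ) z * c).re := by
    rw [mul_comm]
    linarith
  exact mul_nonneg (normSq_nonneg _) (div_nonneg h5 (normSq_nonneg _))

end Pool.Agent.Choc
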