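import Pool.Agent.Lib.MP_2b3e36_an.Ex.E2
import Pool.Agent.Lib.MP_2b3e36_an.Ex.L0

/-!
E3. The boundary argument of a bounded starlike function is continuous.

Let `g` be holomorphic on the unit disc with `exp (g z) = dslope X 0 z` (`X z/z`, no zeros), and
`P z = 1 + z g'(z) = z X'/X`, `Re P ≥ 0`, `P 0 = 1`. For `0 < ρ < 1` put `Θ_ρ φ = φ + Im g (ρ e^{iφ})`,
`Θ_ρ' φ = Re P (ρ e^{iφ}) ≥ 0`, `Θ_ρ (φ + 2 pi) = Θ_ρ φ + 2 pi`, and `X (ρ e^{iφ}) = ‖X‖ e^{i Θ_ρ φ}`.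
(1) Modulus of continuity. Let `C₀` with `|X z| ≥ exp (- C₀)` for `1/4 ≤ |z|< 1` (`X` is injective, open,
`X 0 = 0`: `|X| ≥ c` outside `ball 0 (1/4)`). Let `1/2 ≤ ρ < 1`, `0 < ε < 1/4`, `φ₀` real,
`d = Θ_ρ (φ₀ + ε) - Θ_ρ (φ₀ - ε) = ∫ Re P (ρ e^{it}) dt`. For `ρ/2 ≤ s ≤ ρ(1 - ε)` Poisson's formula
(Mathlib: HarmonicContOnCl.circleAverage_poissonKernel_smul or the analytic version in
Analysis/Complex/Poisson) and positivity give `Re P (s e^{iφ₀}) ≥ (d/(2pi)) (ρ^2-s^2)/(ρ - s + ρ ε)^2 ≥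
(d/(8 pi)) (ρ+s)/(ρ-s)`. Integrate in `ds/s` over this range: the left side is
`log |X (ρ(1-ε) e^{iφ₀})| - log |X ((ρ/2) e^{iφ₀})| ≤ C₀` (`d/ds log |X (s e^{iφ})| = Re P/s`), the right side
`≥ (d/(8 pi)) log (1/(2 ε))`. So `d ≤ 8 pi C₀ / log (1/(2ε))`.
(2) So `u = Im g` satisfies `|u (ρ e^{iφ}) - u (ρ e^{iφ'})| ≤ ω(|φ - φ'|)` with `ω(t) → 0`, uniformly in
`1/2 ≤ ρ < 1`; `|u| ≤ 2 pi` (its mean over a circle is `Im g 0`; normalise `g 0` real if `X' 0 > 0`, in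
general `|u - Im g 0| ≤ 2 pi` by monotonicity). Radial: for `s < ρ < 1`, Poisson on the circle of radius
`ρ`: `|u(s e^{iφ}) - u (ρ e^{iφ})| ≤ average of kernel * |u (ρ e^{it}) - u (ρ e^{iφ})| ≤ ω(ε) +
C (ρ - s)/ε^2`. So `u` is uniformly continuous on the disc and extends continuously to the closed disc.
(3) `Θ φ = φ + u (e^{iφ})`: continuous, monotone (limit of monotone functions), `Θ (φ + 2 pi) = Θ φ + 2 pi`,
and `X z/‖X z‖ = (z/|z|) e^{i u z} → e^{iφ} e^{i u(e^{iφ})}`.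
-/

set_option autoImplicit false

open Complex Set Filter Topology Metric

namespace Pool.Agent.Choc

/-! The argument on the circle of radius `ρ`. -/

/-- `Θ_ρ φ = φ + Im g (ρ e^{iφ})` -/
noncomputable def e3_Th (g : ℂ → ℂ) (ρ φ : ℝ) : ℝ := φ + (g (circleMap 0 ρ φ)).im

lemma e3_mem {ρ : ℝ} (h0 : 0 ≤ ρ) (h1 : ρ < 1) (φ : ℝ) : circleMap 0 ρ φ ∈ ball (0 : ℂ) 1 := by
  rw [mem_ball_zero_iff, norm_circleMap_zero, abs_of_nonneg h0]
  exact h1

lemma e3_deriv {g : ℂ → ℂ} (hg : DifferentiableOn ℂ g (ball 0 1)) {ρ : ℝ} (h0 : 0 ≤ ρ)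
    (h1 : ρ < 1) (φ : ℝ) : HasDerivAt (e3_Th g ρ)
      (1 + circleMap 0 ρ φ * deriv g (circleMap 0 ρ φ)).re φ := by
  have h2 : HasDerivAt g (deriv g (circleMap 0 ρ φ)) (circleMap 0 ρ φ) :=
    (hg.differentiableAt (isOpen_ball.mem_nhds (e3_mem h0 h1 φ))).hasDerivAt
  have h3 : HasDerivAt (fun φ : ℝ => g (circleMap 0 ρ φ))
      (deriv g (circleMap 0 ρ φ) * (circleMap 0 ρ φ * I)) φ :=
    h2.comp_of_eq φ (hasDerivAt_circleMap 0 ρ φ) rfl
  have h4 : HasDerivAt (fun φ : ℝ => (g (circleMap 0 ρ φ)).im)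
      (deriv g (circleMap 0 ρ φ) * (circleMap 0 ρ φ * I)).im φ :=
    Complex.imCLM.hasFDerivAt.comp_hasDerivAt φ h3
  have h5 := (hasDerivAt_id φ).add h4
  refine h5.congr_deriv ?_
  simp only [add_re, one_re, mul_re, mul_im, I_re, I_im]
  ring

lemma e3_mono {g : ℂ → ℂ} (hg : DifferentiableOn ℂ g (ball 0 1))
    (hP : ∀ z ∈ ball (0 : ℂ) 1, 0 ≤ (1 + z * deriv g z).re) {ρ : ℝ} (h0 : 0 ≤ ρ)
    (h1 : ρ < 1) : Monotone (e3_Th g ρ) := by
  apply monotone_of_deriv_nonneg (fun φ => (e3_deriv hg h0 h1 φ).differentiableAt)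
  intro φ
  rw [(e3_deriv hg h0 h1 φ).deriv]
  exact hP _ (e3_mem h0 h1 φ)

lemma e3_per (g : ℂ → ℂ) (ρ φ : ℝ) :
    e3_Th g ρ (φ + 2 * Real.pi) = e3_Th g ρ φ + 2 * Real.pi := by
  unfold e3_Th
  rw [periodic_circleMap 0 ρ φ]
  ring

/-- the lower bound of the Poisson kernel -/
lemma e3_poisson {g : ℂ → ℂ} (hg : DifferentiableOn ℂ g (ball 0 1))
    (hP : ∀ z ∈ ball (0 : ℂ) 1, 0 ≤ (1 + z * deriv g z).re) {ρ s ε φ₀ : ℝ} (hs : 0 < s)
    (hsρ : s ≤ ρ * (1 - ε)) (hρ : ρ < 1) (hε : 0 < ε) (hε1 : ε ≤ 1 / 2) :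
    (ρ + s) / (8 * Real.pi * (ρ - s)) * (e3_Th g ρ (φ₀ + ε) - e3_Th g ρ (φ₀ - ε)) ≤
      (1 + circleMap 0 s φ₀ * deriv g (circleMap 0 s φ₀)).re := by
  have hπ := Real.pi_gt_three
  have hρ0 : 0 < ρ := by
    by_contra h
    push Not at h
    have : ρ * (1 - ε) ≤ 0 := mul_nonpos_of_nonpos_of_nonneg h (by linarith)
    linarith
  have hlt : s < ρ := lt_of_le_of_lt hsρ (by nlinarith)
  set w : ℂ := circleMap 0 s φ₀ with hw
  have hwn : ‖w‖ = s := by rw [hw, norm_circleMap_zero, abs_of_pos hs]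
  set P : ℂ → ℂ := fun z => 1 + z * deriv g z with hPd
  have hPdiff : DifferentiableOn ℂ P (ball 0 1) :=
    (differentiableOn_id.mul (hg.deriv isOpen_ball)).const_add 1
  have hPc : DiffContOnCl ℂ P (ball 0 ρ) :=
    hPdiff.diffContOnCl_ball (closedBall_subset_ball hρ)
  have hwB : w ∈ ball (0 : ℂ) ρ := by rw [mem_ball_zero_iff, hwn]; exact hlt
  have key := hPc.circleAverage_poissonKernel_smul hwB
  set η : ℝ := φ₀ - Real.pi with hη
  rw [Real.circleAverage_eq_integral_add η] at key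
  set K : ℝ → ℝ := fun θ => (ρ ^ 2 - s ^ 2) / ‖circleMap 0 ρ (θ + η) - w‖ ^ 2 with hK
  have hden : ∀ θ : ℝ, circleMap 0 ρ (θ + η) - w ≠ 0 := by
    intro θ h
    have h1 : ‖circleMap 0 ρ (θ + η)‖ = s := by rw [sub_eq_zero.1 h, hwn]
    rw [norm_circleMap_zero, abs_of_pos hρ0] at h1
    linarith
  have hcm : Continuous (fun θ : ℝ => circleMap 0 ρ (θ + η)) :=
    (continuous_circleMap 0 ρ).comp (continuous_id.add continuous_const)
  have hKc : Continuous K := by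
    refine Continuous.div continuous_const ((hcm.sub continuous_const).norm.pow 2) ?_
    intro θ
    exact pow_ne_zero 2 (norm_ne_zero_iff.2 (hden θ))
  have hK0 : ∀ θ, 0 ≤ K θ := fun θ => div_nonneg (by nlinarith) (by positivity)
  have hPcirc : Continuous (fun θ : ℝ => P (circleMap 0 ρ (θ + η))) :=
    continuousOn_univ.1 (hPdiff.continuousOn.comp hcm.continuousOn
      (fun θ _ => e3_mem hρ0.le hρ (θ + η)))
  have hint : ∀ θ : ℝ, (poissonKernel 0 w • P) (circleMap 0 ρ (θ + η)) =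
      ((K θ : ℝ) : ℂ) * P (circleMap 0 ρ (θ + η)) := by
    intro θ
    rw [Pi.smul_apply', poissonKernel_def, sub_zero, sub_zero, norm_circleMap_zero, abs_of_pos hρ0,
      hwn, Complex.real_smul]
  simp only [hint] at key
  have hFc : Continuous (fun θ : ℝ => ((K θ : ℝ) : ℂ) * P (circleMap 0 ρ (θ + η))) :=
    (Complex.continuous_ofReal.comp hKc).mul hPcirc
  have hre : (P w).re = (2 * Real.pi)⁻¹ *
      ∫ θ in (0 : ℝ)..2 * Real.pi, K θ * (P (circleMap 0 ρ (θ + η))).re := by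
    rw [← key, Complex.real_smul, Complex.re_ofReal_mul]
    congr 1
    have := Complex.reCLM.intervalIntegral_comp_comm
      (hFc.intervalIntegrable (μ := MeasureTheory.volume) 0 (2 * Real.pi))
    rw [Complex.reCLM_apply] at this
    rw [← this]
    refine intervalIntegral.integral_congr fun θ _ => ?_
    simp only [Complex.reCLM_apply, Complex.re_ofReal_mul]
  set κ : ℝ := (ρ + s) / (4 * (ρ - s)) with hκ
  have hrec : Continuous (fun θ : ℝ => (P (circleMap 0 ρ (θ + η))).re) :=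
    Complex.continuous_re.comp hPcirc
  have hPn : ∀ θ : ℝ, 0 ≤ (P (circleMap 0 ρ (θ + η))).re := fun θ =>
    hP _ (e3_mem hρ0.le hρ (θ + η))
  -- the small interval
  have i1 : ∫ θ in (Real.pi - ε)..(Real.pi + ε), K θ * (P (circleMap 0 ρ (θ + η))).re ≤
      ∫ θ in (0 : ℝ)..2 * Real.pi, K θ * (P (circleMap 0 ρ (θ + η))).re := by
    refine intervalIntegral.integral_mono_interval (by linarith) (by linarith) (by linarith) ?_
      ((hKc.mul hrec).intervalIntegrable _ _)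
    exact Eventually.of_forall fun θ => mul_nonneg (hK0 θ) (hPn θ)
  have i2 : ∫ θ in (Real.pi - ε)..(Real.pi + ε), κ * (P (circleMap 0 ρ (θ + η))).re ≤
      ∫ θ in (Real.pi - ε)..(Real.pi + ε), K θ * (P (circleMap 0 ρ (θ + η))).re := by
    refine intervalIntegral.integral_mono_on (by linarith)
      ((continuous_const.mul hrec).intervalIntegrable _ _)
      ((hKc.mul hrec).intervalIntegrable _ _) ?_
    intro θ hθ
    refine mul_le_mul_of_nonneg_right ?_ (hPn θ)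
    have h1 : ‖circleMap 0 ρ (θ + η) - w‖ ≤ 2 * (ρ - s) := by
      have h2 : ‖circleMap 0 ρ (θ + η) - circleMap 0 ρ φ₀‖ ≤ ρ * ε := by
        have := (lipschitzWith_circleMap 0 ρ).dist_le_mul (θ + η) φ₀
        rw [dist_eq_norm, Real.dist_eq, Real.coe_nnabs, abs_of_pos hρ0] at this
        refine this.trans (mul_le_mul_of_nonneg_left ?_ hρ0.le)
        rw [abs_le]
        constructor <;> linarith [hθ.1, hθ.2]
      have h3 : ‖circleMap 0 ρ φ₀ - w‖ = ρ - s := by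
        have e : circleMap 0 ρ φ₀ - w = ((ρ - s : ℝ) : ℂ) * exp (φ₀ * I) := by
          rw [hw, circleMap_zero, circleMap_zero]
          push_cast
          ring
        rw [e, norm_mul, Complex.norm_exp_ofReal_mul_I, mul_one, Complex.norm_real,
          Real.norm_of_nonneg (by linarith)]
      have e : circleMap 0 ρ (θ + η) - w =
          (circleMap 0 ρ (θ + η) - circleMap 0 ρ φ₀) + (circleMap 0 ρ φ₀ - w) := by ring
      rw [e]
      refine (norm_add_le _ _).trans ?_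
      rw [h3]
      nlinarith
    have h4 : 0 < ‖circleMap 0 ρ (θ + η) - w‖ := norm_pos_iff.2 (hden θ)
    have hd : 0 < ρ - s := by linarith
    have h5 : ‖circleMap 0 ρ (θ + η) - w‖ ^ 2 ≤ (2 * (ρ - s)) ^ 2 :=
      pow_le_pow_left₀ h4.le h1 2
    rw [hκ]
    show (ρ + s) / (4 * (ρ - s)) ≤ (ρ ^ 2 - s ^ 2) / ‖circleMap 0 ρ (θ + η) - w‖ ^ 2
    rw [le_div_iff₀ (by positivity)]
    calc (ρ + s) / (4 * (ρ - s)) * ‖circleMap 0 ρ (θ + η) - w‖ ^ 2
        ≤ (ρ + s) / (4 * (ρ - s)) * (2 * (ρ - s)) ^ 2 :=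
          mul_le_mul_of_nonneg_left h5 (by positivity)
      _ = ρ ^ 2 - s ^ 2 := by
          field_simp
          ring
  have i3 : ∫ θ in (Real.pi - ε)..(Real.pi + ε), (P (circleMap 0 ρ (θ + η))).re =
      e3_Th g ρ (φ₀ + ε) - e3_Th g ρ (φ₀ - ε) := by
    have h1 : ∀ θ ∈ uIcc (Real.pi - ε) (Real.pi + ε), HasDerivAt (fun θ => e3_Th g ρ (θ + η))
        (P (circleMap 0 ρ (θ + η))).re θ := by
      intro θ _
      have := (e3_deriv hg hρ0.le hρ (θ + η)).comp θ ((hasDerivAt_id θ).add_const η)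
      rw [mul_one] at this
      exact this
    rw [intervalIntegral.integral_eq_sub_of_hasDerivAt h1 (hrec.intervalIntegrable _ _)]
    have e1 : Real.pi + ε + η = φ₀ + ε := by rw [hη]; ring
    have e2 : Real.pi - ε + η = φ₀ - ε := by rw [hη]; ring
    rw [e1, e2]
  rw [intervalIntegral.integral_const_mul, i3] at i2
  rw [hre]
  have h2π : 0 < 2 * Real.pi := by positivity
  have e1 : (ρ + s) / (8 * Real.pi * (ρ - s)) * (e3_Th g ρ (φ₀ + ε) - e3_Th g ρ (φ₀ - ε)) =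
      (2 * Real.pi)⁻¹ * (κ * (e3_Th g ρ (φ₀ + ε) - e3_Th g ρ (φ₀ - ε))) := by
    rw [hκ]
    have hd : ρ - s ≠ 0 := by linarith
    field_simp
    ring
  rw [e1]
  exact mul_le_mul_of_nonneg_left (i2.trans i1) (by positivity)

/-- the modulus of continuity -/
lemma e3_mod {g : ℂ → ℂ} (hg : DifferentiableOn ℂ g (ball 0 1))
    (hP : ∀ z ∈ ball (0 : ℂ) 1, 0 ≤ (1 + z * deriv g z).re)
    (hup : ∀ z ∈ ball (0 : ℂ) 1, Real.log ‖z‖ + (g z).re ≤ 0) {C₀ : ℝ}
    (hlow : ∀ z ∈ ball (0 : ℂ) 1, 1 / 4 ≤ ‖z‖ → -C₀ ≤ Real.log ‖z‖ + (g z).re)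
    {ρ ε φ₀ : ℝ} (hρ2 : 1 / 2 ≤ ρ) (hρ : ρ < 1) (hε : 0 < ε) (hε1 : ε < 1 / 2) :
    (e3_Th g ρ (φ₀ + ε) - e3_Th g ρ (φ₀ - ε)) * (-Real.log (2 * ε)) ≤ 8 * Real.pi * C₀ := by
  have hπ := Real.pi_pos
  have hρ0 : 0 < ρ := by linarith
  set d : ℝ := e3_Th g ρ (φ₀ + ε) - e3_Th g ρ (φ₀ - ε) with hd
  have hd0 : 0 ≤ d := sub_nonneg.2 (e3_mono hg hP hρ0.le hρ (by linarith))
  set e : ℂ := exp (φ₀ * I) with he
  have hen : ‖e‖ = 1 := Complex.norm_exp_ofReal_mul_I φ₀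
  have hcm : ∀ s : ℝ, circleMap 0 s φ₀ = (s : ℂ) * e := fun s => circleMap_zero s φ₀
  set c : ℝ := d / (8 * Real.pi) with hc
  have hder : ∀ s ∈ Icc (ρ / 2) (ρ * (1 - ε)), HasDerivAt
      (fun s : ℝ => Real.log s + (g ((s : ℂ) * e)).re + c * Real.log (ρ - s))
      (s⁻¹ + (deriv g ((s : ℂ) * e) * e).re + c * (-1 / (ρ - s))) s := by
    intro s hs
    have hs0 : 0 < s := by linarith [hs.1]
    have hsρ : s < ρ := lt_of_le_of_lt hs.2 (by nlinarith)
    have hsB : (s : ℂ) * e ∈ ball (0 : ℂ) 1 := by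
      rw [← hcm]
      exact e3_mem hs0.le (by linarith) φ₀
    have h1 : HasDerivAt g (deriv g ((s : ℂ) * e)) ((s : ℂ) * e) :=
      (hg.differentiableAt (isOpen_ball.mem_nhds hsB)).hasDerivAt
    have h2 : HasDerivAt (fun s : ℝ => (s : ℂ) * e) e s := by
      have := (Complex.ofRealCLM.hasDerivAt (x := s)).mul_const e
      simpa using this
    have h3 : HasDerivAt (fun s : ℝ => g ((s : ℂ) * e)) (deriv g ((s : ℂ) * e) * e) s :=
      h1.comp_of_eq s h2 rfl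
    have h4 : HasDerivAt (fun s : ℝ => (g ((s : ℂ) * e)).re) (deriv g ((s : ℂ) * e) * e).re s :=
      Complex.reCLM.hasFDerivAt.comp_hasDerivAt s h3
    have h5 : HasDerivAt (fun s : ℝ => Real.log (ρ - s)) (-1 / (ρ - s)) s :=
      ((hasDerivAt_id s).const_sub ρ).log (by simp only [id]; linarith)
    exact ((Real.hasDerivAt_log hs0.ne').add h4).add (h5.const_mul c)
  have hmono : MonotoneOn
      (fun s : ℝ => Real.log s + (g ((s : ℂ) * e)).re + c * Real.log (ρ - s))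
      (Icc (ρ / 2) (ρ * (1 - ε))) := by
    refine monotoneOn_of_deriv_nonneg (convex_Icc _ _)
      (fun s hs => (hder s hs).continuousAt.continuousWithinAt)
      (fun s hs => (hder s (interior_subset hs)).differentiableAt.differentiableWithinAt) ?_
    intro s hs
    have hs' := interior_subset hs
    rw [(hder s hs').deriv]
    have hs0 : 0 < s := by linarith [hs'.1]
    have hsρ : s < ρ := lt_of_le_of_lt hs'.2 (by nlinarith)
    have hp := e3_poisson hg hP (φ₀ := φ₀) hs0 hs'.2 hρ hε hε1.le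
    rw [← hd, hcm] at hp
    have h6 : s⁻¹ + (deriv g ((s : ℂ) * e) * e).re =
        s⁻¹ * (1 + (s : ℂ) * e * deriv g ((s : ℂ) * e)).re := by
      have e1 : (1 + (s : ℂ) * e * deriv g ((s : ℂ) * e)).re =
          1 + s * (deriv g ((s : ℂ) * e) * e).re := by
        have e2 : (s : ℂ) * e * deriv g ((s : ℂ) * e) = (s : ℂ) * (deriv g ((s : ℂ) * e) * e) := by
          ring
        rw [e2, add_re, one_re, Complex.re_ofReal_mul]
      rw [e1]
      field_simp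
    have h7 : c / (ρ - s) ≤ s⁻¹ * ((ρ + s) / (8 * Real.pi * (ρ - s)) * d) := by
      have hds : 0 < ρ - s := by linarith
      have e1 : s⁻¹ * ((ρ + s) / (8 * Real.pi * (ρ - s)) * d) = c / (ρ - s) * ((ρ + s) / s) := by
        rw [hc]
        field_simp
      rw [e1]
      have h8 : 1 ≤ (ρ + s) / s := by
        rw [le_div_iff₀ hs0]
        linarith
      have h9 : 0 ≤ c / (ρ - s) := by positivity
      nlinarith
    have h8 : s⁻¹ * ((ρ + s) / (8 * Real.pi * (ρ - s)) * d) ≤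
        s⁻¹ * (1 + (s : ℂ) * e * deriv g ((s : ℂ) * e)).re :=
      mul_le_mul_of_nonneg_left hp (by positivity)
    rw [h6]
    have h9 : c * (-1 / (ρ - s)) = -(c / (ρ - s)) := by ring
    rw [h9]
    linarith
  have h1 : ρ / 2 ≤ ρ * (1 - ε) := by nlinarith
  have h2 := hmono (left_mem_Icc.2 h1) (right_mem_Icc.2 h1) h1
  simp only at h2
  have hz1 : ((ρ / 2 : ℝ) : ℂ) * e ∈ ball (0 : ℂ) 1 := by
    rw [← hcm]
    exact e3_mem (by linarith) (by linarith) φ₀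
  have hz2 : ((ρ * (1 - ε) : ℝ) : ℂ) * e ∈ ball (0 : ℂ) 1 := by
    rw [← hcm]
    exact e3_mem (by nlinarith) (by nlinarith) φ₀
  have n1 : ‖((ρ / 2 : ℝ) : ℂ) * e‖ = ρ / 2 := by
    rw [norm_mul, hen, mul_one, Complex.norm_real, Real.norm_of_nonneg (by linarith)]
  have n2 : ‖((ρ * (1 - ε) : ℝ) : ℂ) * e‖ = ρ * (1 - ε) := by
    rw [norm_mul, hen, mul_one, Complex.norm_real, Real.norm_of_nonneg (by nlinarith)]
  have h3 := hlow _ hz1 (by rw [n1]; linarith)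
  have h4 := hup _ hz2
  rw [n1] at h3
  rw [n2] at h4
  have e3 : ρ - ρ / 2 = ρ / 2 := by ring
  have e4 : ρ - ρ * (1 - ε) = (ρ / 2) * (2 * ε) := by ring
  have e5 : Real.log ((ρ / 2) * (2 * ε)) = Real.log (ρ / 2) + Real.log (2 * ε) :=
    Real.log_mul (by positivity) (by positivity)
  rw [e3, e4, e5] at h2
  have h5 : c * (-Real.log (2 * ε)) ≤ C₀ := by
    have : c * (Real.log (ρ / 2) + Real.log (2 * ε)) =
        c * Real.log (ρ / 2) + c * Real.log (2 * ε) := by ring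
    linarith
  rw [hc] at h5
  have e6 : d * (-Real.log (2 * ε)) = 8 * Real.pi * (d / (8 * Real.pi) * (-Real.log (2 * ε))) := by
    field_simp
  rw [e6]
  exact mul_le_mul_of_nonneg_left h5 (by positivity)

/-- equicontinuity of the boundary arguments -/
lemma e3_close {g : ℂ → ℂ} (hg : DifferentiableOn ℂ g (ball 0 1))
    (hP : ∀ z ∈ ball (0 : ℂ) 1, 0 ≤ (1 + z * deriv g z).re)
    (hup : ∀ z ∈ ball (0 : ℂ) 1, Real.log ‖z‖ + (g z).re ≤ 0) {C₀ : ℝ}
    (hlow : ∀ z ∈ ball (0 : ℂ) 1, 1 / 4 ≤ ‖z‖ → -C₀ ≤ Real.log ‖z‖ + (g z).re)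
    {η : ℝ} (hη : 0 < η) : ∃ δ > 0, ∀ ρ : ℝ, 1 / 2 ≤ ρ → ρ < 1 → ∀ φ α : ℝ, |α| ≤ δ →
      |(g (circleMap 0 ρ (φ + α))).im - (g (circleMap 0 ρ φ)).im| ≤ η := by
  have hπ := Real.pi_pos
  set C : ℝ := max C₀ 1 with hC
  have hC0 : 0 < C := lt_of_lt_of_le one_pos (le_max_right _ _)
  set T : ℝ := 16 * Real.pi * C / η with hT
  have hT0 : 0 < T := by positivity
  have key : ∀ ρ : ℝ, 1 / 2 ≤ ρ → ρ < 1 → ∀ φ α : ℝ, 0 < α →
      α ≤ min (min (η / 2) (1 / 2)) (Real.exp (-T)) →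
      |(g (circleMap 0 ρ (φ + α))).im - (g (circleMap 0 ρ φ)).im| ≤ η := by
    intro ρ h1 h2 φ α hα hαδ
    have a1 : α ≤ η / 2 := hαδ.trans ((min_le_left _ _).trans (min_le_left _ _))
    have a2 : α ≤ 1 / 2 := hαδ.trans ((min_le_left _ _).trans (min_le_right _ _))
    have a3 : α ≤ Real.exp (-T) := hαδ.trans (min_le_right _ _)
    have h3 := e3_mod hg hP hup hlow (φ₀ := φ + α / 2) h1 h2 (by positivity : 0 < α / 2)
      (by linarith)
    have e1 : φ + α / 2 + α / 2 = φ + α := by ring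
    have e2 : φ + α / 2 - α / 2 = φ := by ring
    have e3 : 2 * (α / 2) = α := by ring
    rw [e1, e2, e3] at h3
    have hd0 : 0 ≤ e3_Th g ρ (φ + α) - e3_Th g ρ φ :=
      sub_nonneg.2 (e3_mono hg hP (by linarith) h2 (by linarith))
    have h4 : T ≤ -Real.log α := by
      have := Real.log_le_log hα a3
      rw [Real.log_exp] at this
      linarith
    have h5 : (e3_Th g ρ (φ + α) - e3_Th g ρ φ) * T ≤ 8 * Real.pi * C := by
      refine (mul_le_mul_of_nonneg_left h4 hd0).trans (h3.trans ?_)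
      exact mul_le_mul_of_nonneg_left (le_max_left _ _) (by positivity)
    have h6 : e3_Th g ρ (φ + α) - e3_Th g ρ φ ≤ η / 2 := by
      have e4 : η / 2 * T = 8 * Real.pi * C := by
        rw [hT]
        field_simp
        norm_num
      rw [← e4] at h5
      exact le_of_mul_le_mul_right h5 hT0
    unfold e3_Th at h6 hd0
    rw [abs_le]
    constructor <;> linarith
  refine ⟨min (min (η / 2) (1 / 2)) (Real.exp (-T)), by positivity, ?_⟩
  intro ρ h1 h2 φ α hα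
  rcases lt_trichotomy α 0 with h | h | h
  · have h3 := key ρ h1 h2 (φ + α) (-α) (by linarith) (by rwa [abs_of_neg h] at hα)
    have e1 : φ + α + -α = φ := by ring
    rw [e1, abs_sub_comm] at h3
    exact h3
  · subst h
    rw [add_zero, sub_self, abs_zero]
    exact hη.le
  · exact key ρ h1 h2 φ α h (by rwa [abs_of_pos h] at hα)

lemma e3_M {g : ℂ → ℂ} (hg : DifferentiableOn ℂ g (ball 0 1))
    (hP : ∀ z ∈ ball (0 : ℂ) 1, 0 ≤ (1 + z * deriv g z).re) {ρ : ℝ} (h0 : 0 ≤ ρ) (h1 : ρ < 1)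
    (φ α : ℝ) (hα : |α| ≤ Real.pi) :
    |(g (circleMap 0 ρ (φ + α))).im - (g (circleMap 0 ρ φ)).im| ≤ 2 * Real.pi := by
  have hπ := Real.pi_pos
  have hm := e3_mono hg hP h0 h1
  have p1 := e3_per g ρ φ
  have p2 := e3_per g ρ (φ - 2 * Real.pi)
  rw [sub_add_cancel] at p2
  rw [abs_le] at hα
  have m1 : e3_Th g ρ (φ + α) ≤ e3_Th g ρ (φ + 2 * Real.pi) := hm (by linarith [hα.2])
  have m2 : e3_Th g ρ (φ - 2 * Real.pi) ≤ e3_Th g ρ (φ + α) := hm (by linarith [hα.1])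
  rcases le_total 0 α with h | h
  · have m3 : e3_Th g ρ φ ≤ e3_Th g ρ (φ + α) := hm (by linarith)
    unfold e3_Th at *
    rw [abs_le]
    constructor <;> linarith [hα.1, hα.2]
  · have m3 : e3_Th g ρ (φ + α) ≤ e3_Th g ρ φ := hm (by linarith)
    unfold e3_Th at *
    rw [abs_le]
    constructor <;> linarith [hα.1, hα.2]

/-- the maximum principle for real parts -/
lemma e3_max {f : ℂ → ℂ} {ρ C : ℝ} (hρ : 0 < ρ) (hf : DiffContOnCl ℂ f (ball 0 ρ))
    (h : ∀ z : ℂ, ‖z‖ = ρ → (f z).re ≤ C) (z : ℂ) (hz : ‖z‖ ≤ ρ) : (f z).re ≤ C := by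
  have h1 : DiffContOnCl ℂ (fun z => exp (f z)) (ball 0 ρ) :=
    ⟨hf.differentiableOn.cexp, hf.continuousOn.cexp⟩
  have h2 : ‖exp (f z)‖ ≤ Real.exp C := by
    refine Complex.norm_le_of_forall_mem_frontier_norm_le isBounded_ball h1 ?_ ?_
    · intro w hw
      rw [frontier_ball _ hρ.ne', mem_sphere_zero_iff_norm] at hw
      rw [Complex.norm_exp]
      exact Real.exp_le_exp.2 (h w hw)
    · rw [closure_ball _ hρ.ne', mem_closedBall_zero_iff]
      exact hz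
  rw [Complex.norm_exp] at h2
  exact Real.exp_le_exp.1 h2

/-- the barrier estimate -/
lemma e3_barrier {g : ℂ → ℂ} (hg : DifferentiableOn ℂ g (ball 0 1))
    (hP : ∀ z ∈ ball (0 : ℂ) 1, 0 ≤ (1 + z * deriv g z).re)
    (hup : ∀ z ∈ ball (0 : ℂ) 1, Real.log ‖z‖ + (g z).re ≤ 0) {C₀ : ℝ}
    (hlow : ∀ z ∈ ball (0 : ℂ) 1, 1 / 4 ≤ ‖z‖ → -C₀ ≤ Real.log ‖z‖ + (g z).re)
    {η : ℝ} (hη : 0 < η) : ∃ δ > 0, ∀ ρ : ℝ, 1 / 2 ≤ ρ → ρ < 1 → ∀ φ : ℝ, ∀ z : ℂ, ‖z‖ ≤ ρ →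
      |(g z).im - (g (circleMap 0 ρ φ)).im| ≤
        η + 2 * Real.pi / δ ^ 2 * (2 - 2 * (z * (starRingEnd ℂ) (exp (φ * I)) / ρ).re) := by
  have hπ := Real.pi_pos
  obtain ⟨δ₁, hδ₁, hcl⟩ := e3_close hg hP hup hlow hη
  have harg : ∀ᶠ ζ in 𝓝 (1 : ℂ), |arg ζ| < δ₁ := by
    have h1 : ContinuousAt (fun ζ => |arg ζ|) 1 := (continuousAt_arg one_mem_slitPlane).abs
    have h2 : (fun ζ => |arg ζ|) 1 < δ₁ := by simpa using hδ₁
    exact h1.eventually (gt_mem_nhds h2)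
  obtain ⟨δ, hδ, hδa⟩ := Metric.eventually_nhds_iff_ball.1 harg
  refine ⟨δ, hδ, ?_⟩
  intro ρ hρ2 hρ φ
  have hρ0 : 0 < ρ := by linarith
  have hρc : ((ρ : ℝ) : ℂ) ≠ 0 := by exact_mod_cast hρ0.ne'
  set b : ℂ := exp (φ * I) with hb
  have hbn : ‖b‖ = 1 := Complex.norm_exp_ofReal_mul_I φ
  have hbb : b * (starRingEnd ℂ) b = 1 := by
    rw [Complex.mul_conj, Complex.normSq_eq_norm_sq, hbn]
    norm_num
  -- on the circle
  have hsph : ∀ z : ℂ, ‖z‖ = ρ → |(g z).im - (g (circleMap 0 ρ φ)).im| ≤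
      η + 2 * Real.pi / δ ^ 2 * (2 - 2 * (z * (starRingEnd ℂ) b / ρ).re) := by
    intro z hz
    set ζ : ℂ := z * (starRingEnd ℂ) b / ρ with hζ
    have hζn : ‖ζ‖ = 1 := by
      rw [hζ, norm_div, norm_mul, Complex.norm_conj, hbn, mul_one, hz, Complex.norm_real,
        Real.norm_of_nonneg hρ0.le, div_self hρ0.ne']
    set α : ℝ := arg ζ with hα
    have hzc : z = circleMap 0 ρ (φ + α) := by
      have h1 : exp (α * I) = ζ := by
        have := Complex.norm_mul_exp_arg_mul_I ζ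
        rw [hζn, ofReal_one, one_mul] at this
        exact this
      rw [circleMap_zero]
      push_cast
      rw [add_mul, Complex.exp_add, h1, ← hb, hζ]
      field_simp
      linear_combination (-z) * hbb
    have hsq : ‖ζ - 1‖ ^ 2 = 2 - 2 * ζ.re := by
      rw [← Complex.normSq_eq_norm_sq, Complex.normSq_sub, Complex.normSq_eq_norm_sq, hζn]
      simp
      ring
    have hnn : 0 ≤ 2 - 2 * ζ.re := by rw [← hsq]; positivity
    rw [hzc]
    by_cases hlt : ‖ζ - 1‖ < δ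
    · have h1 : |α| < δ₁ := hδa ζ (by rw [mem_ball, dist_eq_norm]; exact hlt)
      refine (hcl ρ hρ2 hρ φ α h1.le).trans ?_
      have : 0 ≤ 2 * Real.pi / δ ^ 2 * (2 - 2 * ζ.re) := by positivity
      linarith
    · refine (e3_M hg hP hρ0.le hρ φ α (abs_arg_le_pi ζ)).trans ?_
      have h1 : δ ^ 2 ≤ 2 - 2 * ζ.re := by
        rw [← hsq]
        exact pow_le_pow_left₀ hδ.le (not_lt.1 hlt) 2
      have h2 : 2 * Real.pi / δ ^ 2 * δ ^ 2 = 2 * Real.pi := by field_simp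
      have h3 : 2 * Real.pi / δ ^ 2 * δ ^ 2 ≤ 2 * Real.pi / δ ^ 2 * (2 - 2 * ζ.re) :=
        mul_le_mul_of_nonneg_left h1 (by positivity)
      linarith
  -- inside
  have hin : ∀ σ : ℝ, (σ = 1 ∨ σ = -1) → ∀ z : ℂ, ‖z‖ ≤ ρ →
      σ * ((g z).im - (g (circleMap 0 ρ φ)).im) -
        2 * Real.pi / δ ^ 2 * (2 - 2 * (z * (starRingEnd ℂ) b / ρ).re) ≤ η := by
    intro σ hσ z hz
    set f : ℂ → ℂ := fun z => ((σ : ℝ) : ℂ) * (-I * (g z - g (circleMap 0 ρ φ))) -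
      ((2 * Real.pi / δ ^ 2 : ℝ) : ℂ) * (2 - 2 * (z * (starRingEnd ℂ) b / ρ)) with hf
    have hfre : ∀ z, (f z).re = σ * ((g z).im - (g (circleMap 0 ρ φ)).im) -
        2 * Real.pi / δ ^ 2 * (2 - 2 * (z * (starRingEnd ℂ) b / ρ).re) := by
      intro z
      rw [hf]
      simp only [sub_re, Complex.re_ofReal_mul]
      congr 2
      · simp
      · rw [show (2 : ℂ) = ((2 : ℝ) : ℂ) by norm_num, Complex.re_ofReal_mul, Complex.ofReal_re]
    have hfd : DiffContOnCl ℂ f (ball 0 ρ) := by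
      have h1 : DifferentiableOn ℂ f (ball 0 1) := by
        refine (((hg.sub_const _).const_mul (-I)).const_mul _).sub ?_
        exact DifferentiableOn.const_mul (by fun_prop) _
      exact h1.diffContOnCl_ball (closedBall_subset_ball hρ)
    have h2 := e3_max hρ0 hfd (C := η) (fun w hw => by
      rw [hfre]
      have h3 := hsph w hw
      have h4 : σ * ((g w).im - (g (circleMap 0 ρ φ)).im) ≤
          |(g w).im - (g (circleMap 0 ρ φ)).im| := by
        rcases hσ with h | h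
        · rw [h, one_mul]
          exact le_abs_self _
        · rw [h, neg_one_mul]
          exact neg_le_abs _
      linarith) z hz
    rwa [hfre] at h2
  intro z hz
  have h1 := hin 1 (Or.inl rfl) z hz
  have h2 := hin (-1) (Or.inr rfl) z hz
  rw [abs_le]
  constructor <;> linarith

/-- `Im g` has a limit at every boundary point -/
lemma e3_lim {g : ℂ → ℂ} (hg : DifferentiableOn ℂ g (ball 0 1))
    (hP : ∀ z ∈ ball (0 : ℂ) 1, 0 ≤ (1 + z * deriv g z).re)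
    (hup : ∀ z ∈ ball (0 : ℂ) 1, Real.log ‖z‖ + (g z).re ≤ 0) {C₀ : ℝ}
    (hlow : ∀ z ∈ ball (0 : ℂ) 1, 1 / 4 ≤ ‖z‖ → -C₀ ≤ Real.log ‖z‖ + (g z).re) (φ : ℝ) :
    ∃ y : ℝ, Tendsto (fun z => (g z).im) (𝓝[ball (0 : ℂ) 1] (exp (φ * I))) (𝓝 y) := by
  have hπ := Real.pi_pos
  set b : ℂ := exp (φ * I) with hb
  have hbn : ‖b‖ = 1 := Complex.norm_exp_ofReal_mul_I φ
  have hbb : b * (starRingEnd ℂ) b = 1 := by
    rw [Complex.mul_conj, Complex.normSq_eq_norm_sq, hbn]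
    norm_num
  have hne : (𝓝[ball (0 : ℂ) 1] b).NeBot := by
    rw [← mem_closure_iff_nhdsWithin_neBot, closure_ball _ one_ne_zero, mem_closedBall_zero_iff, hbn]
  rw [← cauchy_map_iff_exists_tendsto, Metric.cauchy_iff]
  refine ⟨inferInstance, fun ε hε => ?_⟩
  obtain ⟨δ, hδ, hbar⟩ := e3_barrier hg hP hup hlow (by positivity : 0 < ε / 4)
  set δ₂ : ℝ := δ ^ 2 * ε / (100 * Real.pi) with hδ₂
  have hδ₂0 : 0 < δ₂ := by positivity
  refine ⟨(fun z => (g z).im) '' (ball 0 1 ∩ ball b δ₂), Filter.image_mem_map ?_, ?_⟩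
  · exact inter_mem_nhdsWithin _ (ball_mem_nhds b hδ₂0)
  rintro _ ⟨z, ⟨hz1, hz2⟩, rfl⟩ _ ⟨z', ⟨hz1', hz2'⟩, rfl⟩
  rw [mem_ball_zero_iff] at hz1 hz1'
  rw [mem_ball, dist_comm, dist_eq_norm] at hz2 hz2'
  set ρ : ℝ := max (max ‖z‖ ‖z'‖) (1 / 2) with hρ
  have hρ2 : 1 / 2 ≤ ρ := le_max_right _ _
  have hρ1 : ρ < 1 := max_lt (max_lt hz1 hz1') (by norm_num)
  have hzρ : ‖z‖ ≤ ρ := (le_max_left _ _).trans (le_max_left _ _)
  have hzρ' : ‖z'‖ ≤ ρ := (le_max_right _ _).trans (le_max_left _ _)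
  have hρ0 : 0 < ρ := by linarith
  have hρc : ((ρ : ℝ) : ℂ) ≠ 0 := by exact_mod_cast hρ0.ne'
  have hest : ∀ w : ℂ, ‖w‖ ≤ ρ → ‖b - w‖ < δ₂ →
      2 - 2 * (w * (starRingEnd ℂ) b / ρ).re ≤ 6 * δ₂ := by
    intro w hw hwb
    have h1 : 2 - 2 * (w * (starRingEnd ℂ) b / ρ).re ≤ 2 * ‖1 - w * (starRingEnd ℂ) b / ρ‖ := by
      have := Complex.re_le_norm (1 - w * (starRingEnd ℂ) b / ρ)
      rw [sub_re, one_re] at this
      linarith
    have e1 : 1 - w * (starRingEnd ℂ) b / ρ = (b - w) * (starRingEnd ℂ) b -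
        w * (starRingEnd ℂ) b * ((1 - ρ : ℝ) : ℂ) / ρ := by
      push_cast
      field_simp
      linear_combination (-(ρ : ℂ)) * hbb
    have h2 : ‖1 - w * (starRingEnd ℂ) b / ρ‖ ≤ ‖b - w‖ + (1 - ρ) := by
      rw [e1]
      refine (norm_sub_le _ _).trans ?_
      rw [norm_mul, Complex.norm_conj, hbn, mul_one, norm_div, norm_mul, norm_mul,
        Complex.norm_conj, hbn, mul_one, Complex.norm_real, Complex.norm_real,
        Real.norm_of_nonneg (by linarith : 0 ≤ 1 - ρ), Real.norm_of_nonneg hρ0.le]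
      have h3 : ‖w‖ * (1 - ρ) / ρ ≤ 1 - ρ := by
        rw [div_le_iff₀ hρ0, mul_comm]
        exact mul_le_mul_of_nonneg_left hw (by linarith)
      linarith
    have h4 : 1 - ρ ≤ δ₂ := by
      have h5 : 1 ≤ ‖z‖ + ‖b - z‖ := by
        have : ‖b‖ ≤ ‖z‖ + ‖b - z‖ := by
          have e2 : b = z + (b - z) := by ring
          conv_lhs => rw [e2]
          exact norm_add_le _ _
        rwa [hbn] at this
      linarith
    linarith
  have b1 := hbar ρ hρ2 hρ1 φ z hzρ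
  have b2 := hbar ρ hρ2 hρ1 φ z' hzρ'
  have c1 := hest z hzρ hz2
  have c2 := hest z' hzρ' hz2'
  have hk : 0 < 2 * Real.pi / δ ^ 2 := by positivity
  have d1 := mul_le_mul_of_nonneg_left c1 hk.le
  have d2 := mul_le_mul_of_nonneg_left c2 hk.le
  have e3 : 2 * Real.pi / δ ^ 2 * (6 * δ₂) = 12 / 100 * ε := by
    rw [hδ₂]
    field_simp
    norm_num
  rw [e3] at d1 d2
  rw [← hb] at b1 b2
  rw [Real.dist_eq]
  have e4 : (g z).im - (g z').im = ((g z).im - (g (circleMap 0 ρ φ)).im) -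
      ((g z').im - (g (circleMap 0 ρ φ)).im) := by ring
  rw [e4]
  refine (abs_sub _ _).trans_lt ?_
  linarith

theorem boundary_argument {V : Set ℂ} (hs : StarConvex ℝ (0 : ℂ) V) (hb : V ⊆ ball 0 1)
    {X : ℂ → ℂ} (hd : DifferentiableOn ℂ X (ball 0 1)) (hi : InjOn X (ball 0 1))
    (him : X '' ball 0 1 = V) (h0 : X 0 = 0) :
    ∃ Θ : ℝ → ℝ, Continuous Θ ∧ Monotone Θ ∧ (∀ φ, Θ (φ + 2 * Real.pi) = Θ φ + 2 * Real.pi) ∧
      ∀ φ : ℝ, Tendsto (fun z => X z / (‖X z‖ : ℂ)) (𝓝[ball (0 : ℂ) 1] (exp (φ * I)))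
        (𝓝 (exp (Θ φ * I))) := by
  have hπ := Real.pi_pos
  have hBo : IsOpen (ball (0 : ℂ) 1) := isOpen_ball
  have h0B : (0 : ℂ) ∈ ball (0 : ℂ) 1 := mem_ball_self one_pos
  -- the logarithm of `X z / z`
  have hdsd : DifferentiableOn ℂ (dslope X 0) (ball 0 1) :=
    (Complex.differentiableOn_dslope (hBo.mem_nhds h0B)).2 hd
  have hds0 : ∀ z ∈ ball (0 : ℂ) 1, dslope X 0 z ≠ 0 := by
    intro z hz h
    by_cases hz0 : z = 0
    · subst hz0
      rw [dslope_same] at h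
      exact deriv_ne_of_injOn hBo hd hi 0 h0B h
    · rw [dslope_of_ne _ hz0, slope_def_field, h0, sub_zero, sub_zero, div_eq_zero_iff] at h
      rcases h with h | h
      · exact hz0 (hi hz h0B (h.trans h0.symm))
      · exact hz0 h
  obtain ⟨g, hg, hgX, _⟩ := exists_log hBo h0B (convex_ball (0 : ℂ) 1 |>.starConvex h0B) hdsd hds0
    (c := Complex.log (dslope X 0 0)) (Complex.exp_log (hds0 0 h0B))
  have hX : ∀ z ∈ ball (0 : ℂ) 1, X z = z * exp (g z) := by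
    intro z hz
    rw [hgX z hz]
    have := sub_smul_dslope X 0 z
    rw [h0, sub_zero, sub_zero, smul_eq_mul] at this
    exact this.symm
  -- positivity
  have hP : ∀ z ∈ ball (0 : ℂ) 1, 0 ≤ (1 + z * deriv g z).re := by
    intro z hz
    by_cases hz0 : z = 0
    · simp [hz0]
    · have h1 := starlike hs hd hi him h0 z hz hz0
      have h2 : HasDerivAt (fun z => z * exp (g z))
          (1 * exp (g z) + z * (exp (g z) * deriv g z)) z :=
        (hasDerivAt_id z).mul ((hg.differentiableAt (hBo.mem_nhds hz)).hasDerivAt.cexp)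
      have h3 : X =ᶠ[𝓝 z] fun z => z * exp (g z) := by
        filter_upwards [hBo.mem_nhds hz] with w hw
        exact hX w hw
      have h4 : z * deriv X z / X z = 1 + z * deriv g z := by
        rw [h3.deriv_eq, h2.deriv, hX z hz]
        have h5 := Complex.exp_ne_zero (g z)
        field_simp
      rwa [h4] at h1
  have hnX : ∀ z ∈ ball (0 : ℂ) 1, ‖X z‖ = ‖z‖ * Real.exp (g z).re := by
    intro z hz
    rw [hX z hz, norm_mul, Complex.norm_exp]
  have hlogX : ∀ z ∈ ball (0 : ℂ) 1, z ≠ 0 →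
      Real.log ‖X z‖ = Real.log ‖z‖ + (g z).re := by
    intro z hz hz0
    rw [hnX z hz, Real.log_mul (norm_ne_zero_iff.2 hz0) (Real.exp_pos _).ne', Real.log_exp]
  have hX1 : ∀ z ∈ ball (0 : ℂ) 1, ‖X z‖ < 1 := by
    intro z hz
    have h1 : X z ∈ V := him ▸ ⟨z, hz, rfl⟩
    simpa using hb h1
  -- bounds for `log |X|`
  obtain ⟨c, hc0, hc⟩ : ∃ c > 0, ∀ z ∈ ball (0 : ℂ) 1, 1 / 4 ≤ ‖z‖ → c ≤ ‖X z‖ := by
    have h1 : ball (0 : ℂ) (1 / 4) ⊆ ball 0 1 := ball_subset_ball (by norm_num)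
    have h2 : IsOpen (X '' ball 0 (1 / 4)) := e1a_open hBo hd hi _ h1 isOpen_ball
    have h3 : (0 : ℂ) ∈ X '' ball 0 (1 / 4) := ⟨0, mem_ball_self (by norm_num), h0⟩
    obtain ⟨c, hc0, hc⟩ := Metric.isOpen_iff.1 h2 0 h3
    refine ⟨c, hc0, fun z hz hz4 => ?_⟩
    by_contra hlt
    push Not at hlt
    obtain ⟨w, hw, hwX⟩ := hc (mem_ball_zero_iff.2 hlt)
    have := hi (h1 hw) hz hwX
    rw [this, mem_ball_zero_iff] at hw
    linarith
  have hnX0 : ∀ z ∈ ball (0 : ℂ) 1, z ≠ 0 → 0 < ‖X z‖ := by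
    intro z hz hz0
    rw [hnX z hz]
    exact mul_pos (norm_pos_iff.2 hz0) (Real.exp_pos _)
  have hup0 : ∀ z ∈ ball (0 : ℂ) 1, z ≠ 0 → Real.log ‖z‖ + (g z).re ≤ 0 := by
    intro z hz hz0
    rw [← hlogX z hz hz0]
    exact Real.log_nonpos (norm_nonneg _) (hX1 z hz).le
  have hup : ∀ z ∈ ball (0 : ℂ) 1, Real.log ‖z‖ + (g z).re ≤ 0 := by
    intro z hz
    by_cases hz0 : z = 0
    · subst hz0
      rw [norm_zero, Real.log_zero, zero_add]
      -- `|X' 0| ≤ 1` by the Schwarz lemma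
      have h1 : ‖deriv X 0‖ ≤ 1 := by
        refine Complex.norm_deriv_le_one_of_mapsTo_ball (R := 1) hd ?_ one_pos
        intro w hw
        rw [h0]
        exact ball_subset_closedBall (mem_ball_zero_iff.2 (hX1 w hw))
      have h2 := hgX 0 h0B
      rw [dslope_same] at h2
      rw [← h2, Complex.norm_exp] at h1
      exact Real.exp_le_one_iff.1 h1
    · exact hup0 z hz hz0
  have hlow : ∀ z ∈ ball (0 : ℂ) 1, 1 / 4 ≤ ‖z‖ → -(-Real.log c) ≤ Real.log ‖z‖ + (g z).re := by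
    intro z hz hz4
    have hz0 : z ≠ 0 := by
      rintro rfl
      rw [norm_zero] at hz4
      linarith
    rw [neg_neg, ← hlogX z hz hz0]
    exact Real.log_le_log hc0 (hc z hz hz4)
  have hlim := e3_lim hg hP hup hlow
  set u : ℂ → ℝ := extendFrom (ball 0 1) (fun z => (g z).im) with hu
  have hut : ∀ φ : ℝ, Tendsto (fun z => (g z).im) (𝓝[ball (0 : ℂ) 1] (exp (φ * I)))
      (𝓝 (u (exp (φ * I)))) := fun φ => tendsto_extendFrom (hlim φ)
  have hsphere : ∀ x ∈ sphere (0 : ℂ) 1, ∃ φ : ℝ, exp (φ * I) = x := by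
    intro x hx
    rw [mem_sphere_zero_iff_norm] at hx
    refine ⟨arg x, ?_⟩
    have := Complex.norm_mul_exp_arg_mul_I x
    rwa [hx, ofReal_one, one_mul] at this
  have huc : ContinuousOn u (sphere (0 : ℂ) 1) := by
    refine continuousOn_extendFrom ?_ ?_
    · rw [closure_ball _ one_ne_zero]
      exact sphere_subset_closedBall
    · intro x hx
      obtain ⟨φ, rfl⟩ := hsphere x hx
      exact hlim φ
  refine ⟨fun φ => φ + u (exp (φ * I)), ?_, ?_, ?_, ?_⟩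
  · refine continuous_id.add ?_
    have h1 : Continuous (fun φ : ℝ => exp (φ * I)) := by fun_prop
    exact continuousOn_univ.1 (huc.comp h1.continuousOn (fun φ _ => by
      rw [mem_sphere_zero_iff_norm]
      exact Complex.norm_exp_ofReal_mul_I φ))
  · -- monotone
    have hrad : ∀ φ : ℝ, Tendsto (fun ρ : ℝ => e3_Th g ρ φ) (𝓝[<] 1)
        (𝓝 (φ + u (exp (φ * I)))) := by
      intro φ
      refine Tendsto.const_add φ ((hut φ).comp ?_)
      refine tendsto_nhdsWithin_of_tendsto_nhds_of_eventually_within _ ?_ ?_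
      · have h1 : Continuous (fun ρ : ℝ => circleMap 0 ρ φ) := by
          unfold circleMap
          fun_prop
        have h2 := (h1.tendsto 1).mono_left (nhdsWithin_le_nhds (s := Iio (1 : ℝ)))
        rwa [circleMap_zero, ofReal_one, one_mul] at h2
      · have h3 : ∀ᶠ ρ : ℝ in 𝓝[<] (1 : ℝ), 0 < ρ :=
          (eventually_gt_nhds one_pos).filter_mono nhdsWithin_le_nhds
        filter_upwards [self_mem_nhdsWithin, h3] with ρ h4 h5
        exact e3_mem h5.le h4 φ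
    intro φ φ' hφ
    refine le_of_tendsto_of_tendsto (hrad φ) (hrad φ') ?_
    have h3 : ∀ᶠ ρ : ℝ in 𝓝[<] (1 : ℝ), 0 < ρ :=
      (eventually_gt_nhds one_pos).filter_mono nhdsWithin_le_nhds
    filter_upwards [self_mem_nhdsWithin, h3] with ρ h4 h5
    exact e3_mono hg hP h5.le h4 hφ
  · intro φ
    have h1 : exp (((φ + 2 * Real.pi : ℝ) : ℂ) * I) = exp (φ * I) := by
      push_cast
      rw [add_mul, Complex.exp_add, Complex.exp_two_pi_mul_I, mul_one]
    simp only [h1]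
    ring
  · intro φ
    set b : ℂ := exp (φ * I) with hbd
    have hbn : ‖b‖ = 1 := Complex.norm_exp_ofReal_mul_I φ
    have h1 : Tendsto (fun z : ℂ => z / (‖z‖ : ℂ)) (𝓝[ball (0 : ℂ) 1] b) (𝓝 b) := by
      have h2 : ContinuousAt (fun z : ℂ => z / (‖z‖ : ℂ)) b := by
        refine continuousAt_id.div (by fun_prop) ?_
        rw [hbn]
        simp
      have h3 := h2.tendsto
      rw [hbn, ofReal_one, div_one] at h3
      exact h3.mono_left nhdsWithin_le_nhds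
    have h2 : Tendsto (fun z : ℂ => exp ((((g z).im : ℝ) : ℂ) * I)) (𝓝[ball (0 : ℂ) 1] b)
        (𝓝 (exp (((u b : ℝ) : ℂ) * I))) := by
      have h3 : Continuous (fun t : ℝ => exp ((t : ℂ) * I)) := by fun_prop
      exact (h3.tendsto _).comp (hut φ)
    have h3 := h1.mul h2
    have e1 : b * exp (((u b : ℝ) : ℂ) * I) = exp (((φ + u b : ℝ) : ℂ) * I) := by
      rw [hbd, ← Complex.exp_add]
      push_cast
      congr 1
      ring
    rw [e1] at h3
    refine h3.congr' ?_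
    have hne : ∀ᶠ z in 𝓝[ball (0 : ℂ) 1] b, z ≠ 0 := by
      refine (isOpen_ne.mem_nhds ?_ : {z : ℂ | z ≠ 0} ∈ 𝓝 b) |> mem_nhdsWithin_of_mem_nhds
      intro h
      rw [h, norm_zero] at hbn
      exact zero_ne_one hbn
    filter_upwards [self_mem_nhdsWithin, hne] with z hz hz0
    rw [hnX z hz, hX z hz]
    have e2 : exp (g z) = ((Real.exp (g z).re : ℝ) : ℂ) * exp ((((g z).im : ℝ) : ℂ) * I) := by
      rw [Complex.ofReal_exp, ← Complex.exp_add, Complex.re_add_im]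
    rw [e2]
    push_cast
    have hz1 : ((‖z‖ : ℝ) : ℂ) ≠ 0 := by
      exact_mod_cast norm_ne_zero_iff.2 hz0
    have hz2 := Complex.exp_ne_zero (((g z).re : ℝ) : ℂ)
    field_simp

end Pool.Agent.Choc
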