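import Pool.Agent.Lib.MP_2b3e36_an.Ex.V0

/-!
E4. Points of `V y` tending to the boundary with convergent argument.

Let `l` be a filter, `q : α → ℂ` eventually in `V y`, leaving every compact subset of `V y`, and
`q/‖q‖ → e^{iθ}`. Write `q = nome τ`, `Re τ` near `θ/pi`.
`0 < θ < pi`, or `θ = pi`, (also any `θ` with `e^{iθ} = -1`): `‖q‖ → 1`: for `η < 1` the set
`{‖q‖ ≤ η, arg near θ}` intersected with `V y` has compact closure in `V y` for `0 < θ < pi` (no `Bset`, no slit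
in the sector); for `θ = pi`: near the direction `-1` the set `Bset` is contained in `‖q‖ > 1 - small`
(`‖τ+1/2‖ ≤ 1/2`, `Re τ` near `-1` forces `Im τ` small). So `q → e^{iθ}`.
`-pi < θ < 0`: `Re τ → θ/pi ∈ (-1,0)`, and `Im τ → sqrt (1/4 - (θ/pi + 1/2)^2)`, i.e.
`q → nome (geoPt θ) ∈ geo`: for `η > 0` the points with argument near `θ` and
`Im τ ≥ sqrt(...) + η` form a set with compact closure in `V y` (including `0`).
`θ = 0`: `limsup (exp (- pi y) - ‖q‖) ≤ 0`: the set `{‖q‖ ≤ exp (- pi y) - η, arg near 0}` has compact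
closure in `V y`.
-/

set_option autoImplicit false

open Complex Set Filter Topology Metric

namespace Pool.Agent.Choc

noncomputable section

/-- The point of `Sig` with real part `θ/pi`. -/
def geoPt (θ : ℝ) : ℂ := θ / Real.pi + Real.sqrt (1 / 4 - (θ / Real.pi + 1 / 2) ^ 2) * I

lemma e4_nome_re (τ : ℂ) : nome τ = (Real.exp (-Real.pi * τ.im) : ℂ) * exp ((Real.pi * τ.re : ℝ) * I) := by
  rw [nome, Complex.ofReal_exp, ← Complex.exp_add]
  congr 1
  apply Complex.ext <;> simp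

lemma e4_norm_nome (τ : ℂ) : ‖nome τ‖ = Real.exp (-Real.pi * τ.im) := by
  rw [nome, Complex.norm_exp]
  congr 1
  simp

theorem e4_geoPt_re (θ : ℝ) : (geoPt θ).re = θ / Real.pi := by
  simp only [geoPt, Complex.add_re, Complex.mul_re, Complex.ofReal_re, Complex.I_re, mul_zero,
    Complex.ofReal_im, Complex.I_im, mul_one, sub_self, add_zero]
  rw [← Complex.ofReal_div, Complex.ofReal_re]

theorem e4_geoPt_im (θ : ℝ) : (geoPt θ).im = Real.sqrt (1 / 4 - (θ / Real.pi + 1 / 2) ^ 2) := by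
  simp only [geoPt, Complex.add_im, Complex.mul_im, Complex.ofReal_re, Complex.I_re, mul_zero,
    Complex.ofReal_im, Complex.I_im, mul_one, add_zero]
  rw [← Complex.ofReal_div, Complex.ofReal_im, zero_add]

theorem geoPt_mem {θ : ℝ} (h1 : -Real.pi < θ) (h2 : θ < 0) : geoPt θ ∈ Sig := by
  have hp := Real.pi_pos
  have ht1 : -1 < θ / Real.pi := by rw [lt_div_iff₀ hp]; linarith
  have ht2 : θ / Real.pi < 0 := div_neg_of_neg_of_pos h2 hp
  have hpos : 0 < 1 / 4 - (θ / Real.pi + 1 / 2) ^ 2 := by nlinarith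
  refine ⟨by rw [e4_geoPt_im]; exact Real.sqrt_pos.2 hpos, ?_⟩
  have hn : ‖geoPt θ + 1 / 2‖ ^ 2 = 1 / 4 := by
    rw [← Complex.normSq_eq_norm_sq, Complex.normSq_apply]
    have e1 : (geoPt θ + 1 / 2).re = θ / Real.pi + 1 / 2 := by
      rw [Complex.add_re, e4_geoPt_re]; norm_num
    have e2 : (geoPt θ + 1 / 2).im = Real.sqrt (1 / 4 - (θ / Real.pi + 1 / 2) ^ 2) := by
      rw [Complex.add_im, e4_geoPt_im]; norm_num
    rw [e1, e2, Real.mul_self_sqrt hpos.le]
    ring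
  have : ‖geoPt θ + 1 / 2‖ ^ 2 = (1 / 2) ^ 2 := by rw [hn]; norm_num
  exact (sq_eq_sq₀ (norm_nonneg _) (by norm_num)).1 this

variable {α : Type*} {l : Filter α} {q : α → ℂ} {y θ : ℝ}

lemma e4_ray {u : ℂ} {η : ℝ} (hy : 0 < y) (hη : 0 ≤ η) (hη1 : (η : ℂ) * u ∈ V y)
    (he : ∀ K : Set ℂ, IsCompact K → K ⊆ V y → ∀ᶠ a in l, q a ∉ K)
    (ht : Tendsto (fun a => q a / (‖q a‖ : ℂ)) l (𝓝 u)) : ∀ᶠ a in l, η < ‖q a‖ := by
  let f : ℝ × ℂ → ℂ := fun p => (p.1 : ℂ) * p.2
  have hf : Continuous f := by fun_prop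
  have ho : IsOpen (f ⁻¹' V y) := (V_isOpen hy).preimage hf
  have hsub : Icc (0 : ℝ) η ×ˢ {u} ⊆ f ⁻¹' V y := by
    rintro ⟨s, w⟩ ⟨hs, hw⟩
    simp only [mem_singleton_iff] at hw
    subst hw
    show ((s : ℂ) * w) ∈ V y
    rcases eq_or_lt_of_le hη with h0 | h0
    · have : s = η := le_antisymm hs.2 (by rw [← h0]; exact hs.1)
      rw [this]; exact hη1
    · have h := V_star _ hη1 (s / η) (div_nonneg hs.1 hη) ((div_le_one h0).2 hs.2)
      have e : ((s / η : ℝ) : ℂ) * ((η : ℂ) * w) = (s : ℂ) * w := by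
        have : (η : ℂ) ≠ 0 := by exact_mod_cast h0.ne'
        push_cast
        field_simp
      rwa [e] at h
  obtain ⟨U, W, hU, hW, hU1, hW1, hUW⟩ := generalized_tube_lemma isCompact_Icc isCompact_singleton ho hsub
  obtain ⟨δ, hδ, hδW⟩ := Metric.nhds_basis_closedBall.mem_iff.1 (hW.mem_nhds (hW1 rfl))
  have hK : IsCompact (f '' (Icc (0 : ℝ) η ×ˢ closedBall u δ)) :=
    (isCompact_Icc.prod (isCompact_closedBall u δ)).image hf
  have hKV : f '' (Icc (0 : ℝ) η ×ˢ closedBall u δ) ⊆ V y := by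
    rintro _ ⟨p, hp, rfl⟩
    exact hUW ⟨hU1 hp.1, hδW hp.2⟩
  filter_upwards [he _ hK hKV, ht (closedBall_mem_nhds u hδ)] with a h1 h2
  by_contra hc
  push Not at hc
  refine h1 ⟨(‖q a‖, q a / (‖q a‖ : ℂ)), ⟨⟨norm_nonneg _, hc⟩, h2⟩, ?_⟩
  show (‖q a‖ : ℂ) * (q a / (‖q a‖ : ℂ)) = q a
  by_cases h0 : q a = 0
  · simp [h0]
  · have : (‖q a‖ : ℂ) ≠ 0 := by exact_mod_cast norm_ne_zero_iff.2 h0
    field_simp

/-- points of Bset have argument in [-pi, 0]. -/
lemma e4_B {z : ℂ} (hz : z ∈ Bset) : ∃ t h : ℝ, -1 < t ∧ t < 0 ∧ 0 < h ∧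
    (t + 1 / 2) ^ 2 + h ^ 2 ≤ 1 / 4 ∧ z = (Real.exp (-Real.pi * h) : ℂ) * exp ((Real.pi * t : ℝ) * I) := by
  obtain ⟨τ, h1, h2, rfl⟩ := hz
  have h3 : (τ.re + 1 / 2) ^ 2 + τ.im ^ 2 ≤ 1 / 4 := by
    have : ‖τ + 1 / 2‖ ^ 2 ≤ (1 / 2) ^ 2 := pow_le_pow_left₀ (norm_nonneg _) h2 2
    rw [← Complex.normSq_eq_norm_sq, Complex.normSq_apply] at this
    have e1 : (τ + 1 / 2).re = τ.re + 1 / 2 := by rw [Complex.add_re]; norm_num
    have e2 : (τ + 1 / 2).im = τ.im := by rw [Complex.add_im]; norm_num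
    rw [e1, e2] at this
    nlinarith
  have h4 : 0 < τ.im ^ 2 := by positivity
  refine ⟨τ.re, τ.im, by nlinarith, by nlinarith, h1, h3, e4_nome_re τ⟩

lemma e4_slit {y : ℝ} {z : ℂ} (hz : z ∈ slit y) : ∃ t : ℝ, 0 < t ∧ t ≤ y ∧ z = (Real.exp (-Real.pi * t) : ℂ) := by
  obtain ⟨t, h1, h2, rfl⟩ := hz
  refine ⟨t, h1, h2, ?_⟩
  rw [e4_nome_re]
  simp

lemma e4_polar_eq {r s a b : ℝ} (hr : 0 < r) (hs : 0 < s)
    (h : (r : ℂ) * exp (a * I) = (s : ℂ) * exp (b * I)) : r = s ∧ exp (a * I) = exp (b * I) := by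
  have h1 : r = s := by
    have := congrArg norm h
    simpa [Complex.norm_exp_ofReal_mul_I, abs_of_pos hr, abs_of_pos hs] using this
  refine ⟨h1, ?_⟩
  rw [h1] at h
  have : (s : ℂ) ≠ 0 := by exact_mod_cast hs.ne'
  exact mul_left_cancel₀ this h

lemma e4_exp_inj {a b : ℝ} (h : exp (a * I) = exp (b * I)) (h1 : |a - b| < 2 * Real.pi) : a = b := by
  rw [Complex.exp_eq_exp_iff_exists_int] at h
  obtain ⟨n, hn⟩ := h
  have h2 : a = b + n * (2 * Real.pi) := by
    have := congrArg Complex.im hn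
    simpa using this
  have h3 : |(n : ℝ)| * (2 * Real.pi) < 1 * (2 * Real.pi) := by
    rw [← abs_of_pos (show (0 : ℝ) < 2 * Real.pi by positivity), ← abs_mul,
      abs_of_pos (show (0 : ℝ) < 2 * Real.pi by positivity)]
    rw [h2] at h1
    simpa using h1
  have h4 : |(n : ℝ)| < 1 := lt_of_mul_lt_mul_right h3 (by positivity)
  have h5 : n = 0 := by
    have : |n| < 1 := by exact_mod_cast h4
    exact Int.abs_lt_one_iff.1 this
  rw [h2, h5]; simp

/-- Points on rays. -/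
lemma e4_mem {η θ : ℝ} (hη : 0 < η) (hη1 : η < 1) (hθ1 : -Real.pi < θ) (hθ2 : θ ≤ Real.pi)
    (hs : θ = 0 → η < Real.exp (-Real.pi * y))
    (hb : θ < 0 → η < Real.exp (-Real.pi * Real.sqrt (1 / 4 - (θ / Real.pi + 1 / 2) ^ 2))) :
    (η : ℂ) * exp (θ * I) ∈ V y := by
  have hp := Real.pi_pos
  refine ⟨?_, ?_, ?_⟩
  · rw [norm_mul, Complex.norm_exp_ofReal_mul_I, mul_one, Complex.norm_real, Real.norm_eq_abs, abs_of_pos hη]
    exact hη1
  · intro hB
    obtain ⟨t, h, h1, h2, h3, h4, h5⟩ := e4_B hB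
    obtain ⟨h6, h7⟩ := e4_polar_eq hη (Real.exp_pos _) h5
    rcases eq_or_ne θ Real.pi with hq | hq
    · -- θ = π
      have h8 : exp ((Real.pi * t : ℝ) * I) = exp ((-Real.pi : ℝ) * I) := by
        rw [← h7, hq, Complex.exp_pi_mul_I]
        push_cast
        rw [neg_mul, Complex.exp_neg, Complex.exp_pi_mul_I]
        norm_num
      have h9 := e4_exp_inj h8 (by rw [abs_lt]; constructor <;> nlinarith)
      have : t = -1 := by
        have : Real.pi * (t + 1) = 0 := by linarith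
        rcases mul_eq_zero.1 this with h | h
        · exact absurd h hp.ne'
        · linarith
      linarith
    · have h9 := e4_exp_inj h7 (by
        have : θ < Real.pi := lt_of_le_of_ne hθ2 hq
        rw [abs_lt]; constructor <;> nlinarith)
      have hθ0 : θ < 0 := by rw [h9]; nlinarith
      have h10 := hb hθ0
      have h11 : θ / Real.pi = t := by rw [h9]; field_simp
      rw [h11, h6] at h10
      have h12 := Real.exp_lt_exp.1 h10
      have h13 : Real.sqrt (1 / 4 - (t + 1 / 2) ^ 2) < h := by nlinarith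
      have h14 : h ≤ Real.sqrt (1 / 4 - (t + 1 / 2) ^ 2) := by
        apply Real.le_sqrt_of_sq_le
        linarith
      linarith
  · intro hS
    obtain ⟨t, h1, h2, h3⟩ := e4_slit hS
    have h5 : (η : ℂ) * exp (θ * I) = (Real.exp (-Real.pi * t) : ℂ) * exp ((0 : ℝ) * I) := by
      rw [h3]; simp
    obtain ⟨h6, h7⟩ := e4_polar_eq hη (Real.exp_pos _) h5
    have h8 := e4_exp_inj h7 (by rw [abs_lt]; constructor <;> linarith)
    have h9 := hs h8
    rw [h6] at h9
    have h10 := Real.exp_lt_exp.1 h9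
    nlinarith

lemma e4_of_norm {c : ℂ} {R : ℝ}
    (ht : Tendsto (fun a => q a / (‖q a‖ : ℂ)) l (𝓝 c)) (hR : Tendsto (fun a => ‖q a‖) l (𝓝 R)) :
    Tendsto q l (𝓝 ((R : ℂ) * c)) := by
  have h : Tendsto (fun a => (‖q a‖ : ℂ) * (q a / (‖q a‖ : ℂ))) l (𝓝 ((R : ℂ) * c)) :=
    ((Complex.continuous_ofReal.tendsto R).comp hR).mul ht
  refine h.congr fun a => ?_
  by_cases h0 : q a = 0
  · simp [h0]
  · have : (‖q a‖ : ℂ) ≠ 0 := by exact_mod_cast norm_ne_zero_iff.2 h0
    field_simp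

theorem esc_upper (hy : 0 < y) (hq : ∀ᶠ a in l, q a ∈ V y)
    (he : ∀ K : Set ℂ, IsCompact K → K ⊆ V y → ∀ᶠ a in l, q a ∉ K)
    (ht : Tendsto (fun a => q a / (‖q a‖ : ℂ)) l (𝓝 (exp (θ * I)))) (h1 : 0 < θ)
    (h2 : θ ≤ Real.pi) : Tendsto q l (𝓝 (exp (θ * I))) := by
  have hp := Real.pi_pos
  have hR : Tendsto (fun a => ‖q a‖) l (𝓝 1) := by
    rw [tendsto_order]
    constructor
    · intro b hb
      set η := max (1 / 2) b with hη
      have hη0 : 0 < η := lt_of_lt_of_le (by norm_num) (le_max_left _ _)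
      have hη1 : η < 1 := max_lt (by norm_num) hb
      have := e4_ray hy hη0.le (e4_mem (y := y) (θ := θ) hη0 hη1 (by linarith) h2
        (fun h => absurd h h1.ne') (fun h => absurd h (not_lt.2 h1.le))) he ht
      exact this.mono fun a ha => lt_of_le_of_lt (le_max_right _ _) ha
    · intro b hb
      filter_upwards [hq] with a ha
      have := ha.1
      linarith
  have := e4_of_norm ht hR
  simpa using this

theorem esc_slit (hy : 0 < y) (hq : ∀ᶠ a in l, q a ∈ V y)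
    (he : ∀ K : Set ℂ, IsCompact K → K ⊆ V y → ∀ᶠ a in l, q a ∉ K)
    (ht : Tendsto (fun a => q a / (‖q a‖ : ℂ)) l (𝓝 1)) :
    ∀ η > 0, ∀ᶠ a in l, Real.exp (-Real.pi * y) - η ≤ ‖q a‖ := by
  have hp := Real.pi_pos
  intro η hη
  by_cases h0 : 0 < Real.exp (-Real.pi * y) - η
  · have h1 : Real.exp (-Real.pi * y) < 1 := by
      rw [Real.exp_lt_one_iff]; nlinarith
    have hm := e4_mem (y := y) (θ := 0) h0 (by linarith) (by linarith) hp.le (fun _ => by linarith)
      (fun h => absurd h (lt_irrefl _))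
    have ht' : Tendsto (fun a => q a / (‖q a‖ : ℂ)) l (𝓝 (exp ((0 : ℝ) * I))) := by
      simpa using ht
    exact (e4_ray hy h0.le hm he ht').mono fun a ha => ha.le
  · filter_upwards with a
    have := norm_nonneg (q a)
    linarith

/-- The lift `(log z)/(pi i)` with the branch near the direction `θ₀`. -/
def e4_lift (θ₀ : ℝ) (z : ℂ) : ℂ := (log (z * exp (-(θ₀ * I))) + θ₀ * I) / (Real.pi * I)

lemma e4_lift_nome {θ₀ : ℝ} {z : ℂ} (hz : z ≠ 0) : nome (e4_lift θ₀ z) = z := by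
  have hp : (Real.pi : ℂ) ≠ 0 := by exact_mod_cast Real.pi_ne_zero
  rw [nome, e4_lift]
  have e : (Real.pi : ℂ) * I * ((log (z * exp (-(θ₀ * I))) + θ₀ * I) / (Real.pi * I)) =
      log (z * exp (-(θ₀ * I))) + θ₀ * I := by
    field_simp
  rw [e, Complex.exp_add, Complex.exp_log (mul_ne_zero hz (Complex.exp_ne_zero _)), mul_assoc,
    ← Complex.exp_add]
  simp

lemma e4_lift_im {θ₀ : ℝ} {z : ℂ} : (e4_lift θ₀ z).im = -Real.log ‖z‖ / Real.pi := by
  have hn : ‖z * exp (-(θ₀ * I))‖ = ‖z‖ := by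
    rw [norm_mul]
    have : ‖exp (-(θ₀ * I))‖ = 1 := by
      rw [Complex.norm_exp]; simp
    rw [this, mul_one]
  have h1 : (log (z * exp (-(θ₀ * I))) + θ₀ * I) / (Real.pi * I) =
      (-(log (z * exp (-(θ₀ * I))) + θ₀ * I) * I) / (Real.pi : ℝ) := by
    have hp : (Real.pi : ℂ) ≠ 0 := by exact_mod_cast Real.pi_ne_zero
    field_simp
    rw [Complex.I_sq]; ring
  have h2 : (-(log (z * exp (-(θ₀ * I))) + θ₀ * I) * I).im = -(log (z * exp (-(θ₀ * I)))).re := by
    simp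
  rw [e4_lift, h1, Complex.div_ofReal_im, h2, Complex.log_re, hn]

lemma e4_lift_re {θ₀ : ℝ} {z : ℂ} :
    (e4_lift θ₀ z).re = (arg (z * exp (-(θ₀ * I))) + θ₀) / Real.pi := by
  have h1 : (log (z * exp (-(θ₀ * I))) + θ₀ * I) / (Real.pi * I) =
      (-(log (z * exp (-(θ₀ * I))) + θ₀ * I) * I) / (Real.pi : ℝ) := by
    have hp : (Real.pi : ℂ) ≠ 0 := by exact_mod_cast Real.pi_ne_zero
    field_simp
    rw [Complex.I_sq]; ring
  rw [e4_lift, h1, Complex.div_ofReal_re]
  congr 1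
  simp [Complex.log_im]

lemma e4_lift_tendsto {θ₀ ϑ : ℝ}
    (ht : Tendsto (fun a => q a / (‖q a‖ : ℂ)) l (𝓝 (exp (ϑ * I)))) (h : |ϑ - θ₀| < Real.pi) :
    Tendsto (fun a => (e4_lift θ₀ (q a)).re) l (𝓝 (ϑ / Real.pi)) := by
  have h1 : Tendsto (fun a => q a / (‖q a‖ : ℂ) * exp (-(θ₀ * I))) l
      (𝓝 (exp (ϑ * I) * exp (-(θ₀ * I)))) := ht.mul_const _
  have e1 : exp (ϑ * I) * exp (-(θ₀ * I)) = exp ((ϑ - θ₀ : ℝ) * I) := by
    rw [← Complex.exp_add]; congr 1; push_cast; ring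
  rw [e1] at h1
  rw [abs_lt] at h
  have harg : arg (exp ((ϑ - θ₀ : ℝ) * I)) = ϑ - θ₀ := by
    rw [Complex.arg_exp_mul_I, toIocMod_eq_self]
    constructor <;> linarith
  have hsl : exp ((ϑ - θ₀ : ℝ) * I) ∈ slitPlane := by
    rw [Complex.mem_slitPlane_iff_arg]
    refine ⟨by rw [harg]; linarith, Complex.exp_ne_zero _⟩
  have h2 := (Complex.continuousAt_arg hsl).tendsto.comp h1
  rw [harg] at h2
  have hne : ∀ᶠ a in l, q a ≠ 0 := by
    have := ht.eventually_ne (Complex.exp_ne_zero _)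
    filter_upwards [this] with a ha h0
    apply ha
    simp [h0]
  have h3 : Tendsto (fun a => (arg (q a * exp (-(θ₀ * I))) + θ₀) / Real.pi) l
      (𝓝 ((ϑ - θ₀ + θ₀) / Real.pi)) := by
    refine Tendsto.div_const (Tendsto.add_const _ ?_) _
    refine h2.congr' ?_
    filter_upwards [hne] with a ha
    show arg (q a / (‖q a‖ : ℂ) * exp (-(θ₀ * I))) = _
    have hn : 0 < ‖q a‖ := norm_pos_iff.2 ha
    have : q a * exp (-(θ₀ * I)) = (‖q a‖ : ℂ) * (q a / (‖q a‖ : ℂ) * exp (-(θ₀ * I))) := by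
      have : (‖q a‖ : ℂ) ≠ 0 := by exact_mod_cast hn.ne'
      field_simp
    rw [this, Complex.arg_real_mul _ hn]
  have e2 : (ϑ - θ₀ + θ₀) / Real.pi = ϑ / Real.pi := by ring_nf
  rw [e2] at h3
  refine h3.congr fun a => ?_
  rw [e4_lift_re]

theorem esc_geo (hy : 0 < y) (hq : ∀ᶠ a in l, q a ∈ V y)
    (he : ∀ K : Set ℂ, IsCompact K → K ⊆ V y → ∀ᶠ a in l, q a ∉ K)
    (ht : Tendsto (fun a => q a / (‖q a‖ : ℂ)) l (𝓝 (exp (θ * I)))) (h1 : -Real.pi < θ)
    (h2 : θ < 0) : Tendsto q l (𝓝 (nome (geoPt θ))) := by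
  have hp := Real.pi_pos
  have ht1 : -1 < θ / Real.pi := by rw [lt_div_iff₀ hp]; linarith
  have ht2 : θ / Real.pi < 0 := div_neg_of_neg_of_pos h2 hp
  have hpos : 0 < 1 / 4 - (θ / Real.pi + 1 / 2) ^ 2 := by nlinarith
  set H := Real.sqrt (1 / 4 - (θ / Real.pi + 1 / 2) ^ 2) with hH
  have hH0 : 0 < H := Real.sqrt_pos.2 hpos
  have hHsq : H ^ 2 = 1 / 4 - (θ / Real.pi + 1 / 2) ^ 2 := Real.sq_sqrt hpos.le
  have hR : Tendsto (fun a => ‖q a‖) l (𝓝 (Real.exp (-Real.pi * H))) := by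
    rw [tendsto_order]
    constructor
    · intro b hb
      set η := max (Real.exp (-Real.pi * H) / 2) b with hη
      have hex := Real.exp_pos (-Real.pi * H)
      have hη0 : 0 < η := lt_of_lt_of_le (by linarith) (le_max_left _ _)
      have hη1 : η < Real.exp (-Real.pi * H) := max_lt (by linarith) hb
      have hη2 : Real.exp (-Real.pi * H) < 1 := by
        rw [Real.exp_lt_one_iff]; nlinarith
      have := e4_ray hy hη0.le (e4_mem (y := y) (θ := θ) hη0 (by linarith) h1 (by linarith)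
        (fun h => absurd h h2.ne) (fun _ => hη1)) he ht
      exact this.mono fun a ha => lt_of_le_of_lt (le_max_right _ _) ha
    · intro b hb
      have hb0 : 0 < b := lt_trans (Real.exp_pos _) hb
      have hre := e4_lift_tendsto (θ₀ := θ) ht (by simpa using hp)
      -- the height corresponding to b
      set H' := -Real.log b / Real.pi with hH'
      have hbH : Real.exp (-Real.pi * H') = b := by
        rw [hH']
        have : -Real.pi * (-Real.log b / Real.pi) = Real.log b := by field_simp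
        rw [this, Real.exp_log hb0]
      have hH'H : H' < H := by
        rw [← hbH] at hb
        have := Real.exp_lt_exp.1 hb
        nlinarith
      have hcont : Tendsto (fun a => 1 / 4 - ((e4_lift θ (q a)).re + 1 / 2) ^ 2) l
          (𝓝 (1 / 4 - (θ / Real.pi + 1 / 2) ^ 2)) :=
        ((hre.add_const _).pow 2).const_sub _
      rw [← hHsq] at hcont
      have hex2 : ∀ᶠ a in l, (max H' 0) ^ 2 < 1 / 4 - ((e4_lift θ (q a)).re + 1 / 2) ^ 2 := by
        refine hcont.eventually_const_lt ?_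
        have : max H' 0 < H := max_lt hH'H hH0
        have h00 : 0 ≤ max H' 0 := le_max_right _ _
        nlinarith
      have hne : ∀ᶠ a in l, q a ≠ 0 := by
        have := ht.eventually_ne (Complex.exp_ne_zero _)
        filter_upwards [this] with a ha h0
        apply ha
        simp [h0]
      filter_upwards [hex2, hq, hne] with a ha1 ha2 ha3
      by_contra hc
      push Not at hc
      have hq1 : ‖q a‖ < 1 := ha2.1
      have hq0 : 0 < ‖q a‖ := norm_pos_iff.2 ha3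
      have him := e4_lift_im (θ₀ := θ) (z := q a)
      have him0 : 0 < (e4_lift θ (q a)).im := by
        rw [him]
        exact div_pos (neg_pos.2 (Real.log_neg hq0 hq1)) hp
      have him1 : (e4_lift θ (q a)).im ≤ H' := by
        rw [him, hH']
        gcongr
      refine ha2.2.1 ⟨e4_lift θ (q a), him0, ?_, e4_lift_nome ha3⟩
      have hn : ‖e4_lift θ (q a) + 1 / 2‖ ^ 2 ≤ (1 / 2) ^ 2 := by
        rw [← Complex.normSq_eq_norm_sq, Complex.normSq_apply]
        have e1 : (e4_lift θ (q a) + 1 / 2).re = (e4_lift θ (q a)).re + 1 / 2 := by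
          rw [Complex.add_re]; norm_num
        have e2 : (e4_lift θ (q a) + 1 / 2).im = (e4_lift θ (q a)).im := by
          rw [Complex.add_im]; norm_num
        rw [e1, e2]
        have : (e4_lift θ (q a)).im ≤ max H' 0 := him1.trans (le_max_left _ _)
        nlinarith
      exact le_of_sq_le_sq hn (by norm_num)
  have h3 := e4_of_norm ht hR
  have e : nome (geoPt θ) = (Real.exp (-Real.pi * H) : ℂ) * exp (θ * I) := by
    rw [e4_nome_re, e4_geoPt_im, e4_geoPt_re, ← hH]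
    congr 3
    have : Real.pi * (θ / Real.pi) = θ := by field_simp
    rw [this]
  rw [e]
  exact h3
end

end Pool.Agent.Choc
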