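import Pool.Agent.Lib.MP_2b3e36_an.Ex.T4

/-!
V0. The domain `V y`.

Facts. For `q ≠ 0`, `‖q‖ < 1`, write `q = nome τ`, `τ` unique up to `2ℤ`.
`Bset ∪ {-1, 1}` is closed: it is the image of the compact set `{‖τ + 1/2‖ ≤ 1/2, Im τ ≥ 0}` under the
continuous map `nome`, intersected...: the image of `{‖τ+1/2‖ ≤ 1/2, Im τ ≥ 0}` is
`Bset ∪ {nome x : -1 ≤ x ≤ 0}` = `Bset` together with the closed lower half circle; so `Bset` is relatively
closed in the open disc. `slit y ∪ {1}` is compact. Hence `V y` is open. Its closure is contained in the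
closed disc; a frontier point `ζ` with `‖ζ‖ < 1` is in `slit y` or in `Bset`, and if in `Bset` then in `geo`
(the points `nome τ` with `‖τ+1/2‖ < 1/2` are interior points of `Bset`, `nome` is open). A frontier point with
`‖ζ‖ = 1`: `ζ = nome x`, `x` real in `(-1, 1]`; if `-1 < x < 0` then a neighbourhood of `ζ` in the open disc is
contained in `Bset`, so `ζ` is not in the closure. So `ζ ∈ upperArc` or `ζ = 1` or `ζ = -1`.
`0 ∈ V y`, and `ball 0 (exp (- pi max(y,1/2))) ⊆ V y` (on `Bset` `Im τ ≤ 1/2`).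
Star shape: for `0 < s < 1`, `s nome τ = nome (τ + i t)`, `t > 0`: raises the imaginary part; a point above
the geodesic (or the slit) stays above: if `s q ∈ Bset`, `s q = nome τ'`, `‖τ' + 1/2‖ ≤ 1/2`, then
`q = nome (τ' - i t)` with `Im (τ' - i t) > 0` as `‖q‖ < 1`, and lowering the imaginary part (keeping it
positive) keeps `‖τ+1/2‖ ≤ 1/2`: `q ∈ Bset`.
-/

set_option autoImplicit false

open Complex Set Filter Topology Metric

namespace Pool.Agent.Choc

theorem v0_norm_nome (τ : ℂ) : ‖nome τ‖ = Real.exp (-Real.pi * τ.im) := by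
  unfold nome
  rw [Complex.norm_exp]
  congr 1
  simp

theorem v0_nome_ne (τ : ℂ) : nome τ ≠ 0 := Complex.exp_ne_zero _

theorem v0_im_pos {τ : ℂ} (h : ‖nome τ‖ < 1) : 0 < τ.im := by
  rw [v0_norm_nome, Real.exp_lt_one_iff] at h
  have := Real.pi_pos
  by_contra hc
  push Not at hc
  nlinarith

theorem v0_cont_nome : Continuous nome := by
  unfold nome
  fun_prop

theorem v0_open_nome : IsOpenMap nome := by
  have h1 : IsOpenMap (fun τ : ℂ => (Real.pi * I : ℂ) * τ) := by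
    have hne : (Real.pi * I : ℂ) ≠ 0 := by
      simp [Real.pi_ne_zero]
    exact (Homeomorph.mulLeft₀ _ hne).isOpenMap
  exact Complex.isOpenMap_exp.comp h1

theorem v0_norm_half (τ : ℂ) :
    ‖τ + 1 / 2‖ ^ 2 = (τ.re + 1 / 2) ^ 2 + τ.im ^ 2 := by
  rw [← Complex.normSq_eq_norm_sq, Complex.normSq_apply]
  simp
  ring

theorem v0_sub_half (τ : ℂ) : τ - -1 / 2 = τ + 1 / 2 := by ring

theorem v0_mem_B {q : ℂ} (hq : ‖q‖ < 1) {τ : ℂ} (h : ‖τ + 1 / 2‖ ≤ 1 / 2) (h' : nome τ = q) :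
    q ∈ Bset := ⟨τ, v0_im_pos (by rw [h']; exact hq), h, h'⟩

theorem v0_V_eq (y : ℝ) : V y = ball 0 1 ∩ ((nome '' closedBall (-1 / 2) (1 / 2)) ∪
    ((fun t : ℝ => nome (t * I)) '' Icc 0 y))ᶜ := by
  ext q
  simp only [V, Set.mem_ofPred_eq, mem_inter_iff, mem_ball, dist_zero_right, mem_compl_iff, mem_union,
    not_or]
  constructor
  · rintro ⟨h1, h2, h3⟩
    refine ⟨h1, ?_, ?_⟩
    · rintro ⟨τ, hτ, rfl⟩
      apply h2
      refine v0_mem_B h1 ?_ rfl
      rw [mem_closedBall, dist_eq_norm, v0_sub_half] at hτ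
      exact hτ
    · rintro ⟨t, ht, rfl⟩
      apply h3
      have := v0_im_pos h1
      refine ⟨t, ?_, ht.2, rfl⟩
      simpa using this
  · rintro ⟨h1, h2, h3⟩
    refine ⟨h1, ?_, ?_⟩
    · rintro ⟨τ, -, hτ, rfl⟩
      apply h2
      refine ⟨τ, ?_, rfl⟩
      rw [mem_closedBall, dist_eq_norm, v0_sub_half]
      exact hτ
    · rintro ⟨t, ht, ht', rfl⟩
      exact h3 ⟨t, ⟨ht.le, ht'⟩, rfl⟩

theorem v0_isOpen (y : ℝ) : IsOpen (V y) := by
  rw [v0_V_eq]
  refine isOpen_ball.inter (IsClosed.isOpen_compl (self := ?_))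
  refine IsClosed.union ?_ ?_
  · exact ((isCompact_closedBall _ _).image v0_cont_nome).isClosed
  · refine (isCompact_Icc.image ?_).isClosed
    exact v0_cont_nome.comp (by fun_prop)

theorem V_isOpen {y : ℝ} (hy : 0 < y) : IsOpen (V y) := v0_isOpen y

theorem V_subset (y : ℝ) : V y ⊆ ball 0 1 := by
  intro q hq
  simpa using hq.1

theorem zero_mem_V (y : ℝ) : (0 : ℂ) ∈ V y := by
  refine ⟨by simp, ?_, ?_⟩
  · rintro ⟨τ, -, -, h⟩
    exact v0_nome_ne τ h
  · rintro ⟨t, -, -, h⟩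
    exact v0_nome_ne _ h

theorem V_anti {y y' : ℝ} (h : y ≤ y') : V y' ⊆ V y := by
  rintro q ⟨h1, h2, h3⟩
  refine ⟨h1, h2, ?_⟩
  rintro ⟨t, ht, ht', rfl⟩
  exact h3 ⟨t, ht, ht'.trans h, rfl⟩

theorem v0_div {s : ℝ} (hs : 0 < s) (τ q : ℂ) (h : nome τ = s * q) :
    nome (τ - ((-(Real.log s) / Real.pi : ℝ) : ℂ) * I) = q := by
  have hpi : (Real.pi : ℂ) ≠ 0 := by exact_mod_cast Real.pi_ne_zero
  have hs' : (s : ℂ) ≠ 0 := by exact_mod_cast hs.ne'
  have e1 : (Real.pi * I * (τ - ((-(Real.log s) / Real.pi : ℝ) : ℂ) * I) : ℂ) =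
      Real.pi * I * τ - ((Real.log s : ℝ) : ℂ) := by
    push_cast
    field_simp
    ring_nf
    rw [Complex.I_sq]
    ring
  unfold nome at h ⊢
  rw [e1, Complex.exp_sub, ← Complex.ofReal_exp, Real.exp_log hs, h]
  field_simp

theorem V_star {y : ℝ} : ∀ q ∈ V y, ∀ s : ℝ, 0 ≤ s → s ≤ 1 → (s : ℂ) * q ∈ V y := by
  rintro q ⟨h1, h2, h3⟩ s hs0 hs1
  rcases hs0.eq_or_lt with rfl | hs
  · simpa using zero_mem_V y
  have hlog : 0 ≤ -(Real.log s) / Real.pi := by
    have h5 := Real.log_nonpos hs0 hs1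
    exact div_nonneg (by linarith) Real.pi_pos.le
  refine ⟨?_, ?_, ?_⟩
  · rw [norm_mul, Complex.norm_real, Real.norm_of_nonneg hs0]
    have := norm_nonneg q
    nlinarith
  · rintro ⟨τ, hτ, hτ', h⟩
    have h4 := v0_div hs τ q h
    set t : ℝ := -(Real.log s) / Real.pi with ht
    have h5 : 0 < (τ - (t : ℂ) * I).im := v0_im_pos (by rw [h4]; exact h1)
    apply h2
    refine ⟨_, h5, ?_, h4⟩
    have h6 := v0_norm_half τ
    have h7 := v0_norm_half (τ - (t : ℂ) * I)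
    have h8 : (τ - (t : ℂ) * I).re = τ.re := by simp
    have h9 : (τ - (t : ℂ) * I).im = τ.im - t := by simp
    rw [h8, h9] at h7
    rw [h9] at h5
    have h10 : ‖τ - (t : ℂ) * I + 1 / 2‖ ^ 2 ≤ ‖τ + 1 / 2‖ ^ 2 := by
      rw [h6, h7]
      nlinarith
    exact (abs_le_of_sq_le_sq' h10 (norm_nonneg _)).2.trans hτ'
  · rintro ⟨t', ht0, ht1, h⟩
    have h4 := v0_div hs _ q h
    set t : ℝ := -(Real.log s) / Real.pi with ht
    have h5 : 0 < ((t' : ℂ) * I - (t : ℂ) * I).im := v0_im_pos (by rw [h4]; exact h1)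
    apply h3
    refine ⟨t' - t, by simpa using h5, by linarith, ?_⟩
    rw [← h4]
    congr 1
    push_cast
    ring

theorem v0_not_V {y : ℝ} {τ : ℂ} (h : ‖τ + 1 / 2‖ < 1 / 2) : nome τ ∉ closure (V y) := by
  intro hc
  have hU : IsOpen (nome '' ball (-1 / 2 : ℂ) (1 / 2)) := v0_open_nome _ isOpen_ball
  have hm : nome τ ∈ nome '' ball (-1 / 2 : ℂ) (1 / 2) := by
    refine ⟨τ, ?_, rfl⟩
    rw [mem_ball, dist_eq_norm, v0_sub_half]
    exact h
  obtain ⟨q, ⟨σ, hσ, rfl⟩, hq⟩ := mem_closure_iff.1 hc _ hU hm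
  apply hq.2.1
  refine v0_mem_B hq.1 ?_ rfl
  rw [mem_ball, dist_eq_norm, v0_sub_half] at hσ
  exact hσ.le

/-- `Bset` meets the closure of `V y` only in the geodesic. -/
theorem B_closure {y : ℝ} {q : ℂ} (h : q ∈ Bset) (h' : q ∈ closure (V y)) : q ∈ geo := by
  obtain ⟨τ, hτ, hτ', rfl⟩ := h
  rcases hτ'.eq_or_lt with h1 | h1
  · exact ⟨τ, hτ, h1, rfl⟩
  · exact absurd h' (v0_not_V h1)

theorem V_frontier {y : ℝ} (hy : 0 < y) :
    frontier (V y) ⊆ slit y ∪ geo ∪ upperArc ∪ {1, -1} := by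
  intro ζ hζ
  rw [(v0_isOpen y).frontier_eq] at hζ
  obtain ⟨hc, hn⟩ := hζ
  have hle : ‖ζ‖ ≤ 1 := by
    have h1 : closure (V y) ⊆ closedBall 0 1 :=
      closure_minimal ((V_subset y).trans ball_subset_closedBall) isClosed_closedBall
    simpa using h1 hc
  rcases hle.lt_or_eq with h1 | h1
  · left; left
    by_cases h2 : ζ ∈ Bset
    · right; exact B_closure h2 hc
    · left
      by_contra h3
      exact hn ⟨h1, h2, h3⟩
  · rcases lt_trichotomy ζ.im 0 with h2 | h2 | h2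
    · exfalso
      -- `ζ = nome x` with `x = arg ζ / π ∈ (-1, 0)`
      have ha : arg ζ < 0 := Complex.arg_neg_iff.2 h2
      have hb : -Real.pi < arg ζ := Complex.neg_pi_lt_arg ζ
      have hpi := Real.pi_pos
      have h3 : nome ((arg ζ / Real.pi : ℝ) : ℂ) = ζ := by
        unfold nome
        have e1 : (Real.pi * I * ((arg ζ / Real.pi : ℝ) : ℂ) : ℂ) = arg ζ * I := by
          have hpi' : (Real.pi : ℂ) ≠ 0 := by exact_mod_cast Real.pi_ne_zero
          push_cast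
          field_simp
        rw [e1]
        have := Complex.norm_mul_exp_arg_mul_I ζ
        rw [h1] at this
        simpa using this
      have h4 : ‖((arg ζ / Real.pi : ℝ) : ℂ) + 1 / 2‖ < 1 / 2 := by
        have e2 : ((arg ζ / Real.pi : ℝ) : ℂ) + 1 / 2 = ((arg ζ / Real.pi + 1 / 2 : ℝ) : ℂ) := by
          push_cast; ring
        rw [e2, Complex.norm_real, Real.norm_eq_abs, abs_lt]
        have h5 : arg ζ / Real.pi < 0 := div_neg_of_neg_of_pos ha hpi
        have h6 : -1 < arg ζ / Real.pi := by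
          rw [lt_div_iff₀ hpi]; linarith
        constructor <;> linarith
      have h5 := v0_not_V (y := y) h4
      rw [h3] at h5
      exact h5 hc
    · right
      have h3 : ζ = (ζ.re : ℂ) := by
        apply Complex.ext <;> simp [h2]
      have h4 : |ζ.re| = 1 := by
        rw [h3, Complex.norm_real, Real.norm_eq_abs] at h1
        exact h1
      rcases eq_or_eq_neg_of_abs_eq h4 with h5 | h5
      · left; rw [h3, h5]; simp
      · right; rw [h3, h5]; simp
    · left; right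
      exact ⟨h1, h2⟩

theorem ball_subset_V {y δ : ℝ} (h1 : δ ≤ Real.exp (-Real.pi / 2))
    (h2 : δ ≤ Real.exp (-Real.pi * y)) : ball 0 δ ⊆ V y := by
  intro q hq
  rw [mem_ball, dist_zero_right] at hq
  have hpi := Real.pi_pos
  refine ⟨?_, ?_, ?_⟩
  · have : Real.exp (-Real.pi / 2) < 1 := by
      rw [Real.exp_lt_one_iff]; linarith
    linarith
  · rintro ⟨τ, hτ, hτ', rfl⟩
    rw [v0_norm_nome] at hq
    have h3 := v0_norm_half τ
    have h4 : τ.im ≤ 1 / 2 := by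
      have h5 : ‖τ + 1 / 2‖ ^ 2 ≤ (1 / 2) ^ 2 := pow_le_pow_left₀ (norm_nonneg _) hτ' 2
      rw [h3] at h5
      nlinarith [sq_nonneg (τ.re + 1 / 2)]
    have h5 : Real.exp (-Real.pi / 2) ≤ Real.exp (-Real.pi * τ.im) := by
      apply Real.exp_le_exp.2
      nlinarith
    linarith
  · rintro ⟨t, ht, ht', rfl⟩
    rw [v0_norm_nome] at hq
    have h5 : Real.exp (-Real.pi * y) ≤ Real.exp (-Real.pi * ((t : ℂ) * I).im) := by
      apply Real.exp_le_exp.2
      simp
      nlinarith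
    linarith

end Pool.Agent.Choc
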