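import Pool.Agent.Lib.MP_2b3e36_an.Ex.E5
import Pool.Agent.Lib.MP_2b3e36_an.Ex.E4
import Pool.Agent.Lib.MP_2b3e36_an.Ex.A2

/-!
E6. Two facts on the boundary argument.

`not_flat_pi`: suppose `Θ = pi` on `[φ₁, φ₂]`, `φ₁ < φ₂` (monotone). By `esc_upper` `X → -1` at all points of
the open arc. In the chart `c w = exp (i (φ + w))`, `φ` in the interior, `w` in a small upper half disc
(`‖c w‖ = exp (- Im w) < 1`), `h = X ∘ c + 1` tends to `0` at the real points. `reflect` for `h` and for `i h`: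
the extension `H` of `h` is real on the reals, and `i H` too (identity theorem: the extension of `i h` is
`i H`), so `H = 0` on the reals, `H = 0`, `X = -1` on an open set: contradiction to injectivity.
`flat_zero`: the set `Z = {φ : Θ φ = 0}` is nonempty (continuity, `per`), a closed interval. Suppose it is
one point `φ₀`. Chart `c w = exp (i (φ₀ + w))`, `Z w = X (c w)`, on a small upper half disc `B`; there
`Z/‖Z‖` is close to `1`, so `Re Z > 0`; `τ = - i Log Z / pi`, `Re τ` small, `Im τ > 0`, and `Im τ ≤ y + 1` by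
`esc_slit` (shrinking `B`). `t = -1/τ - 1 = -(1+τ)/τ`, `|t| ≥ (1/2)/(y + 2)`; `h = 1/t^2` is bounded. At real
`u < 0`: `Θ (φ₀ + u) ∈ (-pi, 0)` (small), `Z → nome (geoPt _)` (`esc_geo`), `τ → geoPt`, a point `ς` of `Sig`:
`Re (-1/ς) = 1`, so `t →` purely imaginary `≠ 0`, `h →` real. At `u > 0`: `τ → Θ/pi > 0` real (`esc_upper`),
`t →` real `≠ 0`, `h →` real. `reflect_except`: `h` extends holomorphically to `0`; so `h` has a limit at `0` along
`UH`. But for `0 < T < y` take `q_n ∈ V y`, `q_n → nome (T i)` (points of the slit are in the closure of `V y`: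
`nome (T i + 1/n)`), `z_n = X⁻¹ q_n`; a subsequence converges to a point of the closed disc, not inside
(`X` would map it to the slit), so to `exp (i φ)` with `exp (i Θ φ) = lim q_n/‖q_n‖ = 1`, so
`Θ φ ∈ 2 pi ℤ`, `φ = φ₀` modulo `2 pi`; so `z_n → exp (i φ₀)`, `w_n → 0`, `τ → T i`,
`h → 1/(-1 + i/T)^2`. Different `T` give different limits. Contradiction.
-/

set_option autoImplicit false

open Complex Set Filter Topology Metric

namespace Pool.Agent.Choc

theorem e6_chart_norm (φ : ℝ) (w : ℂ) : ‖exp ((φ + w) * I)‖ = Real.exp (-w.im) := by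
  rw [Complex.norm_exp]
  congr 1
  simp

theorem e6_chart_mem (φ : ℝ) {w : ℂ} (hw : 0 < w.im) : exp ((φ + w) * I) ∈ ball (0 : ℂ) 1 := by
  rw [mem_ball_zero_iff, e6_chart_norm]
  exact Real.exp_lt_one_iff.2 (by linarith)

theorem e6_chart_tendsto (φ u : ℝ) : Tendsto (fun w : ℂ => exp ((φ + w) * I)) (𝓝[UH] (u : ℂ))
    (𝓝[ball (0 : ℂ) 1] (exp (((φ + u : ℝ) : ℂ) * I))) := by
  apply tendsto_nhdsWithin_of_tendsto_nhds_of_eventually_within
  · have hc : Continuous (fun w : ℂ => exp ((φ + w) * I)) := by fun_prop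
    have h := hc.tendsto (u : ℂ)
    push_cast
    exact h.mono_left nhdsWithin_le_nhds
  · filter_upwards [self_mem_nhdsWithin] with w hw using e6_chart_mem φ hw

theorem e6_UH_neBot (u : ℝ) : (𝓝[UH] (u : ℂ)).NeBot := by
  rw [← mem_closure_iff_nhdsWithin_neBot, Metric.mem_closure_iff]
  intro ε hε
  refine ⟨u + (ε / 2 : ℝ) * I, ?_, ?_⟩
  · show 0 < (u + (ε / 2 : ℝ) * I : ℂ).im
    simp [hε]
  · rw [dist_eq_norm]
    have : (u : ℂ) - (u + (ε / 2 : ℝ) * I) = -((ε / 2 : ℝ) * I) := by ring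
    rw [this, norm_neg, norm_mul, Complex.norm_real, Complex.norm_I, mul_one, Real.norm_eq_abs,
      abs_of_pos (by positivity)]
    linarith

theorem e6_freq_real {x : ℝ} {P : ℂ → Prop} (h : ∀ᶠ u : ℝ in 𝓝[≠] x, P u) :
    ∃ᶠ z in 𝓝[≠] (x : ℂ), P z := by
  have ht : Tendsto (fun u : ℝ => (u : ℂ)) (𝓝[≠] x) (𝓝[≠] (x : ℂ)) := by
    apply tendsto_nhdsWithin_of_tendsto_nhds_of_eventually_within
    · exact (continuous_ofReal.tendsto x).mono_left nhdsWithin_le_nhds
    · filter_upwards [self_mem_nhdsWithin] with u hu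
      simpa using hu
  exact ht.frequently h.frequently

/-- The hypotheses of the escape lemmas along the chart. -/
theorem e6_hyps {y : ℝ} {X : ℂ → ℂ} {Θ : ℝ → ℝ} (h : DiscMap y X Θ) (φ u : ℝ) :
    (∀ᶠ w in 𝓝[UH] (u : ℂ), X (exp ((φ + w) * I)) ∈ V y) ∧
    (∀ K : Set ℂ, IsCompact K → K ⊆ V y → ∀ᶠ w in 𝓝[UH] (u : ℂ), X (exp ((φ + w) * I)) ∉ K) ∧
    Tendsto (fun w => X (exp ((φ + w) * I)) / (‖X (exp ((φ + w) * I))‖ : ℂ)) (𝓝[UH] (u : ℂ))
      (𝓝 (exp (Θ (φ + u) * I))) := by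
  have ht := e6_chart_tendsto φ u
  refine ⟨?_, fun K hK hKV => ht.eventually (h.esc K hK hKV (φ + u)), ?_⟩
  · filter_upwards [self_mem_nhdsWithin] with w hw
    rw [← h.img]
    exact mem_image_of_mem _ (e6_chart_mem φ hw)
  · exact (h.lim (φ + u)).comp ht

theorem e6_diff {y : ℝ} {X : ℂ → ℂ} {Θ : ℝ → ℝ} (h : DiscMap y X Θ) (φ : ℝ) :
    DifferentiableOn ℂ (fun w => X (exp ((φ + w) * I))) UH := by
  have hc : Differentiable ℂ (fun w : ℂ => exp ((φ + w) * I)) := by fun_prop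
  exact h.diff.comp hc.differentiableOn (fun w hw => e6_chart_mem φ hw)

theorem not_flat_pi {y : ℝ} {X : ℂ → ℂ} {Θ : ℝ → ℝ} (h : DiscMap y X Θ) {φ₁ φ₂ : ℝ}
    (h1 : φ₁ < φ₂) (h2 : Θ φ₁ = Real.pi) : Θ φ₂ ≠ Real.pi := by
  intro h3
  obtain ⟨φ₀, hφ₀⟩ : ∃ φ₀ : ℝ, φ₀ = (φ₁ + φ₂) / 2 := ⟨_, rfl⟩
  obtain ⟨δ, hδd⟩ : ∃ δ : ℝ, δ = (φ₂ - φ₁) / 2 := ⟨_, rfl⟩
  have hδ : 0 < δ := by rw [hδd]; linarith
  have hflat : ∀ u : ℝ, |u - 0| < δ → Θ (φ₀ + u) = Real.pi := by
    intro u hu
    rw [sub_zero, abs_lt] at hu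
    apply le_antisymm
    · rw [← h3]; exact h.mono (by rw [hφ₀]; linarith [hu.2])
    · rw [← h2]; exact h.mono (by rw [hφ₀]; linarith [hu.1])
  have hlim : ∀ u : ℝ, |u - 0| < δ →
      Tendsto (fun w => X (exp ((φ₀ + w) * I)) + 1) (𝓝[UH] (u : ℂ)) (𝓝 0) := by
    intro u hu
    obtain ⟨ha, hb, hc⟩ := e6_hyps h φ₀ u
    have := esc_upper h.y_pos ha hb hc (by rw [hflat u hu]; exact Real.pi_pos)
      (by rw [hflat u hu])
    rw [hflat u hu, Complex.exp_pi_mul_I] at this
    simpa using this.add_const 1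
  obtain ⟨H, hH, hHe, -⟩ := reflect (x := 0) (r := δ) hδ
    (h := fun w => X (exp ((φ₀ + w) * I)) + 1)
    (((e6_diff h φ₀).mono inter_subset_right).add_const 1)
    (fun u hu => by
      have := (Complex.continuous_im.tendsto _).comp (hlim u hu)
      rw [Complex.zero_im] at this
      exact this)
  have hzero : ∀ u : ℝ, |u - 0| < δ → H u = 0 := by
    intro u hu
    have hmem : (u : ℂ) ∈ ball ((0 : ℝ) : ℂ) δ := by
      rw [mem_ball, dist_eq_norm, ← Complex.ofReal_sub, Complex.norm_real]; exact hu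
    have hcont : Tendsto H (𝓝[UH] (u : ℂ)) (𝓝 (H u)) :=
      ((hH.differentiableAt (isOpen_ball.mem_nhds hmem)).continuousAt.tendsto).mono_left
        nhdsWithin_le_nhds
    have hcong : (fun w => X (exp ((φ₀ + w) * I)) + 1) =ᶠ[𝓝[UH] (u : ℂ)] H := by
      filter_upwards [self_mem_nhdsWithin,
        mem_nhdsWithin_of_mem_nhds (isOpen_ball.mem_nhds hmem)] with w hw hwb
      exact (hHe w hwb hw).symm
    have := e6_UH_neBot u
    exact tendsto_nhds_unique hcont ((hlim u hu).congr' hcong)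
  have hEq : EqOn H 0 (ball ((0 : ℝ) : ℂ) δ) := by
    refine (hH.analyticOnNhd isOpen_ball).eqOn_zero_of_preconnected_of_frequently_eq_zero
      (convex_ball _ _).isPreconnected (z₀ := ((0 : ℝ) : ℂ)) (mem_ball_self hδ) ?_
    apply e6_freq_real
    have : ∀ᶠ u : ℝ in 𝓝 0, |u - 0| < δ := by
      filter_upwards [ball_mem_nhds (0 : ℝ) hδ] with u hu
      rwa [mem_ball, Real.dist_eq] at hu
    filter_upwards [mem_nhdsWithin_of_mem_nhds this] with u hu using hzero u hu
  have hval : ∀ s : ℝ, 0 < s → s < δ → X (exp ((φ₀ + (s : ℂ) * I) * I)) = -1 := by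
    intro s hs hs'
    have hmem : (s : ℂ) * I ∈ ball ((0 : ℝ) : ℂ) δ := by
      rw [Complex.ofReal_zero, mem_ball_zero_iff, norm_mul, Complex.norm_I, mul_one,
        Complex.norm_real, Real.norm_eq_abs, abs_of_pos hs]
      exact hs'
    have him : 0 < ((s : ℂ) * I).im := by simpa using hs
    have h5 := hHe _ hmem him
    have h6 : H ((s : ℂ) * I) = 0 := hEq hmem
    rw [h6] at h5
    exact eq_neg_of_add_eq_zero_left h5.symm
  have e1 := hval (δ / 2) (by positivity) (by linarith)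
  have e2 := hval (δ / 3) (by positivity) (by linarith)
  have m1 : exp ((φ₀ + ((δ / 2 : ℝ) : ℂ) * I) * I) ∈ ball (0 : ℂ) 1 :=
    e6_chart_mem φ₀ (by simp [hδ])
  have m2 : exp ((φ₀ + ((δ / 3 : ℝ) : ℂ) * I) * I) ∈ ball (0 : ℂ) 1 :=
    e6_chart_mem φ₀ (by simp [hδ])
  have e3 := h.inj m1 m2 (e1.trans e2.symm)
  have e4 := congrArg norm e3
  rw [e6_chart_norm, e6_chart_norm] at e4
  have e5 := Real.exp_injective e4
  simp at e5
  linarith

theorem e6_upper_mem {y : ℝ} {q : ℂ} (h1 : ‖q‖ < 1) (h2 : 0 < q.im) : q ∈ V y := by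
  refine ⟨h1, ?_, ?_⟩
  · rintro ⟨τ, ht, hd, rfl⟩
    have hre := (Complex.abs_re_le_norm (τ + 1 / 2)).trans hd
    simp only [Complex.add_re, Complex.div_ofNat_re, Complex.one_re] at hre
    rw [abs_le] at hre
    have e : (nome τ).im = Real.exp (-(Real.pi * τ.im)) * Real.sin (Real.pi * τ.re) := by
      rw [nome, Complex.exp_im]
      simp
    rw [e] at h2
    have : Real.sin (Real.pi * τ.re) ≤ 0 := by
      apply Real.sin_nonpos_of_nonpos_of_neg_pi_le
      · nlinarith [Real.pi_pos]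
      · nlinarith [Real.pi_pos]
    nlinarith [Real.exp_pos (-(Real.pi * τ.im))]
  · rintro ⟨t, ht, hty, rfl⟩
    have e : (nome (t * I)).im = 0 := by
      rw [nome, Complex.exp_im]
      simp
    rw [e] at h2
    exact lt_irrefl _ h2

theorem e6_nome_real (T : ℝ) : nome (T * I) = (Real.exp (-(Real.pi * T)) : ℝ) := by
  rw [nome, Complex.ofReal_exp]
  congr 1
  push_cast
  linear_combination (Real.pi * T : ℂ) * Complex.I_mul_I

theorem e6_slit_closure {y T : ℝ} (hT : 0 < T) : nome (T * I) ∈ closure (V y) := by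
  rw [Metric.mem_closure_iff]
  intro ε hε
  have hlt : Real.exp (-(Real.pi * T)) < 1 := Real.exp_lt_one_iff.2 (by
    have := mul_pos Real.pi_pos hT
    linarith)
  obtain ⟨s, hs, hs1, hs2⟩ : ∃ s : ℝ, 0 < s ∧ s < ε ∧ s < 1 - Real.exp (-(Real.pi * T)) := by
    refine ⟨min ε (1 - Real.exp (-(Real.pi * T))) / 2, ?_, ?_, ?_⟩
    · have : 0 < min ε (1 - Real.exp (-(Real.pi * T))) := lt_min hε (by linarith)
      linarith
    · have : 0 < min ε (1 - Real.exp (-(Real.pi * T))) := lt_min hε (by linarith)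
      have := min_le_left ε (1 - Real.exp (-(Real.pi * T)))
      linarith
    · have : 0 < min ε (1 - Real.exp (-(Real.pi * T))) := lt_min hε (by linarith)
      have := min_le_right ε (1 - Real.exp (-(Real.pi * T)))
      linarith
  refine ⟨(Real.exp (-(Real.pi * T)) : ℝ) + s * I, e6_upper_mem ?_ (by
    rw [Complex.add_im, Complex.ofReal_im]; simpa using hs), ?_⟩
  · calc ‖((Real.exp (-(Real.pi * T)) : ℝ) : ℂ) + s * I‖ ≤
        ‖((Real.exp (-(Real.pi * T)) : ℝ) : ℂ)‖ + ‖(s : ℂ) * I‖ := norm_add_le _ _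
      _ = Real.exp (-(Real.pi * T)) + s := by
          rw [Complex.norm_real, norm_mul, Complex.norm_I, mul_one, Complex.norm_real,
            Real.norm_eq_abs, Real.norm_eq_abs, abs_of_pos hs, abs_of_pos (Real.exp_pos _)]
      _ < 1 := by linarith
  · rw [e6_nome_real, dist_eq_norm]
    have : ((Real.exp (-(Real.pi * T)) : ℝ) : ℂ) -
        (((Real.exp (-(Real.pi * T)) : ℝ) : ℂ) + s * I) = -(s * I) := by ring
    rw [this, norm_neg, norm_mul, Complex.norm_I, mul_one, Complex.norm_real, Real.norm_eq_abs,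
      abs_of_pos hs]
    exact hs1

theorem e6_per {y : ℝ} {X : ℂ → ℂ} {Θ : ℝ → ℝ} (h : DiscMap y X Θ) (k : ℤ) (φ : ℝ) :
    Θ (φ + k * (2 * Real.pi)) = Θ φ + k * (2 * Real.pi) := by
  induction k using Int.induction_on with
  | zero => simp
  | succ n ih =>
    have := h.per (φ + (n : ℤ) * (2 * Real.pi))
    push_cast at this ih ⊢
    have e : φ + ((n : ℝ) + 1) * (2 * Real.pi) = φ + n * (2 * Real.pi) + 2 * Real.pi := by ring
    rw [e, this, ih]
    ring
  | pred n ih =>
    have := h.per (φ + (-(n : ℤ) - 1 : ℤ) * (2 * Real.pi))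
    push_cast at this ih ⊢
    have e : φ + (-(n : ℝ) - 1) * (2 * Real.pi) + 2 * Real.pi = φ + -n * (2 * Real.pi) := by ring
    rw [e, ih] at this
    linarith

theorem e6_exists_zero {y : ℝ} {X : ℂ → ℂ} {Θ : ℝ → ℝ} (h : DiscMap y X Θ) : ∃ φ, Θ φ = 0 := by
  have key : (0 : ℝ) ∈ range Θ := by
    obtain ⟨n, hn⟩ := exists_nat_ge |Θ 0|
    have hpi := Real.pi_gt_three
    have hn' := abs_le.1 hn
    apply mem_range_of_exists_le_of_exists_ge h.cont
    · refine ⟨0 + ((-(n : ℤ) : ℤ) : ℝ) * (2 * Real.pi), ?_⟩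
      rw [e6_per h]
      push_cast
      nlinarith [hn'.2, (Nat.cast_nonneg n : (0 : ℝ) ≤ n)]
    · refine ⟨0 + (((n : ℤ) : ℤ) : ℝ) * (2 * Real.pi), ?_⟩
      rw [e6_per h]
      push_cast
      nlinarith [hn'.1, (Nat.cast_nonneg n : (0 : ℝ) ≤ n)]
  exact key

theorem e6_seq {y : ℝ} {X : ℂ → ℂ} {Θ : ℝ → ℝ} (h : DiscMap y X Θ) {φ₀ : ℝ}
    (huniq : ∀ φ, Θ φ = 0 → φ = φ₀) {T : ℝ} (h0 : 0 < T) (h1 : T < y) :
    ∃ w : ℕ → ℂ, (∀ᶠ n in atTop, 0 < (w n).im) ∧ Tendsto w atTop (𝓝 0) ∧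
      Tendsto (fun n => X (exp ((φ₀ + w n) * I))) atTop (𝓝 (nome (T * I))) := by
  obtain ⟨q, hq, hqlim⟩ := mem_closure_iff_seq_limit.1 (e6_slit_closure (y := y) h0)
  have hz : ∀ n, ∃ z ∈ ball (0 : ℂ) 1, X z = q n := by
    intro n
    have := hq n
    rw [← h.img] at this
    exact this
  choose z hzb hzq using hz
  obtain ⟨zs, hzs, ψ, hψ, hlim⟩ := (isCompact_closedBall (0 : ℂ) 1).tendsto_subseq
    (fun n => ball_subset_closedBall (hzb n))
  have hXlim : Tendsto (fun n => X (z (ψ n))) atTop (𝓝 (nome (T * I))) := by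
    simp only [hzq]
    exact hqlim.comp hψ.tendsto_atTop
  have hpslit : nome (T * I) ∈ slit y := ⟨T, h0, h1.le, rfl⟩
  have hnorm1 : ‖zs‖ = 1 := by
    rw [mem_closedBall_zero_iff] at hzs
    rcases hzs.lt_or_eq with hlt | heq
    · exfalso
      have hmem : zs ∈ ball (0 : ℂ) 1 := by rwa [mem_ball_zero_iff]
      have hc := (h.diff.differentiableAt (isOpen_ball.mem_nhds hmem)).continuousAt.tendsto
      have e := tendsto_nhds_unique (hc.comp hlim) hXlim
      have hV : X zs ∈ V y := by rw [← h.img]; exact mem_image_of_mem _ hmem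
      rw [e] at hV
      exact hV.2.2 hpslit
    · exact heq
  have hzsexp : exp ((arg zs : ℂ) * I) = zs := by
    have := Complex.norm_mul_exp_arg_mul_I zs
    rwa [hnorm1, Complex.ofReal_one, one_mul] at this
  have hin : Tendsto (fun n => z (ψ n)) atTop (𝓝[ball (0 : ℂ) 1] (exp ((arg zs : ℂ) * I))) := by
    rw [hzsexp]
    exact tendsto_nhdsWithin_of_tendsto_nhds_of_eventually_within _ hlim
      (Eventually.of_forall fun n => hzb _)
  have hp0 : nome (T * I) ≠ 0 := exp_ne_zero _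
  have hA := (h.lim (arg zs)).comp hin
  have hB : Tendsto (fun n => X (z (ψ n)) / (‖X (z (ψ n))‖ : ℂ)) atTop
      (𝓝 (nome (T * I) / (‖nome (T * I)‖ : ℂ))) := by
    refine hXlim.div ?_ ?_
    · exact ((Complex.continuous_ofReal.comp continuous_norm).tendsto _).comp hXlim
    · rw [Ne, Complex.ofReal_eq_zero, norm_eq_zero]; exact hp0
  have hone : nome (T * I) / (‖nome (T * I)‖ : ℂ) = 1 := by
    rw [e6_nome_real, Complex.norm_real, Real.norm_eq_abs, abs_of_pos (Real.exp_pos _)]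
    exact div_self (by exact_mod_cast (Real.exp_pos _).ne')
  rw [hone] at hB
  have hexp : exp ((Θ (arg zs) : ℂ) * I) = 1 := tendsto_nhds_unique hA hB
  rw [Complex.exp_eq_one_iff] at hexp
  obtain ⟨k, hk⟩ := hexp
  have hk' : Θ (arg zs) = k * (2 * Real.pi) := by
    have e : ((Θ (arg zs) : ℂ) - k * (2 * Real.pi)) * I = 0 := by
      linear_combination hk
    rcases mul_eq_zero.1 e with e | e
    · have e' : (Θ (arg zs) : ℂ) = ((k * (2 * Real.pi) : ℝ) : ℂ) := by
        push_cast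
        linear_combination e
      exact_mod_cast e'
    · exact absurd e Complex.I_ne_zero
  have hφ : arg zs + ((-k : ℤ) : ℝ) * (2 * Real.pi) = φ₀ := by
    apply huniq
    rw [e6_per h, hk']
    push_cast
    ring
  have hzs0 : zs = exp (φ₀ * I) := by
    rw [← hφ, ← hzsexp]
    rw [hzsexp]
    nth_rewrite 1 [← hzsexp]
    rw [Complex.exp_eq_exp_iff_exists_int]
    refine ⟨k, ?_⟩
    push_cast
    ring
  -- the points in the chart
  have hzlim1 : Tendsto (fun n => z (ψ n) * exp (-(φ₀ * I))) atTop (𝓝 1) := by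
    have := hlim.mul_const (exp (-(φ₀ * I)))
    rw [hzs0, ← Complex.exp_add] at this
    simpa using this
  have hne : ∀ᶠ n in atTop, z (ψ n) ≠ 0 := by
    have : ∀ᶠ w in 𝓝 zs, w ≠ 0 := by
      apply isOpen_ne.mem_nhds
      intro h0
      rw [h0, norm_zero] at hnorm1
      exact zero_ne_one hnorm1
    exact hlim.eventually this
  refine ⟨fun n => -I * log (z (ψ n) * exp (-(φ₀ * I))), ?_, ?_, ?_⟩
  · filter_upwards [hne] with n hn
    have e : (-I * log (z (ψ n) * exp (-(φ₀ * I)))).im =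
        -Real.log ‖z (ψ n) * exp (-(φ₀ * I))‖ := by
      simp [Complex.log_re]
    rw [e, norm_mul]
    have e2 : ‖exp (-(φ₀ * I))‖ = 1 := by
      rw [Complex.norm_exp]; simp
    rw [e2, mul_one]
    have hb := hzb (ψ n)
    rw [mem_ball_zero_iff] at hb
    have := Real.log_neg (norm_pos_iff.2 hn) hb
    linarith
  · have hc : ContinuousAt log (1 : ℂ) := continuousAt_clog (by simp)
    have := (hc.tendsto.comp hzlim1).const_mul (-I)
    simpa using this
  · refine hXlim.congr' ?_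
    filter_upwards [hne] with n hn
    congr 1
    have e : ((φ₀ : ℂ) + -I * log (z (ψ n) * exp (-(φ₀ * I)))) * I =
        φ₀ * I + log (z (ψ n) * exp (-(φ₀ * I))) := by
      linear_combination -(log (z (ψ n) * exp (-(φ₀ * I)))) * Complex.I_mul_I
    rw [e, Complex.exp_add, Complex.exp_log (mul_ne_zero hn (exp_ne_zero _)), Complex.exp_neg]
    field_simp

/-- The logarithm in the coordinate of the half plane. -/
noncomputable def e6_L (q : ℂ) : ℂ := -I * log q / Real.pi

theorem e6_L_re (q : ℂ) : (e6_L q).re = arg q / Real.pi := by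
  rw [e6_L]
  have : -I * log q / (Real.pi : ℂ) = ((arg q / Real.pi : ℝ) : ℂ) +
      ((-(Real.log ‖q‖ / Real.pi) : ℝ) : ℂ) * I := by
    rw [Complex.log]
    have hpi : (Real.pi : ℂ) ≠ 0 := by exact_mod_cast Real.pi_ne_zero
    push_cast
    field_simp
    linear_combination -(arg q : ℂ) * Complex.I_mul_I
  rw [this]
  simp

theorem e6_L_im (q : ℂ) : (e6_L q).im = -(Real.log ‖q‖ / Real.pi) := by
  rw [e6_L]
  have : -I * log q / (Real.pi : ℂ) = ((arg q / Real.pi : ℝ) : ℂ) +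
      ((-(Real.log ‖q‖ / Real.pi) : ℝ) : ℂ) * I := by
    rw [Complex.log]
    have hpi : (Real.pi : ℂ) ≠ 0 := by exact_mod_cast Real.pi_ne_zero
    push_cast
    field_simp
    linear_combination -(arg q : ℂ) * Complex.I_mul_I
  rw [this]
  simp

theorem e6_L_nome {τ : ℂ} (h1 : -1 < τ.re) (h2 : τ.re ≤ 1) : e6_L (nome τ) = τ := by
  rw [e6_L, nome, Complex.log_exp]
  · have hpi : (Real.pi : ℂ) ≠ 0 := by exact_mod_cast Real.pi_ne_zero
    field_simp
    linear_combination -τ * Complex.I_mul_I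
  · simp
    nlinarith [Real.pi_pos]
  · simp
    nlinarith [Real.pi_pos]

theorem e6_L_exp {θ : ℝ} (h1 : -Real.pi < θ) (h2 : θ ≤ Real.pi) :
    e6_L (exp (θ * I)) = (θ / Real.pi : ℝ) := by
  rw [e6_L, Complex.log_exp]
  · have hpi : (Real.pi : ℂ) ≠ 0 := by exact_mod_cast Real.pi_ne_zero
    push_cast
    field_simp
    linear_combination -(θ : ℂ) * Complex.I_mul_I
  · simpa using h1
  · simpa using h2

theorem e6_L_cont {q : ℂ} (h : q ∈ slitPlane) : ContinuousAt e6_L q := by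
  unfold e6_L
  exact ((continuousAt_clog h).const_mul _).div_const _

theorem e6_h_cont {τ : ℂ} (h : 1 + τ ≠ 0) : ContinuousAt (fun t : ℂ => (t / (1 + t)) ^ 2) τ := by
  apply ContinuousAt.pow
  exact continuousAt_id.div (continuousAt_const.add continuousAt_id) h

theorem e6_sig {ς : ℂ} (h : ς ∈ Sig) : ((ς / (1 + ς)) ^ 2).im = 0 := by
  obtain ⟨h1, h2⟩ := h
  have hne : (1 : ℂ) + ς ≠ 0 := by
    intro h0
    have := congrArg Complex.im h0
    simp at this
    linarith
  have e : (ς.re + 1 / 2) ^ 2 + ς.im ^ 2 = 1 / 4 := by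
    have := Complex.sq_norm (ς + 1 / 2)
    rw [h2, Complex.normSq_apply] at this
    simp at this
    nlinarith
  have hre : (ς / (1 + ς)).re = 0 := by
    rw [Complex.div_re]
    simp only [Complex.add_re, Complex.add_im, Complex.one_re, Complex.one_im, zero_add]
    rw [← add_div, div_eq_zero_iff]
    left
    nlinarith
  have : (ς / (1 + ς)) ^ 2 = (((-((ς / (1 + ς)).im) ^ 2 : ℝ)) : ℂ) := by
    have e2 : ς / (1 + ς) = ((ς / (1 + ς)).im : ℂ) * I := by
      apply Complex.ext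
      · simp [hre]
      · simp
    rw [e2, mul_pow, Complex.I_sq]
    push_cast
    simp
  rw [this, Complex.ofReal_im]

theorem flat_zero {y : ℝ} {X : ℂ → ℂ} {Θ : ℝ → ℝ} (h : DiscMap y X Θ) :
    ∃ φ₁ φ₂ : ℝ, φ₁ < φ₂ ∧ Θ φ₁ = 0 ∧ Θ φ₂ = 0 := by
  by_contra hcon
  push Not at hcon
  obtain ⟨φ₀, hφ₀⟩ := e6_exists_zero h
  have huniq : ∀ φ, Θ φ = 0 → φ = φ₀ := by
    intro φ hφ
    rcases lt_trichotomy φ φ₀ with hlt | heq | hgt
    · exact absurd hφ₀ (hcon φ φ₀ hlt hφ)
    · exact heq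
    · exact absurd hφ (hcon φ₀ φ hgt hφ₀)
  have hy := h.y_pos
  have hpi := Real.pi_pos
  -- the good ball
  obtain ⟨ha, hb, hc⟩ := e6_hyps h φ₀ 0
  rw [add_zero, hφ₀] at hc
  simp only [Complex.ofReal_zero, zero_mul, Complex.exp_zero] at ha hb hc
  have hη : 0 < Real.exp (-Real.pi * y) - Real.exp (-(Real.pi * (y + 1))) := by
    rw [sub_pos]
    apply Real.exp_lt_exp.2
    nlinarith
  have hev1 := esc_slit hy ha hb hc _ hη
  have hev2 : ∀ᶠ w in 𝓝[UH] (0 : ℂ), 0 < (X (exp ((φ₀ + w) * I)) /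
      (‖X (exp ((φ₀ + w) * I))‖ : ℂ)).re := by
    have := (Complex.continuous_re.tendsto _).comp hc
    exact this.eventually (lt_mem_nhds (by simp))
  obtain ⟨r₁, hr₁, hball⟩ := Metric.mem_nhdsWithin_iff.1 (hev1.and hev2)
  obtain ⟨r₂, hr₂, hΘ⟩ : ∃ r₂ > 0, ∀ u : ℝ, |u| < r₂ → |Θ (φ₀ + u)| < Real.pi := by
    have hcont : ContinuousAt (fun u : ℝ => |Θ (φ₀ + u)|) 0 := by
      have : Continuous (fun u : ℝ => |Θ (φ₀ + u)|) :=
        (h.cont.comp (continuous_const.add continuous_id)).abs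
      exact this.continuousAt
    have hev : ∀ᶠ u : ℝ in 𝓝 0, |Θ (φ₀ + u)| < Real.pi := by
      refine hcont.tendsto.eventually (p := fun v => v < Real.pi) ?_
      rw [add_zero, hφ₀, abs_zero]
      exact gt_mem_nhds hpi
    obtain ⟨r₂, hr₂, hr⟩ := Metric.eventually_nhds_iff.1 hev
    exact ⟨r₂, hr₂, fun u hu => hr (by rwa [Real.dist_eq, sub_zero])⟩
  obtain ⟨r, hrd⟩ : ∃ r : ℝ, r = min r₁ r₂ := ⟨_, rfl⟩
  have hr : 0 < r := by rw [hrd]; exact lt_min hr₁ hr₂
  have hgood : ∀ w ∈ ball (0 : ℂ) r, 0 < w.im →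
      Real.exp (-(Real.pi * (y + 1))) ≤ ‖X (exp ((φ₀ + w) * I))‖ ∧
      0 < (X (exp ((φ₀ + w) * I))).re ∧ ‖X (exp ((φ₀ + w) * I))‖ < 1 := by
    intro w hw him
    have hm : w ∈ ball (0 : ℂ) r₁ ∩ UH := ⟨ball_subset_ball (hrd ▸ min_le_left _ _) hw, him⟩
    obtain ⟨g1, g2⟩ := hball hm
    refine ⟨by linarith, ?_, ?_⟩
    · have g3 : (X (exp ((φ₀ + w) * I)) / (‖X (exp ((φ₀ + w) * I))‖ : ℂ)).re =
          (X (exp ((φ₀ + w) * I))).re / ‖X (exp ((φ₀ + w) * I))‖ := by
        rw [Complex.div_ofReal_re]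
      rw [g3] at g2
      by_contra hneg
      exact absurd g2 (not_lt.2 (div_nonpos_of_nonpos_of_nonneg (not_lt.1 hneg) (norm_nonneg _)))
    · have : X (exp ((φ₀ + w) * I)) ∈ V y := by
        rw [← h.img]; exact mem_image_of_mem _ (e6_chart_mem φ₀ him)
      exact this.1
  -- the bounded function
  have hτre : ∀ q : ℂ, 0 < q.re → |(e6_L q).re| < 1 / 2 := by
    intro q hq
    rw [e6_L_re, abs_div, abs_of_pos hpi, div_lt_iff₀ hpi]
    have := Complex.abs_arg_lt_pi_div_two_iff.2 (Or.inl hq)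
    linarith
  have hbound : ∀ w ∈ ball ((0 : ℝ) : ℂ) r, 0 < w.im →
      |((e6_L (X (exp ((φ₀ + w) * I))) / (1 + e6_L (X (exp ((φ₀ + w) * I))))) ^ 2).im| ≤
        (2 * y + 3) ^ 2 := by
    intro w hw him
    rw [Complex.ofReal_zero] at hw
    obtain ⟨g1, g2, g3⟩ := hgood w hw him
    set q := X (exp ((φ₀ + w) * I)) with hq
    refine (Complex.abs_im_le_norm _).trans ?_
    rw [norm_pow, norm_div]
    have hq0 : 0 < ‖q‖ := lt_of_lt_of_le (Real.exp_pos _) g1
    have b1 := abs_lt.1 (hτre q g2)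
    have b2 : 1 / 2 ≤ ‖1 + e6_L q‖ := by
      have := Complex.re_le_norm (1 + e6_L q)
      simp only [Complex.add_re, Complex.one_re] at this
      linarith
    have b3 : ‖e6_L q‖ ≤ y + 3 / 2 := by
      have := Complex.norm_le_abs_re_add_abs_im (e6_L q)
      have b4 : |(e6_L q).im| ≤ y + 1 := by
        rw [e6_L_im]
        have l1 : -(Real.pi * (y + 1)) ≤ Real.log ‖q‖ := by
          rw [Real.le_log_iff_exp_le hq0]; exact g1
        have l2 : Real.log ‖q‖ < 0 := Real.log_neg hq0 g3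
        rw [abs_neg, abs_div, abs_of_neg l2, abs_of_pos hpi, div_le_iff₀ hpi]
        nlinarith
      have b5 := hτre q g2
      linarith
    have b6 : ‖e6_L q‖ / ‖1 + e6_L q‖ ≤ 2 * y + 3 := by
      rw [div_le_iff₀ (by linarith)]
      nlinarith [norm_nonneg (e6_L q)]
    exact pow_le_pow_left₀ (by positivity) b6 2
  have hdiff : DifferentiableOn ℂ (fun w => (e6_L (X (exp ((φ₀ + w) * I))) /
      (1 + e6_L (X (exp ((φ₀ + w) * I))))) ^ 2) (ball ((0 : ℝ) : ℂ) r ∩ UH) := by
    have d1 : DifferentiableOn ℂ (fun w => e6_L (X (exp ((φ₀ + w) * I))))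
        (ball ((0 : ℝ) : ℂ) r ∩ UH) := by
      unfold e6_L
      apply DifferentiableOn.div_const
      apply DifferentiableOn.const_mul
      apply DifferentiableOn.clog ((e6_diff h φ₀).mono inter_subset_right)
      intro w hw
      rw [Complex.ofReal_zero] at hw
      exact Or.inl (hgood w hw.1 hw.2).2.1
    apply DifferentiableOn.pow
    refine d1.div (d1.const_add 1) ?_
    intro w hw h0
    rw [Complex.ofReal_zero] at hw
    have b1 := abs_lt.1 (hτre _ (hgood w hw.1 hw.2).2.1)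
    have := congrArg Complex.re h0
    simp only [Complex.add_re, Complex.one_re, Complex.zero_re] at this
    linarith
  -- boundary values
  have hbd : ∀ u : ℝ, |u - 0| < r → u ≠ 0 → Tendsto (fun w => ((e6_L (X (exp ((φ₀ + w) * I))) /
      (1 + e6_L (X (exp ((φ₀ + w) * I))))) ^ 2).im) (𝓝[UH] (u : ℂ)) (𝓝 0) := by
    intro u hu hu0
    rw [sub_zero] at hu
    have hΘu := abs_lt.1 (hΘ u (lt_of_lt_of_le hu (hrd ▸ min_le_right _ _)))
    obtain ⟨ha', hb', hc'⟩ := e6_hyps h φ₀ u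
    rcases lt_or_gt_of_ne hu0 with hneg | hpos
    · have hlt : Θ (φ₀ + u) < 0 := by
        have h1 : Θ (φ₀ + u) ≤ 0 := by rw [← hφ₀]; exact h.mono (by linarith)
        refine lt_of_le_of_ne h1 fun h2 => ?_
        have := huniq _ h2
        linarith
      have hX := esc_geo hy ha' hb' hc' hΘu.1 hlt
      have hg := geoPt_mem hΘu.1 hlt
      have hgre : (geoPt (Θ (φ₀ + u))).re = Θ (φ₀ + u) / Real.pi := by
        simp [geoPt]
      have hslit : nome (geoPt (Θ (φ₀ + u))) ∈ slitPlane := by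
        right
        rw [nome, Complex.exp_im]
        have e : (Real.pi * I * geoPt (Θ (φ₀ + u))).im = Θ (φ₀ + u) := by
          simp only [Complex.mul_im, Complex.mul_re, Complex.ofReal_re, Complex.ofReal_im,
            Complex.I_re, Complex.I_im, mul_zero, mul_one, sub_zero, zero_mul, add_zero, zero_add,
            zero_add]
          rw [hgre]
          field_simp
        rw [e]
        exact mul_ne_zero (Real.exp_pos _).ne' (Real.sin_neg_of_neg_of_neg_pi_lt hlt hΘu.1).ne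
      have hL : e6_L (nome (geoPt (Θ (φ₀ + u)))) = geoPt (Θ (φ₀ + u)) := by
        apply e6_L_nome
        · rw [hgre, lt_div_iff₀ hpi]; linarith [hΘu.1]
        · rw [hgre, div_le_iff₀ hpi]; linarith [hΘu.2]
      have t1 := (e6_L_cont hslit).tendsto.comp hX
      rw [hL] at t1
      have hne : (1 : ℂ) + geoPt (Θ (φ₀ + u)) ≠ 0 := by
        intro h0
        have := congrArg Complex.im h0
        simp only [Complex.add_im, Complex.one_im, Complex.zero_im, zero_add] at this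
        exact absurd this hg.1.ne'
      have t2 := (Complex.continuous_im.tendsto _).comp ((e6_h_cont hne).tendsto.comp t1)
      have e0 : ((geoPt (Θ (φ₀ + u)) / (1 + geoPt (Θ (φ₀ + u)))) ^ 2).im = 0 := e6_sig hg
      simp only [e0] at t2
      exact t2
    · have hgt : 0 < Θ (φ₀ + u) := by
        have h1 : 0 ≤ Θ (φ₀ + u) := by rw [← hφ₀]; exact h.mono (by linarith)
        refine lt_of_le_of_ne h1 fun h2 => ?_
        have := huniq _ h2.symm
        linarith
      have hX := esc_upper hy ha' hb' hc' hgt hΘu.2.le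
      have hslit : exp ((Θ (φ₀ + u) : ℂ) * I) ∈ slitPlane := by
        right
        rw [Complex.exp_ofReal_mul_I_im]
        exact (Real.sin_pos_of_pos_of_lt_pi hgt hΘu.2).ne'
      have hL := e6_L_exp hΘu.1 hΘu.2.le
      have t1 := (e6_L_cont hslit).tendsto.comp hX
      rw [hL] at t1
      have hne : (1 : ℂ) + ((Θ (φ₀ + u) / Real.pi : ℝ) : ℂ) ≠ 0 := by
        intro h0
        have := congrArg Complex.re h0
        simp only [Complex.add_re, Complex.one_re, Complex.ofReal_re, Complex.zero_re] at this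
        have : 0 < Θ (φ₀ + u) / Real.pi := div_pos hgt hpi
        linarith
      have t2 := (Complex.continuous_im.tendsto _).comp ((e6_h_cont hne).tendsto.comp t1)
      have e0 : ((((Θ (φ₀ + u) / Real.pi : ℝ) : ℂ) /
          (1 + ((Θ (φ₀ + u) / Real.pi : ℝ) : ℂ))) ^ 2).im = 0 := by
        rw [← Complex.ofReal_one, ← Complex.ofReal_add, ← Complex.ofReal_div,
          ← Complex.ofReal_pow, Complex.ofReal_im]
      simp only [e0] at t2
      exact t2
  obtain ⟨H, hH, hHe, -⟩ := reflect_except (x := 0) (r := r) (M := (2 * y + 3) ^ 2) hr hdiff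
    hbound hbd
  rw [Complex.ofReal_zero] at hH hHe
  have hHc : Tendsto H (𝓝 0) (𝓝 (H 0)) :=
    (hH.differentiableAt (isOpen_ball.mem_nhds (mem_ball_self hr))).continuousAt.tendsto
  have hval : ∀ T : ℝ, 0 < T → T < y → H 0 = (((T : ℂ) * I) / (1 + (T : ℂ) * I)) ^ 2 := by
    intro T hT hTy
    obtain ⟨w, hw1, hw2, hw3⟩ := e6_seq h huniq hT hTy
    have t1 := hHc.comp hw2
    have hslit : nome (T * I) ∈ slitPlane := by
      left
      rw [e6_nome_real, Complex.ofReal_re]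
      exact Real.exp_pos _
    have hL : e6_L (nome (T * I)) = T * I := by
      apply e6_L_nome <;> simp
    have t2 := (e6_L_cont hslit).tendsto.comp hw3
    rw [hL] at t2
    have hne : (1 : ℂ) + (T : ℂ) * I ≠ 0 := by
      intro h0
      have := congrArg Complex.re h0
      simp at this
    have t3 := (e6_h_cont hne).tendsto.comp t2
    refine tendsto_nhds_unique t1 (t3.congr' ?_)
    filter_upwards [hw1, hw2.eventually (ball_mem_nhds (0 : ℂ) hr)] with n hn1 hn2
    exact (hHe _ hn2 hn1).symm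
  have hnv : ∀ T : ℝ, 0 < T → ‖(((T : ℂ) * I) / (1 + (T : ℂ) * I)) ^ 2‖ = T ^ 2 / (1 + T ^ 2) := by
    intro T hT
    have e1 : ‖(T : ℂ) * I‖ = T := by
      rw [norm_mul, Complex.norm_I, mul_one, Complex.norm_real, Real.norm_eq_abs, abs_of_pos hT]
    have e2 : ‖(1 : ℂ) + (T : ℂ) * I‖ ^ 2 = 1 + T ^ 2 := by
      rw [Complex.sq_norm, Complex.normSq_apply]
      simp
      ring
    rw [norm_pow, norm_div, div_pow, e1, e2]
  have v1 := hval (y / 2) (by positivity) (by linarith)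
  have v2 := hval (y / 3) (by positivity) (by linarith)
  have v3 := congrArg norm (v1.symm.trans v2)
  rw [hnv _ (by positivity), hnv _ (by positivity)] at v3
  rw [div_eq_div_iff (by positivity) (by positivity)] at v3
  have : 0 < y ^ 2 := by positivity
  nlinarith

end Pool.Agent.Choc
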