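import Pool.Agent.Lib.MP_2b3e36_an.Ex.E6

/-!
E7. Normalisation: the map from the upper half plane.

Let `φB = min {Θ = 0}`, `φA = max {Θ = 0}` (compact: `Θ` is continuous, monotone, unbounded both ways),
`φB < φA` by `flat_zero`; `φC` the unique point with `Θ = pi` (`not_flat_pi`), `φA < φC < φB + 2 pi`
(`Θ (φB + 2pi) = 2 pi`). Put `α = (φA - φB)/2`, `γ = (φC - φB)/2`, `0 < α < γ < pi`, and
`v₀ = -1 + 2 sin γ / sin (γ - α) * exp (i α)`: then `Im v₀ > 0`, `arg (v₀ + 1) = α`, `arg (v₀ - 1) = γ`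
(`v₀ - 1 = (2 sin α/ sin (γ-α)) exp (i γ)`: indeed `sin γ e^{iα} - sin α e^{iγ} = sin (γ - α)`).
`C v = exp (i φB) (v - v₀)/(v - conj v₀)` maps `UH` onto the open disc, `v₀` to `0`; for real `x`
`C x = exp (i φ x)`, `φ x = φB + 2 arg (v₀ - x)`, continuous, increasing from `φB` to `φB + 2 pi`,
`φ (-1) = φA`, `φ 1 = φC`. (`(x - v₀)/(x - conj v₀) = exp (2 i arg (v₀ - x))`.)
`X^ = X ∘ C`, `Θ^ x = Θ (φ x)`. All fields of `Pre` follow: `𝓝[UH] x` is mapped into
`𝓝[ball 0 1] (C x)`; in the chart `v = -1/u`, `C (-1/u) = exp (i φB) (1 + u v₀)/(1 + u conj v₀) → exp (i φB)`.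
-/

set_option autoImplicit false

open Complex Set Filter Topology Metric

namespace Pool.Agent.Choc

theorem e7_arg_lt {z : ℂ} (hz : 0 < z.im) {x x' : ℝ} (h : x < x') :
    arg (z - x) < arg (z - x') := by
  have hi : ∀ t : ℝ, 0 < (z - t).im := fun t => by simpa using hz
  have hne : ∀ t : ℝ, z - t ≠ 0 := fun t h0 => by
    have := hi t
    rw [h0] at this
    exact lt_irrefl _ this
  have ha := Complex.arg_lt_pi_iff.2 (Or.inr (hi x).ne')
  have ha0 := Complex.arg_nonneg_iff.2 (hi x).le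
  have hb := Complex.arg_lt_pi_iff.2 (Or.inr (hi x').ne')
  have hb0 := Complex.arg_nonneg_iff.2 (hi x').le
  have hs : 0 < Real.sin (arg (z - x') - arg (z - x)) := by
    rw [Real.sin_sub, Complex.sin_arg, Complex.sin_arg, Complex.cos_arg (hne x),
      Complex.cos_arg (hne x')]
    have n1 : 0 < ‖z - x‖ := norm_pos_iff.2 (hne x)
    have n2 : 0 < ‖z - x'‖ := norm_pos_iff.2 (hne x')
    have e : (z - x').im / ‖z - x'‖ * ((z - x).re / ‖z - x‖) -
        (z - x').re / ‖z - x'‖ * ((z - x).im / ‖z - x‖) =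
        z.im * (x' - x) / (‖z - x'‖ * ‖z - x‖) := by
      simp only [Complex.sub_im, Complex.sub_re, Complex.ofReal_im, Complex.ofReal_re, sub_zero]
      field_simp
      ring
    rw [e]
    have : 0 < x' - x := sub_pos.2 h
    positivity
  by_contra hcon
  push Not at hcon
  have : Real.sin (arg (z - x') - arg (z - x)) ≤ 0 :=
    Real.sin_nonpos_of_nonpos_of_neg_pi_le (by linarith) (by linarith)
  linarith

theorem e7_angles {y : ℝ} {X : ℂ → ℂ} {Θ : ℝ → ℝ} (h : DiscMap y X Θ) :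
    ∃ φB φA φC : ℝ, φB < φA ∧ φA < φC ∧ φC < φB + 2 * Real.pi ∧ Θ φB = 0 ∧ Θ φA = 0 ∧
      Θ φC = Real.pi ∧ (∀ φ, Θ φ = 0 → φB ≤ φ ∧ φ ≤ φA) := by
  have hpi := Real.pi_pos
  have hcl : IsClosed {φ | Θ φ = 0} := isClosed_eq h.cont continuous_const
  have hbd : ∃ M : ℝ, {φ | Θ φ = 0} ⊆ Icc (-M) M := by
    obtain ⟨n, hn⟩ := exists_nat_gt |Θ 0|
    have hpi3 := Real.pi_gt_three
    have hn' := abs_lt.1 hn
    refine ⟨n * (2 * Real.pi), fun φ (hφ : Θ φ = 0) => ⟨?_, ?_⟩⟩
    · by_contra hcon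
      push Not at hcon
      have h1 := h.mono hcon.le
      have h2 := e6_per h (-(n : ℤ)) 0
      push_cast at h2
      rw [zero_add] at h2
      have e : -((n : ℝ) * (2 * Real.pi)) = -n * (2 * Real.pi) := by ring
      rw [hφ, e, h2] at h1
      nlinarith [hn'.2, (Nat.cast_nonneg n : (0 : ℝ) ≤ n)]
    · by_contra hcon
      push Not at hcon
      have h1 := h.mono hcon.le
      have h2 := e6_per h (n : ℤ) 0
      push_cast at h2
      rw [zero_add] at h2
      rw [hφ, h2] at h1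
      nlinarith [hn'.1, (Nat.cast_nonneg n : (0 : ℝ) ≤ n)]
  obtain ⟨M, hM⟩ := hbd
  have hcomp : IsCompact {φ | Θ φ = 0} := isCompact_Icc.of_isClosed_subset hcl hM
  obtain ⟨φ₁, φ₂, hlt, h1, h2⟩ := flat_zero h
  have hnon : {φ | Θ φ = 0}.Nonempty := ⟨φ₁, h1⟩
  have hB := hcomp.sInf_mem hnon
  have hA := hcomp.sSup_mem hnon
  have hmem : ∀ φ, Θ φ = 0 → sInf {φ | Θ φ = 0} ≤ φ ∧ φ ≤ sSup {φ | Θ φ = 0} := fun φ hφ =>
    ⟨csInf_le hcomp.bddBelow hφ, le_csSup hcomp.bddAbove hφ⟩
  obtain ⟨φB, hφB⟩ : ∃ φB, φB = sInf {φ | Θ φ = 0} := ⟨_, rfl⟩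
  obtain ⟨φA, hφA⟩ : ∃ φA, φA = sSup {φ | Θ φ = 0} := ⟨_, rfl⟩
  rw [← hφB] at hB hmem
  rw [← hφA] at hA hmem
  have hB0 : Θ φB = 0 := hB
  have hA0 : Θ φA = 0 := hA
  have hper : Θ (φB + 2 * Real.pi) = 2 * Real.pi := by rw [h.per, hB0, zero_add]
  have hle : φA ≤ φB + 2 * Real.pi := by
    by_contra hcon
    push Not at hcon
    have := h.mono hcon.le
    rw [hper, hA0] at this
    linarith
  obtain ⟨φC, hC, hCpi⟩ : Real.pi ∈ Θ '' Icc φA (φB + 2 * Real.pi) := by
    apply intermediate_value_Icc hle h.cont.continuousOn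
    rw [hA0, hper]
    exact ⟨hpi.le, by linarith⟩
  refine ⟨φB, φA, φC, ?_, ?_, ?_, hB0, hA0, hCpi, hmem⟩
  · exact lt_of_le_of_lt (hmem φ₁ h1).1 (lt_of_lt_of_le hlt (hmem φ₂ h2).2)
  · refine lt_of_le_of_ne hC.1 fun he => ?_
    rw [← he, hA0] at hCpi
    linarith
  · refine lt_of_le_of_ne hC.2 fun he => ?_
    rw [he, hper] at hCpi
    linarith

/-- The Cayley map. -/
noncomputable def e7_C (φB : ℝ) (v₀ v : ℂ) : ℂ :=
  exp (φB * I) * ((v - v₀) / (v - starRingEnd ℂ v₀))

theorem e7_den {v₀ v : ℂ} (h0 : 0 < v₀.im) (hv : 0 ≤ v.im) : v - starRingEnd ℂ v₀ ≠ 0 := by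
  intro h
  have := congrArg Complex.im h
  simp at this
  linarith

theorem e7_C_mem {φB : ℝ} {v₀ v : ℂ} (h0 : 0 < v₀.im) (hv : 0 < v.im) :
    e7_C φB v₀ v ∈ ball (0 : ℂ) 1 := by
  rw [mem_ball_zero_iff, e7_C, norm_mul, Complex.norm_exp_ofReal_mul_I, one_mul, norm_div,
    div_lt_one (norm_pos_iff.2 (e7_den h0 hv.le))]
  rw [← sq_lt_sq₀ (norm_nonneg _) (norm_nonneg _), Complex.sq_norm, Complex.sq_norm,
    Complex.normSq_apply, Complex.normSq_apply]
  simp only [Complex.sub_re, Complex.sub_im, Complex.conj_re, Complex.conj_im]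
  nlinarith [mul_pos h0 hv]

theorem e7_C_inj {φB : ℝ} {v₀ : ℂ} (h0 : 0 < v₀.im) : InjOn (e7_C φB v₀) UH := by
  intro v hv w hw h
  have h1 := e7_den h0 (le_of_lt hv)
  have h2 := e7_den h0 (le_of_lt hw)
  rw [e7_C, e7_C] at h
  have h3 := mul_left_cancel₀ (exp_ne_zero _) h
  rw [div_eq_div_iff h1 h2] at h3
  have h4 : (v - w) * (v₀ - starRingEnd ℂ v₀) = 0 := by linear_combination h3
  rcases mul_eq_zero.1 h4 with h5 | h5
  · exact sub_eq_zero.1 h5
  · exfalso
    have := congrArg Complex.im h5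
    simp at this
    linarith

theorem e7_C_image {φB : ℝ} {v₀ : ℂ} (h0 : 0 < v₀.im) : e7_C φB v₀ '' UH = ball (0 : ℂ) 1 := by
  apply Subset.antisymm
  · rintro _ ⟨v, hv, rfl⟩
    exact e7_C_mem h0 hv
  · intro z hz
    obtain ⟨p, hp⟩ : ∃ p : ℂ, p = z * exp (-(φB * I)) := ⟨_, rfl⟩
    have hpn : ‖p‖ < 1 := by
      rw [mem_ball_zero_iff] at hz
      rw [hp, norm_mul]
      have : ‖exp (-(φB * I))‖ = 1 := by rw [Complex.norm_exp]; simp
      rw [this, mul_one]
      exact hz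
    have hp1 : (1 : ℂ) - p ≠ 0 := by
      intro h
      have : p = 1 := (sub_eq_zero.1 h).symm
      rw [this, norm_one] at hpn
      exact lt_irrefl _ hpn
    have hzp : exp (φB * I) * p = z := by
      rw [hp, Complex.exp_neg]
      field_simp
    have hsq : p.re ^ 2 + p.im ^ 2 < 1 := by
      have := Complex.sq_norm p
      rw [Complex.normSq_apply] at this
      nlinarith [norm_nonneg p]
    have hnsq : 0 < (1 - p.re) ^ 2 + p.im ^ 2 := by
      have := Complex.normSq_pos.2 hp1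
      rw [Complex.normSq_apply] at this
      simp at this
      nlinarith
    refine ⟨(v₀ - p * starRingEnd ℂ v₀) / (1 - p), ?_, ?_⟩
    · show 0 < ((v₀ - p * starRingEnd ℂ v₀) / (1 - p)).im
      have e : ((v₀ - p * starRingEnd ℂ v₀) / (1 - p)).im =
          v₀.im * (1 - (p.re ^ 2 + p.im ^ 2)) / ((1 - p.re) ^ 2 + p.im ^ 2) := by
        rw [Complex.div_im, Complex.normSq_apply]
        simp only [Complex.sub_re, Complex.sub_im, Complex.mul_re, Complex.mul_im,
          Complex.conj_re, Complex.conj_im, Complex.one_re, Complex.one_im]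
        have hq : (1 - p.re) * (1 - p.re) + (0 - p.im) * (0 - p.im) ≠ 0 := by
          nlinarith
        rw [← sub_div, div_eq_div_iff hq hnsq.ne']
        ring
      rw [e]
      have : 0 < 1 - (p.re ^ 2 + p.im ^ 2) := by linarith
      positivity
    · rw [e7_C, ← hzp]
      congr 1
      have hd : v₀ - starRingEnd ℂ v₀ ≠ 0 := by
        intro h
        have := congrArg Complex.im h
        simp at this
        linarith
      have e1 : (v₀ - p * starRingEnd ℂ v₀) / (1 - p) - v₀ =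
          p * (v₀ - starRingEnd ℂ v₀) / (1 - p) := by
        field_simp
        ring
      have e2 : (v₀ - p * starRingEnd ℂ v₀) / (1 - p) - starRingEnd ℂ v₀ =
          (v₀ - starRingEnd ℂ v₀) / (1 - p) := by
        field_simp
        ring
      rw [e1, e2]
      field_simp

theorem e7_C_real {φB : ℝ} {v₀ : ℂ} (h0 : 0 < v₀.im) (x : ℝ) :
    e7_C φB v₀ x = exp (((φB + 2 * arg (v₀ - x) : ℝ) : ℂ) * I) := by
  have hi : 0 < (v₀ - x).im := by simpa using h0
  have hne : v₀ - x ≠ 0 := by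
    intro h
    rw [h] at hi
    exact lt_irrefl _ hi
  have hn : (‖v₀ - x‖ : ℂ) ≠ 0 := by
    rw [Ne, Complex.ofReal_eq_zero, norm_eq_zero]; exact hne
  have e1 := Complex.norm_mul_exp_arg_mul_I (v₀ - x)
  have e2 : (starRingEnd ℂ) (v₀ - x) = ‖v₀ - x‖ * exp (-(arg (v₀ - x) * I)) := by
    nth_rewrite 1 [← e1]
    rw [map_mul, Complex.conj_ofReal, ← Complex.exp_conj, map_mul, Complex.conj_ofReal,
      Complex.conj_I, mul_neg]
  have e3 : (x : ℂ) - v₀ = -(‖v₀ - x‖ * exp (arg (v₀ - x) * I)) := by rw [e1]; ring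
  have e4 : (x : ℂ) - starRingEnd ℂ v₀ = -(‖v₀ - x‖ * exp (-(arg (v₀ - x) * I))) := by
    rw [← e2, map_sub, Complex.conj_ofReal]; ring
  rw [e7_C, e3, e4, neg_div_neg_eq, mul_div_mul_left _ _ hn, ← Complex.exp_sub, ← Complex.exp_add]
  congr 1
  push_cast
  ring

theorem e7_C_diff {φB : ℝ} {v₀ : ℂ} (h0 : 0 < v₀.im) {v : ℂ} (hv : 0 ≤ v.im) :
    DifferentiableAt ℂ (e7_C φB v₀) v := by
  unfold e7_C
  apply DifferentiableAt.const_mul
  exact (differentiableAt_id.sub_const v₀).div (differentiableAt_id.sub_const _) (e7_den h0 hv)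

theorem e7_C_tendsto {φB : ℝ} {v₀ : ℂ} (h0 : 0 < v₀.im) (x : ℝ) :
    Tendsto (e7_C φB v₀) (𝓝[UH] (x : ℂ))
      (𝓝[ball (0 : ℂ) 1] (exp (((φB + 2 * arg (v₀ - x) : ℝ) : ℂ) * I))) := by
  apply tendsto_nhdsWithin_of_tendsto_nhds_of_eventually_within
  · rw [← e7_C_real h0]
    exact (e7_C_diff h0 (by simp)).continuousAt.tendsto.mono_left nhdsWithin_le_nhds
  · filter_upwards [self_mem_nhdsWithin] with w hw using e7_C_mem h0 hw

theorem e7_C_tendsto_inf {φB : ℝ} {v₀ : ℂ} (h0 : 0 < v₀.im) :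
    Tendsto (fun u => e7_C φB v₀ (-1 / u)) (𝓝[UH] (0 : ℂ))
      (𝓝[ball (0 : ℂ) 1] (exp ((φB : ℂ) * I))) := by
  apply tendsto_nhdsWithin_of_tendsto_nhds_of_eventually_within
  · have hc : ContinuousAt (fun u : ℂ => exp ((φB : ℂ) * I) *
        ((1 + u * v₀) / (1 + u * starRingEnd ℂ v₀))) 0 := by
      apply ContinuousAt.mul continuousAt_const
      refine ContinuousAt.div (by fun_prop) (by fun_prop) (by simp)
    have h1 := hc.tendsto
    simp only [zero_mul, add_zero, div_one, mul_one] at h1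
    refine (h1.mono_left nhdsWithin_le_nhds).congr' ?_
    filter_upwards [self_mem_nhdsWithin] with u hu
    have hu0 : u ≠ 0 := by
      intro h
      have hu' : 0 < u.im := hu
      rw [h, Complex.zero_im] at hu'
      exact lt_irrefl _ hu'
    rw [e7_C]
    congr 1
    have e1 : (1 + u * v₀) = -u * (-1 / u - v₀) := by field_simp; ring
    have e2 : (1 + u * starRingEnd ℂ v₀) = -u * (-1 / u - starRingEnd ℂ v₀) := by
      field_simp; ring
    rw [e1, e2, mul_div_mul_left _ _ (neg_ne_zero.2 hu0)]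
  · filter_upwards [self_mem_nhdsWithin] with u hu
    apply e7_C_mem h0
    have hu0 : u ≠ 0 := by
      intro h
      have hu' : 0 < u.im := hu
      rw [h, Complex.zero_im] at hu'
      exact lt_irrefl _ hu'
    have hn : 0 < normSq u := Complex.normSq_pos.2 hu0
    have e : (-1 / u).im = u.im / normSq u := by
      rw [Complex.div_im]
      simp
      ring
    rw [e]
    exact div_pos hu hn

theorem pre_exists {y : ℝ} (hy : 0 < y) :
    ∃ (X : ℂ → ℂ) (v₀ : ℂ) (Θ : ℝ → ℝ), Pre y X v₀ Θ := by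
  obtain ⟨X, Θ, h⟩ := discMap_exists hy
  obtain ⟨φB, φA, φC, hBA, hAC, hCB, hB0, hA0, hCpi, hmem⟩ := e7_angles h
  have hpi := Real.pi_pos
  obtain ⟨α, hα⟩ : ∃ α : ℝ, α = (φA - φB) / 2 := ⟨_, rfl⟩
  obtain ⟨γ, hγ⟩ : ∃ γ : ℝ, γ = (φC - φB) / 2 := ⟨_, rfl⟩
  have h0α : 0 < α := by rw [hα]; linarith
  have hαγ : α < γ := by rw [hα, hγ]; linarith
  have hγπ : γ < Real.pi := by rw [hγ]; linarith
  have s1 : 0 < Real.sin γ := Real.sin_pos_of_pos_of_lt_pi (by linarith) hγπ
  have s2 : 0 < Real.sin α := Real.sin_pos_of_pos_of_lt_pi h0α (by linarith)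
  have s3 : 0 < Real.sin (γ - α) := Real.sin_pos_of_pos_of_lt_pi (by linarith) (by linarith)
  obtain ⟨v₀, hv₀⟩ : ∃ v₀ : ℂ, v₀ = -1 + ((2 * Real.sin γ / Real.sin (γ - α) : ℝ) : ℂ) *
      ((Real.cos α : ℝ) + (Real.sin α : ℝ) * I) := ⟨_, rfl⟩
  have r1 : 0 < 2 * Real.sin γ / Real.sin (γ - α) := by positivity
  have r2 : 0 < 2 * Real.sin α / Real.sin (γ - α) := by positivity
  have him : v₀.im = 2 * Real.sin γ / Real.sin (γ - α) * Real.sin α := by
    rw [hv₀]
    simp only [Complex.add_im, Complex.neg_im, Complex.one_im, Complex.mul_im, Complex.ofReal_re,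
      Complex.ofReal_im, Complex.add_re, Complex.mul_re, Complex.I_re, Complex.I_im]
    ring
  have hre : v₀.re = -1 + 2 * Real.sin γ / Real.sin (γ - α) * Real.cos α := by
    rw [hv₀]
    simp only [Complex.add_im, Complex.neg_re, Complex.one_re, Complex.mul_im, Complex.ofReal_re,
      Complex.ofReal_im, Complex.add_re, Complex.mul_re, Complex.I_re, Complex.I_im]
    ring
  have h0 : 0 < v₀.im := by rw [him]; positivity
  have a1 : arg (v₀ - ((-1 : ℝ) : ℂ)) = α := by
    have e : v₀ - ((-1 : ℝ) : ℂ) = ((2 * Real.sin γ / Real.sin (γ - α) : ℝ) : ℂ) *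
        (Complex.cos (α : ℂ) + Complex.sin (α : ℂ) * I) := by
      rw [hv₀, ← Complex.ofReal_cos, ← Complex.ofReal_sin]
      push_cast
      ring
    rw [e, Complex.arg_mul_cos_add_sin_mul_I r1 ⟨by linarith, by linarith⟩]
  have a2 : arg (v₀ - ((1 : ℝ) : ℂ)) = γ := by
    have e : v₀ - ((1 : ℝ) : ℂ) = ((2 * Real.sin α / Real.sin (γ - α) : ℝ) : ℂ) *
        (Complex.cos (γ : ℂ) + Complex.sin (γ : ℂ) * I) := by
      rw [← Complex.ofReal_cos, ← Complex.ofReal_sin]
      apply Complex.ext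
      · simp only [Complex.sub_re, hre, Complex.ofReal_re, Complex.mul_re, Complex.add_re,
          Complex.ofReal_im, Complex.I_re, Complex.I_im, Complex.add_im, Complex.mul_im]
        field_simp
        rw [Real.sin_sub]
        ring
      · simp only [Complex.sub_im, him, Complex.ofReal_re, Complex.mul_re, Complex.add_re,
          Complex.ofReal_im, Complex.I_re, Complex.I_im, Complex.add_im, Complex.mul_im]
        ring
    rw [e, Complex.arg_mul_cos_add_sin_mul_I r2 ⟨by linarith, by linarith⟩]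
  have hpos : ∀ x : ℝ, 0 < arg (v₀ - x) := by
    intro x
    have h1 := e7_arg_lt h0 (show x - 1 < x by linarith)
    have h2 : 0 ≤ arg (v₀ - ((x - 1 : ℝ) : ℂ)) := by
      apply Complex.arg_nonneg_iff.2
      simpa using h0.le
    linarith
  have hltpi : ∀ x : ℝ, arg (v₀ - x) < Real.pi := by
    intro x
    apply Complex.arg_lt_pi_iff.2
    right
    simpa using h0.ne'
  have hmono := h.mono
  refine ⟨fun v => X (e7_C φB v₀ v), v₀, fun x => Θ (φB + 2 * arg (v₀ - x)), ?_⟩
  refine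
    { y_pos := hy
      v0_im := h0
      diff := ?_
      inj := ?_
      img := ?_
      zero := ?_
      cont := ?_
      left := ?_
      mid := ?_
      one := ?_
      right := ?_
      lim := ?_
      lim_infty := ?_
      esc := ?_
      esc_infty := ?_ }
  · intro v hv
    have hd := (h.diff.differentiableAt (isOpen_ball.mem_nhds (e7_C_mem (φB := φB) h0 hv)))
    exact (hd.comp v (e7_C_diff h0 (le_of_lt hv))).differentiableWithinAt
  · intro v hv w hw he
    exact e7_C_inj h0 hv hw (h.inj (e7_C_mem h0 hv) (e7_C_mem h0 hw) he)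
  · rw [← h.img, ← e7_C_image (φB := φB) h0, image_image]
  · have : e7_C φB v₀ v₀ = 0 := by simp [e7_C]
    simp only [this, h.zero]
  · apply h.cont.comp
    have : Continuous (fun x : ℝ => arg (v₀ - x)) := by
      rw [continuous_iff_continuousAt]
      intro x
      have hs : v₀ - x ∈ slitPlane := Or.inr (by simpa using h0.ne')
      have hc : ContinuousAt (fun x : ℝ => v₀ - (x : ℂ)) x := by fun_prop
      exact ContinuousAt.comp (f := fun x : ℝ => v₀ - (x : ℂ)) (Complex.continuousAt_arg hs) hc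
    exact continuous_const.add (continuous_const.mul this)
  · intro x hx
    apply le_antisymm
    · rw [← hA0]
      apply hmono
      have : arg (v₀ - x) ≤ α := by
        rcases hx.lt_or_eq with hlt | heq
        · rw [← a1]; exact (e7_arg_lt h0 hlt).le
        · rw [← a1, heq]
      rw [hα] at this
      linarith
    · rw [← hB0]
      apply hmono
      linarith [hpos x]
  · intro x hx1 hx2
    have b1 : α < arg (v₀ - x) := by rw [← a1]; exact e7_arg_lt h0 hx1
    have b2 : arg (v₀ - x) < γ := by rw [← a2]; exact e7_arg_lt h0 hx2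
    have b3 : φA < φB + 2 * arg (v₀ - x) := by rw [hα] at b1; linarith
    have b4 : φB + 2 * arg (v₀ - x) < φC := by rw [hγ] at b2; linarith
    constructor
    · have : 0 ≤ Θ (φB + 2 * arg (v₀ - x)) := by rw [← hA0]; exact hmono b3.le
      refine lt_of_le_of_ne this fun he => ?_
      have := (hmem _ he.symm).2
      linarith
    · have : Θ (φB + 2 * arg (v₀ - x)) ≤ Real.pi := by rw [← hCpi]; exact hmono b4.le
      refine lt_of_le_of_ne this fun he => ?_
      exact not_flat_pi h b4 he hCpi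
  · show Θ (φB + 2 * arg (v₀ - ((1 : ℝ) : ℂ))) = Real.pi
    rw [a2, hγ, ← hCpi]
    congr 1
    ring
  · intro x hx
    have b1 : γ < arg (v₀ - x) := by rw [← a2]; exact e7_arg_lt h0 hx
    have b2 := hltpi x
    have b3 : φC < φB + 2 * arg (v₀ - x) := by rw [hγ] at b1; linarith
    have b4 : φB + 2 * arg (v₀ - x) < φB + 2 * Real.pi := by linarith
    constructor
    · have : Real.pi ≤ Θ (φB + 2 * arg (v₀ - x)) := by rw [← hCpi]; exact hmono b3.le
      refine lt_of_le_of_ne this fun he => ?_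
      exact not_flat_pi h b3 hCpi he.symm
    · have hper : Θ (φB + 2 * Real.pi) = 2 * Real.pi := by rw [h.per, hB0, zero_add]
      have : Θ (φB + 2 * arg (v₀ - x)) ≤ 2 * Real.pi := by rw [← hper]; exact hmono b4.le
      refine lt_of_le_of_ne this fun he => ?_
      have h5 := h.per (φB + 2 * arg (v₀ - x) - 2 * Real.pi)
      rw [sub_add_cancel, he] at h5
      have h6 : Θ (φB + 2 * arg (v₀ - x) - 2 * Real.pi) = 0 := by linarith
      have := (hmem _ h6).1
      linarith
  · intro x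
    exact (h.lim _).comp (e7_C_tendsto h0 x)
  · have := (h.lim φB).comp (e7_C_tendsto_inf h0)
    rw [hB0, Complex.ofReal_zero, zero_mul, Complex.exp_zero] at this
    exact this
  · intro K hK hKV x
    exact (e7_C_tendsto h0 x).eventually (h.esc K hK hKV _)
  · intro K hK hKV
    exact (e7_C_tendsto_inf h0).eventually (h.esc K hK hKV φB)

end Pool.Agent.Choc
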