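import Pool.Agent.Lib.MP_2b3e36_an.Ex.E4
import Pool.Agent.Lib.MP_2b3e36_an.Ex.A2

/-!
E8. Local analysis on the free arc and on the geodesic.

`pre_free`: `-1 < x < 1`, `θ = Θ x ∈ (0, pi)`. On a small upper half ball `X/‖X‖` is near `e^{iθ}`; let
`τ = - i Log X/pi` (principal), `Re τ = arg X/pi` near `θ/pi`, `Im τ > 0`. By `esc_upper` (filters `𝓝[UH] u`,
`u` real near `x`) `X → e^{iΘ u}`, so `Im τ → 0`: `reflect` gives the extension, real on the reals,
`τ u = Θ u/pi`. `nome (τ x) = e^{iθ}` has positive imaginary part. Derivative: `Im τ > 0` on the upper half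
ball and `τ` real on the reals: write `τ v - τ x = a (v - x)^k + ...`, `a ≠ 0` real (`τ` not constant); the
positivity of `Im` on the upper half ball forces `k = 1` and `a > 0`.
`pre_arc`: `x > 1`: `θ = Θ x - 2 pi ∈ (-pi, 0)`, `τ = - i Log X/pi`, `Re τ ∈ (-1,0)`, `τ → geoPt (Θ u - 2 pi)` at
real `u` near `x` (`esc_geo`). `s = -1/τ`; since `X v ∉ Bset`, `‖τ + 1/2‖ > 1/2`, i.e. `Re s < 1`
(`‖τ + 1/2‖ = ‖s - 2‖/(2‖s‖)`). `h = i (1 - s)`: `Im h = 1 - Re s > 0`, `→ 0` at the reals. `reflect`: `h`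
extends, real on the reals, and as before `h' x > 0` real. `s = 1 + i h`, `τ = -1/s` is the extension of `τ`,
`τ u ∈ Sig` (`Re s = 1`, and `τ u = geoPt _`), `τ' = s'/s^2 = i h'/s^2`. At `x`: `s = -1/τ`,
`τ' = i h' τ^2`. With `c = τ + 1/2`, `|c| = 1/2`: `τ^2 = ?`: `τ = c - 1/2`, `conj c = 1/(4c)`,
`τ^2 = (c - 1/2)^2 = c (c - 1 + 1/(4c)) = c (c + conj c - 1) = - c (1 - 2 Re c)`, so
`τ' = - i h' (1 - 2 Re c) c`, `κ = h' (1 - 2 Re c) > 0` (`Re c < 1/2`).
-/

set_option autoImplicit false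

open Complex Set Filter Topology Metric

namespace Pool.Agent.Choc

lemma e8_im_sign {x : ℝ} {ζ : ℂ → ℂ} (ha : AnalyticAt ℂ ζ x)
    (hreal : ∀ᶠ u : ℝ in 𝓝 x, (ζ u).im = 0) {κ : ℝ} (hκ : 0 < κ) (hd : deriv ζ x = κ) :
    ∀ᶠ v in 𝓝 (x : ℂ), (0 < v.im → 0 < (ζ v).im) ∧ (v.im = 0 → (ζ v).im = 0) ∧
      (v.im < 0 → (ζ v).im < 0) := by
  have h1 : ∀ᶠ v in 𝓝 (x : ℂ), AnalyticAt ℂ ζ v := ha.eventually_analyticAt
  have h2 : ∀ᶠ v in 𝓝 (x : ℂ), 0 < (deriv ζ v).re := by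
    have hc : ContinuousAt (fun v => (deriv ζ v).re) (x : ℂ) :=
      Complex.continuous_re.continuousAt.comp ha.deriv.continuousAt
    have : 0 < (deriv ζ x).re := by rw [hd]; simpa using hκ
    exact hc.eventually_const_lt this
  obtain ⟨ρ, hρ, hb⟩ := Metric.eventually_nhds_iff_ball.1 (h1.and h2)
  obtain ⟨ρ', hρ', hb'⟩ := Metric.eventually_nhds_iff_ball.1 hreal
  refine Metric.eventually_nhds_iff_ball.2 ⟨min ρ ρ', lt_min hρ hρ', fun v hv => ?_⟩
  have hv1 : ‖v - x‖ < ρ := by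
    have := mem_ball_iff_norm.1 hv
    exact lt_of_lt_of_le this (min_le_left _ _)
  have hv2 : ‖v - x‖ < ρ' := by
    have := mem_ball_iff_norm.1 hv
    exact lt_of_lt_of_le this (min_le_right _ _)
  -- the vertical segment
  have hseg : ∀ s : ℝ, |s| ≤ |v.im| → ((v.re : ℂ) + s * I) ∈ ball (x : ℂ) ρ := by
    intro s hs
    rw [mem_ball_iff_norm]
    refine lt_of_le_of_lt ?_ hv1
    rw [Complex.norm_def, Complex.norm_def]
    apply Real.sqrt_le_sqrt
    rw [Complex.normSq_apply, Complex.normSq_apply]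
    have h3 : s * s ≤ v.im * v.im := by
      have := sq_le_sq.2 hs
      nlinarith
    simp
    exact h3
  have hre : (ζ (v.re : ℂ)).im = 0 := by
    refine hb' v.re ?_
    rw [mem_ball_iff_norm, Real.norm_eq_abs]
    have : v.re - x = (v - x).re := by simp
    rw [this]
    exact lt_of_le_of_lt (Complex.abs_re_le_norm _) hv2
  have hder : ∀ s : ℝ, |s| ≤ |v.im| → HasDerivAt (fun s : ℝ => (ζ ((v.re : ℂ) + s * I)).im)
      (deriv ζ ((v.re : ℂ) + s * I)).re s := by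
    intro s hs
    have hA := (hb _ (hseg s hs)).1.differentiableAt.hasDerivAt
    have hB : HasDerivAt (fun s : ℝ => (v.re : ℂ) + s * I) I s := by
      have : HasDerivAt (fun s : ℝ => (s : ℂ)) 1 s := Complex.ofRealCLM.hasDerivAt
      simpa using (this.mul_const I).const_add (v.re : ℂ)
    have hC := hA.comp s hB
    have hD : HasDerivAt (fun s : ℝ => (ζ ((v.re : ℂ) + s * I)).im)
        ((deriv ζ ((v.re : ℂ) + s * I) * I).im) s := by
      exact (Complex.imCLM.hasFDerivAt.comp_hasDerivAt s hC)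
    simpa using hD
  have hcont : ∀ a b : ℝ, |a| ≤ |v.im| → |b| ≤ |v.im| →
      ContinuousOn (fun s : ℝ => (ζ ((v.re : ℂ) + s * I)).im) (Icc a b) := by
    intro a b h3 h4 s hs
    refine (hder s ?_).continuousAt.continuousWithinAt
    rw [abs_le] at h3 h4 ⊢
    exact ⟨by linarith [hs.1], by linarith [hs.2]⟩
  have hv3 : (v.re : ℂ) + (v.im : ℂ) * I = v := Complex.re_add_im v
  have h0 : (v.re : ℂ) + ((0 : ℝ) : ℂ) * I = v.re := by simp
  refine ⟨fun hp => ?_, fun hz => ?_, fun hn => ?_⟩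
  · obtain ⟨c, hc, hc'⟩ := exists_hasDerivAt_eq_slope (fun s : ℝ => (ζ ((v.re : ℂ) + s * I)).im)
      (fun s => (deriv ζ ((v.re : ℂ) + s * I)).re) hp (hcont 0 v.im (by simp) le_rfl)
      (fun s hs => hder s (by rw [abs_of_pos hs.1, abs_of_pos hp]; exact hs.2.le))
    have h5 := (hb _ (hseg c (by rw [abs_of_pos hc.1, abs_of_pos hp]; exact hc.2.le))).2
    rw [hc'] at h5
    simp only [hv3, h0, hre, sub_zero] at h5
    exact (div_pos_iff_of_pos_right hp).1 h5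
  · have : v = (v.re : ℂ) := by rw [← hv3, hz]; simp
    rw [this]; exact hre
  · obtain ⟨c, hc, hc'⟩ := exists_hasDerivAt_eq_slope (fun s : ℝ => (ζ ((v.re : ℂ) + s * I)).im)
      (fun s => (deriv ζ ((v.re : ℂ) + s * I)).re) hn (hcont v.im 0 le_rfl (by simp))
      (fun s hs => hder s (by rw [abs_of_neg hs.2, abs_of_neg hn]; linarith [hs.1]))
    have h5 := (hb _ (hseg c (by rw [abs_of_neg hc.2, abs_of_neg hn]; linarith [hc.1]))).2
    rw [hc'] at h5
    simp only [hv3, h0, hre, zero_sub] at h5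
    have h6 : 0 < -v.im := by linarith
    have := (div_pos_iff_of_pos_right h6).1 h5
    linarith

/-- Normal form of a real analytic function at a zero. -/
lemma e8_nf {x : ℝ} {F : ℂ → ℂ} (ha : AnalyticAt ℂ F x) (h0 : F x = 0)
    (hne : ¬ ∀ᶠ v in 𝓝 (x : ℂ), F v = 0) (hreal : ∀ᶠ u : ℝ in 𝓝 x, (F u).im = 0) :
    ∃ (k : ℕ) (σ : ℝ) (ζ : ℂ → ℂ) (κ : ℝ), 1 ≤ k ∧ (σ = 1 ∨ σ = -1) ∧ AnalyticAt ℂ ζ x ∧
      ζ x = 0 ∧ 0 < κ ∧ deriv ζ x = κ ∧ (∀ᶠ v in 𝓝 (x : ℂ), F v = σ * ζ v ^ k) ∧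
      (∀ᶠ u : ℝ in 𝓝 x, (ζ u).im = 0 ∧ (x < u → 0 < (ζ u).re) ∧ (u < x → (ζ u).re < 0)) := by
  obtain ⟨k, g, hg, hg0, hFg⟩ := (ha.exists_eventuallyEq_pow_smul_nonzero_iff).2 hne
  have hofr : Tendsto (fun u : ℝ => (u : ℂ)) (𝓝 x) (𝓝 (x : ℂ)) := Complex.continuous_ofReal.tendsto x
  have hk : 1 ≤ k := by
    rcases Nat.eq_zero_or_pos k with h | h
    · exfalso
      have := hFg.self_of_nhds
      rw [h, h0] at this
      simp at this
      exact hg0 this.symm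
    · exact h
  -- g is real on the reals
  have hgreal : ∀ᶠ u : ℝ in 𝓝[≠] x, (g u).im = 0 := by
    have h1 : ∀ᶠ u : ℝ in 𝓝 x, F u = ((u : ℂ) - x) ^ k • g u := hofr.eventually hFg
    filter_upwards [self_mem_nhdsWithin, nhdsWithin_le_nhds hreal, nhdsWithin_le_nhds h1] with u hu h2 h3
    have hu0 : (u - x) ^ k ≠ 0 := pow_ne_zero _ (sub_ne_zero.2 hu)
    rw [h3, smul_eq_mul] at h2
    have e : ((u : ℂ) - x) ^ k = (((u - x) ^ k : ℝ) : ℂ) := by push_cast; ring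
    rw [e, Complex.im_ofReal_mul] at h2
    rcases mul_eq_zero.1 h2 with h | h
    · exact absurd h hu0
    · exact h
  have hgc : ContinuousAt g x := hg.continuousAt
  have hg0real : (g x).im = 0 := by
    have h1 : Tendsto (fun u : ℝ => (g u).im) (𝓝[≠] x) (𝓝 (g x).im) :=
      ((Complex.continuous_im.continuousAt.comp hgc).tendsto.comp hofr).mono_left nhdsWithin_le_nhds
    have h2 : Tendsto (fun u : ℝ => (g u).im) (𝓝[≠] x) (𝓝 0) := by
      refine Tendsto.congr' ?_ tendsto_const_nhds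
      filter_upwards [hgreal] with u hu
      exact hu.symm
    exact tendsto_nhds_unique h1 h2
  have hgreal' : ∀ᶠ u : ℝ in 𝓝 x, (g u).im = 0 := by
    rw [eventually_nhdsWithin_iff] at hgreal
    filter_upwards [hgreal] with u hu
    rcases eq_or_ne u x with h | h
    · rw [h]; exact hg0real
    · exact hu h
  set a : ℝ := (g x).re with ha_def
  have hgx : g x = (a : ℂ) := by
    apply Complex.ext
    · simp [ha_def]
    · simp [hg0real]
  have ha0 : a ≠ 0 := by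
    intro h
    apply hg0
    rw [hgx, h]; simp
  set σ : ℝ := if 0 < a then 1 else -1 with hσ
  have hσa : 0 < σ * a := by
    rcases lt_or_gt_of_ne ha0 with h | h
    · rw [hσ, if_neg (not_lt.2 h.le)]; linarith
    · rw [hσ, if_pos h]; linarith
  have hσ1 : σ = 1 ∨ σ = -1 := by
    rw [hσ]; split_ifs <;> simp
  have hσσ : σ * σ = 1 := by rcases hσ1 with h | h <;> rw [h] <;> norm_num
  have hsl : ∀ᶠ v in 𝓝 (x : ℂ), 0 < ((σ : ℂ) * g v).re := by
    have hc : ContinuousAt (fun v => ((σ : ℂ) * g v).re) (x : ℂ) :=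
      Complex.continuous_re.continuousAt.comp (continuousAt_const.mul hgc)
    have : 0 < ((σ : ℂ) * g x).re := by
      rw [hgx, ← Complex.ofReal_mul, Complex.ofReal_re]; exact hσa
    exact hc.eventually_const_lt this
  have hk0 : (k : ℂ) ≠ 0 := by
    have : k ≠ 0 := by omega
    exact_mod_cast this
  let ζ : ℂ → ℂ := fun z => (z - x) * exp (log ((σ : ℂ) * g z) / k)
  have hga : AnalyticAt ℂ (fun z => exp (log ((σ : ℂ) * g z) / k)) (x : ℂ) := by
    have h1 : AnalyticAt ℂ (fun z => (σ : ℂ) * g z) (x : ℂ) := analyticAt_const.mul hg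
    have h2 : AnalyticAt ℂ (fun z => log ((σ : ℂ) * g z)) (x : ℂ) :=
      h1.clog (Or.inl hsl.self_of_nhds)
    exact (h2.div_const).cexp
  have hζa : AnalyticAt ℂ ζ x := (analyticAt_id.sub analyticAt_const).mul hga
  have hζ0 : ζ x = 0 := by simp [ζ]
  have hlogreal : log ((σ : ℂ) * g x) = (Real.log (σ * a) : ℂ) := by
    rw [hgx, ← Complex.ofReal_mul, Complex.ofReal_log hσa.le]
  have hderiv : deriv ζ x = (Real.exp (Real.log (σ * a) / k) : ℂ) := by
    have h1 : HasDerivAt ζ (1 * exp (log ((σ : ℂ) * g x) / k) + ((x : ℂ) - x) * deriv (fun z => exp (log ((σ : ℂ) * g z) / k)) x) x :=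
      ((hasDerivAt_id (x : ℂ)).sub_const (x : ℂ)).mul hga.differentiableAt.hasDerivAt
    rw [h1.deriv, hlogreal]
    simp
  refine ⟨k, σ, ζ, Real.exp (Real.log (σ * a) / k), hk, hσ1, hζa, hζ0, Real.exp_pos _, hderiv, ?_, ?_⟩
  · filter_upwards [hFg, hsl] with v h1 h2
    have h3 : (σ : ℂ) * g v ≠ 0 := by
      intro h; rw [h] at h2; simp at h2
    have h4 : exp (log ((σ : ℂ) * g v) / k) ^ k = (σ : ℂ) * g v := by
      rw [← Complex.exp_nat_mul]
      have : (k : ℂ) * (log ((σ : ℂ) * g v) / k) = log ((σ : ℂ) * g v) := by field_simp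
      rw [this, Complex.exp_log h3]
    show F v = σ * ((v - x) * exp (log ((σ : ℂ) * g v) / k)) ^ k
    rw [mul_pow, h4, h1, smul_eq_mul]
    have : (σ : ℂ) * σ = 1 := by exact_mod_cast hσσ
    calc (v - ↑x) ^ k * g v = ((σ : ℂ) * σ) * ((v - ↑x) ^ k * g v) := by rw [this, one_mul]
      _ = _ := by ring
  · have h1 : ∀ᶠ u : ℝ in 𝓝 x, 0 < ((σ : ℂ) * g u).re := hofr.eventually hsl
    filter_upwards [hgreal', h1] with u h2 h3
    have h4 : (σ : ℂ) * g u = ((σ * (g u).re : ℝ) : ℂ) := by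
      apply Complex.ext
      · simp
      · simp [h2]
    have h5 : 0 < σ * (g u).re := by
      rw [h4, Complex.ofReal_re] at h3; exact h3
    have h6 : ζ u = (((u - x) * Real.exp (Real.log (σ * (g u).re) / k) : ℝ) : ℂ) := by
      show ((u : ℂ) - x) * exp (log ((σ : ℂ) * g u) / k) = _
      rw [h4, ← Complex.ofReal_log h5.le]
      push_cast
      rfl
    rw [h6]
    have h7 := Real.exp_pos (Real.log (σ * (g u).re) / k)
    refine ⟨by rw [Complex.ofReal_im], fun hu => ?_, fun hu => ?_⟩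
    · rw [Complex.ofReal_re]; exact mul_pos (by linarith) h7
    · rw [Complex.ofReal_re]; exact mul_neg_of_neg_of_pos (by linarith) h7

/-- Points above in a given direction. -/
lemma e8_dir {x : ℝ} {ζ : ℂ → ℂ} (ha : AnalyticAt ℂ ζ x) (h0 : ζ x = 0)
    (hreal : ∀ᶠ u : ℝ in 𝓝 x, (ζ u).im = 0) {κ : ℝ} (hκ : 0 < κ) (hd : deriv ζ x = κ)
    {P : ℂ → Prop} (hP : ∀ᶠ v in 𝓝[UH] (x : ℂ), P v) {φ : ℝ} (h1 : 0 < φ) (h2 : φ < Real.pi) :
    ∀ᶠ ε : ℝ in 𝓝[>] 0, ∃ v : ℂ, 0 < v.im ∧ P v ∧ ζ v = (ε : ℂ) * exp (φ * I) := by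
  have hs := e8_im_sign ha hreal hκ hd
  have hU : {v : ℂ | (v ∈ UH → P v) ∧ ((0 < v.im → 0 < (ζ v).im) ∧ (v.im = 0 → (ζ v).im = 0) ∧
      (v.im < 0 → (ζ v).im < 0))} ∈ 𝓝 (x : ℂ) := (eventually_nhdsWithin_iff.1 hP).and hs
  have hmap : map ζ (𝓝 (x : ℂ)) = 𝓝 (ζ x) := by
    refine HasStrictDerivAt.map_nhds_eq (f' := (κ : ℂ)) ?_ (by exact_mod_cast hκ.ne')
    rw [← hd]
    exact ha.hasStrictDerivAt
  have him : ζ '' {v : ℂ | (v ∈ UH → P v) ∧ ((0 < v.im → 0 < (ζ v).im) ∧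
      (v.im = 0 → (ζ v).im = 0) ∧ (v.im < 0 → (ζ v).im < 0))} ∈ 𝓝 (0 : ℂ) := by
    rw [← h0, ← hmap]
    exact image_mem_map hU
  have hlim : Tendsto (fun ε : ℝ => (ε : ℂ) * exp (φ * I)) (𝓝[>] 0) (𝓝 0) := by
    have : Tendsto (fun ε : ℝ => (ε : ℂ) * exp (φ * I)) (𝓝 0) (𝓝 (((0 : ℝ) : ℂ) * exp (φ * I))) :=
      ((Complex.continuous_ofReal.tendsto 0).mul_const _)
    simp only [Complex.ofReal_zero, zero_mul] at this
    exact this.mono_left nhdsWithin_le_nhds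
  filter_upwards [hlim him, self_mem_nhdsWithin] with ε hε hε0
  obtain ⟨v, ⟨hv1, hv2, hv3, hv4⟩, hv5⟩ := hε
  have hε0' : (0 : ℝ) < ε := hε0
  have him' : 0 < (ζ v).im := by
    rw [hv5, Complex.im_ofReal_mul, Complex.exp_ofReal_mul_I_im]
    exact mul_pos hε0' (Real.sin_pos_of_pos_of_lt_pi h1 h2)
  have hvim : 0 < v.im := by
    rcases lt_trichotomy v.im 0 with h | h | h
    · exact absurd (hv4 h) (not_lt.2 him'.le)
    · exact absurd (hv3 h) him'.ne'
    · exact h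
  exact ⟨v, hvim, hv1 hvim, hv5⟩

/-- Positivity of the derivative for functions mapping the upper half ball into the upper half plane. -/
theorem deriv_pos_of_upper {x r : ℝ} (hr : 0 < r) {H : ℂ → ℂ}
    (hd : DifferentiableOn ℂ H (ball (x : ℂ) r))
    (hreal : ∀ u : ℝ, |u - x| < r → (H u).im = 0)
    (hup : ∀ z ∈ ball (x : ℂ) r, 0 < z.im → 0 < (H z).im) :
    ∃ κ : ℝ, 0 < κ ∧ deriv H x = κ := by
  have hp := Real.pi_pos
  have hball : ball (x : ℂ) r ∈ 𝓝 (x : ℂ) := ball_mem_nhds _ hr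
  have hHa : AnalyticAt ℂ H x := hd.analyticAt hball
  have hFa : AnalyticAt ℂ (fun v => H v - H x) x := hHa.sub analyticAt_const
  have hHx : (H x).im = 0 := hreal x (by simpa using hr)
  have hreal' : ∀ᶠ u : ℝ in 𝓝 x, (H u - H x).im = 0 := by
    filter_upwards [ball_mem_nhds x hr] with u hu
    rw [Complex.sub_im, hHx, hreal u (by rwa [mem_ball_iff_norm, Real.norm_eq_abs] at hu), sub_zero]
  have hupe : ∀ᶠ v in 𝓝[UH] (x : ℂ), 0 < (H v).im := by
    filter_upwards [self_mem_nhdsWithin, nhdsWithin_le_nhds hball] with v h1 h2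
    exact hup v h2 h1
  have hne : ¬ ∀ᶠ v in 𝓝 (x : ℂ), H v - H x = 0 := by
    intro hall
    have h1 : ∀ᶠ v in 𝓝[UH] (x : ℂ), False := by
      filter_upwards [hupe, nhdsWithin_le_nhds hall] with v h1 h2
      have : H v = H x := sub_eq_zero.1 h2
      rw [this, hHx] at h1
      exact lt_irrefl _ h1
    have hz : AnalyticAt ℂ (fun z : ℂ => z - x) x := analyticAt_id.sub analyticAt_const
    have h2 := e8_dir (x := x) (ζ := fun z => z - x) (κ := 1) (φ := Real.pi / 2)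
      hz (by simp) (by
        filter_upwards with u
        simp) one_pos (by
          rw [deriv_sub_const]
          simp) h1 (by linarith) (by linarith)
    obtain ⟨ε, v, -, h, -⟩ := h2.exists
    exact h
  obtain ⟨k, σ, ζ, κ, hk, hσ, hζa, hζ0, hκ, hζd, hF, hζr⟩ := e8_nf hFa (by simp) hne hreal'
  have hζr' : ∀ᶠ u : ℝ in 𝓝 x, (ζ u).im = 0 := hζr.mono fun u hu => hu.1
  have hP : ∀ᶠ v in 𝓝[UH] (x : ℂ), 0 < ((σ : ℂ) * ζ v ^ k).im := by
    filter_upwards [hupe, nhdsWithin_le_nhds hF] with v h1 h2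
    rw [← h2, Complex.sub_im, hHx, sub_zero]
    exact h1
  have key : ∀ φ : ℝ, 0 < φ → φ < Real.pi → 0 < σ * Real.sin (k * φ) := by
    intro φ h1 h2
    obtain ⟨ε, ⟨v, hv, hPv, hζv⟩, hε⟩ := ((e8_dir hζa hζ0 hζr' hκ hζd hP h1 h2).and
      self_mem_nhdsWithin).exists
    have hε' : (0 : ℝ) < ε := hε
    rw [hζv, mul_pow, ← Complex.exp_nat_mul] at hPv
    have e : (k : ℂ) * (φ * I) = ((k * φ : ℝ) : ℂ) * I := by push_cast; ring
    rw [e, ← Complex.ofReal_pow, Complex.im_ofReal_mul, Complex.im_ofReal_mul,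
      Complex.exp_ofReal_mul_I_im] at hPv
    have hεk : 0 < ε ^ k := pow_pos hε' k
    have : 0 < ε ^ k * (σ * Real.sin (k * φ)) := by linarith [hPv, mul_left_comm σ (ε ^ k) (Real.sin (k * φ))]
    exact (pos_iff_pos_of_mul_pos this).1 hεk
  have hk1 : k = 1 := by
    by_contra hk1
    have hk2 : 2 ≤ k := by omega
    have hk2' : (2 : ℝ) ≤ k := by exact_mod_cast hk2
    have hk0 : (0 : ℝ) < k := by linarith
    rcases hσ with h | h
    · have h1 := key (3 * Real.pi / (2 * k)) (by positivity) (by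
        rw [div_lt_iff₀ (by positivity)]; nlinarith)
      have e : (k : ℝ) * (3 * Real.pi / (2 * k)) = Real.pi / 2 + Real.pi := by field_simp; ring
      rw [e, Real.sin_add_pi, Real.sin_pi_div_two, h] at h1
      linarith
    · have h1 := key (Real.pi / (2 * k)) (by positivity) (by
        rw [div_lt_iff₀ (by positivity)]; nlinarith)
      have e : (k : ℝ) * (Real.pi / (2 * k)) = Real.pi / 2 := by field_simp
      rw [e, Real.sin_pi_div_two, h] at h1
      linarith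
  have hσ1 : σ = 1 := by
    rcases hσ with h | h
    · exact h
    · exfalso
      have h1 := key (Real.pi / 2) (by positivity) (by linarith)
      rw [hk1, Nat.cast_one, one_mul, Real.sin_pi_div_two, h] at h1
      linarith
  refine ⟨κ, hκ, ?_⟩
  have hF' : (fun v => H v - H x) =ᶠ[𝓝 (x : ℂ)] ζ := by
    filter_upwards [hF] with v hv
    rw [hv, hσ1, hk1]; simp
  have := hF'.deriv_eq
  rw [deriv_sub_const] at this
  rw [this, hζd]

lemma e8_neBot (x : ℝ) : (𝓝[UH] (x : ℂ)).NeBot := by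
  refine mem_closure_iff_nhdsWithin_neBot.1 ?_
  rw [Metric.mem_closure_iff]
  intro ε hε
  refine ⟨(x : ℂ) + (ε / 2 : ℝ) * I, ?_, ?_⟩
  · show 0 < ((x : ℂ) + (ε / 2 : ℝ) * I).im
    simp [hε]
  · rw [dist_eq_norm]
    have : (x : ℂ) - ((x : ℂ) + (ε / 2 : ℝ) * I) = -((ε / 2 : ℝ) * I) := by ring
    rw [this, norm_neg, norm_mul, Complex.norm_I, mul_one, Complex.norm_real, Real.norm_eq_abs,
      abs_of_pos (by linarith)]
    linarith

lemma e8_isOpen_UH : IsOpen UH := isOpen_lt continuous_const Complex.continuous_im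

/-- The local lift near a boundary point. -/
lemma e8_lift {x θ₀ r₀ : ℝ} (hr₀ : 0 < r₀) {Z : ℂ → ℂ}
    (hZ : DifferentiableOn ℂ Z (ball (x : ℂ) r₀ ∩ UH))
    (hZ1 : ∀ v ∈ ball (x : ℂ) r₀ ∩ UH, ‖Z v‖ < 1)
    (hlim : Tendsto (fun v => Z v / (‖Z v‖ : ℂ)) (𝓝[UH] (x : ℂ)) (𝓝 (exp (θ₀ * I))))
    {δ : ℝ} (hδ : 0 < δ) :
    ∃ r > 0, r ≤ r₀ ∧ DifferentiableOn ℂ (fun v => e4_lift θ₀ (Z v)) (ball (x : ℂ) r ∩ UH) ∧
      ∀ v ∈ ball (x : ℂ) r, 0 < v.im → Z v ≠ 0 ∧ nome (e4_lift θ₀ (Z v)) = Z v ∧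
        0 < (e4_lift θ₀ (Z v)).im ∧ |(e4_lift θ₀ (Z v)).re - θ₀ / Real.pi| < δ := by
  have h1 : ∀ᶠ v in 𝓝[UH] (x : ℂ), ‖Z v / (‖Z v‖ : ℂ) - exp (θ₀ * I)‖ < 1 := by
    have := hlim (ball_mem_nhds _ one_pos)
    filter_upwards [this] with v hv
    exact mem_ball_iff_norm.1 hv
  have h2 : ∀ᶠ v in 𝓝[UH] (x : ℂ), |(e4_lift θ₀ (Z v)).re - θ₀ / Real.pi| < δ := by
    have := (e4_lift_tendsto (θ₀ := θ₀) hlim (by simpa using Real.pi_pos)) (ball_mem_nhds _ hδ)
    filter_upwards [this] with v hv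
    rwa [mem_preimage, mem_ball_iff_norm, Real.norm_eq_abs] at hv
  have h3 := h1.and h2
  rw [eventually_nhdsWithin_iff, Metric.eventually_nhds_iff_ball] at h3
  obtain ⟨ρ, hρ, h3⟩ := h3
  have h4 : ∀ v ∈ ball (x : ℂ) (min ρ r₀), 0 < v.im → Z v ≠ 0 ∧
      0 < (Z v * exp (-(θ₀ * I))).re := by
    intro v hv hv0
    have h5 := (h3 v (ball_subset_ball (min_le_left _ _) hv) hv0).1
    have hne : Z v ≠ 0 := by
      intro h
      rw [h] at h5
      simp [Complex.norm_exp] at h5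
    refine ⟨hne, ?_⟩
    have hn : (0 : ℝ) < ‖Z v‖ := norm_pos_iff.2 hne
    have hnc : (‖Z v‖ : ℂ) ≠ 0 := by exact_mod_cast hn.ne'
    have h6 : ‖Z v / (‖Z v‖ : ℂ) * exp (-(θ₀ * I)) - 1‖ < 1 := by
      have e : Z v / (‖Z v‖ : ℂ) * exp (-(θ₀ * I)) - 1 =
          (Z v / (‖Z v‖ : ℂ) - exp (θ₀ * I)) * exp (-(θ₀ * I)) := by
        rw [sub_mul, ← Complex.exp_add]; simp
      rw [e, norm_mul]
      have : ‖exp (-(θ₀ * I))‖ = 1 := by rw [Complex.norm_exp]; simp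
      rw [this, mul_one]
      exact h5
    have h7 : 0 < (Z v / (‖Z v‖ : ℂ) * exp (-(θ₀ * I))).re := by
      have := (abs_lt.1 (lt_of_le_of_lt (Complex.abs_re_le_norm _) h6)).1
      simp only [Complex.sub_re, Complex.one_re] at this
      linarith
    have e : Z v * exp (-(θ₀ * I)) = (‖Z v‖ : ℂ) * (Z v / (‖Z v‖ : ℂ) * exp (-(θ₀ * I))) := by
      field_simp
    rw [e, Complex.re_ofReal_mul]
    exact mul_pos hn h7
  refine ⟨min ρ r₀, lt_min hρ hr₀, min_le_right _ _, ?_, ?_⟩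
  · intro v hv
    have h5 := h4 v hv.1 hv.2
    have hU : ball (x : ℂ) (min ρ r₀) ∩ UH ⊆ ball (x : ℂ) r₀ ∩ UH :=
      inter_subset_inter_left _ (ball_subset_ball (min_le_right _ _))
    have hop : IsOpen (ball (x : ℂ) r₀ ∩ UH) := isOpen_ball.inter e8_isOpen_UH
    have hZv : DifferentiableAt ℂ Z v := hZ.differentiableAt (hop.mem_nhds (hU hv))
    have h6 : DifferentiableAt ℂ (fun v => log (Z v * exp (-(θ₀ * I)))) v :=
      (hZv.mul_const _).clog (Or.inl h5.2)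
    exact ((h6.add_const _).div_const _).differentiableWithinAt
  · intro v hv hv0
    have h5 := h4 v hv hv0
    have h6 := h3 v (ball_subset_ball (min_le_left _ _) hv) hv0
    refine ⟨h5.1, e4_lift_nome h5.1, ?_, h6.2⟩
    rw [e4_lift_im]
    have h7 := hZ1 v ⟨ball_subset_ball (min_le_right _ _) hv, hv0⟩
    exact div_pos (neg_pos.2 (Real.log_neg (norm_pos_iff.2 h5.1) h7)) Real.pi_pos

/-- limit of the lift. -/
lemma e8_lift_lim {β : Type*} {l : Filter β} {Z : β → ℂ} {θ₀ ϑ R : ℝ} (hR : 0 < R)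
    (ht : Tendsto (fun a => Z a / (‖Z a‖ : ℂ)) l (𝓝 (exp (ϑ * I)))) (h : |ϑ - θ₀| < Real.pi)
    (hn : Tendsto (fun a => ‖Z a‖) l (𝓝 R)) :
    Tendsto (fun a => e4_lift θ₀ (Z a)) l
      (𝓝 (((ϑ / Real.pi : ℝ) : ℂ) + ((-Real.log R / Real.pi : ℝ) : ℂ) * I)) := by
  have h1 := e4_lift_tendsto ht h
  have h2 : Tendsto (fun a => (e4_lift θ₀ (Z a)).im) l (𝓝 (-Real.log R / Real.pi)) := by
    have : Tendsto (fun a => -Real.log ‖Z a‖ / Real.pi) l (𝓝 (-Real.log R / Real.pi)) :=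
      ((hn.log hR.ne').neg).div_const _
    refine this.congr fun a => ?_
    rw [e4_lift_im]
  have h3 := ((Complex.continuous_ofReal.tendsto _).comp h1).add
    (((Complex.continuous_ofReal.tendsto _).comp h2).mul_const I)
  refine h3.congr fun a => ?_
  exact Complex.re_add_im _

lemma e8_mem_ball {x u r : ℝ} : (u : ℂ) ∈ ball (x : ℂ) r ↔ |u - x| < r := by
  rw [mem_ball_iff_norm, ← Complex.ofReal_sub, Complex.norm_real, Real.norm_eq_abs]

/-- The value of an extension at a real point is the limit from above. -/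
lemma e8_value {x r u : ℝ} {H f : ℂ → ℂ} {c : ℂ} (hd : DifferentiableOn ℂ H (ball (x : ℂ) r))
    (hu : |u - x| < r) (he : ∀ z ∈ ball (x : ℂ) r, 0 < z.im → H z = f z)
    (hf : Tendsto f (𝓝[UH] (u : ℂ)) (𝓝 c)) : H u = c := by
  have := e8_neBot u
  have hmem : ball (x : ℂ) r ∈ 𝓝 (u : ℂ) := isOpen_ball.mem_nhds (e8_mem_ball.2 hu)
  have h1 : Tendsto H (𝓝[UH] (u : ℂ)) (𝓝 (H u)) :=
    (hd.differentiableAt hmem).continuousAt.tendsto.mono_left nhdsWithin_le_nhds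
  have h2 : Tendsto H (𝓝[UH] (u : ℂ)) (𝓝 c) := by
    refine hf.congr' ?_
    filter_upwards [self_mem_nhdsWithin, nhdsWithin_le_nhds hmem] with z h1 h2
    exact (he z h2 h1).symm
  exact tendsto_nhds_unique h1 h2

lemma e8_memV {y : ℝ} {X : ℂ → ℂ} {v₀ : ℂ} {Θ : ℝ → ℝ} (h : Pre y X v₀ Θ) {v : ℂ} (hv : v ∈ UH) :
    X v ∈ V y := by
  rw [← h.img]; exact mem_image_of_mem _ hv

lemma e8_esc {y : ℝ} {X : ℂ → ℂ} {v₀ : ℂ} {Θ : ℝ → ℝ} (h : Pre y X v₀ Θ) (u : ℝ) :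
    (∀ᶠ v in 𝓝[UH] (u : ℂ), X v ∈ V y) :=
  eventually_nhdsWithin_of_forall fun _ hv => e8_memV h hv

theorem pre_free {y : ℝ} {X : ℂ → ℂ} {v₀ : ℂ} {Θ : ℝ → ℝ} (h : Pre y X v₀ Θ) (x : ℝ)
    (h1 : -1 < x) (h2 : x < 1) :
    ∃ r > 0, ∃ τ : ℂ → ℂ, DifferentiableOn ℂ τ (ball (x : ℂ) r) ∧
    (∀ v ∈ ball (x : ℂ) r, 0 < v.im → X v = nome (τ v)) ∧
    (∀ u : ℝ, (u : ℂ) ∈ ball (x : ℂ) r → (τ u).im = 0) ∧
    0 < (nome (τ x)).im ∧ ∃ κ : ℝ, 0 < κ ∧ deriv τ x = κ := by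
  have hp := Real.pi_pos
  obtain ⟨r₁, hr₁, -, hd₁, hv₁⟩ := e8_lift (x := x) (θ₀ := Θ x) one_pos
    (h.diff.mono inter_subset_right) (fun v hv => (e8_memV h hv.2).1) (h.lim x) one_pos
  -- continuity of the argument
  have hc : ∀ᶠ u in 𝓝 x, |Θ u - Θ x| < Real.pi ∧ -1 < u ∧ u < 1 := by
    have h3 : ∀ᶠ u in 𝓝 x, |Θ u - Θ x| < Real.pi := by
      have := h.cont.continuousAt.tendsto (x := x) (ball_mem_nhds _ hp)
      filter_upwards [this] with u hu
      rwa [mem_preimage, mem_ball_iff_norm, Real.norm_eq_abs] at hu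
    exact h3.and ((eventually_gt_nhds h1).and (eventually_lt_nhds h2))
  obtain ⟨r₂, hr₂, hc⟩ := Metric.eventually_nhds_iff_ball.1 hc
  set r := min r₁ r₂ with hr
  have hr0 : 0 < r := lt_min hr₁ hr₂
  have hsub : ball (x : ℂ) r ⊆ ball (x : ℂ) r₁ := ball_subset_ball (min_le_left _ _)
  have hlim : ∀ u : ℝ, |u - x| < r → Tendsto (fun v => e4_lift (Θ x) (X v)) (𝓝[UH] (u : ℂ))
      (𝓝 ((Θ u / Real.pi : ℝ) : ℂ)) := by
    intro u hu
    obtain ⟨h3, h4, h5⟩ := hc u (by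
      rw [mem_ball_iff_norm, Real.norm_eq_abs]; exact lt_of_lt_of_le hu (min_le_right _ _))
    obtain ⟨h6, h7⟩ := h.mid u h4 h5
    have h8 := esc_upper h.y_pos (e8_esc h u) (fun K hK hKV => h.esc K hK hKV u) (h.lim u) h6 h7.le
    have h9 : Tendsto (fun v => ‖X v‖) (𝓝[UH] (u : ℂ)) (𝓝 1) := by
      have := h8.norm
      rwa [Complex.norm_exp_ofReal_mul_I] at this
    have := e8_lift_lim (θ₀ := Θ x) one_pos (h.lim u) h3 h9
    simpa using this
  obtain ⟨H, hHd, hHe, hHr⟩ := reflect (x := x) hr0 (h := fun v => e4_lift (Θ x) (X v))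
    (hd₁.mono (inter_subset_inter_left _ hsub)) (fun u hu => by
      have := (Complex.continuous_im.tendsto _).comp (hlim u hu)
      rw [Complex.ofReal_im] at this
      exact this)
  have hup : ∀ z ∈ ball (x : ℂ) r, 0 < z.im → 0 < (H z).im := by
    intro z hz hz0
    rw [hHe z hz hz0]
    exact (hv₁ z (hsub hz) hz0).2.2.1
  refine ⟨r, hr0, H, hHd, ?_, ?_, ?_, deriv_pos_of_upper hr0 hHd hHr hup⟩
  · intro v hv hv0
    rw [hHe v hv hv0]
    exact (hv₁ v (hsub hv) hv0).2.1.symm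
  · intro u hu
    exact hHr u (e8_mem_ball.1 hu)
  · have hx0 : |x - x| < r := by simpa using hr0
    have hval := e8_value hHd hx0 hHe (hlim x hx0)
    rw [hval, e4_nome_re]
    simp only [Complex.ofReal_im, mul_zero, Real.exp_zero, Complex.ofReal_one, one_mul,
      Complex.ofReal_re]
    have : Real.pi * (Θ x / Real.pi) = Θ x := by field_simp
    rw [this, Complex.exp_ofReal_mul_I_im]
    obtain ⟨h6, h7⟩ := h.mid x h1 h2
    exact Real.sin_pos_of_pos_of_lt_pi h6 h7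

lemma e8_normSq_add_half (τ : ℂ) : Complex.normSq (τ + 1 / 2) = Complex.normSq τ + τ.re + 1 / 4 := by
  rw [Complex.normSq_apply, Complex.normSq_apply]
  have e1 : (τ + 1 / 2).re = τ.re + 1 / 2 := by rw [Complex.add_re]; norm_num
  have e2 : (τ + 1 / 2).im = τ.im := by rw [Complex.add_im]; norm_num
  rw [e1, e2]; ring

lemma e8_im_h {τ : ℂ} (hτ : τ ≠ 0) : (I * (1 + 1 / τ)).im =
    (Complex.normSq (τ + 1 / 2) - 1 / 4) / Complex.normSq τ := by
  have h0 : Complex.normSq τ ≠ 0 := by rwa [Ne, Complex.normSq_eq_zero]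
  rw [Complex.I_mul_im, Complex.add_re, Complex.one_re, one_div, Complex.inv_re,
    e8_normSq_add_half]
  field_simp
  ring

theorem pre_arc {y : ℝ} {X : ℂ → ℂ} {v₀ : ℂ} {Θ : ℝ → ℝ} (h : Pre y X v₀ Θ) (x : ℝ)
    (h1 : 1 < x) :
    ∃ r > 0, ∃ τ : ℂ → ℂ, DifferentiableOn ℂ τ (ball (x : ℂ) r) ∧
    (∀ v ∈ ball (x : ℂ) r, 0 < v.im → X v = nome (τ v)) ∧
    (∀ u : ℝ, (u : ℂ) ∈ ball (x : ℂ) r → τ u ∈ Sig) ∧
    ∃ κ : ℝ, 0 < κ ∧ deriv τ x = -(κ * I) * (τ x + 1 / 2) := by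
  have hp := Real.pi_pos
  have hexp : ∀ u : ℝ, exp ((Θ u - 2 * Real.pi : ℝ) * I) = exp (Θ u * I) := by
    intro u
    push_cast
    rw [sub_mul, Complex.exp_sub, Complex.exp_two_pi_mul_I, div_one]
  obtain ⟨r₁, hr₁, -, hd₁, hv₁⟩ := e8_lift (x := x) (θ₀ := Θ x - 2 * Real.pi) one_pos
    (h.diff.mono inter_subset_right) (fun v hv => (e8_memV h hv.2).1)
    (by rw [hexp]; exact h.lim x) one_pos
  -- continuity of the argument
  have hc : ∀ᶠ u in 𝓝 x, |Θ u - Θ x| < Real.pi ∧ 1 < u := by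
    have h3 : ∀ᶠ u in 𝓝 x, |Θ u - Θ x| < Real.pi := by
      have := h.cont.continuousAt.tendsto (x := x) (ball_mem_nhds _ hp)
      filter_upwards [this] with u hu
      rwa [mem_preimage, mem_ball_iff_norm, Real.norm_eq_abs] at hu
    exact h3.and (eventually_gt_nhds h1)
  obtain ⟨r₂, hr₂, hc⟩ := Metric.eventually_nhds_iff_ball.1 hc
  set r := min r₁ r₂ with hr
  have hr0 : 0 < r := lt_min hr₁ hr₂
  have hsub : ball (x : ℂ) r ⊆ ball (x : ℂ) r₁ := ball_subset_ball (min_le_left _ _)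
  set T : ℂ → ℂ := fun v => e4_lift (Θ x - 2 * Real.pi) (X v) with hT
  have hSig : ∀ u : ℝ, |u - x| < r → geoPt (Θ u - 2 * Real.pi) ∈ Sig := by
    intro u hu
    obtain ⟨h3, h4⟩ := hc u (by
      rw [mem_ball_iff_norm, Real.norm_eq_abs]; exact lt_of_lt_of_le hu (min_le_right _ _))
    obtain ⟨h6, h7⟩ := h.right u h4
    exact geoPt_mem (by linarith) (by linarith)
  have hlim : ∀ u : ℝ, |u - x| < r → Tendsto T (𝓝[UH] (u : ℂ))
      (𝓝 (geoPt (Θ u - 2 * Real.pi))) := by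
    intro u hu
    obtain ⟨h3, h4⟩ := hc u (by
      rw [mem_ball_iff_norm, Real.norm_eq_abs]; exact lt_of_lt_of_le hu (min_le_right _ _))
    obtain ⟨h6, h7⟩ := h.right u h4
    have hl : Tendsto (fun a => X a / (‖X a‖ : ℂ)) (𝓝[UH] (u : ℂ))
        (𝓝 (exp ((Θ u - 2 * Real.pi : ℝ) * I))) := by rw [hexp]; exact h.lim u
    have h8 := esc_geo h.y_pos (e8_esc h u) (fun K hK hKV => h.esc K hK hKV u) hl
      (by linarith) (by linarith)
    have h9 := h8.norm
    rw [e4_norm_nome] at h9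
    have := e8_lift_lim (θ₀ := Θ x - 2 * Real.pi) (Real.exp_pos _) hl (by
      have e : Θ u - 2 * Real.pi - (Θ x - 2 * Real.pi) = Θ u - Θ x := by ring
      rw [e]; exact h3) h9
    have e : (((Θ u - 2 * Real.pi) / Real.pi : ℝ) : ℂ) + ((-Real.log (Real.exp (-Real.pi *
        (geoPt (Θ u - 2 * Real.pi)).im)) / Real.pi : ℝ) : ℂ) * I = geoPt (Θ u - 2 * Real.pi) := by
      rw [Real.log_exp, ← e4_geoPt_re]
      have : -(-Real.pi * (geoPt (Θ u - 2 * Real.pi)).im) / Real.pi =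
          (geoPt (Θ u - 2 * Real.pi)).im := by field_simp
      rw [this]
      exact Complex.re_add_im _
    rw [e] at this
    exact this
  have hT0 : ∀ z ∈ ball (x : ℂ) r, 0 < z.im → T z ≠ 0 := by
    intro z hz hz0 h0
    have := (hv₁ z (hsub hz) hz0).2.2.1
    rw [show e4_lift (Θ x - 2 * Real.pi) (X z) = T z from rfl, h0] at this
    simp at this
  have hSig0 : ∀ τ ∈ Sig, τ ≠ 0 := by
    intro τ hτ h0
    have := hτ.1
    rw [h0] at this
    simp at this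
  obtain ⟨H, hHd, hHe, hHr⟩ := reflect (x := x) hr0 (h := fun v => I * (1 + 1 / T v)) (by
      intro v hv
      refine DifferentiableWithinAt.const_mul ?_ _
      refine DifferentiableWithinAt.const_add _ ?_
      have hTd : DifferentiableWithinAt ℂ T (ball (x : ℂ) r ∩ UH) v :=
        (hd₁.mono (inter_subset_inter_left _ hsub)) v hv
      exact (differentiableWithinAt_const _).div hTd (hT0 v hv.1 hv.2))
    (fun u hu => by
      have h3 : Tendsto (fun v => I * (1 + 1 / T v)) (𝓝[UH] (u : ℂ))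
          (𝓝 (I * (1 + 1 / geoPt (Θ u - 2 * Real.pi)))) :=
        ((tendsto_const_nhds.div (hlim u hu) (hSig0 _ (hSig u hu))).const_add 1).const_mul I
      have h4 := (Complex.continuous_im.tendsto _).comp h3
      rw [e8_im_h (hSig0 _ (hSig u hu)), Complex.normSq_eq_norm_sq (_ + _), (hSig u hu).2] at h4
      have : ((1 / 2 : ℝ) ^ 2 - 1 / 4) / Complex.normSq (geoPt (Θ u - 2 * Real.pi)) = 0 := by
        norm_num
      rw [this] at h4
      exact h4)
  have hup : ∀ z ∈ ball (x : ℂ) r, 0 < z.im → 0 < (H z).im := by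
    intro z hz hz0
    rw [hHe z hz hz0, e8_im_h (hT0 z hz hz0)]
    have h3 := e8_memV h (v := z) hz0
    have h4 := (hv₁ z (hsub hz) hz0)
    refine div_pos ?_ (Complex.normSq_pos.2 (hT0 z hz hz0))
    by_contra hcon
    apply h3.2.1
    refine ⟨T z, h4.2.2.1, ?_, h4.2.1⟩
    have h5 : ‖T z + 1 / 2‖ ^ 2 ≤ (1 / 2) ^ 2 := by
      rw [← Complex.normSq_eq_norm_sq]
      linarith
    exact le_of_sq_le_sq h5 (by norm_num)
  obtain ⟨κ₁, hκ₁, hκd⟩ := deriv_pos_of_upper hr0 hHd hHr hup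
  -- shrink the ball
  have hx0 : |x - x| < r := by simpa using hr0
  have hball : ball (x : ℂ) r ∈ 𝓝 (x : ℂ) := ball_mem_nhds _ hr0
  have hHc : ContinuousAt H x := (hHd.differentiableAt hball).continuousAt
  have hne : ∀ᶠ v in 𝓝 (x : ℂ), 1 + I * H v ≠ 0 := by
    have hc1 : ContinuousAt (fun v => 1 + I * H v) (x : ℂ) := by fun_prop
    refine hc1.eventually_ne ?_
    intro h0
    have := congrArg Complex.re h0
    simp [Complex.I_mul_re, hHr x hx0] at this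
  obtain ⟨r₃, hr₃, hne⟩ := Metric.eventually_nhds_iff_ball.1 hne
  set r' := min r r₃ with hr'
  have hr'0 : 0 < r' := lt_min hr0 hr₃
  have hsub1 : ball (x : ℂ) r' ⊆ ball (x : ℂ) r := ball_subset_ball (min_le_left _ _)
  have hsub3 : ball (x : ℂ) r' ⊆ ball (x : ℂ) r₃ := ball_subset_ball (min_le_right _ _)
  set τ : ℂ → ℂ := fun v => -1 / (1 + I * H v) with hτ
  have hτd : DifferentiableOn ℂ τ (ball (x : ℂ) r') := by
    intro v hv
    have hHv : DifferentiableWithinAt ℂ H (ball (x : ℂ) r') v := (hHd.mono hsub1) v hv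
    exact (differentiableWithinAt_const _).div ((hHv.const_mul I).const_add 1) (hne v (hsub3 hv))
  have hτT : ∀ z ∈ ball (x : ℂ) r', 0 < z.im → τ z = T z := by
    intro z hz hz0
    have h3 := hT0 z (hsub1 hz) hz0
    show -1 / (1 + I * H z) = T z
    rw [hHe z (hsub1 hz) hz0]
    have : 1 + I * (I * (1 + 1 / T z)) = -1 / T z := by
      rw [← mul_assoc, Complex.I_mul_I]; field_simp; ring
    rw [this]
    field_simp
  have hτu : ∀ u : ℝ, |u - x| < r' → τ u = geoPt (Θ u - 2 * Real.pi) := by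
    intro u hu
    exact e8_value hτd hu hτT (hlim u (lt_of_lt_of_le hu (min_le_left _ _)))
  have hx0' : |x - x| < r' := by simpa using hr'0
  have hτx : τ x ∈ Sig := by rw [hτu x hx0']; exact hSig x hx0
  refine ⟨r', hr'0, τ, hτd, ?_, ?_, ?_⟩
  · intro v hv hv0
    rw [hτT v hv hv0]
    exact (hv₁ v (hsub (hsub1 hv)) hv0).2.1.symm
  · intro u hu
    have hu' := e8_mem_ball.1 hu
    rw [hτu u hu']
    exact hSig u (lt_of_lt_of_le hu' (min_le_left _ _))
  · -- the derivative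
    have hH : HasDerivAt H (κ₁ : ℂ) x := by
      rw [← hκd]; exact (hHd.differentiableAt hball).hasDerivAt
    have h3 : 1 + I * H x ≠ 0 := hne x (mem_ball_self hr₃)
    have h4 : HasDerivAt τ ((0 * (1 + I * H x) - (-1) * (I * κ₁)) / (1 + I * H x) ^ 2) x :=
      (hasDerivAt_const (x : ℂ) (-1 : ℂ)).div ((hH.const_mul I).const_add 1) h3
    have hre : (τ x).re < 0 := by
      have h5 : Complex.normSq (τ x + 1 / 2) = 1 / 4 := by
        rw [Complex.normSq_eq_norm_sq, hτx.2]; norm_num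
      rw [e8_normSq_add_half] at h5
      have h6 : 0 < Complex.normSq (τ x) := Complex.normSq_pos.2 (hSig0 _ hτx)
      linarith
    refine ⟨κ₁ * (-(2 * (τ x).re)), by nlinarith, ?_⟩
    rw [h4.deriv]
    have e1 : (0 * (1 + I * H x) - (-1) * (I * κ₁)) / (1 + I * H x) ^ 2 = I * κ₁ * τ x ^ 2 := by
      show _ = I * κ₁ * (-1 / (1 + I * H x)) ^ 2
      field_simp
      ring
    rw [e1]
    have e2 : τ x ^ 2 = 2 * ((τ x).re : ℂ) * (τ x + 1 / 2) := by
      have h5 : Complex.normSq (τ x + 1 / 2) = 1 / 4 := by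
        rw [Complex.normSq_eq_norm_sq, hτx.2]; norm_num
      rw [e8_normSq_add_half, Complex.normSq_apply] at h5
      apply Complex.ext
      · simp [sq, Complex.add_re, Complex.mul_re]
        nlinarith
      · simp [sq, Complex.add_im, Complex.mul_im]
        ring
    rw [e2]
    push_cast
    ring

end Pool.Agent.Choc
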