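import Pool.Agent.Lib.MP_2b3e36_an.Ex.E8

/-!
E9. Local analysis on the slit.

`x < -1`. On a small upper half ball `X/‖X‖` is near `1`, `Re X > 0`; `h = Log X/pi`, `Im h = arg X/pi → 0` at
all real points near `x`: `reflect` gives `H`, real on the reals. `τ = - i H`: `Re τ = 0`, `Im τ = - H u` on the
reals. `Re h = log ‖X‖/pi < 0` above, so `H u ≤ 0`. `esc_slit`: `exp (pi H u) ≥ exp (- pi y)`, `Im τ u ≤ y`.
`H u < 0`: if `H x = 0` write `H v = a (v - x)^k + ...`, `a` real `≠ 0` (`X` is not constant): for `k ≥ 2` and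
for `k = 1` the real part of `a e^{ikφ}`, `0 < φ < pi`, takes positive values, contradicting `Re H < 0` above.
(The same at all real points, so `0 < Im τ u ≤ y`.)
Critical points: let `H v = H x + a (v - x)^k + ...`, `k ≥ 2`, `a` real `≠ 0`. The slit is not in the image
`V y` of `UH`; `X v ∈ V y` with `H v` real implies `Im τ > y`, i.e. `H v < - y`. If `k ≥ 3` the image of the
upper half ball under `H` contains real points on both sides of `H x` (the directions `kφ`, `0<φ<pi`, include
`pi` and `2 pi`), but then real values `> H x ≥ -y` occur (negative as `Re H < 0`), contradiction. So `k = 2`, and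
along `v = x + i t`: `H = H x - a t^2 + ...` is real? In general: the direction `φ = pi/2` gives a curve in the
upper half ball on which `H` is real and takes values on the side `- a` of `H x`, arbitrarily close to `H x`;
so these are `< - y`, thus `H x ≤ - y`, with `H x ≥ -y` we get `H x = - y`, and `a > 0`.
So `deriv τ x = 0` implies `τ x = y i` and `deriv (deriv τ) x = - 2 i a ≠ 0`.
(To find real values use: `H` is conjugation symmetric; the set `{Im H = 0}` near a critical point of order
`k` consists of `k` analytic arcs; or use the local biholomorphic coordinate `ζ` with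
`H = H x + a ζ^k`, `ζ` real on the reals, which maps a smaller upper half ball onto a neighbourhood of `x` in
`UH`; for `a > 0` (else replace) this is clean.)
-/

set_option autoImplicit false

open Complex Set Filter Topology Metric

namespace Pool.Agent.Choc

/-- A real analytic function whose real part is negative above has no zero at real points. -/
lemma e9_ne_zero {x : ℝ} {F : ℂ → ℂ} (ha : AnalyticAt ℂ F x)
    (hreal : ∀ᶠ u : ℝ in 𝓝 x, (F u).im = 0) (hneg : ∀ᶠ v in 𝓝[UH] (x : ℂ), (F v).re < 0) :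
    F x ≠ 0 := by
  intro h0
  have hp := Real.pi_pos
  have hnb := e8_neBot x
  have hne : ¬ ∀ᶠ v in 𝓝 (x : ℂ), F v = 0 := by
    intro hall
    have h1 : ∀ᶠ v in 𝓝[UH] (x : ℂ), False := by
      filter_upwards [hneg, nhdsWithin_le_nhds hall] with v h1 h2
      rw [h2] at h1
      simp at h1
    exact h1.exists.elim fun _ h => h
  obtain ⟨k, σ, ζ, κ, hk, hσ, hζa, hζ0, hκ, hζd, hF, hζr⟩ := e8_nf ha h0 hne hreal
  have hζr' : ∀ᶠ u : ℝ in 𝓝 x, (ζ u).im = 0 := hζr.mono fun u hu => hu.1
  have hP : ∀ᶠ v in 𝓝[UH] (x : ℂ), ((σ : ℂ) * ζ v ^ k).re < 0 := by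
    filter_upwards [hneg, nhdsWithin_le_nhds hF] with v h1 h2
    rw [← h2]
    exact h1
  have key : ∀ φ : ℝ, 0 < φ → φ < Real.pi → σ * Real.cos (k * φ) < 0 := by
    intro φ h1 h2
    obtain ⟨ε, ⟨v, hv, hPv, hζv⟩, hε⟩ := ((e8_dir hζa hζ0 hζr' hκ hζd hP h1 h2).and
      self_mem_nhdsWithin).exists
    have hε' : (0 : ℝ) < ε := hε
    rw [hζv, mul_pow, ← Complex.exp_nat_mul] at hPv
    have e : (k : ℂ) * (φ * I) = ((k * φ : ℝ) : ℂ) * I := by push_cast; ring
    rw [e, ← Complex.ofReal_pow, Complex.re_ofReal_mul, Complex.re_ofReal_mul,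
      Complex.exp_ofReal_mul_I_re] at hPv
    have hεk : 0 < ε ^ k := pow_pos hε' k
    have h3 : 0 < ε ^ k * -(σ * Real.cos (k * φ)) := by
      linarith [hPv, mul_left_comm σ (ε ^ k) (Real.cos (k * φ))]
    have := (pos_iff_pos_of_mul_pos h3).1 hεk
    linarith
  have hk1 : (1 : ℝ) ≤ k := by exact_mod_cast hk
  have hk0 : (0 : ℝ) < k := by linarith
  rcases hσ with h | h
  · have h1 := key (Real.pi / (4 * k)) (by positivity) (by
      rw [div_lt_iff₀ (by positivity)]; nlinarith)
    have e : (k : ℝ) * (Real.pi / (4 * k)) = Real.pi / 4 := by field_simp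
    rw [e, Real.cos_pi_div_four, h] at h1
    have := Real.sqrt_pos.2 (show (0 : ℝ) < 2 by norm_num)
    linarith
  · have h1 := key (3 * Real.pi / (4 * k)) (by positivity) (by
      rw [div_lt_iff₀ (by positivity)]; nlinarith)
    have e : (k : ℝ) * (3 * Real.pi / (4 * k)) = Real.pi - Real.pi / 4 := by field_simp; ring
    rw [e, Real.cos_pi_sub, Real.cos_pi_div_four, h] at h1
    have := Real.sqrt_pos.2 (show (0 : ℝ) < 2 by norm_num)
    linarith

theorem pre_slit {y : ℝ} {X : ℂ → ℂ} {v₀ : ℂ} {Θ : ℝ → ℝ} (h : Pre y X v₀ Θ) (x : ℝ)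
    (h1 : x < -1) :
    ∃ r > 0, ∃ τ : ℂ → ℂ, DifferentiableOn ℂ τ (ball (x : ℂ) r) ∧
    (∀ v ∈ ball (x : ℂ) r, 0 < v.im → X v = nome (τ v)) ∧
    (∀ u : ℝ, (u : ℂ) ∈ ball (x : ℂ) r → (τ u).re = 0 ∧ 0 < (τ u).im ∧ (τ u).im ≤ y) ∧
    (deriv τ x = 0 → deriv (deriv τ) x ≠ 0 ∧ τ x = y * I) := by
  have hp := Real.pi_pos
  have hlimΘ : ∀ u : ℝ, u < -1 → Tendsto (fun v => X v / (‖X v‖ : ℂ)) (𝓝[UH] (u : ℂ))
      (𝓝 (exp ((0 : ℝ) * I))) := by
    intro u hu
    have := h.lim u
    rwa [h.left u hu.le] at this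
  obtain ⟨r₁, hr₁, -, hd₁, hv₁⟩ := e8_lift (x := x) (θ₀ := 0) one_pos
    (h.diff.mono inter_subset_right) (fun v hv => (e8_memV h hv.2).1) (hlimΘ x h1) one_pos
  set r := min r₁ (-1 - x) with hr
  have hr0 : 0 < r := lt_min hr₁ (by linarith)
  have hsub : ball (x : ℂ) r ⊆ ball (x : ℂ) r₁ := ball_subset_ball (min_le_left _ _)
  set T : ℂ → ℂ := fun v => e4_lift 0 (X v) with hT
  have hu1 : ∀ u : ℝ, |u - x| < r → u < -1 := by
    intro u hu
    have h2 : |u - x| < -1 - x := lt_of_lt_of_le hu (min_le_right _ _)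
    have := (abs_lt.1 h2).2
    linarith
  have hreT : ∀ u : ℝ, |u - x| < r → Tendsto (fun v => (T v).re) (𝓝[UH] (u : ℂ)) (𝓝 0) := by
    intro u hu
    have := e4_lift_tendsto (θ₀ := 0) (hlimΘ u (hu1 u hu)) (by simpa using hp)
    simpa using this
  obtain ⟨H, hHd, hHe, hHr⟩ := reflect (x := x) hr0 (h := fun v => I * T v)
    (by
      intro v hv
      have hTd : DifferentiableWithinAt ℂ T (ball (x : ℂ) r ∩ UH) v :=
        (hd₁.mono (inter_subset_inter_left _ hsub)) v hv
      exact hTd.const_mul I)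
    (fun u hu => by
      refine (hreT u hu).congr fun v => ?_
      rw [Complex.I_mul_im])
  have hmem : ∀ u : ℝ, |u - x| < r → ball (x : ℂ) r ∈ 𝓝 (u : ℂ) := fun u hu =>
    isOpen_ball.mem_nhds (e8_mem_ball.2 hu)
  have hHa : ∀ u : ℝ, |u - x| < r → AnalyticAt ℂ H u := fun u hu => hHd.analyticAt (hmem u hu)
  have hcast : ∀ u : ℝ, |u - x| < r → ∀ᶠ w : ℝ in 𝓝 u, |w - x| < r := by
    intro u hu
    have : ContinuousAt (fun w : ℝ => |w - x|) u := by fun_prop
    exact this.eventually_lt_const hu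
  have hHreal : ∀ u : ℝ, |u - x| < r → ∀ᶠ w : ℝ in 𝓝 u, (H w).im = 0 := fun u hu =>
    (hcast u hu).mono fun w hw => hHr w hw
  have hHneg : ∀ z ∈ ball (x : ℂ) r, 0 < z.im → (H z).re < 0 := by
    intro z hz hz0
    rw [hHe z hz hz0, Complex.I_mul_re]
    have := (hv₁ z (hsub hz) hz0).2.2.1
    have e : (T z).im = (e4_lift 0 (X z)).im := rfl
    rw [e]; linarith
  have hHneg' : ∀ u : ℝ, |u - x| < r → ∀ᶠ v in 𝓝[UH] (u : ℂ), (H v).re < 0 := by
    intro u hu
    filter_upwards [self_mem_nhdsWithin, nhdsWithin_le_nhds (hmem u hu)] with v h2 h3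
    exact hHneg v h3 h2
  have hHlim : ∀ u : ℝ, |u - x| < r → Tendsto H (𝓝[UH] (u : ℂ)) (𝓝 (H u)) := fun u hu =>
    (hHa u hu).continuousAt.tendsto.mono_left nhdsWithin_le_nhds
  have hre0 : ∀ u : ℝ, |u - x| < r → (H u).re < 0 := by
    intro u hu
    have hnb := e8_neBot u
    have h2 : (H u).re ≤ 0 := by
      refine le_of_tendsto ((Complex.continuous_re.tendsto _).comp (hHlim u hu)) ?_
      exact (hHneg' u hu).mono fun v hv => hv.le
    rcases lt_or_eq_of_le h2 with h3 | h3
    · exact h3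
    · exfalso
      have := e9_ne_zero (hHa u hu) (hHreal u hu) (hHneg' u hu)
      exact this (Complex.ext h3 (hHr u hu))
  have hrey : ∀ u : ℝ, |u - x| < r → -y ≤ (H u).re := by
    intro u hu
    have hnb := e8_neBot u
    have hl : Tendsto (fun v => X v / (‖X v‖ : ℂ)) (𝓝[UH] (u : ℂ)) (𝓝 1) := by
      have := hlimΘ u (hu1 u hu)
      simpa using this
    have h2 := esc_slit h.y_pos (e8_esc h u) (fun K hK hKV => h.esc K hK hKV u) hl
    have h3 : Tendsto (fun v => Real.exp (Real.pi * (H v).re)) (𝓝[UH] (u : ℂ))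
        (𝓝 (Real.exp (Real.pi * (H u).re))) := by
      have : Tendsto (fun v => (H v).re) (𝓝[UH] (u : ℂ)) (𝓝 (H u).re) :=
        (Complex.continuous_re.tendsto _).comp (hHlim u hu)
      exact (Real.continuous_exp.tendsto _).comp (this.const_mul _)
    have h4 : ∀ η > 0, Real.exp (-Real.pi * y) - η ≤ Real.exp (Real.pi * (H u).re) := by
      intro η hη
      refine ge_of_tendsto h3 ?_
      filter_upwards [h2 η hη, self_mem_nhdsWithin, nhdsWithin_le_nhds (hmem u hu)] with v h5 h6 h7
      have h8 := (hv₁ v (hsub h7) h6)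
      have h9 : ‖X v‖ = Real.exp (Real.pi * (H v).re) := by
        rw [← h8.2.1, e4_norm_nome, hHe v h7 h6, Complex.I_mul_re]
        congr 1
        show -Real.pi * (e4_lift 0 (X v)).im = Real.pi * -(e4_lift 0 (X v)).im
        ring
      rw [← h9]; exact h5
    have h5 : Real.exp (-Real.pi * y) ≤ Real.exp (Real.pi * (H u).re) :=
      le_of_forall_pos_le_add fun η hη => by linarith [h4 η hη]
    have h6 := Real.exp_le_exp.1 h5
    by_contra hcon
    push Not at hcon
    nlinarith
  have hx0 : |x - x| < r := by simpa using hr0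
  set τ : ℂ → ℂ := fun v => -I * H v with hτ
  have hτre : ∀ v, (τ v).re = (H v).im := by intro v; simp [hτ]
  have hτim : ∀ v, (τ v).im = -(H v).re := by intro v; simp [hτ]
  refine ⟨r, hr0, τ, hHd.const_mul _, ?_, ?_, ?_⟩
  · intro v hv hv0
    have e : τ v = T v := by
      show -I * H v = T v
      rw [hHe v hv hv0, ← mul_assoc, neg_mul, Complex.I_mul_I]; simp
    rw [e]
    exact (hv₁ v (hsub hv) hv0).2.1.symm
  · intro u hu
    have hu' := e8_mem_ball.1 hu
    rw [hτre, hτim]
    exact ⟨hHr u hu', by linarith [hre0 u hu'], by linarith [hrey u hu']⟩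
  · intro hder
    have hderH : deriv H x = 0 := by
      have : deriv τ x = -I * deriv H x := by
        rw [hτ, deriv_const_mul_field]
      rw [this] at hder
      rcases mul_eq_zero.1 hder with h2 | h2
      · exact absurd h2 (neg_ne_zero.2 Complex.I_ne_zero)
      · exact h2
    have hHx : (H x).im = 0 := hHr x hx0
    have hFa : AnalyticAt ℂ (fun v => H v - H x) x := (hHa x hx0).sub analyticAt_const
    have hFreal : ∀ᶠ u : ℝ in 𝓝 x, (H u - H x).im = 0 := by
      filter_upwards [hHreal x hx0] with u hu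
      rw [Complex.sub_im, hHx, hu, sub_zero]
    -- the slit is omitted
    have hP : ∀ᶠ v in 𝓝[UH] (x : ℂ), (H v).im = 0 → (H v).re < -y := by
      filter_upwards [self_mem_nhdsWithin, nhdsWithin_le_nhds (hmem x hx0)] with v h2 h3 h4
      by_contra hcon
      push Not at hcon
      have h5 := (hv₁ v (hsub h3) h2)
      have h6 := e8_memV h h2
      apply h6.2.2
      have h7 : H v = I * T v := hHe v h3 h2
      have h8 : (T v).re = 0 := by rw [h7, Complex.I_mul_im] at h4; exact h4
      have h9 : (T v).im ≤ y := by rw [h7, Complex.I_mul_re] at hcon; linarith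
      refine ⟨(T v).im, h5.2.2.1, h9, ?_⟩
      have e : ((T v).im : ℂ) * I = T v := by
        apply Complex.ext
        · simp [h8]
        · simp
      rw [e]
      exact h5.2.1
    have hne : ¬ ∀ᶠ v in 𝓝 (x : ℂ), H v - H x = 0 := by
      intro hall
      have hnb := e8_neBot x
      -- H is constant near x, so -y > H x at a point above
      have h2 : ∀ᶠ v in 𝓝[UH] (x : ℂ), False := by
        filter_upwards [hP, nhdsWithin_le_nhds hall] with v h2 h3
        have h4 : H v = H x := sub_eq_zero.1 h3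
        rw [h4] at h2
        have := h2 hHx
        linarith [hrey x hx0]
      exact h2.exists.elim fun _ h => h
    obtain ⟨k, σ, ζ, κ, hk, hσ, hζa, hζ0, hκ, hζd, hF, hζr⟩ := e8_nf hFa (by simp) hne hFreal
    have hζr' : ∀ᶠ u : ℝ in 𝓝 x, (ζ u).im = 0 := hζr.mono fun u hu => hu.1
    have hκ0 : (κ : ℂ) ≠ 0 := by exact_mod_cast hκ.ne'
    have hk1 : k ≠ 1 := by
      intro hk1
      have hF' : (fun v => H v - H x) =ᶠ[𝓝 (x : ℂ)] fun v => (σ : ℂ) * ζ v := by
        filter_upwards [hF] with v hv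
        rw [hv, hk1, pow_one]
      have h2 := hF'.deriv_eq
      rw [deriv_sub_const, deriv_const_mul_field, hζd, hderH] at h2
      rcases mul_eq_zero.1 h2.symm with h3 | h3
      · rcases hσ with h4 | h4 <;> rw [h4] at h3 <;> simp at h3
      · exact hκ0 h3
    have hk2 : 2 ≤ k := by omega
    have hk2' : (2 : ℝ) ≤ k := by exact_mod_cast hk2
    have hk0 : (0 : ℝ) < k := by linarith
    have hPF := hP.and (nhdsWithin_le_nhds hF)
    have key : ∀ (φ s : ℝ), 0 < φ → φ < Real.pi → exp (((k * φ : ℝ) : ℂ) * I) = (s : ℂ) →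
        ∀ᶠ ε : ℝ in 𝓝[>] 0, (H x).re + σ * (ε ^ k * s) < -y := by
      intro φ s h2 h3 h4
      filter_upwards [e8_dir hζa hζ0 hζr' hκ hζd hPF h2 h3] with ε hε
      obtain ⟨v, hv, ⟨hPv, hFv⟩, hζv⟩ := hε
      have e : (k : ℂ) * (φ * I) = ((k * φ : ℝ) : ℂ) * I := by push_cast; ring
      rw [hζv, mul_pow, ← Complex.exp_nat_mul, e, h4] at hFv
      have e2 : H v = H x + ((σ * (ε ^ k * s) : ℝ) : ℂ) := by
        rw [sub_eq_iff_eq_add] at hFv
        rw [hFv]; push_cast; ring
      rw [e2] at hPv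
      have h5 := hPv (by rw [Complex.add_im, hHx, Complex.ofReal_im, add_zero])
      rwa [Complex.add_re, Complex.ofReal_re] at h5
    have hpos : ∀ᶠ ε : ℝ in 𝓝[>] 0, 0 < ε ^ k := by
      filter_upwards [self_mem_nhdsWithin] with ε hε
      exact pow_pos hε k
    have hbad : ¬ ∀ᶠ ε : ℝ in 𝓝[>] 0, (H x).re + ε ^ k < -y := by
      intro hall
      obtain ⟨ε, h2, h3⟩ := (hall.and hpos).exists
      linarith [hrey x hx0]
    have hσ1 : σ = 1 := by
      rcases hσ with h2 | h2
      · exact h2
      · exfalso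
        have := key (Real.pi / k) (-1) (by positivity) (by
          rw [div_lt_iff₀ hk0]; nlinarith) (by
            have e : (k : ℝ) * (Real.pi / k) = Real.pi := by field_simp
            rw [e, Complex.exp_pi_mul_I]; push_cast; ring)
        apply hbad
        filter_upwards [this] with ε hε
        rw [h2] at hε
        linarith
    have hk22 : k = 2 := by
      by_contra hk3
      have hk3' : 3 ≤ k := by omega
      have hk3'' : (3 : ℝ) ≤ k := by exact_mod_cast hk3'
      have := key (2 * Real.pi / k) 1 (by positivity) (by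
        rw [div_lt_iff₀ hk0]; nlinarith) (by
          have e : (k : ℝ) * (2 * Real.pi / k) = 2 * Real.pi := by field_simp
          rw [e]; push_cast; exact Complex.exp_two_pi_mul_I)
      apply hbad
      filter_upwards [this] with ε hε
      rw [hσ1] at hε
      linarith
    have hHxy : (H x).re = -y := by
      have h2 := key (Real.pi / 2) (-1) (by positivity) (by linarith) (by
        rw [hk22]
        have e : ((2 : ℕ) : ℝ) * (Real.pi / 2) = Real.pi := by push_cast; ring
        rw [e, Complex.exp_pi_mul_I]; push_cast; ring)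
      have h3 : Tendsto (fun ε : ℝ => (H x).re + σ * (ε ^ k * (-1))) (𝓝[>] 0)
          (𝓝 ((H x).re + σ * (0 ^ k * (-1)))) := by
        have : ContinuousAt (fun ε : ℝ => (H x).re + σ * (ε ^ k * (-1))) 0 := by fun_prop
        exact this.tendsto.mono_left nhdsWithin_le_nhds
      have h4 := le_of_tendsto h3 (h2.mono fun ε hε => hε.le)
      rw [zero_pow (by omega)] at h4
      have := hrey x hx0
      linarith
    refine ⟨?_, ?_⟩
    · have h2 : deriv τ = fun v => -I * deriv H v := by
        funext v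
        rw [hτ, deriv_const_mul_field]
      rw [h2, deriv_const_mul_field]
      refine mul_ne_zero (neg_ne_zero.2 Complex.I_ne_zero) ?_
      have hF' : (fun v => H v - H x) =ᶠ[𝓝 (x : ℂ)] fun v => ζ v ^ 2 := by
        filter_upwards [hF] with v hv
        rw [hv, hσ1, hk22]; simp
      have hF2 : deriv H =ᶠ[𝓝 (x : ℂ)] fun v => 2 * ζ v * deriv ζ v := by
        have h3 := hF'.deriv
        have h4 : ∀ᶠ v in 𝓝 (x : ℂ), AnalyticAt ℂ ζ v := hζa.eventually_analyticAt
        filter_upwards [h3, h4] with v h5 h6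
        rw [deriv_sub_const] at h5
        rw [h5]
        have h7 : HasDerivAt (fun v => ζ v ^ 2) (((2 : ℕ) : ℂ) * ζ v ^ (2 - 1) * deriv ζ v) v :=
          (h6.differentiableAt.hasDerivAt).pow 2
        rw [h7.deriv]
        push_cast
        ring
      rw [hF2.deriv_eq]
      have h8 : HasDerivAt (fun v => 2 * ζ v * deriv ζ v)
          (2 * deriv ζ x * deriv ζ x + 2 * ζ x * deriv (deriv ζ) x) x :=
        (hζa.differentiableAt.hasDerivAt.const_mul 2).mul hζa.deriv.differentiableAt.hasDerivAt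
      rw [h8.deriv, hζ0, hζd]
      simp only [mul_zero, zero_mul, add_zero]
      exact mul_ne_zero (mul_ne_zero two_ne_zero hκ0) hκ0
    · apply Complex.ext
      · rw [hτre, hHx]; simp
      · rw [hτim, hHxy]; simp

end Pool.Agent.Choc
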