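import Pool.Agent.Lib.MP_2b3e36_an.Ex.Defs

/-!
W1. The Joukowski map `jou z = -(z+1/z)/2` and its inverse on the upper half plane.

For `v ≠ 0` put `w = -1/v` and `jinv v = w / (1 + (1 - w^2)^(1/2))` (principal root). Facts.
(a) `Om 1` is mapped bijectively onto `UH` by `jou`, with inverse `jinv`:
for `z = ρ exp (iθ)`, `jou z = -(ρ + 1/ρ) cos θ / 2 + i (1/ρ - ρ) sin θ / 2`. For `v ∈ UH` the equation
`z^2 + 2 v z + 1 = 0` has two roots with product `1`, not of modulus `1` (a root `exp (iθ)` gives the real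
value `jou = - cos θ`), so exactly one in the unit disc, and it has positive imaginary part by the
formula above. `jinv v` is this root: `w` is not real, so `1 - w^2` is not in `(-∞, 0]` (if `1 - w^2 = -t ≤ 0`
then `w` is real), the root `R` has `Re R > 0`; `z = w/(1+R)` satisfies `z (1+R) = w`,
`z^2 w... `: from `R^2 = 1 - w^2` one gets `w z^2 - 2 z + w = 0`, i.e. `2 z/(1+z^2) = w`, `jou z = -1/w = v`;
and `|z| < 1` since the other root is `w/(1-R)` and `|1 + R| > |1 - R|`.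
(b) `jinv` is holomorphic on `UH`.
(c) boundary: for real `x < -1`, `jinv` extends holomorphically to a neighbourhood of `x` (`w ∈ (0,1)`) by
the same formula, is real there on the reals with values in `(0,1)`; for `x > 1` values in `(-1, 0)`.
For `-1 ≤ x ≤ 1`: `jinv v → z₁` as `v → x` in `UH`, with `z₁ = - x + i sqrt (1 - x^2)`
(`‖z₁‖ = 1`, `Im z₁ ≥ 0`): the two roots of `z^2 + 2vz + 1` depend continuously on `v`; both limits have
modulus `1` and are conjugate, and `Im (jinv v) > 0`.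
(c') `jaux_slit`: if `u` is not on the two rays then `1 - u^2 ∉ (-∞, 0]`, `Re R > 0` for `R = (1-u^2)^(1/2)`,
same computation; `|1+R| > |1-R|` and `|u|^2 = |1+R||1-R|` give `|jaux u| < 1`; differentiating
`2 z = u (1 + z^2)`: `2 z' (1 - u z) = 1 + z^2`, and `1 + z^2 ≠ 0` as `|z| < 1`.
(d) at infinity: in the chart `v = -1/u`, `jinv (-1/u) = u/(1 + (1 - u^2)^(1/2))` is holomorphic for
`|u| < 1`, vanishes at `0` with derivative `1/2`, real on the reals, positive imaginary part for `u ∈ UH`.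
-/

set_option autoImplicit false

open Complex Set Filter Topology Metric

namespace Pool.Agent.Choc

noncomputable section

/-- The function `u / (1 + sqrt (1 - u^2))`. -/
def jaux (u : ℂ) : ℂ := u / (1 + (1 - u ^ 2) ^ ((1 : ℂ) / 2))

/-- The inverse of the Joukowski map. -/
def jinv (v : ℂ) : ℂ := jaux (-1 / v)

theorem w1_slit {u : ℂ} (hu : ¬(u.im = 0 ∧ 1 ≤ |u.re|)) : 1 - u ^ 2 ∈ slitPlane := by
  rw [Complex.mem_slitPlane_iff]
  have hre : (1 - u ^ 2).re = 1 - u.re ^ 2 + u.im ^ 2 := by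
    simp only [pow_two, Complex.sub_re, Complex.one_re, Complex.mul_re]; ring
  have him : (1 - u ^ 2).im = -2 * (u.re * u.im) := by
    simp only [pow_two, Complex.sub_im, Complex.one_im, Complex.mul_im]; ring
  rw [hre, him]
  by_cases h0 : u.im = 0
  · left
    have h1 : |u.re| < 1 := not_le.1 fun h => hu ⟨h0, h⟩
    have h2 : u.re ^ 2 < 1 := by
      rw [← sq_abs]
      nlinarith [abs_nonneg u.re]
    rw [h0]
    nlinarith
  · by_cases h1 : u.re = 0
    · left
      rw [h1]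
      nlinarith [sq_nonneg u.im]
    · right
      exact mul_ne_zero (by norm_num) (mul_ne_zero h1 h0)

theorem w1_sqrt_re {x : ℂ} (hx : x ∈ slitPlane) : 0 < (x ^ ((1 : ℂ) / 2)).re := by
  have h0 : x ≠ 0 := Complex.slitPlane_ne_zero hx
  have harg : x.arg ≠ Real.pi := (Complex.mem_slitPlane_iff_arg.1 hx).1
  rw [Complex.cpow_def_of_ne_zero h0, Complex.exp_re]
  refine mul_pos (Real.exp_pos _) ?_
  have h1 : (log x * (1 / 2)).im = x.arg / 2 := by
    have e : log x * (1 / 2) = log x * ((1 / 2 : ℝ) : ℂ) := by push_cast; ring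
    rw [e, Complex.im_mul_ofReal, Complex.log_im]
    ring
  rw [h1]
  have h2 : x.arg < Real.pi := lt_of_le_of_ne (Complex.arg_le_pi x) harg
  have h3 := Complex.neg_pi_lt_arg x
  exact Real.cos_pos_of_mem_Ioo ⟨by linarith, by linarith⟩

theorem w1_sqrt_sq (x : ℂ) : (x ^ ((1 : ℂ) / 2)) ^ 2 = x := by
  rw [one_div]
  exact Complex.cpow_ofNat_inv_pow x 2

theorem w1_open : IsOpen {u : ℂ | ¬(u.im = 0 ∧ 1 ≤ |u.re|)} := by
  have h1 : IsClosed {u : ℂ | u.im = 0 ∧ 1 ≤ |u.re|} :=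
    (isClosed_eq Complex.continuous_im continuous_const).inter
      (isClosed_le continuous_const Complex.continuous_re.abs)
  exact h1.isOpen_compl

theorem w1_one_add {u : ℂ} (hu : ¬(u.im = 0 ∧ 1 ≤ |u.re|)) :
    1 + (1 - u ^ 2) ^ ((1 : ℂ) / 2) ≠ 0 := by
  intro h
  have h1 := congrArg Complex.re h
  rw [Complex.add_re, Complex.one_re, Complex.zero_re] at h1
  have h2 := w1_sqrt_re (w1_slit hu)
  linarith

theorem w1_eq {u : ℂ} (hu : ¬(u.im = 0 ∧ 1 ≤ |u.re|)) :
    2 * jaux u = u * (1 + jaux u ^ 2) := by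
  have h1 := w1_one_add hu
  have h2 := w1_sqrt_sq (1 - u ^ 2)
  unfold jaux
  set R := (1 - u ^ 2) ^ ((1 : ℂ) / 2) with hR
  field_simp
  linear_combination (-u) * h2

theorem w1_norm {u : ℂ} (hu : ¬(u.im = 0 ∧ 1 ≤ |u.re|)) : ‖jaux u‖ < 1 := by
  have h1 := w1_one_add hu
  have h2 := w1_sqrt_sq (1 - u ^ 2)
  have h3 := w1_sqrt_re (w1_slit hu)
  unfold jaux
  set R := (1 - u ^ 2) ^ ((1 : ℂ) / 2) with hR
  have hpos : 0 < ‖1 + R‖ := norm_pos_iff.2 h1
  rw [norm_div, div_lt_one hpos]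
  have h4 : ‖u‖ ^ 2 = ‖1 - R‖ * ‖1 + R‖ := by
    rw [← norm_pow, ← norm_mul]
    congr 1
    linear_combination h2
  have h5 : ‖1 - R‖ < ‖1 + R‖ := by
    have h6 : ‖1 - R‖ ^ 2 < ‖1 + R‖ ^ 2 := by
      rw [← Complex.normSq_eq_norm_sq, ← Complex.normSq_eq_norm_sq, Complex.normSq_apply,
        Complex.normSq_apply]
      simp only [Complex.sub_re, Complex.sub_im, Complex.add_re, Complex.add_im, Complex.one_re,
        Complex.one_im]
      nlinarith
    exact lt_of_pow_lt_pow_left₀ 2 (norm_nonneg _) h6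
  have h7 : ‖u‖ ^ 2 < ‖1 + R‖ ^ 2 := by
    rw [h4]
    nlinarith
  exact lt_of_pow_lt_pow_left₀ 2 (norm_nonneg _) h7

theorem w1_diff {u : ℂ} (hu : ¬(u.im = 0 ∧ 1 ≤ |u.re|)) : DifferentiableAt ℂ jaux u := by
  have h1 := w1_one_add hu
  have h2 : DifferentiableAt ℂ (fun u : ℂ => (1 - u ^ 2) ^ ((1 : ℂ) / 2)) u := by
    refine DifferentiableAt.cpow ?_ (differentiableAt_const _) (w1_slit hu)
    fun_prop
  unfold jaux
  exact differentiableAt_id.div ((differentiableAt_const _).add h2) h1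

theorem w1_deriv {u : ℂ} (hu : ¬(u.im = 0 ∧ 1 ≤ |u.re|)) :
    2 * deriv jaux u * (1 - u * jaux u) = 1 + jaux u ^ 2 := by
  have h1 := (w1_diff hu).hasDerivAt
  have h2 : HasDerivAt (fun y => 2 * jaux y) (2 * deriv jaux u) u := h1.const_mul 2
  have h3 : HasDerivAt (fun y => y * (1 + jaux y ^ 2))
      (1 * (1 + jaux u ^ 2) + u * (((2 : ℕ) : ℂ) * jaux u ^ (2 - 1) * deriv jaux u)) u := by
    have h4 := (h1.pow 2).const_add 1
    exact (hasDerivAt_id' u).mul h4
  have h6 : (fun y => 2 * jaux y) =ᶠ[𝓝 u] fun y => y * (1 + jaux y ^ 2) := by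
    filter_upwards [w1_open.mem_nhds hu] with y hy using w1_eq hy
  have h7 := h2.unique (h3.congr_of_eventuallyEq h6)
  norm_num at h7
  linear_combination h7

theorem w1_one_add_sq {z : ℂ} (h : ‖z‖ < 1) : 1 + z ^ 2 ≠ 0 := by
  intro h1
  have h2 : z ^ 2 = -1 := by linear_combination h1
  have h3 : ‖z‖ ^ 2 = 1 := by rw [← norm_pow, h2, norm_neg, norm_one]
  nlinarith [norm_nonneg z]

theorem w1_conj {u : ℂ} (hu : ¬(u.im = 0 ∧ 1 ≤ |u.re|)) :
    jaux (starRingEnd ℂ u) = starRingEnd ℂ (jaux u) := by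
  have h1 : (1 - u ^ 2).arg ≠ Real.pi := (Complex.mem_slitPlane_iff_arg.1 (w1_slit hu)).1
  have h2 := Complex.conj_cpow (1 - u ^ 2) ((1 : ℂ) / 2) h1
  have h3 : starRingEnd ℂ ((1 : ℂ) / 2) = 1 / 2 := by
    rw [map_div₀, map_one, map_ofNat (starRingEnd ℂ) 2]
  rw [h3] at h2
  unfold jaux
  rw [map_div₀, map_add, map_one, ← h2, map_sub, map_one, map_pow]

theorem w1_im_eq {u z : ℂ} (h : 2 * z = u * (1 + z ^ 2)) :
    u.im * Complex.normSq (1 + z ^ 2) = 2 * (z.im * (1 - Complex.normSq z)) := by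
  have h1 : u * (Complex.normSq (1 + z ^ 2) : ℂ) = 2 * (z * starRingEnd ℂ (1 + z ^ 2)) := by
    rw [Complex.normSq_eq_conj_mul_self]
    linear_combination (-starRingEnd ℂ (1 + z ^ 2)) * h
  have h2 := congrArg Complex.im h1
  rw [Complex.im_mul_ofReal] at h2
  rw [h2]
  simp only [Complex.normSq_apply, pow_two, map_add, map_one, map_mul, Complex.mul_im,
    Complex.mul_re, Complex.add_re, Complex.add_im, Complex.one_re, Complex.one_im,
    Complex.conj_re, Complex.conj_im, Complex.re_ofNat, Complex.im_ofNat]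
  ring

theorem w1_off {u : ℂ} (h : 0 < u.im) : ¬(u.im = 0 ∧ 1 ≤ |u.re|) := fun h1 => h.ne' h1.1

theorem w1_jaux_im {u : ℂ} (h : 0 < u.im) : 0 < (jaux u).im ∧ ‖jaux u‖ < 1 := by
  have hu := w1_off h
  have h1 := w1_eq hu
  have h2 := w1_norm hu
  refine ⟨?_, h2⟩
  have h3 := w1_im_eq h1
  have h4 : 0 < Complex.normSq (1 + jaux u ^ 2) := Complex.normSq_pos.2 (w1_one_add_sq h2)
  have h5 : Complex.normSq (jaux u) < 1 := by
    rw [Complex.normSq_eq_norm_sq]
    nlinarith [norm_nonneg (jaux u)]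
  have h6 : 0 < (jaux u).im * (1 - Complex.normSq (jaux u)) := by
    have := mul_pos h h4
    linarith
  exact (mul_pos_iff_of_pos_right (by linarith)).1 h6

theorem w1_neg_inv_im (v : ℂ) : (-1 / v).im = v.im / Complex.normSq v := by
  rw [neg_div, one_div, Complex.neg_im, Complex.inv_im]
  ring

theorem w1_neg_inv_re (v : ℂ) : (-1 / v).re = -(v.re / Complex.normSq v) := by
  rw [neg_div, one_div, Complex.neg_re, Complex.inv_re]

theorem w1_neg_inv_pos {v : ℂ} (hv : 0 < v.im) : 0 < (-1 / v).im := by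
  rw [w1_neg_inv_im]
  have h0 : v ≠ 0 := by
    rintro rfl
    simp at hv
  exact div_pos hv (Complex.normSq_pos.2 h0)

theorem w1_inv_off {v : ℂ} (hv : ¬(v.im = 0 ∧ |v.re| ≤ 1)) :
    v ≠ 0 ∧ ¬((-1 / v).im = 0 ∧ 1 ≤ |(-1 / v).re|) := by
  have h0 : v ≠ 0 := by
    rintro rfl
    exact hv (by simp)
  refine ⟨h0, ?_⟩
  rintro ⟨h1, h2⟩
  have hn : 0 < Complex.normSq v := Complex.normSq_pos.2 h0
  rw [w1_neg_inv_im] at h1
  have h3 : v.im = 0 := by
    rcases div_eq_zero_iff.1 h1 with h | h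
    · exact h
    · exact absurd h hn.ne'
  apply hv
  refine ⟨h3, ?_⟩
  rw [w1_neg_inv_re, abs_neg, abs_div, abs_of_pos hn, le_div_iff₀ hn, one_mul,
    Complex.normSq_apply, h3] at h2
  have h4 : |v.re| * |v.re| ≤ |v.re| := by
    rw [abs_mul_abs_self]
    linarith
  have h5 : 0 < |v.re| := by
    rw [abs_pos]
    intro h6
    exact h0 (Complex.ext h6 h3)
  by_contra hc
  have h6 : 1 < |v.re| := not_le.1 hc
  nlinarith

theorem jou_im {z : ℂ} (h1 : ‖z‖ < 1) (h2 : 0 < z.im) : 0 < (jou z).im := by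
  have h0 : z ≠ 0 := by
    rintro rfl
    simp at h2
  have hn : 0 < Complex.normSq z := Complex.normSq_pos.2 h0
  have hn1 : Complex.normSq z < 1 := by
    rw [Complex.normSq_eq_norm_sq]
    nlinarith [norm_nonneg z]
  have e : (jou z).im = (z.im / Complex.normSq z - z.im) / 2 := by
    unfold jou
    have e1 : -(z + z⁻¹) / 2 = (-(z + z⁻¹)) * ((1 / 2 : ℝ) : ℂ) := by push_cast; ring
    rw [e1, Complex.im_mul_ofReal, Complex.neg_im, Complex.add_im, Complex.inv_im]
    ring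
  rw [e]
  have h3 : z.im < z.im / Complex.normSq z := by
    rw [lt_div_iff₀ hn]
    nlinarith
  linarith

theorem jinv_mem {v : ℂ} (hv : 0 < v.im) : ‖jinv v‖ < 1 ∧ 0 < (jinv v).im := by
  have h := w1_jaux_im (w1_neg_inv_pos hv)
  exact ⟨h.2, h.1⟩

theorem jou_jinv {v : ℂ} (hv : 0 < v.im) : jou (jinv v) = v := by
  have h0 : v ≠ 0 := by
    rintro rfl
    simp at hv
  have h1 := w1_eq (w1_off (w1_neg_inv_pos hv))
  have h2 := (jinv_mem hv).2
  have hz : jinv v ≠ 0 := by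
    intro h
    rw [h] at h2
    simp at h2
  have h3 : 2 * jinv v = (-1 / v) * (1 + jinv v ^ 2) := h1
  unfold jou
  field_simp at h3 ⊢
  linear_combination -h3

theorem jinv_jou {z : ℂ} (h1 : ‖z‖ < 1) (h2 : 0 < z.im) : jinv (jou z) = z := by
  have hv := jou_im h1 h2
  have h3 := jou_jinv hv
  obtain ⟨h4, h5⟩ := jinv_mem hv
  set w := jinv (jou z) with hw
  have hz0 : z ≠ 0 := by
    rintro rfl
    simp at h2
  have hw0 : w ≠ 0 := by
    intro h
    rw [h] at h5
    simp at h5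
  unfold jou at h3
  have h6 : (w - z) * (w * z - 1) = 0 := by
    field_simp at h3
    linear_combination -h3
  rcases mul_eq_zero.1 h6 with h | h
  · linear_combination h
  · exfalso
    have h7 : w * z = 1 := by linear_combination h
    have h8 : ‖w‖ * ‖z‖ = 1 := by rw [← norm_mul, h7, norm_one]
    have h9 : ‖w‖ * ‖z‖ < 1 := by
      nlinarith [norm_nonneg w, norm_nonneg z]
    linarith

/-- `jinv` is holomorphic off the segment `[-1,1]`. -/
theorem jinv_diffAt {v : ℂ} (hv : ¬(v.im = 0 ∧ |v.re| ≤ 1)) : DifferentiableAt ℂ jinv v := by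
  obtain ⟨h0, h1⟩ := w1_inv_off hv
  have h2 : DifferentiableAt ℂ (fun v : ℂ => -1 / v) v :=
    (differentiableAt_const _).div differentiableAt_id h0
  exact (w1_diff h1).comp v h2

theorem jinv_diff : DifferentiableOn ℂ jinv UH := by
  intro v hv
  have hv' : 0 < v.im := hv
  exact (jinv_diffAt (fun h => hv'.ne' h.1)).differentiableWithinAt

theorem jinv_deriv_ne {v : ℂ} (hv : 0 < v.im) : deriv jinv v ≠ 0 := by
  have h0 : v ≠ 0 := by
    rintro rfl
    simp at hv
  have hw := w1_off (w1_neg_inv_pos hv)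
  have h1 := (w1_diff hw).hasDerivAt
  have h2 : HasDerivAt (fun v : ℂ => -1 / v) (1 / v ^ 2) v := by
    have h3 := (hasDerivAt_inv h0).neg
    have h4 : (fun v : ℂ => -1 / v) = fun v => -v⁻¹ := by
      funext v; rw [neg_div, one_div]
    rw [h4]
    have h5 : (1 : ℂ) / v ^ 2 = -(-(v ^ 2)⁻¹) := by rw [neg_neg, one_div]
    rw [h5]
    exact h3
  have h3 : HasDerivAt jinv (deriv jaux (-1 / v) * (1 / v ^ 2)) v := h1.comp v h2
  rw [h3.deriv]
  have h4 := w1_deriv hw
  have h5 : deriv jaux (-1 / v) ≠ 0 := by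
    intro h
    rw [h, mul_zero, zero_mul] at h4
    exact w1_one_add_sq (w1_norm hw) h4.symm
  exact mul_ne_zero h5 (one_div_ne_zero (pow_ne_zero 2 h0))

theorem w1_real {u : ℝ} (hu : |u| < 1) : ∃ t : ℝ, jaux u = t ∧ |t| < 1 ∧
    2 * t = u * (1 + t ^ 2) := by
  have hoff : ¬((u : ℂ).im = 0 ∧ 1 ≤ |(u : ℂ).re|) := by
    rintro ⟨-, h⟩
    rw [Complex.ofReal_re] at h
    linarith
  have h1 := w1_conj hoff
  rw [Complex.conj_ofReal] at h1
  have h2 : (jaux u).im = 0 := by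
    have := congrArg Complex.im h1
    rw [Complex.conj_im] at this
    linarith
  have h3 : jaux u = ((jaux u).re : ℂ) := by
    apply Complex.ext
    · simp
    · simp [h2]
  refine ⟨(jaux u).re, h3, ?_, ?_⟩
  · have h4 := w1_norm hoff
    rw [h3, Complex.norm_real] at h4
    exact h4
  · have h4 := w1_eq hoff
    rw [h3] at h4
    have h5 : ((2 * (jaux u).re : ℝ) : ℂ) = ((u * (1 + (jaux u).re ^ 2) : ℝ) : ℂ) := by
      push_cast
      exact h4
    exact_mod_cast h5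

theorem jinv_left {x : ℝ} (hx : x < -1) : DifferentiableAt ℂ jinv x ∧ (jinv x).im = 0 ∧
    0 < (jinv x).re ∧ (jinv x).re < 1 := by
  have hx0 : x < 0 := by linarith
  have hu1 : 0 < -1 / x := div_pos_of_neg_of_neg (by norm_num) hx0
  have hu2 : -1 / x < 1 := by
    rw [div_lt_one_of_neg hx0]
    exact hx
  obtain ⟨t, ht1, ht2, ht3⟩ := w1_real (u := -1 / x) (by rw [abs_of_pos hu1]; exact hu2)
  have h1 : jinv x = t := by
    unfold jinv
    rw [← ht1]
    push_cast
    rfl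
  refine ⟨jinv_diffAt ?_, ?_, ?_, ?_⟩
  · rintro ⟨-, h⟩
    rw [Complex.ofReal_re, abs_of_neg hx0] at h
    linarith
  · rw [h1, Complex.ofReal_im]
  · rw [h1, Complex.ofReal_re]
    have : 0 < -1 / x * (1 + t ^ 2) := mul_pos hu1 (by positivity)
    linarith
  · rw [h1, Complex.ofReal_re]
    exact (abs_lt.1 ht2).2

theorem jinv_right {x : ℝ} (hx : 1 < x) : DifferentiableAt ℂ jinv x ∧ (jinv x).im = 0 ∧
    -1 < (jinv x).re ∧ (jinv x).re < 0 := by
  have hx0 : 0 < x := by linarith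
  have hu1 : -1 / x < 0 := div_neg_of_neg_of_pos (by norm_num) hx0
  have hu2 : -1 < -1 / x := by
    rw [lt_div_iff₀ hx0]
    linarith
  obtain ⟨t, ht1, ht2, ht3⟩ := w1_real (u := -1 / x) (by rw [abs_of_neg hu1]; linarith)
  have h1 : jinv x = t := by
    unfold jinv
    rw [← ht1]
    push_cast
    rfl
  refine ⟨jinv_diffAt ?_, ?_, ?_, ?_⟩
  · rintro ⟨-, h⟩
    rw [Complex.ofReal_re, abs_of_pos hx0] at h
    linarith
  · rw [h1, Complex.ofReal_im]
  · rw [h1, Complex.ofReal_re]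
    exact (abs_lt.1 ht2).1
  · rw [h1, Complex.ofReal_re]
    have : -1 / x * (1 + t ^ 2) < 0 := mul_neg_of_neg_of_pos hu1 (by positivity)
    linarith

theorem jinv_inner {x : ℝ} (h1 : -1 ≤ x) (h2 : x ≤ 1) :
    Tendsto jinv (𝓝[UH] (x : ℂ)) (𝓝 (-x + Real.sqrt (1 - x ^ 2) * I)) := by
  set ζ : ℂ := -x + Real.sqrt (1 - x ^ 2) * I with hζ
  have hs : Real.sqrt (1 - x ^ 2) ^ 2 = 1 - x ^ 2 := Real.sq_sqrt (by nlinarith)
  have hs0 : 0 ≤ Real.sqrt (1 - x ^ 2) := Real.sqrt_nonneg _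
  have hζre : ζ.re = -x := by rw [hζ]; simp
  have hζim : ζ.im = Real.sqrt (1 - x ^ 2) := by rw [hζ]; simp
  have key : ∀ v : ℂ, 0 < v.im → dist (jinv v) ζ ≤ Real.sqrt (2 * dist v x) := by
    intro v hv
    obtain ⟨hz1, hz2⟩ := jinv_mem hv
    have hz3 := jou_jinv hv
    set z := jinv v with hz
    have hz0 : z ≠ 0 := by
      intro h
      rw [h] at hz2
      simp at hz2
    have hq : z ^ 2 + 2 * v * z + 1 = 0 := by
      rw [← hz3]
      unfold jou
      field_simp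
      ring
    have hprod : (z - ζ) * (z - starRingEnd ℂ ζ) = 2 * ((x : ℂ) - v) * z := by
      have e1 : ζ + starRingEnd ℂ ζ = -2 * (x : ℂ) := by
        apply Complex.ext
        · rw [Complex.add_re, Complex.conj_re, hζre]
          simp
          ring
        · rw [Complex.add_im, Complex.conj_im]
          simp
      have e2 : ζ * starRingEnd ℂ ζ = 1 := by
        rw [Complex.mul_conj, Complex.normSq_apply, hζre, hζim]
        have : -x * -x + Real.sqrt (1 - x ^ 2) * Real.sqrt (1 - x ^ 2) = 1 := by nlinarith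
        rw [this]
        simp
      linear_combination hq - z * e1 + e2
    have hle : ‖z - ζ‖ ≤ ‖z - starRingEnd ℂ ζ‖ := by
      have h3 : ‖z - ζ‖ ^ 2 ≤ ‖z - starRingEnd ℂ ζ‖ ^ 2 := by
        rw [← Complex.normSq_eq_norm_sq, ← Complex.normSq_eq_norm_sq, Complex.normSq_apply,
          Complex.normSq_apply]
        simp only [Complex.sub_re, Complex.sub_im, Complex.conj_re, Complex.conj_im]
        rw [hζim]
        nlinarith [mul_nonneg hz2.le hs0]
      exact le_of_sq_le_sq h3 (norm_nonneg _)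
    apply Real.le_sqrt_of_sq_le
    rw [dist_eq_norm, dist_eq_norm]
    calc ‖z - ζ‖ ^ 2 = ‖z - ζ‖ * ‖z - ζ‖ := by ring
      _ ≤ ‖z - ζ‖ * ‖z - starRingEnd ℂ ζ‖ := mul_le_mul_of_nonneg_left hle (norm_nonneg _)
      _ = ‖2 * ((x : ℂ) - v) * z‖ := by rw [← norm_mul, hprod]
      _ = 2 * ‖(x : ℂ) - v‖ * ‖z‖ := by rw [norm_mul, norm_mul]; simp
      _ ≤ 2 * ‖(x : ℂ) - v‖ * 1 := mul_le_mul_of_nonneg_left hz1.le (by positivity)
      _ = 2 * ‖v - x‖ := by rw [mul_one, norm_sub_rev]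
  rw [tendsto_iff_dist_tendsto_zero]
  have hlim : Tendsto (fun v : ℂ => Real.sqrt (2 * dist v x)) (𝓝[UH] (x : ℂ)) (𝓝 0) := by
    have hc : Continuous (fun v : ℂ => Real.sqrt (2 * dist v x)) :=
      Real.continuous_sqrt.comp (continuous_const.mul (continuous_id.dist continuous_const))
    have h3 := hc.tendsto (x : ℂ)
    simp only [dist_self, mul_zero, Real.sqrt_zero] at h3
    exact h3.mono_left nhdsWithin_le_nhds
  refine squeeze_zero' (Eventually.of_forall fun _ => dist_nonneg) ?_ hlim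
  filter_upwards [self_mem_nhdsWithin] with v hv using key v hv

theorem w1_ball_off {u : ℂ} (hu : u ∈ ball (0 : ℂ) 1) : ¬(u.im = 0 ∧ 1 ≤ |u.re|) := by
  rintro ⟨-, h⟩
  rw [mem_ball_zero_iff] at hu
  have := Complex.abs_re_le_norm u
  linarith

theorem jaux_diff : DifferentiableOn ℂ jaux (ball 0 1) := by
  intro u hu
  exact (w1_diff (w1_ball_off hu)).differentiableWithinAt

theorem jaux_zero : jaux 0 = 0 := by
  simp [jaux]

theorem jaux_hasDerivAt : HasDerivAt jaux (1 / 2) 0 := by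
  have hoff : ¬((0 : ℂ).im = 0 ∧ 1 ≤ |(0 : ℂ).re|) := w1_ball_off (by simp)
  have h1 := (w1_diff hoff).hasDerivAt
  have h2 := w1_deriv hoff
  rw [jaux_zero] at h2
  have h3 : deriv jaux 0 = 1 / 2 := by
    linear_combination h2 / 2
  rw [h3] at h1
  exact h1

theorem jaux_im {u : ℂ} (h : 0 < u.im) : 0 < (jaux u).im ∧ ‖jaux u‖ < 1 := by
  exact w1_jaux_im h

/-- On the plane without the two rays `(-∞,-1]` and `[1,∞)`. -/
theorem jaux_slit {u : ℂ} (hu : ¬(u.im = 0 ∧ 1 ≤ |u.re|)) :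
    DifferentiableAt ℂ jaux u ∧ deriv jaux u ≠ 0 ∧ ‖jaux u‖ < 1 ∧
    jaux (starRingEnd ℂ u) = starRingEnd ℂ (jaux u) ∧ 2 * jaux u = u * (1 + jaux u ^ 2) := by
  refine ⟨w1_diff hu, ?_, w1_norm hu, w1_conj hu, w1_eq hu⟩
  intro h
  have h4 := w1_deriv hu
  rw [h, mul_zero, zero_mul] at h4
  exact w1_one_add_sq (w1_norm hu) h4.symm

end

end Pool.Agent.Choc
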