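import Pool.Agent.Lib.MP_2b3e36_an.Ex.T5
import Pool.Agent.Lib.MP_2b3e36_an.Ex.W1

/-!
F1. The extremal function `f = J ∘ X ∘ jou` on the unit disc.

Proof. On `Om 1` put `f z = J (X (jou z))`, on the lower half disc `f z = conj (f (conj z))`. For every real
`x0 ∈ (-1,1)` there is a holomorphic `F` on a ball about `x0`, real on the reals, equal to `f` on the upper
part of the ball: for `0 < x0`: `jou x0 < -1` and `F = J (nome (τ (jou z)))` with `τ` from `Model.slit`; real on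
the reals, with values in `(0,1)`: `nome τ ∈ (0,1)` (`J_Ioo`). For `x0 < 0`: `jou x0 > 1`,
`F = J (nome (τ (jou z)))` with `Model.arc`: negative real values (`J_geo`). For `x0 = 0`: with the chart
`u = -1/jou z = 2 z/(1+z^2)` and `p` from `Model.infty`: `X = nome (-1/s)`, `s = log p/(pi i)`,
`J X = 1 - J (nome s) = 1 - J (p u)` (`J_inv`): `F z = 1 - J (p (2z/(1+z^2)))`, real on the reals (`p` is),
`F 0 = 0`, `F' 0 = 16 * κ * 2 > 0`.
By the Schwarz reflection `F (conj z) = conj (F z)` (identity theorem), so `F = f` on the lower part too: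
define `f` on the reals by `F`. Then `f` is holomorphic on the unit disc and real.
Zeros: `J ≠ 0`, so only real ones; at `0 < x0` values in `(0,1)`, at `x0 < 0` negative values; `f 0 = 0`.
Ones: on `Om 1` `J (X (jou z)) = 1` iff `X (jou z) = 0` iff `jou z = v₀` iff `z = jinv v₀ = b`.
`deriv f b = J'(0) X'(v₀) jou'(b) ≠ 0` (`jou' b = -(1 - 1/b^2)/2 ≠ 0`).
-/

set_option autoImplicit false

open Complex Set Filter Topology Metric

namespace Pool.Agent.Choc

/-- The function on the upper half disc. -/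
noncomputable def f1_g (X : ℂ → ℂ) (z : ℂ) : ℂ := J (X (jou z))

/-- The extremal function. -/
noncomputable def f1_f (X : ℂ → ℂ) (z : ℂ) : ℂ :=
  if 0 < z.im then f1_g X z
  else if z.im < 0 then starRingEnd ℂ (f1_g X (starRingEnd ℂ z))
  else limUnder (𝓝[UH] z) (f1_g X)

/-- A local holomorphic function at a real point. -/
structure F1Loc (X : ℂ → ℂ) (x : ℝ) (ρ : ℝ) (F : ℂ → ℂ) : Prop where
  pos : 0 < ρ
  diff : DifferentiableOn ℂ F (ball (x : ℂ) ρ)
  up : ∀ z ∈ ball (x : ℂ) ρ, 0 < z.im → F z = f1_g X z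
  real : ∀ u : ℝ, (u : ℂ) ∈ ball (x : ℂ) ρ → (F u).im = 0

theorem f1_im_tau {L : ℂ} (hL : L.re < 0) : 0 < (-(Real.pi * I) / L).im := by
  have hn : 0 < Complex.normSq L := by
    apply Complex.normSq_pos.2
    intro h
    rw [h] at hL
    simp at hL
  rw [Complex.div_im]
  simp only [Complex.neg_im, Complex.neg_re, Complex.mul_im, Complex.mul_re, Complex.ofReal_re,
    Complex.ofReal_im, Complex.I_re, Complex.I_im, mul_zero, mul_one, zero_mul, sub_zero,
    add_zero, neg_zero, zero_div]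
  have h2 : 0 < -Real.pi * L.re / Complex.normSq L := by
    apply div_pos _ hn
    nlinarith [Real.pi_pos]
  simpa using h2

theorem f1_J {L : ℂ} (hL : L.re < 0) : J (nome (-(Real.pi * I) / L)) = 1 - J (exp L) := by
  have h1 : (Real.pi : ℂ) * I ≠ 0 :=
    mul_ne_zero (Complex.ofReal_ne_zero.2 Real.pi_ne_zero) Complex.I_ne_zero
  have hL0 : L ≠ 0 := by
    intro h
    rw [h] at hL
    simp at hL
  have h2 := J_inv (f1_im_tau hL)
  have h3 : nome (-1 / (-(Real.pi * I) / L)) = exp L := by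
    unfold nome
    congr 1
    field_simp
  rw [h3] at h2
  linear_combination h2

theorem f1_real_freq {f g : ℂ → ℂ} {x : ℝ} (h : ∀ᶠ u : ℝ in 𝓝 x, f u = g u) :
    ∃ᶠ z in 𝓝[≠] (x : ℂ), f z = g z := by
  have ht : Tendsto (fun u : ℝ => (u : ℂ)) (𝓝[≠] x) (𝓝[≠] (x : ℂ)) := by
    apply tendsto_nhdsWithin_iff.2
    refine ⟨(Complex.continuous_ofReal.tendsto x).mono_left nhdsWithin_le_nhds, ?_⟩
    filter_upwards [self_mem_nhdsWithin] with u hu
    intro h0
    exact hu (Complex.ofReal_injective h0)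
  exact ht.frequently (h.filter_mono nhdsWithin_le_nhds).frequently

theorem f1_up (x : ℝ) : Tendsto (fun t : ℝ => (x : ℂ) + t * I) (𝓝[>] 0) (𝓝[UH] (x : ℂ)) := by
  apply tendsto_nhdsWithin_iff.2
  refine ⟨?_, ?_⟩
  · have hc : Continuous fun t : ℝ => (x : ℂ) + t * I := by fun_prop
    have := hc.tendsto 0
    simp only [Complex.ofReal_zero, zero_mul, add_zero] at this
    exact this.mono_left nhdsWithin_le_nhds
  · filter_upwards [self_mem_nhdsWithin] with t ht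
    show 0 < ((x : ℂ) + t * I).im
    simpa using ht

theorem f1_conj_mem {x ρ : ℝ} {z : ℂ} (hz : z ∈ ball (x : ℂ) ρ) :
    starRingEnd ℂ z ∈ ball (x : ℂ) ρ := by
  rw [mem_ball, dist_eq_norm] at hz ⊢
  have : starRingEnd ℂ z - (x : ℂ) = starRingEnd ℂ (z - (x : ℂ)) := by
    rw [map_sub, Complex.conj_ofReal]
  rw [this, Complex.norm_conj]
  exact hz

theorem f1_refl {X : ℂ → ℂ} {x ρ : ℝ} {F : ℂ → ℂ} (h : F1Loc X x ρ F) :
    ∀ z ∈ ball (x : ℂ) ρ, starRingEnd ℂ (F (starRingEnd ℂ z)) = F z := by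
  have h1 : AnalyticOnNhd ℂ F (ball (x : ℂ) ρ) := h.diff.analyticOnNhd isOpen_ball
  have h2 : AnalyticOnNhd ℂ (fun z => starRingEnd ℂ (F (starRingEnd ℂ z))) (ball (x : ℂ) ρ) := by
    apply DifferentiableOn.analyticOnNhd _ isOpen_ball
    intro z hz
    have hd : DifferentiableAt ℂ F (starRingEnd ℂ z) :=
      (h.diff _ (f1_conj_mem hz)).differentiableAt (isOpen_ball.mem_nhds (f1_conj_mem hz))
    have hd2 := hd.conj_conj
    rw [Complex.conj_conj] at hd2
    exact hd2.differentiableWithinAt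
  have hx : (x : ℂ) ∈ ball (x : ℂ) ρ := mem_ball_self h.pos
  have h3 : ∃ᶠ z in 𝓝[≠] (x : ℂ), starRingEnd ℂ (F (starRingEnd ℂ z)) = F z := by
    apply f1_real_freq (f := fun z => starRingEnd ℂ (F (starRingEnd ℂ z)))
    have h4 : ∀ᶠ u : ℝ in 𝓝 x, (u : ℂ) ∈ ball (x : ℂ) ρ :=
      Complex.continuous_ofReal.continuousAt.eventually (isOpen_ball.mem_nhds hx)
    filter_upwards [h4] with u hu
    rw [Complex.conj_ofReal]
    exact Complex.conj_eq_iff_im.2 (h.real u hu)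
  exact h2.eqOn_of_preconnected_of_frequently_eq h1 (convex_ball _ _).isPreconnected hx h3

theorem f1_lim {X : ℂ → ℂ} {x ρ : ℝ} {F : ℂ → ℂ} (h : F1Loc X x ρ F) {u : ℝ}
    (hu : (u : ℂ) ∈ ball (x : ℂ) ρ) : limUnder (𝓝[UH] (u : ℂ)) (f1_g X) = F u := by
  have hne : (𝓝[UH] (u : ℂ)).NeBot := (f1_up u).neBot
  have hc : ContinuousAt F u :=
    ((h.diff _ hu).differentiableAt (isOpen_ball.mem_nhds hu)).continuousAt
  have ht : Tendsto F (𝓝[UH] (u : ℂ)) (𝓝 (F u)) := hc.tendsto.mono_left nhdsWithin_le_nhds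
  apply Tendsto.limUnder_eq
  apply ht.congr'
  filter_upwards [self_mem_nhdsWithin, nhdsWithin_le_nhds (isOpen_ball.mem_nhds hu)] with z h1 h2
  exact h.up z h2 h1

theorem f1_eq {X : ℂ → ℂ} {x ρ : ℝ} {F : ℂ → ℂ} (h : F1Loc X x ρ F) :
    ∀ z ∈ ball (x : ℂ) ρ, f1_f X z = F z := by
  intro z hz
  unfold f1_f
  rcases lt_trichotomy z.im 0 with h1 | h1 | h1
  · rw [if_neg (by linarith), if_pos h1, ← f1_refl h z hz,
      h.up _ (f1_conj_mem hz) (by rw [Complex.conj_im]; linarith)]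
  · rw [if_neg (by linarith), if_neg (by linarith)]
    have e : z = (z.re : ℂ) := by
      apply Complex.ext
      · simp
      · simp [h1]
    rw [e] at hz ⊢
    exact f1_lim h hz
  · rw [if_pos h1, h.up z hz h1]

theorem f1_nome_diff (τ : ℂ) : DifferentiableAt ℂ nome τ := by
  unfold nome
  fun_prop

theorem f1_jou_diff {z : ℂ} (hz : z ≠ 0) : DifferentiableAt ℂ jou z := by
  unfold jou
  fun_prop (disch := assumption)

theorem f1_J_diff {q : ℂ} (hq : ‖q‖ < 1) : DifferentiableAt ℂ J q := by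
  have hq' : q ∈ ball (0 : ℂ) 1 := by rwa [mem_ball, dist_zero_right]
  exact (J_diff q hq').differentiableAt (isOpen_ball.mem_nhds hq')

theorem f1_build {X : ℂ → ℂ} {x w r : ℝ} {τ : ℂ → ℂ} (hx0 : x ≠ 0) (hx1 : |x| < 1)
    (hw : jou x = w) (hr : 0 < r) (hτ : DifferentiableOn ℂ τ (ball (w : ℂ) r))
    (hX : ∀ v ∈ ball (w : ℂ) r, 0 < v.im → X v = nome (τ v))
    (hi : 0 < (τ w).im) (hre : ∀ u : ℝ, (u : ℂ) ∈ ball (w : ℂ) r → (J (nome (τ u))).im = 0) :
    ∃ ρ, F1Loc X x ρ (fun z => J (nome (τ (jou z)))) := by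
  have hx0' : (x : ℂ) ≠ 0 := Complex.ofReal_ne_zero.2 hx0
  have hcj : ContinuousAt jou x := (f1_jou_diff hx0').continuousAt
  have hwb : (w : ℂ) ∈ ball (w : ℂ) r := mem_ball_self hr
  have hτw : DifferentiableAt ℂ τ w := (hτ _ hwb).differentiableAt (isOpen_ball.mem_nhds hwb)
  have hct : ContinuousAt (fun z => τ (jou z)) x := by
    apply ContinuousAt.comp (g := τ) (f := jou)
    · rw [hw]
      exact hτw.continuousAt
    · exact hcj
  have e1 : ∀ᶠ z in 𝓝 (x : ℂ), z ≠ 0 := eventually_ne_nhds hx0'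
  have e2 : ∀ᶠ z in 𝓝 (x : ℂ), ‖z‖ < 1 :=
    (isOpen_lt continuous_norm continuous_const).eventually_mem
      (by show ‖(x : ℂ)‖ < 1; rw [Complex.norm_real]; exact hx1)
  have e3 : ∀ᶠ z in 𝓝 (x : ℂ), jou z ∈ ball (w : ℂ) r :=
    hcj.eventually (by rw [hw]; exact isOpen_ball.mem_nhds hwb)
  have e4 : ∀ᶠ z in 𝓝 (x : ℂ), 0 < (τ (jou z)).im := by
    apply hct.eventually (p := fun w : ℂ => 0 < w.im)
    apply (isOpen_lt continuous_const Complex.continuous_im).mem_nhds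
    show 0 < (τ (jou x)).im
    rw [hw]
    exact hi
  obtain ⟨ρ, hρ, hball⟩ := Metric.eventually_nhds_iff_ball.1 (e1.and (e2.and (e3.and e4)))
  refine ⟨ρ, hρ, ?_, ?_, ?_⟩
  · intro z hz
    obtain ⟨h1, h2, h3, h4⟩ := hball z hz
    apply DifferentiableAt.differentiableWithinAt
    have hd1 : DifferentiableAt ℂ τ (jou z) :=
      (hτ _ h3).differentiableAt (isOpen_ball.mem_nhds h3)
    have hd2 : DifferentiableAt ℂ (fun z => τ (jou z)) z := hd1.comp z (f1_jou_diff h1)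
    have hd3 : DifferentiableAt ℂ (fun z => nome (τ (jou z))) z :=
      (f1_nome_diff _).comp z hd2
    exact (f1_J_diff (nome_norm_lt h4)).comp z hd3
  · intro z hz him
    obtain ⟨h1, h2, h3, h4⟩ := hball z hz
    show J (nome (τ (jou z))) = J (X (jou z))
    rw [hX _ h3 (jou_im h2 him)]
  · intro u hu
    obtain ⟨h1, h2, h3, h4⟩ := hball _ hu
    have e : jou (u : ℂ) = ((-(u + u⁻¹) / 2 : ℝ) : ℂ) := by
      unfold jou
      push_cast
      ring
    show (J (nome (τ (jou u)))).im = 0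
    rw [e] at h3 ⊢
    exact hre _ h3

theorem f1_loc_pos {y : ℝ} {X : ℂ → ℂ} {v₀ : ℂ} {vc : ℝ} (hX : Model y X v₀ vc) {x : ℝ}
    (h0 : 0 < x) (h1 : x < 1) :
    ∃ ρ F, F1Loc X x ρ F ∧ 0 < (F x).re ∧ (F x).re < 1 := by
  have hw : -(x + x⁻¹) / 2 < -1 := by
    have h2 : x * x⁻¹ = 1 := mul_inv_cancel₀ h0.ne'
    have h3 : 0 < x⁻¹ := inv_pos.2 h0
    have h4 : 0 < (1 - x) * (x⁻¹ - 1) := by
      apply mul_pos (by linarith)
      have := (one_lt_inv₀ h0).2 h1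
      linarith
    nlinarith
  obtain ⟨r, hr, τ, hτ, hXτ, hre, -, -⟩ := hX.slit _ hw
  have e : jou (x : ℂ) = ((-(x + x⁻¹) / 2 : ℝ) : ℂ) := by
    unfold jou
    push_cast
    ring
  have hJ : ∀ u : ℝ, (u : ℂ) ∈ ball ((-(x + x⁻¹) / 2 : ℝ) : ℂ) r →
      (J (nome (τ u))).im = 0 ∧ 0 < (J (nome (τ u))).re ∧ (J (nome (τ u))).re < 1 := by
    intro u hu
    obtain ⟨h2, h3, -⟩ := hre u hu
    have e2 : nome (τ u) = ((Real.exp (-(Real.pi * (τ u).im)) : ℝ) : ℂ) := by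
      unfold nome
      rw [Complex.ofReal_exp]
      congr 1
      apply Complex.ext
      · simp
      · simp [h2]
    rw [e2]
    apply J_Ioo (Real.exp_pos _)
    rw [Real.exp_lt_one_iff]
    have := mul_pos Real.pi_pos h3
    linarith
  have hb : ((-(x + x⁻¹) / 2 : ℝ) : ℂ) ∈ ball ((-(x + x⁻¹) / 2 : ℝ) : ℂ) r := mem_ball_self hr
  obtain ⟨ρ, hF⟩ := f1_build h0.ne' (by rw [abs_of_pos h0]; exact h1) e hr hτ hXτ
    (hre _ hb).2.1 (fun u hu => (hJ u hu).1)
  refine ⟨ρ, _, hF, ?_⟩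
  show 0 < (J (nome (τ (jou x)))).re ∧ (J (nome (τ (jou x)))).re < 1
  rw [e]
  exact (hJ _ hb).2

theorem f1_loc_neg {y : ℝ} {X : ℂ → ℂ} {v₀ : ℂ} {vc : ℝ} (hX : Model y X v₀ vc) {x : ℝ}
    (h0 : -1 < x) (h1 : x < 0) :
    ∃ ρ F, F1Loc X x ρ F ∧ (F x).re < 0 := by
  have hw : 1 < -(x + x⁻¹) / 2 := by
    have h2 : (-x) * (-x)⁻¹ = 1 := mul_inv_cancel₀ (by linarith)
    have h3 : 0 < (-x)⁻¹ := inv_pos.2 (by linarith)
    have h4 : 0 < (1 - (-x)) * ((-x)⁻¹ - 1) := by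
      apply mul_pos (by linarith)
      have := (one_lt_inv₀ (by linarith : 0 < -x)).2 (by linarith)
      linarith
    have h5 : (-x)⁻¹ = -x⁻¹ := inv_neg
    rw [h5] at h2 h3 h4
    nlinarith
  obtain ⟨r, hr, τ, hτ, hXτ, hre, -⟩ := hX.arc _ hw
  have e : jou (x : ℂ) = ((-(x + x⁻¹) / 2 : ℝ) : ℂ) := by
    unfold jou
    push_cast
    ring
  have hb : ((-(x + x⁻¹) / 2 : ℝ) : ℂ) ∈ ball ((-(x + x⁻¹) / 2 : ℝ) : ℂ) r := mem_ball_self hr
  obtain ⟨ρ, hF⟩ := f1_build h1.ne (by rw [abs_of_neg h1]; linarith) e hr hτ hXτ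
    (hre _ hb).1 (fun u hu => (J_geo (hre u hu)).1)
  refine ⟨ρ, _, hF, ?_⟩
  show (J (nome (τ (jou x)))).re < 0
  rw [e]
  exact (J_geo (hre _ hb)).2

theorem f1_loc_zero {y : ℝ} {X : ℂ → ℂ} {v₀ : ℂ} {vc : ℝ} (hX : Model y X v₀ vc) :
    ∃ ρ F, F1Loc X 0 ρ F ∧ F 0 = 0 ∧ ∃ κ : ℝ, 0 < κ ∧ HasDerivAt F (κ : ℂ) 0 := by
  obtain ⟨r, hr, p, hp, hp0, ⟨κ, hκ, hpκ⟩, hpre, hup⟩ := hX.infty
  have hpd : ∀ u ∈ ball (0 : ℂ) r, DifferentiableAt ℂ p u := fun u hu =>
    (hp u hu).differentiableAt (isOpen_ball.mem_nhds hu)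
  have h0b : (0 : ℂ) ∈ ball (0 : ℂ) r := mem_ball_self hr
  have hud : ∀ z : ℂ, ‖z‖ < 1 → DifferentiableAt ℂ (fun z : ℂ => 2 * z / (1 + z ^ 2)) z := by
    intro z hz
    have hne : 1 + z ^ 2 ≠ 0 := by
      intro h
      have h2 : z ^ 2 = -1 := by linear_combination h
      have h3 : ‖z‖ ^ 2 = 1 := by rw [← norm_pow, h2, norm_neg, norm_one]
      nlinarith [norm_nonneg z]
    fun_prop (disch := assumption)
  have hc : ContinuousAt (fun z : ℂ => 2 * z / (1 + z ^ 2)) 0 := (hud 0 (by simp)).continuousAt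
  have hval : (2 * (0 : ℂ) / (1 + 0 ^ 2)) = 0 := by simp
  have hcp : ContinuousAt (fun z : ℂ => p (2 * z / (1 + z ^ 2))) 0 := by
    apply ContinuousAt.comp (g := p) (f := fun z : ℂ => 2 * z / (1 + z ^ 2))
    · rw [hval]
      exact (hpd 0 h0b).continuousAt
    · exact hc
  have e1 : ∀ᶠ z in 𝓝 (0 : ℂ), ‖z‖ < 1 :=
    (isOpen_lt continuous_norm continuous_const).eventually_mem
      (by show ‖(0 : ℂ)‖ < 1; rw [norm_zero]; exact one_pos)
  have e2 : ∀ᶠ z in 𝓝 (0 : ℂ), 2 * z / (1 + z ^ 2) ∈ ball (0 : ℂ) r :=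
    hc.eventually (p := fun w : ℂ => w ∈ ball (0 : ℂ) r)
      (by
        show ball (0 : ℂ) r ∈ 𝓝 (2 * (0 : ℂ) / (1 + 0 ^ 2))
        rw [hval]
        exact isOpen_ball.mem_nhds h0b)
  have e3 : ∀ᶠ z in 𝓝 (0 : ℂ), ‖p (2 * z / (1 + z ^ 2))‖ < 1 := by
    apply hcp.eventually (p := fun w : ℂ => ‖w‖ < 1)
    apply (isOpen_lt continuous_norm continuous_const).mem_nhds
    show ‖p (2 * 0 / (1 + 0 ^ 2))‖ < 1
    rw [hval, hp0, norm_zero]
    exact one_pos
  obtain ⟨ρ, hρ, hball⟩ := Metric.eventually_nhds_iff_ball.1 (e1.and (e2.and e3))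
  refine ⟨ρ, fun z => 1 - J (p (2 * z / (1 + z ^ 2))), ⟨hρ, ?_, ?_, ?_⟩, ?_, 32 * κ,
    by positivity, ?_⟩
  · intro z hz
    rw [Complex.ofReal_zero] at hz
    obtain ⟨h1, h2, h3⟩ := hball z hz
    apply DifferentiableAt.differentiableWithinAt
    have hd1 : DifferentiableAt ℂ (fun z => p (2 * z / (1 + z ^ 2))) z :=
      DifferentiableAt.comp (g := p) (f := fun z : ℂ => 2 * z / (1 + z ^ 2)) z (hpd _ h2)
        (hud z h1)
    exact (DifferentiableAt.comp (g := J) z (f1_J_diff h3) hd1).const_sub 1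
  · intro z hz him
    rw [Complex.ofReal_zero] at hz
    obtain ⟨h1, h2, h3⟩ := hball z hz
    have hz0 : z ≠ 0 := by
      intro h
      rw [h] at him
      simp at him
    have hj := jou_im h1 him
    have hne : 1 + z ^ 2 ≠ 0 := by
      intro h
      have h2 : z ^ 2 = -1 := by linear_combination h
      have h3 : ‖z‖ ^ 2 = 1 := by rw [← norm_pow, h2, norm_neg, norm_one]
      nlinarith [norm_nonneg z]
    have hjne : jou z ≠ 0 := by
      intro h
      rw [h] at hj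
      simp at hj
    have ej : jou z = -1 / (2 * z / (1 + z ^ 2)) := by
      unfold jou
      field_simp
      ring
    have eu : 2 * z / (1 + z ^ 2) = -1 / jou z := by
      rw [ej]
      field_simp
    have hui : 0 < (2 * z / (1 + z ^ 2)).im := by
      rw [eu, Complex.div_im]
      have hn : 0 < Complex.normSq (jou z) := Complex.normSq_pos.2 hjne
      simp only [Complex.neg_im, Complex.one_im, Complex.neg_re, Complex.one_re, neg_zero,
        zero_mul, zero_div, zero_sub]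
      have := div_pos hj hn
      have e5 : -(-1 * (jou z).im / Complex.normSq (jou z)) =
          (jou z).im / Complex.normSq (jou z) := by ring
      rw [e5]
      exact this
    obtain ⟨h4, h5, h6⟩ := hup _ h2 hui
    show 1 - J (p (2 * z / (1 + z ^ 2))) = J (X (jou z))
    rw [ej, h6]
    have hpne : p (2 * z / (1 + z ^ 2)) ≠ 0 := by
      intro h
      rw [h] at h4
      simp at h4
    have hlre : (log (p (2 * z / (1 + z ^ 2)))).re < 0 := by
      rw [Complex.log_re]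
      exact Real.log_neg (norm_pos_iff.2 hpne) h5
    rw [f1_J hlre, exp_log hpne]
  · intro u hu
    rw [Complex.ofReal_zero] at hu
    obtain ⟨h1, h2, h3⟩ := hball _ hu
    have e : (2 * (u : ℂ) / (1 + (u : ℂ) ^ 2)) = ((2 * u / (1 + u ^ 2) : ℝ) : ℂ) := by
      push_cast
      ring
    show (1 - J (p (2 * (u : ℂ) / (1 + (u : ℂ) ^ 2)))).im = 0
    rw [e] at h2 ⊢
    have h4 : |2 * u / (1 + u ^ 2)| < r := by
      rw [mem_ball, dist_zero_right, Complex.norm_real] at h2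
      exact h2
    have h5 := hpre _ h4
    have h6 := J_conj (p ((2 * u / (1 + u ^ 2) : ℝ) : ℂ))
    rw [Complex.conj_eq_iff_im.2 h5] at h6
    have h7 := Complex.conj_eq_iff_im.1 h6.symm
    rw [Complex.sub_im, Complex.one_im, h7, sub_zero]
  · show 1 - J (p (2 * 0 / (1 + 0 ^ 2))) = 0
    rw [hval, hp0, J_zero, sub_self]
  · have hu' : HasDerivAt (fun z : ℂ => 2 * z / (1 + z ^ 2)) 2 0 := by
      have h1 : HasDerivAt (fun z : ℂ => 2 * z) (2 * 1) 0 := (hasDerivAt_id (0 : ℂ)).const_mul 2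
      have h2 : HasDerivAt (fun z : ℂ => 1 + z ^ 2) (((2 : ℕ) : ℂ) * 0 ^ (2 - 1)) 0 :=
        (hasDerivAt_pow 2 (0 : ℂ)).const_add 1
      have h3 := h1.div h2 (by simp)
      have e : (2 * 1 * (1 + (0 : ℂ) ^ 2) - 2 * 0 * (((2 : ℕ) : ℂ) * 0 ^ (2 - 1))) /
          (1 + (0 : ℂ) ^ 2) ^ 2 = 2 := by norm_num
      rw [e] at h3
      exact h3
    have hp' : HasDerivAt p (κ : ℂ) (2 * (0 : ℂ) / (1 + 0 ^ 2)) := by
      rw [hval, ← hpκ]
      exact (hpd 0 h0b).hasDerivAt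
    have hpu : HasDerivAt (fun z : ℂ => p (2 * z / (1 + z ^ 2))) ((κ : ℂ) * 2) 0 :=
      HasDerivAt.comp (h₂ := p) (h := fun z : ℂ => 2 * z / (1 + z ^ 2)) 0 hp' hu'
    have hJ' : HasDerivAt J (-16) (p (2 * (0 : ℂ) / (1 + 0 ^ 2))) := by
      rw [hval, hp0]
      exact J_hasDerivAt_zero
    have hJp : HasDerivAt (fun z : ℂ => J (p (2 * z / (1 + z ^ 2)))) (-16 * ((κ : ℂ) * 2)) 0 :=
      HasDerivAt.comp (h₂ := J) (h := fun z : ℂ => p (2 * z / (1 + z ^ 2))) 0 hJ' hpu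
    have hF := hJp.const_sub 1
    have e : -(-16 * ((κ : ℂ) * 2)) = ((32 * κ : ℝ) : ℂ) := by
      push_cast
      ring
    rw [e] at hF
    exact hF

theorem f1_neg {X : ℂ → ℂ} {z : ℂ} (h : z.im < 0) :
    f1_f X z = starRingEnd ℂ (f1_g X (starRingEnd ℂ z)) := by
  unfold f1_f
  rw [if_neg (by linarith), if_pos h]

theorem f1_pos {X : ℂ → ℂ} {z : ℂ} (h : 0 < z.im) : f1_f X z = f1_g X z := by
  unfold f1_f
  rw [if_pos h]

theorem f1_xlt {y : ℝ} {X : ℂ → ℂ} {v₀ : ℂ} {vc : ℝ} (hX : Model y X v₀ vc) {z : ℂ}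
    (h1 : ‖z‖ < 1) (h2 : 0 < z.im) : ‖X (jou z)‖ < 1 := by
  have h3 : X (jou z) ∈ X '' UH := ⟨jou z, jou_im h1 h2, rfl⟩
  rw [hX.img] at h3
  exact h3.1

theorem f1_g_diff {y : ℝ} {X : ℂ → ℂ} {v₀ : ℂ} {vc : ℝ} (hX : Model y X v₀ vc) {z : ℂ}
    (h1 : ‖z‖ < 1) (h2 : 0 < z.im) : DifferentiableAt ℂ (f1_g X) z := by
  have hz : z ≠ 0 := by
    intro h
    rw [h] at h2
    simp at h2
  have hopen : IsOpen UH := isOpen_lt continuous_const Complex.continuous_im
  have h3 : DifferentiableAt ℂ X (jou z) :=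
    (hX.diff _ (jou_im h1 h2)).differentiableAt (hopen.mem_nhds (jou_im h1 h2))
  have h4 : DifferentiableAt ℂ (fun z => X (jou z)) z := h3.comp z (f1_jou_diff hz)
  exact (f1_J_diff (f1_xlt hX h1 h2)).comp z h4

theorem f1_g_ne {y : ℝ} {X : ℂ → ℂ} {v₀ : ℂ} {vc : ℝ} (hX : Model y X v₀ vc) {z : ℂ}
    (h1 : ‖z‖ < 1) (h2 : 0 < z.im) : f1_g X z ≠ 0 := J_ne_zero (f1_xlt hX h1 h2)

theorem f1_g_one {y : ℝ} {X : ℂ → ℂ} {v₀ : ℂ} {vc : ℝ} (hX : Model y X v₀ vc) {z : ℂ}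
    (h1 : ‖z‖ < 1) (h2 : 0 < z.im) : f1_g X z = 1 ↔ z = jinv v₀ := by
  unfold f1_g
  rw [J_eq_one_iff (f1_xlt hX h1 h2)]
  constructor
  · intro h
    have h3 : jou z = v₀ := by
      apply hX.inj (jou_im h1 h2) hX.v0_im
      rw [h, hX.zero]
    rw [← h3, jinv_jou h1 h2]
  · intro h
    rw [h, jou_jinv hX.v0_im, hX.zero]

/-- A local function at every real point. -/
theorem f1_loc {y : ℝ} {X : ℂ → ℂ} {v₀ : ℂ} {vc : ℝ} (hX : Model y X v₀ vc) {x : ℝ}
    (h0 : -1 < x) (h1 : x < 1) :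
    ∃ ρ F, F1Loc X x ρ F ∧ (F x = 0 ↔ x = 0) ∧ F x ≠ 1 := by
  rcases lt_trichotomy x 0 with h | h | h
  · obtain ⟨ρ, F, hF, hn⟩ := f1_loc_neg hX h0 h
    refine ⟨ρ, F, hF, ⟨fun h2 => ?_, fun h2 => ?_⟩, fun h2 => ?_⟩
    · rw [h2] at hn
      simp at hn
    · exact absurd h2 h.ne
    · rw [h2, Complex.one_re] at hn
      linarith
  · obtain ⟨ρ, F, hF, hn, -⟩ := f1_loc_zero hX
    rw [h]
    refine ⟨ρ, F, hF, ⟨fun _ => rfl, fun _ => ?_⟩, fun h2 => ?_⟩
    · rw [Complex.ofReal_zero]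
      exact hn
    · rw [Complex.ofReal_zero, hn] at h2
      exact zero_ne_one h2
  · obtain ⟨ρ, F, hF, hn, hn'⟩ := f1_loc_pos hX h h1
    refine ⟨ρ, F, hF, ⟨fun h2 => ?_, fun h2 => ?_⟩, fun h2 => ?_⟩
    · rw [h2] at hn
      simp at hn
    · exact absurd h2 h.ne'
    · rw [h2, Complex.one_re] at hn'
      linarith

theorem f1_real_pt {z : ℂ} (hz : ‖z‖ < 1) (h : z.im = 0) :
    z = (z.re : ℂ) ∧ -1 < z.re ∧ z.re < 1 := by
  have e : z = (z.re : ℂ) := by
    apply Complex.ext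
    · simp
    · simp [h]
  have h2 := abs_lt.1 (lt_of_le_of_lt (Complex.abs_re_le_norm z) hz)
  exact ⟨e, h2.1, h2.2⟩

theorem extremal_function {y : ℝ} {X : ℂ → ℂ} {v₀ : ℂ} {vc : ℝ} (hX : Model y X v₀ vc) :
    ∃ f : ℂ → ℂ, DifferentiableOn ℂ f (ball 0 1) ∧
      (∀ z ∈ ball (0 : ℂ) 1, f (starRingEnd ℂ z) = starRingEnd ℂ (f z)) ∧
      (∀ z ∈ ball (0 : ℂ) 1, f z = 0 ↔ z = 0) ∧
      (∀ z ∈ ball (0 : ℂ) 1, f z = 1 ↔ z = jinv v₀ ∨ z = starRingEnd ℂ (jinv v₀)) ∧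
      0 < (deriv f 0).re ∧ deriv f (jinv v₀) ≠ 0 := by
  have hn : ∀ z : ℂ, z ∈ ball (0 : ℂ) 1 ↔ ‖z‖ < 1 := fun z => by
    rw [mem_ball, dist_zero_right]
  have hcn : ∀ z : ℂ, ‖z‖ < 1 → ‖starRingEnd ℂ z‖ < 1 := fun z hz => by
    rw [Complex.norm_conj]
    exact hz
  have hb := jinv_mem hX.v0_im
  have hup : ∀ z : ℂ, 0 < z.im → f1_f X =ᶠ[𝓝 z] f1_g X := by
    intro z hz
    have : ∀ᶠ w in 𝓝 z, 0 < w.im :=
      (isOpen_lt continuous_const Complex.continuous_im).eventually_mem hz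
    filter_upwards [this] with w hw
    exact f1_pos hw
  refine ⟨f1_f X, ?_, ?_, ?_, ?_, ?_, ?_⟩
  · intro z hz
    rw [hn] at hz
    apply DifferentiableAt.differentiableWithinAt
    rcases lt_trichotomy z.im 0 with h1 | h1 | h1
    · have h2 : f1_f X =ᶠ[𝓝 z] fun w => starRingEnd ℂ (f1_g X (starRingEnd ℂ w)) := by
        have : ∀ᶠ w in 𝓝 z, w.im < 0 :=
          (isOpen_lt Complex.continuous_im continuous_const).eventually_mem h1
        filter_upwards [this] with w hw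
        exact f1_neg hw
      apply DifferentiableAt.congr_of_eventuallyEq _ h2
      have hd : DifferentiableAt ℂ (f1_g X) (starRingEnd ℂ z) :=
        f1_g_diff hX (hcn z hz) (by rw [Complex.conj_im]; linarith)
      have hd2 := hd.conj_conj
      rw [Complex.conj_conj] at hd2
      exact hd2
    · obtain ⟨e, h2, h3⟩ := f1_real_pt hz h1
      obtain ⟨ρ, F, hF, -, -⟩ := f1_loc hX h2 h3
      have hzb : z ∈ ball (z.re : ℂ) ρ := by
        rw [← e]
        exact mem_ball_self hF.pos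
      have h4 : f1_f X =ᶠ[𝓝 z] F := by
        filter_upwards [isOpen_ball.mem_nhds hzb] with w hw
        exact f1_eq hF w hw
      exact ((hF.diff z hzb).differentiableAt (isOpen_ball.mem_nhds hzb)).congr_of_eventuallyEq h4
    · exact (f1_g_diff hX hz h1).congr_of_eventuallyEq (hup z h1)
  · intro z hz
    rw [hn] at hz
    rcases lt_trichotomy z.im 0 with h1 | h1 | h1
    · rw [f1_neg h1, f1_pos (by rw [Complex.conj_im]; linarith), Complex.conj_conj]
    · obtain ⟨e, h2, h3⟩ := f1_real_pt hz h1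
      obtain ⟨ρ, F, hF, -, -⟩ := f1_loc hX h2 h3
      have hzb : (z.re : ℂ) ∈ ball (z.re : ℂ) ρ := mem_ball_self hF.pos
      rw [Complex.conj_eq_iff_im.2 h1, e, f1_eq hF _ hzb]
      exact (Complex.conj_eq_iff_im.2 (hF.real _ hzb)).symm
    · rw [f1_pos h1, f1_neg (by rw [Complex.conj_im]; linarith), Complex.conj_conj]
  · intro z hz
    rw [hn] at hz
    rcases lt_trichotomy z.im 0 with h1 | h1 | h1
    · have h2 := f1_g_ne hX (hcn z hz) (by rw [Complex.conj_im]; linarith)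
      rw [f1_neg h1]
      constructor
      · intro h3
        exact absurd ((map_eq_zero _).1 h3) h2
      · intro h3
        rw [h3] at h1
        simp at h1
    · obtain ⟨e, h2, h3⟩ := f1_real_pt hz h1
      obtain ⟨ρ, F, hF, h4, -⟩ := f1_loc hX h2 h3
      have hzb : (z.re : ℂ) ∈ ball (z.re : ℂ) ρ := mem_ball_self hF.pos
      rw [e, f1_eq hF _ hzb, h4, Complex.ofReal_eq_zero]
    · have h2 := f1_g_ne hX hz h1
      rw [f1_pos h1]
      constructor
      · intro h3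
        exact absurd h3 h2
      · intro h3
        rw [h3] at h1
        simp at h1
  · intro z hz
    rw [hn] at hz
    rcases lt_trichotomy z.im 0 with h1 | h1 | h1
    · have h2 := f1_g_one hX (hcn z hz) (by rw [Complex.conj_im]; linarith)
      rw [f1_neg h1]
      constructor
      · intro h3
        right
        have h4 : f1_g X (starRingEnd ℂ z) = 1 := by
          have := congrArg (starRingEnd ℂ) h3
          rwa [Complex.conj_conj, map_one] at this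
        rw [← h2.1 h4, Complex.conj_conj]
      · rintro (h3 | h3)
        · rw [h3] at h1
          exact absurd hb.2 (by linarith)
        · have h4 : starRingEnd ℂ z = jinv v₀ := by rw [h3, Complex.conj_conj]
          rw [h2.2 h4, map_one]
    · obtain ⟨e, h2, h3⟩ := f1_real_pt hz h1
      obtain ⟨ρ, F, hF, -, h4⟩ := f1_loc hX h2 h3
      have hzb : (z.re : ℂ) ∈ ball (z.re : ℂ) ρ := mem_ball_self hF.pos
      constructor
      · intro h5
        rw [e, f1_eq hF _ hzb] at h5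
        exact absurd h5 h4
      · rintro (h5 | h5)
        · rw [h5] at h1
          exact absurd hb.2 (by linarith)
        · rw [h5, Complex.conj_im] at h1
          exact absurd hb.2 (by linarith)
    · have h2 := f1_g_one hX hz h1
      rw [f1_pos h1, h2]
      constructor
      · intro h3
        exact Or.inl h3
      · rintro (h3 | h3)
        · exact h3
        · rw [h3, Complex.conj_im] at h1
          exact absurd hb.2 (by linarith)
  · obtain ⟨ρ, F, hF, -, κ, hκ, hd⟩ := f1_loc_zero hX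
    have h0b : (0 : ℂ) ∈ ball ((0 : ℝ) : ℂ) ρ := by
      rw [Complex.ofReal_zero]
      exact mem_ball_self hF.pos
    have h4 : f1_f X =ᶠ[𝓝 (0 : ℂ)] F := by
      filter_upwards [isOpen_ball.mem_nhds h0b] with w hw
      exact f1_eq hF w hw
    rw [h4.deriv_eq, hd.deriv, Complex.ofReal_re]
    exact hκ
  · rw [(hup _ hb.2).deriv_eq]
    have hopen : IsOpen UH := isOpen_lt continuous_const Complex.continuous_im
    have hbne : jinv v₀ ≠ 0 := by
      intro h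
      have := hb.2
      rw [h] at this
      simp at this
    have h3 : HasDerivAt X (deriv X v₀) (jou (jinv v₀)) := by
      rw [jou_jinv hX.v0_im]
      exact ((hX.diff _ hX.v0_im).differentiableAt (hopen.mem_nhds hX.v0_im)).hasDerivAt
    have hj : HasDerivAt jou (-(1 + -((jinv v₀) ^ 2)⁻¹) / 2) (jinv v₀) := by
      have h5 := ((hasDerivAt_id (jinv v₀)).add (hasDerivAt_inv hbne)).neg.div_const 2
      exact h5
    have h4 : HasDerivAt (fun z => X (jou z)) (deriv X v₀ * (-(1 + -((jinv v₀) ^ 2)⁻¹) / 2))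
        (jinv v₀) := HasDerivAt.comp (h₂ := X) (h := jou) _ h3 hj
    have hJ' : HasDerivAt J (-16) (X (jou (jinv v₀))) := by
      rw [jou_jinv hX.v0_im, hX.zero]
      exact J_hasDerivAt_zero
    have h6 : HasDerivAt (f1_g X)
        (-16 * (deriv X v₀ * (-(1 + -((jinv v₀) ^ 2)⁻¹) / 2))) (jinv v₀) :=
      HasDerivAt.comp (h₂ := J) (h := fun z => X (jou z)) _ hJ' h4
    rw [h6.deriv]
    apply mul_ne_zero (by norm_num)
    apply mul_ne_zero (hX.deriv_ne _ hX.v0_im)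
    intro h7
    have h8 : (jinv v₀) ^ 2 = 1 := by
      have h9 : ((jinv v₀) ^ 2)⁻¹ = 1 := by linear_combination 2 * h7
      exact inv_eq_one.1 h9
    have h10 : ‖jinv v₀‖ ^ 2 = 1 := by rw [← norm_pow, h8, norm_one]
    nlinarith [norm_nonneg (jinv v₀), hb.1]

theorem realp_extremal {y : ℝ} {X : ℂ → ℂ} {v₀ : ℂ} {vc : ℝ} (hX : Model y X v₀ vc) {ρ : ℝ}
    (h1 : ‖jinv v₀‖ < ρ) (h2 : ρ < 1) : Realp (jinv v₀ / ρ) := by
  obtain ⟨f, hf, hre, h0, hone, hd0, hdb⟩ := extremal_function hX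
  have hb := jinv_mem hX.v0_im
  have hρ : 0 < ρ := lt_of_le_of_lt (norm_nonneg _) h1
  have hρc : (ρ : ℂ) ≠ 0 := Complex.ofReal_ne_zero.2 hρ.ne'
  have hn : ∀ z : ℂ, z ∈ ball (0 : ℂ) (1 / ρ) → (ρ : ℂ) * z ∈ ball (0 : ℂ) 1 := by
    intro z hz
    rw [mem_ball, dist_zero_right] at hz ⊢
    rw [norm_mul, Complex.norm_real, Real.norm_of_nonneg hρ.le]
    rw [lt_div_iff₀ hρ] at hz
    linarith
  have hconj : ∀ z : ℂ, (ρ : ℂ) * starRingEnd ℂ z = starRingEnd ℂ ((ρ : ℂ) * z) := by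
    intro z
    rw [map_mul, Complex.conj_ofReal]
  have hder : ∀ z : ℂ, (ρ : ℂ) * z ∈ ball (0 : ℂ) 1 →
      HasDerivAt (fun z => f ((ρ : ℂ) * z)) (deriv f ((ρ : ℂ) * z) * (ρ : ℂ)) z := by
    intro z hz
    have h5 : HasDerivAt f (deriv f ((ρ : ℂ) * z)) ((ρ : ℂ) * z) :=
      ((hf _ hz).differentiableAt (isOpen_ball.mem_nhds hz)).hasDerivAt
    have h6 : HasDerivAt (fun z : ℂ => (ρ : ℂ) * z) (ρ : ℂ) z := by
      have := (hasDerivAt_id z).const_mul (ρ : ℂ)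
      rw [mul_one] at this
      exact this
    exact HasDerivAt.comp (h₂ := f) (h := fun z : ℂ => (ρ : ℂ) * z) z h5 h6
  have hbm : (ρ : ℂ) * (jinv v₀ / ρ) = jinv v₀ := mul_div_cancel₀ _ hρc
  refine ⟨1 / ρ, fun z => f ((ρ : ℂ) * z), ?_⟩
  refine
    { one_lt := ?_, b_im := ?_, b_norm := ?_, diff := ?_, real := ?_, zero := ?_, one := ?_,
      deriv_zero := ?_, deriv_b := ?_ }
  · rw [lt_div_iff₀ hρ]
    linarith
  · rw [Complex.div_ofReal_im]
    exact div_pos hb.2 hρ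
  · rw [norm_div, Complex.norm_real, Real.norm_of_nonneg hρ.le, div_lt_one hρ]
    exact h1
  · intro z hz
    exact (hder z (hn z hz)).differentiableAt.differentiableWithinAt
  · intro z hz
    show f ((ρ : ℂ) * starRingEnd ℂ z) = starRingEnd ℂ (f ((ρ : ℂ) * z))
    rw [hconj, hre _ (hn z hz)]
  · intro z hz
    show f ((ρ : ℂ) * z) = 0 ↔ z = 0
    rw [h0 _ (hn z hz), mul_eq_zero]
    exact ⟨fun h => h.resolve_left hρc, fun h => Or.inr h⟩
  · intro z hz
    show f ((ρ : ℂ) * z) = 1 ↔ z = jinv v₀ / ρ ∨ z = starRingEnd ℂ (jinv v₀ / ρ)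
    rw [hone _ (hn z hz)]
    have e1 : (ρ : ℂ) * z = jinv v₀ ↔ z = jinv v₀ / ρ := by
      rw [eq_div_iff hρc, mul_comm]
    have e2 : (ρ : ℂ) * z = starRingEnd ℂ (jinv v₀) ↔ z = starRingEnd ℂ (jinv v₀ / ρ) := by
      rw [map_div₀, Complex.conj_ofReal, eq_div_iff hρc, mul_comm]
    rw [e1, e2]
  · have h5 := hder 0 (hn 0 (by
      rw [mem_ball, dist_self]
      positivity))
    rw [h5.deriv, mul_zero, Complex.mul_re, Complex.ofReal_re, Complex.ofReal_im, mul_zero,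
      sub_zero]
    exact mul_pos hd0 hρ
  · have hbb : (ρ : ℂ) * (jinv v₀ / ρ) ∈ ball (0 : ℂ) 1 := by
      rw [hbm, mem_ball, dist_zero_right]
      exact hb.1
    have h5 := hder (jinv v₀ / ρ) hbb
    rw [h5.deriv, hbm]
    exact mul_ne_zero hdb hρc

end Pool.Agent.Choc
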