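import Pool.Agent.Lib.MP_2b3e36_an.Ex.W1

/-!
W2. The harmonic measures `hA (jou b)`, `hB (jou b)` as functions of the radius, symmetry, and the
cotangent form.

For `v = ξ + iη`, `η > 0`: `pi hA v = arg (1 + ξ + iη)`, `pi hB v = pi - arg (ξ - 1 + iη) = arg (1 - ξ + iη)`.
So `hA v ∈ (0,1)`, `hB v ∈ (0,1)`, `hA v ≤ hA v'` iff `(1+ξ')/η' ≤ (1+ξ)/η` (the argument in `(0,pi)` is a
strictly decreasing function of the cotangent), similarly for `hB` with `1 - ξ`; and
`hA v + hB v < 1` (harmonic measure of `(-1,1)` is positive).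
Radius: for `b = ρ exp (iθ)`, `jou b` has `(1+ξ)/η = (2ρ - (1+ρ^2) cos θ)/((1-ρ^2) sin θ)`, strictly
increasing in `ρ ∈ (0,1)` (the derivative has the sign of `2 (1 - 2 ρ cos θ + ρ^2) > 0`); the same for
`(1-ξ)/η` with `-cos θ`. So `hA (jou (b/s))` is strictly increasing and continuous in `s > ‖b‖`.
Symmetry: `hA (-conj v) = hB v`, `jou (-conj b) = - conj (jou b)`.
-/

set_option autoImplicit false

open Complex Set Filter Topology Metric

namespace Pool.Agent.Choc

theorem w2_arg {z : ℂ} (hz : 0 < z.im) : arg z = Real.pi / 2 - Real.arctan (z.re / z.im) := by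
  set t : ℝ := z.re / z.im with ht
  have h1 : 0 < Real.sqrt (1 + t ^ 2) := Real.sqrt_pos.2 (by positivity)
  have hlt := Real.arctan_lt_pi_div_two t
  have hgt := Real.neg_pi_div_two_lt_arctan t
  have hpi := Real.pi_pos
  have h2 := Complex.arg_mul_cos_add_sin_mul_I (r := z.im * Real.sqrt (1 + t ^ 2))
    (θ := Real.pi / 2 - Real.arctan t) (mul_pos hz h1) ⟨by linarith, by linarith⟩
  rw [← h2]
  congr 1
  have e1 : Real.cos (Real.pi / 2 - Real.arctan t) = t / Real.sqrt (1 + t ^ 2) := by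
    rw [Real.cos_pi_div_two_sub, Real.sin_arctan]
  have e2 : Real.sin (Real.pi / 2 - Real.arctan t) = 1 / Real.sqrt (1 + t ^ 2) := by
    rw [Real.sin_pi_div_two_sub, Real.cos_arctan]
  rw [← Complex.ofReal_cos, ← Complex.ofReal_sin, e1, e2]
  apply Complex.ext
  · rw [Complex.re_ofReal_mul]
    simp only [Complex.add_re, Complex.ofReal_re, Complex.mul_re, Complex.I_re, Complex.I_im,
      Complex.ofReal_im, mul_zero, mul_one, sub_zero, add_zero]
    rw [ht]
    field_simp
  · rw [Complex.im_ofReal_mul]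
    simp only [Complex.add_im, Complex.ofReal_re, Complex.mul_im, Complex.I_re, Complex.I_im,
      Complex.ofReal_im, mul_zero, mul_one, add_zero, zero_add]
    field_simp

theorem w2_hA {v : ℂ} (hv : 0 < v.im) :
    hA v = 1 / 2 - Real.arctan ((1 + v.re) / v.im) / Real.pi := by
  have hpi := Real.pi_pos
  unfold hA
  have h1 : 0 < (v + 1).im := by simpa using hv
  rw [w2_arg h1]
  have h2 : (v + 1).re = 1 + v.re := by simp; ring
  have h3 : (v + 1).im = v.im := by simp
  rw [h2, h3]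
  field_simp

theorem w2_hB {v : ℂ} (hv : 0 < v.im) :
    hB v = 1 / 2 - Real.arctan ((1 - v.re) / v.im) / Real.pi := by
  have hpi := Real.pi_pos
  unfold hB
  have h1 : 0 < (v - 1).im := by simpa using hv
  rw [w2_arg h1]
  have h2 : (v - 1).re = -(1 - v.re) := by simp
  have h3 : (v - 1).im = v.im := by simp
  rw [h2, h3, neg_div, Real.arctan_neg]
  field_simp
  ring

theorem hA_mem {v : ℂ} (hv : 0 < v.im) : 0 < hA v ∧ hA v < 1 := by
  have hpi := Real.pi_pos
  rw [w2_hA hv]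
  have hlt := Real.arctan_lt_pi_div_two ((1 + v.re) / v.im)
  have hgt := Real.neg_pi_div_two_lt_arctan ((1 + v.re) / v.im)
  have h1 : Real.arctan ((1 + v.re) / v.im) / Real.pi < 1 / 2 := by
    rw [div_lt_iff₀ hpi]; linarith
  have h2 : -(1 / 2) < Real.arctan ((1 + v.re) / v.im) / Real.pi := by
    rw [lt_div_iff₀ hpi]; linarith
  constructor <;> linarith

theorem hB_mem {v : ℂ} (hv : 0 < v.im) : 0 < hB v ∧ hB v < 1 := by
  have hpi := Real.pi_pos
  rw [w2_hB hv]
  have hlt := Real.arctan_lt_pi_div_two ((1 - v.re) / v.im)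
  have hgt := Real.neg_pi_div_two_lt_arctan ((1 - v.re) / v.im)
  have h1 : Real.arctan ((1 - v.re) / v.im) / Real.pi < 1 / 2 := by
    rw [div_lt_iff₀ hpi]; linarith
  have h2 : -(1 / 2) < Real.arctan ((1 - v.re) / v.im) / Real.pi := by
    rw [lt_div_iff₀ hpi]; linarith
  constructor <;> linarith

theorem hA_add_hB_lt {v : ℂ} (hv : 0 < v.im) : hA v + hB v < 1 := by
  have hpi := Real.pi_pos
  rw [w2_hA hv, w2_hB hv]
  have h1 : -((1 - v.re) / v.im) < (1 + v.re) / v.im := by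
    rw [← neg_div, div_lt_div_iff_of_pos_right hv]
    linarith
  have h2 := Real.arctan_strictMono h1
  rw [Real.arctan_neg] at h2
  have h3 : 0 < (Real.arctan ((1 + v.re) / v.im) + Real.arctan ((1 - v.re) / v.im)) / Real.pi :=
    div_pos (by linarith) hpi
  rw [add_div] at h3
  linarith

theorem w2_sub_le_iff {a b : ℝ} :
    1 / 2 - Real.arctan a / Real.pi ≤ 1 / 2 - Real.arctan b / Real.pi ↔ b ≤ a := by
  have hpi := Real.pi_pos
  rw [sub_le_sub_iff_left, div_le_div_iff_of_pos_right hpi, Real.arctan_strictMono.le_iff_le]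

theorem w2_sub_lt_iff {a b : ℝ} :
    1 / 2 - Real.arctan a / Real.pi < 1 / 2 - Real.arctan b / Real.pi ↔ b < a := by
  have hpi := Real.pi_pos
  rw [sub_lt_sub_iff_left, div_lt_div_iff_of_pos_right hpi, Real.arctan_strictMono.lt_iff_lt]

theorem hA_le_iff {v v' : ℂ} (hv : 0 < v.im) (hv' : 0 < v'.im) :
    hA v ≤ hA v' ↔ (1 + v'.re) / v'.im ≤ (1 + v.re) / v.im := by
  rw [w2_hA hv, w2_hA hv', w2_sub_le_iff]

theorem hB_le_iff {v v' : ℂ} (hv : 0 < v.im) (hv' : 0 < v'.im) :
    hB v ≤ hB v' ↔ (1 - v'.re) / v'.im ≤ (1 - v.re) / v.im := by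
  rw [w2_hB hv, w2_hB hv', w2_sub_le_iff]

theorem hA_symm {v : ℂ} (hv : 0 < v.im) : hA (-starRingEnd ℂ v) = hB v ∧
    hB (-starRingEnd ℂ v) = hA v := by
  have h1 : (-starRingEnd ℂ v).im = v.im := by simp
  have h2 : (-starRingEnd ℂ v).re = -v.re := by simp
  have h3 : 0 < (-starRingEnd ℂ v).im := by rw [h1]; exact hv
  rw [w2_hA h3, w2_hB h3, w2_hA hv, w2_hB hv, h1, h2]
  constructor
  · rw [← sub_eq_add_neg]
  · rw [sub_neg_eq_add]

theorem jou_symm (b : ℂ) : jou (-starRingEnd ℂ b) = -starRingEnd ℂ (jou b) := by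
  unfold jou
  rw [map_div₀, map_neg, map_add, map_inv₀, map_ofNat (starRingEnd ℂ) 2, inv_neg]
  ring

theorem w2_jou_re (z : ℂ) : (jou z).re = -(z.re + z.re / Complex.normSq z) / 2 := by
  unfold jou
  have e1 : -(z + z⁻¹) / 2 = (-(z + z⁻¹)) * ((1 / 2 : ℝ) : ℂ) := by push_cast; ring
  rw [e1, Complex.re_mul_ofReal, Complex.neg_re, Complex.add_re, Complex.inv_re]
  ring

theorem w2_jou_im (z : ℂ) : (jou z).im = (z.im / Complex.normSq z - z.im) / 2 := by
  unfold jou
  have e1 : -(z + z⁻¹) / 2 = (-(z + z⁻¹)) * ((1 / 2 : ℝ) : ℂ) := by push_cast; ring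
  rw [e1, Complex.im_mul_ofReal, Complex.neg_im, Complex.add_im, Complex.inv_im]
  ring

theorem w2_data {b : ℂ} (hb : 0 < b.im) {s : ℝ} (h1 : ‖b‖ < s) :
    0 < s ∧ 0 < Complex.normSq b ∧ Complex.normSq b < s ^ 2 ∧ 0 < (jou (b / s)).im ∧
    (1 + (jou (b / s)).re) / (jou (b / s)).im =
      (2 * Complex.normSq b * s - b.re * (Complex.normSq b + s ^ 2)) /
        (b.im * (s ^ 2 - Complex.normSq b)) ∧
    (1 - (jou (b / s)).re) / (jou (b / s)).im =
      (2 * Complex.normSq b * s + b.re * (Complex.normSq b + s ^ 2)) /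
        (b.im * (s ^ 2 - Complex.normSq b)) := by
  have hb0 : b ≠ 0 := by
    rintro rfl
    simp at hb
  have hs : 0 < s := lt_of_le_of_lt (norm_nonneg _) h1
  have hN : 0 < Complex.normSq b := Complex.normSq_pos.2 hb0
  have hNs : Complex.normSq b < s ^ 2 := by
    rw [Complex.normSq_eq_norm_sq]
    exact pow_lt_pow_left₀ h1 (norm_nonneg _) (by norm_num)
  have hzn : ‖b / s‖ < 1 := by
    rw [norm_div, Complex.norm_real, Real.norm_of_nonneg hs.le, div_lt_one hs]
    exact h1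
  have hzim : (b / s).im = b.im / s := by
    rw [Complex.div_ofReal_im]
  have hzre : (b / s).re = b.re / s := by
    rw [Complex.div_ofReal_re]
  have hzN : Complex.normSq (b / s) = Complex.normSq b / s ^ 2 := by
    rw [Complex.normSq_div, Complex.normSq_ofReal]
    ring
  have hjim : 0 < (jou (b / s)).im := jou_im hzn (by rw [hzim]; exact div_pos hb hs)
  have hd : s ^ 2 - Complex.normSq b ≠ 0 := by linarith
  have e1 : (jou (b / s)).re = -(b.re * (Complex.normSq b + s ^ 2)) /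
      (2 * s * Complex.normSq b) := by
    rw [w2_jou_re, hzre, hzN]
    field_simp
  have e2 : (jou (b / s)).im = b.im * (s ^ 2 - Complex.normSq b) /
      (2 * s * Complex.normSq b) := by
    rw [w2_jou_im, hzim, hzN]
    field_simp
  refine ⟨hs, hN, hNs, hjim, ?_, ?_⟩
  · rw [e1, e2]
    field_simp
    ring
  · rw [e1, e2]
    field_simp
    ring

theorem w2_anti {N x y s t : ℝ} (hN : 0 < N) (hy : 0 < y) (hs : 0 < s) (hNs : N < s ^ 2)
    (hx : x ^ 2 ≤ N) (hst : s < t) :
    (2 * N * t - x * (N + t ^ 2)) / (y * (t ^ 2 - N)) <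
      (2 * N * s - x * (N + s ^ 2)) / (y * (s ^ 2 - N)) := by
  have ht : 0 < t := hs.trans hst
  have hst2 : s ^ 2 < t ^ 2 := pow_lt_pow_left₀ hst hs.le (by norm_num)
  have hd1 : 0 < s ^ 2 - N := by linarith
  have hd2 : 0 < t ^ 2 - N := by linarith
  rw [div_lt_div_iff₀ (mul_pos hy hd2) (mul_pos hy hd1)]
  set m : ℝ := Real.sqrt N with hm
  have hm0 : 0 < m := Real.sqrt_pos.2 hN
  have hm2 : m ^ 2 = N := Real.sq_sqrt hN.le
  have hms : m < s := by
    by_contra hc
    have : s ^ 2 ≤ m ^ 2 := pow_le_pow_left₀ hs.le (not_lt.1 hc) 2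
    linarith
  have hxm : x ≤ m := by
    by_contra hc
    have h1 : m < x := not_le.1 hc
    have : m ^ 2 < x ^ 2 := pow_lt_pow_left₀ h1 hm0.le (by norm_num)
    linarith
  have hkey : 0 < s * t + N - x * (t + s) := by
    have h1 : 0 < (s - m) * (t - m) := mul_pos (by linarith) (by linarith)
    have h2 : x * (t + s) ≤ m * (t + s) := mul_le_mul_of_nonneg_right hxm (by linarith)
    nlinarith
  have hfin : 0 < y * (2 * N * (t - s) * (s * t + N - x * (t + s))) := by
    have : 0 < t - s := by linarith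
    positivity
  nlinarith

theorem w2_re_sq_le (b : ℂ) : b.re ^ 2 ≤ Complex.normSq b := by
  rw [Complex.normSq_apply]
  nlinarith [mul_self_nonneg b.im]

theorem hA_radius {b : ℂ} (hb : 0 < b.im) {s t : ℝ} (h1 : ‖b‖ < s) (h2 : s < t) :
    hA (jou (b / s)) < hA (jou (b / t)) ∧ hB (jou (b / s)) < hB (jou (b / t)) := by
  obtain ⟨hs, hN, hNs, hsim, s1, s2⟩ := w2_data hb h1
  obtain ⟨ht, -, hNt, htim, t1, t2⟩ := w2_data hb (h1.trans h2)
  constructor
  · rw [w2_hA hsim, w2_hA htim, w2_sub_lt_iff, s1, t1]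
    exact w2_anti hN hb hs hNs (w2_re_sq_le b) h2
  · rw [w2_hB hsim, w2_hB htim, w2_sub_lt_iff, s2, t2]
    have h3 := w2_anti (x := -b.re) hN hb hs hNs (by rw [neg_sq]; exact w2_re_sq_le b) h2
    simp only [neg_mul, sub_neg_eq_add] at h3
    exact h3

theorem w2_slit_add {v : ℂ} (hv : 0 < v.im) : v + 1 ∈ slitPlane := by
  rw [Complex.mem_slitPlane_iff]
  right
  simpa using hv.ne'

theorem w2_slit_sub {v : ℂ} (hv : 0 < v.im) : v - 1 ∈ slitPlane := by
  rw [Complex.mem_slitPlane_iff]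
  right
  simpa using hv.ne'

theorem w2_cont_hA {v : ℂ} (hv : 0 < v.im) : ContinuousAt hA v := by
  unfold hA
  refine ContinuousAt.div_const ?_ _
  exact ContinuousAt.comp (f := fun v : ℂ => v + 1) (Complex.continuousAt_arg (w2_slit_add hv))
    (by fun_prop)

theorem w2_cont_hB {v : ℂ} (hv : 0 < v.im) : ContinuousAt hB v := by
  unfold hB
  refine ContinuousAt.sub continuousAt_const (ContinuousAt.div_const ?_ _)
  exact ContinuousAt.comp (f := fun v : ℂ => v - 1) (Complex.continuousAt_arg (w2_slit_sub hv))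
    (by fun_prop)

theorem w2_cont_jou {b : ℂ} (hb : 0 < b.im) {s : ℝ} (h1 : ‖b‖ < s) :
    ContinuousAt (fun t : ℝ => jou (b / t)) s := by
  have hb0 : b ≠ 0 := by
    rintro rfl
    simp at hb
  have hs : 0 < s := lt_of_le_of_lt (norm_nonneg _) h1
  have hs' : (s : ℂ) ≠ 0 := by exact_mod_cast hs.ne'
  have h2 : ContinuousAt (fun t : ℝ => b / (t : ℂ)) s :=
    ContinuousAt.div continuousAt_const Complex.continuous_ofReal.continuousAt hs'
  have h3 : b / (s : ℂ) ≠ 0 := div_ne_zero hb0 hs'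
  unfold jou
  exact ((h2.add (h2.inv₀ h3)).neg).div_const _

theorem hA_radius_cont {b : ℂ} (hb : 0 < b.im) {s : ℝ} (h1 : ‖b‖ < s) :
    ContinuousAt (fun t : ℝ => hA (jou (b / t))) s ∧
    ContinuousAt (fun t : ℝ => hB (jou (b / t))) s := by
  obtain ⟨-, -, -, hsim, -, -⟩ := w2_data hb h1
  have h2 := w2_cont_jou hb h1
  exact ⟨ContinuousAt.comp (f := fun t : ℝ => jou (b / t)) (w2_cont_hA hsim) h2,
    ContinuousAt.comp (f := fun t : ℝ => jou (b / t)) (w2_cont_hB hsim) h2⟩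

/-- Harmonic measures are harmonic. -/
theorem hA_harmonic : InnerProductSpace.HarmonicOnNhd hA UH := by
  intro v hv
  have hv' : 0 < v.im := hv
  have h1 : AnalyticAt ℂ (fun v : ℂ => log (v + 1) * ((1 / Real.pi : ℝ) : ℂ)) v := by
    refine AnalyticAt.mul (AnalyticAt.clog ?_ (w2_slit_add hv')) analyticAt_const
    fun_prop
  have h2 := h1.harmonicAt_im
  have h3 : (fun z : ℂ => (log (z + 1) * ((1 / Real.pi : ℝ) : ℂ)).im) = hA := by
    funext z
    rw [Complex.im_mul_ofReal, Complex.log_im]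
    unfold hA
    ring
  rw [h3] at h2
  exact h2

theorem hB_harmonic : InnerProductSpace.HarmonicOnNhd hB UH := by
  intro v hv
  have hv' : 0 < v.im := hv
  have h1 : AnalyticAt ℂ (fun v : ℂ => I - log (v - 1) * ((1 / Real.pi : ℝ) : ℂ)) v := by
    refine AnalyticAt.sub analyticAt_const
      (AnalyticAt.mul (AnalyticAt.clog ?_ (w2_slit_sub hv')) analyticAt_const)
    fun_prop
  have h2 := h1.harmonicAt_im
  have h3 : (fun z : ℂ => (I - log (z - 1) * ((1 / Real.pi : ℝ) : ℂ)).im) = hB := by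
    funext z
    rw [Complex.sub_im, Complex.im_mul_ofReal, Complex.log_im, Complex.I_im]
    unfold hB
    ring
  rw [h3] at h2
  exact h2

theorem w2_shift (c : ℝ) (x : ℝ) : Tendsto (fun v : ℂ => v + c) (𝓝[UH] (x : ℂ))
    (𝓝[{z : ℂ | 0 ≤ z.im}] ((x + c : ℝ) : ℂ)) := by
  refine tendsto_nhdsWithin_iff.2 ⟨?_, ?_⟩
  · have h1 : Continuous (fun v : ℂ => v + c) := continuous_id.add continuous_const
    have h2 := h1.tendsto (x : ℂ)
    have h3 : (x : ℂ) + c = ((x + c : ℝ) : ℂ) := by push_cast; rfl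
    rw [h3] at h2
    exact h2.mono_left nhdsWithin_le_nhds
  · filter_upwards [self_mem_nhdsWithin] with v hv
    have hv' : 0 < v.im := hv
    show 0 ≤ (v + c).im
    simpa using hv'.le

theorem w2_arg_neg {c x : ℝ} (h : x + c < 0) :
    Tendsto (fun v : ℂ => arg (v + c)) (𝓝[UH] (x : ℂ)) (𝓝 Real.pi) := by
  have h1 := Complex.tendsto_arg_nhdsWithin_im_nonneg_of_re_neg_of_im_zero
    (z := ((x + c : ℝ) : ℂ)) (by rw [Complex.ofReal_re]; exact h) (Complex.ofReal_im _)
  exact h1.comp (w2_shift c x)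

theorem w2_arg_pos {c x : ℝ} (h : 0 < x + c) :
    Tendsto (fun v : ℂ => arg (v + c)) (𝓝[UH] (x : ℂ)) (𝓝 0) := by
  have hs : ((x + c : ℝ) : ℂ) ∈ slitPlane := by
    rw [Complex.mem_slitPlane_iff]
    left
    rw [Complex.ofReal_re]
    exact h
  have h1 := (Complex.continuousAt_arg hs).tendsto
  rw [Complex.arg_ofReal_of_nonneg h.le] at h1
  exact h1.comp ((w2_shift c x).mono_right nhdsWithin_le_nhds)

/-- Boundary values of the harmonic measures. -/
theorem hA_left {x : ℝ} (hx : x < -1) : Tendsto hA (𝓝[UH] (x : ℂ)) (𝓝 1) := by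
  have h1 := (w2_arg_neg (c := 1) (x := x) (by linarith)).div_const Real.pi
  rw [div_self Real.pi_ne_zero] at h1
  refine h1.congr fun v => ?_
  unfold hA
  push_cast
  rfl

theorem hA_right {x : ℝ} (hx : -1 < x) : Tendsto hA (𝓝[UH] (x : ℂ)) (𝓝 0) := by
  have h1 := (w2_arg_pos (c := 1) (x := x) (by linarith)).div_const Real.pi
  rw [zero_div] at h1
  refine h1.congr fun v => ?_
  unfold hA
  push_cast
  rfl

theorem hB_right {x : ℝ} (hx : 1 < x) : Tendsto hB (𝓝[UH] (x : ℂ)) (𝓝 1) := by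
  have h1 := ((w2_arg_pos (c := -1) (x := x) (by linarith)).div_const Real.pi).const_sub 1
  rw [zero_div, sub_zero] at h1
  refine h1.congr fun v => ?_
  unfold hB
  push_cast
  rw [← sub_eq_add_neg]

theorem hB_left {x : ℝ} (hx : x < 1) : Tendsto hB (𝓝[UH] (x : ℂ)) (𝓝 0) := by
  have h1 := ((w2_arg_neg (c := -1) (x := x) (by linarith)).div_const Real.pi).const_sub 1
  rw [div_self Real.pi_ne_zero, sub_self] at h1
  refine h1.congr fun v => ?_
  unfold hB
  push_cast
  rw [← sub_eq_add_neg]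

/-- The imaginary axis. -/
theorem hA_imag {t : ℝ} (h0 : 0 < t) (h1 : t < 1) :
    hA (jou (t * I)) = 1 / 2 - 2 / Real.pi * Real.arctan t ∧
    hB (jou (t * I)) = 1 / 2 - 2 / Real.pi * Real.arctan t := by
  have hN : Complex.normSq (t * I) = t ^ 2 := by
    rw [Complex.normSq_mul, Complex.normSq_ofReal, Complex.normSq_I]
    ring
  have hre : ((t : ℂ) * I).re = 0 := by simp
  have him : ((t : ℂ) * I).im = t := by simp
  have e1 : (jou (t * I)).re = 0 := by
    rw [w2_jou_re, hre]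
    simp
  have e2 : (jou (t * I)).im = (1 - t ^ 2) / (2 * t) := by
    rw [w2_jou_im, him, hN]
    field_simp
  have ht2 : 0 < 1 - t ^ 2 := by nlinarith
  have h3 : 0 < (jou (t * I)).im := by
    rw [e2]
    positivity
  have h4 : 2 * Real.arctan t = Real.arctan (2 * t / (1 - t ^ 2)) :=
    Real.two_mul_arctan (by linarith) h1
  have h5 : (1 : ℝ) / ((1 - t ^ 2) / (2 * t)) = 2 * t / (1 - t ^ 2) := by
    rw [one_div_div]
  rw [w2_hA h3, w2_hB h3, e1, e2, add_zero, sub_zero, h5, ← h4]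
  constructor <;> ring

end Pool.Agent.Choc
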