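import Pool.Agent.Lib.MP_2b3e36_an.Ex.V0
import Pool.Agent.Lib.MP_2b3e36_an.Ex.W2

/-!
H1. The harmonic measures of `V y` from the conformal map.

Proof. `h₁ q = hA (X⁻¹ q)`, `h₂ q = hB (X⁻¹ q)` on `V y` (`Function.invFunOn X UH`). `X⁻¹ : V y → UH` is
holomorphic (injective holomorphic maps have holomorphic inverses), so `h₁, h₂` are harmonic, with
values in `[0,1]`.
Boundary values of `X`: `X` has a limit at every real point: at `x < -1` the limit `nome (τ x) ∈ slit y`; at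
`-1`: `1`; at `-1 < x < 1`: a point of `upperArc`; at `1`: `-1`; at `x > 1`: a point of `geo`; at infinity:
`1` (`log p → ∞`).
Let `q_n ∈ V y`, `q_n → ζ ∈ slit y`, `v_n = X⁻¹ q_n`. If `h₁ q_n` does not tend to `1` pass to a
subsequence with `h₁ q_n ≤ 1 - ε` and `v_n → v∞ ∈ UH ∪ ℝ ∪ {∞}`. `v∞ ∈ UH` is impossible (`X v∞ ∈ V y`
but `X v∞ = ζ ∉ V y`). So `v∞` is a boundary point where `X` has the limit `ζ ∈ slit y`; the slit is disjoint
from `{1,-1}`, `upperArc`, `geo`; so `v∞ = x < -1`, where `hA → 1`: contradiction. The same for `h₂` (`→ 0`)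
and for `ζ ∈ geo` (`v∞ = x > 1`) and `ζ ∈ upperArc` (`v∞ ∈ (-1,1)`).
(`geo` and `slit y` are disjoint: real parts of `τ` in `(-1,0)` against `0` modulo `2`.)
-/

set_option autoImplicit false

open Complex Set Filter Topology Metric

namespace Pool.Agent.Choc

theorem h1_comp {h : ℂ → ℝ} {g : ℂ → ℂ} {z : ℂ} (hh : InnerProductSpace.HarmonicAt h (g z))
    (hg : AnalyticAt ℂ g z) : InnerProductSpace.HarmonicAt (fun w => h (g w)) z := by
  obtain ⟨R, hR, hball⟩ := Metric.eventually_nhds_iff_ball.1 hh.eventually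
  obtain ⟨F, hF1, hF2⟩ :=
    InnerProductSpace.HarmonicOnNhd.exists_analyticOnNhd_ball_re_eq (f := h) (z := g z) (R := R)
      (fun x hx => hball x hx)
  have h1 : AnalyticAt ℂ (fun w => F (g w)) z :=
    (hF1 (g z) (mem_ball_self hR)).fun_comp hg
  have h2 := h1.harmonicAt_re
  have h3 : ∀ᶠ w in 𝓝 z, g w ∈ ball (g z) R :=
    hg.continuousAt.eventually (ball_mem_nhds (g z) hR)
  refine (InnerProductSpace.harmonicAt_congr_nhds ?_).1 h2
  filter_upwards [h3] with w hw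
  exact hF2 hw

theorem h1_UH_open : IsOpen UH := isOpen_lt continuous_const Complex.continuous_im

theorem h1_nome_cont : Continuous nome := by
  unfold nome
  fun_prop

theorem h1_nome_re_im (τ : ℂ) : (nome τ).re = Real.exp (-Real.pi * τ.im) * Real.cos (Real.pi * τ.re) ∧
    (nome τ).im = Real.exp (-Real.pi * τ.im) * Real.sin (Real.pi * τ.re) := by
  unfold nome
  rw [Complex.exp_re, Complex.exp_im]
  have h1 : (↑Real.pi * I * τ).re = -Real.pi * τ.im := by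
    simp [Complex.mul_re, Complex.mul_im]
  have h2 : (↑Real.pi * I * τ).im = Real.pi * τ.re := by
    simp [Complex.mul_re, Complex.mul_im]
  rw [h1, h2]
  exact ⟨rfl, rfl⟩

theorem h1_slit_im {y : ℝ} {q : ℂ} (hq : q ∈ slit y) : q.im = 0 ∧ 0 < q.re ∧ q.re < 1 := by
  obtain ⟨t, ht1, ht2, rfl⟩ := hq
  obtain ⟨h1, h2⟩ := h1_nome_re_im (t * I)
  have h3 : ((t : ℂ) * I).re = 0 := by simp
  have h4 : ((t : ℂ) * I).im = t := by simp
  rw [h3, mul_zero, Real.sin_zero, mul_zero] at h2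
  rw [h3, h4, mul_zero, Real.cos_zero, mul_one] at h1
  refine ⟨h2, ?_, ?_⟩
  · rw [h1]
    exact Real.exp_pos _
  · rw [h1, Real.exp_lt_one_iff]
    nlinarith [Real.pi_pos]

theorem h1_sig_re {τ : ℂ} (h0 : 0 < τ.im) (h1 : ‖τ + 1 / 2‖ = 1 / 2) : -1 < τ.re ∧ τ.re < 0 := by
  have h2 : |(τ + 1 / 2).re| < ‖τ + 1 / 2‖ := by
    refine lt_of_le_of_ne (Complex.abs_re_le_norm _) ?_
    intro h
    have h3 := Complex.abs_re_eq_norm.1 h
    have h4 : (τ + 1 / 2).im = τ.im := by simp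
    rw [h4] at h3
    exact h0.ne' h3
  have h3 : (τ + 1 / 2).re = τ.re + 1 / 2 := by simp
  rw [h1, h3, abs_lt] at h2
  constructor <;> linarith [h2.1, h2.2]

theorem h1_sig_im {τ : ℂ} (h0 : 0 < τ.im) (h1 : ‖τ + 1 / 2‖ = 1 / 2) : (nome τ).im < 0 := by
  obtain ⟨h2, h3⟩ := h1_sig_re h0 h1
  rw [(h1_nome_re_im τ).2]
  have h4 : Real.sin (Real.pi * τ.re) < 0 := by
    refine Real.sin_neg_of_neg_of_neg_pi_lt ?_ ?_
    · exact mul_neg_of_pos_of_neg Real.pi_pos h3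
    · nlinarith [Real.pi_pos]
  exact mul_neg_of_pos_of_neg (Real.exp_pos _) h4

theorem h1_geo_im {q : ℂ} (hq : q ∈ geo) : q.im < 0 := by
  obtain ⟨τ, h1, h2, rfl⟩ := hq
  exact h1_sig_im h1 h2

/-- limits of the conformal map at the real points -/
theorem h1_class {y : ℝ} {X : ℂ → ℂ} {v₀ : ℂ} {vc : ℝ} (hX : Model y X v₀ vc) (x : ℝ) :
    ∃ ℓ : ℂ, Tendsto X (𝓝[UH] (x : ℂ)) (𝓝 ℓ) ∧
      ((x < -1 ∧ ℓ.im = 0) ∨ (x = -1 ∧ ℓ = 1) ∨ (-1 < x ∧ x < 1 ∧ 0 < ℓ.im) ∨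
        (x = 1 ∧ ℓ = -1) ∨ (1 < x ∧ ℓ.im < 0)) := by
  -- the common part
  have key : ∀ (a : ℂ) (r : ℝ) (g : ℂ → ℂ) (ℓ : ℂ), 0 < r →
      (∀ v ∈ ball a r, 0 < v.im → X v = g v) → Tendsto g (𝓝[UH] a) (𝓝 ℓ) →
      Tendsto X (𝓝[UH] a) (𝓝 ℓ) := by
    intro a r g ℓ hr h1 h2
    refine h2.congr' ?_
    have h3 : ∀ᶠ v in 𝓝[UH] a, v ∈ ball a r :=
      mem_nhdsWithin_of_mem_nhds (ball_mem_nhds a hr)
    have h4 : ∀ᶠ v in 𝓝[UH] a, v ∈ UH := self_mem_nhdsWithin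
    filter_upwards [h3, h4] with v hv1 hv2
    exact (h1 v hv1 hv2).symm
  have key2 : ∀ (a : ℂ) (r : ℝ) (τ : ℂ → ℂ), 0 < r → DifferentiableOn ℂ τ (ball a r) →
      (∀ v ∈ ball a r, 0 < v.im → X v = nome (τ v)) →
      Tendsto X (𝓝[UH] a) (𝓝 (nome (τ a))) := by
    intro a r τ hr h1 h2
    refine key a r (fun v => nome (τ v)) _ hr h2 ?_
    have h3 : ContinuousAt τ a := (h1.differentiableAt (ball_mem_nhds a hr)).continuousAt
    exact (h1_nome_cont.continuousAt.comp h3).tendsto.mono_left nhdsWithin_le_nhds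
  rcases lt_trichotomy x (-1) with h | h | h
  · obtain ⟨r, hr, τ, h1, h2, h3, _⟩ := hX.slit x h
    refine ⟨_, key2 x r τ hr h1 h2, Or.inl ⟨h, ?_⟩⟩
    obtain ⟨h4, h5, h6⟩ := h3 x (mem_ball_self hr)
    rw [(h1_nome_re_im _).2, h4, mul_zero, Real.sin_zero, mul_zero]
  · subst h
    refine ⟨1, ?_, Or.inr (Or.inl ⟨rfl, rfl⟩)⟩
    obtain ⟨r, hr, α, h1, h2, _, h3⟩ := hX.negOne
    have e : ((-1 : ℝ) : ℂ) = -1 := by norm_num
    rw [e]
    refine key (-1) r (fun v => nome ((α v) ^ ((1 : ℂ) / 2))) 1 hr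
      (fun v hv1 hv2 => (h3 v hv1 hv2).2) ?_
    have h4 : ContinuousAt α (-1) := (h1.differentiableAt (ball_mem_nhds _ hr)).continuousAt
    have h5 : Tendsto (fun v => (α v) ^ ((1 : ℂ) / 2)) (𝓝 (-1)) (𝓝 (0 ^ ((1 : ℂ) / 2))) := by
      have h6 : ContinuousAt (fun x : ℂ × ℂ => x.1 ^ x.2) (0, (1 : ℂ) / 2) :=
        Complex.continuousAt_cpow_zero_of_re_pos (by norm_num)
      have h7 : Tendsto (fun v => (α v, (1 : ℂ) / 2)) (𝓝 (-1)) (𝓝 (0, (1 : ℂ) / 2)) := by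
        refine Tendsto.prodMk_nhds ?_ tendsto_const_nhds
        rw [← h2]
        exact h4
      exact h6.tendsto.comp h7
    rw [Complex.zero_cpow (by norm_num)] at h5
    have h6 : Tendsto (fun v => nome ((α v) ^ ((1 : ℂ) / 2))) (𝓝 (-1)) (𝓝 (nome 0)) :=
      (h1_nome_cont.tendsto 0).comp h5
    have h7 : nome 0 = 1 := by simp [nome]
    rw [h7] at h6
    exact h6.mono_left nhdsWithin_le_nhds
  rcases lt_trichotomy x 1 with h' | h' | h'
  · obtain ⟨r, hr, τ, h1, h2, h3, h4, _⟩ := hX.free x h h'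
    exact ⟨_, key2 x r τ hr h1 h2, Or.inr (Or.inr (Or.inl ⟨h, h', h4⟩))⟩
  · subst h'
    refine ⟨-1, ?_, Or.inr (Or.inr (Or.inr (Or.inl ⟨rfl, rfl⟩)))⟩
    obtain ⟨r, hr, α, h1, h2, _, h3⟩ := hX.posOne
    rw [Complex.ofReal_one]
    refine key 1 r (fun v => nome (-1 / (1 + I * (α v) ^ ((1 : ℂ) / 2)))) (-1) hr
      (fun v hv1 hv2 => (h3 v hv1 hv2).2) ?_
    have h4 : ContinuousAt α 1 := (h1.differentiableAt (ball_mem_nhds _ hr)).continuousAt
    have h5 : Tendsto (fun v => (α v) ^ ((1 : ℂ) / 2)) (𝓝 1) (𝓝 (0 ^ ((1 : ℂ) / 2))) := by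
      have h6 : ContinuousAt (fun x : ℂ × ℂ => x.1 ^ x.2) (0, (1 : ℂ) / 2) :=
        Complex.continuousAt_cpow_zero_of_re_pos (by norm_num)
      have h7 : Tendsto (fun v => (α v, (1 : ℂ) / 2)) (𝓝 1) (𝓝 (0, (1 : ℂ) / 2)) := by
        refine Tendsto.prodMk_nhds ?_ tendsto_const_nhds
        rw [← h2]
        exact h4
      exact h6.tendsto.comp h7
    rw [Complex.zero_cpow (by norm_num)] at h5
    have h5' : Tendsto (fun v => 1 + I * (α v) ^ ((1 : ℂ) / 2)) (𝓝 1) (𝓝 (1 + I * 0)) :=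
      (h5.const_mul I).const_add 1
    have h5'' : Tendsto (fun v => -1 / (1 + I * (α v) ^ ((1 : ℂ) / 2))) (𝓝 1)
        (𝓝 (-1 / (1 + I * 0))) := by
      refine tendsto_const_nhds.div h5' ?_
      rw [mul_zero, add_zero]
      exact one_ne_zero
    have h6 : Tendsto (fun v => nome (-1 / (1 + I * (α v) ^ ((1 : ℂ) / 2)))) (𝓝 1)
        (𝓝 (nome (-1 / (1 + I * 0)))) := (h1_nome_cont.tendsto _).comp h5''
    have h7 : nome (-1 / (1 + I * 0)) = -1 := by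
      unfold nome
      rw [mul_zero, add_zero, div_one, mul_neg, mul_one, Complex.exp_neg, Complex.exp_pi_mul_I]
      norm_num
    rw [h7] at h6
    exact h6.mono_left nhdsWithin_le_nhds
  · obtain ⟨r, hr, τ, h1, h2, h3, _⟩ := hX.arc x h'
    refine ⟨_, key2 x r τ hr h1 h2, Or.inr (Or.inr (Or.inr (Or.inr ⟨h', ?_⟩)))⟩
    have h4 : τ x ∈ Sig := h3 x (mem_ball_self hr)
    exact h1_sig_im h4.1 h4.2

theorem h1_infty {y : ℝ} {X : ℂ → ℂ} {v₀ : ℂ} {vc : ℝ} (hX : Model y X v₀ vc) :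
    Tendsto (fun u => X (-1 / u)) (𝓝[UH] (0 : ℂ)) (𝓝 1) := by
  obtain ⟨r, hr, p, h1, h2, _, _, h3⟩ := hX.infty
  have hp : ContinuousAt p 0 := (h1.differentiableAt (ball_mem_nhds _ hr)).continuousAt
  have e3 : ∀ᶠ v in 𝓝[UH] (0 : ℂ), v ∈ ball (0 : ℂ) r :=
    mem_nhdsWithin_of_mem_nhds (ball_mem_nhds _ hr)
  have e4 : ∀ᶠ v in 𝓝[UH] (0 : ℂ), v ∈ UH := self_mem_nhdsWithin
  have h4 : Tendsto p (𝓝[UH] 0) (𝓝[≠] 0) := by
    refine tendsto_nhdsWithin_iff.2 ⟨?_, ?_⟩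
    · have h5 := hp.tendsto
      rw [h2] at h5
      exact h5.mono_left nhdsWithin_le_nhds
    · filter_upwards [e3, e4] with v hv1 hv2
      have h5 := (h3 v hv1 hv2).1
      intro h6
      rw [mem_singleton_iff] at h6
      rw [h6, Complex.zero_im] at h5
      exact lt_irrefl _ h5
  have h5 : Tendsto (fun v => ‖p v‖) (𝓝[UH] 0) (𝓝[≠] 0) := by
    refine tendsto_nhdsWithin_iff.2 ⟨?_, ?_⟩
    · have h6 := (tendsto_nhdsWithin_iff.1 h4).1.norm
      rwa [norm_zero] at h6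
    · filter_upwards [(tendsto_nhdsWithin_iff.1 h4).2] with v hv
      intro h6
      exact hv (norm_eq_zero.1 h6)
  have h6 : Tendsto (fun v => Real.log ‖p v‖) (𝓝[UH] 0) atBot :=
    Real.tendsto_log_nhdsNE_zero.comp h5
  have h7 : Tendsto (fun v => ‖log (p v)‖) (𝓝[UH] 0) atTop := by
    refine tendsto_atTop_mono ?_ (tendsto_neg_atBot_atTop.comp h6)
    intro v
    show -Real.log ‖p v‖ ≤ ‖log (p v)‖
    have h8 := Complex.abs_re_le_norm (log (p v))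
    rw [Complex.log_re] at h8
    exact (neg_le_abs _).trans h8
  have h8 : Tendsto (fun v => (log (p v))⁻¹) (𝓝[UH] 0) (𝓝 0) := by
    rw [tendsto_zero_iff_norm_tendsto_zero]
    have h9 := tendsto_inv_atTop_zero.comp h7
    refine h9.congr ?_
    intro v
    show ‖log (p v)‖⁻¹ = ‖(log (p v))⁻¹‖
    rw [norm_inv]
  have h9 : Tendsto (fun v => -(Real.pi * I) / log (p v)) (𝓝[UH] 0) (𝓝 0) := by
    have h10 := h8.const_mul (-(Real.pi * I))
    rw [mul_zero] at h10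
    exact h10
  have h10 : Tendsto (fun v => nome (-(Real.pi * I) / log (p v))) (𝓝[UH] 0) (𝓝 1) := by
    have h11 := (h1_nome_cont.tendsto 0).comp h9
    have h12 : nome 0 = 1 := by simp [nome]
    rw [h12] at h11
    exact h11
  refine h10.congr' ?_
  filter_upwards [e3, e4] with v hv1 hv2
  exact ((h3 v hv1 hv2).2.2).symm

theorem h1_neBot (x : ℝ) : (𝓝[UH] (x : ℂ)).NeBot := by
  rw [← mem_closure_iff_nhdsWithin_neBot, Metric.mem_closure_iff]
  intro ε hε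
  refine ⟨(x : ℂ) + ((ε / 2 : ℝ) : ℂ) * I, ?_, ?_⟩
  · show 0 < ((x : ℂ) + ((ε / 2 : ℝ) : ℂ) * I).im
    have h1 : ((x : ℂ) + ((ε / 2 : ℝ) : ℂ) * I).im = ε / 2 := by simp
    rw [h1]
    linarith
  · rw [dist_comm, dist_eq_norm, add_sub_cancel_left, norm_mul, Complex.norm_I, mul_one,
      Complex.norm_real, Real.norm_of_nonneg (by linarith)]
    linarith

theorem h1_neg_inv_im {v : ℂ} (hv : 0 < v.im) : 0 < (-1 / v).im := by
  have h1 : v ≠ 0 := by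
    intro h
    rw [h, Complex.zero_im] at hv
    exact lt_irrefl _ hv
  have h2 : (-1 / v).im = v.im / Complex.normSq v := by
    rw [neg_div, one_div, Complex.neg_im, Complex.inv_im]
    ring
  rw [h2]
  exact div_pos hv (Complex.normSq_pos.2 h1)

/-- transfer of boundary values -/
theorem h1_bd {y : ℝ} {X : ℂ → ℂ} {v₀ : ℂ} {vc : ℝ} (hX : Model y X v₀ vc) {iv : ℂ → ℂ}
    (hiv1 : ∀ q ∈ V y, iv q ∈ UH) (hiv2 : ∀ q ∈ V y, X (iv q) = q)
    {ζ : ℂ} (hζ : ζ ∉ V y) (hζ1 : ζ ≠ 1) (φ : ℂ → ℝ) (a : ℝ)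
    (hφ : ∀ x : ℝ, Tendsto X (𝓝[UH] (x : ℂ)) (𝓝 ζ) → Tendsto φ (𝓝[UH] (x : ℂ)) (𝓝 a)) :
    Tendsto (fun q => φ (iv q)) (𝓝[V y] ζ) (𝓝 a) := by
  rw [tendsto_iff_ultrafilter]
  intro u hu
  have hu1 : (u : Filter ℂ) ≤ 𝓝 ζ := hu.trans nhdsWithin_le_nhds
  have hu2 : ∀ᶠ q in (u : Filter ℂ), q ∈ V y := hu self_mem_nhdsWithin
  have hUH : ∀ᶠ v in ((u.map iv : Ultrafilter ℂ) : Filter ℂ), v ∈ UH := by
    show ∀ᶠ q in (u : Filter ℂ), iv q ∈ UH
    exact hu2.mono fun q hq => hiv1 q hq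
  have hXu : Tendsto (fun q => X (iv q)) (u : Filter ℂ) (𝓝 ζ) := by
    refine Tendsto.congr' (f₁ := fun q => q) ?_ hu1
    exact hu2.mono fun q hq => (hiv2 q hq).symm
  by_cases hb : ∃ R : ℝ, closedBall (0 : ℂ) R ∈ (u.map iv : Ultrafilter ℂ)
  · obtain ⟨R, hR⟩ := hb
    obtain ⟨w, _, hw⟩ := (isCompact_closedBall (0 : ℂ) R).ultrafilter_le_nhds' _ hR
    have hwt : Tendsto iv (u : Filter ℂ) (𝓝 w) := hw
    have him : 0 ≤ w.im := by
      have h1 : IsClosed {z : ℂ | 0 ≤ z.im} := isClosed_le continuous_const Complex.continuous_im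
      refine h1.mem_of_tendsto hwt ?_
      exact hu2.mono fun q hq => (show 0 ≤ (iv q).im from (hiv1 q hq).le)
    rcases him.lt_or_eq with him1 | him1
    · exfalso
      have h1 : ContinuousAt X w :=
        (hX.diff.differentiableAt (h1_UH_open.mem_nhds him1)).continuousAt
      have h2 : Tendsto (fun q => X (iv q)) (u : Filter ℂ) (𝓝 (X w)) := h1.tendsto.comp hwt
      have h3 : ζ = X w := tendsto_nhds_unique hXu h2
      apply hζ
      rw [h3, ← hX.img]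
      exact ⟨w, him1, rfl⟩
    · have hwr : w = ((w.re : ℝ) : ℂ) := by
        apply Complex.ext
        · rw [Complex.ofReal_re]
        · rw [Complex.ofReal_im]
          exact him1.symm
      have hwt2 : Tendsto iv (u : Filter ℂ) (𝓝[UH] ((w.re : ℝ) : ℂ)) := by
        refine tendsto_nhdsWithin_iff.2 ⟨?_, hu2.mono fun q hq => hiv1 q hq⟩
        rw [← hwr]
        exact hwt
      obtain ⟨ℓ, hℓ, _⟩ := h1_class hX w.re
      have h2 : Tendsto (fun q => X (iv q)) (u : Filter ℂ) (𝓝 ℓ) := hℓ.comp hwt2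
      have h3 : ζ = ℓ := tendsto_nhds_unique hXu h2
      rw [← h3] at hℓ
      exact (hφ w.re hℓ).comp hwt2
  · exfalso
    push Not at hb
    have h1 : Tendsto (fun q => ‖iv q‖) (u : Filter ℂ) atTop := by
      rw [Filter.tendsto_atTop]
      intro R
      have h2 := (Ultrafilter.compl_mem_iff_notMem.2 (hb R))
      have h3 : ∀ᶠ q in (u : Filter ℂ), iv q ∉ closedBall (0 : ℂ) R := h2
      filter_upwards [h3] with q hq
      rw [mem_closedBall_zero_iff, not_le] at hq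
      exact hq.le
    have h2 : Tendsto (fun q => -1 / iv q) (u : Filter ℂ) (𝓝[UH] (0 : ℂ)) := by
      refine tendsto_nhdsWithin_iff.2 ⟨?_, hu2.mono fun q hq => h1_neg_inv_im (hiv1 q hq)⟩
      rw [tendsto_zero_iff_norm_tendsto_zero]
      refine (tendsto_inv_atTop_zero.comp h1).congr ?_
      intro q
      show ‖iv q‖⁻¹ = ‖-1 / iv q‖
      rw [norm_div, norm_neg, norm_one, one_div]
    have h3 : Tendsto (fun q => X (-1 / (-1 / iv q))) (u : Filter ℂ) (𝓝 1) :=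
      (h1_infty hX).comp h2
    have h4 : Tendsto (fun q => X (iv q)) (u : Filter ℂ) (𝓝 1) := by
      refine h3.congr ?_
      intro q
      rw [div_div_cancel₀ (by norm_num : (-1 : ℂ) ≠ 0)]
    exact hζ1 (tendsto_nhds_unique hXu h4)

theorem harmPair_of_model {y : ℝ} {X : ℂ → ℂ} {v₀ : ℂ} {vc : ℝ} (hX : Model y X v₀ vc) :
    ∃ h₁ h₂ : ℂ → ℝ, HarmPair y h₁ h₂ ∧ (∀ v ∈ UH, h₁ (X v) = hA v ∧ h₂ (X v) = hB v) := by
  classical
  set iv : ℂ → ℂ := Function.invFunOn X UH with hiv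
  have himg : ∀ q ∈ V y, ∃ v ∈ UH, X v = q := by
    intro q hq
    rw [← hX.img] at hq
    exact hq
  have hiv1 : ∀ q ∈ V y, iv q ∈ UH := fun q hq => Function.invFunOn_mem (himg q hq)
  have hiv2 : ∀ q ∈ V y, X (iv q) = q := fun q hq => Function.invFunOn_eq (himg q hq)
  have hXV : ∀ v ∈ UH, X v ∈ V y := by
    intro v hv
    rw [← hX.img]
    exact ⟨v, hv, rfl⟩
  have hiv3 : ∀ v ∈ UH, iv (X v) = v := by
    intro v hv
    exact hX.inj (hiv1 _ (hXV v hv)) hv (hiv2 _ (hXV v hv))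
  have hVo := V_isOpen hX.y_pos
  have hstrict : ∀ v ∈ UH, HasStrictDerivAt X (deriv X v) v := by
    intro v hv
    have h1 : AnalyticAt ℂ X v := hX.diff.analyticAt (h1_UH_open.mem_nhds hv)
    exact h1.hasStrictDerivAt
  have hcont : ∀ q ∈ V y, ContinuousAt iv q := by
    intro q hq
    have h1 := (hstrict (iv q) (hiv1 q hq)).map_nhds_eq (hX.deriv_ne _ (hiv1 q hq))
    rw [hiv2 q hq] at h1
    show Tendsto iv (𝓝 q) (𝓝 (iv q))
    rw [← h1, tendsto_map'_iff]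
    have h2 : ∀ᶠ v in 𝓝 (iv q), v ∈ UH := h1_UH_open.mem_nhds (hiv1 q hq)
    refine tendsto_id.congr' ?_
    filter_upwards [h2] with v hv
    exact (hiv3 v hv).symm
  have hdiff : DifferentiableOn ℂ iv (V y) := by
    intro q hq
    have h1 : ∀ᶠ p in 𝓝 q, X (iv p) = p := by
      filter_upwards [hVo.mem_nhds hq] with p hp
      exact hiv2 p hp
    have h2 := HasDerivAt.of_local_left_inverse (hcont q hq)
      (hstrict (iv q) (hiv1 q hq)).hasDerivAt (hX.deriv_ne _ (hiv1 q hq)) h1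
    exact h2.differentiableAt.differentiableWithinAt
  have hslit : ∀ ζ ∈ slit y, ζ ∉ V y ∧ ζ ≠ 1 := by
    intro ζ hζ
    refine ⟨fun h => h.2.2 hζ, ?_⟩
    rintro rfl
    have h1 := (h1_slit_im hζ).2.2
    rw [Complex.one_re] at h1
    exact lt_irrefl _ h1
  have hgeo : ∀ ζ ∈ geo, ζ ∉ V y ∧ ζ ≠ 1 := by
    intro ζ hζ
    refine ⟨fun h => h.2.1 ?_, ?_⟩
    · obtain ⟨τ, h1, h2, h3⟩ := hζ
      exact ⟨τ, h1, h2.le, h3⟩
    · rintro rfl
      have h1 := h1_geo_im hζ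
      rw [Complex.one_im] at h1
      exact lt_irrefl _ h1
  have harc : ∀ ζ ∈ upperArc, ζ ∉ V y ∧ ζ ≠ 1 := by
    intro ζ hζ
    refine ⟨fun h => h.1.ne hζ.1, ?_⟩
    rintro rfl
    have h1 := hζ.2
    rw [Complex.one_im] at h1
    exact lt_irrefl _ h1
  -- the position of the point where the limit is taken
  have hposl : ∀ ζ ∈ slit y, ∀ x : ℝ, Tendsto X (𝓝[UH] (x : ℂ)) (𝓝 ζ) → x < -1 := by
    intro ζ hζ x hx
    obtain ⟨ℓ, hℓ, hc⟩ := h1_class hX x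
    have hne : (𝓝[UH] (x : ℂ)).NeBot := h1_neBot x
    have h1 : ζ = ℓ := tendsto_nhds_unique hx hℓ
    rw [← h1] at hc
    obtain ⟨h2, h3, h4⟩ := h1_slit_im hζ
    rcases hc with h | h | h | h | h
    · exact h.1
    · rw [h.2, Complex.one_re] at h4
      exact absurd h4 (lt_irrefl _)
    · exact absurd h2 h.2.2.ne'
    · rw [h.2, Complex.neg_re, Complex.one_re] at h3
      linarith
    · exact absurd h2 h.2.ne
  have hposg : ∀ ζ ∈ geo, ∀ x : ℝ, Tendsto X (𝓝[UH] (x : ℂ)) (𝓝 ζ) → 1 < x := by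
    intro ζ hζ x hx
    obtain ⟨ℓ, hℓ, hc⟩ := h1_class hX x
    have hne : (𝓝[UH] (x : ℂ)).NeBot := h1_neBot x
    have h1 : ζ = ℓ := tendsto_nhds_unique hx hℓ
    rw [← h1] at hc
    have h2 := h1_geo_im hζ
    rcases hc with h | h | h | h | h
    · exact absurd h.2 h2.ne
    · rw [h.2, Complex.one_im] at h2
      exact absurd h2 (lt_irrefl _)
    · exact absurd h.2.2 h2.not_gt
    · rw [h.2, Complex.neg_im, Complex.one_im, neg_zero] at h2
      exact absurd h2 (lt_irrefl _)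
    · exact h.1
  have hposa : ∀ ζ ∈ upperArc, ∀ x : ℝ, Tendsto X (𝓝[UH] (x : ℂ)) (𝓝 ζ) → -1 < x ∧ x < 1 := by
    intro ζ hζ x hx
    obtain ⟨ℓ, hℓ, hc⟩ := h1_class hX x
    have hne : (𝓝[UH] (x : ℂ)).NeBot := h1_neBot x
    have h1 : ζ = ℓ := tendsto_nhds_unique hx hℓ
    rw [← h1] at hc
    have h2 := hζ.2
    rcases hc with h | h | h | h | h
    · exact absurd h.2 h2.ne'
    · rw [h.2, Complex.one_im] at h2
      exact absurd h2 (lt_irrefl _)
    · exact ⟨h.1, h.2.1⟩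
    · rw [h.2, Complex.neg_im, Complex.one_im, neg_zero] at h2
      exact absurd h2 (lt_irrefl _)
    · exact absurd h.2 h2.not_gt
  refine ⟨fun q => hA (iv q), fun q => hB (iv q), ?_, ?_⟩
  · constructor
    · intro q hq
      exact h1_comp (g := iv) (hA_harmonic _ (hiv1 q hq)) (hdiff.analyticAt (hVo.mem_nhds hq))
    · intro q hq
      exact h1_comp (g := iv) (hB_harmonic _ (hiv1 q hq)) (hdiff.analyticAt (hVo.mem_nhds hq))
    · intro q hq
      have h1 := hA_mem (hiv1 q hq)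
      exact ⟨h1.1.le, h1.2.le⟩
    · intro q hq
      have h1 := hB_mem (hiv1 q hq)
      exact ⟨h1.1.le, h1.2.le⟩
    · intro ζ hζ
      exact h1_bd hX hiv1 hiv2 (hslit ζ hζ).1 (hslit ζ hζ).2 hA 1
        (fun x hx => hA_left (hposl ζ hζ x hx))
    · intro ζ hζ
      exact h1_bd hX hiv1 hiv2 (hslit ζ hζ).1 (hslit ζ hζ).2 hB 0
        (fun x hx => hB_left (by linarith [hposl ζ hζ x hx]))
    · intro ζ hζ
      exact h1_bd hX hiv1 hiv2 (hgeo ζ hζ).1 (hgeo ζ hζ).2 hA 0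
        (fun x hx => hA_right (by linarith [hposg ζ hζ x hx]))
    · intro ζ hζ
      exact h1_bd hX hiv1 hiv2 (hgeo ζ hζ).1 (hgeo ζ hζ).2 hB 1
        (fun x hx => hB_right (hposg ζ hζ x hx))
    · intro ζ hζ
      exact h1_bd hX hiv1 hiv2 (harc ζ hζ).1 (harc ζ hζ).2 hA 0
        (fun x hx => hA_right (hposa ζ hζ x hx).1)
    · intro ζ hζ
      exact h1_bd hX hiv1 hiv2 (harc ζ hζ).1 (harc ζ hζ).2 hB 0
        (fun x hx => hB_left (hposa ζ hζ x hx).2)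
  · intro v hv
    show hA (iv (X v)) = hA v ∧ hB (iv (X v)) = hB v
    rw [hiv3 v hv]
    exact ⟨rfl, rfl⟩

end Pool.Agent.Choc
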