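import Pool.Agent.Lib.MP_2b3e36_an.Ex.V0
import Pool.Agent.Lib.MP_2b3e36_an.Ex.A1

/-!
H2. Uniqueness and monotonicity of the harmonic measures; right continuity.

Everything by `max_principle` on `V y` (or `V y'`), bounded open, `F = {1, -1}`, `V_frontier`.
unique: the difference of two pairs tends to `0` at all points of `slit y ∪ geo ∪ upperArc`.
mono, `y < y'`: on `V y' ⊆ V y`: `u = h₂' - h₂`: at `ζ ∈ slit y'`: `h₂' → 0`, `h₂ ≥ 0`; at `geo`: both `→ 1`;
at `upperArc`: both `→ 0`. So `h₂' ≤ h₂`. `u = h₁ - h₁'`: at `slit y'` `h₁' → 1 ≥ h₁`; at `geo`, `upperArc`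
both `→ 0`. So `h₁ ≤ h₁'`. (`𝓝[V y'] ζ ≤ 𝓝[V y] ζ`.)
right: given `ε`, by `slit₁, slit₂` of the pair at `y` at the tip `ζ = nome (y i)` there is `δ` with
`h₁ q ≥ 1 - ε`, `h₂ q ≤ ε` for `q = nome (t i)`, `y < t < y + δ` (these points are in `V y`). For
`y < y' < y + δ`: on `V y'`: `u = h₂ - h₂' - ε ≤ 0`: at `ζ ∈ slit y` `h₂ → 0`; at `ζ ∈ slit y' \ slit y` `h₂` is
continuous, `≤ ε`; at `geo`, `upperArc` `h₂ - h₂' → 0`. `u = h₁' - h₁ - ε`: at `slit y` `h₁ → 1`; at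
`slit y' \ slit y` `h₁ ≥ 1 - ε`; at `geo`, `upperArc` `→ -ε`.
-/

set_option autoImplicit false

open Complex Set Filter Topology Metric

namespace Pool.Agent.Choc

/-- comparison on `V y` -/
theorem h2_cmp {y : ℝ} (hy : 0 < y) {u : ℂ → ℝ} (hu : InnerProductSpace.HarmonicOnNhd u (V y))
    {M c : ℝ} (hM : ∀ z ∈ V y, u z ≤ M)
    (hs : ∀ ζ ∈ slit y, ∀ ε > 0, ∀ᶠ z in 𝓝[V y] ζ, u z < c + ε)
    (hg : ∀ ζ ∈ geo, ∀ ε > 0, ∀ᶠ z in 𝓝[V y] ζ, u z < c + ε)
    (ha : ∀ ζ ∈ upperArc, ∀ ε > 0, ∀ᶠ z in 𝓝[V y] ζ, u z < c + ε) :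
    ∀ z ∈ V y, u z ≤ c := by
  have hb : Bornology.IsBounded (V y) := Metric.isBounded_ball.subset (V_subset y)
  have hu' : InnerProductSpace.HarmonicOnNhd (u - fun _ => c) (V y) :=
    hu.sub (InnerProductSpace.harmonicOnNhd_const c)
  have key := max_principle (V_isOpen hy) hb (F := ({1, -1} : Set ℂ)) (by simp) hu' (M := M - c)
    (fun z hz => by
      have := hM z hz
      simp only [Pi.sub_apply]
      linarith) ?_
  · intro z hz
    have := key z hz
    simp only [Pi.sub_apply] at this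
    linarith
  · intro ζ hζ hF ε hε
    have h1 := V_frontier hy hζ
    have h2 : ∀ᶠ z in 𝓝[V y] ζ, u z < c + ε := by
      rcases h1 with ((h1 | h1) | h1) | h1
      · exact hs ζ h1 ε hε
      · exact hg ζ h1 ε hε
      · exact ha ζ h1 ε hε
      · exact absurd h1 hF
    filter_upwards [h2] with z hz
    simp only [Pi.sub_apply]
    linarith

theorem h2_lt {l : Filter ℂ} {f : ℂ → ℝ} {a b : ℝ} (h : Tendsto f l (𝓝 a)) (hab : a < b) :
    ∀ᶠ z in l, f z < b := h.eventually (eventually_lt_nhds hab)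

theorem h2_gt {l : Filter ℂ} {f : ℂ → ℝ} {a b : ℝ} (h : Tendsto f l (𝓝 a)) (hab : b < a) :
    ∀ᶠ z in l, b < f z := h.eventually (eventually_gt_nhds hab)

/-- difference of two functions with the same limit -/
theorem h2_sub {l : Filter ℂ} {f g : ℂ → ℝ} {a ε : ℝ} (h : Tendsto f l (𝓝 a))
    (h' : Tendsto g l (𝓝 a)) (hε : 0 < ε) : ∀ᶠ z in l, f z - g z < ε := by
  filter_upwards [h2_lt h (show a < a + ε / 2 by linarith),
    h2_gt h' (show a - ε / 2 < a by linarith)] with z h1 h2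
  linarith

theorem h2_le {y : ℝ} (hy : 0 < y) {h₁ h₂ k₁ k₂ : ℂ → ℝ} (h : HarmPair y h₁ h₂)
    (k : HarmPair y k₁ k₂) : ∀ z ∈ V y, h₁ z ≤ k₁ z ∧ h₂ z ≤ k₂ z := by
  have e1 : ∀ z ∈ V y, (h₁ - k₁) z ≤ 0 := by
    refine h2_cmp hy (h.harm₁.sub k.harm₁) (M := 1) (fun z hz => ?_) ?_ ?_ ?_
    · have a1 := h.bd₁ z hz
      have a2 := k.bd₁ z hz
      simp only [Pi.sub_apply]
      linarith [a1.2, a2.1]
    · intro ζ hζ ε hε
      filter_upwards [h2_sub (h.slit₁ ζ hζ) (k.slit₁ ζ hζ) hε] with z hz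
      simp only [Pi.sub_apply]
      linarith
    · intro ζ hζ ε hε
      filter_upwards [h2_sub (h.geo₁ ζ hζ) (k.geo₁ ζ hζ) hε] with z hz
      simp only [Pi.sub_apply]
      linarith
    · intro ζ hζ ε hε
      filter_upwards [h2_sub (h.arc₁ ζ hζ) (k.arc₁ ζ hζ) hε] with z hz
      simp only [Pi.sub_apply]
      linarith
  have e2 : ∀ z ∈ V y, (h₂ - k₂) z ≤ 0 := by
    refine h2_cmp hy (h.harm₂.sub k.harm₂) (M := 1) (fun z hz => ?_) ?_ ?_ ?_
    · have a1 := h.bd₂ z hz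
      have a2 := k.bd₂ z hz
      simp only [Pi.sub_apply]
      linarith [a1.2, a2.1]
    · intro ζ hζ ε hε
      filter_upwards [h2_sub (h.slit₂ ζ hζ) (k.slit₂ ζ hζ) hε] with z hz
      simp only [Pi.sub_apply]
      linarith
    · intro ζ hζ ε hε
      filter_upwards [h2_sub (h.geo₂ ζ hζ) (k.geo₂ ζ hζ) hε] with z hz
      simp only [Pi.sub_apply]
      linarith
    · intro ζ hζ ε hε
      filter_upwards [h2_sub (h.arc₂ ζ hζ) (k.arc₂ ζ hζ) hε] with z hz
      simp only [Pi.sub_apply]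
      linarith
  intro z hz
  have a1 := e1 z hz
  have a2 := e2 z hz
  simp only [Pi.sub_apply] at a1 a2
  constructor <;> linarith

theorem omega_unique {y a b a' b' : ℝ} (hy : 0 < y) (h : IsOmega y a b) (h' : IsOmega y a' b') :
    a = a' ∧ b = b' := by
  obtain ⟨h₁, h₂, hp, rfl, rfl⟩ := h
  obtain ⟨k₁, k₂, kp, rfl, rfl⟩ := h'
  have e1 := h2_le hy hp kp 0 (zero_mem_V y)
  have e2 := h2_le hy kp hp 0 (zero_mem_V y)
  exact ⟨le_antisymm e1.1 e2.1, le_antisymm e1.2 e2.2⟩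

theorem omega_mono {y y' a b a' b' : ℝ} (hy : 0 < y) (hyy : y < y') (h : IsOmega y a b)
    (h' : IsOmega y' a' b') : a ≤ a' ∧ b' ≤ b := by
  obtain ⟨h₁, h₂, hp, rfl, rfl⟩ := h
  obtain ⟨k₁, k₂, kp, rfl, rfl⟩ := h'
  have hy' : 0 < y' := hy.trans hyy
  have hV : V y' ⊆ V y := V_anti hyy.le
  have hN : ∀ ζ, 𝓝[V y'] ζ ≤ 𝓝[V y] ζ := fun ζ => nhdsWithin_mono ζ hV
  have e1 : ∀ z ∈ V y', (h₁ - k₁) z ≤ 0 := by
    refine h2_cmp hy' ((hp.harm₁.mono hV).sub kp.harm₁) (M := 1) (fun z hz => ?_) ?_ ?_ ?_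
    · have a1 := hp.bd₁ z (hV hz)
      have a2 := kp.bd₁ z hz
      simp only [Pi.sub_apply]
      linarith [a1.2, a2.1]
    · intro ζ hζ ε hε
      filter_upwards [h2_gt (kp.slit₁ ζ hζ) (show (1 : ℝ) - ε < 1 by linarith),
        self_mem_nhdsWithin] with z hz hzV
      have a1 := hp.bd₁ z (hV hzV)
      simp only [Pi.sub_apply]
      linarith [a1.2]
    · intro ζ hζ ε hε
      filter_upwards [h2_sub ((hp.geo₁ ζ hζ).mono_left (hN ζ)) (kp.geo₁ ζ hζ) hε] with z hz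
      simp only [Pi.sub_apply]
      linarith
    · intro ζ hζ ε hε
      filter_upwards [h2_sub ((hp.arc₁ ζ hζ).mono_left (hN ζ)) (kp.arc₁ ζ hζ) hε] with z hz
      simp only [Pi.sub_apply]
      linarith
  have e2 : ∀ z ∈ V y', (k₂ - h₂) z ≤ 0 := by
    refine h2_cmp hy' (kp.harm₂.sub (hp.harm₂.mono hV)) (M := 1) (fun z hz => ?_) ?_ ?_ ?_
    · have a1 := hp.bd₂ z (hV hz)
      have a2 := kp.bd₂ z hz
      simp only [Pi.sub_apply]
      linarith [a1.1, a2.2]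
    · intro ζ hζ ε hε
      filter_upwards [h2_lt (kp.slit₂ ζ hζ) (show (0 : ℝ) < ε by linarith),
        self_mem_nhdsWithin] with z hz hzV
      have a1 := hp.bd₂ z (hV hzV)
      simp only [Pi.sub_apply]
      linarith [a1.1]
    · intro ζ hζ ε hε
      filter_upwards [h2_sub (kp.geo₂ ζ hζ) ((hp.geo₂ ζ hζ).mono_left (hN ζ)) hε] with z hz
      simp only [Pi.sub_apply]
      linarith
    · intro ζ hζ ε hε
      filter_upwards [h2_sub (kp.arc₂ ζ hζ) ((hp.arc₂ ζ hζ).mono_left (hN ζ)) hε] with z hz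
      simp only [Pi.sub_apply]
      linarith
  have a1 := e1 0 (zero_mem_V y')
  have a2 := e2 0 (zero_mem_V y')
  simp only [Pi.sub_apply] at a1 a2
  constructor <;> linarith

theorem h2_nome_norm (τ : ℂ) : ‖nome τ‖ = Real.exp (-(Real.pi * τ.im)) := by
  unfold nome
  rw [Complex.norm_exp]
  congr 1
  simp

/-- points of the imaginary axis above the slit are in `V y` -/
theorem h2_mem {y t : ℝ} (hy : 0 < y) (ht : y < t) : nome (t * I) ∈ V y := by
  have ht0 : 0 < t := hy.trans ht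
  have hpi := Real.pi_pos
  refine ⟨?_, ?_, ?_⟩
  · rw [h2_nome_norm, Real.exp_lt_one_iff]
    have : ((t : ℂ) * I).im = t := by simp
    rw [this]
    have := mul_pos hpi ht0
    linarith
  · rintro ⟨τ, h1, h2, h3⟩
    unfold nome at h3
    rw [Complex.exp_eq_exp_iff_exists_int] at h3
    obtain ⟨n, hn⟩ := h3
    have hne : (Real.pi : ℂ) * I ≠ 0 := by
      refine mul_ne_zero ?_ I_ne_zero
      exact_mod_cast hpi.ne'
    have h4 : τ = t * I + 2 * n := by
      have : (Real.pi : ℂ) * I * τ = (Real.pi : ℂ) * I * (t * I + 2 * n) := by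
        rw [hn]; ring
      exact mul_left_cancel₀ hne this
    have h5 : ‖τ + 1 / 2‖ ^ 2 ≤ 1 / 4 := by
      have : ‖τ + 1 / 2‖ ^ 2 ≤ (1 / 2) ^ 2 := pow_le_pow_left₀ (norm_nonneg _) h2 2
      linarith
    rw [← Complex.normSq_eq_norm_sq, Complex.normSq_apply] at h5
    have h6 : (τ + 1 / 2).re = 2 * n + 1 / 2 := by rw [h4]; simp
    have h7 : (τ + 1 / 2).im = t := by rw [h4]; simp
    rw [h6, h7] at h5
    have h8 : (0 : ℝ) < t * t := mul_pos ht0 ht0
    rcases le_or_gt 0 n with hn0 | hn0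
    · have : (0 : ℝ) ≤ n := by exact_mod_cast hn0
      nlinarith
    · have : (n : ℝ) ≤ -1 := by exact_mod_cast (show n ≤ -1 by omega)
      nlinarith
  · rintro ⟨s, hs0, hs1, hs2⟩
    have h1 := congrArg norm hs2
    rw [h2_nome_norm, h2_nome_norm] at h1
    have e1 : ((t : ℂ) * I).im = t := by simp
    have e2 : ((s : ℂ) * I).im = s := by simp
    rw [e1, e2] at h1
    have h2 := Real.exp_injective h1
    have h3 : s < t := hs1.trans_lt ht
    nlinarith

theorem omega_right {y a b : ℝ} (hy : 0 < y) (h : IsOmega y a b) :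
    ∀ ε > 0, ∃ δ > 0, ∀ y' a' b' : ℝ, y < y' → y' < y + δ → IsOmega y' a' b' →
      a' ≤ a + ε ∧ b - ε ≤ b' := by
  obtain ⟨h₁, h₂, hp, rfl, rfl⟩ := h
  intro ε hε
  have htip : nome (y * I) ∈ slit y := ⟨y, hy, le_rfl, rfl⟩
  have c1 := h2_gt (hp.slit₁ _ htip) (show (1 : ℝ) - ε < 1 by linarith)
  have c2 := h2_lt (hp.slit₂ _ htip) hε
  obtain ⟨r, hr0, hr⟩ := Metric.mem_nhdsWithin_iff.1 (c1.and c2)
  have hc : Continuous fun t : ℝ => nome (t * I) := by
    unfold nome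
    fun_prop
  obtain ⟨δ, hδ0, hδ⟩ := Metric.continuousAt_iff.1 (hc.continuousAt (x := y)) r hr0
  refine ⟨δ, hδ0, ?_⟩
  intro y' a' b' hyy hyd h'
  obtain ⟨k₁, k₂, kp, rfl, rfl⟩ := h'
  have hy' : 0 < y' := hy.trans hyy
  have hV : V y' ⊆ V y := V_anti hyy.le
  have hN : ∀ ζ, 𝓝[V y'] ζ ≤ 𝓝[V y] ζ := fun ζ => nhdsWithin_mono ζ hV
  -- the new part of the slit
  have hnew : ∀ t : ℝ, y < t → t ≤ y' → nome (t * I) ∈ V y ∧ 1 - ε < h₁ (nome (t * I)) ∧
      h₂ (nome (t * I)) < ε := by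
    intro t ht1 ht2
    have m1 := h2_mem hy ht1
    have m2 : nome (t * I) ∈ ball (nome (y * I)) r ∩ V y := by
      refine ⟨?_, m1⟩
      refine hδ ?_
      rw [Real.dist_eq, abs_lt]
      constructor <;> linarith
    exact ⟨m1, hr m2⟩
  have e1 : ∀ z ∈ V y', (k₁ - h₁) z ≤ ε := by
    refine h2_cmp hy' (kp.harm₁.sub (hp.harm₁.mono hV)) (M := 1) (fun z hz => ?_) ?_ ?_ ?_
    · have a1 := hp.bd₁ z (hV hz)
      have a2 := kp.bd₁ z hz
      simp only [Pi.sub_apply]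
      linarith [a1.1, a2.2]
    · rintro ζ ⟨t, ht0, ht1, rfl⟩ η hη
      rcases le_or_gt t y with hty | hty
      · filter_upwards [h2_gt ((hp.slit₁ _ ⟨t, ht0, hty, rfl⟩).mono_left (hN _))
          (show (1 : ℝ) - η < 1 by linarith), self_mem_nhdsWithin] with z hz hzV
        have a2 := kp.bd₁ z hzV
        simp only [Pi.sub_apply]
        linarith [a2.2]
      · obtain ⟨m1, m2, m3⟩ := hnew t hty ht1
        have cont : Tendsto h₁ (𝓝[V y'] (nome (t * I))) (𝓝 (h₁ (nome (t * I)))) :=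
          ((hp.harm₁.continuousOn _ m1).tendsto).mono_left (hN _)
        filter_upwards [h2_gt cont m2, self_mem_nhdsWithin] with z hz hzV
        have a2 := kp.bd₁ z hzV
        simp only [Pi.sub_apply]
        linarith [a2.2]
    · intro ζ hζ η hη
      filter_upwards [h2_sub (kp.geo₁ ζ hζ) ((hp.geo₁ ζ hζ).mono_left (hN ζ)) hη] with z hz
      simp only [Pi.sub_apply]
      linarith
    · intro ζ hζ η hη
      filter_upwards [h2_sub (kp.arc₁ ζ hζ) ((hp.arc₁ ζ hζ).mono_left (hN ζ)) hη] with z hz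
      simp only [Pi.sub_apply]
      linarith
  have e2 : ∀ z ∈ V y', (h₂ - k₂) z ≤ ε := by
    refine h2_cmp hy' ((hp.harm₂.mono hV).sub kp.harm₂) (M := 1) (fun z hz => ?_) ?_ ?_ ?_
    · have a1 := hp.bd₂ z (hV hz)
      have a2 := kp.bd₂ z hz
      simp only [Pi.sub_apply]
      linarith [a1.2, a2.1]
    · rintro ζ ⟨t, ht0, ht1, rfl⟩ η hη
      rcases le_or_gt t y with hty | hty
      · filter_upwards [h2_lt ((hp.slit₂ _ ⟨t, ht0, hty, rfl⟩).mono_left (hN _))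
          (show (0 : ℝ) < η by linarith), self_mem_nhdsWithin] with z hz hzV
        have a2 := kp.bd₂ z hzV
        simp only [Pi.sub_apply]
        linarith [a2.1]
      · obtain ⟨m1, m2, m3⟩ := hnew t hty ht1
        have cont : Tendsto h₂ (𝓝[V y'] (nome (t * I))) (𝓝 (h₂ (nome (t * I)))) :=
          ((hp.harm₂.continuousOn _ m1).tendsto).mono_left (hN _)
        filter_upwards [h2_lt cont m3, self_mem_nhdsWithin] with z hz hzV
        have a2 := kp.bd₂ z hzV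
        simp only [Pi.sub_apply]
        linarith [a2.1]
    · intro ζ hζ η hη
      filter_upwards [h2_sub ((hp.geo₂ ζ hζ).mono_left (hN ζ)) (kp.geo₂ ζ hζ) hη] with z hz
      simp only [Pi.sub_apply]
      linarith
    · intro ζ hζ η hη
      filter_upwards [h2_sub ((hp.arc₂ ζ hζ).mono_left (hN ζ)) (kp.arc₂ ζ hζ) hη] with z hz
      simp only [Pi.sub_apply]
      linarith
  have a1 := e1 0 (zero_mem_V y')
  have a2 := e2 0 (zero_mem_V y')
  simp only [Pi.sub_apply] at a1 a2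
  constructor <;> linarith

end Pool.Agent.Choc
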