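import Pool.Agent.Lib.MP_2b3e36_an.Ex.V0
import Pool.Agent.Lib.MP_2b3e36_an.Ex.A1
import Pool.Agent.Lib.MP_2b3e36_an.Ex.W2
import Pool.Agent.Lib.MP_2b3e36_an.Ex.H1

/-!
H3. Left continuity of the harmonic measures at `y`, using the conformal map for `y`.

Proof. Let `T x = - log ‖X x‖ / pi` for real `x < -1` be the height of the boundary value (the imaginary
part of the local `τ`); `T` is continuous, `T vc = y`, and `T x < y` for `x ≠ vc`?: this is not needed.
Take any `x₁ < vc < x₂ < -1` close to `vc`, such that `T x₁ < y`, `T x₂ < y` (possible: `τ' ≠ 0` off `vc`, and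
`T` has a strict maximum at `vc` as `τ'' (vc) ≠ 0`, `T ≤ y`). Let `e v = (arg (v - x₂) - arg (v - x₁))/pi` be the
harmonic measure of `(x₁, x₂)`; `e v₀ ≤ ε` if `x₂ - x₁` is small. Let
`y₁ = sup {T x : x < -1, x ∉ (x₁, x₂)}`; `y₁ < y`, because `T` is continuous, `< y` there (a point with `T x = y`
is a maximum of `T`, so `τ' = 0` there, so `x = vc`), and `T → 0` at `-1` and at `-∞`.
Let `max y₁ 0 < y' < y`. On `V y ⊆ V y'` compare: `u = h₂' - h₂ - e(X⁻¹ q)`: at `ζ ∈ slit y'`: `h₂' → 0`; at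
`ζ ∈ slit y \ slit y'`: `h₂' ≤ 1`, `h₂ ≥ 0` and `e (X⁻¹ q) → 1`, because limit points of `X⁻¹ q` are real `x < -1`
(as in H1) with `T x > y' > y₁`, so in `(x₁,x₂)`; at `geo`, `upperArc`: `h₂' - h₂ → 0`. So
`h₂' 0 ≤ h₂ 0 + e v₀ ≤ h₂ 0 + ε`. The same for `u = h₁ - h₁' - e (X⁻¹ q)`: at `slit y'` `h₁' → 1`; at
`slit y \ slit y'` `h₁ - h₁' ≤ 1`, `e → 1`; at `geo`, `upperArc` `→ 0 - e ≤ 0`.
-/

set_option autoImplicit false

open Complex Set Filter Topology Metric

namespace Pool.Agent.Choc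

theorem h3_comp {h : ℂ → ℝ} {g : ℂ → ℂ} {z : ℂ} (hh : InnerProductSpace.HarmonicAt h (g z))
    (hg : AnalyticAt ℂ g z) : InnerProductSpace.HarmonicAt (fun w => h (g w)) z := by
  obtain ⟨R, hR, hball⟩ := Metric.eventually_nhds_iff_ball.1 hh.eventually
  obtain ⟨F, hF1, hF2⟩ :=
    InnerProductSpace.HarmonicOnNhd.exists_analyticOnNhd_ball_re_eq (f := h) (z := g z) (R := R)
      (fun x hx => hball x hx)
  have h1 : AnalyticAt ℂ (fun w => F (g w)) z :=
    (hF1 (g z) (mem_ball_self hR)).fun_comp hg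
  have h2 := h1.harmonicAt_re
  have h3 : ∀ᶠ w in 𝓝 z, g w ∈ ball (g z) R :=
    hg.continuousAt.eventually (ball_mem_nhds (g z) hR)
  refine (InnerProductSpace.harmonicAt_congr_nhds ?_).1 h2
  filter_upwards [h3] with w hw
  exact hF2 hw

theorem h3_norm_nome (τ : ℂ) : ‖nome τ‖ = Real.exp (-Real.pi * τ.im) := by
  unfold nome
  rw [Complex.norm_exp]
  congr 1
  simp

theorem h3_nome_cont : Continuous nome := by
  unfold nome
  fun_prop

theorem h3_lim {X τ : ℂ → ℂ} {x : ℂ} {r : ℝ} (hr : 0 < r)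
    (hτ : DifferentiableOn ℂ τ (ball x r)) (h : ∀ v ∈ ball x r, 0 < v.im → X v = nome (τ v)) :
    Tendsto X (𝓝[UH] x) (𝓝 (nome (τ x))) := by
  have h1 : ContinuousAt τ x := (hτ.differentiableAt (ball_mem_nhds x hr)).continuousAt
  have h2 : Tendsto (fun v => nome (τ v)) (𝓝[UH] x) (𝓝 (nome (τ x))) :=
    ((h3_nome_cont.continuousAt (x := τ x)).comp h1).tendsto.mono_left nhdsWithin_le_nhds
  refine h2.congr' ?_
  filter_upwards [self_mem_nhdsWithin, mem_nhdsWithin_of_mem_nhds (ball_mem_nhds x hr)]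
    with v hv hv2
  exact (h v hv2 hv).symm

theorem h3_negOne {y : ℝ} {X : ℂ → ℂ} {v₀ : ℂ} {vc : ℝ} (hX : Model y X v₀ vc) :
    Tendsto X (𝓝[UH] (-1 : ℂ)) (𝓝 1) := by
  obtain ⟨r, hr, α, hα, h0, -, h⟩ := hX.negOne
  have h1 : ContinuousAt α (-1) := (hα.differentiableAt (ball_mem_nhds _ hr)).continuousAt
  have h2 : ContinuousAt (fun z : ℂ => z ^ ((1 : ℂ) / 2)) (α (-1)) := by
    rw [h0]
    exact Complex.continuousAt_cpow_const_of_re_pos (Or.inl (by simp)) (by norm_num)
  have h3 : ContinuousAt (fun v => nome ((α v) ^ ((1 : ℂ) / 2))) (-1) :=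
    (h3_nome_cont.continuousAt).comp (h2.comp h1)
  have h4 : nome ((α (-1)) ^ ((1 : ℂ) / 2)) = 1 := by
    rw [h0, Complex.zero_cpow (by norm_num)]
    simp [nome]
  have h5 := h3.tendsto.mono_left (nhdsWithin_le_nhds (s := UH))
  rw [h4] at h5
  refine h5.congr' ?_
  filter_upwards [self_mem_nhdsWithin, mem_nhdsWithin_of_mem_nhds (ball_mem_nhds (-1 : ℂ) hr)]
    with v hv hv2
  exact (h v hv2 hv).2.symm

theorem h3_posOne {y : ℝ} {X : ℂ → ℂ} {v₀ : ℂ} {vc : ℝ} (hX : Model y X v₀ vc) :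
    Tendsto X (𝓝[UH] (1 : ℂ)) (𝓝 (nome (-1))) := by
  obtain ⟨r, hr, α, hα, h0, -, h⟩ := hX.posOne
  have h1 : ContinuousAt α 1 := (hα.differentiableAt (ball_mem_nhds _ hr)).continuousAt
  have h2 : ContinuousAt (fun z : ℂ => z ^ ((1 : ℂ) / 2)) (α 1) := by
    rw [h0]
    exact Complex.continuousAt_cpow_const_of_re_pos (Or.inl (by simp)) (by norm_num)
  have h6 : ContinuousAt (fun z : ℂ => -1 / (1 + I * z)) ((α 1) ^ ((1 : ℂ) / 2)) := by
    rw [h0, Complex.zero_cpow (by norm_num)]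
    refine ContinuousAt.div continuousAt_const (by fun_prop) (by simp)
  have h7 : ContinuousAt (fun v => (α v) ^ ((1 : ℂ) / 2)) 1 :=
    ContinuousAt.comp (g := fun z : ℂ => z ^ ((1 : ℂ) / 2)) (f := α) h2 h1
  have h8 : ContinuousAt (fun v => -1 / (1 + I * (α v) ^ ((1 : ℂ) / 2))) 1 :=
    ContinuousAt.comp (g := fun z : ℂ => -1 / (1 + I * z))
      (f := fun v => (α v) ^ ((1 : ℂ) / 2)) h6 h7
  have h3 : ContinuousAt (fun v => nome (-1 / (1 + I * (α v) ^ ((1 : ℂ) / 2)))) 1 :=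
    (h3_nome_cont.continuousAt).comp h8
  have h4 : nome (-1 / (1 + I * (α 1) ^ ((1 : ℂ) / 2))) = nome (-1) := by
    rw [h0, Complex.zero_cpow (by norm_num)]
    simp
  have h5 := h3.tendsto.mono_left (nhdsWithin_le_nhds (s := UH))
  rw [h4] at h5
  refine h5.congr' ?_
  filter_upwards [self_mem_nhdsWithin, mem_nhdsWithin_of_mem_nhds (ball_mem_nhds (1 : ℂ) hr)]
    with v hv hv2
  exact (h v hv2 hv).2.symm

theorem h3_infty {y : ℝ} {X : ℂ → ℂ} {v₀ : ℂ} {vc : ℝ} (hX : Model y X v₀ vc) :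
    Tendsto (fun u => X (-1 / u)) (𝓝[UH] (0 : ℂ)) (𝓝 1) := by
  obtain ⟨r, hr, p, hp, h0, -, -, h⟩ := hX.infty
  have h1 : ContinuousAt p 0 := (hp.differentiableAt (ball_mem_nhds _ hr)).continuousAt
  have hev : ∀ᶠ v in 𝓝[UH] (0 : ℂ), v ∈ UH ∧ v ∈ ball (0 : ℂ) r := by
    filter_upwards [self_mem_nhdsWithin, mem_nhdsWithin_of_mem_nhds (ball_mem_nhds (0 : ℂ) hr)]
      with v hv hv2
    exact ⟨hv, hv2⟩
  have h2 : Tendsto (fun v => ‖p v‖) (𝓝[UH] (0 : ℂ)) (𝓝[>] 0) := by
    refine tendsto_nhdsWithin_iff.2 ⟨?_, ?_⟩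
    · have := (h1.norm.tendsto).mono_left (nhdsWithin_le_nhds (s := UH))
      rwa [h0, norm_zero] at this
    · filter_upwards [hev] with v hv
      have h3 := (h v hv.2 hv.1).1
      refine norm_pos_iff.2 fun h4 => ?_
      rw [h4] at h3
      simp at h3
  have h3 : Tendsto (fun v => |Real.log ‖p v‖|) (𝓝[UH] (0 : ℂ)) atTop :=
    (tendsto_abs_atBot_atTop.comp Real.tendsto_log_nhdsGT_zero).comp h2
  have h4 : Tendsto (fun v => ‖log (p v)‖) (𝓝[UH] (0 : ℂ)) atTop := by
    refine tendsto_atTop_mono (fun v => ?_) h3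
    have := Complex.abs_re_le_norm (log (p v))
    rwa [Complex.log_re] at this
  have h5 : Tendsto (fun v => -(Real.pi * I) / log (p v)) (𝓝[UH] (0 : ℂ)) (𝓝 0) := by
    rw [tendsto_zero_iff_norm_tendsto_zero]
    have h6 : (fun v => ‖-(Real.pi * I) / log (p v)‖) =
        fun v => ‖(-(Real.pi * I) : ℂ)‖ * (‖log (p v)‖)⁻¹ := by
      funext v
      rw [norm_div, div_eq_mul_inv]
    rw [h6]
    have h7 := (tendsto_inv_atTop_zero.comp h4).const_mul ‖(-(Real.pi * I) : ℂ)‖
    rwa [mul_zero] at h7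
  have h8 : Tendsto (fun v => nome (-(Real.pi * I) / log (p v))) (𝓝[UH] (0 : ℂ)) (𝓝 1) := by
    have h9 : nome 0 = 1 := by simp [nome]
    rw [← h9]
    exact (h3_nome_cont.tendsto 0).comp h5
  refine h8.congr' ?_
  filter_upwards [hev] with v hv
  exact (h v hv.2 hv.1).2.2.symm

/-- the geodesic and the slit are disjoint -/
theorem h3_disj {τ : ℂ} (hτ : τ ∈ Sig) {t : ℝ} : nome τ ≠ nome (t * I) := by
  intro h
  unfold nome at h
  obtain ⟨n, hn⟩ := Complex.exp_eq_exp_iff_exists_int.1 h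
  have h1 : τ = t * I + 2 * n := by
    have hπ : (Real.pi : ℂ) ≠ 0 := by exact_mod_cast Real.pi_pos.ne'
    have h2 : (Real.pi * I : ℂ) * τ = (Real.pi * I) * (t * I + 2 * n) := by
      rw [hn]
      ring
    exact mul_left_cancel₀ (mul_ne_zero hπ I_ne_zero) h2
  have h3 : τ.re = 2 * n := by
    rw [h1]
    simp
  obtain ⟨h4, h5⟩ := hτ
  have h6 : (τ.re + 1 / 2) ^ 2 + τ.im ^ 2 = 1 / 4 := by
    have h5' : ‖τ + 1 / 2‖ ^ 2 = 1 / 4 := by
      rw [h5]
      norm_num
    rw [← Complex.normSq_eq_norm_sq, Complex.normSq_apply] at h5'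
    simp at h5'
    linarith
  have h7 : τ.re < 0 := by nlinarith
  have h8 : -1 < τ.re := by nlinarith
  rw [h3] at h7 h8
  have h9 : (n : ℝ) < 0 := by linarith
  have h10 : (-1 : ℝ) < n := by linarith
  have h11 : n < 0 := by exact_mod_cast h9
  have h12 : -1 < n := by exact_mod_cast h10
  omega

theorem h3_deriv_zero {τ : ℂ → ℂ} {x y r : ℝ} (hr : 0 < r)
    (hτ : DifferentiableOn ℂ τ (ball (x : ℂ) r))
    (h : ∀ u : ℝ, (u : ℂ) ∈ ball (x : ℂ) r → (τ u).re = 0 ∧ 0 < (τ u).im ∧ (τ u).im ≤ y)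
    (hx : (τ x).im = y) : deriv τ x = 0 := by
  have h1 : HasDerivAt τ (deriv τ x) (x : ℂ) :=
    (hτ.differentiableAt (ball_mem_nhds _ hr)).hasDerivAt
  have h2 := h1.comp_ofReal
  have h3 : HasDerivAt (fun u : ℝ => (τ u).re) (deriv τ x).re x :=
    Complex.reCLM.hasFDerivAt.comp_hasDerivAt x h2
  have h4 : HasDerivAt (fun u : ℝ => (τ u).im) (deriv τ x).im x :=
    Complex.imCLM.hasFDerivAt.comp_hasDerivAt x h2
  have hev : ∀ᶠ u : ℝ in 𝓝 x, (u : ℂ) ∈ ball (x : ℂ) r :=
    Complex.continuous_ofReal.continuousAt.eventually (ball_mem_nhds _ hr)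
  have h5 : (deriv τ x).re = 0 := by
    rw [← h3.deriv]
    have h6 : (fun u : ℝ => (τ u).re) =ᶠ[𝓝 x] fun _ => (0 : ℝ) := by
      filter_upwards [hev] with u hu
      exact (h u hu).1
    rw [h6.deriv_eq]
    simp
  have h6 : IsLocalMax (fun u : ℝ => (τ u).im) x := by
    filter_upwards [hev] with u hu
    rw [hx]
    exact (h u hu).2.2
  have h7 : (deriv τ x).im = 0 := by
    rw [← h4.deriv]
    exact h6.deriv_eq_zero
  exact Complex.ext h5 h7

theorem h3_tip {y : ℝ} {X : ℂ → ℂ} {v₀ : ℂ} {vc : ℝ} (hX : Model y X v₀ vc)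
    (U : Ultrafilter ℂ) (hU : UH ∈ U) (hlim : Tendsto X U (𝓝 (nome (y * I)))) :
    (U : Filter ℂ) ≤ 𝓝 (vc : ℂ) := by
  have hy := hX.y_pos
  have hπ := Real.pi_pos
  have hn1 : ‖nome (y * I)‖ < 1 := by
    rw [h3_norm_nome]
    refine Real.exp_lt_one_iff.2 ?_
    have h1 : (y * I : ℂ).im = y := by simp
    rw [h1]
    nlinarith
  have htip : nome (y * I) ∉ V y := fun h => h.2.2 ⟨y, hy, le_rfl, rfl⟩
  by_cases hb : ∃ R : ℝ, closedBall (0 : ℂ) R ∈ U
  · obtain ⟨R, hR⟩ := hb
    obtain ⟨v, -, hv⟩ := (isCompact_closedBall (0 : ℂ) R).ultrafilter_le_nhds U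
      (le_principal_iff.2 hR)
    have hvim : 0 ≤ v.im := by
      have h1 : IsClosed {z : ℂ | 0 ≤ z.im} := isClosed_le continuous_const
        Complex.continuous_im
      have h2 : Tendsto (fun z : ℂ => z) (U : Filter ℂ) (𝓝 v) := hv
      exact h1.mem_of_tendsto h2 (Filter.mem_of_superset hU fun z hz => (show (0 : ℝ) ≤ z.im from le_of_lt hz))
    rcases hvim.lt_or_eq with h1 | h1
    · exfalso
      have h2 : ContinuousAt X v :=
        (hX.diff.differentiableAt ((isOpen_lt continuous_const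
          Complex.continuous_im).mem_nhds h1)).continuousAt
      have h3 : Tendsto X U (𝓝 (X v)) := h2.tendsto.mono_left hv
      have h4 := tendsto_nhds_unique hlim h3
      apply htip
      rw [h4, ← hX.img]
      exact ⟨v, h1, rfl⟩
    · obtain ⟨x, hx⟩ : ∃ x : ℝ, v = (x : ℂ) := by
        refine ⟨v.re, Complex.ext (by simp) (by simp [← h1])⟩
      rw [hx] at hv
      have hvw : (U : Filter ℂ) ≤ 𝓝[UH] (x : ℂ) := le_inf hv (le_principal_iff.2 hU)
      rcases lt_trichotomy x (-1) with h2 | h2 | h2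
      · obtain ⟨r, hr, τ, d1, d2, d3, d4, -⟩ := hX.slit x h2
        have h3 := tendsto_nhds_unique hlim ((h3_lim hr d1 d2).mono_left hvw)
        obtain ⟨e1, e2, e3⟩ := d3 x (mem_ball_self hr)
        have h4 : (τ x).im = y := by
          have h5 := congrArg norm h3
          rw [h3_norm_nome, h3_norm_nome] at h5
          have h6 := Real.exp_injective h5
          have h7 : (y * I : ℂ).im = y := by simp
          rw [h7] at h6
          have h8 : Real.pi * (τ x).im = Real.pi * y := by linarith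
          exact mul_left_cancel₀ hπ.ne' h8
        by_cases h5 : x = vc
        · rw [← h5]
          exact hv
        · exact absurd (h3_deriv_zero hr d1 d3 h4) (d4 h5)
      · exfalso
        have h3 : Tendsto X U (𝓝 1) := by
          refine (h3_negOne hX).mono_left ?_
          rw [h2] at hvw
          simpa using hvw
        have h4 := tendsto_nhds_unique hlim h3
        rw [h4] at hn1
        simp at hn1
      · rcases lt_trichotomy x 1 with h3 | h3 | h3
        · exfalso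
          obtain ⟨r, hr, τ, d1, d2, d3, -⟩ := hX.free x h2 h3
          have h4 := tendsto_nhds_unique hlim ((h3_lim hr d1 d2).mono_left hvw)
          rw [h4, h3_norm_nome, d3 x (mem_ball_self hr), mul_zero, Real.exp_zero] at hn1
          exact lt_irrefl _ hn1
        · exfalso
          have h4 : Tendsto X U (𝓝 (nome (-1))) := by
            refine (h3_posOne hX).mono_left ?_
            rw [h3] at hvw
            simpa using hvw
          have h5 := tendsto_nhds_unique hlim h4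
          rw [h5, h3_norm_nome] at hn1
          simp at hn1
        · exfalso
          obtain ⟨r, hr, τ, d1, d2, d3, -⟩ := hX.arc x h3
          have h4 := tendsto_nhds_unique hlim ((h3_lim hr d1 d2).mono_left hvw)
          exact h3_disj (d3 x (mem_ball_self hr)) h4.symm
  · exfalso
    push Not at hb
    have h1 : Tendsto (fun v : ℂ => ‖v‖) (U : Filter ℂ) atTop := by
      refine tendsto_atTop.2 fun R => ?_
      have h2 := Ultrafilter.compl_mem_iff_notMem.2 (hb R)
      refine Filter.mem_of_superset h2 fun v hv => ?_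
      have h3 : ¬ v ∈ closedBall (0 : ℂ) R := hv
      rw [mem_closedBall_zero_iff, not_le] at h3
      exact h3.le
    have h2 : Tendsto (fun v : ℂ => -1 / v) (U : Filter ℂ) (𝓝[UH] (0 : ℂ)) := by
      refine tendsto_nhdsWithin_iff.2 ⟨?_, ?_⟩
      · rw [tendsto_zero_iff_norm_tendsto_zero]
        have h3 : (fun v : ℂ => ‖-1 / v‖) = fun v => (‖v‖)⁻¹ := by
          funext v
          simp
        rw [h3]
        exact tendsto_inv_atTop_zero.comp h1
      · refine Filter.mem_of_superset hU fun v hv => ?_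
        have hv' : 0 < v.im := hv
        have hv0 : v ≠ 0 := by
          rintro rfl
          simp at hv'
        show 0 < (-1 / v).im
        rw [neg_div, one_div, Complex.neg_im, Complex.inv_im, neg_div, neg_neg]
        exact div_pos hv' (Complex.normSq_pos.2 hv0)
    have h3 := (h3_infty hX).comp h2
    have h4 : ((fun u => X (-1 / u)) ∘ fun v : ℂ => -1 / v) = X := by
      funext v
      show X (-1 / (-1 / v)) = X v
      congr 1
      rcases eq_or_ne v 0 with rfl | h5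
      · simp
      · field_simp
    rw [h4] at h3
    have h5 := tendsto_nhds_unique hlim h3
    rw [h5] at hn1
    simp at hn1

/-- the inverse is holomorphic -/
theorem h3_inv {y : ℝ} {X : ℂ → ℂ} {v₀ : ℂ} {vc : ℝ} (hX : Model y X v₀ vc) {v : ℂ}
    (hv : v ∈ UH) : AnalyticAt ℂ (Function.invFunOn X UH) (X v) := by
  have hUo : IsOpen UH := isOpen_lt continuous_const Complex.continuous_im
  have hVo : IsOpen (V y) := V_isOpen hX.y_pos
  have hl : ∀ w ∈ UH, Function.invFunOn X UH (X w) = w := fun w hw =>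
    hX.inj.leftInvOn_invFunOn hw
  have hr : ∀ q ∈ V y, X (Function.invFunOn X UH q) = q := by
    intro q hq
    rw [← hX.img] at hq
    obtain ⟨w, hw, rfl⟩ := hq
    rw [hl w hw]
  have hd : DifferentiableOn ℂ (Function.invFunOn X UH) (V y) := by
    intro q hq
    rw [← hX.img] at hq
    obtain ⟨w, hw, rfl⟩ := hq
    have ha : AnalyticAt ℂ X w := hX.diff.analyticAt (hUo.mem_nhds hw)
    have hs := ha.hasStrictDerivAt
    have hmap := hs.map_nhds_eq (hX.deriv_ne w hw)
    have hc : ContinuousAt (Function.invFunOn X UH) (X w) := by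
      unfold ContinuousAt
      rw [hl w hw, ← hmap, tendsto_map'_iff]
      refine tendsto_id.congr' ?_
      filter_upwards [hUo.mem_nhds hw] with z hz
      exact (hl z hz).symm
    have hXw : X w ∈ V y := by
      rw [← hX.img]
      exact ⟨w, hw, rfl⟩
    have hder : HasDerivAt (Function.invFunOn X UH) (deriv X w)⁻¹ (X w) := by
      refine HasDerivAt.of_local_left_inverse (f := X) hc ?_ (hX.deriv_ne w hw) ?_
      · rw [hl w hw]
        exact ha.differentiableAt.hasDerivAt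
      · filter_upwards [hVo.mem_nhds hXw] with q hq
        exact hr q hq
    exact hder.differentiableAt.differentiableWithinAt
  have hXv : X v ∈ V y := by
    rw [← hX.img]
    exact ⟨v, hv, rfl⟩
  exact hd.analyticAt (hVo.mem_nhds hXv)

/-- harmonic measure of an interval -/
noncomputable def h3_e (x₁ x₂ : ℝ) (v : ℂ) : ℝ :=
  hA (v - ((x₂ + 1 : ℝ) : ℂ)) - hA (v - ((x₁ + 1 : ℝ) : ℂ))

theorem h3_e_nonneg {x₁ x₂ : ℝ} (h : x₁ ≤ x₂) {v : ℂ} (hv : 0 < v.im) : 0 ≤ h3_e x₁ x₂ v := by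
  unfold h3_e
  have h1 : ∀ c : ℝ, 0 < (v - (c : ℂ)).im := fun c => by simpa using hv
  have h2 := (hA_le_iff (h1 (x₁ + 1)) (h1 (x₂ + 1))).2 (by
    simp only [Complex.sub_re, Complex.sub_im, Complex.ofReal_re, Complex.ofReal_im, sub_zero]
    refine div_le_div_of_nonneg_right (by linarith) hv.le)
  linarith

theorem h3_e_harm (x₁ x₂ : ℝ) {v : ℂ} (hv : 0 < v.im) :
    InnerProductSpace.HarmonicAt (h3_e x₁ x₂) v := by
  have h1 : ∀ c : ℝ, (v - (c : ℂ)) ∈ UH := fun c => by
    show 0 < (v - (c : ℂ)).im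
    simpa using hv
  have h2 : ∀ c : ℝ, AnalyticAt ℂ (fun z : ℂ => z - (c : ℂ)) v := fun c =>
    analyticAt_id.sub analyticAt_const
  exact (h3_comp (g := fun z : ℂ => z - ((x₂ + 1 : ℝ) : ℂ)) (hA_harmonic _ (h1 _)) (h2 _)).sub
    (h3_comp (g := fun z : ℂ => z - ((x₁ + 1 : ℝ) : ℂ)) (hA_harmonic _ (h1 _)) (h2 _))

theorem h3_shift (x c : ℝ) :
    Tendsto (fun v : ℂ => v - (c : ℂ)) (𝓝[UH] (x : ℂ)) (𝓝[UH] ((x - c : ℝ) : ℂ)) := by
  refine tendsto_nhdsWithin_iff.2 ⟨?_, ?_⟩
  · have h1 : ContinuousAt (fun v : ℂ => v - (c : ℂ)) (x : ℂ) := by fun_prop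
    have h2 := h1.tendsto.mono_left (nhdsWithin_le_nhds (s := UH))
    rwa [← Complex.ofReal_sub] at h2
  · filter_upwards [self_mem_nhdsWithin] with v hv
    have hv' : 0 < v.im := hv
    show 0 < (v - (c : ℂ)).im
    simpa using hv'

theorem h3_e_lim {x₁ x₂ x : ℝ} (h1 : x₁ < x) (h2 : x < x₂) :
    Tendsto (h3_e x₁ x₂) (𝓝[UH] (x : ℂ)) (𝓝 1) := by
  have e1 := (hA_left (x := x - (x₂ + 1)) (by linarith)).comp (h3_shift x (x₂ + 1))
  have e2 := (hA_right (x := x - (x₁ + 1)) (by linarith)).comp (h3_shift x (x₁ + 1))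
  have e3 := e1.sub e2
  rw [sub_zero] at e3
  exact e3

theorem h3_choice {v₀ : ℂ} (hv : 0 < v₀.im) (vc : ℝ) {ε : ℝ} (hε : 0 < ε) :
    ∃ x₁ x₂ : ℝ, x₁ < vc ∧ vc < x₂ ∧ h3_e x₁ x₂ v₀ ≤ ε := by
  have h1 : ∀ c : ℝ, (v₀ - (c : ℂ)) ∈ UH := fun c => by
    show 0 < (v₀ - (c : ℂ)).im
    simpa using hv
  have h2 : ContinuousAt (fun s : ℝ => hA (v₀ - ((s + 1 : ℝ) : ℂ))) vc := by
    have h3 : ContinuousAt hA (v₀ - ((vc + 1 : ℝ) : ℂ)) := (hA_harmonic _ (h1 _)).1.continuousAt
    exact ContinuousAt.comp (f := fun s : ℝ => v₀ - ((s + 1 : ℝ) : ℂ)) h3 (by fun_prop)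
  obtain ⟨η, hη, h3⟩ := Metric.continuousAt_iff.1 h2 (ε / 2) (by linarith)
  refine ⟨vc - η / 2, vc + η / 2, by linarith, by linarith, ?_⟩
  have e1 := h3 (x := vc + η / 2) (by
    rw [Real.dist_eq, add_sub_cancel_left, abs_of_pos (by linarith)]; linarith)
  have e2 := h3 (x := vc - η / 2) (by
    rw [Real.dist_eq, sub_sub_cancel_left, abs_neg, abs_of_pos (by linarith)]; linarith)
  rw [Real.dist_eq] at e1 e2
  have e3 := abs_lt.1 e1
  have e4 := abs_lt.1 e2
  unfold h3_e
  linarith [e3.2, e4.1]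

theorem omega_left {y : ℝ} {X : ℂ → ℂ} {v₀ : ℂ} {vc : ℝ} (hX : Model y X v₀ vc) {a b : ℝ}
    (h : IsOmega y a b) :
    ∀ ε > 0, ∃ δ > 0, ∀ y' a' b' : ℝ, 0 < y' → y - δ < y' → y' < y → IsOmega y' a' b' →
      a - ε ≤ a' ∧ b' ≤ b + ε := by
  have hy := hX.y_pos
  have hUo : IsOpen UH := isOpen_lt continuous_const Complex.continuous_im
  obtain ⟨h₁, h₂, hp, ha, hb⟩ := h
  intro ε hε
  obtain ⟨x₁, x₂, hx1, hx2, hxe⟩ := h3_choice hX.v0_im vc (ε := ε / 2) (by linarith)
  have hx12 : x₁ ≤ x₂ := by linarith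
  -- near the tip
  have htip : {v : ℂ | 1 - ε / 2 < h3_e x₁ x₂ v} ∈
      comap X (𝓝 (nome (y * I))) ⊓ 𝓟 UH := by
    rw [Filter.mem_iff_ultrafilter]
    intro g hg
    have hg1 : Tendsto X g (𝓝 (nome (y * I))) := tendsto_iff_comap.2 (hg.trans inf_le_left)
    have hg2 : UH ∈ g := le_principal_iff.1 (hg.trans inf_le_right)
    have hg3 := h3_tip hX g hg2 hg1
    have hg4 : (g : Filter ℂ) ≤ 𝓝[UH] (vc : ℂ) := le_inf hg3 (le_principal_iff.2 hg2)
    exact hg4 ((h3_e_lim hx1 hx2).eventually (lt_mem_nhds (by linarith : 1 - ε / 2 < 1)))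
  rw [Filter.mem_inf_principal, Filter.mem_comap] at htip
  obtain ⟨T, hT, hTX⟩ := htip
  have hTi : interior T ∈ 𝓝 (nome (y * I)) := interior_mem_nhds.2 hT
  have hcs : ContinuousAt (fun s : ℝ => nome (s * I)) y := by
    refine (h3_nome_cont.continuousAt).comp ?_
    fun_prop
  obtain ⟨δ, hδ, hδT⟩ := Metric.eventually_nhds_iff.1 (hcs.eventually hTi)
  refine ⟨δ, hδ, fun y' a' b' hy' hyδ hyy h' => ?_⟩
  obtain ⟨h₁', h₂', hp', ha', hb'⟩ := h'
  have hVV : V y ⊆ V y' := V_anti hyy.le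
  have hle : ∀ ζ : ℂ, 𝓝[V y] ζ ≤ 𝓝[V y'] ζ := fun ζ => nhdsWithin_mono ζ hVV
  have hinv : ∀ q ∈ V y, Function.invFunOn X UH q ∈ UH ∧ X (Function.invFunOn X UH q) = q := by
    intro q hq
    rw [← hX.img] at hq
    obtain ⟨w, hw, rfl⟩ := hq
    rw [hX.inj.leftInvOn_invFunOn hw]
    exact ⟨hw, rfl⟩
  let E : ℂ → ℝ := fun q => h3_e x₁ x₂ (Function.invFunOn X UH q)
  have hEh : InnerProductSpace.HarmonicOnNhd E (V y) := by
    intro q hq
    have h5 : AnalyticAt ℂ (Function.invFunOn X UH) q := by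
      have h6 := h3_inv hX (hinv q hq).1
      rwa [(hinv q hq).2] at h6
    exact h3_comp (g := Function.invFunOn X UH) (h3_e_harm x₁ x₂ (hinv q hq).1) h5
  have hE0 : ∀ q ∈ V y, 0 ≤ E q := fun q hq => h3_e_nonneg hx12 (hinv q hq).1
  have hEv : E 0 ≤ ε / 2 := by
    have h5 : Function.invFunOn X UH 0 = v₀ := by
      rw [← hX.zero]
      exact hX.inj.leftInvOn_invFunOn hX.v0_im
    show h3_e x₁ x₂ (Function.invFunOn X UH 0) ≤ ε / 2
    rw [h5]
    exact hxe
  -- near the upper part of the slit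
  have hEslit : ∀ t : ℝ, y' < t → t ≤ y → ∀ᶠ q in 𝓝[V y] (nome (t * I)), 1 - ε / 2 < E q := by
    intro t ht1 ht2
    have h5 : nome (t * I) ∈ interior T := by
      refine hδT ?_
      rw [Real.dist_eq, abs_of_nonpos (by linarith)]
      linarith
    have h6 : T ∈ 𝓝 (nome (t * I)) := mem_interior_iff_mem_nhds.1 h5
    filter_upwards [self_mem_nhdsWithin, mem_nhdsWithin_of_mem_nhds h6] with q hq hqT
    obtain ⟨h7, h8⟩ := hinv q hq
    have h9 : Function.invFunOn X UH q ∈ X ⁻¹' T := by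
      show X (Function.invFunOn X UH q) ∈ T
      rw [h8]
      exact hqT
    exact hTX h9 h7
  have hVb : Bornology.IsBounded (V y) := Metric.isBounded_ball.subset (V_subset y)
  have hself : ∀ ζ : ℂ, ∀ᶠ q in 𝓝[V y] ζ, q ∈ V y := fun ζ => self_mem_nhdsWithin
  have hF : ({1, -1} : Set ℂ).Finite := Set.toFinite _
  constructor
  · -- first inequality
    have hmax := max_principle (V_isOpen hy) hVb hF
      (u := fun q => h₁ q - h₁' q - E q - ε / 2) (M := 1)
      ((((hp.harm₁).sub (hp'.harm₁.mono hVV)).sub hEh).sub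
        (InnerProductSpace.harmonicOnNhd_const (ε / 2)))
      (by
        intro q hq
        have e1 := (hp.bd₁ q hq).2
        have e2 := (hp'.bd₁ q (hVV hq)).1
        have e3 := hE0 q hq
        show h₁ q - h₁' q - E q - ε / 2 ≤ 1
        linarith)
      (by
        intro ζ hζ hζF ε' hε'
        have h5 := V_frontier hy hζ
        rcases h5 with ((h5 | h5) | h5) | h5
        · obtain ⟨t, ht0, hty, rfl⟩ := h5
          rcases le_or_gt t y' with h6 | h6
          · have h7 := ((hp'.slit₁ (nome (t * I)) ⟨t, ht0, h6, rfl⟩).mono_left (hle _)).eventually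
              (lt_mem_nhds (by linarith : 1 - ε' < 1))
            filter_upwards [h7, hself _] with q hq hqV
            have e1 := (hp.bd₁ q hqV).2
            have e3 := hE0 q hqV
            linarith
          · filter_upwards [hEslit t h6 hty, hself _] with q hq hqV
            have e1 := (hp.bd₁ q hqV).2
            have e2 := (hp'.bd₁ q (hVV hqV)).1
            linarith
        · have h7 := (hp.geo₁ ζ h5).eventually (gt_mem_nhds hε')
          filter_upwards [h7, hself _] with q hq hqV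
          have e2 := (hp'.bd₁ q (hVV hqV)).1
          have e3 := hE0 q hqV
          linarith
        · have h7 := (hp.arc₁ ζ h5).eventually (gt_mem_nhds hε')
          filter_upwards [h7, hself _] with q hq hqV
          have e2 := (hp'.bd₁ q (hVV hqV)).1
          have e3 := hE0 q hqV
          linarith
        · exact absurd h5 hζF) 0 (zero_mem_V y)
    have h5 : h₁ 0 - h₁' 0 - E 0 - ε / 2 ≤ 0 := hmax
    rw [ha, ha'] at h5
    linarith
  · -- second inequality
    have hmax := max_principle (V_isOpen hy) hVb hF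
      (u := fun q => h₂' q - h₂ q - E q - ε / 2) (M := 1)
      ((((hp'.harm₂.mono hVV).sub (hp.harm₂)).sub hEh).sub
        (InnerProductSpace.harmonicOnNhd_const (ε / 2)))
      (by
        intro q hq
        have e1 := (hp'.bd₂ q (hVV hq)).2
        have e2 := (hp.bd₂ q hq).1
        have e3 := hE0 q hq
        show h₂' q - h₂ q - E q - ε / 2 ≤ 1
        linarith)
      (by
        intro ζ hζ hζF ε' hε'
        have h5 := V_frontier hy hζ
        rcases h5 with ((h5 | h5) | h5) | h5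
        · obtain ⟨t, ht0, hty, rfl⟩ := h5
          rcases le_or_gt t y' with h6 | h6
          · have h7 := ((hp'.slit₂ (nome (t * I)) ⟨t, ht0, h6, rfl⟩).mono_left (hle _)).eventually
              (gt_mem_nhds hε')
            filter_upwards [h7, hself _] with q hq hqV
            have e1 := (hp.bd₂ q hqV).1
            have e3 := hE0 q hqV
            linarith
          · filter_upwards [hEslit t h6 hty, hself _] with q hq hqV
            have e1 := (hp'.bd₂ q (hVV hqV)).2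
            have e2 := (hp.bd₂ q hqV).1
            linarith
        · have h7 := ((hp'.geo₂ ζ h5).mono_left (hle _)).sub (hp.geo₂ ζ h5)
          rw [sub_self] at h7
          filter_upwards [h7.eventually (gt_mem_nhds hε'), hself _] with q hq hqV
          have e3 := hE0 q hqV
          linarith
        · have h7 := ((hp'.arc₂ ζ h5).mono_left (hle _)).eventually (gt_mem_nhds hε')
          filter_upwards [h7, hself _] with q hq hqV
          have e2 := (hp.bd₂ q hqV).1
          have e3 := hE0 q hqV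
          linarith
        · exact absurd h5 hζF) 0 (zero_mem_V y)
    have h5 : h₂' 0 - h₂ 0 - E 0 - ε / 2 ≤ 0 := hmax
    rw [hb, hb'] at h5
    linarith

end Pool.Agent.Choc
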