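import Pool.Agent.Lib.MP_2b3e36_an.Ex.V0
import Pool.Agent.Lib.MP_2b3e36_an.Ex.A1
import Pool.Agent.Lib.MP_2b3e36_an.Ex.H2

/-!
H4. The limits `y → 0` and `y → ∞`, bounds.

(small) `h₁ ≤ log (2/|q-1|) / log (2/(pi y))` on `V y`: the right side is harmonic, `≥ 0` in the disc and `≥ 1` on
`slit y` (`|q-1| ≤ pi t ≤ pi y` there). At `0` it is `log 2 / log (2/(pi y))`.
(large) Let `δ = exp (- pi/2)`, `q_y = exp (- pi y)`, `r = δ - q_y`. `e = 2 Re (((q_y - q)/r)^(1/4))` is
harmonic on `V y` and `≥ |(q_y - q)/r|^(1/4)`, so `≥ 1` at `geo` and `upperArc`. So `1 - h₁ ≤ e`,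
and `e 0 = 2 (q_y/r)^(1/4) → 0`.
(bounds) maximum principle for `h₁ + h₂`, strong maximum principle for `-h₁`, `-h₂`.
-/

set_option autoImplicit false

open Complex Set Filter Topology Metric

namespace Pool.Agent.Choc

/-- fourth root: the real part is at least half of the modulus -/
theorem h4_root (w : ℂ) : ‖w‖ ^ (1 / 4 : ℝ) ≤ 2 * (w ^ (1 / 4 : ℂ)).re := by
  by_cases hw : w = 0
  · subst hw
    rw [norm_zero, Real.zero_rpow (by norm_num), Complex.zero_cpow (by norm_num)]
    simp
  · have hn : 0 < ‖w‖ := norm_pos_iff.2 hw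
    have hpi := Real.pi_pos
    rw [Complex.cpow_def_of_ne_zero hw, Complex.exp_re, Real.rpow_def_of_pos hn]
    have e1 : (Complex.log w * (1 / 4)).re = Real.log ‖w‖ * (1 / 4) := by
      have : Complex.log w * (1 / 4) = ((1 / 4 : ℝ) : ℂ) * Complex.log w := by
        push_cast; ring
      rw [this, Complex.re_ofReal_mul, Complex.log_re]
      ring
    have e2 : (Complex.log w * (1 / 4)).im = Complex.arg w / 4 := by
      have : Complex.log w * (1 / 4) = ((1 / 4 : ℝ) : ℂ) * Complex.log w := by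
        push_cast; ring
      rw [this, Complex.im_ofReal_mul, Complex.log_im]
      ring
    rw [e1, e2]
    have e3 : 1 / 2 ≤ Real.cos (Complex.arg w / 4) := by
      rw [← Real.cos_pi_div_three, ← Real.cos_abs (Complex.arg w / 4)]
      have h1 := Complex.abs_arg_le_pi w
      have h2 : |Complex.arg w / 4| = |Complex.arg w| / 4 := by
        rw [abs_div]; norm_num
      rw [h2]
      refine Real.cos_le_cos_of_nonneg_of_le_pi (by positivity) (by linarith) (by linarith)
    have e4 := Real.exp_pos (Real.log ‖w‖ * (1 / 4))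
    nlinarith

theorem h4_preconn (y : ℝ) : IsPreconnected (V y) := by
  have h : StarConvex ℝ 0 (V y) := by
    rw [starConvex_zero_iff]
    intro q hq s hs0 hs1
    have := V_star q hq s hs0 hs1
    rwa [Complex.real_smul]
  exact (h.isPathConnected (zero_mem_V y)).isConnected.isPreconnected

theorem h4_log_harm {y : ℝ} : InnerProductSpace.HarmonicOnNhd
    (fun q : ℂ => Real.log ‖q - 1‖) (V y) := by
  intro q hq
  have h1 := V_subset y hq
  have h2 : q - 1 ≠ 0 := by
    intro h
    have : q = 1 := sub_eq_zero.1 h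
    rw [this] at h1
    simp at h1
  exact AnalyticAt.harmonicAt_log_norm (f := fun q => q - 1)
    (analyticAt_id.sub analyticAt_const) h2

theorem omega_small : ∀ ε > 0, ∃ y₀ > 0, ∀ y a b : ℝ, 0 < y → y < y₀ → IsOmega y a b → a ≤ ε := by
  intro ε hε
  have hpi := Real.pi_pos
  refine ⟨2 / Real.pi * Real.exp (-(Real.log 2 / ε)), by positivity, ?_⟩
  rintro y a b hy hy0 ⟨h₁, h₂, hp, rfl, rfl⟩
  have hlog2 : 0 < Real.log 2 := Real.log_pos (by norm_num)
  set L := Real.log (2 / (Real.pi * y)) with hL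
  have hL1 : Real.log 2 / ε ≤ L := by
    rw [hL, Real.le_log_iff_exp_le (by positivity), le_div_iff₀ (by positivity)]
    have h1 : Real.pi * y < 2 * Real.exp (-(Real.log 2 / ε)) := by
      have := mul_lt_mul_of_pos_left hy0 hpi
      calc _ < Real.pi * (2 / Real.pi * Real.exp (-(Real.log 2 / ε))) := this
        _ = _ := by field_simp
    have h2 : Real.exp (Real.log 2 / ε) * Real.exp (-(Real.log 2 / ε)) = 1 := by
      rw [← Real.exp_add]; simp
    have h3 := mul_lt_mul_of_pos_left h1 (Real.exp_pos (Real.log 2 / ε))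
    linarith
  have hL0 : 0 < L := lt_of_lt_of_le (by positivity) hL1
  have hβ : ∀ z ∈ V y, 0 ≤ (1 / L) * (Real.log 2 - Real.log ‖z - 1‖) := by
    intro z hz
    have h1 : ‖z‖ < 1 := by simpa using V_subset y hz
    have h2 : ‖z - 1‖ ≤ 2 := by
      have := norm_sub_le z 1
      rw [norm_one] at this
      linarith
    have h3 : Real.log ‖z - 1‖ ≤ Real.log 2 := by
      rcases (norm_nonneg (z - 1)).eq_or_lt with h | h
      · rw [← h, Real.log_zero]
        exact hlog2.le
      · exact Real.log_le_log h h2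
    have : 0 < 1 / L := by positivity
    exact mul_nonneg this.le (by linarith)
  have key := h2_cmp hy (u := h₁ - (1 / L) • ((fun _ : ℂ => Real.log 2) - fun q : ℂ =>
      Real.log ‖q - 1‖)) (M := 1) (c := 0)
    (hp.harm₁.sub ((InnerProductSpace.harmonicOnNhd_const _).sub h4_log_harm).const_smul)
    (fun z hz => by
      have a1 := hp.bd₁ z hz
      have a2 := hβ z hz
      simp only [Pi.sub_apply, Pi.smul_apply, smul_eq_mul]
      linarith [a1.2])
    ?_ ?_ ?_ 0 (zero_mem_V y)
  · simp only [Pi.sub_apply, Pi.smul_apply, smul_eq_mul, zero_sub, norm_neg, norm_one,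
      Real.log_one, sub_zero] at key
    have h1 : Real.log 2 ≤ ε * L := by
      rw [div_le_iff₀ hε] at hL1
      linarith
    have h2 : 1 / L * Real.log 2 ≤ ε := by
      rw [one_div, inv_mul_le_iff₀ hL0]
      linarith
    linarith
  · rintro ζ ⟨t, ht0, ht1, rfl⟩ η hη
    have hz : nome (t * I) = ((Real.exp (-(Real.pi * t)) : ℝ) : ℂ) := by
      unfold nome
      rw [Complex.ofReal_exp]
      congr 1
      push_cast
      linear_combination (Real.pi * t : ℂ) * I_mul_I
    have hn : ‖nome (t * I) - 1‖ = 1 - Real.exp (-(Real.pi * t)) := by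
      rw [hz, ← Complex.ofReal_one, ← Complex.ofReal_sub, Complex.norm_real, Real.norm_eq_abs,
        abs_sub_comm, abs_of_pos]
      have : Real.exp (-(Real.pi * t)) < 1 := by
        rw [Real.exp_lt_one_iff]
        have := mul_pos hpi ht0
        linarith
      linarith
    have hlt : Real.exp (-(Real.pi * t)) < 1 := by
      rw [Real.exp_lt_one_iff]
      have := mul_pos hpi ht0
      linarith
    have hn1 : ‖nome (t * I) - 1‖ ≤ Real.pi * y := by
      rw [hn]
      have h1 := Real.add_one_le_exp (-(Real.pi * t))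
      have h2 : Real.pi * t ≤ Real.pi * y := mul_le_mul_of_nonneg_left ht1 hpi.le
      linarith
    have hn0 : 0 < ‖nome (t * I) - 1‖ := by rw [hn]; linarith
    have hβ1 : 1 ≤ (1 / L) * (Real.log 2 - Real.log ‖nome (t * I) - 1‖) := by
      have h1 : Real.log ‖nome (t * I) - 1‖ ≤ Real.log (Real.pi * y) := Real.log_le_log hn0 hn1
      have h2 : L = Real.log 2 - Real.log (Real.pi * y) := by
        rw [hL, Real.log_div (by norm_num) (by positivity)]
      rw [one_div, ← div_eq_inv_mul, one_le_div hL0]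
      linarith
    have hcont : Tendsto (fun z : ℂ => (1 / L) * (Real.log 2 - Real.log ‖z - 1‖))
        (𝓝[V y] (nome (t * I)))
        (𝓝 ((1 / L) * (Real.log 2 - Real.log ‖nome (t * I) - 1‖))) := by
      refine Tendsto.mono_left ?_ nhdsWithin_le_nhds
      have h1 : ContinuousAt (fun z : ℂ => ‖z - 1‖) (nome (t * I)) := by fun_prop
      have h2 : ContinuousAt (fun z : ℂ => Real.log ‖z - 1‖) (nome (t * I)) :=
        h1.log hn0.ne'
      exact ((continuousAt_const.sub h2).const_mul (1 / L)).tendsto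
    filter_upwards [h2_gt hcont (show 1 - η < _ by linarith), self_mem_nhdsWithin] with z hz hzV
    have a1 := hp.bd₁ z hzV
    simp only [Pi.sub_apply, Pi.smul_apply, smul_eq_mul]
    linarith [a1.2]
  · intro ζ hζ η hη
    filter_upwards [h2_lt (hp.geo₁ ζ hζ) hη, self_mem_nhdsWithin] with z hz hzV
    have a2 := hβ z hzV
    simp only [Pi.sub_apply, Pi.smul_apply, smul_eq_mul]
    linarith
  · intro ζ hζ η hη
    filter_upwards [h2_lt (hp.arc₁ ζ hζ) hη, self_mem_nhdsWithin] with z hz hzV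
    have a2 := hβ z hzV
    simp only [Pi.sub_apply, Pi.smul_apply, smul_eq_mul]
    linarith

/-- off the ray from the tip -/
theorem h4_slitPlane {y r : ℝ} (hr : 0 < r) {q : ℂ} (hq : q ∈ V y) :
    (((Real.exp (-(Real.pi * y)) : ℝ) : ℂ) - q) / ((r : ℝ) : ℂ) ∈ Complex.slitPlane := by
  have hpi := Real.pi_pos
  by_contra hc
  rw [Complex.mem_slitPlane_iff] at hc
  push Not at hc
  obtain ⟨h1, h2⟩ := hc
  rw [Complex.div_ofReal_re] at h1
  rw [Complex.div_ofReal_im] at h2
  have h3 : q.im = 0 := by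
    rcases (div_eq_zero_iff.1 h2) with h | h
    · rw [Complex.sub_im, Complex.ofReal_im] at h
      linarith
    · exact absurd h hr.ne'
  have h4 : Real.exp (-(Real.pi * y)) ≤ q.re := by
    by_contra h5
    push Not at h5
    have : 0 < (((Real.exp (-(Real.pi * y)) : ℝ) : ℂ) - q).re / r := by
      refine div_pos ?_ hr
      rw [Complex.sub_re, Complex.ofReal_re]
      linarith
    linarith
  have h5 : q = (q.re : ℂ) := by
    apply Complex.ext
    · simp
    · simp [h3]
  have h6 : 0 < q.re := (Real.exp_pos _).trans_le h4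
  have h7 : q.re < 1 := by
    have : ‖q‖ < 1 := hq.1
    rw [h5, Complex.norm_real, Real.norm_of_nonneg h6.le] at this
    exact this
  refine hq.2.2 ⟨-(Real.log q.re) / Real.pi, ?_, ?_, ?_⟩
  · have := Real.log_neg h6 h7
    have h8 : 0 < -(Real.log q.re) := by linarith
    positivity
  · rw [div_le_iff₀ hpi]
    have := (Real.le_log_iff_exp_le h6).2 h4
    linarith
  · unfold nome
    rw [h5]
    have e : (Real.pi : ℂ) * I * (((-(Real.log q.re) / Real.pi : ℝ) : ℂ) * I) =
        ((Real.log q.re : ℝ) : ℂ) := by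
      have : (Real.pi : ℂ) ≠ 0 := by exact_mod_cast hpi.ne'
      push_cast
      field_simp
      linear_combination (-((Real.log q.re : ℝ) : ℂ)) * I_sq
    simp only [Complex.ofReal_re] at e ⊢
    rw [e, ← Complex.ofReal_exp, Real.exp_log h6]

theorem omega_large : ∀ ε > 0, ∃ y₀ > 0, ∀ y a b : ℝ, y₀ < y → IsOmega y a b → 1 - ε ≤ a := by
  intro ε hε
  have hpi := Real.pi_pos
  set δ : ℝ := Real.exp (-(Real.pi * (1 / 2))) with hδ
  have hδ0 : 0 < δ := Real.exp_pos _
  have hδ1 : δ ≤ 1 := by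
    rw [hδ, Real.exp_le_one_iff]
    linarith
  set m : ℝ := δ / 2 * min 1 ((ε / 2) ^ 4) with hm
  have hm0 : 0 < m := by
    rw [hm]
    have : 0 < min 1 ((ε / 2) ^ 4) := lt_min one_pos (by positivity)
    positivity
  refine ⟨max 1 (-(Real.log m) / Real.pi), lt_of_lt_of_le one_pos (le_max_left _ _), ?_⟩
  rintro y a b hy0 ⟨h₁, h₂, hp, rfl, rfl⟩
  have hy1 : 1 < y := (le_max_left _ _).trans_lt hy0
  have hy2 : -(Real.log m) / Real.pi < y := (le_max_right _ _).trans_lt hy0
  have hy : 0 < y := by linarith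
  set qy : ℝ := Real.exp (-(Real.pi * y)) with hqy
  have hqy0 : 0 < qy := Real.exp_pos _
  have hqm : qy ≤ m := by
    rw [hqy, ← Real.le_log_iff_exp_le hm0]
    rw [div_lt_iff₀ hpi] at hy2
    linarith
  have hmm : m ≤ δ / 2 := by
    rw [hm]
    have : min 1 ((ε / 2) ^ 4) ≤ 1 := min_le_left _ _
    nlinarith
  have hmm2 : m ≤ δ / 2 * (ε / 2) ^ 4 := by
    rw [hm]
    have : min 1 ((ε / 2) ^ 4) ≤ (ε / 2) ^ 4 := min_le_right _ _
    exact mul_le_mul_of_nonneg_left this (by positivity)
  set r : ℝ := δ - qy with hr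
  have hr0 : δ / 2 ≤ r := by rw [hr]; linarith
  have hrp : 0 < r := by linarith
  -- the majorant
  set e : ℂ → ℂ := fun q => (((qy : ℝ) : ℂ) - q) / ((r : ℝ) : ℂ) with he
  have hharm : InnerProductSpace.HarmonicOnNhd (fun q => ((e q) ^ (1 / 4 : ℂ)).re) (V y) := by
    intro q hq
    have hd : DifferentiableOn ℂ (fun q => (e q) ^ (1 / 4 : ℂ)) (V y) := by
      intro z hz
      have h1 : e z ∈ Complex.slitPlane := h4_slitPlane hrp hz
      have h2 : DifferentiableAt ℂ e z := by
        rw [he]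
        fun_prop
      exact (h2.cpow (differentiableAt_const _) h1).differentiableWithinAt
    exact AnalyticAt.harmonicAt_re (hd.analyticAt ((V_isOpen hy).mem_nhds hq))
  have hlow : ∀ q, (‖e q‖) ^ (1 / 4 : ℝ) ≤ 2 * ((e q) ^ (1 / 4 : ℂ)).re := fun q => h4_root (e q)
  have hnn : ∀ q, 0 ≤ 2 * ((e q) ^ (1 / 4 : ℂ)).re := fun q =>
    (Real.rpow_nonneg (norm_nonneg _) _).trans (hlow q)
  have hcont : Continuous fun q => (‖e q‖) ^ (1 / 4 : ℝ) := by
    refine Continuous.rpow_const ?_ (fun _ => Or.inr (by norm_num))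
    rw [he]
    fun_prop
  have hfar : ∀ ζ : ℂ, δ ≤ ‖ζ‖ → 1 ≤ (‖e ζ‖) ^ (1 / 4 : ℝ) := by
    intro ζ hζ
    refine Real.one_le_rpow ?_ (by norm_num)
    have h1 : ‖e ζ‖ = ‖((qy : ℝ) : ℂ) - ζ‖ / r := by
      rw [he]
      simp only
      rw [norm_div, Complex.norm_real, Real.norm_of_nonneg hrp.le]
    rw [h1, one_le_div hrp]
    have h2 := norm_sub_norm_le ζ ((qy : ℝ) : ℂ)
    rw [Complex.norm_real, Real.norm_of_nonneg hqy0.le, norm_sub_rev] at h2
    linarith
  have hfin : ∀ ζ : ℂ, δ ≤ ‖ζ‖ → ∀ η > 0, ∀ᶠ z in 𝓝[V y] ζ,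
      (((fun _ : ℂ => (1 : ℝ)) - h₁) - (2 : ℝ) • fun q => ((e q) ^ (1 / 4 : ℂ)).re) z < 0 + η := by
    intro ζ hζ η hη
    have h1 : Tendsto (fun q => (‖e q‖) ^ (1 / 4 : ℝ)) (𝓝[V y] ζ)
        (𝓝 ((‖e ζ‖) ^ (1 / 4 : ℝ))) := (hcont.tendsto ζ).mono_left nhdsWithin_le_nhds
    have h2 := hfar ζ hζ
    filter_upwards [h2_gt h1 (show 1 - η < _ by linarith), self_mem_nhdsWithin] with z hz hzV
    have a1 := hp.bd₁ z hzV
    have a2 := hlow z
    simp only [Pi.sub_apply, Pi.smul_apply, smul_eq_mul]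
    linarith [a1.1]
  have key := h2_cmp hy (u := ((fun _ : ℂ => (1 : ℝ)) - h₁) -
      (2 : ℝ) • fun q => ((e q) ^ (1 / 4 : ℂ)).re) (M := 1) (c := 0)
    (((InnerProductSpace.harmonicOnNhd_const _).sub hp.harm₁).sub hharm.const_smul)
    (fun z hz => by
      have a1 := hp.bd₁ z hz
      have a2 := hnn z
      simp only [Pi.sub_apply, Pi.smul_apply, smul_eq_mul]
      linarith [a1.1])
    ?_ ?_ ?_ 0 (zero_mem_V y)
  · simp only [Pi.sub_apply, Pi.smul_apply, smul_eq_mul] at key
    have h1 : ((e 0) ^ (1 / 4 : ℂ)).re ≤ ε / 2 := by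
      refine (Complex.re_le_norm _).trans ?_
      have h2 : e 0 = ((qy / r : ℝ) : ℂ) := by
        rw [he]
        push_cast
        simp
      rw [h2, Complex.norm_cpow_eq_rpow_re_of_pos (by positivity)]
      have h3 : ((1 / 4 : ℂ)).re = 1 / 4 := by
        have : (1 / 4 : ℂ) = ((1 / 4 : ℝ) : ℂ) := by push_cast; ring
        rw [this, Complex.ofReal_re]
      rw [h3]
      have h4 : qy / r ≤ (ε / 2) ^ 4 := by
        rw [div_le_iff₀ hrp]
        have h5 : (ε / 2) ^ 4 * (δ / 2) ≤ (ε / 2) ^ 4 * r :=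
          mul_le_mul_of_nonneg_left hr0 (by positivity)
        linarith
      calc (qy / r) ^ (1 / 4 : ℝ) ≤ ((ε / 2) ^ 4) ^ (1 / 4 : ℝ) :=
            Real.rpow_le_rpow (by positivity) h4 (by norm_num)
        _ = ε / 2 := by
            rw [← Real.rpow_natCast, ← Real.rpow_mul (by positivity)]
            norm_num
    linarith
  · intro ζ hζ η hη
    filter_upwards [h2_gt (hp.slit₁ ζ hζ) (show 1 - η < (1 : ℝ) by linarith)] with z hz
    have a2 := hnn z
    simp only [Pi.sub_apply, Pi.smul_apply, smul_eq_mul]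
    linarith
  · rintro ζ ⟨τ, hτ0, hτ1, rfl⟩
    refine hfin _ ?_
    rw [h2_nome_norm, hδ, Real.exp_le_exp]
    have h1 : |(τ + 1 / 2).im| ≤ 1 / 2 := hτ1 ▸ Complex.abs_im_le_norm (τ + 1 / 2)
    have h2 : (τ + 1 / 2).im = τ.im := by simp
    rw [h2, abs_of_pos hτ0] at h1
    have := mul_le_mul_of_nonneg_left h1 hpi.le
    linarith
  · rintro ζ ⟨h1, _⟩
    exact hfin ζ (by rw [h1]; exact hδ1)

/-- Sum and sign. -/
theorem omega_bounds {y a b : ℝ} (hy : 0 < y) (h : IsOmega y a b) : 0 < a ∧ 0 < b ∧ a + b ≤ 1 := by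
  obtain ⟨h₁, h₂, hp, rfl, rfl⟩ := h
  have hpi := Real.pi_pos
  have h0 := zero_mem_V y
  refine ⟨?_, ?_, ?_⟩
  · by_contra hc
    push Not at hc
    have e0 : h₁ 0 = 0 := le_antisymm hc (hp.bd₁ 0 h0).1
    have hs := strong_max (V_isOpen hy) (h4_preconn y) (u := -h₁) hp.harm₁.neg
      (fun z hz => by
        have := (hp.bd₁ z hz).1
        simp only [Pi.neg_apply]
        linarith) h0 (by simp [e0])
    have htip : nome (y * I) ∈ slit y := ⟨y, hy, le_rfl, rfl⟩
    have hc : Continuous fun t : ℝ => nome (t * I) := by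
      unfold nome
      fun_prop
    have hT : Tendsto (fun t : ℝ => nome (t * I)) (𝓝[>] y) (𝓝[V y] (nome (y * I))) := by
      refine tendsto_nhdsWithin_iff.2 ⟨(hc.tendsto y).mono_left nhdsWithin_le_nhds, ?_⟩
      filter_upwards [self_mem_nhdsWithin] with t ht
      exact h2_mem hy ht
    have h2 := (hp.slit₁ _ htip).comp hT
    have h3 : Tendsto (h₁ ∘ fun t : ℝ => nome (t * I)) (𝓝[>] y) (𝓝 0) := by
      refine tendsto_const_nhds.congr' ?_
      filter_upwards [self_mem_nhdsWithin] with t ht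
      have := hs _ (h2_mem hy ht)
      simp only [Pi.neg_apply, neg_eq_zero] at this
      simp only [Function.comp]
      exact this.symm
    exact absurd (tendsto_nhds_unique h2 h3) one_ne_zero
  · by_contra hc
    push Not at hc
    have e0 : h₂ 0 = 0 := le_antisymm hc (hp.bd₂ 0 h0).1
    have hs := strong_max (V_isOpen hy) (h4_preconn y) (u := -h₂) hp.harm₂.neg
      (fun z hz => by
        have := (hp.bd₂ z hz).1
        simp only [Pi.neg_apply]
        linarith) h0 (by simp [e0])
    have hgeo : nome (-(1 / 2) + ((1 / 2 : ℝ) : ℂ) * I) ∈ geo := by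
      refine ⟨_, ?_, ?_, rfl⟩
      · simp
      · have : -(1 / 2) + ((1 / 2 : ℝ) : ℂ) * I + 1 / 2 = ((1 / 2 : ℝ) : ℂ) * I := by ring
        rw [this, norm_mul, Complex.norm_I, Complex.norm_real]
        norm_num
    have hmem : ∀ t : ℝ, 1 / 2 < t → nome (-(1 / 2) + (t : ℂ) * I) ∈ V y := by
      intro t ht
      have hre : (-(1 / 2) + (t : ℂ) * I).re = -(1 / 2) := by simp
      have him : (-(1 / 2) + (t : ℂ) * I).im = t := by simp
      refine ⟨?_, ?_, ?_⟩
      · rw [h2_nome_norm, Real.exp_lt_one_iff, him]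
        have := mul_pos hpi (show 0 < t by linarith)
        linarith
      · rintro ⟨τ, h1, h2, h3⟩
        unfold nome at h3
        rw [Complex.exp_eq_exp_iff_exists_int] at h3
        obtain ⟨n, hn⟩ := h3
        have hne : (Real.pi : ℂ) * I ≠ 0 := by
          refine mul_ne_zero ?_ I_ne_zero
          exact_mod_cast hpi.ne'
        have h4 : τ = (-(1 / 2) + (t : ℂ) * I) + 2 * n := by
          have : (Real.pi : ℂ) * I * τ =
              (Real.pi : ℂ) * I * ((-(1 / 2) + (t : ℂ) * I) + 2 * n) := by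
            rw [hn]; ring
          exact mul_left_cancel₀ hne this
        have h5 : |(τ + 1 / 2).im| ≤ 1 / 2 := (Complex.abs_im_le_norm _).trans h2
        have h7 : (τ + 1 / 2).im = t := by rw [h4]; simp
        rw [h7] at h5
        have := (abs_le.1 h5).2
        linarith
      · rintro ⟨s, hs0, hs1, hs2⟩
        unfold nome at hs2
        rw [Complex.exp_eq_exp_iff_exists_int] at hs2
        obtain ⟨n, hn⟩ := hs2
        have hne : (Real.pi : ℂ) * I ≠ 0 := by
          refine mul_ne_zero ?_ I_ne_zero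
          exact_mod_cast hpi.ne'
        have h4 : (s : ℂ) * I = (-(1 / 2) + (t : ℂ) * I) + 2 * n := by
          have : (Real.pi : ℂ) * I * (s * I) =
              (Real.pi : ℂ) * I * ((-(1 / 2) + (t : ℂ) * I) + 2 * n) := by
            rw [hn]; ring
          exact mul_left_cancel₀ hne this
        have h5 := congrArg Complex.re h4
        simp at h5
        have h6 : (4 * n : ℝ) = 1 := by linarith
        have h7 : (4 * n : ℤ) = 1 := by exact_mod_cast h6
        omega
    have hc : Continuous fun t : ℝ => nome (-(1 / 2) + (t : ℂ) * I) := by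
      unfold nome
      fun_prop
    have hT : Tendsto (fun t : ℝ => nome (-(1 / 2) + (t : ℂ) * I)) (𝓝[>] (1 / 2 : ℝ))
        (𝓝[V y] (nome (-(1 / 2) + ((1 / 2 : ℝ) : ℂ) * I))) := by
      refine tendsto_nhdsWithin_iff.2 ⟨(hc.tendsto _).mono_left nhdsWithin_le_nhds, ?_⟩
      filter_upwards [self_mem_nhdsWithin] with t ht
      exact hmem t ht
    have h2 := (hp.geo₂ _ hgeo).comp hT
    have h3 : Tendsto (h₂ ∘ fun t : ℝ => nome (-(1 / 2) + (t : ℂ) * I)) (𝓝[>] (1 / 2 : ℝ))
        (𝓝 0) := by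
      refine tendsto_const_nhds.congr' ?_
      filter_upwards [self_mem_nhdsWithin] with t ht
      have := hs _ (hmem t ht)
      simp only [Pi.neg_apply, neg_eq_zero] at this
      simp only [Function.comp]
      exact this.symm
    exact absurd (tendsto_nhds_unique h2 h3) one_ne_zero
  · have key := h2_cmp hy (u := h₁ + h₂) (M := 2) (c := 1) (hp.harm₁.add hp.harm₂)
      (fun z hz => by
        have a1 := hp.bd₁ z hz
        have a2 := hp.bd₂ z hz
        simp only [Pi.add_apply]
        linarith [a1.2, a2.2])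
      ?_ ?_ ?_ 0 h0
    · simpa using key
    · intro ζ hζ η hη
      filter_upwards [h2_lt (hp.slit₂ ζ hζ) hη, self_mem_nhdsWithin] with z hz hzV
      have a1 := hp.bd₁ z hzV
      simp only [Pi.add_apply]
      linarith [a1.2]
    · intro ζ hζ η hη
      filter_upwards [h2_lt (hp.geo₁ ζ hζ) hη, self_mem_nhdsWithin] with z hz hzV
      have a1 := hp.bd₂ z hzV
      simp only [Pi.add_apply]
      linarith [a1.2]
    · intro ζ hζ η hη
      filter_upwards [h2_lt (hp.arc₁ ζ hζ) hη, self_mem_nhdsWithin] with z hz hzV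
      have a1 := hp.bd₂ z hzV
      simp only [Pi.add_apply]
      linarith [a1.2]

end Pool.Agent.Choc
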