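import Pool.Agent.Lib.MP_2b3e36_an.Ex.L0

/-!
L1. The sequence of the arithmetic-geometric mean attached to a function `f` without zeros which
takes the value `1` only at `z₀`.

Proof. Let `κ` be a logarithm of `f` with `κ z₀ = 0` and `k 0 = exp (κ/2)`. Given `k m` (nonvanishing,
holomorphic, `k m z₀ = 1`, and `(k m z)^2 = 1` only at `z₀`) we have `k m z ≠ -1` (else
`(k m z)^2 = 1`, `z = z₀`, `k m z₀ = 1`). So `4 k m / (1 + k m)^2` is holomorphic without zeros, equal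
to `1` at `z₀`; let `k (m+1)` be its square root (by `exists_log`) with value `1` at `z₀`. If
`(k (m+1) z)^2 = 1` then `(1 - k m z)^2 = 0`, so `k m z = 1`, so `z = z₀`.
-/

set_option autoImplicit false

open Complex Set Filter Topology Metric

namespace Pool.Agent.Choc

structure AGMSeq (Ω : Set ℂ) (z₀ : ℂ) (f : ℂ → ℂ) (k : ℕ → ℂ → ℂ) : Prop where
  diff : ∀ m, DifferentiableOn ℂ (k m) Ω
  base : ∀ m, k m z₀ = 1
  zero : ∀ z ∈ Ω, k 0 z ^ 2 = f z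
  step : ∀ m, ∀ z ∈ Ω, k (m + 1) z ^ 2 * (1 + k m z) ^ 2 = 4 * k m z
  ne0 : ∀ m, ∀ z ∈ Ω, k m z ≠ 0
  neNeg : ∀ m, ∀ z ∈ Ω, 1 + k m z ≠ 0
  eq1 : ∀ m, ∀ z ∈ Ω, k m z ^ 2 = 1 → z = z₀

theorem l1_sqrt {Ω : Set ℂ} (hc : Convex ℝ Ω) (ho : IsOpen Ω) {z₀ : ℂ} (hz : z₀ ∈ Ω)
    {g : ℂ → ℂ} (hg : DifferentiableOn ℂ g Ω) (h0 : ∀ z ∈ Ω, g z ≠ 0) (h1 : g z₀ = 1) :
    ∃ s : ℂ → ℂ, DifferentiableOn ℂ s Ω ∧ s z₀ = 1 ∧ ∀ z ∈ Ω, s z ^ 2 = g z := by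
  obtain ⟨l, hl, hle, hl0⟩ := exists_log ho hz (hc.starConvex hz) hg h0
    (c := 0) (by rw [exp_zero, h1])
  refine ⟨fun z => exp (l z / 2), (hl.div_const 2).cexp, ?_, ?_⟩
  · show exp (l z₀ / 2) = 1
    rw [hl0, zero_div, exp_zero]
  · intro z hzΩ
    show exp (l z / 2) ^ 2 = g z
    rw [← exp_nat_mul, ← hle z hzΩ]
    congr 1
    push_cast
    ring

/-- one step of the sequence -/
structure L1P (Ω : Set ℂ) (z₀ : ℂ) (k : ℂ → ℂ) : Prop where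
  diff : DifferentiableOn ℂ k Ω
  base : k z₀ = 1
  ne0 : ∀ z ∈ Ω, k z ≠ 0
  eq1 : ∀ z ∈ Ω, k z ^ 2 = 1 → z = z₀

theorem L1P.neNeg {Ω : Set ℂ} {z₀ : ℂ} {k : ℂ → ℂ} (h : L1P Ω z₀ k) :
    ∀ z ∈ Ω, 1 + k z ≠ 0 := by
  intro z hz h1
  have h2 : k z = -1 := by linear_combination h1
  have h3 : z = z₀ := h.eq1 z hz (by rw [h2]; norm_num)
  rw [h3, h.base] at h2
  norm_num at h2

theorem l1_step {Ω : Set ℂ} (hc : Convex ℝ Ω) (ho : IsOpen Ω) {z₀ : ℂ} (hz : z₀ ∈ Ω)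
    {k : ℂ → ℂ} (h : L1P Ω z₀ k) :
    ∃ k' : ℂ → ℂ, L1P Ω z₀ k' ∧ ∀ z ∈ Ω, k' z ^ 2 * (1 + k z) ^ 2 = 4 * k z := by
  have hneg := h.neNeg
  have hd : DifferentiableOn ℂ (fun z => 4 * k z / (1 + k z) ^ 2) Ω := by
    refine DifferentiableOn.div (h.diff.const_mul 4) ((h.diff.const_add 1).pow 2) ?_
    intro z hz
    exact pow_ne_zero 2 (hneg z hz)
  have hn : ∀ z ∈ Ω, 4 * k z / (1 + k z) ^ 2 ≠ 0 := by
    intro z hz
    exact div_ne_zero (mul_ne_zero (by norm_num) (h.ne0 z hz)) (pow_ne_zero 2 (hneg z hz))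
  obtain ⟨s, hs, hs0, hse⟩ := l1_sqrt hc ho hz hd hn (by rw [h.base]; norm_num)
  have hstep : ∀ z ∈ Ω, s z ^ 2 * (1 + k z) ^ 2 = 4 * k z := by
    intro z hz
    rw [hse z hz, div_mul_cancel₀ _ (pow_ne_zero 2 (hneg z hz))]
  refine ⟨s, ⟨hs, hs0, ?_, ?_⟩, hstep⟩
  · intro z hz h1
    have := hse z hz
    rw [h1] at this
    exact hn z hz (by rw [← this]; norm_num)
  · intro z hz h1
    have h2 := hstep z hz
    rw [h1] at h2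
    have h3 : (1 - k z) ^ 2 = 0 := by linear_combination h2
    have h4 : 1 - k z = 0 := by
      exact pow_eq_zero_iff (two_ne_zero) |>.mp h3
    have h5 : k z = 1 := by linear_combination -h4
    exact h.eq1 z hz (by rw [h5]; norm_num)

theorem agm_exists {Ω : Set ℂ} (hc : Convex ℝ Ω) (ho : IsOpen Ω) {z₀ : ℂ} (hz : z₀ ∈ Ω)
    {f : ℂ → ℂ} (hf : DifferentiableOn ℂ f Ω) (h0 : ∀ z ∈ Ω, f z ≠ 0)
    (h1 : ∀ z ∈ Ω, f z = 1 ↔ z = z₀) : ∃ k : ℕ → ℂ → ℂ, AGMSeq Ω z₀ f k := by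
  obtain ⟨k₀, hk₀, hk₀0, hk₀e⟩ := l1_sqrt hc ho hz hf h0 ((h1 z₀ hz).mpr rfl)
  have hP : L1P Ω z₀ k₀ := by
    refine ⟨hk₀, hk₀0, ?_, ?_⟩
    · intro z hz h2
      have := hk₀e z hz
      rw [h2] at this
      exact h0 z hz (by rw [← this]; norm_num)
    · intro z hz h2
      rw [hk₀e z hz] at h2
      exact (h1 z hz).mp h2
  have hst : ∀ s : {k : ℂ → ℂ // L1P Ω z₀ k}, ∃ s' : {k : ℂ → ℂ // L1P Ω z₀ k},
      ∀ z ∈ Ω, s'.1 z ^ 2 * (1 + s.1 z) ^ 2 = 4 * s.1 z := by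
    intro s
    obtain ⟨k', hk', he⟩ := l1_step hc ho hz s.2
    exact ⟨⟨k', hk'⟩, he⟩
  choose next hnext using hst
  let seq : ℕ → {k : ℂ → ℂ // L1P Ω z₀ k} := fun m => Nat.rec ⟨k₀, hP⟩ (fun _ s => next s) m
  refine ⟨fun m => (seq m).1, ?_⟩
  exact
    { diff := fun m => (seq m).2.diff
      base := fun m => (seq m).2.base
      zero := fun z hz => hk₀e z hz
      step := fun m z hz => hnext (seq m) z hz
      ne0 := fun m => (seq m).2.ne0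
      neNeg := fun m => (seq m).2.neNeg
      eq1 := fun m => (seq m).2.eq1 }

end Pool.Agent.Choc
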