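import Pool.Agent.Lib.MP_2b3e36_an.Ex.V0
import Pool.Agent.Lib.MP_2b3e36_an.Ex.A1
import Pool.Agent.Lib.MP_2b3e36_an.Ex.W2

/-!
M1. The majorant inequality.

Let `Q : Om r → unit disc` be holomorphic, `Q b = 0`, and let `Q z` tend to a point of `Bset` when `z` tends
to any real point `x ≠ 0`, `|x| < r`. Then
`hA (jou (b/r)) + hB (jou (b/r)) ≤ h₁ 0 + h₂ 0` for a harmonic pair of `V y`.
Proof. `Ω = {z ∈ Om r : Q z ∈ V y}` is open, bounded, contains `b`.
`u z = hA (jou (z/r)) + hB (jou (z/r)) - h₁ (Q z) - h₂ (Q z)` is harmonic on `Ω` (composition of harmonic and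
holomorphic functions), `u ≤ 1` (`hA + hB < 1`). Boundary points `ζ ∈ frontier Ω`, `ζ ∉ {0, r, -r}`:
(i) `‖ζ‖ = r`, `Im ζ > 0`: `jou (z/r)` tends to a point of the real interval `(-1,1)` through `UH`, where
`hA + hB → 0` (`hA_right`, `hB_left`); and `h₁, h₂ ≥ 0`.
(ii) `ζ ∈ Om r`, `Q ζ ∉ V y`: `Q ζ` is in the closure of `V y`, `‖Q ζ‖ < 1`, so `Q ζ ∈ slit y ∪ geo`
(`V_frontier`), and `h₁ + h₂ → 1` along `V y` at this point; `hA + hB < 1`.
(iii) `ζ` real, `0 < |ζ| < r`: `Q z → q ∈ Bset`; if `z ∈ Ω` tends to `ζ` then `Q z ∈ V y`, so `q` is in the closure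
of `V y`, `q ∈ geo` (`B_closure`), `h₁ + h₂ → 1`.
So `limsup u ≤ 0` and `max_principle` gives `u b ≤ 0`. (If `frontier` points are not limits of `Ω` the
filter is trivial; also `ζ` with `Im ζ = 0`, `|ζ| > r` do not occur.)
-/

set_option autoImplicit false

open Complex Set Filter Topology Metric

namespace Pool.Agent.Choc

theorem m1_comp {h : ℂ → ℝ} {g : ℂ → ℂ} {z : ℂ} (hh : InnerProductSpace.HarmonicAt h (g z))
    (hg : AnalyticAt ℂ g z) : InnerProductSpace.HarmonicAt (fun w => h (g w)) z := by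
  obtain ⟨R, hR, hball⟩ := Metric.eventually_nhds_iff_ball.1 hh.eventually
  obtain ⟨F, hF1, hF2⟩ :=
    InnerProductSpace.HarmonicOnNhd.exists_analyticOnNhd_ball_re_eq (f := h) (z := g z) (R := R)
      (fun x hx => hball x hx)
  have h1 : AnalyticAt ℂ (fun w => F (g w)) z :=
    (hF1 (g z) (mem_ball_self hR)).fun_comp hg
  have h2 := h1.harmonicAt_re
  have h3 : ∀ᶠ w in 𝓝 z, g w ∈ ball (g z) R :=
    hg.continuousAt.eventually (ball_mem_nhds (g z) hR)
  refine (InnerProductSpace.harmonicAt_congr_nhds ?_).1 h2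
  filter_upwards [h3] with w hw
  exact hF2 hw

theorem m1_om_open (r : ℝ) : IsOpen (Om r) :=
  (isOpen_lt continuous_norm continuous_const).inter
    (isOpen_lt continuous_const Complex.continuous_im)

theorem m1_div_im {r : ℝ} (z : ℂ) : (z / (r : ℂ)).im = z.im / r := Complex.div_ofReal_im z r

theorem m1_jou_mem {r : ℝ} (hr : 0 < r) {z : ℂ} (hz : z ∈ Om r) : 0 < (jou (z / r)).im := by
  refine jou_im ?_ ?_
  · rw [norm_div, Complex.norm_real, Real.norm_of_nonneg hr.le, div_lt_one hr]
    exact hz.1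
  · rw [m1_div_im]
    exact div_pos hz.2 hr

theorem m1_ne {r : ℝ} {z : ℂ} (hz : 0 < z.im) (hr : 0 < r) : z / (r : ℂ) ≠ 0 := by
  intro h
  have h1 : (z / (r : ℂ)).im = 0 := by rw [h, Complex.zero_im]
  rw [m1_div_im] at h1
  exact (div_pos hz hr).ne' h1

theorem m1_jou_an {r : ℝ} (hr : 0 < r) {z : ℂ} (hz : 0 < z.im) :
    AnalyticAt ℂ (fun w => jou (w / r)) z := by
  have h1 : AnalyticAt ℂ (fun w : ℂ => w / (r : ℂ)) z := by
    have hr' : (r : ℂ) ≠ 0 := Complex.ofReal_ne_zero.2 hr.ne'
    exact analyticAt_id.div analyticAt_const hr'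
  have h2 : AnalyticAt ℂ (fun w : ℂ => -(w / (r : ℂ) + (w / (r : ℂ))⁻¹) / 2) z :=
    ((h1.add (h1.inv (m1_ne hz hr))).neg).div analyticAt_const two_ne_zero
  exact h2

theorem m1_jou_circle {w : ℂ} (hw : ‖w‖ = 1) : jou w = ((-w.re : ℝ) : ℂ) := by
  have h1 : w⁻¹ = starRingEnd ℂ w := by
    have h2 : w * starRingEnd ℂ w = 1 := by
      rw [Complex.mul_conj, Complex.normSq_eq_norm_sq, hw]
      norm_num
    exact inv_eq_of_mul_eq_one_right h2
  unfold jou
  rw [h1, Complex.add_conj]
  push_cast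
  ring

/-- the sum of the two harmonic functions tends to one at the boundary points of `V y` -/
theorem m1_sum {y : ℝ} {h₁ h₂ : ℂ → ℝ} (hp : HarmPair y h₁ h₂) {q : ℂ} (hq : q ∈ slit y ∪ geo) :
    Tendsto (fun w => h₁ w + h₂ w) (𝓝[V y] q) (𝓝 1) := by
  rcases hq with h | h
  · have h1 := (hp.slit₁ q h).add (hp.slit₂ q h)
    rwa [add_zero] at h1
  · have h1 := (hp.geo₁ q h).add (hp.geo₂ q h)
    rwa [zero_add] at h1

theorem majorant {y r : ℝ} (hy : 0 < y) {h₁ h₂ : ℂ → ℝ} (hp : HarmPair y h₁ h₂) (hr : 0 < r)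
    {Q : ℂ → ℂ} {b : ℂ} (hQ : DifferentiableOn ℂ Q (Om r)) (hQ1 : ∀ z ∈ Om r, ‖Q z‖ < 1)
    (hb : b ∈ Om r) (hQb : Q b = 0)
    (hbd : ∀ x : ℝ, x ≠ 0 → |x| < r → ∃ q ∈ Bset, Tendsto Q (𝓝[Om r] (x : ℂ)) (𝓝 q)) :
    hA (jou (b / r)) + hB (jou (b / r)) ≤ h₁ 0 + h₂ 0 := by
  classical
  set Ω : Set ℂ := {z | z ∈ Om r ∧ Q z ∈ V y} with hΩ
  have hΩo : IsOpen Ω := hQ.continuousOn.isOpen_inter_preimage (m1_om_open r) (V_isOpen hy)
  have hΩsub : Ω ⊆ Om r := fun z hz => hz.1
  have hΩb : Bornology.IsBounded Ω := by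
    refine (Metric.isBounded_ball (x := (0 : ℂ)) (r := r)).subset ?_
    intro z hz
    rw [mem_ball_zero_iff]
    exact hz.1.1
  have hQc : ∀ z ∈ Ω, ContinuousAt Q z := fun z hz =>
    (hQ.differentiableAt ((m1_om_open r).mem_nhds hz.1)).continuousAt
  set u : ℂ → ℝ := fun z => hA (jou (z / r)) + hB (jou (z / r)) - (h₁ (Q z) + h₂ (Q z)) with hu
  have hmain : ∀ z ∈ Ω, u z ≤ 0 := by
    refine max_principle hΩo hΩb (F := {0, (r : ℂ), -(r : ℂ)}) ?_ (u := u) ?_ (M := 1) ?_ ?_
    · exact (Set.toFinite _)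
    · intro z hz
      have hzA := m1_jou_mem hr hz.1
      have hQa : AnalyticAt ℂ Q z :=
        hQ.analyticAt ((m1_om_open r).mem_nhds hz.1)
      have e1 := m1_comp (g := fun w => jou (w / r)) (hA_harmonic _ hzA) (m1_jou_an hr hz.1.2)
      have e2 := m1_comp (g := fun w => jou (w / r)) (hB_harmonic _ hzA) (m1_jou_an hr hz.1.2)
      have e3 := m1_comp (g := Q) (hp.harm₁ _ hz.2) hQa
      have e4 := m1_comp (g := Q) (hp.harm₂ _ hz.2) hQa
      exact (e1.add e2).sub (e3.add e4)
    · intro z hz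
      have e1 := hA_add_hB_lt (m1_jou_mem hr hz.1)
      have e2 := (hp.bd₁ _ hz.2).1
      have e3 := (hp.bd₂ _ hz.2).1
      simp only [hu]
      linarith
    · intro ζ hζ hF ε hε
      have hcl : ζ ∈ closure Ω := frontier_subset_closure hζ
      have hnot : ζ ∉ Ω := by
        intro h
        rw [hΩo.frontier_eq] at hζ
        exact hζ.2 h
      have hNe : (𝓝[Ω] ζ).NeBot := mem_closure_iff_nhdsWithin_neBot.1 hcl
      have hnorm : ‖ζ‖ ≤ r := by
        have h1 : IsClosed {z : ℂ | ‖z‖ ≤ r} := isClosed_le continuous_norm continuous_const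
        exact closure_minimal (fun z hz => hz.1.1.le) h1 hcl
      have him : 0 ≤ ζ.im := by
        have h1 : IsClosed {z : ℂ | 0 ≤ z.im} := isClosed_le continuous_const
          Complex.continuous_im
        exact closure_minimal (fun z hz => hz.1.2.le) h1 hcl
      have hself : ∀ᶠ z in 𝓝[Ω] ζ, z ∈ Ω := self_mem_nhdsWithin
      -- the inner boundary points
      have key : ∀ q : ℂ, Tendsto Q (𝓝[Ω] ζ) (𝓝 q) → q ∈ slit y ∪ geo →
          ∀ᶠ z in 𝓝[Ω] ζ, u z < ε := by
        intro q hq1 hq2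
        have h1 : Tendsto Q (𝓝[Ω] ζ) (𝓝[V y] q) :=
          tendsto_nhdsWithin_iff.2 ⟨hq1, hself.mono fun z hz => hz.2⟩
        have h2 := (m1_sum hp hq2).comp h1
        have h3 : ∀ᶠ z in 𝓝[Ω] ζ, 1 - ε < h₁ (Q z) + h₂ (Q z) :=
          h2.eventually (lt_mem_nhds (by linarith))
        filter_upwards [h3, hself] with z hz1 hz2
        have e1 := hA_add_hB_lt (m1_jou_mem hr hz2.1)
        simp only [hu]
        linarith
      rcases him.lt_or_eq with him1 | him1
      · rcases hnorm.lt_or_eq with hn | hn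
        · -- inside the half disc
          have hmem : ζ ∈ Om r := ⟨hn, him1⟩
          have hc : ContinuousAt Q ζ :=
            (hQ.differentiableAt ((m1_om_open r).mem_nhds hmem)).continuousAt
          have h1 : Tendsto Q (𝓝[Ω] ζ) (𝓝 (Q ζ)) := hc.tendsto.mono_left nhdsWithin_le_nhds
          refine key _ h1 ?_
          have h2 : Q ζ ∉ V y := fun h => hnot ⟨hmem, h⟩
          have h3 : Q ζ ∈ closure (V y) :=
            mem_closure_of_tendsto h1 (hself.mono fun z hz => hz.2)
          have h4 : Q ζ ∈ frontier (V y) := by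
            rw [(V_isOpen hy).frontier_eq]
            exact ⟨h3, h2⟩
          have h5 := hQ1 ζ hmem
          rcases V_frontier hy h4 with (h6 | h6) | h6
          · exact h6
          · exact absurd h6.1 h5.ne
          · exfalso
            rcases h6 with h6 | h6
            · rw [h6, norm_one] at h5
              exact lt_irrefl _ h5
            · rw [mem_singleton_iff] at h6
              rw [h6, norm_neg, norm_one] at h5
              exact lt_irrefl _ h5
        · -- on the circle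
          have hw : ‖ζ / (r : ℂ)‖ = 1 := by
            rw [norm_div, Complex.norm_real, Real.norm_of_nonneg hr.le, hn, div_self hr.ne']
          have hj : jou (ζ / r) = ((-(ζ / (r : ℂ)).re : ℝ) : ℂ) := m1_jou_circle hw
          have hc : ContinuousAt (fun z => jou (z / r)) ζ := (m1_jou_an hr him1).continuousAt
          have h1 : Tendsto (fun z => jou (z / r)) (𝓝[Ω] ζ)
              (𝓝[UH] ((-(ζ / (r : ℂ)).re : ℝ) : ℂ)) := by
            refine tendsto_nhdsWithin_iff.2 ⟨?_, hself.mono fun z hz => m1_jou_mem hr hz.1⟩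
            rw [← hj]
            exact hc.tendsto.mono_left nhdsWithin_le_nhds
          have him2 : 0 < (ζ / (r : ℂ)).im := by
            rw [m1_div_im]
            exact div_pos him1 hr
          have hre : |(ζ / (r : ℂ)).re| < 1 := by
            rw [← hw]
            refine lt_of_le_of_ne (Complex.abs_re_le_norm _) ?_
            intro h
            exact him2.ne' (Complex.abs_re_eq_norm.1 h)
          rw [abs_lt] at hre
          have h2 := (hA_right (x := -(ζ / (r : ℂ)).re) (by linarith)).comp h1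
          have h3 := (hB_left (x := -(ζ / (r : ℂ)).re) (by linarith)).comp h1
          have h4 := h2.add h3
          rw [add_zero] at h4
          have h5 : ∀ᶠ z in 𝓝[Ω] ζ, hA (jou (z / r)) + hB (jou (z / r)) < ε :=
            h4.eventually (gt_mem_nhds hε)
          filter_upwards [h5, hself] with z hz1 hz2
          have e2 := (hp.bd₁ _ hz2.2).1
          have e3 := (hp.bd₂ _ hz2.2).1
          simp only [hu]
          linarith
      · -- real points
        have hζr : ζ = ((ζ.re : ℝ) : ℂ) := by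
          apply Complex.ext
          · rw [Complex.ofReal_re]
          · rw [Complex.ofReal_im]
            exact him1.symm
        have h0 : ζ.re ≠ 0 := by
          intro h
          apply hF
          left
          rw [hζr, h, Complex.ofReal_zero]
        have hlt : |ζ.re| < r := by
          have h1 : |ζ.re| ≤ r := (Complex.abs_re_le_norm ζ).trans hnorm
          refine lt_of_le_of_ne h1 ?_
          intro h
          apply hF
          rcases abs_eq hr.le |>.1 h with h2 | h2
          · right; left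
            rw [hζr, h2]
          · right; right
            rw [hζr, h2, Complex.ofReal_neg]
            rfl
        obtain ⟨q, hq1, hq2⟩ := hbd ζ.re h0 hlt
        rw [← hζr] at hq2
        have h1 : Tendsto Q (𝓝[Ω] ζ) (𝓝 q) := hq2.mono_left (nhdsWithin_mono _ hΩsub)
        refine key _ h1 (Or.inr ?_)
        exact B_closure hq1 (mem_closure_of_tendsto h1 (hself.mono fun z hz => hz.2))
  have hbΩ : b ∈ Ω := by
    refine ⟨hb, ?_⟩
    rw [hQb]
    exact zero_mem_V y
  have h1 := hmain b hbΩ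
  simp only [hu, hQb] at h1
  linarith

end Pool.Agent.Choc
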