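import Pool.Agent.Lib.MP_2b3e36_an.Ex.M1
import Pool.Agent.Lib.MP_2b3e36_an.Ex.C1

/-!
M2. The classes which are not the main class.

Case 1: `G x ^(2^m) ∈ Bset` for all real `x ≠ 0`, `|x| < r`. `Q = G^(2^m)` on `Om r`: `Q b = 0`, limits at the
real points by continuity of `G` on `Om2 r δ` (`real_mem_om2`). `majorant` gives
`hA (jou (b/r)) + hB (jou (b/r)) ≤ h₁ 0 + h₂ 0`, and `hA (jou b) < hA (jou (b/r))` (`hA_radius`, `s = 1 < t = r`).
Case 2: `conj (G x ^(2^m)) ∈ Bset`. `Q z = conj (G (-conj z) ^(2^m))` is holomorphic on `Om r`,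
`Q (-conj b) = 0`, boundary values `conj (G (-x)^(2^m)) ∈ Bset`. `majorant` with `-conj b`;
`jou (-conj b / r) = - conj (jou (b/r))` and `hA_symm` exchange `hA` and `hB`: the same inequality.
-/

set_option autoImplicit false

open Complex Set Filter Topology Metric

namespace Pool.Agent.Choc

theorem m2_core {y : ℝ} (hy : 0 < y) {h₁ h₂ : ℂ → ℝ} (hp : HarmPair y h₁ h₂)
    {b : ℂ} {r δ : ℝ} {f G : ℂ → ℂ} (h : Sol b r f) (hG : GLift b r δ f G) (m : ℕ)
    (hn : ∀ x : ℝ, x ≠ 0 → |x| < r → G x ^ (2 ^ m) ∈ Bset) :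
    hA (jou (b / r)) + hB (jou (b / r)) ≤ h₁ 0 + h₂ 0 := by
  have hr : 0 < r := by linarith [h.one_lt]
  have hsub : Om r ⊆ Om2 r δ := om_subset_om2 hG.δ_pos hG.δ_lt
  have h2 : 2 ^ m ≠ 0 := by positivity
  refine majorant hy hp hr (Q := fun z => G z ^ (2 ^ m)) ((hG.diff.mono hsub).pow _) ?_ hG.b_mem
    ?_ ?_
  · intro z hz
    show ‖G z ^ (2 ^ m)‖ < 1
    rw [norm_pow]
    exact pow_lt_one₀ (norm_nonneg _) (hG.lt_one z (hsub hz)) h2
  · have h0 : G b = 0 := (hG.zero b (hsub hG.b_mem)).2 rfl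
    show G b ^ (2 ^ m) = 0
    rw [h0, zero_pow h2]
  · intro x hx hxr
    refine ⟨G x ^ (2 ^ m), hn x hx hxr, ?_⟩
    have hmem : (x : ℂ) ∈ Om2 r δ := real_mem_om2 hG.δ_pos hG.δ_lt hx hxr
    have hc : ContinuousAt G x :=
      ((hG.diff x hmem).differentiableAt ((isOpen_om2 r δ).mem_nhds hmem)).continuousAt
    exact (hc.pow (2 ^ m)).tendsto.mono_left nhdsWithin_le_nhds

theorem m2_core' {y : ℝ} (hy : 0 < y) {h₁ h₂ : ℂ → ℝ} (hp : HarmPair y h₁ h₂)
    {b : ℂ} {r δ : ℝ} {f G : ℂ → ℂ} (h : Sol b r f) (hG : GLift b r δ f G) (m : ℕ)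
    (hn : ∀ x : ℝ, x ≠ 0 → |x| < r → starRingEnd ℂ (G x ^ (2 ^ m)) ∈ Bset) :
    hA (jou (b / r)) + hB (jou (b / r)) ≤ h₁ 0 + h₂ 0 := by
  have hr : 0 < r := by linarith [h.one_lt]
  have hsub : Om r ⊆ Om2 r δ := om_subset_om2 hG.δ_pos hG.δ_lt
  have h2 : 2 ^ m ≠ 0 := by positivity
  have hmir : ∀ z ∈ Om r, -starRingEnd ℂ z ∈ Om r := by
    intro z hz
    refine ⟨?_, ?_⟩
    · rw [norm_neg, Complex.norm_conj]
      exact hz.1
    · show 0 < (-starRingEnd ℂ z).im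
      rw [Complex.neg_im, Complex.conj_im, neg_neg]
      exact hz.2
  have hb' : -starRingEnd ℂ b ∈ Om r := hmir b hG.b_mem
  have hmaj := majorant hy hp hr (Q := fun z => starRingEnd ℂ (G (-starRingEnd ℂ z) ^ (2 ^ m)))
    (b := -starRingEnd ℂ b) ?_ ?_ hb' ?_ ?_
  · have e1 : (-starRingEnd ℂ b) / (r : ℂ) = -starRingEnd ℂ (b / r) := by
      rw [map_div₀, Complex.conj_ofReal, neg_div]
    have hbr : 0 < (b / (r : ℂ)).im := by
      rw [Complex.div_ofReal_im]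
      exact div_pos h.b_im hr
    have hbn : ‖b / (r : ℂ)‖ < 1 := by
      rw [norm_div, Complex.norm_real, Real.norm_of_nonneg hr.le, div_lt_one hr]
      linarith [h.b_norm, h.one_lt]
    have hj : 0 < (jou (b / r)).im := jou_im hbn hbr
    rw [e1, jou_symm, (hA_symm hj).1, (hA_symm hj).2] at hmaj
    linarith
  · intro z hz
    apply DifferentiableAt.differentiableWithinAt
    have hz' := hmir z hz
    have hd : DifferentiableAt ℂ G (-starRingEnd ℂ z) :=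
      (hG.diff _ (hsub hz')).differentiableAt ((isOpen_om2 r δ).mem_nhds (hsub hz'))
    have hd2 : DifferentiableAt ℂ (fun w => G (-w) ^ (2 ^ m)) (starRingEnd ℂ z) := by
      apply DifferentiableAt.pow
      exact DifferentiableAt.comp (f := fun w : ℂ => -w) (starRingEnd ℂ z) hd
        differentiableAt_id.neg
    have hd3 := hd2.conj_conj
    rw [Complex.conj_conj] at hd3
    exact hd3
  · intro z hz
    show ‖starRingEnd ℂ (G (-starRingEnd ℂ z) ^ (2 ^ m))‖ < 1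
    rw [Complex.norm_conj, norm_pow]
    exact pow_lt_one₀ (norm_nonneg _) (hG.lt_one _ (hsub (hmir z hz))) h2
  · have h0 : G b = 0 := (hG.zero b (hsub hG.b_mem)).2 rfl
    show starRingEnd ℂ (G (-starRingEnd ℂ (-starRingEnd ℂ b)) ^ (2 ^ m)) = 0
    rw [map_neg, Complex.conj_conj, neg_neg, h0, zero_pow h2, map_zero]
  · intro x hx hxr
    have hx' : -x ≠ 0 := neg_ne_zero.2 hx
    have hxr' : |(-x)| < r := by rwa [abs_neg]
    have hq := hn (-x) hx' hxr'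
    refine ⟨_, hq, ?_⟩
    have hmem : ((-x : ℝ) : ℂ) ∈ Om2 r δ := real_mem_om2 hG.δ_pos hG.δ_lt hx' hxr'
    have hc : ContinuousAt G ((-x : ℝ) : ℂ) :=
      ((hG.diff _ hmem).differentiableAt ((isOpen_om2 r δ).mem_nhds hmem)).continuousAt
    have e2 : -starRingEnd ℂ (x : ℂ) = ((-x : ℝ) : ℂ) := by
      rw [Complex.conj_ofReal, Complex.ofReal_neg]
    have hc2 : ContinuousAt (fun z => G (-starRingEnd ℂ z)) (x : ℂ) := by
      apply ContinuousAt.comp (g := G) (f := fun z => -starRingEnd ℂ z)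
      · rw [e2]
        exact hc
      · exact Complex.continuous_conj.neg.continuousAt
    have hc3 : ContinuousAt (fun z => starRingEnd ℂ (G (-starRingEnd ℂ z) ^ (2 ^ m))) (x : ℂ) :=
      Complex.continuous_conj.continuousAt.comp (hc2.pow (2 ^ m))
    have ht := hc3.tendsto
    rw [e2] at ht
    exact ht.mono_left nhdsWithin_le_nhds

theorem nonmain_lt {y : ℝ} (hy : 0 < y) {h₁ h₂ : ℂ → ℝ} (hp : HarmPair y h₁ h₂)
    {b : ℂ} {r δ : ℝ} {f G : ℂ → ℂ} (h : Sol b r f) (hG : GLift b r δ f G)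
    (hn : (∃ m : ℕ, ∀ x : ℝ, x ≠ 0 → |x| < r → G x ^ (2 ^ m) ∈ Bset) ∨
      (∃ m : ℕ, ∀ x : ℝ, x ≠ 0 → |x| < r → starRingEnd ℂ (G x ^ (2 ^ m)) ∈ Bset)) :
    hA (jou b) + hB (jou b) < h₁ 0 + h₂ 0 := by
  have h1 : hA (jou (b / r)) + hB (jou (b / r)) ≤ h₁ 0 + h₂ 0 := by
    rcases hn with ⟨m, hm⟩ | ⟨m, hm⟩
    · exact m2_core hy hp h hG m hm
    · exact m2_core' hy hp h hG m hm
  have h2 := hA_radius h.b_im h.b_norm h.one_lt
  rw [Complex.ofReal_one, div_one] at h2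
  linarith [h2.1, h2.2]

end Pool.Agent.Choc
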