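import Pool.Agent.Lib.MP_2b3e36_an.Ex.C4
import Pool.Agent.Lib.MP_2b3e36_an.Ex.W1

/-!
R0. The competitor in the upper half plane: `g = G ∘ jinv`.

Proof. `v0 = jou b ∈ UH` (`jou_im`), `jinv v0 = b`. `g` is holomorphic (`jinv` maps `UH` to
`Om 1 ⊆ Om r ⊆ Om2 r δ`), `‖g‖ < 1`, `g v = 0 ↔ jinv v = b ↔ v = v0`; `deriv g v0 = deriv G b * deriv jinv v0`.
slit: for `x < -1`, `jinv x ∈ (0,1)`: take `ε, τ` from `main_pos` at `jinv x`, and a ball about `x` not
meeting `[-1,1]` mapped by `jinv` into `ball (jinv x) ε`; `τ ∘ jinv`; real points `u < -1` go to real points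
(`jinv_left`). arc: the same with `main_neg`, `jinv_right`.
inner: `-1 ≤ x ≤ 1`: `jinv v → z₁ = -x + i sqrt (1-x^2)`, `‖z₁‖ = 1 < r`, `z₁ ∈ Om2 r δ` (imaginary part `> 0`,
or `z₁ = ±1`, `real_mem_om2`), `G` is continuous there, `ℓ = G z₁ ≠ 0` because `z₁ ≠ b` (`‖b‖ < 1`).
infty: `jinv (-1/u) = jaux u`; `p ∘ jaux` with `p` from `plift_exists`, `main_zero`; derivative
`deriv p 0 / 2 > 0` (real). The radius small.
-/

set_option autoImplicit false

open Complex Set Filter Topology Metric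

namespace Pool.Agent.Choc

lemma r0_mem {b : ℂ} {r δ : ℝ} {f G : ℂ → ℂ} (h : Sol b r f) (hG : GLift b r δ f G) {v : ℂ}
    (hv : 0 < v.im) : jinv v ∈ Om2 r δ := by
  apply om_subset_om2 hG.δ_pos hG.δ_lt
  obtain ⟨h1, h2⟩ := jinv_mem hv
  exact ⟨h1.trans h.one_lt, h2⟩

lemma r0_real {z : ℂ} (hz : z.im = 0) : z = ((z.re : ℝ) : ℂ) := by
  apply Complex.ext <;> simp [hz]

/-- transport of a local exponent by `jinv` -/
lemma r0_local {G : ℂ → ℂ} {x : ℝ} {P : ℂ → Prop}
    (hd : DifferentiableAt ℂ jinv x) (him : (jinv x).im = 0)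
    (hoff : ∃ ρ > 0, ∀ v ∈ ball (x : ℂ) ρ, DifferentiableAt ℂ jinv v)
    (hre : ∃ ρ > 0, ∀ u : ℝ, (u : ℂ) ∈ ball (x : ℂ) ρ → (jinv u).im = 0)
    (h : ∃ ε > 0, ∃ τ : ℂ → ℂ, DifferentiableOn ℂ τ (ball (((jinv x).re : ℝ) : ℂ) ε) ∧
      (∀ z ∈ ball (((jinv x).re : ℝ) : ℂ) ε, G z = nome (τ z)) ∧
      (∀ u : ℝ, (u : ℂ) ∈ ball (((jinv x).re : ℝ) : ℂ) ε → P (τ u))) :
    ∃ r > 0, ∃ τ : ℂ → ℂ, DifferentiableOn ℂ τ (ball (x : ℂ) r) ∧
      (∀ v ∈ ball (x : ℂ) r, 0 < v.im → G (jinv v) = nome (τ v)) ∧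
      (∀ u : ℝ, (u : ℂ) ∈ ball (x : ℂ) r → P (τ u)) := by
  obtain ⟨ε, hε, τ, hτd, hτe, hτr⟩ := h
  obtain ⟨ρ₁, hρ₁, h1⟩ := hoff
  obtain ⟨ρ₂, hρ₂, h2⟩ := hre
  have e0 : (((jinv x).re : ℝ) : ℂ) = jinv x := (r0_real him).symm
  rw [e0] at hτd hτe hτr
  obtain ⟨ρ₃, hρ₃, h3⟩ := Metric.continuousAt_iff.1 hd.continuousAt ε hε
  have hmap : ∀ v ∈ ball (x : ℂ) (min ρ₁ (min ρ₂ ρ₃)), jinv v ∈ ball (jinv x) ε := by
    intro v hv
    apply h3
    exact lt_of_lt_of_le hv ((min_le_right _ _).trans (min_le_right _ _))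
  refine ⟨min ρ₁ (min ρ₂ ρ₃), lt_min hρ₁ (lt_min hρ₂ hρ₃), fun v => τ (jinv v), ?_, ?_, ?_⟩
  · intro v hv
    have hd1 : DifferentiableAt ℂ jinv v :=
      h1 v (ball_subset_ball (min_le_left _ _) hv)
    have hd2 : DifferentiableAt ℂ τ (jinv v) :=
      (hτd (jinv v) (hmap v hv)).differentiableAt (isOpen_ball.mem_nhds (hmap v hv))
    exact (hd2.comp v hd1).differentiableWithinAt
  · intro v hv _
    exact hτe _ (hmap v hv)
  · intro u hu
    have h4 : (jinv u).im = 0 :=
      h2 u (ball_subset_ball ((min_le_right _ _).trans (min_le_left _ _)) hu)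
    have h5 := r0_real h4
    have h6 := hmap _ hu
    show P (τ (jinv u))
    rw [h5] at h6 ⊢
    exact hτr _ h6

theorem lift_of_main {b : ℂ} {r δ : ℝ} {f G p : ℂ → ℂ} (h : Sol b r f) (hG : GLift b r δ f G)
    (hp : PLift b r f p) (hm : ∀ x : ℝ, 0 < x → x < r → (G x).im = 0 ∧ 0 < (G x).re) :
    Lift (jou b) (fun v => G (jinv v)) := by
  have hv0 : 0 < (jou b).im := jou_im h.b_norm h.b_im
  have hjb : jinv (jou b) = b := jinv_jou h.b_norm h.b_im
  have hopen := isOpen_om2 r δ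
  have hUHo : IsOpen UH := isOpen_lt continuous_const Complex.continuous_im
  refine ⟨hv0, ?_, ?_, ?_, ?_, ?_, ?_, ?_, ?_⟩
  · -- diff
    exact hG.diff.comp jinv_diff (fun v hv => r0_mem h hG hv)
  · intro v hv
    exact hG.lt_one _ (r0_mem h hG hv)
  · intro v hv
    rw [hG.zero _ (r0_mem h hG hv)]
    constructor
    · intro h1
      rw [← jou_jinv hv, h1]
    · intro h1
      rw [h1, hjb]
  · -- deriv
    have hd1 : DifferentiableAt ℂ jinv (jou b) :=
      (jinv_diff (jou b) hv0).differentiableAt (hUHo.mem_nhds hv0)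
    have hbm : b ∈ Om2 r δ := om_subset_om2 hG.δ_pos hG.δ_lt hG.b_mem
    have hd2 : DifferentiableAt ℂ G (jinv (jou b)) := by
      rw [hjb]
      exact (hG.diff b hbm).differentiableAt (hopen.mem_nhds hbm)
    have h1 : deriv (fun v => G (jinv v)) (jou b)
        = deriv G (jinv (jou b)) * deriv jinv (jou b) :=
      (hd2.hasDerivAt.comp (jou b) hd1.hasDerivAt).deriv
    rw [h1, hjb]
    exact mul_ne_zero hG.deriv_b (jinv_deriv_ne hv0)
  · -- slit
    intro x hx
    obtain ⟨hd, him, h1, h2⟩ := jinv_left hx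
    refine r0_local (P := fun t => t.re = 0 ∧ 0 < t.im) hd him ?_ ?_
      (main_pos h hG hp hm h1 (h2.trans h.one_lt))
    · refine ⟨-1 - x, by linarith, fun v hv => jinv_diffAt ?_⟩
      rintro ⟨h3, h4⟩
      rw [mem_ball, dist_eq_norm] at hv
      have h5 := (Complex.abs_re_le_norm (v - x)).trans_lt hv
      rw [Complex.sub_re, Complex.ofReal_re] at h5
      have h6 := (abs_lt.1 h5).2
      have h7 := (abs_le.1 h4).1
      linarith
    · refine ⟨-1 - x, by linarith, fun u hu => ?_⟩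
      rw [mem_ball, dist_eq_norm, ← Complex.ofReal_sub, Complex.norm_real, Real.norm_eq_abs] at hu
      exact (jinv_left (x := u) (by linarith [(abs_lt.1 hu).2])).2.1
  · -- arc
    intro x hx
    obtain ⟨hd, him, h1, h2⟩ := jinv_right hx
    refine r0_local (P := fun t => t ∈ Sig) hd him ?_ ?_
      (main_neg h hG hp hm (by linarith [h.one_lt]) h2)
    · refine ⟨x - 1, by linarith, fun v hv => jinv_diffAt ?_⟩
      rintro ⟨h3, h4⟩
      rw [mem_ball, dist_eq_norm] at hv
      have h5 := (Complex.abs_re_le_norm (v - x)).trans_lt hv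
      rw [Complex.sub_re, Complex.ofReal_re] at h5
      have h6 := (abs_lt.1 h5).1
      have h7 := (abs_le.1 h4).2
      linarith
    · refine ⟨x - 1, by linarith, fun u hu => ?_⟩
      rw [mem_ball, dist_eq_norm, ← Complex.ofReal_sub, Complex.norm_real, Real.norm_eq_abs] at hu
      exact (jinv_right (x := u) (by linarith [(abs_lt.1 hu).1])).2.1
  · -- inner
    intro x hx1 hx2
    set z₁ : ℂ := -x + Real.sqrt (1 - x ^ 2) * I with hz₁
    have hx2' : 0 ≤ 1 - x ^ 2 := by nlinarith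
    have hn : ‖z₁‖ = 1 := by
      have h1 : z₁.re = -x := by simp [hz₁]
      have h2 : z₁.im = Real.sqrt (1 - x ^ 2) := by simp [hz₁]
      have h3 : Complex.normSq z₁ = 1 := by
        rw [Complex.normSq_apply, h1, h2, Real.mul_self_sqrt hx2']
        ring
      rw [Complex.norm_def, h3, Real.sqrt_one]
    have hmem : z₁ ∈ Om2 r δ := by
      by_cases h1 : 0 < Real.sqrt (1 - x ^ 2)
      · apply om_subset_om2 hG.δ_pos hG.δ_lt
        refine ⟨?_, ?_⟩
        · rw [hn]; exact h.one_lt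
        · simpa [hz₁] using h1
      · have h2 : Real.sqrt (1 - x ^ 2) = 0 := le_antisymm (not_lt.1 h1) (Real.sqrt_nonneg _)
        have h3 : z₁ = ((-x : ℝ) : ℂ) := by rw [hz₁, h2]; simp
        have h4 : x ^ 2 = 1 := by
          have := (Real.sqrt_eq_zero hx2').1 h2
          linarith
        rw [h3]
        apply real_mem_om2 hG.δ_pos hG.δ_lt
        · intro h5
          have : x = 0 := by linarith
          rw [this] at h4; norm_num at h4
        · have h5 : |(-x)| = 1 := by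
            rw [abs_neg]
            nlinarith [sq_abs x, abs_nonneg x]
          rw [h5]; exact h.one_lt
    refine ⟨G z₁, ?_, hG.lt_one _ hmem, ?_⟩
    · intro h1
      have h2 := (hG.zero _ hmem).1 h1
      have h3 := h.b_norm
      rw [← h2, hn] at h3
      exact lt_irrefl _ h3
    · have hc : ContinuousAt G z₁ :=
        ((hG.diff z₁ hmem).differentiableAt (hopen.mem_nhds hmem)).continuousAt
      exact hc.tendsto.comp (jinv_inner hx1 hx2)
  · -- infinity
    obtain ⟨ε, hε, hz⟩ := main_zero h hG hp hm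
    have hcont : ContinuousAt jaux 0 := jaux_hasDerivAt.continuousAt
    have hmin : 0 < min ε (min b.im r) :=
      lt_min hε (lt_min h.b_im (by linarith [h.one_lt]))
    obtain ⟨ρ, hρ, hball⟩ := Metric.continuousAt_iff.1 hcont _ hmin
    rw [jaux_zero] at hball
    have hsmall : ∀ u : ℂ, u ∈ ball (0 : ℂ) (min ρ 1) → ‖jaux u‖ < min ε (min b.im r) := by
      intro u hu
      have := hball (lt_of_lt_of_le hu (min_le_left _ _))
      rwa [dist_zero_right] at this
    have hdom : ∀ u : ℂ, u ∈ ball (0 : ℂ) (min ρ 1) → ‖jaux u‖ < r ∧ |(jaux u).im| < b.im := by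
      intro u hu
      have h1 := hsmall u hu
      exact ⟨h1.trans_le ((min_le_right _ _).trans (min_le_right _ _)),
        (Complex.abs_im_le_norm _).trans_lt
          (h1.trans_le ((min_le_right _ _).trans (min_le_left _ _)))⟩
    have hDo : IsOpen {z : ℂ | ‖z‖ < r ∧ |z.im| < b.im} :=
      (isOpen_lt continuous_norm continuous_const).inter
        (isOpen_lt (continuous_abs.comp Complex.continuous_im) continuous_const)
    refine ⟨min ρ 1, lt_min hρ one_pos, fun u => p (jaux u), ?_, ?_, ?_, ?_, ?_⟩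
    · intro u hu
      have hu1 : u ∈ ball (0 : ℂ) 1 := ball_subset_ball (min_le_right _ _) hu
      have hd1 : DifferentiableAt ℂ jaux u :=
        (jaux_diff u hu1).differentiableAt (isOpen_ball.mem_nhds hu1)
      have hd2 : DifferentiableAt ℂ p (jaux u) :=
        (hp.diff _ (hdom u hu)).differentiableAt (hDo.mem_nhds (hdom u hu))
      exact (hd2.comp u hd1).differentiableWithinAt
    · show p (jaux 0) = 0
      rw [jaux_zero, hp.zero]
    · refine ⟨(deriv p 0).re / 2, by linarith [hp.deriv_re], ?_⟩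
      have h0 : (0 : ℂ) ∈ {z : ℂ | ‖z‖ < r ∧ |z.im| < b.im} := by
        refine ⟨?_, ?_⟩
        · rw [norm_zero]; linarith [h.one_lt]
        · simp only [Complex.zero_im, abs_zero]; exact h.b_im
      have hd2 : DifferentiableAt ℂ p (jaux 0) := by
        rw [jaux_zero]
        exact (hp.diff _ h0).differentiableAt (hDo.mem_nhds h0)
      have h1 : deriv (fun u => p (jaux u)) 0 = deriv p (jaux 0) * (1 / 2) :=
        (hd2.hasDerivAt.comp (0 : ℂ) jaux_hasDerivAt).deriv
      rw [h1, jaux_zero]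
      have h2 : deriv p 0 = (((deriv p 0).re : ℝ) : ℂ) := r0_real hp.deriv_im
      rw [h2]
      push_cast
      simp only [Complex.ofReal_re]
      ring
    · intro u hu
      have hu' : (u : ℂ) ∈ ball (0 : ℂ) (min ρ 1) := by
        rw [mem_ball, dist_zero_right, Complex.norm_real, Real.norm_eq_abs]; exact hu
      have hu1 : |u| < 1 := hu.trans_le (min_le_right _ _)
      have h1 := (jaux_slit (u := (u : ℂ)) (fun h2 => by
        have := h2.2
        rw [Complex.ofReal_re] at this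
        linarith)).2.2.2.1
      rw [Complex.conj_ofReal] at h1
      have h2 := hp.real (jaux u) (hdom _ hu').1 (hdom _ hu').2
      rw [← h1] at h2
      exact Complex.conj_eq_iff_im.1 h2.symm
    · intro v hv hvi
      have h1 := hsmall v hv
      obtain ⟨h2, h3, h4⟩ := hz (jaux v) (h1.trans_le (min_le_left _ _)) (jaux_im hvi).1
      refine ⟨h2, h3, ?_⟩
      have h5 : jinv (-1 / v) = jaux v := by
        unfold jinv
        congr 1
        have hv0 : v ≠ 0 := by
          intro h6; rw [h6] at hvi; simp at hvi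
        field_simp
      show G (jinv (-1 / v)) = _
      rw [h5]
      exact h4

end Pool.Agent.Choc
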