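import Pool.Agent.Lib.MP_2b3e36_an.Ex.L0

/-!
R1. The difference `L` of the two lifts.

`g/X` extends to a holomorphic function without zeros on `UH` (both have their only zero, simple, at
`v₀`): `D v = dslope g v₀ v / dslope X v₀ v` (`X v = 0` only at `v₀` by injectivity, `deriv X v₀ ≠ 0`).
`UH` is convex: let `l` be a holomorphic logarithm of `D`, `L = l/(pi i)` up to an additive constant
`2 k`: `nome (L v) X v = g v`. Near infinity: in the chart `v = -1/u`, `u ∈ ball 0 r ∩ UH` (connected),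
`g (-1/u) = nome (- pi i / log (pg u))`, `X (-1/u) = nome (- pi i / log (pX u))`, so
`L (-1/u) - (- pi i / log pg + pi i / log pX)` is continuous with values in `2ℤ`, so constant; subtract it.
-/

set_option autoImplicit false

open Complex Set Filter Topology Metric

namespace Pool.Agent.Choc

/-- Local data at infinity. -/
structure InfData (X : ℂ → ℂ) (r : ℝ) (p : ℂ → ℂ) : Prop where
  r_pos : 0 < r
  diff : DifferentiableOn ℂ p (ball (0 : ℂ) r)
  zero : p 0 = 0
  deriv : ∃ κ : ℝ, 0 < κ ∧ deriv p 0 = κ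
  real : ∀ u : ℝ, |u| < r → (p u).im = 0
  eq : ∀ v ∈ ball (0 : ℂ) r, 0 < v.im → 0 < (p v).im ∧ ‖p v‖ < 1 ∧
      X (-1 / v) = nome (-(Real.pi * I) / log (p v))

/-- The difference of the lifts. -/
structure LDiff (v₀ : ℂ) (X g L : ℂ → ℂ) : Prop where
  diff : DifferentiableOn ℂ L UH
  eq : ∀ v ∈ UH, nome (L v) * X v = g v
  inf : ∃ (r : ℝ) (pX pg : ℂ → ℂ), InfData X r pX ∧ InfData g r pg ∧
    ∀ v ∈ ball (0 : ℂ) r, 0 < v.im →
      L (-1 / v) = -(Real.pi * I) / log (pg v) + (Real.pi * I) / log (pX v)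

lemma r1_open : IsOpen UH := isOpen_lt continuous_const Complex.continuous_im

lemma r1_convex : Convex ℝ UH := by
  intro a ha b hb s t hs ht hst
  have ha' : 0 < a.im := ha
  have hb' : 0 < b.im := hb
  show 0 < (s • a + t • b).im
  have e : (s • a + t • b).im = s * a.im + t * b.im := by simp
  rw [e]
  rcases hs.eq_or_lt with h | h
  · have : t = 1 := by linarith
    rw [← h, this]; linarith
  · have h1 := mul_pos h ha'
    have h2 := mul_nonneg ht hb'.le
    linarith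

lemma r1_nome_add (a b : ℂ) : nome (a + b) = nome a * nome b := by
  unfold nome
  rw [← Complex.exp_add]
  congr 1
  ring

lemma r1_nome_ne (a : ℂ) : nome a ≠ 0 := Complex.exp_ne_zero _

lemma r1_nome_int (k : ℤ) : nome (2 * k) = 1 := by
  unfold nome
  rw [Complex.exp_eq_one_iff]
  exact ⟨k, by ring⟩

lemma r1_nome_eq {a b : ℂ} (h : nome a = nome b) : ∃ k : ℤ, a = b + 2 * k := by
  unfold nome at h
  rw [Complex.exp_eq_exp_iff_exists_int] at h
  obtain ⟨k, hk⟩ := h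
  refine ⟨k, ?_⟩
  have hpi : (Real.pi : ℂ) * I ≠ 0 :=
    mul_ne_zero (by exact_mod_cast Real.pi_ne_zero) Complex.I_ne_zero
  have h1 : (Real.pi : ℂ) * I * a = (Real.pi : ℂ) * I * (b + 2 * k) := by
    rw [hk]; ring
  exact mul_left_cancel₀ hpi h1

/-- a continuous function with integral values is constant on a preconnected set -/
lemma r1_const {W : Set ℂ} (hW : IsPreconnected W) {f : ℂ → ℂ} (hf : ContinuousOn f W)
    (hz : ∀ u ∈ W, ∃ k : ℤ, f u = k) : ∀ u ∈ W, ∀ w ∈ W, f u = f w := by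
  have hF : ContinuousOn (fun u => (f u).re) W := Complex.continuous_re.comp_continuousOn hf
  have key : ∀ u ∈ W, ∀ w ∈ W, ∀ k l : ℤ, f u = k → f w = l → l ≤ k := by
    intro u hu w hw k l hk hl
    by_contra hlt
    have hlt' : k < l := not_le.1 hlt
    have h1 := hW.intermediate_value hu hw hF
    have hmem : ((k : ℝ) + 1 / 2) ∈ Icc ((f u).re) ((f w).re) := by
      rw [hk, hl]
      have h2 : (k : ℝ) + 1 ≤ l := by exact_mod_cast hlt'
      refine ⟨?_, ?_⟩
      · rw [Complex.intCast_re]; linarith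
      · rw [Complex.intCast_re]; linarith
    obtain ⟨v, hv, hv2⟩ := h1 hmem
    obtain ⟨m, hm⟩ := hz v hv
    simp only [hm, Complex.intCast_re] at hv2
    have h3 : ((2 * m : ℤ) : ℝ) = ((2 * k + 1 : ℤ) : ℝ) := by push_cast; linarith
    have h4 : 2 * m = 2 * k + 1 := by exact_mod_cast h3
    omega
  intro u hu w hw
  obtain ⟨k, hk⟩ := hz u hu
  obtain ⟨l, hl⟩ := hz w hw
  have h1 := key u hu w hw k l hk hl
  have h2 := key w hw u hu l k hl hk
  rw [hk, hl, le_antisymm h2 h1]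

lemma r1_inv_im {u : ℂ} (hu : 0 < u.im) : 0 < (-1 / u).im := by
  have h0 : 0 < Complex.normSq u := Complex.normSq_pos.2 (fun h => by rw [h] at hu; simp at hu)
  have h1 : (-1 / u).im = u.im / Complex.normSq u := by
    rw [Complex.div_im]
    simp
    ring
  rw [h1]
  exact div_pos hu h0

lemma r1_log_ne {z : ℂ} (hz : 0 < z.im) (hz1 : ‖z‖ < 1) : log z ≠ 0 := by
  intro h
  have h1 : z ≠ 0 := fun h => by rw [h] at hz; simp at hz
  have h2 := Complex.exp_log h1
  rw [h, Complex.exp_zero] at h2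
  rw [← h2] at hz
  simp at hz

lemma r1_slitPlane {z : ℂ} (hz : 0 < z.im) : z ∈ Complex.slitPlane :=
  Complex.mem_slitPlane_iff.2 (Or.inr hz.ne')

/-- the exponent at infinity is continuous -/
lemma r1_cont_inf {r : ℝ} {p : ℂ → ℂ} (hd : DifferentiableOn ℂ p (ball (0 : ℂ) r))
    (hp : ∀ v ∈ ball (0 : ℂ) r, 0 < v.im → 0 < (p v).im ∧ ‖p v‖ < 1) :
    ContinuousOn (fun v => -(Real.pi * I) / log (p v)) (ball (0 : ℂ) r ∩ UH) := by
  have h1 : ContinuousOn p (ball (0 : ℂ) r ∩ UH) := hd.continuousOn.mono inter_subset_left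
  have h2 : ContinuousOn (fun v => log (p v)) (ball (0 : ℂ) r ∩ UH) :=
    h1.clog (fun v hv => r1_slitPlane (hp v hv.1 hv.2).1)
  exact continuousOn_const.div h2 (fun v hv => r1_log_ne (hp v hv.1 hv.2).1 (hp v hv.1 hv.2).2)

lemma r1_dslope {g : ℂ → ℂ} {v₀ : ℂ} (h0 : g v₀ = 0) (hz : ∀ v ∈ UH, g v = 0 → v = v₀)
    (hd : deriv g v₀ ≠ 0) : ∀ v ∈ UH, dslope g v₀ v ≠ 0 := by
  intro v hv
  by_cases h : v = v₀
  · rw [h, dslope_same]; exact hd
  · rw [dslope_of_ne _ h, slope_def_field, h0, sub_zero]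
    intro h1
    rcases div_eq_zero_iff.1 h1 with h2 | h2
    · exact h (hz v hv h2)
    · exact h (sub_eq_zero.1 h2)

lemma r1_dslope_mul {g : ℂ → ℂ} {v₀ : ℂ} (h0 : g v₀ = 0) (v : ℂ) :
    dslope g v₀ v * (v - v₀) = g v := by
  by_cases h : v = v₀
  · rw [h, sub_self, mul_zero, h0]
  · rw [dslope_of_ne _ h, slope_def_field, h0, sub_zero, div_mul_cancel₀ _ (sub_ne_zero.2 h)]

theorem ldiff_exists {y : ℝ} {X g : ℂ → ℂ} {v₀ : ℂ} {vc : ℝ} (hX : Model y X v₀ vc)
    (hg : Lift v₀ g) : ∃ L : ℂ → ℂ, LDiff v₀ X g L := by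
  have hv₀ : v₀ ∈ UH := hX.v0_im
  have hnhds : UH ∈ 𝓝 v₀ := r1_open.mem_nhds hv₀
  have hg0 : g v₀ = 0 := (hg.zero v₀ hv₀).2 rfl
  have hXz : ∀ v ∈ UH, X v = 0 → v = v₀ := fun v hv h =>
    hX.inj hv hv₀ (h.trans hX.zero.symm)
  have hgz : ∀ v ∈ UH, g v = 0 → v = v₀ := fun v hv h => (hg.zero v hv).1 h
  have hDX := r1_dslope hX.zero hXz (hX.deriv_ne v₀ hv₀)
  have hDg := r1_dslope hg0 hgz hg.deriv_ne
  have hdX : DifferentiableOn ℂ (dslope X v₀) UH :=
    (Complex.differentiableOn_dslope hnhds).2 hX.diff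
  have hdg : DifferentiableOn ℂ (dslope g v₀) UH :=
    (Complex.differentiableOn_dslope hnhds).2 hg.diff
  have hD : DifferentiableOn ℂ (fun v => dslope g v₀ v / dslope X v₀ v) UH :=
    hdg.div hdX hDX
  have hDne : ∀ v ∈ UH, dslope g v₀ v / dslope X v₀ v ≠ 0 := fun v hv =>
    div_ne_zero (hDg v hv) (hDX v hv)
  obtain ⟨l, hl, hle, _⟩ := exists_log r1_open hv₀ (r1_convex.starConvex hv₀) hD hDne
    (Complex.exp_log (hDne v₀ hv₀))
  have hpi : (Real.pi : ℂ) * I ≠ 0 :=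
    mul_ne_zero (by exact_mod_cast Real.pi_ne_zero) Complex.I_ne_zero
  set L₁ : ℂ → ℂ := fun v => l v / (Real.pi * I) with hL₁
  have hL₁d : DifferentiableOn ℂ L₁ UH := hl.div_const _
  have hL₁e : ∀ v ∈ UH, nome (L₁ v) * X v = g v := by
    intro v hv
    have h1 : nome (L₁ v) = dslope g v₀ v / dslope X v₀ v := by
      rw [← hle v hv]
      unfold nome
      congr 1
      rw [hL₁]
      field_simp
    rw [h1, ← r1_dslope_mul hX.zero v, ← r1_dslope_mul hg0 v, ← mul_assoc,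
      div_mul_cancel₀ _ (hDX v hv)]
  obtain ⟨rX, hrX, pX, hpX1, hpX2, hpX3, hpX4, hpX5⟩ := hX.infty
  obtain ⟨rg, hrg, pg, hpg1, hpg2, hpg3, hpg4, hpg5⟩ := hg.infty
  set r := min rX rg with hr
  have hr0 : 0 < r := lt_min hrX hrg
  have hsX : ball (0 : ℂ) r ⊆ ball (0 : ℂ) rX := ball_subset_ball (min_le_left _ _)
  have hsg : ball (0 : ℂ) r ⊆ ball (0 : ℂ) rg := ball_subset_ball (min_le_right _ _)
  have iX : InfData X r pX := ⟨hr0, hpX1.mono hsX, hpX2, hpX3,
    fun u hu => hpX4 u (hu.trans_le (min_le_left _ _)), fun v hv => hpX5 v (hsX hv)⟩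
  have ig : InfData g r pg := ⟨hr0, hpg1.mono hsg, hpg2, hpg3,
    fun u hu => hpg4 u (hu.trans_le (min_le_right _ _)), fun v hv => hpg5 v (hsg hv)⟩
  set W : Set ℂ := ball (0 : ℂ) r ∩ UH with hW
  have hWp : IsPreconnected W := ((convex_ball _ _).inter r1_convex).isPreconnected
  let φ : ℂ → ℂ := fun u => (L₁ (-1 / u) + -(Real.pi * I) / log (pX u)
    - -(Real.pi * I) / log (pg u)) / 2
  have hφc : ContinuousOn φ W := by
    have h1 : ContinuousOn (fun u : ℂ => L₁ (-1 / u)) W := by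
      refine hL₁d.continuousOn.comp ?_ (fun u hu => r1_inv_im hu.2)
      refine continuousOn_const.div continuousOn_id (fun u hu h => ?_)
      have h2 : 0 < u.im := hu.2
      have h3 : u = 0 := h
      rw [h3] at h2; simp at h2
    have h2 := r1_cont_inf iX.diff (fun v hv hi => ⟨(iX.eq v hv hi).1, (iX.eq v hv hi).2.1⟩)
    have h3 := r1_cont_inf ig.diff (fun v hv hi => ⟨(ig.eq v hv hi).1, (ig.eq v hv hi).2.1⟩)
    exact ((h1.add h2).sub h3).div_const _
  have hφz : ∀ u ∈ W, ∃ k : ℤ, φ u = k := by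
    intro u hu
    have h1 := hL₁e (-1 / u) (r1_inv_im hu.2)
    rw [(iX.eq u hu.1 hu.2).2.2, (ig.eq u hu.1 hu.2).2.2, ← r1_nome_add] at h1
    obtain ⟨k, hk⟩ := r1_nome_eq h1
    refine ⟨k, ?_⟩
    show (L₁ (-1 / u) + -(Real.pi * I) / log (pX u) - -(Real.pi * I) / log (pg u)) / 2 = k
    rw [hk]
    ring
  have hu₀ : (((r / 2 : ℝ) : ℂ) * I) ∈ W := by
    refine ⟨?_, ?_⟩
    · rw [mem_ball, dist_zero_right, norm_mul, Complex.norm_I, mul_one, Complex.norm_real,
        Real.norm_eq_abs, abs_of_pos (by linarith)]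
      linarith
    · show 0 < (((r / 2 : ℝ) : ℂ) * I).im
      simp only [Complex.mul_im, Complex.ofReal_re, Complex.I_im, Complex.ofReal_im,
        Complex.I_re, mul_one, mul_zero, add_zero]
      linarith
  obtain ⟨k, hk⟩ := hφz _ hu₀
  have hφk : ∀ u ∈ W, φ u = k := fun u hu => (r1_const hWp hφc hφz u hu _ hu₀).trans hk
  refine ⟨fun v => L₁ v - 2 * k, ?_, ?_, r, pX, pg, iX, ig, ?_⟩
  · exact hL₁d.sub_const _
  · intro v hv
    have e : L₁ v - 2 * (k : ℂ) = L₁ v + 2 * ((-k : ℤ) : ℂ) := by push_cast; ring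
    show nome (L₁ v - 2 * k) * X v = g v
    rw [e, r1_nome_add, r1_nome_int, mul_one]
    exact hL₁e v hv
  · intro v hv hvi
    have h1 := hφk v ⟨hv, hvi⟩
    have h2 : L₁ (-1 / v) + -(Real.pi * I) / log (pX v) - -(Real.pi * I) / log (pg v)
        = 2 * k := by
      have h3 : (L₁ (-1 / v) + -(Real.pi * I) / log (pX v)
        - -(Real.pi * I) / log (pg v)) / 2 = k := h1
      rw [div_eq_iff (two_ne_zero)] at h3
      rw [h3]; ring
    show L₁ (-1 / v) - 2 * k = _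
    rw [← h2, neg_div, neg_div]
    ring

end Pool.Agent.Choc
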