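import Pool.Agent.Lib.MP_2b3e36_an.Ex.R1

/-!
R2. Boundary values of `L` on `(-∞,-1)` and `(1,∞)`.

Proof. Local continuity. Near a real `x < -1` let `τg, τX` be the local functions of `Lift.slit` and
`Model.slit`; on the upper half of a small ball `nome (L - τg + τX) = 1`, so `L = τg - τX + 2k` with a
constant integer `k`; so `L` has a limit `Lb x` at every real point near `x`, continuous in the real
point, with `Re Lb x = 2k` (`τg, τX` are imaginary on the reals). Hence `x ↦ Re (Lb x)` is locally constant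
on `(-∞,-1)` with values in `2ℤ`; by `LDiff.inf` and `log p → -∞` (`|p| → 0`), `L → 0` at infinity in `UH`,
so the constant is `0` (take `x → -∞`, `|Lb x|` small).
On `(1,∞)`: for each `x > 1` the local functions give unique points `τX x, τg x ∈ Sig` with
`X → nome (τX x)`, `g → nome (τg x)` (`nome` is injective on `Sig`, since real parts are in `(-1,0)`);
these points depend continuously on `x`; `Lb x - (τg x - τX x)` is continuous with values in `2ℤ`, so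
constant, and it is `0`: as `x → +∞`, `Lb x → 0`, and `τX x → 0`, `τg x → 0`: from `InfData`: for real
negative `u = -1/x` small, `p u` is real negative small, `nome (- pi i/log p)` extends continuously and
`τ = - pi i/ (log |p| + i pi) ∈ Sig` is the point, tending to `0`. (Alternatively compare directly in
the chart: near infinity `L = τg - τX` with `τ = - pi i / log p`, and `- pi i/log p → Sig` at real negative
`u` because `log p = log |p| + i pi` there.)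
-/

set_option autoImplicit false

open Complex Set Filter Topology Metric

namespace Pool.Agent.Choc

lemma r2_sig_re {a : ℂ} (ha : a ∈ Sig) : -1 < a.re ∧ a.re < 0 := by
  obtain ⟨h1, h2⟩ := ha
  have h3 : Complex.normSq (a + 1 / 2) = 1 / 4 := by
    rw [Complex.normSq_eq_norm_sq, h2]; norm_num
  rw [Complex.normSq_apply] at h3
  have h4 : (a + 1 / 2).re = a.re + 1 / 2 := by simp
  have h5 : (a + 1 / 2).im = a.im := by simp
  rw [h4, h5] at h3
  constructor <;> nlinarith [mul_pos h1 h1]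

theorem nome_inj_Sig {a b : ℂ} (ha : a ∈ Sig) (hb : b ∈ Sig) (h : nome a = nome b) : a = b := by
  obtain ⟨k, hk⟩ := r1_nome_eq h
  have h1 := r2_sig_re ha
  have h2 := r2_sig_re hb
  have h3 : a.re = b.re + 2 * k := by rw [hk]; simp
  have h4 : ((2 * k : ℤ) : ℝ) < ((1 : ℤ) : ℝ) := by push_cast; linarith
  have h5 : ((-1 : ℤ) : ℝ) < ((2 * k : ℤ) : ℝ) := by push_cast; linarith
  have h6 : 2 * k < 1 := by exact_mod_cast h4
  have h7 : -1 < 2 * k := by exact_mod_cast h5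
  have h8 : k = 0 := by omega
  rw [hk, h8]; simp

instance r2_neBot (x : ℝ) : (𝓝[UH] (x : ℂ)).NeBot := by
  rw [← mem_closure_iff_nhdsWithin_neBot]
  rw [Metric.mem_closure_iff]
  intro ε hε
  refine ⟨x + ((ε / 2 : ℝ) : ℂ) * I, ?_, ?_⟩
  · show 0 < (x + ((ε / 2 : ℝ) : ℂ) * I).im
    simp
    linarith
  · rw [dist_eq_norm]
    have e : (x : ℂ) - (x + ((ε / 2 : ℝ) : ℂ) * I) = -(((ε / 2 : ℝ) : ℂ) * I) := by ring
    rw [e, norm_neg, norm_mul, Complex.norm_I, mul_one, Complex.norm_real, Real.norm_eq_abs,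
      abs_of_pos (by linarith)]
    linarith

/-- an integer valued local invariant is constant -/
lemma r2_conn {s : Set ℝ} (hs : IsPreconnected s) (Q : ℝ → ℤ → Prop)
    (hloc : ∀ x ∈ s, ∃ k : ℤ, ∃ ε > 0, ∀ u : ℝ, |u - x| < ε → Q u k)
    (huniq : ∀ u k l, Q u k → Q u l → k = l) {x₀ : ℝ} (hx₀ : x₀ ∈ s) (h0 : Q x₀ 0) :
    ∀ x ∈ s, Q x 0 := by
  have hopen : ∀ R : ℤ → Prop,
      IsOpen {x : ℝ | ∃ k : ℤ, R k ∧ ∃ ε > 0, ∀ u : ℝ, |u - x| < ε → Q u k} := by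
    intro R
    rw [Metric.isOpen_iff]
    rintro x ⟨k, hk, ε, hε, h⟩
    refine ⟨ε / 2, by linarith, fun w hw => ⟨k, hk, ε / 2, by linarith, fun u hu => h u ?_⟩⟩
    rw [Metric.mem_ball, Real.dist_eq] at hw
    calc |u - x| = |(u - w) + (w - x)| := by ring_nf
      _ ≤ |u - w| + |w - x| := abs_add_le _ _
      _ < ε := by linarith
  have hself : ∀ x k ε, 0 < ε → (∀ u : ℝ, |u - x| < ε → Q u k) → Q x k := by
    intro x k ε hε h
    exact h x (by rw [sub_self, abs_zero]; exact hε)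
  have h1 := (isPreconnected_iff_subset_of_disjoint.1 hs) _ _ (hopen (fun k => k = 0))
    (hopen (fun k => k ≠ 0)) (by
      intro x hx
      obtain ⟨k, ε, hε, h⟩ := hloc x hx
      by_cases hk : k = 0
      · exact Or.inl ⟨k, hk, ε, hε, h⟩
      · exact Or.inr ⟨k, hk, ε, hε, h⟩) (by
      rw [Set.eq_empty_iff_forall_notMem]
      rintro x ⟨_, ⟨k, hk, ε, hε, h⟩, l, hl, ε', hε', h'⟩
      have h2 := huniq x k l (hself x k ε hε h) (hself x l ε' hε' h')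
      exact hl (h2 ▸ hk))
  rcases h1 with h1 | h1
  · intro x hx
    obtain ⟨k, hk, ε, hε, h⟩ := h1 hx
    rw [← hk]
    exact hself x k ε hε h
  · exfalso
    obtain ⟨k, hk, ε, hε, h⟩ := h1 hx₀
    exact hk (huniq x₀ k 0 (hself x₀ k ε hε h) h0)

lemma r2_inf_small {X : ℂ → ℂ} {r : ℝ} {p : ℂ → ℂ} (h : InfData X r p) :
    Tendsto (fun v => (Real.pi * I) / log (p v)) (𝓝[UH] (0 : ℂ)) (𝓝 0) := by
  have hmem : ∀ᶠ v in 𝓝[UH] (0 : ℂ), v ∈ ball (0 : ℂ) r ∧ 0 < v.im := by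
    have h1 : ball (0 : ℂ) r ∈ 𝓝[UH] (0 : ℂ) :=
      mem_nhdsWithin_of_mem_nhds (ball_mem_nhds _ h.r_pos)
    filter_upwards [h1, self_mem_nhdsWithin] with v hv1 hv2 using ⟨hv1, hv2⟩
  have hcont : Tendsto p (𝓝[UH] (0 : ℂ)) (𝓝 0) := by
    have h1 : ContinuousAt p 0 :=
      ((h.diff 0 (mem_ball_self h.r_pos)).differentiableAt
        (ball_mem_nhds _ h.r_pos)).continuousAt
    have h2 := h1.tendsto
    rw [h.zero] at h2
    exact h2.mono_left nhdsWithin_le_nhds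
  have hnorm : Tendsto (fun v => ‖p v‖) (𝓝[UH] (0 : ℂ)) (𝓝[>] 0) := by
    rw [tendsto_nhdsWithin_iff]
    refine ⟨by simpa using hcont.norm, ?_⟩
    filter_upwards [hmem] with v hv
    have h1 := (h.eq v hv.1 hv.2).1
    exact norm_pos_iff.2 (fun h2 => by rw [h2] at h1; simp at h1)
  have hlog : Tendsto (fun v => |Real.log ‖p v‖|) (𝓝[UH] (0 : ℂ)) atTop :=
    tendsto_abs_atBot_atTop.comp (Real.tendsto_log_nhdsGT_zero.comp hnorm)
  have hdiv : Tendsto (fun v => Real.pi / |Real.log ‖p v‖|) (𝓝[UH] (0 : ℂ)) (𝓝 0) :=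
    hlog.const_div_atTop _
  refine squeeze_zero_norm' ?_ hdiv
  filter_upwards [hlog.eventually_gt_atTop 0] with v hv
  rw [norm_div, norm_mul, Complex.norm_I, mul_one, Complex.norm_real, Real.norm_eq_abs,
    abs_of_pos Real.pi_pos]
  apply div_le_div_of_nonneg_left Real.pi_pos.le hv
  have h1 := Complex.abs_re_le_norm (log (p v))
  rwa [Complex.log_re] at h1

lemma r2_L_small {v₀ : ℂ} {X g L : ℂ → ℂ} (hL : LDiff v₀ X g L) (ε : ℝ) (hε : 0 < ε) :
    ∃ R : ℝ, 0 < R ∧ ∀ w ∈ UH, R < ‖w‖ → ‖L w‖ < ε := by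
  obtain ⟨r, pX, pg, iX, ig, he⟩ := hL.inf
  have h1 := (r2_inf_small ig).neg.add (r2_inf_small iX)
  rw [neg_zero, add_zero] at h1
  obtain ⟨ρ, hρ, h2⟩ := Metric.tendsto_nhdsWithin_nhds.1 h1 ε hε
  have hm : 0 < min ρ r := lt_min hρ iX.r_pos
  refine ⟨1 / min ρ r, by positivity, fun w hw hwR => ?_⟩
  have hw0 : w ≠ 0 := fun h => by
    have h3 : 0 < w.im := hw
    rw [h] at h3; simp at h3
  have h4 : ‖-1 / w‖ < min ρ r := by
    rw [norm_div, norm_neg, norm_one]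
    have h5 : 0 < ‖w‖ := norm_pos_iff.2 hw0
    rw [div_lt_iff₀ h5]
    rw [div_lt_iff₀ hm] at hwR
    linarith
  have h6 : (-1 / w) ∈ UH := r1_inv_im hw
  have h7 := he (-1 / w) (by
    rw [mem_ball, dist_zero_right]; exact h4.trans_le (min_le_right _ _)) h6
  have h8 : -1 / (-1 / w) = w := by field_simp
  rw [h8] at h7
  have h9 := h2 h6 (by rw [dist_zero_right]; exact h4.trans_le (min_le_left _ _))
  rw [dist_zero_right] at h9
  rw [h7, neg_div]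
  exact h9

/-- local form of `L` near a real point at which both functions have exponents -/
lemma r2_local {v₀ : ℂ} {X g L τX τg : ℂ → ℂ} (hL : LDiff v₀ X g L) {x r : ℝ} (hr : 0 < r)
    (hX : DifferentiableOn ℂ τX (ball (x : ℂ) r))
    (hXe : ∀ v ∈ ball (x : ℂ) r, 0 < v.im → X v = nome (τX v))
    (hg : DifferentiableOn ℂ τg (ball (x : ℂ) r))
    (hge : ∀ v ∈ ball (x : ℂ) r, 0 < v.im → g v = nome (τg v)) :
    ∃ k : ℤ, ∀ u : ℝ, |u - x| < r →
      Tendsto L (𝓝[UH] (u : ℂ)) (𝓝 (τg u - τX u + 2 * k)) ∧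
      Tendsto X (𝓝[UH] (u : ℂ)) (𝓝 (nome (τX u))) ∧
      Tendsto g (𝓝[UH] (u : ℂ)) (𝓝 (nome (τg u))) := by
  set W : Set ℂ := ball (x : ℂ) r ∩ UH with hW
  have hWp : IsPreconnected W := ((convex_ball _ _).inter r1_convex).isPreconnected
  let φ : ℂ → ℂ := fun v => (L v - τg v + τX v) / 2
  have hφc : ContinuousOn φ W :=
    (((hL.diff.continuousOn.mono inter_subset_right).sub
      (hg.continuousOn.mono inter_subset_left)).add
      (hX.continuousOn.mono inter_subset_left)).div_const _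
  have hφz : ∀ v ∈ W, ∃ k : ℤ, φ v = k := by
    intro v hv
    have h1 := hL.eq v hv.2
    rw [hXe v hv.1 hv.2, hge v hv.1 hv.2, ← r1_nome_add] at h1
    obtain ⟨k, hk⟩ := r1_nome_eq h1
    refine ⟨k, ?_⟩
    show (L v - τg v + τX v) / 2 = k
    have h2 : L v = τg v + 2 * k - τX v := by rw [← hk]; ring
    rw [h2]; ring
  have hu₀ : ((x : ℂ) + ((r / 2 : ℝ) : ℂ) * I) ∈ W := by
    refine ⟨?_, ?_⟩
    · rw [mem_ball, dist_eq_norm, add_sub_cancel_left, norm_mul, Complex.norm_I, mul_one,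
        Complex.norm_real, Real.norm_eq_abs, abs_of_pos (by linarith)]
      linarith
    · show 0 < ((x : ℂ) + ((r / 2 : ℝ) : ℂ) * I).im
      simp
      exact hr
  obtain ⟨k, hk⟩ := hφz _ hu₀
  have hφk : ∀ v ∈ W, φ v = k := fun v hv => (r1_const hWp hφc hφz v hv _ hu₀).trans hk
  refine ⟨k, fun u hu => ?_⟩
  have hub : (u : ℂ) ∈ ball (x : ℂ) r := by
    rw [mem_ball, dist_eq_norm, ← Complex.ofReal_sub, Complex.norm_real, Real.norm_eq_abs]
    exact hu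
  have hmem : ∀ᶠ v in 𝓝[UH] (u : ℂ), v ∈ W := by
    have h1 : ball (x : ℂ) r ∈ 𝓝[UH] (u : ℂ) :=
      mem_nhdsWithin_of_mem_nhds (isOpen_ball.mem_nhds hub)
    filter_upwards [h1, self_mem_nhdsWithin] with v hv1 hv2 using ⟨hv1, hv2⟩
  have cX : Tendsto τX (𝓝[UH] (u : ℂ)) (𝓝 (τX u)) :=
    (((hX _ hub).differentiableAt (isOpen_ball.mem_nhds hub)).continuousAt.tendsto).mono_left
      nhdsWithin_le_nhds
  have cg : Tendsto τg (𝓝[UH] (u : ℂ)) (𝓝 (τg u)) :=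
    (((hg _ hub).differentiableAt (isOpen_ball.mem_nhds hub)).continuousAt.tendsto).mono_left
      nhdsWithin_le_nhds
  have hnome : Continuous nome := by
    unfold nome
    exact Complex.continuous_exp.comp (continuous_const.mul continuous_id)
  refine ⟨?_, ?_, ?_⟩
  · have h1 : Tendsto (fun v => τg v - τX v + 2 * (k : ℂ)) (𝓝[UH] (u : ℂ))
        (𝓝 (τg u - τX u + 2 * k)) := (cg.sub cX).add_const _
    refine h1.congr' ?_
    filter_upwards [hmem] with v hv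
    have h2 : (L v - τg v + τX v) / 2 = k := hφk v hv
    rw [div_eq_iff two_ne_zero] at h2
    have h3 : L v = (k : ℂ) * 2 + τg v - τX v := by rw [← h2]; ring
    rw [h3]; ring
  · refine ((hnome.tendsto _).comp cX).congr' ?_
    filter_upwards [hmem] with v hv
    exact (hXe v hv.1 hv.2).symm
  · refine ((hnome.tendsto _).comp cg).congr' ?_
    filter_upwards [hmem] with v hv
    exact (hge v hv.1 hv.2).symm

/-- far away the boundary values of `L` are small -/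
lemma r2_far {L : ℂ → ℂ} {R ε : ℝ} (h : ∀ w ∈ UH, R < ‖w‖ → ‖L w‖ < ε) {x : ℝ} (hx : R < |x|)
    {ℓ : ℂ} (hℓ : Tendsto L (𝓝[UH] (x : ℂ)) (𝓝 ℓ)) : ‖ℓ‖ ≤ ε := by
  refine le_of_tendsto hℓ.norm ?_
  have h1 : ∀ᶠ w in 𝓝 (x : ℂ), R < ‖w‖ := by
    apply continuous_norm.continuousAt.eventually_const_lt
    show R < ‖(x : ℂ)‖
    rw [Complex.norm_real, Real.norm_eq_abs]
    exact hx
  filter_upwards [h1.filter_mono nhdsWithin_le_nhds, self_mem_nhdsWithin] with w hw1 hw2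
  exact (h w hw2 hw1).le

theorem L_slit {y : ℝ} {X g L : ℂ → ℂ} {v₀ : ℂ} {vc : ℝ} (hX : Model y X v₀ vc)
    (hg : Lift v₀ g) (hL : LDiff v₀ X g L) {x : ℝ} (hx : x < -1) :
    ∃ ℓ : ℂ, ℓ.re = 0 ∧ Tendsto L (𝓝[UH] (x : ℂ)) (𝓝 ℓ) := by
  let Q : ℝ → ℤ → Prop := fun u k =>
    ∃ ℓ : ℂ, ℓ.re = 2 * k ∧ Tendsto L (𝓝[UH] (u : ℂ)) (𝓝 ℓ)
  have hloc : ∀ x ∈ Iio (-1 : ℝ), ∃ k : ℤ, ∃ ε > 0, ∀ u : ℝ, |u - x| < ε → Q u k := by
    intro x hx
    obtain ⟨r₁, hr₁, τX, h1, h2, h3, _, _⟩ := hX.slit x hx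
    obtain ⟨r₂, hr₂, τg, g1, g2, g3⟩ := hg.slit x hx
    have s1 : ball (x : ℂ) (min r₁ r₂) ⊆ ball (x : ℂ) r₁ := ball_subset_ball (min_le_left _ _)
    have s2 : ball (x : ℂ) (min r₁ r₂) ⊆ ball (x : ℂ) r₂ := ball_subset_ball (min_le_right _ _)
    obtain ⟨k, hk⟩ := r2_local hL (lt_min hr₁ hr₂) (h1.mono s1) (fun v hv => h2 v (s1 hv))
      (g1.mono s2) (fun v hv => g2 v (s2 hv))
    refine ⟨k, min r₁ r₂, lt_min hr₁ hr₂, fun u hu => ⟨_, ?_, (hk u hu).1⟩⟩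
    have hub : (u : ℂ) ∈ ball (x : ℂ) (min r₁ r₂) := by
      rw [mem_ball, dist_eq_norm, ← Complex.ofReal_sub, Complex.norm_real, Real.norm_eq_abs]
      exact hu
    have e1 := (h3 u (s1 hub)).1
    have e2 := (g3 u (s2 hub)).1
    simp [e1, e2]
  have huniq : ∀ u k l, Q u k → Q u l → k = l := by
    rintro u k l ⟨ℓ, h1, h2⟩ ⟨ℓ', h1', h2'⟩
    have h3 := tendsto_nhds_unique h2 h2'
    rw [h3, h1'] at h1
    have h4 : ((2 * l : ℤ) : ℝ) = ((2 * k : ℤ) : ℝ) := by push_cast; exact h1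
    have h5 : 2 * l = 2 * k := by exact_mod_cast h4
    omega
  obtain ⟨R, hR, hsm⟩ := r2_L_small hL 1 one_pos
  have hx₀ : -(R + 2) ∈ Iio (-1 : ℝ) := by
    show -(R + 2) < -1
    linarith
  have h0 : Q (-(R + 2)) 0 := by
    obtain ⟨k, ε, hε, h⟩ := hloc _ hx₀
    obtain ⟨ℓ, h1, h2⟩ := h (-(R + 2)) (by rw [sub_self, abs_zero]; exact hε)
    have h3 := r2_far hsm (by rw [abs_neg, abs_of_pos (by linarith)]; linarith) h2
    have h4 := (Complex.abs_re_le_norm ℓ).trans h3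
    rw [h1, abs_le] at h4
    have h5 : ((2 * k : ℤ) : ℝ) ≤ ((1 : ℤ) : ℝ) := by push_cast; linarith [h4.2]
    have h6 : ((-1 : ℤ) : ℝ) ≤ ((2 * k : ℤ) : ℝ) := by push_cast; linarith [h4.1]
    have h7 : 2 * k ≤ 1 := by exact_mod_cast h5
    have h8 : -1 ≤ 2 * k := by exact_mod_cast h6
    have h9 : k = 0 := by omega
    rw [h9] at h1
    exact ⟨ℓ, h1, h2⟩
  obtain ⟨ℓ, h1, h2⟩ := r2_conn isPreconnected_Iio Q hloc huniq hx₀ h0 x hx
  exact ⟨ℓ, by simpa using h1, h2⟩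

theorem L_arc {y : ℝ} {X g L : ℂ → ℂ} {v₀ : ℂ} {vc : ℝ} (hX : Model y X v₀ vc)
    (hg : Lift v₀ g) (hL : LDiff v₀ X g L) {x : ℝ} (hx : 1 < x) :
    ∃ τX ∈ Sig, ∃ τg ∈ Sig, Tendsto X (𝓝[UH] (x : ℂ)) (𝓝 (nome τX)) ∧
      Tendsto L (𝓝[UH] (x : ℂ)) (𝓝 (τg - τX)) := by
  let Q : ℝ → ℤ → Prop := fun u k =>
    ∃ τX ∈ Sig, ∃ τg ∈ Sig, Tendsto X (𝓝[UH] (u : ℂ)) (𝓝 (nome τX)) ∧
      Tendsto g (𝓝[UH] (u : ℂ)) (𝓝 (nome τg)) ∧
      Tendsto L (𝓝[UH] (u : ℂ)) (𝓝 (τg - τX + 2 * k))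
  have hloc : ∀ x ∈ Ioi (1 : ℝ), ∃ k : ℤ, ∃ ε > 0, ∀ u : ℝ, |u - x| < ε → Q u k := by
    intro x hx
    obtain ⟨r₁, hr₁, τX, h1, h2, h3, _⟩ := hX.arc x hx
    obtain ⟨r₂, hr₂, τg, g1, g2, g3⟩ := hg.arc x hx
    have s1 : ball (x : ℂ) (min r₁ r₂) ⊆ ball (x : ℂ) r₁ := ball_subset_ball (min_le_left _ _)
    have s2 : ball (x : ℂ) (min r₁ r₂) ⊆ ball (x : ℂ) r₂ := ball_subset_ball (min_le_right _ _)
    obtain ⟨k, hk⟩ := r2_local hL (lt_min hr₁ hr₂) (h1.mono s1) (fun v hv => h2 v (s1 hv))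
      (g1.mono s2) (fun v hv => g2 v (s2 hv))
    refine ⟨k, min r₁ r₂, lt_min hr₁ hr₂, fun u hu => ?_⟩
    have hub : (u : ℂ) ∈ ball (x : ℂ) (min r₁ r₂) := by
      rw [mem_ball, dist_eq_norm, ← Complex.ofReal_sub, Complex.norm_real, Real.norm_eq_abs]
      exact hu
    obtain ⟨k1, k2, k3⟩ := hk u hu
    exact ⟨τX u, h3 u (s1 hub), τg u, g3 u (s2 hub), k2, k3, k1⟩
  have huniq : ∀ u k l, Q u k → Q u l → k = l := by
    rintro u k l ⟨τX, hτX, τg, hτg, h1, h2, h3⟩ ⟨τX', hτX', τg', hτg', h1', h2', h3'⟩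
    have e1 := nome_inj_Sig hτX hτX' (tendsto_nhds_unique h1 h1')
    have e2 := nome_inj_Sig hτg hτg' (tendsto_nhds_unique h2 h2')
    have e3 := tendsto_nhds_unique h3 h3'
    rw [e1, e2] at e3
    have e4 : (2 : ℂ) * k = 2 * l := add_left_cancel e3
    have e5 : (k : ℂ) = l := mul_left_cancel₀ two_ne_zero e4
    exact_mod_cast e5
  obtain ⟨R, hR, hsm⟩ := r2_L_small hL (1 / 2) (by norm_num)
  have hx₀ : (R + 2) ∈ Ioi (1 : ℝ) := by
    show 1 < R + 2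
    linarith
  have h0 : Q (R + 2) 0 := by
    obtain ⟨k, ε, hε, h⟩ := hloc _ hx₀
    obtain ⟨τX, hτX, τg, hτg, h1, h2, h2'⟩ := h (R + 2) (by rw [sub_self, abs_zero]; exact hε)
    have h3 := r2_far hsm (by rw [abs_of_pos (by linarith)]; linarith) h2'
    have h4 := (Complex.abs_re_le_norm _).trans h3
    have e1 : (τg - τX + 2 * (k : ℂ)).re = τg.re - τX.re + 2 * k := by simp
    rw [e1, abs_le] at h4
    have s1 := r2_sig_re hτX
    have s2 := r2_sig_re hτg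
    have h5 : ((2 * k : ℤ) : ℝ) < ((2 : ℤ) : ℝ) := by push_cast; linarith [h4.2]
    have h6 : ((-2 : ℤ) : ℝ) < ((2 * k : ℤ) : ℝ) := by push_cast; linarith [h4.1]
    have h7 : 2 * k < 2 := by exact_mod_cast h5
    have h8 : -2 < 2 * k := by exact_mod_cast h6
    have h9 : k = 0 := by omega
    rw [h9] at h2'
    exact ⟨τX, hτX, τg, hτg, h1, h2, h2'⟩
  obtain ⟨τX, hτX, τg, hτg, h1, _, h3⟩ := r2_conn isPreconnected_Ioi Q hloc huniq hx₀ h0 x hx
  refine ⟨τX, hτX, τg, hτg, h1, ?_⟩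
  simpa using h3

end Pool.Agent.Choc
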