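import Pool.Agent.Lib.MP_2b3e36_an.Ex.R1

/-!
R3. `L` on the free arc, near `±1`, and near infinity.

`L_free`: `-1 < x < 1`: `g → ℓ`, `0 < ‖ℓ‖ < 1` (`Lift.inner`), `X = nome τ` near `x` with `τ` holomorphic,
real on the reals. On the upper half of a small ball `g` stays in a disc about `ℓ` not containing `0`,
let `λ` be a branch of `log g /(pi i)` there; `nome (L - λ + τ) = 1`, so `L = λ - τ + 2k`, and `L` tends to
`lim λ - τ x + 2k`, with imaginary part `- log ‖ℓ‖ / pi > 0`.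
`L_one`: near `x = ±1` the same with `X = nome (α^(1/2))`, resp. `X = nome (-1/(1 + i α^(1/2)))`, the exponents
are bounded near `x`; so `L` is bounded near `x` (in `UH`).
`L_infty`: for `v ∈ UH`, `|v|` large, `u = -1/v`:
`L v = pi i (log pg - log pX)/(log pg log pX)`. `pg/pX` is holomorphic and nonvanishing near `0` (simple
zeros, positive derivatives), `log pg - log pX` = a bounded function (imaginary parts are in `(0, pi)`,
real part `log |pg/pX|` bounded); `|log p| ≥ |log |p|| ≥ (1/2) log |v|` for large `|v|` as `|p u| ≤ C |u|`.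
-/

set_option autoImplicit false

open Complex Set Filter Topology Metric

namespace Pool.Agent.Choc

/-- bounds near a simple zero -/
lemma r3_simple {p : ℂ → ℂ} {a : ℂ} {r : ℝ} (hr : 0 < r) (hd : DifferentiableOn ℂ p (ball a r))
    (h0 : p a = 0) (hκ : deriv p a ≠ 0) : ∃ c C δ : ℝ, 0 < c ∧ 0 < C ∧ 0 < δ ∧ δ ≤ r ∧
      ∀ u ∈ ball a δ, c * ‖u - a‖ ≤ ‖p u‖ ∧ ‖p u‖ ≤ C * ‖u - a‖ ∧ c ≤ ‖deriv p u‖ ∧
        ‖deriv p u‖ ≤ C := by
  have hκ' : 0 < ‖deriv p a‖ := norm_pos_iff.2 hκ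
  have hda : DifferentiableAt ℂ p a := hd.differentiableAt (ball_mem_nhds _ hr)
  have h1 : ContinuousAt (fun u => ‖dslope p a u‖) a :=
    (continuousAt_dslope_same.2 hda).norm
  have h2 : ContinuousAt (fun u => ‖deriv p u‖) a :=
    (((hd.deriv isOpen_ball).differentiableAt (ball_mem_nhds _ hr)).continuousAt).norm
  have e1 : (fun u => ‖dslope p a u‖) a = ‖deriv p a‖ := by simp
  have e2 : (fun u => ‖deriv p u‖) a = ‖deriv p a‖ := rfl
  have h3 : ∀ᶠ u in 𝓝 a, ‖deriv p a‖ / 2 < ‖dslope p a u‖ :=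
    h1.eventually_const_lt (by rw [e1]; linarith)
  have h4 : ∀ᶠ u in 𝓝 a, ‖dslope p a u‖ < 2 * ‖deriv p a‖ :=
    h1.eventually_lt_const (by rw [e1]; linarith)
  have h5 : ∀ᶠ u in 𝓝 a, ‖deriv p a‖ / 2 < ‖deriv p u‖ :=
    h2.eventually_const_lt (by rw [e2]; linarith)
  have h6 : ∀ᶠ u in 𝓝 a, ‖deriv p u‖ < 2 * ‖deriv p a‖ :=
    h2.eventually_lt_const (by rw [e2]; linarith)
  obtain ⟨δ, hδ, h7⟩ := Metric.eventually_nhds_iff_ball.1 (h3.and (h4.and (h5.and h6)))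
  refine ⟨‖deriv p a‖ / 2, 2 * ‖deriv p a‖, min δ r, by positivity, by positivity,
    lt_min hδ hr, min_le_right _ _, fun u hu => ?_⟩
  obtain ⟨h8, h9, h10, h11⟩ := h7 u (ball_subset_ball (min_le_left _ _) hu)
  have h12 : ‖p u‖ = ‖dslope p a u‖ * ‖u - a‖ := by
    rw [← norm_mul, r1_dslope_mul h0]
  refine ⟨?_, ?_, h10.le, h11.le⟩
  · rw [h12]; exact mul_le_mul_of_nonneg_right h8.le (norm_nonneg _)
  · rw [h12]; exact mul_le_mul_of_nonneg_right h9.le (norm_nonneg _)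

lemma r3_pi : (Real.pi : ℂ) * I ≠ 0 :=
  mul_ne_zero (by exact_mod_cast Real.pi_ne_zero) Complex.I_ne_zero

lemma r3_nome_log {z : ℂ} (hz : z ≠ 0) : nome (log z / (Real.pi * I)) = z := by
  unfold nome
  rw [mul_div_cancel₀ _ r3_pi, Complex.exp_log hz]

/-- the local form of `L` near a point of `[-1,1]` -/
lemma r3_form {v₀ : ℂ} {X g L T : ℂ → ℂ} (hg : Lift v₀ g) (hL : LDiff v₀ X g L) {x r : ℝ}
    (hx : -1 ≤ x) (hx' : x ≤ 1) (hr : 0 < r)
    (hT : ContinuousOn T (ball (x : ℂ) r ∩ UH))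
    (he : ∀ v ∈ ball (x : ℂ) r, 0 < v.im → X v = nome (T v)) :
    ∃ (ℓ : ℂ) (k : ℤ), ℓ ≠ 0 ∧ ‖ℓ‖ < 1 ∧ Tendsto g (𝓝[UH] (x : ℂ)) (𝓝 ℓ) ∧
      ∀ᶠ v in 𝓝[UH] (x : ℂ), ‖log (g v / ℓ)‖ < 1 ∧
        L v = log (g v / ℓ) / (Real.pi * I) + log ℓ / (Real.pi * I) - T v + 2 * k := by
  obtain ⟨ℓ, hℓ0, hℓ1, hℓ⟩ := hg.inner x hx hx'
  have hℓp : 0 < ‖ℓ‖ := norm_pos_iff.2 hℓ0
  obtain ⟨ρ, hρ, h1⟩ := Metric.tendsto_nhdsWithin_nhds.1 hℓ ‖ℓ‖ hℓp
  set W : Set ℂ := ball (x : ℂ) (min r ρ) ∩ UH with hW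
  have hm : 0 < min r ρ := lt_min hr hρ
  have hWp : IsPreconnected W := ((convex_ball _ _).inter r1_convex).isPreconnected
  have hslit : ∀ v ∈ W, g v / ℓ ∈ Complex.slitPlane := by
    intro v hv
    have h2 := h1 hv.2 ((mem_ball.1 hv.1).trans_le (min_le_right _ _))
    have h3 : ‖g v / ℓ - 1‖ < 1 := by
      have h4 : g v / ℓ - 1 = (g v - ℓ) / ℓ := by field_simp
      rw [h4, norm_div, div_lt_one hℓp, ← dist_eq_norm]
      exact h2
    left
    have h5 := Complex.abs_re_le_norm (g v / ℓ - 1)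
    have h6 : (g v / ℓ - 1).re = (g v / ℓ).re - 1 := by simp
    rw [h6] at h5
    have h7 := neg_abs_le ((g v / ℓ).re - 1)
    linarith
  have hgc : ContinuousOn (fun v => log (g v / ℓ)) W :=
    ((hg.diff.continuousOn.mono inter_subset_right).div_const _).clog hslit
  let φ : ℂ → ℂ := fun v => (L v - log (g v / ℓ) / (Real.pi * I) - log ℓ / (Real.pi * I) + T v) / 2
  have hφc : ContinuousOn φ W :=
    ((((hL.diff.continuousOn.mono inter_subset_right).sub (hgc.div_const _)).sub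
      continuousOn_const).add (hT.mono (inter_subset_inter_left _
        (ball_subset_ball (min_le_left _ _))))).div_const _
  have hφz : ∀ v ∈ W, ∃ k : ℤ, φ v = k := by
    intro v hv
    have h2 := hL.eq v hv.2
    have h3 : g v / ℓ ≠ 0 := Complex.slitPlane_ne_zero (hslit v hv)
    have h4 : g v = nome (log (g v / ℓ) / (Real.pi * I) + log ℓ / (Real.pi * I)) := by
      rw [r1_nome_add, r3_nome_log h3, r3_nome_log hℓ0, div_mul_cancel₀ _ hℓ0]
    rw [he v (ball_subset_ball (min_le_left _ _) hv.1) hv.2, ← r1_nome_add] at h2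
    obtain ⟨k, hk⟩ := r1_nome_eq (h2.trans h4)
    refine ⟨k, ?_⟩
    show (L v - log (g v / ℓ) / (Real.pi * I) - log ℓ / (Real.pi * I) + T v) / 2 = k
    have h5 : L v = log (g v / ℓ) / (Real.pi * I) + log ℓ / (Real.pi * I) + 2 * k - T v := by
      rw [← hk]; ring
    rw [h5]; ring
  have hu₀ : ((x : ℂ) + ((min r ρ / 2 : ℝ) : ℂ) * I) ∈ W := by
    refine ⟨?_, ?_⟩
    · rw [mem_ball, dist_eq_norm, add_sub_cancel_left, norm_mul, Complex.norm_I, mul_one,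
        Complex.norm_real, Real.norm_eq_abs, abs_of_pos (by linarith)]
      linarith
    · show 0 < ((x : ℂ) + ((min r ρ / 2 : ℝ) : ℂ) * I).im
      rw [Complex.add_im, Complex.ofReal_im, Complex.mul_im, Complex.I_im, Complex.I_re,
        Complex.ofReal_re, Complex.ofReal_im]
      linarith
  obtain ⟨k, hk⟩ := hφz _ hu₀
  have hφk : ∀ v ∈ W, φ v = k := fun v hv => (r1_const hWp hφc hφz v hv _ hu₀).trans hk
  refine ⟨ℓ, k, hℓ0, hℓ1, hℓ, ?_⟩
  have h2 : Tendsto (fun v => log (g v / ℓ)) (𝓝[UH] (x : ℂ)) (𝓝 0) := by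
    have h3 : Tendsto (fun v => g v / ℓ) (𝓝[UH] (x : ℂ)) (𝓝 1) := by
      have h4 := hℓ.div_const ℓ
      rwa [div_self hℓ0] at h4
    have h5 := h3.clog (by simp)
    rwa [Complex.log_one] at h5
  have h3 : ∀ᶠ v in 𝓝[UH] (x : ℂ), ‖log (g v / ℓ)‖ < 1 := by
    have h4 := h2.norm
    rw [norm_zero] at h4
    exact h4.eventually_lt_const one_pos
  have h4 : ∀ᶠ v in 𝓝[UH] (x : ℂ), v ∈ W := by
    have h5 : ball (x : ℂ) (min r ρ) ∈ 𝓝[UH] (x : ℂ) :=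
      mem_nhdsWithin_of_mem_nhds (ball_mem_nhds _ hm)
    filter_upwards [h5, self_mem_nhdsWithin] with v hv1 hv2 using ⟨hv1, hv2⟩
  filter_upwards [h3, h4] with v hv1 hv2
  refine ⟨hv1, ?_⟩
  have h5 : (L v - log (g v / ℓ) / (Real.pi * I) - log ℓ / (Real.pi * I) + T v) / 2 = k :=
    hφk v hv2
  rw [div_eq_iff two_ne_zero] at h5
  have h6 : L v = (k : ℂ) * 2 + log (g v / ℓ) / (Real.pi * I) + log ℓ / (Real.pi * I) - T v := by
    rw [← h5]; ring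
  rw [h6]; ring

theorem L_free {y : ℝ} {X g L : ℂ → ℂ} {v₀ : ℂ} {vc : ℝ} (hX : Model y X v₀ vc)
    (hg : Lift v₀ g) (hL : LDiff v₀ X g L) {x : ℝ} (hx : -1 < x) (hx' : x < 1) :
    ∃ ℓ : ℂ, 0 < ℓ.im ∧ Tendsto L (𝓝[UH] (x : ℂ)) (𝓝 ℓ) := by
  obtain ⟨r, hr, τ, h1, h2, h3, _⟩ := hX.free x hx hx'
  obtain ⟨ℓ, k, hℓ0, hℓ1, hℓ, hev⟩ := r3_form hg hL hx.le hx'.le hr
    (h1.continuousOn.mono inter_subset_left) h2
  have hτ : Tendsto τ (𝓝[UH] (x : ℂ)) (𝓝 (τ x)) :=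
    ((h1.differentiableAt (ball_mem_nhds _ hr)).continuousAt.tendsto).mono_left
      nhdsWithin_le_nhds
  have hlog : Tendsto (fun v => log (g v / ℓ)) (𝓝[UH] (x : ℂ)) (𝓝 0) := by
    have h3 : Tendsto (fun v => g v / ℓ) (𝓝[UH] (x : ℂ)) (𝓝 1) := by
      have h4 := hℓ.div_const ℓ
      rwa [div_self hℓ0] at h4
    have h5 := h3.clog (by simp)
    rwa [Complex.log_one] at h5
  refine ⟨0 / (Real.pi * I) + log ℓ / (Real.pi * I) - τ x + 2 * k, ?_, ?_⟩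
  · have h4 : (log ℓ / (Real.pi * I)).im = -(Real.log ‖ℓ‖) / Real.pi := by
      have h5 : log ℓ / (Real.pi * I) = ((1 / Real.pi : ℝ) : ℂ) * (-I * log ℓ) := by
        have hI := Complex.I_ne_zero
        have hp : (Real.pi : ℂ) ≠ 0 := by exact_mod_cast Real.pi_ne_zero
        push_cast
        field_simp
        rw [Complex.I_sq]
        ring
      rw [h5, Complex.im_ofReal_mul]
      simp [Complex.log_re]
      ring
    have h5 : (τ x).im = 0 := h3 x (mem_ball_self hr)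
    have h6 : (0 / (Real.pi * I) + log ℓ / (Real.pi * I) - τ x + 2 * (k : ℂ)).im
        = -(Real.log ‖ℓ‖) / Real.pi := by
      rw [zero_div, zero_add, Complex.add_im, Complex.sub_im, h4, h5]
      simp
    rw [h6]
    have h7 : Real.log ‖ℓ‖ < 0 := Real.log_neg (norm_pos_iff.2 hℓ0) hℓ1
    exact div_pos (by linarith) Real.pi_pos
  · have h4 : Tendsto (fun v => log (g v / ℓ) / (Real.pi * I) + log ℓ / (Real.pi * I) - τ v
        + 2 * (k : ℂ)) (𝓝[UH] (x : ℂ))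
        (𝓝 (0 / (Real.pi * I) + log ℓ / (Real.pi * I) - τ x + 2 * k)) :=
      (((hlog.div_const _).add_const _).sub hτ).add_const _
    refine h4.congr' ?_
    filter_upwards [hev] with v hv
    exact hv.2.symm

lemma r3_bdd {v₀ : ℂ} {X g L T : ℂ → ℂ} (hg : Lift v₀ g) (hL : LDiff v₀ X g L) {x r : ℝ}
    (hx : -1 ≤ x) (hx' : x ≤ 1) (hr : 0 < r)
    (hT : ContinuousOn T (ball (x : ℂ) r ∩ UH)) {t : ℂ}
    (ht : Tendsto T (𝓝[UH] (x : ℂ)) (𝓝 t))
    (he : ∀ v ∈ ball (x : ℂ) r, 0 < v.im → X v = nome (T v)) :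
    ∃ C ρ : ℝ, 0 < ρ ∧ ∀ v ∈ UH, ‖v - x‖ < ρ → ‖L v‖ ≤ C := by
  obtain ⟨ℓ, k, hℓ0, hℓ1, hℓ, hev⟩ := r3_form hg hL hx hx' hr hT he
  have h1 : ∀ᶠ v in 𝓝[UH] (x : ℂ), ‖T v‖ < ‖t‖ + 1 :=
    ht.norm.eventually_lt_const (by linarith)
  obtain ⟨ρ, hρ, h2⟩ := Metric.mem_nhdsWithin_iff.1 (hev.and h1)
  refine ⟨‖(1 : ℂ) / (Real.pi * I)‖ + ‖log ℓ / (Real.pi * I)‖ + (‖t‖ + 1) + ‖(2 * k : ℂ)‖, ρ, hρ,
    fun v hv hvρ => ?_⟩
  obtain ⟨⟨h3, h4⟩, h5⟩ := h2 ⟨by rw [mem_ball, dist_eq_norm]; exact hvρ, hv⟩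
  rw [h4]
  have h6 : ‖log (g v / ℓ) / (Real.pi * I)‖ ≤ ‖(1 : ℂ) / (Real.pi * I)‖ := by
    rw [norm_div, norm_div, norm_one]
    exact div_le_div_of_nonneg_right h3.le (norm_nonneg _)
  calc ‖log (g v / ℓ) / (Real.pi * I) + log ℓ / (Real.pi * I) - T v + 2 * (k : ℂ)‖
      ≤ ‖log (g v / ℓ) / (Real.pi * I) + log ℓ / (Real.pi * I) - T v‖ + ‖(2 * k : ℂ)‖ :=
        norm_add_le _ _
    _ ≤ (‖log (g v / ℓ) / (Real.pi * I) + log ℓ / (Real.pi * I)‖ + ‖T v‖) + ‖(2 * k : ℂ)‖ := by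
        gcongr; exact norm_sub_le _ _
    _ ≤ ((‖log (g v / ℓ) / (Real.pi * I)‖ + ‖log ℓ / (Real.pi * I)‖) + ‖T v‖)
          + ‖(2 * k : ℂ)‖ := by
        gcongr; exact norm_add_le _ _
    _ ≤ _ := by linarith

/-- the square root of a local chart at a corner -/
lemma r3_sqrt {a : ℂ} {r : ℝ} {α : ℂ → ℂ} (hr : 0 < r) (hα : DifferentiableOn ℂ α (ball a r))
    (h0 : α a = 0) (him : ∀ v ∈ ball a r, 0 < v.im → 0 < (α v).im) :
    ContinuousOn (fun v => (α v) ^ ((1 : ℂ) / 2)) (ball a r ∩ UH) ∧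
      ContinuousAt (fun v => (α v) ^ ((1 : ℂ) / 2)) a ∧ (α a) ^ ((1 : ℂ) / 2) = 0 := by
  refine ⟨?_, ?_, ?_⟩
  · intro v hv
    have h1 : ContinuousAt α v := (hα.differentiableAt (isOpen_ball.mem_nhds hv.1)).continuousAt
    exact (h1.cpow continuousAt_const (r1_slitPlane (him v hv.1 hv.2))).continuousWithinAt
  · have h1 : ContinuousAt α a := (hα.differentiableAt (ball_mem_nhds _ hr)).continuousAt
    have h2 : ContinuousAt (fun z : ℂ => z ^ ((1 : ℂ) / 2)) (α a) :=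
      Complex.continuousAt_cpow_const_of_re_pos (Or.inl (by rw [h0]; simp)) (by norm_num)
    exact ContinuousAt.comp (f := α) (g := fun z : ℂ => z ^ ((1 : ℂ) / 2)) h2 h1
  · rw [h0, Complex.zero_cpow (by norm_num)]

theorem L_one {y : ℝ} {X g L : ℂ → ℂ} {v₀ : ℂ} {vc : ℝ} (hX : Model y X v₀ vc)
    (hg : Lift v₀ g) (hL : LDiff v₀ X g L) :
    ∃ C r : ℝ, 0 < r ∧ (∀ v ∈ UH, ‖v - 1‖ < r → ‖L v‖ ≤ C) ∧ (∀ v ∈ UH, ‖v + 1‖ < r → ‖L v‖ ≤ C) := by
  have hA : ∃ C r : ℝ, 0 < r ∧ ∀ v ∈ UH, ‖v - ((-1 : ℝ) : ℂ)‖ < r → ‖L v‖ ≤ C := by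
    obtain ⟨r, hr, α, h1, h2, _, h4⟩ := hX.negOne
    have e : ((-1 : ℝ) : ℂ) = -1 := by simp
    obtain ⟨c1, c2, c3⟩ := r3_sqrt hr h1 h2 (fun v hv hvi => (h4 v hv hvi).1)
    refine r3_bdd hg hL le_rfl (by norm_num) hr (T := fun v => (α v) ^ ((1 : ℂ) / 2))
      (by rw [e]; exact c1) (by rw [e]; exact c2.tendsto.mono_left nhdsWithin_le_nhds)
      (by rw [e]; exact fun v hv hvi => (h4 v hv hvi).2)
  have hB : ∃ C r : ℝ, 0 < r ∧ ∀ v ∈ UH, ‖v - ((1 : ℝ) : ℂ)‖ < r → ‖L v‖ ≤ C := by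
    obtain ⟨r, hr, α, h1, h2, _, h4⟩ := hX.posOne
    have e : ((1 : ℝ) : ℂ) = 1 := by simp
    obtain ⟨c1, c2, c3⟩ := r3_sqrt hr h1 h2 (fun v hv hvi => (h4 v hv hvi).1)
    have h5 : ∀ᶠ v in 𝓝 (1 : ℂ), ‖(α v) ^ ((1 : ℂ) / 2)‖ < 1 := by
      have h6 := c2.norm
      refine h6.eventually_lt_const ?_
      show ‖(α 1) ^ ((1 : ℂ) / 2)‖ < 1
      rw [c3, norm_zero]
      exact one_pos
    obtain ⟨δ, hδ, h7⟩ := Metric.eventually_nhds_iff_ball.1 h5
    have hne : ∀ v ∈ ball (1 : ℂ) δ, 1 + I * (α v) ^ ((1 : ℂ) / 2) ≠ 0 := by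
      intro v hv h
      have h8 := h7 v hv
      have h9 : I * (α v) ^ ((1 : ℂ) / 2) = -1 := by linear_combination h
      have h10 : ‖I * (α v) ^ ((1 : ℂ) / 2)‖ = 1 := by rw [h9]; simp
      rw [norm_mul, Complex.norm_I, one_mul] at h10
      linarith
    have hm : 0 < min δ r := lt_min hδ hr
    have hcon : ContinuousOn (fun v => -1 / (1 + I * (α v) ^ ((1 : ℂ) / 2)))
        (ball (1 : ℂ) (min δ r) ∩ UH) := by
      refine continuousOn_const.div (continuousOn_const.add (continuousOn_const.mul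
        (c1.mono (inter_subset_inter_left _ (ball_subset_ball (min_le_right _ _)))))) ?_
      intro v hv
      exact hne v (ball_subset_ball (min_le_left _ _) hv.1)
    have hat : ContinuousAt (fun v => -1 / (1 + I * (α v) ^ ((1 : ℂ) / 2))) (1 : ℂ) :=
      continuousAt_const.div (continuousAt_const.add (continuousAt_const.mul c2))
        (hne _ (mem_ball_self hδ))
    exact r3_bdd hg hL (by norm_num) le_rfl hm
      (T := fun v => -1 / (1 + I * (α v) ^ ((1 : ℂ) / 2))) (by rw [e]; exact hcon)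
      (by rw [e]; exact hat.tendsto.mono_left nhdsWithin_le_nhds)
      (by rw [e]; exact fun v hv hvi => (h4 v (ball_subset_ball (min_le_right _ _) hv) hvi).2)
  obtain ⟨C₁, r₁, hr₁, hC₁⟩ := hA
  obtain ⟨C₂, r₂, hr₂, hC₂⟩ := hB
  refine ⟨max C₁ C₂, min r₁ r₂, lt_min hr₁ hr₂, ?_, ?_⟩
  · intro v hv h
    refine (hC₂ v hv ?_).trans (le_max_right _ _)
    simpa using h.trans_le (min_le_right _ _)
  · intro v hv h
    refine (hC₁ v hv ?_).trans (le_max_left _ _)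
    simpa using h.trans_le (min_le_left _ _)

/-- logarithmic bounds near a simple zero -/
lemma r3_log {X : ℂ → ℂ} {r : ℝ} {p : ℂ → ℂ} (h : InfData X r p) :
    ∃ C δ : ℝ, 0 ≤ C ∧ 0 < δ ∧ δ ≤ r ∧ ∀ u ∈ ball (0 : ℂ) δ, 0 < u.im →
      |Real.log ‖p u‖ - Real.log ‖u‖| ≤ C := by
  obtain ⟨κ, hκ, hd⟩ := h.deriv
  obtain ⟨c, C, δ, hc, hC, hδ, hδr, hb⟩ := r3_simple h.r_pos h.diff h.zero
    (by rw [hd]; exact_mod_cast hκ.ne')
  refine ⟨|Real.log c| + |Real.log C|, δ, by positivity, hδ, hδr, fun u hu hui => ?_⟩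
  obtain ⟨h1, h2, _, _⟩ := hb u hu
  rw [sub_zero] at h1 h2
  have hu0 : u ≠ 0 := fun h => by rw [h] at hui; simp at hui
  have hup : 0 < ‖u‖ := norm_pos_iff.2 hu0
  have h3 : 0 < c * ‖u‖ := mul_pos hc hup
  have h4 : 0 < ‖p u‖ := h3.trans_le h1
  have h5 := Real.log_le_log h3 h1
  have h6 := Real.log_le_log h4 h2
  rw [Real.log_mul hc.ne' hup.ne'] at h5
  rw [Real.log_mul hC.ne' hup.ne'] at h6
  rw [abs_le]
  have h7 := neg_abs_le (Real.log c)
  have h8 := le_abs_self (Real.log C)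
  have h9 := abs_nonneg (Real.log c)
  have h10 := abs_nonneg (Real.log C)
  constructor <;> linarith

theorem L_infty {y : ℝ} {X g L : ℂ → ℂ} {v₀ : ℂ} {vc : ℝ} (hX : Model y X v₀ vc)
    (hg : Lift v₀ g) (hL : LDiff v₀ X g L) :
    ∃ C R : ℝ, 1 < R ∧ ∀ v ∈ UH, R < ‖v‖ → ‖L v‖ ≤ C / Real.log ‖v‖ ^ 2 := by
  obtain ⟨r, pX, pg, iX, ig, he⟩ := hL.inf
  obtain ⟨A, δ, hA, hδ, hδr, hA'⟩ := r3_log iX
  obtain ⟨B, ε, hB, hε, hεr, hB'⟩ := r3_log ig
  have hm : 0 < min δ ε := lt_min hδ hε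
  set R := max (1 / min δ ε) (Real.exp (2 * (A + B) + 1)) with hR
  have hR1 : 1 < R := by
    refine lt_of_lt_of_le ?_ (le_max_right _ _)
    exact Real.one_lt_exp_iff.2 (by linarith)
  refine ⟨4 * Real.pi * (A + B + 2 * Real.pi), R, hR1, fun v hv hvR => ?_⟩
  have hv0 : v ≠ 0 := fun h => by
    have h3 : 0 < v.im := hv
    rw [h] at h3; simp at h3
  have hvp : 0 < ‖v‖ := norm_pos_iff.2 hv0
  set u := -1 / v with hu
  have huv : -1 / u = v := by rw [hu]; field_simp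
  have hui : 0 < u.im := r1_inv_im hv
  have hun : ‖u‖ = 1 / ‖v‖ := by rw [hu, norm_div, norm_neg, norm_one]
  have hum : ‖u‖ < min δ ε := by
    rw [hun, div_lt_iff₀ hvp]
    have h1 : 1 / min δ ε < ‖v‖ := lt_of_le_of_lt (le_max_left _ _) hvR
    rw [div_lt_iff₀ hm] at h1
    linarith
  have huδ : u ∈ ball (0 : ℂ) δ := by
    rw [mem_ball, dist_zero_right]; exact hum.trans_le (min_le_left _ _)
  have huε : u ∈ ball (0 : ℂ) ε := by
    rw [mem_ball, dist_zero_right]; exact hum.trans_le (min_le_right _ _)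
  have hur : u ∈ ball (0 : ℂ) r := ball_subset_ball hδr huδ
  have h1 := hA' u huδ hui
  have h2 := hB' u huε hui
  have hlu : Real.log ‖u‖ = -Real.log ‖v‖ := by
    rw [hun, one_div, Real.log_inv]
  rw [hlu] at h1 h2
  have hlv : 2 * (A + B) + 1 < Real.log ‖v‖ := by
    rw [Real.lt_log_iff_exp_lt hvp]
    exact lt_of_le_of_lt (le_max_right _ _) hvR
  set l := Real.log ‖v‖ with hl
  have hl0 : 0 < l := by linarith
  have hX1 : l / 2 ≤ ‖log (pX u)‖ := by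
    have h3 := Complex.abs_re_le_norm (log (pX u))
    rw [Complex.log_re] at h3
    rw [abs_le] at h1
    have h4 := neg_abs_le (Real.log ‖pX u‖)
    linarith [h1.2]
  have hg1 : l / 2 ≤ ‖log (pg u)‖ := by
    have h3 := Complex.abs_re_le_norm (log (pg u))
    rw [Complex.log_re] at h3
    rw [abs_le] at h2
    have h4 := neg_abs_le (Real.log ‖pg u‖)
    linarith [h2.2]
  have hX0 : log (pX u) ≠ 0 := norm_pos_iff.1 (lt_of_lt_of_le (by linarith) hX1)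
  have hg0 : log (pg u) ≠ 0 := norm_pos_iff.1 (lt_of_lt_of_le (by linarith) hg1)
  have h3 : L v = (Real.pi * I) * (log (pg u) - log (pX u)) / (log (pg u) * log (pX u)) := by
    have h4 := he u hur hui
    rw [huv] at h4
    rw [h4]
    field_simp
    ring
  have h4 : ‖log (pg u) - log (pX u)‖ ≤ A + B + 2 * Real.pi := by
    have h5 := Complex.norm_le_abs_re_add_abs_im (log (pg u) - log (pX u))
    rw [Complex.sub_re, Complex.sub_im, Complex.log_re, Complex.log_re, Complex.log_im,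
      Complex.log_im] at h5
    have h6 := Complex.abs_arg_le_pi (pg u)
    have h7 := Complex.abs_arg_le_pi (pX u)
    have h8 : |Real.log ‖pg u‖ - Real.log ‖pX u‖| ≤ A + B := by
      rw [abs_le] at h1 h2 ⊢
      constructor <;> linarith [h1.1, h1.2, h2.1, h2.2]
    have h9 : |arg (pg u) - arg (pX u)| ≤ |arg (pg u)| + |arg (pX u)| := abs_sub _ _
    linarith
  rw [h3, norm_div, norm_mul, norm_mul, norm_mul, Complex.norm_I, mul_one, Complex.norm_real,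
    Real.norm_eq_abs, abs_of_pos Real.pi_pos]
  rw [div_le_div_iff₀ (mul_pos (by linarith) (by linarith)) (by positivity)]
  have h5 : (l / 2) * (l / 2) ≤ ‖log (pg u)‖ * ‖log (pX u)‖ :=
    mul_le_mul hg1 hX1 (by linarith) (norm_nonneg _)
  have h6 : 0 ≤ A + B + 2 * Real.pi := by positivity
  have h7 : Real.pi * ‖log (pg u) - log (pX u)‖ * l ^ 2
      ≤ Real.pi * (A + B + 2 * Real.pi) * l ^ 2 := by
    gcongr
  have h8 : 4 * Real.pi * (A + B + 2 * Real.pi) * ((l / 2) * (l / 2))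
      ≤ 4 * Real.pi * (A + B + 2 * Real.pi) * (‖log (pg u)‖ * ‖log (pX u)‖) := by
    apply mul_le_mul_of_nonneg_left h5
    positivity
  have h9 : Real.pi * (A + B + 2 * Real.pi) * l ^ 2
      = 4 * Real.pi * (A + B + 2 * Real.pi) * ((l / 2) * (l / 2)) := by ring
  linarith

end Pool.Agent.Choc
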