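import Pool.Agent.Lib.MP_2b3e36_an.Ex.R1

/-!
R4. The multiplier
`Nf v = pi i * dslope X v₀ v * (v - vc) / ((1 - v^2) (v - conj v₀) X' v)`.

Let `K v = (v - vc)/((1 - v^2) (v - v₀)(v - conj v₀))`, real on the reals; `K > 0` on `(-1,1)`, `K < 0` on
`(1,∞)` (recall `vc < -1`). Where `X = nome τ` (`v ≠ v₀`): `X' = pi i τ' X`, so `Nf = K / τ'`.
slit: near real `x < -1`, `x ≠ vc`: `Nf = K/τ'` extends continuously to `x` with the value
`K x / τ' x`, purely imaginary (`τ` is imaginary on the reals, so is `τ'`). `x = vc`: `τ'` has a simple zero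
at `vc`, `(v - vc)/τ' → 1/τ'' (vc)`, and `τ'' (vc)` is purely imaginary.
arc: near `x > 1`: limit `K x / τ' x` with `τ' x = - κ i c`, `c = τ x + 1/2`, `|c| = 1/2`:
`1/(-i c) = i/c = 4 i conj c`, so the limit is `(4 K x/κ) i conj c = - μ i conj c`, `μ = - 4 K x/κ ≥ 0`.
free: limit `K x / κ > 0`.
near `-1`: `τ = α^(1/2)`, `τ' = α'/(2 α^(1/2))`, `|α v| ≤ C |v + 1|`, `|α'| ≥ c`: `1/|τ'| ≤ C |v+1|^(1/2)`,
and `|K| ≤ C/|v+1|`. near `1`: `τ = -1/(1 + iβ)`, `β = α^(1/2)`: `τ' = i β'/(1+iβ)^2`, the same bound.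
near infinity: `τ = - pi i/log p(u)`, `u = -1/v`: `dτ/dv = pi i p'(u)/(p(u) log^2 p(u)) * u^2` (as
`du/dv = 1/v^2 = u^2`), `|p(u)| ≤ C |u|`, `|p'| ≥ c`, `|log p|≤ C log |v|`, `|K| ≤ C |v|^(-3)`:
`|Nf| ≤ C |v|^(-3) |u| |log p|^2 |u|^(-2) = C (log |v|)^2 / |v|^2`.
`Nf_ne`: `dslope X v₀ v ≠ 0` on `UH` (`X v = 0` only at `v₀`, `deriv X v₀ ≠ 0`).
-/

set_option autoImplicit false

open Complex Set Filter Topology Metric

namespace Pool.Agent.Choc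

noncomputable def Nf (X : ℂ → ℂ) (v₀ : ℂ) (vc : ℝ) (v : ℂ) : ℂ :=
  Real.pi * I * dslope X v₀ v * (v - vc) / ((1 - v ^ 2) * (v - starRingEnd ℂ v₀) * deriv X v)

/-- the real factor without the zero at `vc` -/
noncomputable def r4_M (v₀ v : ℂ) : ℂ := 1 / ((1 - v ^ 2) * ((v - v₀) * (v - starRingEnd ℂ v₀)))

lemma r4_pi : (Real.pi : ℂ) * I ≠ 0 :=
  mul_ne_zero (by exact_mod_cast Real.pi_ne_zero) Complex.I_ne_zero

lemma r4_one_sub {v : ℂ} (hv : 0 < v.im) : 1 - v ^ 2 ≠ 0 := by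
  intro h
  have h1 : (1 - v) * (1 + v) = 0 := by rw [← h]; ring
  rcases mul_eq_zero.1 h1 with h2 | h2
  · have h3 : v = 1 := (sub_eq_zero.1 h2).symm
    rw [h3] at hv; simp at hv
  · have h3 : v = -1 := by linear_combination h2
    rw [h3] at hv; simp at hv

lemma r4_sub_conj {v₀ v : ℂ} (h0 : 0 < v₀.im) (hv : 0 ≤ v.im) : v - starRingEnd ℂ v₀ ≠ 0 := by
  intro h
  have h1 : (v - starRingEnd ℂ v₀).im = v.im + v₀.im := by simp
  rw [h] at h1
  simp at h1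
  linarith

lemma r4_sub_real {v₀ : ℂ} (h0 : 0 < v₀.im) (x : ℝ) : (x : ℂ) - v₀ ≠ 0 := by
  intro h
  have h1 : ((x : ℂ) - v₀).im = -v₀.im := by simp
  rw [h] at h1
  simp at h1
  linarith

/-- near a boundary point with an exponent -/
lemma r4_local {y : ℝ} {X : ℂ → ℂ} {v₀ : ℂ} {vc : ℝ} (hX : Model y X v₀ vc) {x : ℂ} {r : ℝ}
    {τ : ℂ → ℂ} (hτ : DifferentiableOn ℂ τ (ball x r))
    (he : ∀ v ∈ ball x r, 0 < v.im → X v = nome (τ v)) :
    ∀ v ∈ ball x r, 0 < v.im → deriv τ v ≠ 0 ∧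
      Nf X v₀ vc v = (v - vc) * r4_M v₀ v / deriv τ v := by
  intro v hv hvi
  have hXne : X v ≠ 0 := by rw [he v hv hvi]; exact r1_nome_ne _
  have hvv : v ≠ v₀ := fun h => hXne (by rw [h]; exact hX.zero)
  have hev : X =ᶠ[𝓝 v] fun w => nome (τ w) := by
    have h1 : ball x r ∈ 𝓝 v := isOpen_ball.mem_nhds hv
    have h2 : UH ∈ 𝓝 v := r1_open.mem_nhds hvi
    filter_upwards [h1, h2] with w hw1 hw2 using he w hw1 hw2
  have hdτ : HasDerivAt τ (deriv τ v) v :=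
    (hτ.differentiableAt (isOpen_ball.mem_nhds hv)).hasDerivAt
  have hd : deriv X v = nome (τ v) * (Real.pi * I * deriv τ v) := by
    rw [hev.deriv_eq]
    have h1 : HasDerivAt (fun w => nome (τ w)) (exp (Real.pi * I * τ v) * (Real.pi * I * deriv τ v)) v :=
      (hdτ.const_mul (Real.pi * I)).cexp
    exact h1.deriv
  have hτ0 : deriv τ v ≠ 0 := by
    intro h
    rw [h] at hd
    simp at hd
    exact hX.deriv_ne v hvi hd
  refine ⟨hτ0, ?_⟩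
  have h1 := r4_one_sub hvi
  have h2 := r4_sub_conj hX.v0_im hvi.le
  have h3 := sub_ne_zero.2 hvv
  have h4 := r1_nome_ne (τ v)
  have h5 := r4_pi
  unfold Nf r4_M
  rw [dslope_of_ne _ hvv, slope_def_field, hX.zero, sub_zero, hd, he v hv hvi]
  field_simp

/-- `r4_M` is continuous and real at real points off `1`, `-1` -/
lemma r4_M_cont {v₀ : ℂ} (h0 : 0 < v₀.im) {x : ℝ} (hx : 1 - x ^ 2 ≠ 0) :
    ContinuousAt (r4_M v₀) x := by
  have h1 : (1 : ℂ) - (x : ℂ) ^ 2 ≠ 0 := by exact_mod_cast hx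
  have h2 := r4_sub_real h0 x
  have h3 : (x : ℂ) - starRingEnd ℂ v₀ ≠ 0 := r4_sub_conj h0 (by simp)
  unfold r4_M
  refine continuousAt_const.div ?_ (mul_ne_zero h1 (mul_ne_zero h2 h3))
  fun_prop

lemma r4_M_real {v₀ : ℂ} (h0 : 0 < v₀.im) (x : ℝ) :
    ∃ m : ℝ, 0 < m ∧ r4_M v₀ x = ((m / (1 - x ^ 2) : ℝ) : ℂ) := by
  have h2 := r4_sub_real h0 x
  have hm : 0 < Complex.normSq ((x : ℂ) - v₀) := Complex.normSq_pos.2 h2
  refine ⟨(Complex.normSq ((x : ℂ) - v₀))⁻¹, inv_pos.2 hm, ?_⟩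
  have h3 : ((x : ℂ) - v₀) * ((x : ℂ) - starRingEnd ℂ v₀)
      = (Complex.normSq ((x : ℂ) - v₀) : ℂ) := by
    rw [← Complex.mul_conj]
    simp
  unfold r4_M
  rw [h3]
  push_cast
  rw [one_div, mul_inv, div_eq_mul_inv, mul_comm]

lemma r4_dcont {τ : ℂ → ℂ} {x : ℂ} {r : ℝ} (hr : 0 < r) (hτ : DifferentiableOn ℂ τ (ball x r)) :
    ContinuousAt (deriv τ) x := by
  have h1 : DifferentiableOn ℂ (deriv τ) (ball x r) := hτ.deriv isOpen_ball
  exact (h1.differentiableAt (ball_mem_nhds _ hr)).continuousAt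

/-- the limit at a point where the derivative of the exponent does not vanish -/
lemma r4_lim {y : ℝ} {X : ℂ → ℂ} {v₀ : ℂ} {vc : ℝ} (hX : Model y X v₀ vc) {x r : ℝ} (hr : 0 < r)
    {τ : ℂ → ℂ} (hτ : DifferentiableOn ℂ τ (ball (x : ℂ) r))
    (he : ∀ v ∈ ball (x : ℂ) r, 0 < v.im → X v = nome (τ v)) (hx : 1 - x ^ 2 ≠ 0)
    (hd : deriv τ x ≠ 0) :
    Tendsto (Nf X v₀ vc) (𝓝[UH] (x : ℂ))
      (𝓝 (((x : ℂ) - vc) * r4_M v₀ x / deriv τ x)) := by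
  have h1 : ContinuousAt (fun v : ℂ => (v - vc) * r4_M v₀ v / deriv τ v) x :=
    ((continuousAt_id.sub continuousAt_const).mul (r4_M_cont hX.v0_im hx)).div
      (r4_dcont hr hτ) hd
  refine (h1.tendsto.mono_left nhdsWithin_le_nhds).congr' ?_
  have h2 : ball (x : ℂ) r ∈ 𝓝[UH] (x : ℂ) := mem_nhdsWithin_of_mem_nhds (ball_mem_nhds _ hr)
  filter_upwards [h2, self_mem_nhdsWithin] with v hv1 hv2
  exact (r4_local hX hτ he v hv1 hv2).2.symm

lemma r4_mem {x r u : ℝ} (hu : |u - x| < r) : (u : ℂ) ∈ ball (x : ℂ) r := by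
  rw [mem_ball, dist_eq_norm, ← Complex.ofReal_sub, Complex.norm_real, Real.norm_eq_abs]
  exact hu

/-- the derivative of a function which is imaginary on the reals is imaginary -/
lemma r4_deriv_re {τ : ℂ → ℂ} {x r : ℝ} (hr : 0 < r)
    (hd : DifferentiableAt ℂ τ x)
    (hre : ∀ u : ℝ, (u : ℂ) ∈ ball (x : ℂ) r → (τ u).re = 0) : (deriv τ x).re = 0 := by
  have h1 : HasDerivAt (fun u : ℝ => τ u) (deriv τ x) x := hd.hasDerivAt.comp_ofReal
  have h2 : HasDerivAt (fun u : ℝ => (τ u).re) (deriv τ x).re x := by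
    have := (Complex.reCLM.hasFDerivAt (x := τ x)).comp_hasDerivAt x h1
    exact this
  have h3 : (fun u : ℝ => (τ u).re) =ᶠ[𝓝 x] fun _ => 0 := by
    filter_upwards [ball_mem_nhds x hr] with u hu
    exact hre u (r4_mem (by rwa [mem_ball, Real.dist_eq] at hu))
  have h4 := h3.hasDerivAt_iff.1 h2
  exact h4.unique (hasDerivAt_const _ _)

theorem Nf_diff {y : ℝ} {X : ℂ → ℂ} {v₀ : ℂ} {vc : ℝ} (hX : Model y X v₀ vc) :
    DifferentiableOn ℂ (Nf X v₀ vc) UH := by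
  have hnhds : UH ∈ 𝓝 v₀ := r1_open.mem_nhds hX.v0_im
  have hdX : DifferentiableOn ℂ (dslope X v₀) UH :=
    (Complex.differentiableOn_dslope hnhds).2 hX.diff
  have hdd : DifferentiableOn ℂ (deriv X) UH := hX.diff.deriv r1_open
  have h1 : DifferentiableOn ℂ (fun v : ℂ => Real.pi * I * dslope X v₀ v * (v - vc)) UH := by
    refine (hdX.const_mul _).mul ?_
    fun_prop
  have h2 : DifferentiableOn ℂ (fun v : ℂ => (1 - v ^ 2) * (v - starRingEnd ℂ v₀) * deriv X v) UH := by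
    refine DifferentiableOn.mul ?_ hdd
    fun_prop
  refine h1.div h2 ?_
  intro v hv
  exact mul_ne_zero (mul_ne_zero (r4_one_sub hv) (r4_sub_conj hX.v0_im (le_of_lt hv)))
    (hX.deriv_ne v hv)

theorem Nf_ne {y : ℝ} {X : ℂ → ℂ} {v₀ : ℂ} {vc : ℝ} (hX : Model y X v₀ vc) :
    ∀ v ∈ UH, Nf X v₀ vc v ≠ 0 := by
  intro v hv
  have hXz : ∀ v ∈ UH, X v = 0 → v = v₀ := fun v hv h =>
    hX.inj hv hX.v0_im (h.trans hX.zero.symm)
  have hvi : 0 < v.im := hv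
  have h1 : v - (vc : ℂ) ≠ 0 := by
    intro h
    have h2 : (v - (vc : ℂ)).im = v.im := by simp
    rw [h] at h2
    simp at h2
    linarith
  unfold Nf
  exact div_ne_zero (mul_ne_zero (mul_ne_zero r4_pi
    (r1_dslope hX.zero hXz (hX.deriv_ne v₀ hX.v0_im) v hv)) h1)
    (mul_ne_zero (mul_ne_zero (r4_one_sub hvi) (r4_sub_conj hX.v0_im hvi.le))
      (hX.deriv_ne v hv))

lemma r4_re_div {a : ℝ} {z : ℂ} (hz : z.re = 0) : ((a : ℂ) / z).re = 0 := by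
  rw [Complex.div_re, hz]
  simp

theorem Nf_slit {y : ℝ} {X : ℂ → ℂ} {v₀ : ℂ} {vc : ℝ} (hX : Model y X v₀ vc) {x : ℝ}
    (hx : x < -1) : ∃ ν : ℂ, ν.re = 0 ∧ Tendsto (Nf X v₀ vc) (𝓝[UH] (x : ℂ)) (𝓝 ν) := by
  obtain ⟨r, hr, τ, h1, h2, h3, h4, h5⟩ := hX.slit x hx
  obtain ⟨m, hm, hM⟩ := r4_M_real hX.v0_im x
  have hx2 : 1 - x ^ 2 ≠ 0 := by nlinarith
  have hre : ∀ u : ℝ, (u : ℂ) ∈ ball (x : ℂ) r → (deriv τ u).re = 0 := by
    intro u hu
    have hu' : |u - x| < r := by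
      rw [mem_ball, dist_eq_norm, ← Complex.ofReal_sub, Complex.norm_real,
        Real.norm_eq_abs] at hu
      exact hu
    refine r4_deriv_re (r := r - |u - x|) (by linarith)
      (h1.differentiableAt (isOpen_ball.mem_nhds hu)) ?_
    intro w hw
    refine (h3 w (r4_mem ?_)).1
    rw [mem_ball, dist_eq_norm, ← Complex.ofReal_sub, Complex.norm_real,
      Real.norm_eq_abs] at hw
    have h6 : |w - x| ≤ |w - u| + |u - x| := abs_sub_le _ _ _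
    linarith
  by_cases hxv : x = vc
  · obtain ⟨h6, h7, _⟩ := h5 hxv
    have hd2 : HasDerivAt (deriv τ) (deriv (deriv τ) x) x :=
      ((h1.deriv isOpen_ball).differentiableAt (ball_mem_nhds _ hr)).hasDerivAt
    have h8 : (deriv (deriv τ) x).re = 0 := r4_deriv_re hr hd2.differentiableAt hre
    refine ⟨r4_M v₀ x / deriv (deriv τ) x, by rw [hM]; exact r4_re_div h8, ?_⟩
    have h9 : Tendsto (slope (deriv τ) x) (𝓝[≠] (x : ℂ)) (𝓝 (deriv (deriv τ) x)) :=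
      hasDerivAt_iff_tendsto_slope.1 hd2
    have hle : 𝓝[UH] (x : ℂ) ≤ 𝓝[≠] (x : ℂ) := by
      apply nhdsWithin_mono
      intro v hv h
      have h10 : v = x := h
      have h11 : 0 < v.im := hv
      rw [h10] at h11; simp at h11
    have h10 := h9.mono_left hle
    have h11 := ((r4_M_cont hX.v0_im hx2).tendsto.mono_left
      (nhdsWithin_le_nhds (s := UH))).div h10 h7
    refine h11.congr' ?_
    have h12 : ball (x : ℂ) r ∈ 𝓝[UH] (x : ℂ) := mem_nhdsWithin_of_mem_nhds (ball_mem_nhds _ hr)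
    filter_upwards [h12, self_mem_nhdsWithin] with v hv1 hv2
    obtain ⟨h13, h14⟩ := r4_local hX h1 h2 v hv1 hv2
    have h15 : v - (x : ℂ) ≠ 0 := by
      intro h
      have h16 : (v - (x : ℂ)).im = v.im := by simp
      have h17 : 0 < v.im := hv2
      rw [h] at h16
      simp at h16
      linarith
    rw [h14, ← hxv]
    show r4_M v₀ v / slope (deriv τ) (x : ℂ) v = _
    rw [slope_def_field, h6, sub_zero]
    field_simp
  · refine ⟨_, ?_, r4_lim hX hr h1 h2 hx2 (h4 hxv)⟩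
    have h6 : ((x : ℂ) - vc) * r4_M v₀ x = (((x - vc) * (m / (1 - x ^ 2)) : ℝ) : ℂ) := by
      rw [hM]; push_cast; ring
    rw [h6]
    exact r4_re_div (hre x (mem_ball_self hr))

theorem Nf_arc {y : ℝ} {X : ℂ → ℂ} {v₀ : ℂ} {vc : ℝ} (hX : Model y X v₀ vc) {x : ℝ}
    (hx : 1 < x) : ∃ τ ∈ Sig, ∃ μ : ℝ, 0 ≤ μ ∧ Tendsto X (𝓝[UH] (x : ℂ)) (𝓝 (nome τ)) ∧
      Tendsto (Nf X v₀ vc) (𝓝[UH] (x : ℂ)) (𝓝 (-(μ * I) * starRingEnd ℂ (τ + 1 / 2))) := by
  obtain ⟨r, hr, τ, h1, h2, h3, κ, hκ, h4⟩ := hX.arc x hx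
  obtain ⟨m, hm, hM⟩ := r4_M_real hX.v0_im x
  have hx2 : 1 - x ^ 2 < 0 := by nlinarith
  have hS : τ x ∈ Sig := h3 x (mem_ball_self hr)
  have hc : Complex.normSq (τ x + 1 / 2) = 1 / 4 := by
    rw [Complex.normSq_eq_norm_sq, hS.2]; norm_num
  have hc2 : (τ x + 1 / 2) * starRingEnd ℂ (τ x + 1 / 2) = 1 / 4 := by
    rw [Complex.mul_conj, hc]; norm_num
  have hc0 : τ x + 1 / 2 ≠ 0 := by
    intro h
    rw [h] at hc2
    norm_num at hc2
  have hκ0 : (κ : ℂ) ≠ 0 := by exact_mod_cast hκ.ne'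
  have hd : deriv τ x ≠ 0 := by
    rw [h4]
    exact mul_ne_zero (neg_ne_zero.2 (mul_ne_zero hκ0 Complex.I_ne_zero)) hc0
  have hvc := hX.vc_lt
  refine ⟨τ x, hS, -(4 * ((x - vc) * (m / (1 - x ^ 2))) / κ), ?_, ?_, ?_⟩
  · have h5 : m / (1 - x ^ 2) ≤ 0 := div_nonpos_of_nonneg_of_nonpos hm.le hx2.le
    have h6 : (x - vc) * (m / (1 - x ^ 2)) ≤ 0 :=
      mul_nonpos_of_nonneg_of_nonpos (by linarith) h5
    have h7 : 4 * ((x - vc) * (m / (1 - x ^ 2))) / κ ≤ 0 :=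
      div_nonpos_of_nonpos_of_nonneg (by linarith) hκ.le
    linarith
  · have hnome : Continuous nome := by
      unfold nome
      exact Complex.continuous_exp.comp (continuous_const.mul continuous_id)
    have h5 : Tendsto τ (𝓝[UH] (x : ℂ)) (𝓝 (τ x)) :=
      ((h1.differentiableAt (ball_mem_nhds _ hr)).continuousAt.tendsto).mono_left
        nhdsWithin_le_nhds
    refine ((hnome.tendsto _).comp h5).congr' ?_
    have h6 : ball (x : ℂ) r ∈ 𝓝[UH] (x : ℂ) := mem_nhdsWithin_of_mem_nhds (ball_mem_nhds _ hr)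
    filter_upwards [h6, self_mem_nhdsWithin] with v hv1 hv2
    exact (h2 v hv1 hv2).symm
  · have h5 := r4_lim hX hr h1 h2 hx2.ne hd
    have h6 : ((x : ℂ) - vc) * r4_M v₀ x / deriv τ x
        = -(((-(4 * ((x - vc) * (m / (1 - x ^ 2))) / κ) : ℝ) : ℂ) * I)
          * starRingEnd ℂ (τ x + 1 / 2) := by
      have h7 : ((x : ℂ) - vc) * r4_M v₀ x = (((x - vc) * (m / (1 - x ^ 2)) : ℝ) : ℂ) := by
        rw [hM]; push_cast; ring
      rw [h7, h4]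
      have h8 : starRingEnd ℂ (τ x + 1 / 2) = 1 / (4 * (τ x + 1 / 2)) := by
        rw [eq_div_iff (mul_ne_zero (by norm_num) hc0)]
        linear_combination 4 * hc2
      rw [h8]
      generalize (x - vc) * (m / (1 - x ^ 2)) = A
      rw [Complex.ofReal_neg, Complex.ofReal_div, Complex.ofReal_mul]
      push_cast
      have hI := Complex.I_ne_zero
      field_simp
      rw [Complex.I_sq]
      ring
    rw [h6] at h5
    exact h5

theorem Nf_free {y : ℝ} {X : ℂ → ℂ} {v₀ : ℂ} {vc : ℝ} (hX : Model y X v₀ vc) {x : ℝ}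
    (hx : -1 < x) (hx' : x < 1) :
    ∃ ν : ℝ, 0 < ν ∧ Tendsto (Nf X v₀ vc) (𝓝[UH] (x : ℂ)) (𝓝 (ν : ℂ)) := by
  obtain ⟨r, hr, τ, h1, h2, h3, _, κ, hκ, h4⟩ := hX.free x hx hx'
  obtain ⟨m, hm, hM⟩ := r4_M_real hX.v0_im x
  have hx2 : 0 < 1 - x ^ 2 := by nlinarith
  have hκ0 : (κ : ℂ) ≠ 0 := by exact_mod_cast hκ.ne'
  have hvc := hX.vc_lt
  have h5 := r4_lim hX hr h1 h2 hx2.ne' (by rw [h4]; exact hκ0)
  refine ⟨(x - vc) * (m / (1 - x ^ 2)) / κ, ?_, ?_⟩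
  · exact div_pos (mul_pos (by linarith) (div_pos hm hx2)) hκ
  · rw [hM, h4] at h5
    have h6 : (((x - vc) * (m / (1 - x ^ 2)) / κ : ℝ) : ℂ)
        = ((x : ℂ) - vc) * ((m / (1 - x ^ 2) : ℝ) : ℂ) / κ := by push_cast; ring
    rw [h6]
    exact h5

end Pool.Agent.Choc
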