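import Pool.Agent.Lib.MP_2b3e36_an.Ex.R3
import Pool.Agent.Lib.MP_2b3e36_an.Ex.R4

/-!
R5. Bounds for the multiplier near `±1` and near infinity. Proof: see the head of R4.
-/

set_option autoImplicit false

open Complex Set Filter Topology Metric

namespace Pool.Agent.Choc

/-- the formula for the multiplier at a point near which `X` has an exponent -/
lemma r5_local {y : ℝ} {X : ℂ → ℂ} {v₀ : ℂ} {vc : ℝ} (hX : Model y X v₀ vc) {v d : ℂ}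
    {τ : ℂ → ℂ} (hv : v ∈ UH) (hτ : HasDerivAt τ d v)
    (he : X =ᶠ[𝓝 v] fun w => nome (τ w)) :
    d ≠ 0 ∧ Nf X v₀ vc v = (v - vc) * r4_M v₀ v / d := by
  have hvi : 0 < v.im := hv
  have hXne : X v ≠ 0 := by rw [he.self_of_nhds]; exact r1_nome_ne _
  have hvv : v ≠ v₀ := fun h => hXne (by rw [h]; exact hX.zero)
  have hd : deriv X v = nome (τ v) * (Real.pi * I * d) := by
    rw [he.deriv_eq]
    have h1 : HasDerivAt (fun w => nome (τ w)) (exp (Real.pi * I * τ v) * (Real.pi * I * d)) v :=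
      (hτ.const_mul (Real.pi * I)).cexp
    exact h1.deriv
  have hτ0 : d ≠ 0 := by
    intro h
    rw [h] at hd
    simp at hd
    exact hX.deriv_ne v hv hd
  refine ⟨hτ0, ?_⟩
  have h1 := r4_one_sub hvi
  have h2 := r4_sub_conj hX.v0_im hvi.le
  have h3 := sub_ne_zero.2 hvv
  have h4 := r1_nome_ne (τ v)
  have h5 := r4_pi
  unfold Nf r4_M
  rw [dslope_of_ne _ hvv, slope_def_field, hX.zero, sub_zero, hd, he.self_of_nhds]
  field_simp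

/-- bound at a corner -/
lemma r5_corner {y : ℝ} {X : ℂ → ℂ} {v₀ : ℂ} {vc : ℝ} (hX : Model y X v₀ vc) {x : ℝ}
    (hx : x ^ 2 = 1) {δ A : ℝ} (hδ : 0 < δ) (hA : 0 < A)
    (h : ∀ v ∈ ball (x : ℂ) δ, 0 < v.im → ∃ (τ : ℂ → ℂ) (d : ℂ), HasDerivAt τ d v ∧
      (X =ᶠ[𝓝 v] fun w => nome (τ w)) ∧ A ≤ ‖d‖ * Real.sqrt ‖v - x‖) :
    ∃ C r : ℝ, 0 < r ∧ ∀ v ∈ UH, ‖v - x‖ < r →
      ‖Nf X v₀ vc v‖ ≤ C * ‖v - x‖ ^ (-(1 : ℝ) / 2) := by
  have hx0 : x ≠ 0 := fun h => by rw [h] at hx; norm_num at hx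
  let G : ℂ → ℂ := fun v => (v - vc) / ((v + x) * ((v - v₀) * (v - starRingEnd ℂ v₀)))
  have hG : ContinuousAt G x := by
    have h1 : (x : ℂ) + x ≠ 0 := by
      rw [← two_mul]
      exact mul_ne_zero two_ne_zero (by exact_mod_cast hx0)
    have h2 := r4_sub_real hX.v0_im x
    have h3 : (x : ℂ) - starRingEnd ℂ v₀ ≠ 0 := r4_sub_conj hX.v0_im (by simp)
    refine ContinuousAt.div (by fun_prop) (by fun_prop) (mul_ne_zero h1 (mul_ne_zero h2 h3))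
  have h1 : ∀ᶠ v in 𝓝 (x : ℂ), ‖G v‖ < ‖G x‖ + 1 :=
    hG.norm.eventually_lt_const (by linarith)
  obtain ⟨ρ, hρ, h2⟩ := Metric.eventually_nhds_iff_ball.1 h1
  refine ⟨(‖G x‖ + 1) / A, min ρ δ, lt_min hρ hδ, fun v hv hvr => ?_⟩
  have hvi : 0 < v.im := hv
  have hvb : ∀ ε, min ρ δ ≤ ε → v ∈ ball (x : ℂ) ε := fun ε hε => by
    rw [mem_ball, dist_eq_norm]; exact hvr.trans_le hε
  obtain ⟨τ, d, h3, h4, h5⟩ := h v (hvb _ (min_le_right _ _)) hvi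
  obtain ⟨h6, h7⟩ := r5_local hX hv h3 h4
  have h8 := h2 v (hvb _ (min_le_left _ _))
  have hvx : v - (x : ℂ) ≠ 0 := by
    intro h
    have h9 : (v - (x : ℂ)).im = v.im := by simp
    rw [h] at h9
    simp at h9
    linarith
  have hvp : 0 < ‖v - (x : ℂ)‖ := norm_pos_iff.2 hvx
  have hsp : 0 < Real.sqrt ‖v - (x : ℂ)‖ := Real.sqrt_pos.2 hvp
  have hd : 0 < ‖d‖ := norm_pos_iff.2 h6
  have h9 : (v - vc) * r4_M v₀ v = -(G v / (v - x)) := by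
    have e1 : (1 : ℂ) - v ^ 2 = -((v - x) * (v + x)) := by
      have e2 : (x : ℂ) ^ 2 = 1 := by exact_mod_cast hx
      linear_combination (-1 : ℂ) * e2
    have e2 : v + (x : ℂ) ≠ 0 := by
      intro h
      have h9 : (v + (x : ℂ)).im = v.im := by simp
      rw [h] at h9
      simp at h9
      linarith
    show (v - vc) * (1 / ((1 - v ^ 2) * ((v - v₀) * (v - starRingEnd ℂ v₀))))
      = -((v - vc) / ((v + x) * ((v - v₀) * (v - starRingEnd ℂ v₀))) / (v - x))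
    rw [e1]
    by_cases e3 : v - v₀ = 0
    · rw [e3]; simp
    · have e4 := r4_sub_conj hX.v0_im hvi.le
      field_simp
  have h10 : ‖Nf X v₀ vc v‖ = ‖G v‖ / ‖v - x‖ / ‖d‖ := by
    rw [h7, h9, norm_div, norm_neg, norm_div]
  have h11 : ‖v - (x : ℂ)‖ ^ (-(1 : ℝ) / 2) = 1 / Real.sqrt ‖v - (x : ℂ)‖ := by
    rw [neg_div, Real.rpow_neg hvp.le, ← Real.sqrt_eq_rpow, one_div]
  rw [h10, h11]
  have h12 : ‖v - (x : ℂ)‖ = Real.sqrt ‖v - (x : ℂ)‖ * Real.sqrt ‖v - (x : ℂ)‖ :=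
    (Real.mul_self_sqrt hvp.le).symm
  set s := Real.sqrt ‖v - (x : ℂ)‖ with hs
  rw [h12, div_div, div_mul_div_comm, mul_one]
  rw [div_le_div_iff₀ (by positivity) (by positivity)]
  have h13 : ‖G v‖ * A ≤ (‖G x‖ + 1) * (‖d‖ * s) :=
    mul_le_mul h8.le h5 hA.le (by positivity)
  calc ‖G v‖ * (A * s) = (‖G v‖ * A) * s := by ring
    _ ≤ ((‖G x‖ + 1) * (‖d‖ * s)) * s := by gcongr
    _ = (‖G x‖ + 1) * (s * s * ‖d‖) := by ring

/-- the square root at a corner -/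
lemma r5_sqrt {a : ℂ} {r : ℝ} {α : ℂ → ℂ} (hr : 0 < r) (hα : DifferentiableOn ℂ α (ball a r))
    (h0 : α a = 0) (hd : deriv α a ≠ 0) (him : ∀ v ∈ ball a r, 0 < v.im → 0 < (α v).im) :
    ∃ A δ : ℝ, 0 < A ∧ 0 < δ ∧ δ ≤ r ∧ ∀ v ∈ ball a δ, 0 < v.im → ∃ b : ℂ,
      HasDerivAt (fun w => (α w) ^ ((1 : ℂ) / 2)) b v ∧ ‖(α v) ^ ((1 : ℂ) / 2)‖ < 1 ∧
      A ≤ ‖b‖ * Real.sqrt ‖v - a‖ := by
  obtain ⟨c, C, δ, hc, hC, hδ, hδr, hb⟩ := r3_simple hr hα h0 hd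
  obtain ⟨_, c2, c3⟩ := r3_sqrt hr hα h0 him
  have h5 : ∀ᶠ v in 𝓝 a, ‖(α v) ^ ((1 : ℂ) / 2)‖ < 1 := by
    refine c2.norm.eventually_lt_const ?_
    show ‖(α a) ^ ((1 : ℂ) / 2)‖ < 1
    rw [c3, norm_zero]
    exact one_pos
  obtain ⟨ε, hε, h7⟩ := Metric.eventually_nhds_iff_ball.1 h5
  refine ⟨c / (2 * Real.sqrt C), min δ ε, by positivity, lt_min hδ hε,
    (min_le_left _ _).trans hδr, fun v hv hvi => ?_⟩
  have hvδ : v ∈ ball a δ := ball_subset_ball (min_le_left _ _) hv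
  have hvr : v ∈ ball a r := ball_subset_ball hδr hvδ
  obtain ⟨h8, h9, h10, h11⟩ := hb v hvδ
  have hαv : HasDerivAt α (deriv α v) v :=
    (hα.differentiableAt (isOpen_ball.mem_nhds hvr)).hasDerivAt
  have h12 := hαv.cpow_const (c := (1 : ℂ) / 2) (r1_slitPlane (him v hvr hvi))
  refine ⟨_, h12, h7 v (ball_subset_ball (min_le_right _ _) hv), ?_⟩
  have hα0 : α v ≠ 0 := Complex.slitPlane_ne_zero (r1_slitPlane (him v hvr hvi))
  have h13 : ‖(α v) ^ ((1 : ℂ) / 2 - 1)‖ = 1 / Real.sqrt ‖α v‖ := by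
    have e : (1 : ℂ) / 2 - 1 = ((-(1 / 2) : ℝ) : ℂ) := by push_cast; norm_num
    rw [e, Complex.norm_cpow_real, Real.rpow_neg (norm_nonneg _), ← Real.sqrt_eq_rpow, one_div]
  have h14 : ‖(1 : ℂ) / 2 * (α v) ^ ((1 : ℂ) / 2 - 1) * deriv α v‖
      = ‖deriv α v‖ / (2 * Real.sqrt ‖α v‖) := by
    rw [norm_mul, norm_mul, h13]
    norm_num
    ring
  rw [h14]
  have hap : 0 < ‖α v‖ := norm_pos_iff.2 hα0
  have hsa : 0 < Real.sqrt ‖α v‖ := Real.sqrt_pos.2 hap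
  have hsC : 0 < Real.sqrt C := Real.sqrt_pos.2 hC
  have h15 : Real.sqrt ‖α v‖ ≤ Real.sqrt C * Real.sqrt ‖v - a‖ := by
    rw [← Real.sqrt_mul hC.le]
    exact Real.sqrt_le_sqrt h9
  rw [div_mul_eq_mul_div, div_le_div_iff₀ (by positivity) (by positivity)]
  calc c * (2 * Real.sqrt ‖α v‖) ≤ ‖deriv α v‖ * (2 * (Real.sqrt C * Real.sqrt ‖v - a‖)) :=
        mul_le_mul h10 (by linarith) (by positivity) (norm_nonneg _)
    _ = ‖deriv α v‖ * Real.sqrt ‖v - a‖ * (2 * Real.sqrt C) := by ring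

theorem Nf_one {y : ℝ} {X : ℂ → ℂ} {v₀ : ℂ} {vc : ℝ} (hX : Model y X v₀ vc) :
    ∃ C r : ℝ, 0 < r ∧
      (∀ v ∈ UH, ‖v - 1‖ < r → ‖Nf X v₀ vc v‖ ≤ C * ‖v - 1‖ ^ (-(1 : ℝ) / 2)) ∧
      (∀ v ∈ UH, ‖v + 1‖ < r → ‖Nf X v₀ vc v‖ ≤ C * ‖v + 1‖ ^ (-(1 : ℝ) / 2)) := by
  have hA : ∃ C r : ℝ, 0 < r ∧ ∀ v ∈ UH, ‖v - ((-1 : ℝ) : ℂ)‖ < r →
      ‖Nf X v₀ vc v‖ ≤ C * ‖v - ((-1 : ℝ) : ℂ)‖ ^ (-(1 : ℝ) / 2) := by
    obtain ⟨r, hr, α, h1, h2, ⟨κ, hκ, h3⟩, h4⟩ := hX.negOne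
    have e : ((-1 : ℝ) : ℂ) = -1 := by simp
    obtain ⟨A, δ, hA, hδ, hδr, h5⟩ := r5_sqrt hr h1 h2 (by rw [h3]; exact_mod_cast hκ.ne')
      (fun v hv hvi => (h4 v hv hvi).1)
    refine r5_corner hX (by norm_num) hδ hA ?_
    rw [e]
    intro v hv hvi
    obtain ⟨b, h6, _, h7⟩ := h5 v hv hvi
    refine ⟨_, b, h6, ?_, h7⟩
    have h8 : ball (-1 : ℂ) r ∈ 𝓝 v := isOpen_ball.mem_nhds (ball_subset_ball hδr hv)
    have h9 : UH ∈ 𝓝 v := r1_open.mem_nhds hvi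
    filter_upwards [h8, h9] with w hw1 hw2 using (h4 w hw1 hw2).2
  have hB : ∃ C r : ℝ, 0 < r ∧ ∀ v ∈ UH, ‖v - ((1 : ℝ) : ℂ)‖ < r →
      ‖Nf X v₀ vc v‖ ≤ C * ‖v - ((1 : ℝ) : ℂ)‖ ^ (-(1 : ℝ) / 2) := by
    obtain ⟨r, hr, α, h1, h2, ⟨κ, hκ, h3⟩, h4⟩ := hX.posOne
    have e : ((1 : ℝ) : ℂ) = 1 := by simp
    obtain ⟨A, δ, hA, hδ, hδr, h5⟩ := r5_sqrt hr h1 h2 (by rw [h3]; exact_mod_cast hκ.ne')
      (fun v hv hvi => (h4 v hv hvi).1)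
    refine r5_corner hX (by norm_num) hδ (A := A / 4) (by positivity) ?_
    rw [e]
    intro v hv hvi
    obtain ⟨b, h6, h6', h7⟩ := h5 v hv hvi
    have h8 : ball (1 : ℂ) r ∈ 𝓝 v := isOpen_ball.mem_nhds (ball_subset_ball hδr hv)
    have h9 : UH ∈ 𝓝 v := r1_open.mem_nhds hvi
    set q := (α v) ^ ((1 : ℂ) / 2) with hq
    have hne : 1 + I * q ≠ 0 := by
      intro h
      have h10 : I * q = -1 := by linear_combination h
      have h11 : ‖I * q‖ = 1 := by rw [h10]; simp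
      rw [norm_mul, Complex.norm_I, one_mul] at h11
      linarith
    have h10 : HasDerivAt (fun w => -1 / (1 + I * (α w) ^ ((1 : ℂ) / 2)))
        ((0 * (1 + I * q) - (-1) * (I * b)) / (1 + I * q) ^ 2) v := by
      have h11 : HasDerivAt (fun w => 1 + I * (α w) ^ ((1 : ℂ) / 2)) (I * b) v :=
        (h6.const_mul I).const_add 1
      exact (hasDerivAt_const v (-1 : ℂ)).fun_div h11 hne
    refine ⟨_, _, h10, ?_, ?_⟩
    · filter_upwards [h8, h9] with w hw1 hw2 using (h4 w hw1 hw2).2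
    · have h11 : ‖(0 * (1 + I * q) - (-1) * (I * b)) / (1 + I * q) ^ 2‖
          = ‖b‖ / ‖1 + I * q‖ ^ 2 := by
        rw [norm_div, norm_pow]
        congr 1
        have : 0 * (1 + I * q) - (-1) * (I * b) = I * b := by ring
        rw [this, norm_mul, Complex.norm_I, one_mul]
      rw [h11]
      have h12 : ‖1 + I * q‖ ≤ 2 := by
        calc ‖1 + I * q‖ ≤ ‖(1 : ℂ)‖ + ‖I * q‖ := norm_add_le _ _
          _ = 1 + ‖q‖ := by rw [norm_one, norm_mul, Complex.norm_I, one_mul]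
          _ ≤ 2 := by linarith
      have h13 : 0 < ‖1 + I * q‖ := norm_pos_iff.2 hne
      have h14 : ‖1 + I * q‖ ^ 2 ≤ 4 := by nlinarith
      have h15 : ‖b‖ / 4 ≤ ‖b‖ / ‖1 + I * q‖ ^ 2 :=
        div_le_div_of_nonneg_left (norm_nonneg _) (by positivity) h14
      calc A / 4 ≤ ‖b‖ * Real.sqrt ‖v - 1‖ / 4 := by linarith
        _ = ‖b‖ / 4 * Real.sqrt ‖v - 1‖ := by ring
        _ ≤ ‖b‖ / ‖1 + I * q‖ ^ 2 * Real.sqrt ‖v - 1‖ :=
          mul_le_mul_of_nonneg_right h15 (Real.sqrt_nonneg _)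
  obtain ⟨C₁, r₁, hr₁, hC₁⟩ := hA
  obtain ⟨C₂, r₂, hr₂, hC₂⟩ := hB
  have e1 : ∀ v : ℂ, v - ((-1 : ℝ) : ℂ) = v + 1 := fun v => by push_cast; ring
  have e2 : ∀ v : ℂ, v - ((1 : ℝ) : ℂ) = v - 1 := fun v => by push_cast; ring
  refine ⟨max C₁ C₂, min r₁ r₂, lt_min hr₁ hr₂, ?_, ?_⟩
  · intro v hv h
    have h1 := hC₂ v hv (by rw [e2]; exact h.trans_le (min_le_right _ _))
    rw [e2] at h1
    exact h1.trans (mul_le_mul_of_nonneg_right (le_max_right _ _)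
      (Real.rpow_nonneg (norm_nonneg _) _))
  · intro v hv h
    have h1 := hC₁ v hv (by rw [e1]; exact h.trans_le (min_le_left _ _))
    rw [e1] at h1
    exact h1.trans (mul_le_mul_of_nonneg_right (le_max_left _ _)
      (Real.rpow_nonneg (norm_nonneg _) _))

theorem Nf_infty {y : ℝ} {X : ℂ → ℂ} {v₀ : ℂ} {vc : ℝ} (hX : Model y X v₀ vc) :
    ∃ C R : ℝ, 1 < R ∧ ∀ v ∈ UH, R < ‖v‖ →
      ‖Nf X v₀ vc v‖ ≤ C * Real.log ‖v‖ ^ 2 / ‖v‖ ^ 2 := by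
  obtain ⟨r, hr, p, hp1, hp2, ⟨κ, hκ, hp3⟩, hp4, hp5⟩ := hX.infty
  have iX : InfData X r p := ⟨hr, hp1, hp2, ⟨κ, hκ, hp3⟩, hp4, hp5⟩
  obtain ⟨A, δ, hA, hδ, hδr, hA'⟩ := r3_log iX
  obtain ⟨c, C, ε, hc, hC, hε, hεr, hb⟩ := r3_simple hr hp1 hp2
    (by rw [hp3]; exact_mod_cast hκ.ne')
  have hm : 0 < min δ ε := lt_min hδ hε
  set R := max (max (1 / min δ ε) (Real.exp (A + Real.pi + 1)))
    (max (2 + 2 * ‖v₀‖) (1 + ‖(vc : ℂ)‖)) with hR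
  have hR1 : 1 < R := by
    refine lt_of_lt_of_le ?_ (le_max_left _ _)
    refine lt_of_lt_of_le ?_ (le_max_right _ _)
    have := Real.pi_pos
    exact Real.one_lt_exp_iff.2 (by linarith)
  refine ⟨64 * C / (Real.pi * c), R, hR1, fun v hv hvR => ?_⟩
  have hvi : 0 < v.im := hv
  have hv0 : v ≠ 0 := fun h => by rw [h] at hvi; simp at hvi
  have hvp : 0 < ‖v‖ := norm_pos_iff.2 hv0
  set u := -1 / v with hu
  have huv : -1 / u = v := by rw [hu]; field_simp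
  have hui : 0 < u.im := r1_inv_im hv
  have hu0 : u ≠ 0 := fun h => by rw [h] at hui; simp at hui
  have hun : ‖u‖ = 1 / ‖v‖ := by rw [hu, norm_div, norm_neg, norm_one]
  have hR2 : 1 / min δ ε < ‖v‖ :=
    lt_of_le_of_lt ((le_max_left _ _).trans (le_max_left _ _)) hvR
  have hR3 : Real.exp (A + Real.pi + 1) < ‖v‖ :=
    lt_of_le_of_lt ((le_max_right _ _).trans (le_max_left _ _)) hvR
  have hR4 : 2 + 2 * ‖v₀‖ < ‖v‖ :=
    lt_of_le_of_lt ((le_max_left _ _).trans (le_max_right _ _)) hvR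
  have hR5 : 1 + ‖(vc : ℂ)‖ < ‖v‖ :=
    lt_of_le_of_lt ((le_max_right _ _).trans (le_max_right _ _)) hvR
  have hum : ‖u‖ < min δ ε := by
    rw [hun, div_lt_iff₀ hvp]
    rw [div_lt_iff₀ hm] at hR2
    linarith
  have huδ : u ∈ ball (0 : ℂ) δ := by
    rw [mem_ball, dist_zero_right]; exact hum.trans_le (min_le_left _ _)
  have huε : u ∈ ball (0 : ℂ) ε := by
    rw [mem_ball, dist_zero_right]; exact hum.trans_le (min_le_right _ _)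
  have hur : u ∈ ball (0 : ℂ) r := ball_subset_ball hδr huδ
  have h1 := hA' u huδ hui
  obtain ⟨h2, h3, h4, h5⟩ := hb u huε
  rw [sub_zero] at h2 h3
  have hlu : Real.log ‖u‖ = -Real.log ‖v‖ := by rw [hun, one_div, Real.log_inv]
  rw [hlu] at h1
  have hlv : A + Real.pi + 1 < Real.log ‖v‖ := by
    rw [Real.lt_log_iff_exp_lt hvp]; exact hR3
  set l := Real.log ‖v‖ with hl
  have hpi := Real.pi_pos
  have hl0 : 0 < l := by linarith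
  obtain ⟨hpi1, hpi2, _⟩ := hp5 u hur hui
  have hpu0 : p u ≠ 0 := Complex.slitPlane_ne_zero (r1_slitPlane hpi1)
  have hlog0 : log (p u) ≠ 0 := r1_log_ne hpi1 hpi2
  have hlogle : ‖log (p u)‖ ≤ 2 * l := by
    have h6 := Complex.norm_le_abs_re_add_abs_im (log (p u))
    rw [Complex.log_re, Complex.log_im] at h6
    have h7 := Complex.abs_arg_le_pi (p u)
    have h8 : |Real.log ‖p u‖| ≤ l + A := by
      rw [abs_le] at h1 ⊢
      constructor <;> linarith [h1.1, h1.2]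
    linarith
  -- the derivative of the exponent
  have hdu : HasDerivAt (fun w : ℂ => -1 / w) (1 / v ^ 2) v := by
    have h6 : HasDerivAt (fun w : ℂ => -1 / w) ((0 * v - (-1) * 1) / v ^ 2) v :=
      (hasDerivAt_const v (-1 : ℂ)).fun_div (hasDerivAt_id v) hv0
    have e : (0 * v - (-1) * 1) / v ^ 2 = 1 / v ^ 2 := by ring
    rwa [e] at h6
  have hpd : HasDerivAt p (deriv p u) u :=
    (hp1.differentiableAt (isOpen_ball.mem_nhds hur)).hasDerivAt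
  have hpc : HasDerivAt (fun w : ℂ => p (-1 / w)) (deriv p u * (1 / v ^ 2)) v :=
    HasDerivAt.comp v (h₂ := p) (h := fun w : ℂ => -1 / w) hpd hdu
  have hlc : HasDerivAt (fun w : ℂ => log (p (-1 / w)))
      (deriv p u * (1 / v ^ 2) / p u) v := hpc.clog (r1_slitPlane hpi1)
  have hT : HasDerivAt (fun w : ℂ => -(Real.pi * I) / log (p (-1 / w)))
      ((0 * log (p u) - (-(Real.pi * I)) * (deriv p u * (1 / v ^ 2) / p u))
        / log (p u) ^ 2) v :=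
    (hasDerivAt_const v (-((Real.pi : ℂ) * I))).fun_div hlc hlog0
  have hev : X =ᶠ[𝓝 v] fun w => nome (-(Real.pi * I) / log (p (-1 / w))) := by
    have h6 : UH ∈ 𝓝 v := r1_open.mem_nhds hvi
    have h7 : ∀ᶠ w in 𝓝 v, -1 / w ∈ ball (0 : ℂ) r :=
      hdu.continuousAt.eventually (isOpen_ball.mem_nhds hur)
    filter_upwards [h6, h7] with w hw1 hw2
    have hw0 : w ≠ 0 := fun h => by
      have h8 : 0 < w.im := hw1
      rw [h] at h8; simp at h8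
    have h8 := (hp5 (-1 / w) hw2 (r1_inv_im hw1)).2.2
    have h9 : -1 / (-1 / w) = w := by field_simp
    rw [h9] at h8
    exact h8
  obtain ⟨_, hN⟩ := r5_local hX hv hT hev
  have hd : ‖(0 * log (p u) - (-(Real.pi * I)) * (deriv p u * (1 / v ^ 2) / p u))
        / log (p u) ^ 2‖ = Real.pi * ‖deriv p u‖ / (‖v‖ ^ 2 * ‖p u‖ * ‖log (p u)‖ ^ 2) := by
    have e : (0 * log (p u) - (-(Real.pi * I)) * (deriv p u * (1 / v ^ 2) / p u))
        / log (p u) ^ 2 = Real.pi * I * deriv p u / (v ^ 2 * p u * log (p u) ^ 2) := by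
      field_simp
      ring
    rw [e, norm_div, norm_mul, norm_mul, norm_mul, norm_mul, norm_pow, norm_pow, Complex.norm_I,
      mul_one, Complex.norm_real, Real.norm_eq_abs, abs_of_pos hpi]
  have hM : ‖(v - vc) * r4_M v₀ v‖ ≤ 16 / ‖v‖ ^ 3 := by
    have h6 : ‖v - (vc : ℂ)‖ ≤ 2 * ‖v‖ := (norm_sub_le _ _).trans (by linarith)
    have h7 : ‖v‖ ^ 2 / 2 ≤ ‖(1 : ℂ) - v ^ 2‖ := by
      have h8 := norm_sub_norm_le (v ^ 2) (1 : ℂ)
      rw [norm_pow, norm_one] at h8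
      rw [norm_sub_rev]
      have h9 := norm_nonneg v₀
      nlinarith
    have h8 : ‖v‖ / 2 ≤ ‖v - v₀‖ := by
      have h9 := norm_sub_norm_le v v₀
      linarith
    have h9 : ‖v‖ / 2 ≤ ‖v - starRingEnd ℂ v₀‖ := by
      have h10 := norm_sub_norm_le v (starRingEnd ℂ v₀)
      rw [RCLike.norm_conj] at h10
      linarith
    unfold r4_M
    rw [mul_one_div, norm_div, norm_mul, norm_mul]
    have h10 : 0 < ‖v‖ ^ 2 / 2 * (‖v‖ / 2 * (‖v‖ / 2)) := by positivity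
    have h11 : ‖v‖ ^ 2 / 2 * (‖v‖ / 2 * (‖v‖ / 2))
        ≤ ‖(1 : ℂ) - v ^ 2‖ * (‖v - v₀‖ * ‖v - starRingEnd ℂ v₀‖) := by
      gcongr
    calc ‖v - (vc : ℂ)‖ / (‖(1 : ℂ) - v ^ 2‖ * (‖v - v₀‖ * ‖v - starRingEnd ℂ v₀‖))
        ≤ 2 * ‖v‖ / (‖v‖ ^ 2 / 2 * (‖v‖ / 2 * (‖v‖ / 2))) := by gcongr
      _ = 16 / ‖v‖ ^ 3 := by field_simp; norm_num
  have hpup : 0 < ‖p u‖ := norm_pos_iff.2 hpu0
  have hlp : 0 < ‖log (p u)‖ := norm_pos_iff.2 hlog0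
  have hdp : 0 < ‖deriv p u‖ := lt_of_lt_of_le hc h4
  rw [hN, norm_div, hd]
  have h6 : ‖v‖ ^ 2 * ‖p u‖ * ‖log (p u)‖ ^ 2 / (Real.pi * ‖deriv p u‖)
      ≤ ‖v‖ ^ 2 * (C * (1 / ‖v‖)) * (2 * l) ^ 2 / (Real.pi * c) := by
    rw [hun] at h3
    gcongr
  calc ‖(v - vc) * r4_M v₀ v‖ / (Real.pi * ‖deriv p u‖ / (‖v‖ ^ 2 * ‖p u‖ * ‖log (p u)‖ ^ 2))
      = ‖(v - vc) * r4_M v₀ v‖ * (‖v‖ ^ 2 * ‖p u‖ * ‖log (p u)‖ ^ 2
          / (Real.pi * ‖deriv p u‖)) := by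
        rw [div_div_eq_mul_div, mul_div_assoc]
    _ ≤ 16 / ‖v‖ ^ 3 * (‖v‖ ^ 2 * (C * (1 / ‖v‖)) * (2 * l) ^ 2 / (Real.pi * c)) := by
        gcongr
    _ = 64 * C / (Real.pi * c) * l ^ 2 / ‖v‖ ^ 2 := by
        field_simp
        norm_num

end Pool.Agent.Choc
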