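import Pool.Agent.Lib.MP_2b3e36_an.Ex.A3
import Pool.Agent.Lib.MP_2b3e36_an.Ex.R2
import Pool.Agent.Lib.MP_2b3e36_an.Ex.R3
import Pool.Agent.Lib.MP_2b3e36_an.Ex.R5

/-!
R6. Rigidity: there is no competitor in the main class with the type of the extremal function.

Proof. `Φ = L * Nf` is holomorphic on `UH`. Boundary: `x < -1`: `L → iℝ`, `Nf → iℝ`, `Φ → ℝ`, so
`Im Φ → 0`. `-1 < x < 1`: `L → ℓ`, `Im ℓ > 0`, `Nf → ν > 0`: `Im Φ → ν Im ℓ > 0`. `x > 1`: `L → τg - τX`,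
`Nf → - μ i conj (τ + 1/2)` with `nome τ = nome τX`, so `τ = τX` (`nome_inj_Sig`); put `c = τX + 1/2`,
`c' = τg + 1/2`, `|c| = |c'| = 1/2`: `Φ → (c' - c)(- μ i conj c) = - μ i (c' conj c - 1/4)`, imaginary part
`μ (1/4 - Re (c' conj c)) ≥ 0`. Near `±1`: `|Φ| ≤ C |v ∓ 1|^(-1/2)`; near infinity
`|Φ| ≤ C (log |v|)^(-2) (log |v|)^2 / |v|^2`. By `phragmen` `Φ = 0` on `UH`; `Nf ≠ 0`, so `L = 0`, so `g = X` on
`UH`. But at `x = 0` `‖X‖ → 1` (`Model.free`: `X → nome (τ 0)`, `τ 0` real) and `‖g‖ → ‖ℓ‖ < 1`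
(`Lift.inner`). Contradiction (`UH` accumulates at `0`).
-/

set_option autoImplicit false

open Complex Set Filter Topology Metric

namespace Pool.Agent.Choc

lemma r6_ev {Φ : ℂ → ℂ} {x : ℂ} {ℓ : ℂ} (h : Tendsto Φ (𝓝[UH] x) (𝓝 ℓ)) (hℓ : 0 ≤ ℓ.im) :
    ∀ ε > 0, ∀ᶠ v in 𝓝[UH] x, -ε < (Φ v).im := by
  intro ε hε
  have h1 : Tendsto (fun v => (Φ v).im) (𝓝[UH] x) (𝓝 ℓ.im) :=
    (Complex.continuous_im.tendsto ℓ).comp h
  exact h1.eventually (lt_mem_nhds (by linarith))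

lemma r6_arc_im {a b : ℂ} (ha : a ∈ Sig) (hb : b ∈ Sig) {μ : ℝ} (hμ : 0 ≤ μ) :
    0 ≤ ((b - a) * (-(μ * I) * starRingEnd ℂ (a + 1 / 2))).im := by
  have hA : (a.re + 1 / 2) ^ 2 + a.im ^ 2 = 1 / 4 := by
    have h1 : ‖a + 1 / 2‖ ^ 2 = (1 / 2) ^ 2 := by rw [ha.2]
    rw [← Complex.normSq_eq_norm_sq, Complex.normSq_apply] at h1
    simp at h1
    nlinarith
  have hB : (b.re + 1 / 2) ^ 2 + b.im ^ 2 = 1 / 4 := by
    have h1 : ‖b + 1 / 2‖ ^ 2 = (1 / 2) ^ 2 := by rw [hb.2]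
    rw [← Complex.normSq_eq_norm_sq, Complex.normSq_apply] at h1
    simp at h1
    nlinarith
  have e : ((b - a) * (-(μ * I) * starRingEnd ℂ (a + 1 / 2))).im =
      μ * (((a.re + 1 / 2) ^ 2 + a.im ^ 2) -
        ((b.re + 1 / 2) * (a.re + 1 / 2) + b.im * a.im)) := by
    simp
    ring
  rw [e]
  apply mul_nonneg hμ
  nlinarith [sq_nonneg (b.re - a.re), sq_nonneg (b.im - a.im)]

theorem rigidity {y : ℝ} {X g : ℂ → ℂ} {v₀ : ℂ} {vc : ℝ} (hX : Model y X v₀ vc)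
    (hg : Lift v₀ g) : False := by
  obtain ⟨L, hL⟩ := ldiff_exists hX hg
  obtain ⟨CL, rL, hrL, hL1, hL2⟩ := L_one hX hg hL
  obtain ⟨CN, rN, hrN, hN1, hN2⟩ := Nf_one hX
  obtain ⟨CLi, RL, hRL, hLi⟩ := L_infty hX hg hL
  obtain ⟨CNi, RN, hRN, hNi⟩ := Nf_infty hX
  have hΦ : ∀ v ∈ UH, L v * Nf X v₀ vc v = 0 := by
    refine phragmen (Φ := fun v => L v * Nf X v₀ vc v)
      (C := |CL| * |CN| + |CLi| * |CNi|) (r := min rL rN) (R := max RL RN)
      (hL.diff.mul (Nf_diff hX)) ?_ (lt_min hrL hrN) ?_ ?_ ?_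
    · intro x hx1 hx2
      rcases lt_trichotomy x (-1) with h | h | h
      · obtain ⟨ℓ, hℓ, hlim⟩ := L_slit hX hg hL h
        obtain ⟨ν, hν, hlim'⟩ := Nf_slit hX h
        refine r6_ev (hlim.mul hlim') ?_
        rw [Complex.mul_im, hℓ, hν]
        simp
      · exact absurd h hx2
      · rcases lt_trichotomy x 1 with h' | h' | h'
        · obtain ⟨ℓ, hℓ, hlim⟩ := L_free hX hg hL h h'
          obtain ⟨ν, hν, hlim'⟩ := Nf_free hX h h'
          refine r6_ev (hlim.mul hlim') ?_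
          rw [Complex.mul_im]
          simp
          positivity
        · exact absurd h' hx1
        · obtain ⟨τX, hτX, τg, hτg, hXlim, hlim⟩ := L_arc hX hg hL h'
          obtain ⟨τ, hτ, μ, hμ, hXlim', hlim'⟩ := Nf_arc hX h'
          have he : nome τX = nome τ := tendsto_nhds_unique hXlim hXlim'
          have he' : τX = τ := nome_inj_Sig hτX hτ he
          subst he'
          exact r6_ev (hlim.mul hlim') (r6_arc_im hτX hτg hμ)
    · intro v hv hvr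
      have h1 := hL1 v hv (lt_of_lt_of_le hvr (min_le_left _ _))
      have h2 := hN1 v hv (lt_of_lt_of_le hvr (min_le_right _ _))
      have h3 : 0 ≤ ‖v - 1‖ ^ (-(1 : ℝ) / 2) := Real.rpow_nonneg (norm_nonneg _) _
      rw [norm_mul]
      calc ‖L v‖ * ‖Nf X v₀ vc v‖ ≤ |CL| * (|CN| * ‖v - 1‖ ^ (-(1 : ℝ) / 2)) := by
            refine mul_le_mul (h1.trans (le_abs_self _)) (h2.trans ?_) (norm_nonneg _)
              (abs_nonneg _)
            exact mul_le_mul_of_nonneg_right (le_abs_self _) h3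
        _ ≤ (|CL| * |CN| + |CLi| * |CNi|) * ‖v - 1‖ ^ (-(1 : ℝ) / 2) := by
            have h4 : 0 ≤ |CLi| * |CNi| * ‖v - 1‖ ^ (-(1 : ℝ) / 2) := by positivity
            nlinarith
    · intro v hv hvr
      have h1 := hL2 v hv (lt_of_lt_of_le hvr (min_le_left _ _))
      have h2 := hN2 v hv (lt_of_lt_of_le hvr (min_le_right _ _))
      have h3 : 0 ≤ ‖v + 1‖ ^ (-(1 : ℝ) / 2) := Real.rpow_nonneg (norm_nonneg _) _
      rw [norm_mul]
      calc ‖L v‖ * ‖Nf X v₀ vc v‖ ≤ |CL| * (|CN| * ‖v + 1‖ ^ (-(1 : ℝ) / 2)) := by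
            refine mul_le_mul (h1.trans (le_abs_self _)) (h2.trans ?_) (norm_nonneg _)
              (abs_nonneg _)
            exact mul_le_mul_of_nonneg_right (le_abs_self _) h3
        _ ≤ (|CL| * |CN| + |CLi| * |CNi|) * ‖v + 1‖ ^ (-(1 : ℝ) / 2) := by
            have h4 : 0 ≤ |CLi| * |CNi| * ‖v + 1‖ ^ (-(1 : ℝ) / 2) := by positivity
            nlinarith
    · intro v hv hvR
      have hR1 := lt_of_le_of_lt (le_max_left _ _) hvR
      have hR2 := lt_of_le_of_lt (le_max_right _ _) hvR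
      have h1 := hLi v hv hR1
      have h2 := hNi v hv hR2
      have hv1 : 1 < ‖v‖ := hRL.trans hR1
      have hlog : 0 < Real.log ‖v‖ := Real.log_pos hv1
      have hv0 : 0 < ‖v‖ := by linarith
      rw [norm_mul]
      calc ‖L v‖ * ‖Nf X v₀ vc v‖ ≤
            (|CLi| / Real.log ‖v‖ ^ 2) * (|CNi| * Real.log ‖v‖ ^ 2 / ‖v‖ ^ 2) := by
            refine mul_le_mul (h1.trans ?_) (h2.trans ?_) (norm_nonneg _) (by positivity)
            · exact div_le_div_of_nonneg_right (le_abs_self _) (by positivity)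
            · refine div_le_div_of_nonneg_right ?_ (by positivity)
              exact mul_le_mul_of_nonneg_right (le_abs_self _) (by positivity)
        _ = (|CLi| * |CNi|) / ‖v‖ ^ 2 := by
            field_simp
        _ ≤ (|CL| * |CN| + |CLi| * |CNi|) / ‖v‖ ^ 2 := by
            refine div_le_div_of_nonneg_right ?_ (by positivity)
            have : 0 ≤ |CL| * |CN| := by positivity
            linarith
  have hLz : ∀ v ∈ UH, L v = 0 := fun v hv =>
    (mul_eq_zero.1 (hΦ v hv)).resolve_right (Nf_ne hX v hv)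
  have hgX : ∀ v ∈ UH, g v = X v := by
    intro v hv
    have h1 := hL.eq v hv
    rw [hLz v hv] at h1
    have h2 : nome 0 = 1 := by unfold nome; simp
    rw [h2, one_mul] at h1
    exact h1.symm
  obtain ⟨r, hr, τ, hτd, hτX, hτr, -, -⟩ := hX.free 0 (by norm_num) (by norm_num)
  obtain ⟨ℓ, -, hℓ1, hℓ⟩ := hg.inner 0 (by norm_num) (by norm_num)
  have h0mem : (((0 : ℝ) : ℂ)) ∈ ball (((0 : ℝ) : ℂ)) r := mem_ball_self hr
  have hlim : Tendsto g (𝓝[UH] (((0 : ℝ) : ℂ))) (𝓝 (nome (τ (((0 : ℝ) : ℂ))))) := by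
    have h1 : ContinuousAt (fun v => nome (τ v)) (((0 : ℝ) : ℂ)) := by
      have h2 : ContinuousAt τ (((0 : ℝ) : ℂ)) :=
        (hτd.differentiableAt (isOpen_ball.mem_nhds h0mem)).continuousAt
      unfold nome
      exact Complex.continuous_exp.continuousAt.comp (continuousAt_const.mul h2)
    have h2 : Tendsto (fun v => nome (τ v)) (𝓝[UH] (((0 : ℝ) : ℂ)))
        (𝓝 (nome (τ (((0 : ℝ) : ℂ))))) := h1.tendsto.mono_left nhdsWithin_le_nhds
    refine h2.congr' ?_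
    filter_upwards [self_mem_nhdsWithin,
      mem_nhdsWithin_of_mem_nhds (isOpen_ball.mem_nhds h0mem)] with v hv hv'
    rw [hgX v hv, hτX v hv' hv]
  have he : nome (τ (((0 : ℝ) : ℂ))) = ℓ := tendsto_nhds_unique hlim hℓ
  have him := hτr 0 h0mem
  have hnorm : ‖nome (τ (((0 : ℝ) : ℂ)))‖ = 1 := by
    unfold nome
    rw [Complex.norm_exp]
    simp at him
    simp [him]
  rw [he] at hnorm
  linarith

end Pool.Agent.Choc
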