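import Pool.Agent.Lib.MP_2b3e36_an.Ex.Defs
import Pool.Agent.Lib.MP_2b3e36_an.Core

/-!
S1. Rational solutions of the interpolation problem, and the plant.
-/

set_option autoImplicit false

open Complex Set Filter Topology Metric Polynomial

namespace Pool.Agent.Choc

noncomputable section

/-- There is a stable real rational function `P/Q` whose zeros in the closed unit disc are exactly the
simple zero `a` and whose ones there are exactly the simple ones `b`, `conj b`. -/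
def StableSol (a : ℝ) (b : ℂ) : Prop :=
  ∃ P Q : ℝ[X], (∀ z : ℂ, ‖z‖ ≤ 1 → aeval z Q ≠ 0) ∧
    (∀ z : ℂ, ‖z‖ ≤ 1 → (aeval z P = 0 ↔ z = a)) ∧
    (∀ z : ℂ, ‖z‖ ≤ 1 → (aeval z P = aeval z Q ↔ z = b ∨ z = starRingEnd ℂ b)) ∧
    aeval (a : ℂ) (derivative P) ≠ 0 ∧
    aeval b (derivative (P - Q)) ≠ 0

/-- A holomorphic solution in a larger disc for the zero `a` (no sign condition). -/
structure SolA (a : ℝ) (b : ℂ) (r : ℝ) (f : ℂ → ℂ) : Prop where
  one_lt : 1 < r
  diff : DifferentiableOn ℂ f (ball 0 r)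
  real : ∀ z ∈ ball (0 : ℂ) r, f (starRingEnd ℂ z) = starRingEnd ℂ (f z)
  zero : ∀ z ∈ ball (0 : ℂ) r, f z = 0 ↔ z = a
  one : ∀ z ∈ ball (0 : ℂ) r, f z = 1 ↔ z = b ∨ z = starRingEnd ℂ b
  deriv_a : deriv f a ≠ 0
  deriv_b : deriv f b ≠ 0

end

end Pool.Agent.Choc
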