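import Pool.Agent.Lib.MP_2b3e36_an.Ex.S1

/-!
S3. The real Moebius maps of the disc and the sign: `∃ SolA a b` iff `Realp b'` or `Realp (-conj b')`,
where `b' = (b - a)/(1 - a b)`.

Proof. `m z = (z + a)/(1 + a z)` (`|a| < 1`) maps `ball 0 s` into `ball 0 r` for `s > 1` close to `1` when
`r > 1` (continuity and compactness; `m` maps the closed unit disc to itself, pole at `-1/a` outside); it is
injective, real, `m 0 = a`, `m b' = b`, derivative `≠ 0`. If `SolA a b r f` then `F z = f (m z)` on `ball 0 s`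
is holomorphic, real, has its only zero at `0`, ones at `b'`, `conj b'`, with nonzero derivatives; `F' 0` is real
and `≠ 0`. If `F' 0 > 0` then `Sol b' s F`. If `F' 0 < 0` then `F (-z)` satisfies `Sol (-conj b') s`: its ones are
`-b'`, `-conj b'`, the latter in the upper half plane. Conversely with `m⁻¹ z = (z - a)/(1 - a z)`.
`Im b' > 0`, `‖b'‖ < 1`: `m⁻¹` preserves the upper half disc.
-/

set_option autoImplicit false

open Complex Set Filter Topology Metric

namespace Pool.Agent.Choc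

theorem s3_normSq (c : ℝ) (z : ℂ) :
    Complex.normSq (1 + c * z) - Complex.normSq (z + c) =
      (1 - c ^ 2) * (1 - Complex.normSq z) := by
  simp only [Complex.normSq_apply, Complex.add_re, Complex.add_im, Complex.one_re, Complex.one_im,
    Complex.re_ofReal_mul, Complex.im_ofReal_mul, Complex.ofReal_re, Complex.ofReal_im]
  ring

theorem s3_sq_lt {a : ℝ} (ha : |a| < 1) : a ^ 2 < 1 := by
  rw [← sq_abs]
  nlinarith [abs_nonneg a]

theorem s3_normSq_lt {z : ℂ} (h : ‖z‖ < 1) : Complex.normSq z < 1 := by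
  rw [Complex.normSq_eq_norm_sq]
  nlinarith [norm_nonneg z]

theorem s3_den {c s : ℝ} {z : ℂ} (hz : ‖z‖ < s) (hcs : |c| * s < 1) :
    (1 - |c| * s) ≤ ‖1 + c * z‖ ∧ (1 : ℂ) + c * z ≠ 0 := by
  have h1 : ‖(c : ℂ) * z‖ ≤ |c| * s := by
    rw [norm_mul, Complex.norm_real, Real.norm_eq_abs]
    exact mul_le_mul_of_nonneg_left hz.le (abs_nonneg _)
  have h2 : 1 - ‖(c : ℂ) * z‖ ≤ ‖1 + c * z‖ := by
    have h3 := norm_sub_norm_le (1 : ℂ) (-(c * z))
    rw [norm_neg, norm_one, sub_neg_eq_add] at h3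
    exact h3
  refine ⟨by linarith, fun h => ?_⟩
  rw [h, norm_zero] at h2
  linarith

theorem mobius_mem {a : ℝ} {b : ℂ} (ha : |a| < 1) (hb : ‖b‖ < 1) (hb' : 0 < b.im) :
    ‖(b - a) / (1 - a * b)‖ < 1 ∧ 0 < ((b - a) / (1 - a * b)).im := by
  have ha2 := s3_sq_lt ha
  have hb2 := s3_normSq_lt hb
  have h1 := s3_normSq (-a) b
  push_cast at h1
  have e1 : (1 : ℂ) + -(a : ℂ) * b = 1 - a * b := by ring
  have e2 : b + -(a : ℂ) = b - a := by ring
  rw [e1, e2, neg_sq] at h1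
  have h2 : 0 < (1 - a ^ 2) * (1 - Complex.normSq b) := mul_pos (by linarith) (by linarith)
  have h3 : 0 < Complex.normSq (1 - a * b) := by
    have := Complex.normSq_nonneg (b - a)
    linarith
  constructor
  · rw [norm_div, div_lt_one (by
      rw [norm_pos_iff]
      exact Complex.normSq_pos.1 h3)]
    have h4 : ‖b - a‖ ^ 2 < ‖1 - a * b‖ ^ 2 := by
      rw [← Complex.normSq_eq_norm_sq, ← Complex.normSq_eq_norm_sq]
      linarith
    exact lt_of_pow_lt_pow_left₀ 2 (norm_nonneg _) h4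
  · have h4 : ((b - a) / (1 - a * b)).im = b.im * (1 - a ^ 2) / Complex.normSq (1 - a * b) := by
      rw [Complex.div_im, ← sub_div]
      congr 1
      simp only [Complex.sub_re, Complex.sub_im, Complex.one_re, Complex.one_im,
        Complex.re_ofReal_mul, Complex.im_ofReal_mul, Complex.ofReal_re, Complex.ofReal_im]
      ring
    rw [h4]
    exact div_pos (mul_pos hb' (by linarith)) h3

theorem s3_radius {c r : ℝ} (hc : |c| < 1) (hr : 1 < r) : ∃ s : ℝ, 1 < s ∧ |c| * s < 1 ∧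
    ∀ z : ℂ, ‖z‖ < s → (1 : ℂ) + c * z ≠ 0 ∧ ‖(z + c) / (1 + c * z)‖ < r := by
  have hc2 := s3_sq_lt hc
  have hg : ContinuousAt (fun s : ℝ => 1 + (s ^ 2 - 1) / (1 - |c| * s) ^ 2) 1 := by
    refine ContinuousAt.add continuousAt_const (ContinuousAt.div (by fun_prop) (by fun_prop) ?_)
    rw [mul_one]
    exact pow_ne_zero 2 (by linarith)
  have h1 : ∀ᶠ s in 𝓝 (1 : ℝ), 1 + (s ^ 2 - 1) / (1 - |c| * s) ^ 2 < r ^ 2 := by
    apply hg.eventually_lt_const
    show 1 + ((1 : ℝ) ^ 2 - 1) / (1 - |c| * 1) ^ 2 < r ^ 2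
    rw [one_pow, sub_self, zero_div]
    nlinarith
  have h2 : ∀ᶠ s in 𝓝 (1 : ℝ), |c| * s < 1 := by
    have h3 : ContinuousAt (fun s : ℝ => |c| * s) 1 := by fun_prop
    apply h3.eventually_lt_const
    show |c| * 1 < 1
    rw [mul_one]
    exact hc
  have h4 : ∀ᶠ s in 𝓝[>] (1 : ℝ), (1 + (s ^ 2 - 1) / (1 - |c| * s) ^ 2 < r ^ 2 ∧ |c| * s < 1) :=
    mem_nhdsWithin_of_mem_nhds (h1.and h2)
  obtain ⟨s, ⟨hs1, hs2⟩, hs3⟩ := (h4.and self_mem_nhdsWithin).exists
  have hs : 1 < s := hs3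
  refine ⟨s, hs, hs2, fun z hz => ?_⟩
  obtain ⟨h5, h6⟩ := s3_den hz hs2
  refine ⟨h6, ?_⟩
  have hpos : 0 < ‖1 + (c : ℂ) * z‖ := norm_pos_iff.2 h6
  have h7 : ‖(z + c) / (1 + c * z)‖ ^ 2 < r ^ 2 := by
    refine lt_of_le_of_lt ?_ hs1
    rw [norm_div, div_pow, div_le_iff₀ (by positivity)]
    have h8 := s3_normSq c z
    rw [Complex.normSq_eq_norm_sq, Complex.normSq_eq_norm_sq, Complex.normSq_eq_norm_sq] at h8
    have h9 : ‖z‖ ^ 2 ≤ s ^ 2 := pow_le_pow_left₀ (norm_nonneg _) hz.le 2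
    have h10 : (1 - |c| * s) ^ 2 ≤ ‖1 + (c : ℂ) * z‖ ^ 2 :=
      pow_le_pow_left₀ (by linarith) h5 2
    have h11 : 0 < (1 - |c| * s) ^ 2 := pow_pos (by linarith) 2
    have h12 : 0 ≤ s ^ 2 - 1 := by nlinarith
    have h13 : s ^ 2 - 1 ≤ (s ^ 2 - 1) / (1 - |c| * s) ^ 2 * ‖1 + (c : ℂ) * z‖ ^ 2 := by
      rw [div_mul_eq_mul_div, le_div_iff₀ h11]
      exact mul_le_mul_of_nonneg_left h10 h12
    have h14 : (1 - c ^ 2) * (‖z‖ ^ 2 - 1) ≤ s ^ 2 - 1 := by
      rcases le_total (‖z‖ ^ 2) 1 with h | h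
      · have : (1 - c ^ 2) * (‖z‖ ^ 2 - 1) ≤ 0 :=
          mul_nonpos_of_nonneg_of_nonpos (by linarith) (by linarith)
        linarith
      · have : (1 - c ^ 2) * (‖z‖ ^ 2 - 1) ≤ 1 * (‖z‖ ^ 2 - 1) :=
          mul_le_mul_of_nonneg_right (by nlinarith [sq_nonneg c]) (by linarith)
        linarith
    nlinarith
  exact lt_of_pow_lt_pow_left₀ 2 (by linarith) h7

theorem s3_inj {c : ℝ} (hc : |c| < 1) {z w : ℂ} (hz : (1 : ℂ) + c * z ≠ 0)
    (hw : (1 : ℂ) + c * w ≠ 0) : (z + c) / (1 + c * z) = (w + c) / (1 + c * w) ↔ z = w := by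
  have hc2 := s3_sq_lt hc
  constructor
  · intro h
    rw [div_eq_div_iff hz hw] at h
    have h1 : ((1 - c ^ 2 : ℝ) : ℂ) * (z - w) = 0 := by
      push_cast
      linear_combination h
    rcases mul_eq_zero.1 h1 with h2 | h2
    · have : (1 - c ^ 2 : ℝ) = 0 := by exact_mod_cast h2
      linarith
    · linear_combination h2
  · rintro rfl
    rfl

theorem s3_deriv {c : ℝ} {z : ℂ} (hz : (1 : ℂ) + c * z ≠ 0) :
    HasDerivAt (fun z : ℂ => (z + c) / (1 + c * z)) ((1 - c ^ 2) / (1 + c * z) ^ 2) z := by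
  have h1 : HasDerivAt (fun z : ℂ => z + c) 1 z := (hasDerivAt_id' z).add_const _
  have h2 : HasDerivAt (fun z : ℂ => 1 + c * z) c z := by
    have := ((hasDerivAt_id' z).const_mul (c : ℂ)).const_add 1
    rwa [mul_one] at this
  have h3 := h1.div h2 hz
  have e : (1 * (1 + (c : ℂ) * z) - (z + c) * c) / (1 + c * z) ^ 2 =
      (1 - c ^ 2) / (1 + c * z) ^ 2 := by
    congr 1
    ring
  rw [e] at h3
  exact h3

theorem s3_transfer {c a a' : ℝ} {b b' : ℂ} (hc : |c| < 1) (ha' : |a'| < 1) (hb' : ‖b'‖ < 1)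
    (ea : ((a' : ℂ) + c) / (1 + c * a') = a) (eb : (b' + c) / (1 + c * b') = b)
    {r : ℝ} {f : ℂ → ℂ} (h : SolA a b r f) :
    ∃ (s : ℝ) (F : ℂ → ℂ), SolA a' b' s F := by
  have hc2 := s3_sq_lt hc
  obtain ⟨s, hs, hcs, hm⟩ := s3_radius hc h.one_lt
  set m : ℂ → ℂ := fun z => (z + c) / (1 + c * z) with hmdef
  have hmb : ∀ z ∈ ball (0 : ℂ) s, m z ∈ ball (0 : ℂ) r := by
    intro z hz
    rw [mem_ball_zero_iff] at hz ⊢
    exact (hm z hz).2
  have ha's : (a' : ℂ) ∈ ball (0 : ℂ) s := by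
    rw [mem_ball_zero_iff, Complex.norm_real, Real.norm_eq_abs]
    linarith
  have hb's : b' ∈ ball (0 : ℂ) s := by
    rw [mem_ball_zero_iff]
    linarith
  have hcb's : starRingEnd ℂ b' ∈ ball (0 : ℂ) s := by
    rw [mem_ball_zero_iff, Complex.norm_conj]
    linarith
  have hden : ∀ z ∈ ball (0 : ℂ) s, (1 : ℂ) + c * z ≠ 0 := by
    intro z hz
    rw [mem_ball_zero_iff] at hz
    exact (hm z hz).1
  have hmconj : ∀ z, m (starRingEnd ℂ z) = starRingEnd ℂ (m z) := by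
    intro z
    rw [hmdef]
    simp only
    rw [map_div₀, map_add, map_add, map_one, map_mul, Complex.conj_ofReal]
  have hmd : ∀ z ∈ ball (0 : ℂ) s, HasDerivAt m ((1 - c ^ 2) / (1 + c * z) ^ 2) z :=
    fun z hz => s3_deriv (hden z hz)
  have hmd0 : ∀ z ∈ ball (0 : ℂ) s, (1 - (c : ℂ) ^ 2) / (1 + c * z) ^ 2 ≠ 0 := by
    intro z hz
    refine div_ne_zero ?_ (pow_ne_zero 2 (hden z hz))
    have h1 : (1 - c ^ 2 : ℝ) ≠ 0 := by linarith
    exact_mod_cast h1
  have hFd : ∀ z ∈ ball (0 : ℂ) s, HasDerivAt (fun z => f (m z))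
      (deriv f (m z) * ((1 - c ^ 2) / (1 + c * z) ^ 2)) z := by
    intro z hz
    have h1 : HasDerivAt f (deriv f (m z)) (m z) :=
      (h.diff.differentiableAt (isOpen_ball.mem_nhds (hmb z hz))).hasDerivAt
    exact h1.comp z (hmd z hz)
  have hma : m a' = a := ea
  have hmbb : m b' = b := eb
  refine ⟨s, fun z => f (m z), ⟨hs, ?_, ?_, ?_, ?_, ?_, ?_⟩⟩
  · intro z hz
    exact (hFd z hz).differentiableAt.differentiableWithinAt
  · intro z hz
    rw [hmconj, h.real _ (hmb z hz)]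
  · intro z hz
    rw [h.zero _ (hmb z hz), ← hma]
    exact s3_inj hc (hden z hz) (hden _ ha's)
  · intro z hz
    rw [h.one _ (hmb z hz), ← hmbb, ← hmconj]
    exact or_congr (s3_inj hc (hden z hz) (hden _ hb's)) (s3_inj hc (hden z hz) (hden _ hcb's))
  · rw [(hFd _ ha's).deriv, hma]
    exact mul_ne_zero h.deriv_a (hmd0 _ ha's)
  · rw [(hFd _ hb's).deriv, hmbb]
    exact mul_ne_zero h.deriv_b (hmd0 _ hb's)

/-- the derivative of a real function at the conjugate point -/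
theorem s3_deriv_conj {f : ℂ → ℂ} {r : ℝ} {z : ℂ} (hz : z ∈ ball (0 : ℂ) r)
    (hd : DifferentiableOn ℂ f (ball 0 r))
    (hr : ∀ z ∈ ball (0 : ℂ) r, f (starRingEnd ℂ z) = starRingEnd ℂ (f z)) :
    deriv f (starRingEnd ℂ z) = starRingEnd ℂ (deriv f z) := by
  have h1 : HasDerivAt f (deriv f z) z :=
    (hd.differentiableAt (isOpen_ball.mem_nhds hz)).hasDerivAt
  have h2 := h1.conj_conj
  have hzc : starRingEnd ℂ z ∈ ball (0 : ℂ) r := by
    rw [mem_ball_zero_iff, Complex.norm_conj]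
    rwa [mem_ball_zero_iff] at hz
  have h3 : f =ᶠ[𝓝 (starRingEnd ℂ z)] (starRingEnd ℂ ∘ f ∘ starRingEnd ℂ) := by
    filter_upwards [isOpen_ball.mem_nhds hzc] with y hy
    show f y = starRingEnd ℂ (f (starRingEnd ℂ y))
    rw [hr y hy, Complex.conj_conj]
  exact (h2.congr_of_eventuallyEq h3).deriv

theorem s3_neg {b : ℂ} {r : ℝ} {f : ℂ → ℂ} (hb : ‖b‖ < 1) (h : SolA 0 b r f) :
    SolA 0 (-starRingEnd ℂ b) r (fun z => f (-z)) ∧
      deriv (fun z => f (-z)) 0 = -deriv f 0 := by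
  have hn : ∀ z ∈ ball (0 : ℂ) r, -z ∈ ball (0 : ℂ) r := by
    intro z hz
    rw [mem_ball_zero_iff, norm_neg]
    rwa [mem_ball_zero_iff] at hz
  have hder : ∀ z, deriv (fun z => f (-z)) z = -deriv f (-z) := fun z => deriv_comp_neg f z
  have hbr : b ∈ ball (0 : ℂ) r := by
    rw [mem_ball_zero_iff]
    linarith [h.one_lt]
  have h0 : deriv (fun z => f (-z)) 0 = -deriv f 0 := by
    rw [hder, neg_zero]
  refine ⟨⟨h.one_lt, ?_, ?_, ?_, ?_, ?_, ?_⟩, h0⟩
  · exact h.diff.comp (differentiable_neg.differentiableOn) hn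
  · intro z hz
    rw [← map_neg, h.real _ (hn z hz)]
  · intro z hz
    rw [h.zero _ (hn z hz), Complex.ofReal_zero, neg_eq_zero]
  · intro z hz
    rw [h.one _ (hn z hz), map_neg, Complex.conj_conj, neg_eq_iff_eq_neg, neg_eq_iff_eq_neg]
    exact or_comm
  · rw [Complex.ofReal_zero, h0]
    have := h.deriv_a
    rw [Complex.ofReal_zero] at this
    exact neg_ne_zero.2 this
  · rw [hder, neg_neg, s3_deriv_conj hbr h.diff h.real]
    refine neg_ne_zero.2 ?_
    intro hc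
    apply h.deriv_b
    rw [← Complex.conj_conj (deriv f b), hc, map_zero]

theorem s3_sol {b : ℂ} {r : ℝ} {f : ℂ → ℂ} (hb : ‖b‖ < 1) (hb' : 0 < b.im) (h : SolA 0 b r f)
    (hpos : 0 < (deriv f 0).re) : Sol b r f := by
  refine ⟨h.one_lt, hb', hb, h.diff, h.real, ?_, h.one, hpos, h.deriv_b⟩
  intro z hz
  have := h.zero z hz
  rwa [Complex.ofReal_zero] at this

theorem s3_of_sol {b : ℂ} {r : ℝ} {f : ℂ → ℂ} (h : Sol b r f) : SolA 0 b r f := by
  refine ⟨h.one_lt, h.diff, h.real, ?_, h.one, ?_, h.deriv_b⟩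
  · intro z hz
    rw [Complex.ofReal_zero]
    exact h.zero z hz
  · rw [Complex.ofReal_zero]
    intro hc
    have := h.deriv_zero
    rw [hc] at this
    simp at this

theorem solA_iff_realp {a : ℝ} {b : ℂ} (ha : |a| < 1) (hb : ‖b‖ < 1) (hb' : 0 < b.im) :
    (∃ (r : ℝ) (f : ℂ → ℂ), SolA a b r f) ↔
      Realp ((b - a) / (1 - a * b)) ∨ Realp (-starRingEnd ℂ ((b - a) / (1 - a * b))) := by
  obtain ⟨hβ1, hβ2⟩ := mobius_mem ha hb hb'
  set β : ℂ := (b - a) / (1 - a * b) with hβ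
  have ha2 := s3_sq_lt ha
  have hden : (1 : ℂ) - a * b ≠ 0 := by
    have h1 := (s3_den (c := -a) (s := 1) hb (by rw [abs_neg, mul_one]; exact ha)).2
    have e1 : (1 : ℂ) + ((-a : ℝ) : ℂ) * b = 1 - a * b := by push_cast; ring
    rwa [e1] at h1
  have hden2 : (1 : ℂ) + a * β ≠ 0 :=
    (s3_den (c := a) (s := 1) hβ1 (by rw [mul_one]; exact ha)).2
  have ha2c : (1 : ℂ) - a ^ 2 ≠ 0 := by
    have h1 : (1 - a ^ 2 : ℝ) ≠ 0 := by linarith
    exact_mod_cast h1
  have hβ' : β * (1 - a * b) = b - a := by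
    rw [hβ, div_mul_cancel₀ _ hden]
  have em : (β + a) / (1 + a * β) = b := by
    rw [div_eq_iff hden2]
    linear_combination hβ'
  constructor
  · rintro ⟨r, f, h⟩
    obtain ⟨s, F, hF⟩ := s3_transfer (c := a) (a' := 0) (b' := β) ha (by simp) hβ1
      (by simp) em h
    have him : (deriv F 0).im = 0 := by
      have h1 := s3_deriv_conj (z := 0) (mem_ball_self (zero_lt_one.trans hF.one_lt)) hF.diff
        hF.real
      rw [map_zero] at h1
      have h2 := congrArg Complex.im h1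
      rw [Complex.conj_im] at h2
      linarith
    have hne : (deriv F 0).re ≠ 0 := by
      intro hre
      have h1 := hF.deriv_a
      rw [Complex.ofReal_zero] at h1
      exact h1 (Complex.ext hre him)
    rcases lt_or_gt_of_ne hne with hneg | hpos
    · right
      obtain ⟨h1, h2⟩ := s3_neg hβ1 hF
      refine ⟨s, _, s3_sol ?_ ?_ h1 ?_⟩
      · rw [norm_neg, Complex.norm_conj]
        exact hβ1
      · rw [Complex.neg_im, Complex.conj_im, neg_neg]
        exact hβ2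
      · rw [h2, Complex.neg_re]
        linarith
    · left
      exact ⟨s, F, s3_sol hβ1 hβ2 hF hpos⟩
  · have hback : ∀ (r : ℝ) (f : ℂ → ℂ), SolA 0 β r f → ∃ (r : ℝ) (f : ℂ → ℂ), SolA a b r f := by
      intro r f h
      refine s3_transfer (c := -a) (a' := a) (b' := b) (by rw [abs_neg]; exact ha) ha hb ?_ ?_ h
      · push_cast
        rw [add_neg_cancel, zero_div]
      · push_cast
        rw [hβ]
        congr 1
        ring
    rintro (⟨r, f, h⟩ | ⟨r, f, h⟩)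
    · exact hback r f (s3_of_sol h)
    · have h1 := (s3_neg (by rw [norm_neg, Complex.norm_conj]; exact hβ1) (s3_of_sol h)).1
      rw [map_neg, Complex.conj_conj, neg_neg] at h1
      exact hback r _ h1

end Pool.Agent.Choc
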