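import Pool.Agent.Lib.MP_2b3e36_an.Ex.S2
import Pool.Agent.Lib.MP_2b3e36_an.Ex.S3

/-!
S4. The plant `z/(z^2+β)`, `0 < β < 1`, is bistably stabilizable iff `Realp (i sqrt β)`.

(←) `Realp (i √β)` gives `SolA 0 (i√β)` (`solA_iff_realp` with `a = 0`), `poly_of_solA` gives real polynomials
`U, W` without zeros in the closed disc with `X U - (X^2 + β) W = 1`; `controller β _ U (-W)` (library Core)
gives the controller (`X U + (X^2+β)(-W) = 1` is zero free).
(→) Let `c` be bistable, `StabilizedBy (plant β) c`; `c = N/D` reduced, `N, D` zero free on the closed disc. Put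
`E = X N + (X^2+β) D`. `E` has no zero in the closed disc: at a zero `z` with `z^2+β ≠ 0`:
`z/(z^2+β) = - D/N`, i.e. `valueAt (plant β) z = valueAt (-c⁻¹) z` (`valueAt_div`); if `z^2+β = 0` then
`z N(z) = 0`, `z = 0`, impossible. `f = X N / E`: on a ball of radius `r > 1` holomorphic and real; zeros: only
`0` (simple), `f - 1 = - (X^2+β) D/E`: ones only `± i √β` (simple). So `SolA 0 (i√β) r f` (or `StableSol` with
`P = X N`, `Q = E`), and `solA_iff_realp`; `-conj (i√β) = i √β`.
-/

set_option autoImplicit false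

open Complex Set Filter Topology Metric Polynomial

namespace Pool.Agent.Choc

theorem s4_b {β : ℝ} (h0 : 0 < β) :
    (((Real.sqrt β : ℝ) : ℂ) * I) ^ 2 = -(β : ℂ) ∧ (((Real.sqrt β : ℝ) : ℂ) * I).re = 0 ∧
    (((Real.sqrt β : ℝ) : ℂ) * I).im = Real.sqrt β ∧ ‖((Real.sqrt β : ℝ) : ℂ) * I‖ = Real.sqrt β ∧
    starRingEnd ℂ (((Real.sqrt β : ℝ) : ℂ) * I) = -(((Real.sqrt β : ℝ) : ℂ) * I) := by
  refine ⟨?_, by simp, by simp, ?_, ?_⟩
  · have h1 : ((Real.sqrt β : ℝ) : ℂ) ^ 2 = (β : ℂ) := by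
      have h2 : Real.sqrt β ^ 2 = β := Real.sq_sqrt h0.le
      exact_mod_cast h2
    rw [mul_pow, I_sq, h1]
    ring
  · rw [norm_mul, Complex.norm_I, mul_one, Complex.norm_real, Real.norm_eq_abs,
      abs_of_nonneg (Real.sqrt_nonneg β)]
  · rw [map_mul, Complex.conj_ofReal, Complex.conj_I]
    ring

open Pool.Agent.Lib.MP_2b3e36_an in
theorem s4_stable {β : ℝ} (h0 : 0 < β) (h1 : β < 1) (c : RatFunc ℝ) (hc : Bistable c)
    (hs : StabilizedBy (plant β) c) : StableSol 0 (Real.sqrt β * I) := by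
  obtain ⟨hN, hD⟩ := hc
  obtain ⟨b1, b2, b3, b4, b5⟩ := s4_b h0
  set b : ℂ := ((Real.sqrt β : ℝ) : ℂ) * I with hb
  set N := c.num with hNdef
  set D := c.denom with hDdef
  have hβc : (β : ℂ) ≠ 0 := by exact_mod_cast h0.ne'
  have hD0 : D ≠ 0 := by
    intro h
    exact hD 0 (by simp) (by rw [h]; simp)
  have hN0 : N ≠ 0 := by
    intro h
    exact hN 0 (by simp) (by rw [h]; simp)
  have hcd : c = algebraMap ℝ[X] (RatFunc ℝ) N / algebraMap ℝ[X] (RatFunc ℝ) D :=
    (RatFunc.num_div_denom c).symm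
  have hquad : ∀ z : ℂ, aeval z (X ^ 2 + C β : ℝ[X]) = z ^ 2 + (β : ℂ) := by
    intro z
    rw [map_add, map_pow, aeval_X, aeval_C]
    rfl
  have hfac : ∀ z : ℂ, z ^ 2 + (β : ℂ) = 0 ↔ z = b ∨ z = starRingEnd ℂ b := by
    intro z
    have e : z ^ 2 + (β : ℂ) = (z - b) * (z + b) := by
      have : (z - b) * (z + b) = z ^ 2 - b ^ 2 := by ring
      rw [this, b1]; ring
    rw [e, mul_eq_zero, sub_eq_zero, b5, add_eq_zero_iff_eq_neg]
  refine ⟨X * N, X * N + (X ^ 2 + C β) * D, ?_, ?_, ?_, ?_, ?_⟩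
  · intro z hz h
    rw [map_add, map_mul, map_mul, aeval_X, hquad] at h
    by_cases hp : z ^ 2 + (β : ℂ) = 0
    · rw [hp, zero_mul, add_zero] at h
      rcases mul_eq_zero.1 h with h2 | h2
      · rw [h2] at hp
        apply hβc
        simpa using hp
      · exact hN z hz h2
    · apply hs z hz
      have h2 : aeval z (X ^ 2 + C β : ℝ[X]) ≠ 0 := by rw [hquad]; exact hp
      have h3 : (-1 : RatFunc ℝ) / c =
          algebraMap ℝ[X] (RatFunc ℝ) (-D) / algebraMap ℝ[X] (RatFunc ℝ) N := by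
        rw [hcd, div_div_eq_mul_div, map_neg, neg_one_mul]
      rw [plant, valueAt_div _ _ _ h2, h3, valueAt_div _ _ _ (hN z hz)]
      congr 1
      rw [div_eq_div_iff h2 (hN z hz), hquad, aeval_X, map_neg]
      linear_combination h
  · intro z hz
    rw [map_mul, aeval_X, mul_eq_zero]
    constructor
    · rintro (h | h)
      · rw [h]; simp
      · exact absurd h (hN z hz)
    · intro h
      left
      rw [h]; simp
  · intro z hz
    rw [← hfac z, map_add, left_eq_add, map_mul, hquad, mul_eq_zero]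
    constructor
    · rintro (h | h)
      · exact h
      · exact absurd h (hD z hz)
    · intro h
      exact Or.inl h
  · have hd : derivative (X * N) = N + X * derivative N := by
      rw [derivative_mul, derivative_X, one_mul]
    rw [hd, map_add, map_mul, aeval_X]
    have h1 := hN 0 (by simp)
    simpa using h1
  · have hd : derivative (X * N - (X * N + (X ^ 2 + C β) * D)) =
        -(C 2 * X * D + (X ^ 2 + C β) * derivative D) := by
      have e : X * N - (X * N + (X ^ 2 + C β) * D) = -((X ^ 2 + C β) * D) := by ring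
      have e2 : derivative (X ^ 2 + C β : ℝ[X]) = C 2 * X := by
        rw [derivative_add, derivative_C, add_zero, derivative_X_pow]
        norm_num
      rw [e, derivative_neg, derivative_mul, e2]
    have hq : b ^ 2 + (β : ℂ) = 0 := by rw [b1]; ring
    rw [hd, map_neg, map_add, map_mul (aeval b) (X ^ 2 + C β), hquad, hq, zero_mul, add_zero,
      neg_ne_zero, map_mul, map_mul, aeval_X, aeval_C]
    have hb0 : b ≠ 0 := by
      intro h
      rw [h] at b1
      apply hβc
      have : (0 : ℂ) = -(β : ℂ) := by simpa using b1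
      rw [eq_comm, neg_eq_zero] at this
      exact this
    refine mul_ne_zero (mul_ne_zero ?_ hb0) ?_
    · simp
    · apply hD
      rw [b4]
      exact ((Real.sqrt_lt' one_pos).2 (by simpa using h1)).le

open Pool.Agent.Lib.MP_2b3e36_an in
theorem plant_iff {β : ℝ} (h0 : 0 < β) (h1 : β < 1) :
    (∃ c : RatFunc ℝ, Bistable c ∧ StabilizedBy (plant β) c) ↔ Realp (Real.sqrt β * I) := by
  obtain ⟨b1, b2, b3, b4, b5⟩ := s4_b h0
  have hs1 : Real.sqrt β < 1 := by
    rw [Real.sqrt_lt' one_pos]; simpa using h1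
  have hs0 : 0 < Real.sqrt β := Real.sqrt_pos.mpr h0
  have ha : |(0 : ℝ)| < 1 := by simp
  have hbn : ‖((Real.sqrt β : ℝ) : ℂ) * I‖ < 1 := by rw [b4]; exact hs1
  have hbi : 0 < (((Real.sqrt β : ℝ) : ℂ) * I).im := by rw [b3]; exact hs0
  have hz : ((((Real.sqrt β : ℝ) : ℂ) * I) - ((0 : ℝ) : ℂ)) /
      (1 - ((0 : ℝ) : ℂ) * (((Real.sqrt β : ℝ) : ℂ) * I)) = ((Real.sqrt β : ℝ) : ℂ) * I := by
    simp
  have hiff := solA_iff_realp ha hbn hbi
  rw [hz, b5, neg_neg, or_self] at hiff
  rw [← hiff]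
  constructor
  · rintro ⟨c, hc, hs⟩
    exact solA_of_stable ha hbn hbi (s4_stable h0 h1 c hc hs)
  · rintro ⟨r, f, hf⟩
    obtain ⟨U, W, hU, hW, hUW⟩ := poly_of_solA ha hbn hbi hf
    refine controller β h0 U (-W) hU ?_ ?_
    · intro z hz' h
      rw [map_neg, neg_eq_zero] at h
      exact hW z hz' h
    · intro z hz' h
      have e : X * U + (X ^ 2 + C β) * (-W) = (1 : ℝ[X]) := by
        rw [← hUW, b2, b4, Real.sq_sqrt h0.le]
        simp
        ring
      rw [e, map_one] at h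
      exact one_ne_zero h

end Pool.Agent.Choc
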