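import Pool.Agent.Lib.MP_2b3e36_an.Ex.Defs

/-!
T1. Basic facts on `th q = sum_{n in ℤ} q^(n^2)`, `‖q‖ < 1`.

Proof. `‖q^(n^2)‖ ≤ ‖q‖^|n|`, geometric; holomorphy: locally uniform convergence
(`differentiableOn_tsum_of_summable_norm`). `th_nome`: `jacobiTheta₂ 0 τ = sum exp (pi i n^2 τ)`
(`jacobiTheta₂_term`), and `nome τ ^ (n^2) = exp (pi i n^2 τ)`. `th_neg_nome`: the extra factor is
`exp (2 pi i n / 2) = (-1)^n = (-1)^(n^2)`. `th_real_pos`: `th t` is real for real `t`; for `t ≥ 0`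
all terms are nonnegative and the term `n = 0` is `1`. (For `t < 0` see T3.)
-/

set_option autoImplicit false

open Complex Set Filter Topology Metric

namespace Pool.Agent.Choc

theorem t1_sq_ge (n : ℕ) : n ≤ n ^ 2 := by
  rcases n with _ | n
  · simp
  · nlinarith

theorem t1_summ_nat {x : ℝ} (h0 : 0 ≤ x) (h1 : x < 1) : Summable fun n : ℕ => x ^ (n ^ 2) := by
  refine Summable.of_nonneg_of_le (fun n => by positivity) (fun n => ?_)
    (summable_geometric_of_lt_one h0 h1)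
  exact pow_le_pow_of_le_one h0 h1.le (t1_sq_ge n)

theorem t1_summ_real {x : ℝ} (h0 : 0 ≤ x) (h1 : x < 1) :
    Summable fun n : ℤ => x ^ (n.natAbs ^ 2) := by
  apply Summable.of_nat_of_neg
  · simpa using t1_summ_nat h0 h1
  · simpa using t1_summ_nat h0 h1

theorem th_summable {q : ℂ} (hq : ‖q‖ < 1) : Summable fun n : ℤ => ‖q ^ (n.natAbs ^ 2)‖ := by
  simpa only [norm_pow] using t1_summ_real (norm_nonneg q) hq

theorem th_diff : DifferentiableOn ℂ th (ball 0 1) := by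
  intro z hz
  rw [mem_ball_zero_iff] at hz
  obtain ⟨r, hr1, hr2⟩ := exists_between hz
  have hr0 : 0 ≤ r := (norm_nonneg z).trans hr1.le
  have h := differentiableOn_tsum_of_summable_norm (F := fun (n : ℤ) (q : ℂ) => q ^ (n.natAbs ^ 2))
    (U := ball (0 : ℂ) r) (t1_summ_real hr0 hr2)
    (fun n => (differentiable_id.pow _).differentiableOn) isOpen_ball
    (fun n w hw => by
      rw [norm_pow]
      exact pow_le_pow_left₀ (norm_nonneg _) (mem_ball_zero_iff.mp hw).le _)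
  have h2 : DifferentiableAt ℂ th z :=
    (h z (mem_ball_zero_iff.mpr hr1)).differentiableAt
      (isOpen_ball.mem_nhds (mem_ball_zero_iff.mpr hr1))
  exact h2.differentiableWithinAt

theorem th_zero : th 0 = 1 := by
  unfold th
  rw [tsum_eq_single (0 : ℤ)]
  · simp
  · intro n hn
    have : n.natAbs ^ 2 ≠ 0 := by
      have := Int.natAbs_ne_zero.mpr hn
      positivity
    exact zero_pow this

theorem th_conj (q : ℂ) : th (starRingEnd ℂ q) = starRingEnd ℂ (th q) := by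
  unfold th
  rw [Complex.conj_tsum]
  simp only [map_pow]

theorem t1_nome_pow (τ : ℂ) (n : ℤ) :
    nome τ ^ (n.natAbs ^ 2) = exp (Real.pi * I * n ^ 2 * τ) := by
  unfold nome
  rw [← Complex.exp_nat_mul]
  congr 1
  have : ((n.natAbs ^ 2 : ℕ) : ℂ) = (n : ℂ) ^ 2 := by
    have h : ((n.natAbs ^ 2 : ℕ) : ℤ) = n ^ 2 := by
      rw [Nat.cast_pow, Int.natAbs_sq]
    calc ((n.natAbs ^ 2 : ℕ) : ℂ) = (((n.natAbs ^ 2 : ℕ) : ℤ) : ℂ) := by norm_cast
      _ = (n : ℂ) ^ 2 := by rw [h]; push_cast; ring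
  rw [this]; ring

theorem th_nome {τ : ℂ} (hτ : 0 < τ.im) : th (nome τ) = jacobiTheta₂ 0 τ := by
  unfold th jacobiTheta₂
  refine tsum_congr fun n => ?_
  rw [t1_nome_pow, jacobiTheta₂_term]
  congr 1
  ring

theorem t1_neg_one_pow (n : ℤ) : (-1 : ℂ) ^ (n.natAbs ^ 2) = exp (Real.pi * I * n) := by
  have h1 : (-1 : ℂ) ^ (n.natAbs ^ 2) = (-1) ^ n.natAbs := by
    rcases Nat.even_or_odd n.natAbs with h | h
    · rw [Even.neg_one_pow h, Even.neg_one_pow (by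
        rw [sq]; exact h.mul_right _)]
    · rw [Odd.neg_one_pow h, Odd.neg_one_pow (h.pow)]
  rw [h1]
  have h2 : exp (Real.pi * I * n) = (-1 : ℂ) ^ n := by
    rw [mul_comm, Complex.exp_int_mul, Complex.exp_pi_mul_I]
  rw [h2]
  rcases Int.natAbs_eq n with h | h
  · conv_rhs => rw [h]
    rw [zpow_natCast]
  · conv_rhs => rw [h]
    rw [zpow_neg, zpow_natCast]
    rcases neg_one_pow_eq_or ℂ n.natAbs with h3 | h3 <;> rw [h3] <;> norm_num

theorem th_neg_nome {τ : ℂ} (hτ : 0 < τ.im) : th (-nome τ) = jacobiTheta₂ (1 / 2) τ := by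
  unfold th jacobiTheta₂
  refine tsum_congr fun n => ?_
  rw [neg_pow, t1_nome_pow, t1_neg_one_pow, jacobiTheta₂_term, ← Complex.exp_add]
  congr 1
  ring

theorem t1_ofReal (t : ℝ) : th t = ((∑' n : ℤ, t ^ (n.natAbs ^ 2) : ℝ) : ℂ) := by
  unfold th
  rw [Complex.ofReal_tsum]
  refine tsum_congr fun n => ?_
  push_cast; rfl

theorem th_real_pos {t : ℝ} (h0 : 0 ≤ t) (h1 : t < 1) : (th t).im = 0 ∧ 1 ≤ (th t).re := by
  rw [t1_ofReal]
  refine ⟨Complex.ofReal_im _, ?_⟩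
  rw [Complex.ofReal_re]
  have h := (t1_summ_real h0 h1).le_tsum 0 (fun n _ => by positivity)
  simpa using h

theorem t1_summ_c {q : ℂ} (hq : ‖q‖ < 1) : Summable fun n : ℕ => q ^ (n ^ 2) := by
  refine Summable.of_norm ?_
  simpa only [norm_pow] using t1_summ_nat (norm_nonneg q) hq

theorem t1_split {f : ℕ → ℂ} (hs : Summable f) :
    ∑' n : ℤ, f n.natAbs = ∑' n : ℕ, f n + ∑' n : ℕ, f (n + 1) := by
  have hs1 : Summable fun n : ℕ => f (n + 1) := (summable_nat_add_iff 1).mpr hs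
  have e1 : ∀ n : ℕ, (fun n : ℤ => f n.natAbs) (-((n : ℤ) + 1)) = f (n + 1) := by
    intro n
    have : (-((n : ℤ) + 1)).natAbs = n + 1 := by omega
    simp only [this]
  have := tsum_of_nat_of_neg_add_one (f := fun n : ℤ => f n.natAbs)
      (by simpa using hs) (by simpa only [e1] using hs1)
  rw [this]
  simp only [e1, Int.natAbs_natCast]

theorem t1_th_eq {q : ℂ} (hq : ‖q‖ < 1) :
    th q = 1 + 2 * q + 2 * ∑' n : ℕ, q ^ ((n + 2) ^ 2) := by
  have key : ∀ f : ℕ → ℂ, Summable f → f 0 = 1 → f 1 = q →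
      ∑' n : ℤ, f n.natAbs = 1 + 2 * q + 2 * ∑' n : ℕ, f (n + 2) := by
    intro f hs h4 h5
    have hs1 : Summable fun n : ℕ => f (n + 1) := (summable_nat_add_iff 1).mpr hs
    rw [t1_split hs, hs.tsum_eq_zero_add, hs1.tsum_eq_zero_add, h4, zero_add, h5]
    simp only [add_assoc, Nat.reduceAdd]
    ring
  exact key (fun n => q ^ (n ^ 2)) (t1_summ_c hq) (by simp only [ne_eq, OfNat.ofNat_ne_zero, not_false_eq_true, zero_pow, pow_zero])
    (by simp only [one_pow, pow_one])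

/-- The first terms: `th q = 1 + 2 q + O(q^4)`. -/
theorem th_expand {q : ℂ} (hq : ‖q‖ ≤ 1 / 2) : ‖th q - 1 - 2 * q‖ ≤ 4 * ‖q‖ ^ 4 := by
  have hq1 : ‖q‖ < 1 := by linarith
  rw [t1_th_eq hq1]
  have h1 : (1 + 2 * q + 2 * ∑' n : ℕ, q ^ ((n + 2) ^ 2)) - 1 - 2 * q =
      2 * ∑' n : ℕ, q ^ ((n + 2) ^ 2) := by ring
  rw [h1, norm_mul]
  have hb : ∀ n : ℕ, ‖q ^ ((n + 2) ^ 2)‖ ≤ ‖q‖ ^ 4 * (1 / 2) ^ n := by
    intro n
    rw [norm_pow]
    calc ‖q‖ ^ ((n + 2) ^ 2) ≤ ‖q‖ ^ (4 + n) :=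
          pow_le_pow_of_le_one (norm_nonneg _) hq1.le (by nlinarith)
      _ = ‖q‖ ^ 4 * ‖q‖ ^ n := pow_add _ _ _
      _ ≤ _ := by
          apply mul_le_mul_of_nonneg_left _ (by positivity)
          exact pow_le_pow_left₀ (norm_nonneg _) hq _
  have hg : HasSum (fun n : ℕ => ‖q‖ ^ 4 * (1 / 2 : ℝ) ^ n) (‖q‖ ^ 4 * 2) :=
    hasSum_geometric_two.mul_left _
  have h2 := tsum_of_norm_bounded hg hb
  have h3 : ‖(2 : ℂ)‖ = 2 := by norm_num
  rw [h3]
  linarith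

end Pool.Agent.Choc
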