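import Pool.Agent.Lib.MP_2b3e36_an.Ex.T1

/-!
T2. The two duplication formulas
`th q * th (-q) = th (-q^2)^2` and `th q^2 + th (-q)^2 = 2 th (q^2)^2`.

Proof. All double series converge absolutely. `th q^2 = sum_{(m,n)} q^(m^2+n^2)`,
`th (-q)^2 = sum (-1)^(m+n) q^(m^2+n^2)`, since `(-1)^(m^2) = (-1)^m`. Adding, only the pairs with
`m + n` even remain, with coefficient `2`; they are in bijection with `ℤ × ℤ` by
`m = a + b, n = a - b`, and `m^2 + n^2 = 2 (a^2 + b^2)`: this gives the second formula.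
First formula: `th q * th (-q) = sum (-1)^n q^(m^2+n^2)`. The pairs with `m + n` odd cancel under
the exchange `(m,n) -> (n,m)` (then `(-1)^m = -(-1)^n`); the pairs with `m+n` even give
`sum_{a,b} (-1)^(a-b) q^(2(a^2+b^2)) = (sum (-1)^a q^(2 a^2))^2 = th (-q^2)^2`, since
`(-q^2)^(a^2) = (-1)^a q^(2 a^2)`.
-/

set_option autoImplicit false

open Complex Set Filter Topology Metric

namespace Pool.Agent.Choc

/-- `(-1)^(n^2) = (-1)^n`. -/
theorem t2_sgn (n : ℤ) : (-1 : ℂ) ^ (n.natAbs ^ 2) = (-1) ^ n.natAbs := by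
  rcases Nat.even_or_odd n.natAbs with h | h
  · rw [Even.neg_one_pow h, Even.neg_one_pow (by rw [sq]; exact h.mul_right _)]
  · rw [Odd.neg_one_pow h, Odd.neg_one_pow h.pow]

theorem t2_sgn_eq {m n : ℤ} (h : Even (m + n)) : (-1 : ℂ) ^ m.natAbs = (-1) ^ n.natAbs := by
  have h1 : Even m.natAbs ↔ Even n.natAbs := by
    rw [Int.natAbs_even, Int.natAbs_even]
    exact Int.even_add.mp h
  rcases Nat.even_or_odd n.natAbs with h2 | h2
  · rw [Even.neg_one_pow h2, Even.neg_one_pow (h1.mpr h2)]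
  · rw [Odd.neg_one_pow h2, Odd.neg_one_pow]
    rw [← Nat.not_even_iff_odd] at h2 ⊢
    exact fun h3 => h2 (h1.mp h3)

theorem t2_sgn_ne {m n : ℤ} (h : ¬ Even (m + n)) : (-1 : ℂ) ^ m.natAbs = -(-1) ^ n.natAbs := by
  have h1 : ¬ (Even m.natAbs ↔ Even n.natAbs) := by
    rw [Int.natAbs_even, Int.natAbs_even]
    exact fun h2 => h (Int.even_add.mpr h2)
  rcases Nat.even_or_odd n.natAbs with h2 | h2
  · rw [Even.neg_one_pow h2, Odd.neg_one_pow]
    rw [← Nat.not_even_iff_odd]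
    exact fun h3 => h1 ⟨fun _ => h2, fun _ => h3⟩
  · rw [Odd.neg_one_pow h2, Even.neg_one_pow, neg_neg]
    by_contra h3
    rw [← Nat.not_even_iff_odd] at h2
    exact h1 ⟨fun h => absurd h h3, fun h => absurd h h2⟩

/-- The map `(a, b) ↦ (a + b, a - b)`. -/
def t2_phi (p : ℤ × ℤ) : ℤ × ℤ := (p.1 + p.2, p.1 - p.2)

theorem t2_phi_inj : Function.Injective t2_phi := by
  rintro ⟨a, b⟩ ⟨c, d⟩ h
  simp only [t2_phi, Prod.mk.injEq] at h
  ext <;> simp only <;> omega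

theorem t2_phi_range {m n : ℤ} (h : Even (m + n)) : (m, n) ∈ Set.range t2_phi := by
  obtain ⟨k, hk⟩ := h
  refine ⟨(k, m - k), ?_⟩
  simp only [t2_phi, Prod.mk.injEq]
  constructor <;> omega

theorem t2_phi_sq (a b : ℤ) :
    (a + b).natAbs ^ 2 + (a - b).natAbs ^ 2 = 2 * (a.natAbs ^ 2) + 2 * (b.natAbs ^ 2) := by
  have h : (((a + b).natAbs ^ 2 + (a - b).natAbs ^ 2 : ℕ) : ℤ) =
      ((2 * (a.natAbs ^ 2) + 2 * (b.natAbs ^ 2) : ℕ) : ℤ) := by
    push_cast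
    rw [sq_abs, sq_abs, sq_abs, sq_abs]
    ring
  exact_mod_cast h

theorem t2_mul {q q' : ℂ} (hq : ‖q‖ < 1) (hq' : ‖q'‖ < 1) :
    th q * th q' = ∑' p : ℤ × ℤ, q ^ (p.1.natAbs ^ 2) * q' ^ (p.2.natAbs ^ 2) :=
  tsum_mul_tsum_of_summable_norm (f := fun n : ℤ => q ^ (n.natAbs ^ 2))
    (g := fun n : ℤ => q' ^ (n.natAbs ^ 2)) (th_summable hq) (th_summable hq')

theorem t2_summ {q q' : ℂ} (hq : ‖q‖ < 1) (hq' : ‖q'‖ < 1) :
    Summable fun p : ℤ × ℤ => q ^ (p.1.natAbs ^ 2) * q' ^ (p.2.natAbs ^ 2) :=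
  summable_mul_of_summable_norm (f := fun n : ℤ => q ^ (n.natAbs ^ 2))
    (g := fun n : ℤ => q' ^ (n.natAbs ^ 2)) (th_summable hq) (th_summable hq')

/-- Reindexing by the pairs of equal parity. -/
theorem t2_reindex {F G : ℤ × ℤ → ℂ} (h0 : ∀ m n : ℤ, ¬ Even (m + n) → F (m, n) = 0)
    (h1 : ∀ a b : ℤ, F (a + b, a - b) = G (a, b)) : ∑' p, F p = ∑' p, G p := by
  rw [← t2_phi_inj.tsum_eq (f := F)]
  · refine tsum_congr fun p => ?_
    rw [← h1 p.1 p.2]; rfl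
  · intro p hp
    by_contra hr
    refine hp (h0 p.1 p.2 fun he => hr ?_)
    exact t2_phi_range he

theorem th_mul_neg {q : ℂ} (hq : ‖q‖ < 1) : th q * th (-q) = th (-q ^ 2) ^ 2 := by
  have hq' : ‖-q‖ < 1 := by rwa [norm_neg]
  have hq2 : ‖-q ^ 2‖ < 1 := by
    rw [norm_neg, norm_pow]
    exact pow_lt_one₀ (norm_nonneg _) hq two_ne_zero
  have e1 := t2_mul hq hq'
  have e2 := t2_mul hq' hq
  have hs1 := t2_summ hq hq'
  have hs2 := t2_summ hq' hq
  have e3 : th q * th (-q) + th (-q) * th q = 2 * th (-q ^ 2) ^ 2 := by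
    rw [e1, e2, ← hs1.tsum_add hs2, sq (th (-q ^ 2)), t2_mul hq2 hq2, ← tsum_mul_left]
    apply t2_reindex
    · intro m n h
      rw [neg_pow q (n.natAbs ^ 2), neg_pow q (m.natAbs ^ 2), t2_sgn, t2_sgn, t2_sgn_ne h]
      ring
    · intro a b
      have h : Even ((a + b) + (a - b)) := ⟨a, by ring⟩
      rw [neg_pow q ((a - b).natAbs ^ 2), neg_pow q ((a + b).natAbs ^ 2), t2_sgn, t2_sgn,
        t2_sgn_eq h, neg_pow (q ^ 2), neg_pow (q ^ 2), t2_sgn, t2_sgn, ← pow_mul, ← pow_mul]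
      have h2 : (-1 : ℂ) ^ (a - b).natAbs = (-1) ^ a.natAbs * (-1) ^ b.natAbs := by
        rw [← pow_add]
        rcases Nat.even_or_odd (a - b).natAbs with h3 | h3
        · rw [Even.neg_one_pow h3, Even.neg_one_pow]
          rw [Int.natAbs_even, Int.even_sub] at h3
          rw [Nat.even_add, Int.natAbs_even, Int.natAbs_even]
          exact h3
        · rw [Odd.neg_one_pow h3, Odd.neg_one_pow]
          rw [← Nat.not_even_iff_odd] at h3 ⊢
          intro h4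
          apply h3
          rw [Nat.even_add, Int.natAbs_even, Int.natAbs_even] at h4
          rw [Int.natAbs_even, Int.even_sub]
          exact h4
      have h5 : q ^ ((a + b).natAbs ^ 2) * q ^ ((a - b).natAbs ^ 2) =
          q ^ (2 * a.natAbs ^ 2) * q ^ (2 * b.natAbs ^ 2) := by
        rw [← pow_add, ← pow_add, t2_phi_sq]
      rw [h2]
      linear_combination (2 * (-1 : ℂ) ^ a.natAbs * (-1) ^ b.natAbs) * h5
  have e4 : th (-q) * th q = th q * th (-q) := mul_comm _ _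
  rw [e4] at e3
  linear_combination e3 / 2

theorem th_sq_add {q : ℂ} (hq : ‖q‖ < 1) : th q ^ 2 + th (-q) ^ 2 = 2 * th (q ^ 2) ^ 2 := by
  have hq' : ‖-q‖ < 1 := by rwa [norm_neg]
  have hq2 : ‖q ^ 2‖ < 1 := by
    rw [norm_pow]
    exact pow_lt_one₀ (norm_nonneg _) hq two_ne_zero
  rw [sq (th q), sq (th (-q)), sq (th (q ^ 2)), t2_mul hq hq, t2_mul hq' hq', t2_mul hq2 hq2,
    ← (t2_summ hq hq).tsum_add (t2_summ hq' hq'), ← tsum_mul_left]
  apply t2_reindex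
  · intro m n h
    rw [neg_pow q (n.natAbs ^ 2), neg_pow q (m.natAbs ^ 2), t2_sgn, t2_sgn, t2_sgn_ne h]
    have h6 : ((-1 : ℂ) ^ n.natAbs) * (-1) ^ n.natAbs = 1 := by
      rw [← pow_add, Even.neg_one_pow ⟨_, rfl⟩]
    linear_combination (-(q ^ (m.natAbs ^ 2) * q ^ (n.natAbs ^ 2))) * h6
  · intro a b
    have h : Even ((a + b) + (a - b)) := ⟨a, by ring⟩
    rw [neg_pow q ((a - b).natAbs ^ 2), neg_pow q ((a + b).natAbs ^ 2), t2_sgn, t2_sgn,
      t2_sgn_eq h, ← pow_mul, ← pow_mul]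
    have h6 : ((-1 : ℂ) ^ (a - b).natAbs) * (-1) ^ (a - b).natAbs = 1 := by
      rw [← pow_add, Even.neg_one_pow ⟨_, rfl⟩]
    have h5 : q ^ ((a + b).natAbs ^ 2) * q ^ ((a - b).natAbs ^ 2) =
        q ^ (2 * a.natAbs ^ 2) * q ^ (2 * b.natAbs ^ 2) := by
      rw [← pow_add, ← pow_add, t2_phi_sq]
    linear_combination (q ^ ((a + b).natAbs ^ 2) * q ^ ((a - b).natAbs ^ 2)) * h6 + 2 * h5

end Pool.Agent.Choc
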