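import Pool.Agent.Lib.MP_2b3e36_an.Ex.T2

/-!
T3. `th` has no zero in the unit disc; the function `rho = th (-q) / th q`.

Proof of `th_ne_zero`. If `th q = 0` then `th (-q^2)^2 = 0` by `th_mul_neg`. If `th (-s) = 0` with
`‖s‖ < 1` then `th (-s^2)^2 = th s * th (-s) = 0`. So `th (-q^(2^m)) = 0` for all `m ≥ 1`; but
`q^(2^m) → 0` and `th` is continuous at `0` with `th 0 = 1`. Contradiction.
`one_add_rho_sq_ne`: `1 + rho q ^2 = 2 th (q^2)^2 / th q ^2`. `rho_landen`: divide the two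
duplication formulas. `rho_real`: `th t` is real, nonzero on `(-1,1)`, `th 0 = 1`, so positive by the
intermediate value theorem.
-/

set_option autoImplicit false

open Complex Set Filter Topology Metric

namespace Pool.Agent.Choc

theorem t3_sq_lt {q : ℂ} (hq : ‖q‖ < 1) : ‖q ^ 2‖ < 1 := by
  rw [norm_pow]
  exact pow_lt_one₀ (norm_nonneg _) hq two_ne_zero

theorem t3_cont {q : ℂ} (hq : ‖q‖ < 1) : ContinuousAt th q :=
  (th_diff.differentiableAt (isOpen_ball.mem_nhds (mem_ball_zero_iff.mpr hq))).continuousAt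

theorem t3_step {s : ℂ} (hs : ‖s‖ < 1) (h : th (-s) = 0) : th (-s ^ 2) = 0 := by
  have := th_mul_neg hs
  rw [h, mul_zero] at this
  exact pow_eq_zero_iff two_ne_zero |>.mp this.symm

theorem th_ne_zero {q : ℂ} (hq : ‖q‖ < 1) : th q ≠ 0 := by
  intro h0
  have h1 : th (-q ^ 2) = 0 := by
    have := th_mul_neg hq
    rw [h0, zero_mul] at this
    exact pow_eq_zero_iff two_ne_zero |>.mp this.symm
  have h2 : ∀ m : ℕ, th (-q ^ (2 ^ (m + 1))) = 0 := by
    intro m
    induction m with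
    | zero => simpa using h1
    | succ m ih =>
      have hs : ‖q ^ (2 ^ (m + 1))‖ < 1 := by
        rw [norm_pow]
        exact pow_lt_one₀ (norm_nonneg _) hq (by positivity)
      have := t3_step hs ih
      rwa [← pow_mul, ← pow_succ] at this
  have h3 : Tendsto (fun m : ℕ => -q ^ (2 ^ (m + 1))) atTop (𝓝 0) := by
    have h4 : Tendsto (fun n : ℕ => q ^ n) atTop (𝓝 0) := tendsto_pow_atTop_nhds_zero_of_norm_lt_one hq
    have h5 : Tendsto (fun m : ℕ => 2 ^ (m + 1)) atTop atTop :=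
      (tendsto_add_atTop_iff_nat 1).mpr (tendsto_pow_atTop_atTop_of_one_lt one_lt_two)
    have h6 := (h4.comp h5).neg
    simpa using h6
  have h4 : Tendsto (fun m : ℕ => th (-q ^ (2 ^ (m + 1)))) atTop (𝓝 (th 0)) :=
    (t3_cont (q := 0) (by simp)).tendsto.comp h3
  simp only [h2, th_zero] at h4
  exact zero_ne_one (tendsto_nhds_unique tendsto_const_nhds h4)

theorem rho_ne_zero {q : ℂ} (hq : ‖q‖ < 1) : rho q ≠ 0 :=
  div_ne_zero (th_ne_zero (by rwa [norm_neg])) (th_ne_zero hq)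

theorem rho_zero : rho 0 = 1 := by
  unfold rho
  rw [neg_zero, th_zero, div_one]

theorem rho_diff : DifferentiableOn ℂ rho (ball 0 1) := by
  have h1 : DifferentiableOn ℂ (fun q : ℂ => th (-q)) (ball 0 1) := by
    refine th_diff.comp (differentiable_id.neg.differentiableOn) ?_
    intro q hq
    rw [mem_ball_zero_iff] at hq ⊢
    simpa using hq
  exact h1.div th_diff fun q hq => th_ne_zero (mem_ball_zero_iff.mp hq)

theorem rho_neg (q : ℂ) : rho (-q) = (rho q)⁻¹ := by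
  unfold rho
  rw [neg_neg, inv_div]

theorem rho_conj (q : ℂ) : rho (starRingEnd ℂ q) = starRingEnd ℂ (rho q) := by
  unfold rho
  rw [← map_neg, th_conj, th_conj, map_div₀]

theorem t3_one_add {q : ℂ} (hq : ‖q‖ < 1) : 1 + rho q ^ 2 = 2 * th (q ^ 2) ^ 2 / th q ^ 2 := by
  have h1 := th_ne_zero hq
  unfold rho
  rw [← th_sq_add hq]
  field_simp

theorem one_add_rho_sq_ne {q : ℂ} (hq : ‖q‖ < 1) : 1 + rho q ^ 2 ≠ 0 := by
  rw [t3_one_add hq]
  exact div_ne_zero (mul_ne_zero two_ne_zero (pow_ne_zero _ (th_ne_zero (t3_sq_lt hq))))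
    (pow_ne_zero _ (th_ne_zero hq))

theorem rho_landen {q : ℂ} (hq : ‖q‖ < 1) : rho (q ^ 2) ^ 2 = 2 * rho q / (1 + rho q ^ 2) := by
  have h1 := th_ne_zero hq
  have h2 := th_ne_zero (t3_sq_lt hq)
  rw [t3_one_add hq]
  unfold rho
  rw [div_pow, ← th_mul_neg hq]
  field_simp

theorem t3_th_real {t : ℝ} (h : |t| < 1) : (th t).im = 0 ∧ 0 < (th t).re := by
  rcases le_or_gt 0 t with h0 | h0
  · have := th_real_pos h0 (lt_of_le_of_lt (le_abs_self t) h)
    exact ⟨this.1, by linarith [this.2]⟩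
  · have h1 : -t < 1 := lt_of_le_of_lt (neg_le_abs t) h
    have hp := th_real_pos (t := -t) (by linarith) h1
    have hn : ‖((-t : ℝ) : ℂ)‖ < 1 := by
      rw [Complex.norm_real, Real.norm_eq_abs, abs_neg]; exact h
    have hm := th_mul_neg hn
    have e1 : -(((-t : ℝ)) : ℂ) = (t : ℂ) := by push_cast; ring
    have e2 : -(((-t : ℝ)) : ℂ) ^ 2 = ((-(t ^ 2) : ℝ) : ℂ) := by push_cast; ring
    rw [e1, e2, t1_ofReal, t1_ofReal, t1_ofReal] at hm
    rw [t1_ofReal] at hp
    rw [t1_ofReal]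
    rw [Complex.ofReal_re, Complex.ofReal_im] at hp
    rw [Complex.ofReal_re, Complex.ofReal_im]
    refine ⟨rfl, ?_⟩
    have hnz : th (t : ℂ) ≠ 0 := th_ne_zero (by rw [Complex.norm_real, Real.norm_eq_abs]; exact h)
    rw [t1_ofReal, Complex.ofReal_ne_zero] at hnz
    set x := ∑' n : ℤ, (-t) ^ (n.natAbs ^ 2)
    set y := ∑' n : ℤ, t ^ (n.natAbs ^ 2)
    set z := ∑' n : ℤ, (-(t ^ 2)) ^ (n.natAbs ^ 2)
    have hm' : x * y = z ^ 2 := by exact_mod_cast hm
    have h2 : 0 ≤ x * y := by rw [hm']; positivity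
    have h3 : 0 ≤ y := nonneg_of_mul_nonneg_right h2 (by linarith [hp.2])
    exact lt_of_le_of_ne h3 (Ne.symm hnz)

theorem rho_real {t : ℝ} (h : |t| < 1) : (rho t).im = 0 ∧ 0 < (rho t).re := by
  have h1 := t3_th_real h
  have h2 := t3_th_real (t := -t) (by rwa [abs_neg])
  have e : -(t : ℂ) = ((-t : ℝ) : ℂ) := by push_cast; ring
  unfold rho
  rw [e, t1_ofReal, t1_ofReal, ← Complex.ofReal_div, Complex.ofReal_im, Complex.ofReal_re]
  rw [t1_ofReal, Complex.ofReal_im, Complex.ofReal_re] at h1 h2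
  exact ⟨rfl, div_pos h2.2 h1.2⟩

theorem t3_th_deriv : HasDerivAt th 2 0 := by
  rw [hasDerivAt_iff_isLittleO]
  have h1 : (fun q : ℂ => th q - th 0 - (q - 0) • (2 : ℂ)) =O[𝓝 0] fun q : ℂ => q ^ 4 := by
    apply Asymptotics.IsBigO.of_bound 4
    have : ∀ᶠ q : ℂ in 𝓝 0, ‖q‖ < 1 / 2 := by
      have := Metric.ball_mem_nhds (0 : ℂ) (by norm_num : (0 : ℝ) < 1 / 2)
      filter_upwards [this] with q hq
      exact mem_ball_zero_iff.mp hq
    filter_upwards [this] with q hq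
    have h2 := th_expand hq.le
    rw [th_zero, norm_pow]
    have e : th q - 1 - (q - 0) • (2 : ℂ) = th q - 1 - 2 * q := by
      rw [smul_eq_mul]; ring
    rw [e]
    exact h2
  have h2 : (fun q : ℂ => q ^ 4) =o[𝓝 0] fun q : ℂ => q := Asymptotics.isLittleO_pow_id (by norm_num)
  simpa using h1.trans_isLittleO h2

theorem rho_hasDerivAt_zero : HasDerivAt rho (-4) 0 := by
  have h1 : HasDerivAt (fun q : ℂ => th (-q)) (2 * -1) 0 := by
    have h2 : HasDerivAt th 2 (-(0 : ℂ)) := by rw [neg_zero]; exact t3_th_deriv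
    exact HasDerivAt.comp (0 : ℂ) h2 (hasDerivAt_neg (0 : ℂ))
  have h3 := h1.div t3_th_deriv (by rw [th_zero]; exact one_ne_zero)
  have e : (2 * -1 * th 0 - th (-0) * 2) / th 0 ^ 2 = -4 := by
    rw [neg_zero, th_zero]; norm_num
  rw [e] at h3
  exact h3

end Pool.Agent.Choc
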