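import Pool.Agent.Lib.MP_2b3e36_an.Ex.T3

/-!
T4. The transformation `J (nome τ) + J (nome (-1/τ)) = 1` and its consequences.

Proof. Put `theta2 τ = exp (pi i τ / 4) * jacobiTheta₂ (τ/2) τ` (`= sum exp (pi i (n+1/2)^2 τ)`).
(a) `jacobiTheta₂_functional_equation` at `z = 0` and `z = 1/2`:
`th (nome τ) = (-iτ)^(-1/2) th (nome (-1/τ))` and
`th (-nome τ) = (-iτ)^(-1/2) theta2 (-1/τ)` (for `z = 1/2` the factor is
`exp (- pi i / (4 τ))` and `jacobiTheta₂ (1/(2τ)) (-1/τ) = jacobiTheta₂ ((-1/τ)/2) (-1/τ)` by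
evenness). Hence `J (nome τ) = (theta2 / theta3)^4 (-1/τ)`.
(b) Jacobi: `theta3^4 = theta2^4 + theta4^4` at every point. With `q = nome σ`, from double series as
in T2: `th q^2 - th (-q)^2 = 2 theta2(2σ)^2` (pairs with `m + n` odd: `m = a+b+1, n = a-b`,
`m^2+n^2 = 2((a+1/2)^2+(b+1/2)^2)`), `theta2(σ)^2 = 2 theta2(2σ) th (q^2)`
(`(m+1/2)^2+(n+1/2)^2 = 2 (a^2 + (b+1/2)^2)` with `m+n+1 = 2a` or `m - n = 2a`: split the pairs by the
parity of `m + n`), and `th q^2 + th (-q)^2 = 2 th (q^2)^2`. Then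
`theta3^4 - theta4^4 = (2 theta2(2σ)^2)(2 th(q^2)^2) = (theta2(σ)^2)^2`.
(c) So `J (nome σ) + (theta2/theta3)^4 (σ) = 1` with `σ = -1/τ`, and by (a) the second term is
`J (nome τ)`.
`J_eq_one_iff`: for `q ≠ 0` write `q = nome τ`; `J q = 1 - J (nome (-1/τ)) ≠ 1`.
`exists_nome`: `τ = (log q) / (pi i)`.
-/

set_option autoImplicit false

open Complex Set Filter Topology Metric

namespace Pool.Agent.Choc

theorem t4_pi_I : (Real.pi : ℂ) * I ≠ 0 :=
  mul_ne_zero (by exact_mod_cast Real.pi_ne_zero) I_ne_zero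

theorem exists_nome {q : ℂ} (h0 : q ≠ 0) (hq : ‖q‖ < 1) :
    ∃ τ : ℂ, 0 < τ.im ∧ -1 < τ.re ∧ τ.re ≤ 1 ∧ nome τ = q := by
  have hpi := Real.pi_pos
  have e : log q / (Real.pi * I) = ((arg q / Real.pi : ℝ) : ℂ) + ((-Real.log ‖q‖ / Real.pi : ℝ) : ℂ) * I := by
    rw [div_eq_iff t4_pi_I]
    apply Complex.ext
    · simp [Complex.log_re]
    · simp [Complex.log_im]
  refine ⟨log q / (Real.pi * I), ?_, ?_, ?_, ?_⟩
  · rw [e]
    simp only [add_im, ofReal_im, mul_im, ofReal_re, I_im, mul_one, I_re, mul_zero, add_zero,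
      zero_add]
    have : Real.log ‖q‖ < 0 := Real.log_neg (norm_pos_iff.mpr h0) hq
    exact div_pos (by linarith) hpi
  · rw [e]
    simp only [add_re, ofReal_re, mul_re, I_re, mul_zero, ofReal_im, I_im, mul_one, sub_self,
      add_zero]
    rw [lt_div_iff₀ hpi]
    linarith [neg_pi_lt_arg q]
  · rw [e]
    simp only [add_re, ofReal_re, mul_re, I_re, mul_zero, ofReal_im, I_im, mul_one, sub_self,
      add_zero]
    rw [div_le_one hpi]
    exact arg_le_pi q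
  · unfold nome
    rw [mul_div_cancel₀ _ t4_pi_I, exp_log h0]

theorem nome_norm_lt {τ : ℂ} (hτ : 0 < τ.im) : ‖nome τ‖ < 1 := by
  unfold nome
  rw [Complex.norm_exp]
  have : ((Real.pi : ℂ) * I * τ).re = -(Real.pi * τ.im) := by
    simp [mul_re]
  rw [this, Real.exp_lt_one_iff]
  have := mul_pos Real.pi_pos hτ
  linarith

theorem t4_even {w : ℂ} (hw : ‖w‖ < 1) : th w + th (-w) = 2 * th (w ^ 4) := by
  have hw' : ‖-w‖ < 1 := by rwa [norm_neg]
  have hinj : Function.Injective fun k : ℤ => 2 * k := fun a b h => by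
    simp only at h; omega
  unfold th
  rw [← (th_summable hw).of_norm.tsum_add (th_summable hw').of_norm, ← tsum_mul_left,
    ← hinj.tsum_eq (f := fun n : ℤ => w ^ (n.natAbs ^ 2) + (-w) ^ (n.natAbs ^ 2))]
  · refine tsum_congr fun k => ?_
    have h1 : (2 * k).natAbs ^ 2 = 4 * k.natAbs ^ 2 := by
      rw [Int.natAbs_mul, mul_pow]; rfl
    have h2 : Even (4 * k.natAbs ^ 2) := ⟨2 * k.natAbs ^ 2, by ring⟩
    simp only [h1]
    rw [h2.neg_pow, pow_mul]
    ring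
  · intro n hn
    by_contra hr
    refine hn ?_
    have h1 : Odd n := by
      rw [← Int.not_even_iff_odd]
      rintro ⟨k, hk⟩
      exact hr ⟨k, by simp only; omega⟩
    have h2 : Odd (n.natAbs ^ 2) := (Int.natAbs_odd.mpr h1).pow
    simp only [h2.neg_pow, add_neg_cancel]

theorem t4_odd {w : ℂ} (hw : ‖w‖ < 1) :
    th w - th (-w) = 2 * ∑' n : ℤ, w ^ ((2 * n + 1).natAbs ^ 2) := by
  have hw' : ‖-w‖ < 1 := by rwa [norm_neg]
  have hinj : Function.Injective fun k : ℤ => 2 * k + 1 := fun a b h => by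
    simp only at h; omega
  unfold th
  rw [← (th_summable hw).of_norm.tsum_sub (th_summable hw').of_norm, ← tsum_mul_left,
    ← hinj.tsum_eq (f := fun n : ℤ => w ^ (n.natAbs ^ 2) - (-w) ^ (n.natAbs ^ 2))]
  · refine tsum_congr fun k => ?_
    have h1 : Odd (2 * k + 1) := ⟨k, rfl⟩
    have h2 : Odd ((2 * k + 1).natAbs ^ 2) := (Int.natAbs_odd.mpr h1).pow
    simp only [h2.neg_pow]
    ring
  · intro n hn
    by_contra hr
    refine hn ?_
    have h1 : Even n := by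
      rw [← Int.not_odd_iff_even]
      rintro ⟨k, hk⟩
      exact hr ⟨k, by simp only; omega⟩
    have h2 : Even (n.natAbs ^ 2) := by
      rw [sq]; exact (Int.natAbs_even.mpr h1).mul_right _
    simp only [h2.neg_pow, sub_self]

/-- Jacobi's identity `theta3^4 = theta2^4 + theta4^4`. -/
theorem t4_jacobi {w : ℂ} (hw : ‖w‖ < 1) :
    (∑' n : ℤ, w ^ ((2 * n + 1).natAbs ^ 2)) ^ 4 + th (-w ^ 4) ^ 4 = th (w ^ 4) ^ 4 := by
  have h1 := t4_even hw
  have h2 := t4_odd hw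
  have h3 := th_mul_neg hw
  have h4 := th_sq_add hw
  have h5 := th_mul_neg (t3_sq_lt hw)
  rw [← pow_mul] at h5
  set O := ∑' n : ℤ, w ^ ((2 * n + 1).natAbs ^ 2)
  set a := th w
  set b := th (-w)
  set c := th (-w ^ 2)
  set d := th (w ^ 2)
  have hE : th (w ^ 4) = (a + b) / 2 := by rw [h1]; ring
  have hO : O = (a - b) / 2 := by rw [h2]; ring
  have h6 : th (-w ^ 4) ^ 4 = (d * c) ^ 2 := by
    rw [h5]; ring
  rw [h6, hE, hO]
  have h7 : (d * c) ^ 2 = (d ^ 2) * (c ^ 2) := by ring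
  rw [h7, ← h3]
  have h8 : d ^ 2 = (a ^ 2 + b ^ 2) / 2 := by rw [h4]; ring
  rw [h8]
  ring

theorem t4_neg_inv_im {τ : ℂ} (hτ : 0 < τ.im) : 0 < (-1 / τ).im := by
  rw [neg_div, neg_im, one_div, inv_im, neg_div, neg_neg]
  apply div_pos hτ
  rw [normSq_pos]
  rintro rfl
  simp at hτ

theorem t4_theta2 {σ : ℂ} (hσ : 0 < σ.im) :
    exp (Real.pi * I * σ / 4) * jacobiTheta₂ (σ / 2) σ =
      ∑' n : ℤ, nome (σ / 4) ^ ((2 * n + 1).natAbs ^ 2) := by
  unfold jacobiTheta₂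
  rw [← tsum_mul_left]
  refine tsum_congr fun n => ?_
  rw [t1_nome_pow, jacobiTheta₂_term, ← Complex.exp_add]
  congr 1
  push_cast
  ring

theorem J_inv {τ : ℂ} (hτ : 0 < τ.im) : J (nome τ) + J (nome (-1 / τ)) = 1 := by
  have hσ := t4_neg_inv_im hτ
  set σ := -1 / τ with hσd
  have hτ0 : τ ≠ 0 := by rintro rfl; simp at hτ
  set w := nome (σ / 4) with hw
  have hσ4 : 0 < (σ / 4).im := by
    have : (σ / 4).im = σ.im / 4 := by
      have : σ / 4 = ((1 / 4 : ℝ) : ℂ) * σ := by push_cast; ring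
      rw [this, Complex.im_ofReal_mul]; ring
    rw [this]; linarith
  have hw1 : ‖w‖ < 1 := nome_norm_lt hσ4
  have hw4 : w ^ 4 = nome σ := by
    rw [hw]; unfold nome
    rw [← Complex.exp_nat_mul]
    congr 1
    push_cast; ring
  set c := 1 / (-I * τ) ^ (1 / 2 : ℂ) with hc
  have hc0 : c ≠ 0 := by
    rw [hc]
    apply one_div_ne_zero
    rw [Ne, Complex.cpow_eq_zero_iff]
    rintro ⟨h, _⟩
    exact (mul_ne_zero (neg_ne_zero.mpr I_ne_zero) hτ0) h
  have f1 : th (nome τ) = c * th (nome σ) := by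
    rw [th_nome hτ, th_nome hσ, jacobiTheta₂_functional_equation]
    simp [hc, hσd]
  have f2 : th (-nome τ) = c * ∑' n : ℤ, w ^ ((2 * n + 1).natAbs ^ 2) := by
    rw [th_neg_nome hτ, jacobiTheta₂_functional_equation, hw, ← t4_theta2 hσ]
    have e1 : (1 / 2 : ℂ) / τ = -(σ / 2) := by
      rw [hσd]; field_simp
    have e2 : -(Real.pi : ℂ) * I * (1 / 2) ^ 2 / τ = Real.pi * I * σ / 4 := by
      rw [hσd]; field_simp; norm_num
    rw [e1, e2, jacobiTheta₂_neg_left, ← hσd, ← hc]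
    ring
  have hE : th (nome σ) ≠ 0 := th_ne_zero (nome_norm_lt hσ)
  have hj := t4_jacobi hw1
  rw [hw4] at hj
  unfold J rho
  rw [f1, f2, mul_div_mul_left _ _ hc0, div_pow, div_pow, ← add_div, hj,
    div_self (pow_ne_zero _ hE)]

theorem J_ne_zero {q : ℂ} (hq : ‖q‖ < 1) : J q ≠ 0 := pow_ne_zero _ (rho_ne_zero hq)

theorem J_zero : J 0 = 1 := by
  unfold J
  rw [rho_zero, one_pow]

theorem J_eq_one_iff {q : ℂ} (hq : ‖q‖ < 1) : J q = 1 ↔ q = 0 := by
  constructor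
  · intro h
    by_contra h0
    obtain ⟨τ, hτ, -, -, rfl⟩ := exists_nome h0 hq
    have h1 := J_inv hτ
    rw [h] at h1
    exact J_ne_zero (nome_norm_lt (t4_neg_inv_im hτ)) (by linear_combination h1)
  · rintro rfl
    exact J_zero

theorem J_diff : DifferentiableOn ℂ J (ball 0 1) := rho_diff.pow 4

theorem J_hasDerivAt_zero : HasDerivAt J (-16) 0 := by
  have h := rho_hasDerivAt_zero.pow 4
  rw [rho_zero] at h
  norm_num at h
  exact h

theorem J_neg (q : ℂ) : J (-q) = (J q)⁻¹ := by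
  unfold J
  rw [rho_neg, inv_pow]

theorem J_conj (q : ℂ) : J (starRingEnd ℂ q) = starRingEnd ℂ (J q) := by
  unfold J
  rw [rho_conj, map_pow]

/-- Landen's transformation for `J`. -/
theorem J_sq {q : ℂ} (hq : ‖q‖ < 1) : J (q ^ 2) = 4 * rho q ^ 2 / (1 + rho q ^ 2) ^ 2 := by
  have h : J (q ^ 2) = (rho (q ^ 2) ^ 2) ^ 2 := by unfold J; ring
  rw [h, rho_landen hq, div_pow]
  ring

end Pool.Agent.Choc
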