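import Pool.Agent.Lib.MP_2b3e36_an.Ex.T4

/-!
T5. Real values of `J`.

Proof. For real `t` in `(-1,1)` `J t = rho(t)^4` is real and positive (`rho_real`). For `0 < t < 1`
write `t = nome (i u)`; `J t = 1 - J (nome (i/u))` with `nome (i/u)` in `(0,1)`, so `J t < 1`. For
`-1 < t < 0`: `J t = 1 / J (-t) > 1`. Geodesic: if `‖τ + 1/2‖ = 1/2` then `s = -1/τ` has real part `1`,
`s = 1 + i u`, `u > 0`, `nome s = - nome (i u)`, so `J (nome τ) = 1 - J (nome s) = 1 - 1 / J (nome (iu)) < 0`.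
`J_tendsto`: `J (nome (it)) = 1 - J (nome (i/t))`, `nome (i/t) → 0` as `t → 0+`, `J` continuous at `0`.
`J_loc_inj`: derivative `-16` at `0` and the inverse function theorem (`HasStrictDerivAt`).
`J_inj_Ioo`: let `J t = J t'`, `t, t' in (0,1)`. With `k_m = rho (t^(2^m))^2 in (0,1)` one has
`k_0^2 = J t` and `k_(m+1)^2 = J (t^(2^(m+1))) = 4 k_m/(1+k_m)^2` (`J_sq`), all `k_m > 0`, so `k_m`
depends only on `J t`; hence `J (t^(2^m)) = k_m^2` is the same for `t'`. For large `m` both arguments are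
in the disc where `J` is injective: `t^(2^m) = t'^(2^m)`, so `t = t'`.
`J_real_small`: there is a disc about `0` on which `J` is injective; it is symmetric, and if `J q` is
real then `J (conj q) = conj (J q) = J q` gives `q = conj q`; if moreover `J q < 1` then `q > 0` (as
`q < 0` gives `J q > 1`).
-/

set_option autoImplicit false

open Complex Set Filter Topology Metric

namespace Pool.Agent.Choc

theorem t5_nome_I (u : ℝ) : nome (u * I) = ((Real.exp (-(Real.pi * u)) : ℝ) : ℂ) := by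
  unfold nome
  rw [Complex.ofReal_exp]
  congr 1
  push_cast
  linear_combination ((Real.pi : ℂ) * u) * I_mul_I

theorem t5_rho {t : ℝ} (h : |t| < 1) : ∃ r : ℝ, 0 < r ∧ rho t = r := by
  have h1 := rho_real h
  exact ⟨(rho t).re, h1.2, Complex.ext rfl (by rw [h1.1, Complex.ofReal_im])⟩

theorem t5_J {t : ℝ} (h : |t| < 1) : ∃ r : ℝ, 0 < r ∧ J t = r := by
  obtain ⟨r, hr, h1⟩ := t5_rho h
  exact ⟨r ^ 4, by positivity, by unfold J; rw [h1]; push_cast; ring⟩

theorem t5_exp_lt {u : ℝ} (hu : 0 < u) : |Real.exp (-(Real.pi * u))| < 1 := by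
  rw [abs_of_pos (Real.exp_pos _), Real.exp_lt_one_iff]
  have := mul_pos Real.pi_pos hu
  linarith

theorem t5_J_Ioo {t : ℝ} (h0 : 0 < t) (h1 : t < 1) : ∃ r : ℝ, 0 < r ∧ r < 1 ∧ J t = r := by
  obtain ⟨r, hr, hJ⟩ := t5_J (t := t) (by rw [abs_of_pos h0]; exact h1)
  refine ⟨r, hr, ?_, hJ⟩
  set u : ℝ := -Real.log t / Real.pi with hu
  have hu0 : 0 < u := by
    have := Real.log_neg h0 h1
    exact div_pos (by linarith) Real.pi_pos
  have e1 : nome (u * I) = t := by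
    rw [t5_nome_I]
    have : -(Real.pi * u) = Real.log t := by
      rw [hu]; field_simp
    rw [this, Real.exp_log h0]
  have him : 0 < ((u : ℂ) * I).im := by simpa using hu0
  have h2 := J_inv him
  have e2 : -1 / ((u : ℂ) * I) = ((1 / u : ℝ) : ℂ) * I := by
    have hu' : (u : ℂ) ≠ 0 := by exact_mod_cast hu0.ne'
    rw [div_eq_iff (mul_ne_zero hu' I_ne_zero)]
    push_cast
    field_simp
    exact I_sq.symm
  rw [e1, e2, t5_nome_I] at h2
  obtain ⟨r', hr', hJ'⟩ := t5_J (t5_exp_lt (u := 1 / u) (by positivity))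
  rw [hJ, hJ'] at h2
  have h3 : r + r' = 1 := by exact_mod_cast h2
  linarith

theorem J_Ioo {t : ℝ} (h0 : 0 < t) (h1 : t < 1) : (J t).im = 0 ∧ 0 < (J t).re ∧ (J t).re < 1 := by
  obtain ⟨r, hr0, hr1, h⟩ := t5_J_Ioo h0 h1
  rw [h]
  exact ⟨Complex.ofReal_im _, hr0, hr1⟩

theorem J_Ioo_neg {t : ℝ} (h0 : -1 < t) (h1 : t < 0) : (J t).im = 0 ∧ 1 < (J t).re := by
  obtain ⟨r, hr0, hr1, h⟩ := t5_J_Ioo (t := -t) (by linarith) (by linarith)
  have e : (t : ℂ) = -((-t : ℝ) : ℂ) := by push_cast; ring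
  rw [e, J_neg, h, ← Complex.ofReal_inv]
  refine ⟨Complex.ofReal_im _, ?_⟩
  rw [Complex.ofReal_re]
  exact (one_lt_inv₀ hr0).mpr hr1

theorem J_geo {τ : ℂ} (h : τ ∈ Sig) : (J (nome τ)).im = 0 ∧ (J (nome τ)).re < 0 := by
  obtain ⟨him, hn⟩ := h
  have hns : τ.re * τ.re + τ.im * τ.im = -τ.re := by
    have h1 : ‖τ + 1 / 2‖ ^ 2 = (1 / 2) ^ 2 := by rw [hn]
    rw [Complex.sq_norm, Complex.normSq_apply] at h1
    have e1 : (τ + 1 / 2).re = τ.re + 1 / 2 := by
      rw [add_re]; norm_num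
    have e2 : (τ + 1 / 2).im = τ.im := by
      rw [add_im]; norm_num
    rw [e1, e2] at h1
    nlinarith
  have hτ0 : τ ≠ 0 := by rintro rfl; simp at him
  have hre : 0 < -τ.re := by
    nlinarith [mul_pos him him, mul_self_nonneg τ.re]
  set u : ℝ := τ.im / (-τ.re) with hu
  have hu0 : 0 < u := div_pos him hre
  have e1 : -1 / τ = 1 + (u : ℂ) * I := by
    rw [div_eq_iff hτ0]
    have hre' : (-τ.re : ℝ) ≠ 0 := hre.ne'
    have g1 : τ.im * u = 1 + τ.re := by
      rw [hu, ← mul_div_assoc, div_eq_iff hre']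
      linear_combination hns
    have g2 : u * (-τ.re) = τ.im := by
      rw [hu]; exact div_mul_cancel₀ _ hre'
    apply Complex.ext
    · simp only [neg_re, one_re, mul_re, add_re, ofReal_re, I_re, mul_zero, ofReal_im, I_im,
        mul_one, sub_self, add_zero, add_im, one_im, mul_im, zero_add, one_mul]
      linarith
    · simp only [neg_im, one_im, mul_im, add_re, one_re, mul_re, ofReal_re, I_re, mul_zero,
        ofReal_im, I_im, mul_one, sub_self, add_zero, add_im, zero_add, one_mul, neg_zero]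
      linarith
  have h2 := J_inv him
  have e2 : nome (1 + (u : ℂ) * I) = -nome (u * I) := by
    unfold nome
    rw [mul_add, mul_one, Complex.exp_add, Complex.exp_pi_mul_I]
    ring
  rw [e1, e2, t5_nome_I, J_neg] at h2
  obtain ⟨r, hr0, hr1, hr⟩ := t5_J_Ioo (t := Real.exp (-(Real.pi * u))) (Real.exp_pos _)
    (by have := t5_exp_lt hu0; rwa [abs_of_pos (Real.exp_pos _)] at this)
  rw [hr, ← Complex.ofReal_inv] at h2
  have h3 : J (nome τ) = ((1 - r⁻¹ : ℝ) : ℂ) := by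
    push_cast
    push_cast at h2
    linear_combination h2
  rw [h3]
  refine ⟨Complex.ofReal_im _, ?_⟩
  rw [Complex.ofReal_re]
  have := (one_lt_inv₀ hr0).mpr hr1
  linarith

theorem t5_cont {q : ℂ} (hq : ‖q‖ < 1) : ContinuousAt J q :=
  (J_diff.differentiableAt (isOpen_ball.mem_nhds (mem_ball_zero_iff.mpr hq))).continuousAt

theorem J_tendsto : Tendsto (fun t : ℝ => J (nome (t * I))) (𝓝[>] 0) (𝓝 0) := by
  have h1 : ∀ t : ℝ, 0 < t → J (nome (t * I)) =
      1 - J ((Real.exp (-(Real.pi * (1 / t))) : ℝ) : ℂ) := by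
    intro t ht
    have him : 0 < ((t : ℂ) * I).im := by simpa using ht
    have h2 := J_inv him
    have e2 : -1 / ((t : ℂ) * I) = ((1 / t : ℝ) : ℂ) * I := by
      have hu' : (t : ℂ) ≠ 0 := by exact_mod_cast ht.ne'
      rw [div_eq_iff (mul_ne_zero hu' I_ne_zero)]
      push_cast
      field_simp
      exact I_sq.symm
    rw [e2, t5_nome_I (1 / t)] at h2
    linear_combination h2
  have h2 : Tendsto (fun t : ℝ => Real.exp (-(Real.pi * (1 / t)))) (𝓝[>] 0) (𝓝 0) := by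
    refine Real.tendsto_exp_neg_atTop_nhds_zero.comp ?_
    simp only [one_div]
    exact tendsto_inv_nhdsGT_zero.const_mul_atTop Real.pi_pos
  have h3 : Tendsto (fun t : ℝ => ((Real.exp (-(Real.pi * (1 / t))) : ℝ) : ℂ)) (𝓝[>] 0) (𝓝 0) := by
    have := (Complex.continuous_ofReal.tendsto 0).comp h2
    rw [Complex.ofReal_zero] at this
    exact this
  have h4 := (t5_cont (q := 0) (by simp)).tendsto.comp h3
  rw [J_zero] at h4
  have h5 := h4.const_sub 1
  rw [sub_self] at h5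
  refine h5.congr' ?_
  filter_upwards [self_mem_nhdsWithin] with t ht
  exact (h1 t ht).symm

theorem J_loc_inj : ∃ δ > 0, δ < 1 ∧ InjOn J (ball 0 δ) := by
  have han : AnalyticAt ℂ J 0 := J_diff.analyticAt (isOpen_ball.mem_nhds (by simp))
  have hs : HasStrictDerivAt J (deriv J 0) 0 := han.hasStrictDerivAt
  have hd : deriv J 0 ≠ 0 := by
    rw [J_hasDerivAt_zero.deriv]; norm_num
  have hf := hs.hasStrictFDerivAt_equiv hd
  have h1 := hf.mem_toOpenPartialHomeomorph_source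
  have h2 := hf.toOpenPartialHomeomorph_coe
  obtain ⟨δ, hδ, hb⟩ := Metric.isOpen_iff.mp (hf.toOpenPartialHomeomorph J).open_source 0 h1
  refine ⟨min δ (1 / 2), by positivity, by
    have := min_le_right δ (1 / 2 : ℝ)
    linarith, ?_⟩
  have h3 := (hf.toOpenPartialHomeomorph J).injOn
  rw [h2] at h3
  exact h3.mono ((ball_subset_ball (min_le_left _ _)).trans hb)

theorem J_real_small : ∃ δ > 0, δ < 1 ∧ ∀ q : ℂ, ‖q‖ < δ → (J q).im = 0 → (J q).re < 1 →
    q.im = 0 ∧ 0 < q.re := by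
  obtain ⟨δ, hδ, hδ1, hinj⟩ := J_loc_inj
  refine ⟨δ, hδ, hδ1, ?_⟩
  intro q hq him hre
  have h1 : starRingEnd ℂ q = q := by
    apply hinj
    · rw [mem_ball_zero_iff, RCLike.norm_conj]; exact hq
    · exact mem_ball_zero_iff.mpr hq
    · rw [J_conj]
      exact Complex.conj_eq_iff_im.mpr him
  have h2 : q.im = 0 := Complex.conj_eq_iff_im.mp h1
  refine ⟨h2, ?_⟩
  have h3 : q = (q.re : ℂ) := Complex.ext rfl (by rw [h2, Complex.ofReal_im])
  have h4 : |q.re| < 1 := by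
    have : ‖q‖ = |q.re| := by
      conv_lhs => rw [h3]
      rw [Complex.norm_real, Real.norm_eq_abs]
    rw [← this]; linarith
  rcases lt_trichotomy q.re 0 with h | h | h
  · exfalso
    have h5 := J_Ioo_neg (t := q.re) (by linarith [(abs_lt.mp h4).1]) h
    rw [← h3] at h5
    linarith [h5.2]
  · exfalso
    have : q = 0 := by rw [h3, h, Complex.ofReal_zero]
    rw [this, J_zero, one_re] at hre
    exact lt_irrefl _ hre
  · exact h

theorem t5_pow_lt {t : ℝ} (h0 : 0 < t) (h1 : t < 1) (m : ℕ) : |t ^ (2 ^ m)| < 1 := by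
  rw [abs_of_pos (by positivity)]
  exact pow_lt_one₀ h0.le h1 (by positivity)

theorem t5_rho_eq {t t' : ℝ} (h0 : 0 < t) (h1 : t < 1) (h0' : 0 < t') (h1' : t' < 1)
    (h : J t = J t') (m : ℕ) : rho ((t ^ (2 ^ m) : ℝ) : ℂ) = rho ((t' ^ (2 ^ m) : ℝ) : ℂ) := by
  induction m with
  | zero =>
    obtain ⟨r, hr, hr1⟩ := t5_rho (t := t) (by rw [abs_of_pos h0]; exact h1)
    obtain ⟨r', hr', hr1'⟩ := t5_rho (t := t') (by rw [abs_of_pos h0']; exact h1')
    simp only [pow_zero, pow_one]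
    rw [hr1, hr1']
    have h2 : r ^ 4 = r' ^ 4 := by
      unfold J at h
      rw [hr1, hr1'] at h
      exact_mod_cast h
    have : r = r' := (pow_left_inj₀ hr.le hr'.le (by norm_num : (4 : ℕ) ≠ 0)).mp h2
    rw [this]
  | succ m ih =>
    obtain ⟨r, hr, hr1⟩ := t5_rho (t5_pow_lt h0 h1 (m + 1))
    obtain ⟨r', hr', hr1'⟩ := t5_rho (t5_pow_lt h0' h1' (m + 1))
    have hn : ‖((t ^ (2 ^ m) : ℝ) : ℂ)‖ < 1 := by
      rw [Complex.norm_real, Real.norm_eq_abs]; exact t5_pow_lt h0 h1 m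
    have hn' : ‖((t' ^ (2 ^ m) : ℝ) : ℂ)‖ < 1 := by
      rw [Complex.norm_real, Real.norm_eq_abs]; exact t5_pow_lt h0' h1' m
    have e : ∀ s : ℝ, (((s ^ (2 ^ m) : ℝ) : ℂ)) ^ 2 = ((s ^ (2 ^ (m + 1)) : ℝ) : ℂ) := by
      intro s
      push_cast
      rw [← pow_mul, ← pow_succ]
    have h2 := rho_landen hn
    have h3 := rho_landen hn'
    rw [e] at h2 h3
    rw [← ih, ← h2, hr1, hr1'] at h3
    have h4 : r' ^ 2 = r ^ 2 := by exact_mod_cast h3
    have : r = r' := (pow_left_inj₀ hr.le hr'.le (by norm_num : (2 : ℕ) ≠ 0)).mp h4.symm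
    rw [hr1, hr1', this]

theorem J_inj_Ioo {t t' : ℝ} (h0 : 0 < t) (h1 : t < 1) (h0' : 0 < t') (h1' : t' < 1)
    (h : J t = J t') : t = t' := by
  obtain ⟨δ, hδ, -, hinj⟩ := J_loc_inj
  have hl : ∀ s : ℝ, 0 < s → s < 1 → ∀ᶠ m : ℕ in atTop, ((s ^ (2 ^ m) : ℝ) : ℂ) ∈ ball (0 : ℂ) δ := by
    intro s hs hs1
    have h5 : Tendsto (fun m : ℕ => s ^ (2 ^ m)) atTop (𝓝 0) :=
      (tendsto_pow_atTop_nhds_zero_of_lt_one hs.le hs1).comp
        (tendsto_pow_atTop_atTop_of_one_lt one_lt_two)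
    filter_upwards [h5.eventually_lt_const hδ] with m hm
    rw [mem_ball_zero_iff, Complex.norm_real, Real.norm_eq_abs, abs_of_pos (by positivity)]
    exact hm
  obtain ⟨m, hm1, hm2⟩ := ((hl t h0 h1).and (hl t' h0' h1')).exists
  have h2 : J ((t ^ (2 ^ m) : ℝ) : ℂ) = J ((t' ^ (2 ^ m) : ℝ) : ℂ) := by
    unfold J
    rw [t5_rho_eq h0 h1 h0' h1' h m]
  have h3 := hinj hm1 hm2 h2
  have h4 : t ^ (2 ^ m) = t' ^ (2 ^ m) := by exact_mod_cast h3
  exact (pow_left_inj₀ h0.le h0'.le (by positivity)).mp h4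

end Pool.Agent.Choc
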