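import Pool.Agent.Lib.MP_2b3e36_an.Ex.W2

/-!
W3. Monotonicity: if the type of `b` is dominated by the type of `b'` and `b'` is realisable, then so
is `b`.

Proof. Let `Sol b' r' f'`. By `hA_radius` and `hA_radius_cont` there is `r > 1` (close to `1`) with
`hA (jou (b/r)) ≤ hA (jou (b'/r'))` and the same for `hB` (at `r = 1`: `hA (jou b) ≤ hA (jou b') <
hA (jou (b'/r'))`). Put `v = jou (b/r) = ξ + iη`, `v' = jou (b'/r') = ξ' + iη'`, `λ = η'/η > 0`,
`μ = ξ' - λ ξ`, so `v' = λ v + μ`. By `hA_le_iff`: `(1+ξ')/η' ≤ (1+ξ)/η`, i.e. `1 + ξ' ≤ λ (1 + ξ)`, i.e.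
`1 + μ ≤ λ`; by `hB_le_iff` `1 - μ ≤ λ`. So `λ ≥ 1 + |μ|`.
Define `ψ z = jaux (2 z / (λ (1 + z^2) - 2 μ z))` on the unit disc. The denominator `D` has no zero there:
for `z ≠ 0` `D = - 2 z (λ jou z + μ)` and `jou z ∉ [-1,1]` for `0 < ‖z‖ < 1`, whereas
`-μ/λ ∈ [-1,1]`. Put `w' = 2z/D = -1/(λ jou z + μ)` (`z ≠ 0`). `λ jou z + μ ∉ [-1,1]` as
`[-1,1] ⊆ λ [-1,1] + μ`; so `w'` is not a real number with `|w'| ≥ 1`, `1 - w'^2 ∉ (-∞, 0]`, `jaux` is
holomorphic at `w'`, `‖jaux w'‖ < 1`, and `jou (jaux w') = -1/w'` (W1). Hence `ψ` is holomorphic from the unit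
disc to itself, `ψ 0 = 0`, `jou (ψ z) = λ jou z + μ` for `z ≠ 0`; `ψ` is injective (`jou` is injective on the
punctured disc), `ψ (conj z) = conj (ψ z)`, `ψ' 0 = 1/λ > 0`, `ψ (b/r) = b'/r'`, `ψ' ≠ 0`.
`f z = f' (r' ψ (z/r))` on `ball 0 r`: holomorphic, real; zero only where `ψ = 0`, i.e. `z = 0`; one only where
`r' ψ (z/r) = b'` or `conj b'`, i.e. `z = b` or `conj b`; `f' 0 = f'' ... > 0`; `deriv f b ≠ 0` (chain rule).
(`jaux` on the plane without the two rays: `jaux_slit`.)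
-/

set_option autoImplicit false

open Complex Set Filter Topology Metric

namespace Pool.Agent.Choc

/-- `z + 1/z` is not in `[-2, 2]` for `0 < |z| < 1`. -/
theorem w3_key {z : ℂ} (hz : ‖z‖ < 1) {c : ℝ} (hc : |c| ≤ 2) :
    z ^ 2 - c * z + 1 ≠ 0 := by
  intro h
  have hz2 : z.re ^ 2 + z.im ^ 2 < 1 := by
    have h1 : ‖z‖ ^ 2 < 1 := by
      have := norm_nonneg z
      nlinarith
    rw [← Complex.normSq_eq_norm_sq, Complex.normSq_apply] at h1
    nlinarith
  have hre := congrArg Complex.re h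
  have him := congrArg Complex.im h
  simp [pow_two] at hre him
  have hc2 := abs_le.1 hc
  have h3 : z.im * (2 * z.re - c) = 0 := by linarith
  rcases mul_eq_zero.1 h3 with h4 | h4
  · rw [h4] at hre hz2
    have h5 : z.re ^ 2 < 1 := by nlinarith
    have h6 : |z.re| < 1 := by
      rw [← sq_abs] at h5
      nlinarith [abs_nonneg z.re]
    have h7 : c * z.re ≤ 2 * |z.re| := by
      refine (le_abs_self _).trans ?_
      rw [abs_mul]
      exact mul_le_mul_of_nonneg_right hc (abs_nonneg _)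
    have h8 : 0 < (1 - |z.re|) ^ 2 := by
      have : 0 < 1 - |z.re| := by linarith
      positivity
    nlinarith [sq_abs z.re]
  · nlinarith

/-- The denominator. -/
noncomputable def w3_D (l m : ℝ) (z : ℂ) : ℂ := l * (1 + z ^ 2) - 2 * m * z

theorem w3_D_ne {l m : ℝ} (hl : 0 < l) (h1 : |m| ≤ l) {z : ℂ} (hz : ‖z‖ < 1) :
    w3_D l m z ≠ 0 := by
  intro h
  have hlc : (l : ℂ) ≠ 0 := by exact_mod_cast hl.ne'
  refine w3_key hz (c := 2 * m / l) ?_ ?_
  · rw [abs_div, abs_mul, abs_two, abs_of_pos hl, div_le_iff₀ hl]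
    linarith
  · unfold w3_D at h
    push_cast
    field_simp
    linear_combination h

theorem w3_slit {l m : ℝ} (hl : 0 < l) (h1 : |m| + 1 ≤ l) {z : ℂ} (hz : ‖z‖ < 1) :
    ¬((2 * z / w3_D l m z).im = 0 ∧ 1 ≤ |(2 * z / w3_D l m z).re|) := by
  rintro ⟨h2, h3⟩
  have hlc : (l : ℂ) ≠ 0 := by exact_mod_cast hl.ne'
  have hD := w3_D_ne hl (by linarith) (m := m) hz
  obtain ⟨u, hu⟩ : ∃ u : ℝ, u = (2 * z / w3_D l m z).re := ⟨_, rfl⟩
  have hu' : 2 * z / w3_D l m z = (u : ℂ) := by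
    apply Complex.ext
    · rw [hu, Complex.ofReal_re]
    · rw [h2, Complex.ofReal_im]
  rw [← hu] at h3
  have hu0 : u ≠ 0 := by
    rintro rfl
    simp at h3
    linarith
  have huc : (u : ℂ) ≠ 0 := by exact_mod_cast hu0
  rw [div_eq_iff hD] at hu'
  refine w3_key hz (c := (2 * (1 / u) + 2 * m) / l) ?_ ?_
  · rw [abs_div, abs_of_pos hl, div_le_iff₀ hl]
    have h4 : |1 / u| ≤ 1 := by
      rw [abs_div, abs_one, div_le_one (by positivity)]
      exact h3
    calc |2 * (1 / u) + 2 * m| ≤ |2 * (1 / u)| + |2 * m| := abs_add_le _ _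
      _ = 2 * |1 / u| + 2 * |m| := by rw [abs_mul, abs_mul, abs_two]
      _ ≤ 2 * l := by linarith
  · unfold w3_D at hu'
    push_cast
    field_simp
    linear_combination (-1 : ℂ) * hu'

/-- The self map of the disc. -/
noncomputable def w3_psi (l m : ℝ) (z : ℂ) : ℂ := jaux (2 * z / w3_D l m z)

theorem w3_star_D (l m : ℝ) (z : ℂ) :
    w3_D l m (starRingEnd ℂ z) = starRingEnd ℂ (w3_D l m z) := by
  unfold w3_D
  simp [map_ofNat]

/-- `z + 1/z = a + 1/a` with both in the unit disc. -/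
theorem w3_inj {z a : ℂ} (hz : ‖z‖ < 1) (ha : ‖a‖ < 1)
    (h : a * (1 + z ^ 2) = z * (1 + a ^ 2)) : z = a := by
  have h1 : (z - a) * (z * a - 1) = 0 := by linear_combination h
  rcases mul_eq_zero.1 h1 with h2 | h2
  · exact sub_eq_zero.1 h2
  · exfalso
    have h3 : z * a = 1 := sub_eq_zero.1 h2
    have h4 := congrArg norm h3
    rw [norm_mul, norm_one] at h4
    nlinarith [norm_nonneg z, norm_nonneg a]

theorem w3_hasDeriv_w {l m : ℝ} (hl : 0 < l) (h1 : |m| + 1 ≤ l) {z : ℂ} (hz : ‖z‖ < 1) :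
    HasDerivAt (fun z => 2 * z / w3_D l m z) (2 * l * (1 - z ^ 2) / w3_D l m z ^ 2) z := by
  have hD := w3_D_ne hl (by linarith) (m := m) hz
  have h2 : HasDerivAt (fun z => 2 * z) 2 z := by
    simpa using (hasDerivAt_id z).const_mul (2 : ℂ)
  have h3 : HasDerivAt (w3_D l m) (l * (2 * z) - 2 * m) z := by
    have h4 : HasDerivAt (fun z : ℂ => 1 + z ^ 2) (2 * z) z := by
      simpa using (hasDerivAt_pow 2 z).const_add (1 : ℂ)
    have h5 : HasDerivAt (fun z : ℂ => 2 * (m : ℂ) * z) (2 * m) z := by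
      simpa using (hasDerivAt_id z).const_mul (2 * (m : ℂ))
    exact (h4.const_mul (l : ℂ)).sub h5
  refine (h2.div h3 hD).congr_deriv ?_
  congr 1
  unfold w3_D
  ring

theorem w3_psi_facts {l m : ℝ} (hl : 0 < l) (h1 : |m| + 1 ≤ l) {z : ℂ} (hz : ‖z‖ < 1) :
    DifferentiableAt ℂ (w3_psi l m) z ∧ deriv (w3_psi l m) z ≠ 0 ∧ ‖w3_psi l m z‖ < 1 ∧
    w3_psi l m (starRingEnd ℂ z) = starRingEnd ℂ (w3_psi l m z) ∧
    w3_D l m z * w3_psi l m z = z * (1 + w3_psi l m z ^ 2) := by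
  have hD := w3_D_ne hl (by linarith) (m := m) hz
  obtain ⟨a1, a2, a3, a4, a5⟩ := jaux_slit (w3_slit hl h1 hz)
  have hw := w3_hasDeriv_w hl h1 hz
  have hcomp : HasDerivAt (w3_psi l m)
      (deriv jaux (2 * z / w3_D l m z) * (2 * l * (1 - z ^ 2) / w3_D l m z ^ 2)) z := by
    exact (a1.hasDerivAt).comp z hw
  refine ⟨hcomp.differentiableAt, ?_, a3, ?_, ?_⟩
  · rw [hcomp.deriv]
    refine mul_ne_zero a2 (div_ne_zero (mul_ne_zero (mul_ne_zero two_ne_zero
      (by exact_mod_cast hl.ne')) ?_) (pow_ne_zero 2 hD))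
    intro h
    have h3 : z ^ 2 = 1 := (sub_eq_zero.1 h).symm
    have h4 := congrArg norm h3
    rw [norm_pow, norm_one] at h4
    nlinarith [norm_nonneg z]
  · unfold w3_psi
    rw [← a4, w3_star_D]
    congr 1
    simp [map_ofNat]
  · have h5 : w3_D l m z * (2 * w3_psi l m z) = 2 * (z * (1 + w3_psi l m z ^ 2)) := by
      unfold w3_psi
      rw [a5]
      field_simp
    have h6 : (2 : ℂ) * (w3_D l m z * w3_psi l m z) = 2 * (z * (1 + w3_psi l m z ^ 2)) := by
      rw [← h5]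
      ring
    exact mul_left_cancel₀ two_ne_zero h6

theorem w3_psi_zero (l m : ℝ) : w3_psi l m 0 = 0 := by
  unfold w3_psi
  rw [mul_zero, zero_div, jaux_zero]

theorem w3_psi_eq_zero {l m : ℝ} (hl : 0 < l) (h1 : |m| + 1 ≤ l) {z : ℂ} (hz : ‖z‖ < 1)
    (h : w3_psi l m z = 0) : z = 0 := by
  have h2 := (w3_psi_facts hl h1 hz).2.2.2.2
  rw [h] at h2
  simpa using h2.symm

theorem w3_psi_deriv_zero {l m : ℝ} (hl : 0 < l) (h1 : |m| + 1 ≤ l) :
    deriv (w3_psi l m) 0 = ((1 / l : ℝ) : ℂ) := by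
  have hw := w3_hasDeriv_w hl h1 (z := 0) (by simp)
  have hj : HasDerivAt jaux (1 / 2) (2 * (0 : ℂ) / w3_D l m 0) := by
    rw [mul_zero, zero_div]
    exact jaux_hasDerivAt
  have hlc : (l : ℂ) ≠ 0 := by exact_mod_cast hl.ne'
  have hcomp := (hj.comp (0 : ℂ) hw).deriv
  have h2 : deriv (w3_psi l m) 0 = 1 / 2 * (2 * l * (1 - 0 ^ 2) / w3_D l m 0 ^ 2) := hcomp
  have hD0 : w3_D l m 0 = l := by
    unfold w3_D
    simp
  rw [h2, hD0]
  push_cast
  field_simp
  ring

theorem realp_mono {b b' : ℂ} (hb : 0 < b.im) (hb1 : ‖b‖ < 1) (hR : Realp b')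
    (hA' : hA (jou b) ≤ hA (jou b')) (hB' : hB (jou b) ≤ hB (jou b')) : Realp b := by
  obtain ⟨r', f', hS⟩ := hR
  have hb' := hS.b_im
  have hr' := hS.one_lt
  have hr'0 : 0 < r' := by linarith
  have hb'1 := hS.b_norm
  -- the radius
  obtain ⟨r, hr1, hrA, hrB⟩ : ∃ r : ℝ, 1 < r ∧ hA (jou (b / r)) ≤ hA (jou (b' / r')) ∧
      hB (jou (b / r)) ≤ hB (jou (b' / r')) := by
    obtain ⟨m1, m2⟩ := hA_radius hb' hb'1 hr'
    obtain ⟨c1, c2⟩ := hA_radius_cont hb hb1
    rw [Complex.ofReal_one, div_one] at m1 m2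
    have e1 : ∀ᶠ t in 𝓝 (1 : ℝ), hA (jou (b / (t : ℝ))) < hA (jou (b' / r')) :=
      c1.eventually_lt continuousAt_const (by
        rw [Complex.ofReal_one, div_one]
        exact lt_of_le_of_lt hA' m1)
    have e2 : ∀ᶠ t in 𝓝 (1 : ℝ), hB (jou (b / (t : ℝ))) < hB (jou (b' / r')) :=
      c2.eventually_lt continuousAt_const (by
        rw [Complex.ofReal_one, div_one]
        exact lt_of_le_of_lt hB' m2)
    have e3 : ∀ᶠ t in 𝓝[>] (1 : ℝ), 1 < t := self_mem_nhdsWithin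
    obtain ⟨r, hr, h5, h6⟩ := (e3.and ((e1.and e2).filter_mono nhdsWithin_le_nhds)).exists
    exact ⟨r, hr, h5.le, h6.le⟩
  have hr0 : 0 < r := by linarith
  obtain ⟨β, hβ⟩ : ∃ β : ℂ, β = b / r := ⟨_, rfl⟩
  obtain ⟨β', hβ'⟩ : ∃ β' : ℂ, β' = b' / r' := ⟨_, rfl⟩
  have hrc : (r : ℂ) ≠ 0 := by exact_mod_cast hr0.ne'
  have hrc' : (r' : ℂ) ≠ 0 := by exact_mod_cast hr'0.ne'
  have hβn : ‖β‖ < 1 := by
    rw [hβ, norm_div, Complex.norm_real, Real.norm_eq_abs, abs_of_pos hr0, div_lt_one hr0]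
    linarith
  have hβn' : ‖β'‖ < 1 := by
    rw [hβ', norm_div, Complex.norm_real, Real.norm_eq_abs, abs_of_pos hr'0, div_lt_one hr'0]
    linarith
  have hβi : 0 < β.im := by
    rw [hβ, Complex.div_ofReal_im]
    positivity
  have hβi' : 0 < β'.im := by
    rw [hβ', Complex.div_ofReal_im]
    positivity
  rw [← hβ, ← hβ'] at hrA hrB
  obtain ⟨v, hv⟩ : ∃ v : ℂ, v = jou β := ⟨_, rfl⟩
  obtain ⟨v', hv'⟩ : ∃ v' : ℂ, v' = jou β' := ⟨_, rfl⟩
  have hvi : 0 < v.im := by rw [hv]; exact jou_im hβn hβi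
  have hvi' : 0 < v'.im := by rw [hv']; exact jou_im hβn' hβi'
  rw [← hv, ← hv'] at hrA hrB
  rw [hA_le_iff hvi hvi', div_le_div_iff₀ hvi' hvi] at hrA
  rw [hB_le_iff hvi hvi', div_le_div_iff₀ hvi' hvi] at hrB
  obtain ⟨l, hl⟩ : ∃ l : ℝ, l = v'.im / v.im := ⟨_, rfl⟩
  obtain ⟨m, hm⟩ : ∃ m : ℝ, m = v'.re - l * v.re := ⟨_, rfl⟩
  have hl0 : 0 < l := by rw [hl]; positivity
  have hlv : l * v.im = v'.im := by rw [hl]; field_simp
  have hvv : v' = l * v + m := by
    apply Complex.ext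
    · simp [hm]
    · simp [hlv]
  have hm1 : |m| + 1 ≤ l := by
    have h3 : (1 + v'.re) ≤ l * (1 + v.re) := by
      rw [← hlv] at hrA
      have h4 : (1 + v'.re) * v.im ≤ (l * (1 + v.re)) * v.im := by linarith
      exact le_of_mul_le_mul_right h4 hvi
    have h5 : (1 - v'.re) ≤ l * (1 - v.re) := by
      rw [← hlv] at hrB
      have h4 : (1 - v'.re) * v.im ≤ (l * (1 - v.re)) * v.im := by linarith
      exact le_of_mul_le_mul_right h4 hvi
    have h6 : |m| ≤ l - 1 := by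
      rw [abs_le, hm]
      constructor <;> nlinarith
    linarith
  have hβ0 : β ≠ 0 := by
    rintro rfl
    simp at hβi
  have hβ0' : β' ≠ 0 := by
    rintro rfl
    simp at hβi'
  -- the relation between the two points
  have hrel : w3_D l m β * β' = β * (1 + β' ^ 2) := by
    rw [hv, hv'] at hvv
    unfold jou at hvv
    have h3 : -(β' + β'⁻¹) / 2 * (2 * β * β') = (l * (-(β + β⁻¹) / 2) + m) * (2 * β * β') := by
      rw [hvv]
    have h4 : -(β' + β'⁻¹) / 2 * (2 * β * β') = -(β * (1 + β' ^ 2)) := by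
      field_simp
      ring
    have h5 : (l * (-(β + β⁻¹) / 2) + m) * (2 * β * β') = -(w3_D l m β * β') := by
      unfold w3_D
      field_simp
      ring
    rw [h4, h5] at h3
    exact (neg_injective h3).symm
  have hpsiβ : w3_psi l m β = β' := by
    obtain ⟨-, -, p3, -, p5⟩ := w3_psi_facts hl0 hm1 hβn
    refine w3_inj p3 hβn' ?_
    have hD := w3_D_ne hl0 (by linarith) (m := m) hβn
    refine mul_left_cancel₀ hβ0 ?_
    calc β * (β' * (1 + w3_psi l m β ^ 2)) = β' * (β * (1 + w3_psi l m β ^ 2)) := by ring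
      _ = β' * (w3_D l m β * w3_psi l m β) := by rw [p5]
      _ = (w3_D l m β * β') * w3_psi l m β := by ring
      _ = (β * (1 + β' ^ 2)) * w3_psi l m β := by rw [hrel]
      _ = β * (w3_psi l m β * (1 + β' ^ 2)) := by ring
  have hpsi_inj : ∀ z : ℂ, ‖z‖ < 1 → w3_psi l m z = β' → z = β := by
    intro z hz h3
    obtain ⟨-, -, -, -, p5⟩ := w3_psi_facts hl0 hm1 hz
    rw [h3] at p5
    -- `D z * β' = z (1 + β'^2)`, `D β * β' = β (1 + β'^2)`
    refine w3_inj hz hβn ?_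
    have h4 : β * (w3_D l m z * β') = z * (w3_D l m β * β') := by
      rw [p5, hrel]
      ring
    have h5 : (l * β') * (β * (1 + z ^ 2)) = (l * β') * (z * (1 + β ^ 2)) := by
      unfold w3_D at h4
      linear_combination h4
    exact mul_left_cancel₀ (mul_ne_zero (by exact_mod_cast hl0.ne') hβ0') h5
  have hball : ∀ z : ℂ, z ∈ ball (0 : ℂ) r → ‖z / r‖ < 1 := by
    intro z hz
    rw [mem_ball_zero_iff] at hz
    rw [norm_div, Complex.norm_real, Real.norm_eq_abs, abs_of_pos hr0, div_lt_one hr0]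
    exact hz
  have hin : ∀ z : ℂ, z ∈ ball (0 : ℂ) r → (r' : ℂ) * w3_psi l m (z / r) ∈ ball (0 : ℂ) r' := by
    intro z hz
    rw [mem_ball_zero_iff, norm_mul, Complex.norm_real, Real.norm_eq_abs, abs_of_pos hr'0]
    have := (w3_psi_facts hl0 hm1 (hball z hz)).2.2.1
    nlinarith
  have hder : ∀ z : ℂ, z ∈ ball (0 : ℂ) r → HasDerivAt (fun z => f' (r' * w3_psi l m (z / r)))
      (deriv f' (r' * w3_psi l m (z / r)) * (r' * (deriv (w3_psi l m) (z / r) * (1 / r)))) z := by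
    intro z hz
    have d1 : HasDerivAt f' (deriv f' (r' * w3_psi l m (z / r))) (r' * w3_psi l m (z / r)) :=
      (hS.diff.differentiableAt (isOpen_ball.mem_nhds (hin z hz))).hasDerivAt
    have d2 : HasDerivAt (w3_psi l m) (deriv (w3_psi l m) (z / r)) (z / r) :=
      (w3_psi_facts hl0 hm1 (hball z hz)).1.hasDerivAt
    have d3 : HasDerivAt (fun z : ℂ => z / r) (1 / r) z := (hasDerivAt_id z).div_const _
    have d4 := d2.comp z d3
    have d5 := d4.const_mul (r' : ℂ)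
    have d6 := HasDerivAt.comp (h₂ := f')
      (h := fun z : ℂ => (r' : ℂ) * ((w3_psi l m) ∘ fun z : ℂ => z / (r : ℂ)) z) z d1 d5
    exact d6
  have h0mem : (0 : ℂ) ∈ ball (0 : ℂ) r := mem_ball_self hr0
  have hbmem : b ∈ ball (0 : ℂ) r := by
    rw [mem_ball_zero_iff]
    linarith
  have hbr : (r' : ℂ) * w3_psi l m (b / r) = b' := by
    rw [← hβ, hpsiβ, hβ']
    field_simp
  have h0' : (0 : ℂ) ∈ ball (0 : ℂ) r' := mem_ball_self hr'0
  refine ⟨r, fun z => f' (r' * w3_psi l m (z / r)), hr1, hb, hb1, ?_, ?_, ?_, ?_, ?_, ?_⟩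
  · intro z hz
    exact (hder z hz).differentiableAt.differentiableWithinAt
  · intro z hz
    have h3 : starRingEnd ℂ z / (r : ℂ) = starRingEnd ℂ (z / r) := by simp
    have h4 := (w3_psi_facts hl0 hm1 (hball z hz)).2.2.2.1
    show f' (r' * w3_psi l m (starRingEnd ℂ z / r)) = starRingEnd ℂ (f' (r' * w3_psi l m (z / r)))
    rw [← hS.real _ (hin z hz), h3, h4]
    simp
  · intro z hz
    rw [hS.zero _ (hin z hz)]
    constructor
    · intro h3
      rcases mul_eq_zero.1 h3 with h4 | h4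
      · exact absurd h4 hrc'
      · have h5 := w3_psi_eq_zero hl0 hm1 (hball z hz) h4
        rcases div_eq_zero_iff.1 h5 with h6 | h6
        · exact h6
        · exact absurd h6 hrc
    · rintro rfl
      rw [zero_div, w3_psi_zero, mul_zero]
  · intro z hz
    rw [hS.one _ (hin z hz)]
    constructor
    · rintro (h3 | h3)
      · left
        have h4 : w3_psi l m (z / r) = β' := by
          rw [hβ', ← h3]
          field_simp
        have h5 := hpsi_inj _ (hball z hz) h4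
        rw [hβ] at h5
        exact (div_left_inj' hrc).1 h5
      · right
        have h4 : w3_psi l m (starRingEnd ℂ (z / r)) = β' := by
          rw [(w3_psi_facts hl0 hm1 (hball z hz)).2.2.2.1, hβ']
          have h5 : w3_psi l m (z / r) = starRingEnd ℂ b' / r' := by
            rw [← h3]
            field_simp
          rw [h5]
          simp
        have h5 := hpsi_inj _ (by rw [RCLike.norm_conj]; exact hball z hz) h4
        have h6 : starRingEnd ℂ z = b := by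
          rw [hβ, map_div₀, Complex.conj_ofReal] at h5
          exact (div_left_inj' hrc).1 h5
        rw [← h6, Complex.conj_conj]
    · rintro (h3 | h3)
      · left
        rw [h3]
        exact hbr
      · right
        rw [h3]
        have h4 : starRingEnd ℂ b / (r : ℂ) = starRingEnd ℂ (b / r) := by simp
        have h6 : ‖b / (r : ℂ)‖ < 1 := hball b hbmem
        rw [h4, (w3_psi_facts hl0 hm1 h6).2.2.2.1]
        conv_rhs => rw [← hbr]
        simp
  · rw [(hder 0 h0mem).deriv, zero_div, w3_psi_zero, mul_zero, w3_psi_deriv_zero hl0 hm1]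
    have h3 : deriv f' 0 * ((r' : ℂ) * (((1 / l : ℝ) : ℂ) * (1 / (r : ℂ)))) =
        ((r' * (1 / l * (1 / r)) : ℝ) : ℂ) * deriv f' 0 := by
      push_cast
      ring
    rw [h3, Complex.re_ofReal_mul]
    have := hS.deriv_zero
    positivity
  · rw [(hder b hbmem).deriv, hbr]
    refine mul_ne_zero hS.deriv_b (mul_ne_zero hrc' (mul_ne_zero ?_ (one_div_ne_zero hrc)))
    exact (w3_psi_facts hl0 hm1 (hball b hbmem)).2.1

end Pool.Agent.Choc
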