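import Pool.Agent.Lib.MP_2b3e36_an.Core
import Pool.Agent.Lib.MP_2b3e36_an.Data

/-!
Z0. The plants with `β ≥ 1`.
-/

set_option autoImplicit false

namespace Pool.Agent.Choc

open Pool.Agent.Lib.MP_2b3e36_an

theorem plant_large {β : ℝ} (hβ : 1 ≤ β) :
    ∃ c : RatFunc ℝ, Bistable c ∧ StabilizedBy (plant β) c := by
  have hβ0 : 0 < β := lt_of_lt_of_le (by norm_num) hβ
  obtain ⟨G, K, hG, hK, hF⟩ := scaling gL kL 11 1 (by norm_num) (by norm_num)
    (fun z hz => zfree_spec 8 gL zfree_gL hz) (fun z hz => zfree_spec 7 kL zfree_kL hz)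
    (fun z hz => by
      have h := zfree_spec 7 fL zfree_fL hz
      rw [ev_fL] at h
      intro h0
      apply h
      rw [← h0]
      push_cast
      ring)
    β (by norm_num at hβ ⊢; linarith)
  exact controller β hβ0 G K hG hK hF

end Pool.Agent.Choc
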