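import Pool.Agent.Lib.MP_2b3e36_an.Ex.C3
import Pool.Agent.Lib.MP_2b3e36_an.Ex.R0
import Pool.Agent.Lib.MP_2b3e36_an.Ex.R6
import Pool.Agent.Lib.MP_2b3e36_an.Ex.M2
import Pool.Agent.Lib.MP_2b3e36_an.Ex.H2
import Pool.Agent.Lib.MP_2b3e36_an.Ex.H3
import Pool.Agent.Lib.MP_2b3e36_an.Ex.H4
import Pool.Agent.Lib.MP_2b3e36_an.Ex.F1
import Pool.Agent.Lib.MP_2b3e36_an.Ex.W3
import Pool.Agent.Lib.MP_2b3e36_an.Ex.E12

/-!
Z1. The criterion in terms of the harmonic measures.
-/

set_option autoImplicit false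

open Complex Set Filter Topology Metric

namespace Pool.Agent.Choc

/-- The extremal configuration itself is not realisable. -/
theorem not_realp_extremal {y : ℝ} {X : ℂ → ℂ} {v₀ : ℂ} {vc : ℝ} (hX : Model y X v₀ vc) :
    ¬ Realp (jinv v₀) := by
  rintro ⟨r, f, hs⟩
  have hv0 : jou (jinv v₀) = v₀ := jou_jinv hX.v0_im
  obtain ⟨δ, G, hG⟩ := glift_exists hs
  obtain ⟨p, hp⟩ := plift_exists hs
  rcases dichotomy hs hG with hm | hn
  · have := lift_of_main hs hG hp hm
    rw [hv0] at this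
    exact rigidity hX this
  · obtain ⟨h₁, h₂, hh, hval⟩ := harmPair_of_model hX
    have h1 := nonmain_lt hX.y_pos hh hs hG hn
    have h2 := hval v₀ hX.v0_im
    rw [hX.zero] at h2
    rw [hv0, h2.1, h2.2] at h1
    exact lt_irrefl _ h1

/-- The harmonic measures of `V y` at `0`, from a model. -/
theorem isOmega_of_model {y : ℝ} {X : ℂ → ℂ} {v₀ : ℂ} {vc : ℝ} (hX : Model y X v₀ vc) :
    IsOmega y (hA v₀) (hB v₀) := by
  obtain ⟨h₁, h₂, hh, hval⟩ := harmPair_of_model hX
  have h2 := hval v₀ hX.v0_im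
  rw [hX.zero] at h2
  exact ⟨h₁, h₂, hh, h2.1, h2.2⟩

theorem isOmega_exists {y : ℝ} (hy : 0 < y) : ∃ a c : ℝ, IsOmega y a c := by
  obtain ⟨X, v₀, vc, hX⟩ := model_exists hy
  exact ⟨_, _, isOmega_of_model hX⟩

theorem criterion {b : ℂ} (hb : 0 < b.im) (hb1 : ‖b‖ < 1) :
    Realp b ↔ ∃ y a c : ℝ, 0 < y ∧ IsOmega y a c ∧ hA (jou b) < a ∧ hB (jou b) < c := by
  have hjb := jou_im hb1 hb
  constructor
  · intro hR
    by_contra hno
    push Not at hno
    set a0 := hA (jou b) with ha0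
    set c0 := hB (jou b) with hc0
    have ha0' := hA_mem hjb
    let S : Set ℝ := {y | 0 < y ∧ ∀ a c : ℝ, IsOmega y a c → a ≤ a0}
    have hne : S.Nonempty := by
      obtain ⟨y₀, hy₀, h⟩ := omega_small a0 ha0'.1
      exact ⟨y₀ / 2, by positivity, fun a c h1 => h (y₀ / 2) a c (by positivity) (by linarith) h1⟩
    have hbd : BddAbove S := by
      obtain ⟨y₀, hy₀, h⟩ := omega_large ((1 - a0) / 2) (by linarith [ha0'.2])
      refine ⟨y₀, fun y hy => ?_⟩
      by_contra hlt
      push Not at hlt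
      obtain ⟨a, c, hac⟩ := isOmega_exists hy.1
      have h1 := h y a c hlt hac
      have h2 := hy.2 a c hac
      linarith [ha0'.2]
    set y0 := sSup S with hy0
    have hy0pos : 0 < y0 := by
      obtain ⟨y, hy⟩ := hne
      exact lt_of_lt_of_le hy.1 (le_csSup hbd hy)
    obtain ⟨X, v₀, vc, hX⟩ := model_exists hy0pos
    have hom := isOmega_of_model hX
    have h1 : hA v₀ ≤ a0 := by
      by_contra hlt
      push Not at hlt
      obtain ⟨δ, hδ, h⟩ := omega_left hX hom ((hA v₀ - a0) / 2) (by linarith)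
      obtain ⟨y', hy', hlt'⟩ := exists_lt_of_lt_csSup hne (show y0 - δ < sSup S by linarith)
      rcases (le_csSup hbd hy').lt_or_eq with h2 | h2
      · obtain ⟨a, c, hac⟩ := isOmega_exists hy'.1
        have h3 := h y' a c hy'.1 hlt' h2 hac
        have h4 := hy'.2 a c hac
        linarith [h3.1]
      · have h4 := hy'.2 (hA v₀) (hB v₀) (by rw [h2]; exact hom)
        linarith
    have h2 : hB v₀ ≤ c0 := by
      by_contra hlt
      push Not at hlt
      obtain ⟨δ, hδ, h⟩ := omega_right hy0pos hom ((hB v₀ - c0) / 2) (by linarith)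
      have hy'pos : 0 < y0 + δ / 2 := by linarith
      obtain ⟨a, c, hac⟩ := isOmega_exists hy'pos
      have h3 := h (y0 + δ / 2) a c (by linarith) (by linarith) hac
      have h4 : y0 + δ / 2 ∉ S := fun hm => by
        have := le_csSup hbd hm
        linarith
      have h5 : a0 < a := by
        by_contra hle
        push Not at hle
        apply h4
        refine ⟨hy'pos, fun a' c' h' => ?_⟩
        rw [(omega_unique hy'pos h' hac).1]
        exact hle
      have h6 := hno (y0 + δ / 2) a c hy'pos hac h5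
      linarith [h3.2]
    have hbn := jinv_mem hX.v0_im
    have hj : jou (jinv v₀) = v₀ := jou_jinv hX.v0_im
    exact not_realp_extremal hX (realp_mono hbn.2 hbn.1 hR (by rw [hj]; exact h1)
      (by rw [hj]; exact h2))
  · rintro ⟨y, a, c, hy, hac, h1, h2⟩
    obtain ⟨X, v₀, vc, hX⟩ := model_exists hy
    obtain ⟨e1, e2⟩ := omega_unique hy hac (isOmega_of_model hX)
    have hbn := jinv_mem hX.v0_im
    have hj : jou (jinv v₀) = v₀ := jou_jinv hX.v0_im
    have hc := hA_radius_cont hbn.2 hbn.1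
    have hcA : Tendsto (fun t : ℝ => hA (jou (jinv v₀ / t))) (𝓝 1) (𝓝 a) := by
      have := hc.1.tendsto
      simpa [hj, e1] using this
    have hcB : Tendsto (fun t : ℝ => hB (jou (jinv v₀ / t))) (𝓝 1) (𝓝 c) := by
      have := hc.2.tendsto
      simpa [hj, e2] using this
    have hev : ∀ᶠ t : ℝ in 𝓝[<] 1, hA (jou b) < hA (jou (jinv v₀ / t)) ∧
        hB (jou b) < hB (jou (jinv v₀ / t)) ∧ ‖jinv v₀‖ < t ∧ t < 1 := by
      filter_upwards [nhdsWithin_le_nhds (hcA.eventually (lt_mem_nhds h1)),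
        nhdsWithin_le_nhds (hcB.eventually (lt_mem_nhds h2)),
        nhdsWithin_le_nhds (lt_mem_nhds hbn.1), self_mem_nhdsWithin] with t h3 h4 h5 h6
      exact ⟨h3, h4, h5, h6⟩
    obtain ⟨t, h3, h4, h5, h6⟩ := hev.exists
    exact realp_mono hb hb1 (realp_extremal hX h5 h6) h3.le h4.le

end Pool.Agent.Choc
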