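import Pool.Agent.Lib.MP_2b3e36_an.Ex.Z0
import Pool.Agent.Lib.MP_2b3e36_an.Ex.Z1
import Pool.Agent.Lib.MP_2b3e36_an.Ex.S4

/-!
Z2. The balanced domain and the constant of the plant.
-/

set_option autoImplicit false

open Complex Set Filter Topology Metric

namespace Pool.Agent.Choc

theorem omega_lt_half {y ω : ℝ} (hy : 0 < y) (h : IsOmega y ω ω) : 0 < ω ∧ ω < 1 / 2 := by
  have h1 := omega_bounds hy h
  refine ⟨h1.1, ?_⟩
  obtain ⟨X, v₀, vc, hX⟩ := model_exists hy
  obtain ⟨e1, e2⟩ := omega_unique hy h (isOmega_of_model hX)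
  have h2 := hA_add_hB_lt hX.v0_im
  rw [← e1, ← e2] at h2
  linarith

/-- There is a height for which the two harmonic measures are equal. -/
theorem omega_balance : ∃ y ω : ℝ, 0 < y ∧ IsOmega y ω ω := by
  let S : Set ℝ := {y | 0 < y ∧ ∀ a c : ℝ, IsOmega y a c → a ≤ c}
  have hne : S.Nonempty := by
    obtain ⟨a₁, c₁, h₁⟩ := isOmega_exists one_pos
    have hc₁ := (omega_bounds one_pos h₁).2.1
    obtain ⟨y₀, hy₀, h⟩ := omega_small c₁ hc₁
    have hmin : 0 < min (y₀ / 2) (1 / 2) := by positivity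
    refine ⟨min (y₀ / 2) (1 / 2), hmin, fun a c hac => ?_⟩
    have h2 := h _ a c hmin (lt_of_le_of_lt (min_le_left _ _) (by linarith)) hac
    have h3 := omega_mono hmin (lt_of_le_of_lt (min_le_right _ _) (by norm_num)) hac h₁
    linarith [h3.2]
  have hbd : BddAbove S := by
    obtain ⟨y₀, hy₀, h⟩ := omega_large (1 / 4) (by norm_num)
    refine ⟨y₀, fun y hy => ?_⟩
    by_contra hlt
    push Not at hlt
    obtain ⟨a, c, hac⟩ := isOmega_exists hy.1
    have h1 := h y a c hlt hac
    have h2 := hy.2 a c hac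
    have h3 := omega_bounds hy.1 hac
    linarith [h3.2.2]
  set y0 := sSup S with hy0
  have hy0pos : 0 < y0 := by
    obtain ⟨y, hy⟩ := hne
    exact lt_of_lt_of_le hy.1 (le_csSup hbd hy)
  obtain ⟨X, v₀, vc, hX⟩ := model_exists hy0pos
  have hom := isOmega_of_model hX
  have h1 : hA v₀ ≤ hB v₀ := by
    by_contra hlt
    push Not at hlt
    obtain ⟨δ, hδ, h⟩ := omega_left hX hom ((hA v₀ - hB v₀) / 4) (by linarith)
    obtain ⟨y', hy', hlt'⟩ := exists_lt_of_lt_csSup hne (show y0 - δ < sSup S by linarith)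
    rcases (le_csSup hbd hy').lt_or_eq with h2 | h2
    · obtain ⟨a, c, hac⟩ := isOmega_exists hy'.1
      have h3 := h y' a c hy'.1 hlt' h2 hac
      have h4 := hy'.2 a c hac
      linarith [h3.1, h3.2]
    · have h4 := hy'.2 (hA v₀) (hB v₀) (by rw [h2]; exact hom)
      linarith
  have h2 : hB v₀ ≤ hA v₀ := by
    by_contra hlt
    push Not at hlt
    obtain ⟨δ, hδ, h⟩ := omega_right hy0pos hom ((hB v₀ - hA v₀) / 4) (by linarith)
    have hy'pos : 0 < y0 + δ / 2 := by linarith
    obtain ⟨a, c, hac⟩ := isOmega_exists hy'pos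
    have h3 := h (y0 + δ / 2) a c (by linarith) (by linarith) hac
    have h4 : y0 + δ / 2 ∉ S := fun hm => by
      have := le_csSup hbd hm
      linarith
    have h5 : c < a := by
      by_contra hle
      push Not at hle
      apply h4
      refine ⟨hy'pos, fun a' c' h' => ?_⟩
      obtain ⟨e1, e2⟩ := omega_unique hy'pos h' hac
      rw [e1, e2]
      exact hle
    linarith [h3.1, h3.2]
  refine ⟨y0, hA v₀, hy0pos, ?_⟩
  have h3 : hB v₀ = hA v₀ := le_antisymm h2 h1
  rw [h3] at hom
  exact hom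

theorem realp_imag_iff {y ω : ℝ} (hy : 0 < y) (h : IsOmega y ω ω) {t : ℝ} (h0 : 0 < t)
    (h1 : t < 1) : Realp (t * I) ↔ Real.tan (Real.pi * (1 - 2 * ω) / 4) < t := by
  have hω := omega_lt_half hy h
  have hpi := Real.pi_pos
  have him : 0 < ((t : ℂ) * I).im := by simpa using h0
  have hno : ‖(t : ℂ) * I‖ < 1 := by
    rw [norm_mul, Complex.norm_I, mul_one, Complex.norm_real, Real.norm_eq_abs, abs_of_pos h0]
    exact h1
  have hh := hA_imag h0 h1
  have key : Realp (t * I) ↔ 1 / 2 - 2 / Real.pi * Real.arctan t < ω := by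
    rw [criterion him hno]
    constructor
    · rintro ⟨y', a, c, hy', hac, h2, h3⟩
      rw [hh.1] at h2
      rw [hh.2] at h3
      rcases lt_trichotomy y y' with h4 | h4 | h4
      · exact lt_of_lt_of_le h3 (omega_mono hy h4 h hac).2
      · subst h4
        rw [(omega_unique hy h hac).1]
        exact h2
      · exact lt_of_lt_of_le h2 (omega_mono hy' h4 hac h).1
    · intro h2
      exact ⟨y, ω, ω, hy, h, by rw [hh.1]; exact h2, by rw [hh.2]; exact h2⟩
  rw [key]
  have e : Real.tan (Real.pi * (1 - 2 * ω) / 4) < t ↔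
      Real.pi * (1 - 2 * ω) / 4 < Real.arctan t := by
    have hx1 : -(Real.pi / 2) < Real.pi * (1 - 2 * ω) / 4 := by nlinarith
    have hx2 : Real.pi * (1 - 2 * ω) / 4 < Real.pi / 2 := by nlinarith
    constructor
    · intro h2
      have := Real.arctan_strictMono h2
      rwa [Real.arctan_tan hx1 hx2] at this
    · intro h2
      by_contra h3
      push Not at h3
      have := Real.arctan_strictMono.monotone h3
      rw [Real.arctan_tan hx1 hx2] at this
      linarith
  rw [e]
  have e2 : 2 / Real.pi * Real.arctan t = Real.arctan t * 2 / Real.pi := by ring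
  rw [e2]
  constructor
  · intro h2
    have h3 : (1 / 2 - ω) < Real.arctan t * 2 / Real.pi := by linarith
    rw [lt_div_iff₀ hpi] at h3
    nlinarith
  · intro h2
    have h3 : (1 / 2 - ω) < Real.arctan t * 2 / Real.pi := by
      rw [lt_div_iff₀ hpi]
      nlinarith
    linarith

open Pool.Agent.Lib.MP_2b3e36_an in
/-- The constant of the plant. -/
theorem plant_constant {y ω : ℝ} (hy : 0 < y) (h : IsOmega y ω ω) {β : ℝ} (hβ : 0 < β) :
    (∃ c : RatFunc ℝ, Bistable c ∧ StabilizedBy (plant β) c) ↔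
      Real.tan (Real.pi * (1 - 2 * ω) / 4) ^ 2 < β := by
  have hω := omega_lt_half hy h
  have hpi := Real.pi_pos
  have hx1 : 0 < Real.pi * (1 - 2 * ω) / 4 := by
    have : 0 < Real.pi * (1 - 2 * ω) := mul_pos hpi (by linarith)
    linarith
  have hx2 : Real.pi * (1 - 2 * ω) / 4 < Real.pi / 4 := by nlinarith
  have ht0 : 0 < Real.tan (Real.pi * (1 - 2 * ω) / 4) :=
    Real.tan_pos_of_pos_of_lt_pi_div_two hx1 (by linarith)
  rcases lt_or_ge β 1 with h1 | h1
  · rw [plant_iff hβ h1, realp_imag_iff hy h (Real.sqrt_pos.mpr hβ)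
      (by rw [Real.sqrt_lt' one_pos]; simpa using h1), Real.lt_sqrt ht0.le]
  · refine ⟨fun _ => ?_, fun _ => plant_large h1⟩
    have ht1 : Real.tan (Real.pi * (1 - 2 * ω) / 4) < 1 := by
      have h3 := Real.tan_lt_tan_of_nonneg_of_lt_pi_div_two hx1.le (by linarith) hx2
      rwa [Real.tan_pi_div_four] at h3
    nlinarith

end Pool.Agent.Choc
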