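import Pool.Agent.Lib.MP_2b3e36_an.Ex.Z1
import Pool.Agent.Lib.MP_2b3e36_an.Ex.S3
import Pool.Agent.Lib.MP_2b3e36_an.Ex.S2

/-!
Z3. The criterion for a general zero and a general pair of conjugate ones, in the closed disc.
-/

set_option autoImplicit false

open Complex Set Filter Topology Metric Polynomial

namespace Pool.Agent.Choc

theorem omega_existsUnique {y : ℝ} (hy : 0 < y) :
    ∃! w : ℝ × ℝ, IsOmega y w.1 w.2 := by
  obtain ⟨a, c, h⟩ := isOmega_exists hy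
  refine ⟨(a, c), h, fun w hw => ?_⟩
  obtain ⟨e1, e2⟩ := omega_unique hy hw h
  exact Prod.ext e1 e2

theorem stable_iff_interior {a : ℝ} {b : ℂ} (ha : |a| < 1) (hb : ‖b‖ < 1) (hb' : 0 < b.im) :
    StableSol a b ↔ ∃ y ω₁ ω₂ : ℝ, 0 < y ∧ IsOmega y ω₁ ω₂ ∧
      ((hA (jou ((b - a) / (1 - a * b))) < ω₁ ∧ hB (jou ((b - a) / (1 - a * b))) < ω₂) ∨
        (hB (jou ((b - a) / (1 - a * b))) < ω₁ ∧ hA (jou ((b - a) / (1 - a * b))) < ω₂)) := by
  obtain ⟨hn, hi⟩ := mobius_mem ha hb hb'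
  set b' := (b - a) / (1 - a * b) with hb'def
  have hn2 : ‖-starRingEnd ℂ b'‖ < 1 := by rw [norm_neg, RCLike.norm_conj]; exact hn
  have hi2 : 0 < (-starRingEnd ℂ b').im := by simpa using hi
  have e1 : StableSol a b ↔ Realp b' ∨ Realp (-starRingEnd ℂ b') := by
    rw [← solA_iff_realp ha hb hb']
    constructor
    · exact solA_of_stable ha hb hb'
    · rintro ⟨r, f, hf⟩
      exact stable_of_solA ha hb hb' hf
  have hj := jou_im hn hi
  obtain ⟨s1, s2⟩ := hA_symm hj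
  rw [e1, criterion hi hn, criterion hi2 hn2, jou_symm, s1, s2]
  constructor
  · rintro (⟨y, p, q, h1, h2, h3, h4⟩ | ⟨y, p, q, h1, h2, h3, h4⟩)
    · exact ⟨y, p, q, h1, h2, Or.inl ⟨h3, h4⟩⟩
    · exact ⟨y, p, q, h1, h2, Or.inr ⟨h3, h4⟩⟩
  · rintro ⟨y, p, q, h1, h2, (⟨h3, h4⟩ | ⟨h3, h4⟩)⟩
    · exact Or.inl ⟨y, p, q, h1, h2, h3, h4⟩
    · exact Or.inr ⟨y, p, q, h1, h2, h3, h4⟩

/-- Rescaling of a rational solution. -/
theorem stable_scale {a : ℝ} {b : ℂ} {r : ℝ} (hr : 1 ≤ r) (h : StableSol (a / r) (b / r)) :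
    StableSol a b := by
  have hr0 : (0 : ℝ) < r := by linarith
  have hrc : (r : ℂ) ≠ 0 := by exact_mod_cast hr0.ne'
  obtain ⟨P, Q, h1, h2, h3, h4, h5⟩ := h
  have hsc : ∀ z : ℂ, ‖z‖ ≤ 1 → ‖z / r‖ ≤ 1 := by
    intro z hz
    rw [norm_div, Complex.norm_real, Real.norm_eq_abs, abs_of_pos hr0]
    exact (div_le_one hr0).mpr (by linarith)
  have hev : ∀ (R : ℝ[X]) (z : ℂ), aeval z (R.comp (C r⁻¹ * X)) = aeval (z / r) R := by
    intro R z
    rw [aeval_comp]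
    congr 1
    simp [div_eq_inv_mul]
  have hder : ∀ (R : ℝ[X]) (z : ℂ), aeval z (derivative (R.comp (C r⁻¹ * X))) =
      (r : ℂ)⁻¹ * aeval (z / r) (derivative R) := by
    intro R z
    rw [derivative_comp, map_mul, hev]
    simp
  refine ⟨P.comp (C r⁻¹ * X), Q.comp (C r⁻¹ * X), ?_, ?_, ?_, ?_, ?_⟩
  · intro z hz
    rw [hev]
    exact h1 _ (hsc z hz)
  · intro z hz
    rw [hev, h2 _ (hsc z hz)]
    push_cast
    rw [div_left_inj' hrc]
  · intro z hz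
    rw [hev, hev, h3 _ (hsc z hz), map_div₀, Complex.conj_ofReal, div_left_inj' hrc,
      div_left_inj' hrc]
  · rw [hder]
    refine mul_ne_zero (inv_ne_zero hrc) ?_
    have : ((a / r : ℝ) : ℂ) = (a : ℂ) / r := by push_cast; rfl
    rw [← this]
    exact h4
  · rw [← sub_comp, hder]
    exact mul_ne_zero (inv_ne_zero hrc) h5

end Pool.Agent.Choc
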