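import Pool.Agent.Lib.MP_2b3e36_an.Ex.Z3

/-!
Z4. Zeros and ones on the unit circle.

Let `a ∈ [-1,1]`, `‖b‖ ≤ 1`, `Im b > 0`, `|a| = 1` or `‖b‖ = 1`. By `stable_scale` it is enough to find `r > 1` with
`StableSol (a/r) (b/r)`, and by `stable_iff_interior` it is enough to have the inequalities for
`b_r = (b/r - a/r)/(1 - a b/r^2)`, `v_r = jou b_r`, `Im v_r > 0` (`mobius_mem`, `jou_im`).
(1) `|a| < 1`, `‖b‖ = 1`. Take any `y` (for example `1`) and its pair `ω₁, ω₂ > 0` (`isOmega_exists`,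
`omega_bounds`). As `r → 1+`, `b_r → b' = (b-a)/(1-ab)`, `‖b'‖ = 1`, `Im b' > 0`, `v_r → jou b' = - Re b' ∈ (-1,1)`;
`hA v_r → 0`, `hB v_r → 0` by `hA_right`, `hB_left`. So for `r` close to `1` `hA v_r < ω₁`, `hB v_r < ω₂`.
(2) `a = 1`. `b_r + 1 = (1 - 1/r) (1 + b/r)/(1 - b/r^2)` and `jou z - 1 = -(z+1)^2/(2 z)`, so
`v_r - 1 = (1 - 1/r)^2 w_r`, `w_r = ((1 + b/r)/(1 - b/r^2))^2/(-2 b_r)`, `Im w_r > 0`,
`w_r → w = ((1+b)/(1-b))^2/2` (`b_r → -1`). `(1+b)/(1-b)` has real part `(1-‖b‖^2)/|1-b|^2 ≥ 0` and imaginary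
part `2 Im b/|1-b|^2 > 0`, so `w` is not in `[0, ∞)`, `Im w ≥ 0`. So there is `ε > 0` with `arg w_r ≥ ε` for `r`
close to `1` (`arg` is continuous on the slit plane; if `w < 0` then `Re w_r < 0`, `arg w_r > pi/2`), so
`hB v_r ≤ 1 - ε/pi`. By `omega_large` there are `y, ω₁, ω₂` with `ω₁ > 1 - ε/pi`, `ω₂ > 0`. Also
`v_r → 1`, `v_r + 1 → 2`, `hA v_r → 0`. So `hB v_r < ω₁`, `hA v_r < ω₂` for `r` close to `1`.
(3) `a = -1`. Symmetric: `b_r - 1 = -(1 - 1/r)(1 - b/r)/(1 + b/r^2)`, `jou z + 1 = -(z-1)^2/(2z)`,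
`v_r + 1 = -(1 - 1/r)^2 w'_r`, `w'_r = ((1 - b/r)/(1 + b/r^2))^2/(2 b_r) → ((1-b)/(1+b))^2/2`; `(1-b)/(1+b)` has
nonnegative real part and negative imaginary part; `v_r + 1 = (1-1/r)^2 (- w'_r)`, the limit direction
`-((1-b)/(1+b))^2/2` is in the closed upper half plane and is not in `(-∞, 0]`, so `arg (v_r + 1) ≤ pi - ε`,
`hA v_r ≤ 1 - ε/pi`, `hB v_r → 0`. Use the first alternative.
-/

set_option autoImplicit false

open Complex Set Filter Topology Metric

namespace Pool.Agent.Choc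

theorem z4_div {f g : ℝ → ℂ} {l : Filter ℝ} {x y : ℂ} (hf : Tendsto f l (𝓝 x))
    (hg : Tendsto g l (𝓝 y)) (hy : y ≠ 0) : Tendsto (fun r => f r / g r) l (𝓝 (x / y)) :=
  hf.div hg hy

/-- the point `b_r` -/
noncomputable def z4b (a : ℝ) (b : ℂ) (r : ℝ) : ℂ :=
  (b / r - ((a / r : ℝ) : ℂ)) / (1 - ((a / r : ℝ) : ℂ) * (b / r))

theorem z4_scaled {a : ℝ} {b : ℂ} (ha : |a| ≤ 1) (hb : ‖b‖ ≤ 1) (hb' : 0 < b.im) {r : ℝ}
    (hr : 1 < r) : |a / r| < 1 ∧ ‖b / (r : ℂ)‖ < 1 ∧ 0 < (b / (r : ℂ)).im := by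
  have hr0 : (0 : ℝ) < r := by linarith
  refine ⟨?_, ?_, ?_⟩
  · rw [abs_div, abs_of_pos hr0, div_lt_one hr0]; linarith
  · rw [norm_div, Complex.norm_real, Real.norm_eq_abs, abs_of_pos hr0, div_lt_one hr0]; linarith
  · rw [Complex.div_ofReal_im]; positivity

theorem z4_im {a : ℝ} {b : ℂ} (ha : |a| ≤ 1) (hb : ‖b‖ ≤ 1) (hb' : 0 < b.im) {r : ℝ}
    (hr : 1 < r) : ‖z4b a b r‖ < 1 ∧ 0 < (z4b a b r).im ∧ 0 < (jou (z4b a b r)).im := by
  obtain ⟨h1, h2, h3⟩ := z4_scaled ha hb hb' hr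
  obtain ⟨h4, h5⟩ := mobius_mem h1 h2 h3
  exact ⟨h4, h5, jou_im h4 h5⟩

theorem z4_core {a : ℝ} {b : ℂ} (ha : |a| ≤ 1) (hb : ‖b‖ ≤ 1) (hb' : 0 < b.im) {y ω₁ ω₂ : ℝ}
    (hy : 0 < y) (hω : IsOmega y ω₁ ω₂)
    (h : ∀ᶠ r : ℝ in 𝓝[>] 1, (hA (jou (z4b a b r)) < ω₁ ∧ hB (jou (z4b a b r)) < ω₂) ∨
      (hB (jou (z4b a b r)) < ω₁ ∧ hA (jou (z4b a b r)) < ω₂)) : StableSol a b := by
  obtain ⟨r, h1, h2⟩ := (h.and self_mem_nhdsWithin).exists
  have hr : 1 < r := h2
  obtain ⟨h3, h4, h5⟩ := z4_scaled ha hb hb' hr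
  apply stable_scale hr.le
  rw [stable_iff_interior h3 h4 h5]
  exact ⟨y, ω₁, ω₂, hy, hω, h1⟩

theorem z4_cont (a : ℝ) (b : ℂ) (h : 1 - (a : ℂ) * b ≠ 0) :
    Tendsto (fun r : ℝ => z4b a b r) (𝓝[>] 1) (𝓝 ((b - a) / (1 - a * b))) := by
  have h1 : Tendsto (fun r : ℝ => (r : ℂ)) (𝓝[>] (1 : ℝ)) (𝓝 1) := by
    have := (Complex.continuous_ofReal.tendsto (1 : ℝ)).mono_left
      (nhdsWithin_le_nhds (s := Set.Ioi (1 : ℝ)))
    simpa using this
  have h2 : Tendsto (fun r : ℝ => b / (r : ℂ)) (𝓝[>] (1 : ℝ)) (𝓝 b) := by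
    simpa using z4_div (tendsto_const_nhds (x := b)) h1 one_ne_zero
  have h3 : Tendsto (fun r : ℝ => ((a / r : ℝ) : ℂ)) (𝓝[>] (1 : ℝ)) (𝓝 (a : ℂ)) := by
    have : Tendsto (fun r : ℝ => (a : ℂ) / (r : ℂ)) (𝓝[>] (1 : ℝ)) (𝓝 (a : ℂ)) := by
      simpa using z4_div (tendsto_const_nhds (x := (a : ℂ))) h1 one_ne_zero
    refine this.congr fun r => ?_
    push_cast
    rfl
  exact (h2.sub h3).div ((tendsto_const_nhds (x := (1 : ℂ))).sub (h3.mul h2)) h

theorem z4_jou {z : ℂ} (hz : z ≠ 0) : ContinuousAt jou z := by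
  unfold jou
  exact ((continuousAt_id.add (continuousAt_inv₀ hz)).neg).div_const 2

/-- convergence inside the upper half plane -/
theorem z4_tendsto {a : ℝ} {b : ℂ} (ha : |a| ≤ 1) (hb : ‖b‖ ≤ 1) (hb' : 0 < b.im)
    (h : 1 - (a : ℂ) * b ≠ 0) {x : ℝ} (hx : jou ((b - a) / (1 - a * b)) = x) :
    Tendsto (fun r : ℝ => jou (z4b a b r)) (𝓝[>] 1) (𝓝[UH] (x : ℂ)) := by
  have hba : b - (a : ℂ) ≠ 0 := by
    intro h0
    have := congrArg Complex.im h0
    simp at this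
    exact hb'.ne' this
  refine tendsto_nhdsWithin_iff.2 ⟨?_, ?_⟩
  · have h1 := (z4_jou (div_ne_zero hba h)).tendsto.comp (z4_cont a b h)
    rw [hx] at h1
    exact h1
  · filter_upwards [self_mem_nhdsWithin] with r hr
    exact (z4_im ha hb hb' hr).2.2

theorem stable_of_norm_eq {a : ℝ} {b : ℂ} (ha : |a| < 1) (hb : ‖b‖ = 1) (hb' : 0 < b.im) :
    StableSol a b := by
  have hnb : b.re * b.re + b.im * b.im = 1 := by
    have h1 := Complex.normSq_eq_norm_sq b
    rw [hb, one_pow, Complex.normSq_apply] at h1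
    exact h1
  have ha2 : a ^ 2 < 1 := by
    rw [sq_lt_one_iff_abs_lt_one]; exact ha
  have hden : 1 - (a : ℂ) * b ≠ 0 := by
    intro h0
    have h1 := congrArg Complex.im h0
    simp at h1
    rcases h1 with h1 | h1
    · rw [h1] at h0; simp at h0
    · exact hb'.ne' h1
  set b' : ℂ := (b - a) / (1 - a * b) with hb'def
  -- the modulus of the limit point
  have hsq : Complex.normSq (b - a) = Complex.normSq (1 - a * b) := by
    rw [Complex.normSq_apply, Complex.normSq_apply]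
    simp
    linear_combination (1 - a ^ 2) * hnb
  have hn1 : Complex.normSq b' = 1 := by
    rw [hb'def, map_div₀, hsq, div_self]
    exact (Complex.normSq_pos.2 hden).ne'
  have hb'0 : b' ≠ 0 := by
    intro h0
    rw [h0, map_zero] at hn1
    exact zero_ne_one hn1
  have him : 0 < b'.im := by
    have hpos : 0 < Complex.normSq (1 - a * b) := Complex.normSq_pos.2 hden
    have e : b'.im = b.im * (1 - a ^ 2) / Complex.normSq (1 - a * b) := by
      rw [hb'def, Complex.div_im]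
      simp
      field_simp
      ring
    rw [e]
    exact div_pos (mul_pos hb' (by linarith)) hpos
  have hjou : jou b' = ((-b'.re : ℝ) : ℂ) := by
    unfold jou
    rw [Complex.inv_def, hn1]
    apply Complex.ext
    · simp
    · simp
  have hre : |b'.re| < 1 := by
    rw [← sq_lt_one_iff_abs_lt_one]
    rw [Complex.normSq_apply] at hn1
    nlinarith
  obtain ⟨ω₁, ω₂, hω⟩ := isOmega_exists one_pos
  obtain ⟨hp1, hp2, _⟩ := omega_bounds one_pos hω
  have ht := z4_tendsto ha.le hb.le hb' hden hjou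
  have hA0 := (hA_right (x := -b'.re) (by linarith [(abs_lt.1 hre).2])).comp ht
  have hB0 := (hB_left (x := -b'.re) (by linarith [(abs_lt.1 hre).1])).comp ht
  refine z4_core ha.le hb.le hb' one_pos hω ?_
  filter_upwards [hA0.eventually (gt_mem_nhds hp1), hB0.eventually (gt_mem_nhds hp2)] with r h1 h2
  exact Or.inl ⟨h1, h2⟩

theorem z4_not_real {u : ℂ} (hu : u.im ≠ 0) : -(u ^ 2 / 2) ∈ slitPlane := by
  rw [Complex.mem_slitPlane_iff]
  by_contra hcon
  push Not at hcon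
  obtain ⟨h1, h2⟩ := hcon
  have e1 : (-(u ^ 2 / 2)).re = -((u.re ^ 2 - u.im ^ 2) / 2) := by
    simp [pow_two]
  have e2 : (-(u ^ 2 / 2)).im = -(u.re * u.im) := by
    simp [pow_two]
    ring
  rw [e1] at h1
  rw [e2, neg_eq_zero, mul_eq_zero] at h2
  rcases h2 with h2 | h2
  · rw [h2] at h1
    have : 0 < u.im ^ 2 := by positivity
    nlinarith
  · exact hu h2

theorem stable_one {b : ℂ} (hb : ‖b‖ ≤ 1) (hb' : 0 < b.im) : StableSol 1 b := by
  have h1b : (1 : ℂ) - b ≠ 0 := by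
    intro h0
    have := congrArg Complex.im h0
    simp at this
    exact hb'.ne' this
  have hden : 1 - ((1 : ℝ) : ℂ) * b ≠ 0 := by simpa using h1b
  have ha : |(1 : ℝ)| ≤ 1 := by simp
  have hlim : (b - ((1 : ℝ) : ℂ)) / (1 - ((1 : ℝ) : ℂ) * b) = -1 := by
    rw [div_eq_iff hden]
    push_cast
    ring
  have hjou : jou ((b - ((1 : ℝ) : ℂ)) / (1 - ((1 : ℝ) : ℂ) * b)) = ((1 : ℝ) : ℂ) := by
    rw [hlim]
    unfold jou
    norm_num
  have ht := z4_tendsto ha hb hb' hden hjou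
  have hA0 := (hA_right (x := 1) (by norm_num)).comp ht
  -- the direction
  set u : ℂ := (1 + b) / (1 - b) with hu
  have huim : u.im ≠ 0 := by
    intro h0
    have e : u * (1 - b) = 1 + b := div_mul_cancel₀ _ h1b
    have h1 := congrArg Complex.im e
    have h2 := congrArg Complex.re e
    simp [h0] at h1 h2
    have h3 : u.re = -1 := by
      have : (u.re + 1) * b.im = 0 := by linarith
      rcases mul_eq_zero.1 this with h4 | h4
      · linarith
      · exact absurd h4 hb'.ne'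
    rw [h3] at h2
    linarith
  have hslit := z4_not_real huim
  let W : ℝ → ℂ := fun r => ((1 + b / r) / (1 - b / r ^ 2)) ^ 2 / (2 * z4b 1 b r)
  have h1 : Tendsto (fun r : ℝ => (r : ℂ)) (𝓝[>] (1 : ℝ)) (𝓝 1) := by
    have := (Complex.continuous_ofReal.tendsto (1 : ℝ)).mono_left
      (nhdsWithin_le_nhds (s := Set.Ioi (1 : ℝ)))
    simpa using this
  have h2 : Tendsto (fun r : ℝ => b / (r : ℂ)) (𝓝[>] (1 : ℝ)) (𝓝 b) := by
    simpa using z4_div (tendsto_const_nhds (x := b)) h1 one_ne_zero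
  have h3 : Tendsto (fun r : ℝ => b / (r : ℂ) ^ 2) (𝓝[>] (1 : ℝ)) (𝓝 b) := by
    have := z4_div (tendsto_const_nhds (x := b)) (h1.pow 2) (by norm_num)
    rw [one_pow, div_one] at this
    exact this
  have hW : Tendsto W (𝓝[>] (1 : ℝ)) (𝓝 (-(u ^ 2 / 2))) := by
    have hz := z4_cont 1 b hden
    rw [hlim] at hz
    have h4 := (z4_div ((tendsto_const_nhds (x := (1 : ℂ))).add h2)
      ((tendsto_const_nhds (x := (1 : ℂ))).sub h3) h1b).pow 2
    have h5 := z4_div h4 ((tendsto_const_nhds (x := (2 : ℂ))).mul hz) (by norm_num)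
    have e : ((1 + b) / (1 - b)) ^ 2 / (2 * -1) = -(u ^ 2 / 2) := by rw [hu]; ring
    rw [← e]
    exact h5
  have harg : Tendsto (fun r => arg (W r)) (𝓝[>] (1 : ℝ)) (𝓝 (arg (-(u ^ 2 / 2)))) :=
    (Complex.continuousAt_arg hslit).tendsto.comp hW
  -- `hB` in terms of `W`
  have hBW : ∀ r : ℝ, 1 < r → hB (jou (z4b 1 b r)) = -arg (W r) / Real.pi := by
    intro r hr
    have hr0 : (0 : ℝ) < r := by linarith
    have hrc : (r : ℂ) ≠ 0 := by exact_mod_cast hr0.ne'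
    obtain ⟨m1, m2, m3⟩ := z4_im (a := 1) ha hb hb' hr
    have hz0 : z4b 1 b r ≠ 0 := by
      intro h0
      rw [h0] at m2
      simp at m2
    have hd2 : (r : ℂ) ^ 2 - b ≠ 0 := by
      intro h0
      have h4 : b = (r : ℂ) ^ 2 := by linear_combination -h0
      have h5 := congrArg Complex.im h4
      rw [← Complex.ofReal_pow, Complex.ofReal_im] at h5
      exact hb'.ne' h5
    have hd : 1 - b / (r : ℂ) ^ 2 ≠ 0 := by
      intro h0
      apply hd2
      field_simp at h0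
      rw [h0, mul_zero]
    have hzeq : z4b 1 b r = (b / r - 1 / r) / (1 - b / r ^ 2) := by
      unfold z4b
      push_cast
      congr 1
      field_simp
    have hz1 : z4b 1 b r + 1 = (1 - 1 / r) * ((1 + b / r) / (1 - b / r ^ 2)) := by
      rw [hzeq]
      field_simp
      ring
    have hj1 : jou (z4b 1 b r) - 1 = -(z4b 1 b r + 1) ^ 2 / (2 * z4b 1 b r) := by
      unfold jou
      field_simp
      ring
    have hkey : jou (z4b 1 b r) - 1 = (((1 - 1 / r) ^ 2 : ℝ) : ℂ) * (-(W r)) := by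
      rw [hj1, hz1]
      push_cast
      ring
    have hpos : (0 : ℝ) < (1 - 1 / r) ^ 2 := by
      have : (0 : ℝ) < 1 - 1 / r := by
        rw [sub_pos, div_lt_one hr0]; exact hr
      positivity
    have him : 0 < (-(W r)).im := by
      have h4 := congrArg Complex.im hkey
      rw [Complex.im_ofReal_mul] at h4
      have h5 : (jou (z4b 1 b r) - 1).im = (jou (z4b 1 b r)).im := by simp
      rw [h5] at h4
      rw [h4] at m3
      exact (mul_pos_iff_of_pos_left hpos).1 m3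
    have h6 : arg (-(-(W r))) = arg (-(W r)) - Real.pi :=
      Complex.arg_neg_eq_arg_sub_pi_of_im_pos him
    rw [neg_neg] at h6
    unfold hB
    rw [hkey, Complex.arg_real_mul _ hpos]
    have hpi := Real.pi_pos
    field_simp
    linarith
  have hlimB : Tendsto (fun r => hB (jou (z4b 1 b r))) (𝓝[>] (1 : ℝ))
      (𝓝 (-arg (-(u ^ 2 / 2)) / Real.pi)) := by
    refine (harg.neg.div_const Real.pi).congr' ?_
    filter_upwards [self_mem_nhdsWithin] with r hr
    exact (hBW r hr).symm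
  set m : ℝ := -arg (-(u ^ 2 / 2)) / Real.pi with hm
  have hm1 : m < 1 := by
    rw [hm, div_lt_one Real.pi_pos]
    linarith [Complex.neg_pi_lt_arg (-(u ^ 2 / 2))]
  obtain ⟨y₀, hy₀, hlarge⟩ := omega_large ((1 - m) / 2) (by linarith)
  have hy : 0 < y₀ + 1 := by linarith
  obtain ⟨ω₁, ω₂, hω⟩ := isOmega_exists hy
  obtain ⟨hp1, hp2, _⟩ := omega_bounds hy hω
  have hL := hlarge (y₀ + 1) ω₁ ω₂ (by linarith) hω
  refine z4_core ha hb hb' hy hω ?_
  filter_upwards [hlimB.eventually (gt_mem_nhds (show m < ω₁ by linarith)),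
    hA0.eventually (gt_mem_nhds hp2)] with r h4 h5
  exact Or.inr ⟨h4, h5⟩

theorem stable_neg_one {b : ℂ} (hb : ‖b‖ ≤ 1) (hb' : 0 < b.im) : StableSol (-1) b := by
  have h1b : (1 : ℂ) + b ≠ 0 := by
    intro h0
    have := congrArg Complex.im h0
    simp at this
    exact hb'.ne' this
  have hden : 1 - ((-1 : ℝ) : ℂ) * b ≠ 0 := by
    have : 1 - ((-1 : ℝ) : ℂ) * b = 1 + b := by push_cast; ring
    rw [this]; exact h1b
  have ha : |(-1 : ℝ)| ≤ 1 := by simp
  have hlim : (b - ((-1 : ℝ) : ℂ)) / (1 - ((-1 : ℝ) : ℂ) * b) = 1 := by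
    rw [div_eq_iff hden]
    push_cast
    ring
  have hjou : jou ((b - ((-1 : ℝ) : ℂ)) / (1 - ((-1 : ℝ) : ℂ) * b)) = ((-1 : ℝ) : ℂ) := by
    rw [hlim]
    unfold jou
    norm_num
  have ht := z4_tendsto ha hb hb' hden hjou
  have hB0 := (hB_left (x := -1) (by norm_num)).comp ht
  -- the direction
  set u : ℂ := (1 - b) / (1 + b) with hu
  have huim : u.im ≠ 0 := by
    intro h0
    have e : u * (1 + b) = 1 - b := div_mul_cancel₀ _ h1b
    have h1 := congrArg Complex.im e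
    have h2 := congrArg Complex.re e
    simp [h0] at h1 h2
    have h3 : u.re = -1 := by
      have : (u.re + 1) * b.im = 0 := by linarith
      rcases mul_eq_zero.1 this with h4 | h4
      · linarith
      · exact absurd h4 hb'.ne'
    rw [h3] at h2
    linarith
  have hslit := z4_not_real huim
  let W : ℝ → ℂ := fun r => -(((1 - b / r) / (1 + b / r ^ 2)) ^ 2 / (2 * z4b (-1) b r))
  have h1 : Tendsto (fun r : ℝ => (r : ℂ)) (𝓝[>] (1 : ℝ)) (𝓝 1) := by
    have := (Complex.continuous_ofReal.tendsto (1 : ℝ)).mono_left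
      (nhdsWithin_le_nhds (s := Set.Ioi (1 : ℝ)))
    simpa using this
  have h2 : Tendsto (fun r : ℝ => b / (r : ℂ)) (𝓝[>] (1 : ℝ)) (𝓝 b) := by
    simpa using z4_div (tendsto_const_nhds (x := b)) h1 one_ne_zero
  have h3 : Tendsto (fun r : ℝ => b / (r : ℂ) ^ 2) (𝓝[>] (1 : ℝ)) (𝓝 b) := by
    have := z4_div (tendsto_const_nhds (x := b)) (h1.pow 2) (by norm_num)
    rw [one_pow, div_one] at this
    exact this
  have hW : Tendsto W (𝓝[>] (1 : ℝ)) (𝓝 (-(u ^ 2 / 2))) := by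
    have hz := z4_cont (-1) b hden
    rw [hlim] at hz
    have h4 := (z4_div ((tendsto_const_nhds (x := (1 : ℂ))).sub h2)
      ((tendsto_const_nhds (x := (1 : ℂ))).add h3) h1b).pow 2
    have h5 := (z4_div h4 ((tendsto_const_nhds (x := (2 : ℂ))).mul hz) (by norm_num)).neg
    have e : -(((1 - b) / (1 + b)) ^ 2 / (2 * 1)) = -(u ^ 2 / 2) := by rw [hu]; ring
    rw [← e]
    exact h5
  have harg : Tendsto (fun r => arg (W r)) (𝓝[>] (1 : ℝ)) (𝓝 (arg (-(u ^ 2 / 2)))) :=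
    (Complex.continuousAt_arg hslit).tendsto.comp hW
  have hAW : ∀ r : ℝ, 1 < r → hA (jou (z4b (-1) b r)) = arg (W r) / Real.pi := by
    intro r hr
    have hr0 : (0 : ℝ) < r := by linarith
    have hrc : (r : ℂ) ≠ 0 := by exact_mod_cast hr0.ne'
    obtain ⟨m1, m2, m3⟩ := z4_im (a := -1) ha hb hb' hr
    have hz0 : z4b (-1) b r ≠ 0 := by
      intro h0
      rw [h0] at m2
      simp at m2
    have hd2 : (r : ℂ) ^ 2 + b ≠ 0 := by
      intro h0
      have h4 : b = -(r : ℂ) ^ 2 := by linear_combination h0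
      have h5 := congrArg Complex.im h4
      rw [← Complex.ofReal_pow, Complex.neg_im, Complex.ofReal_im, neg_zero] at h5
      exact hb'.ne' h5
    have hd : 1 + b / (r : ℂ) ^ 2 ≠ 0 := by
      intro h0
      apply hd2
      field_simp at h0
      rw [h0, mul_zero]
    have hzeq : z4b (-1) b r = (b / r + 1 / r) / (1 + b / r ^ 2) := by
      unfold z4b
      push_cast
      congr 1
      · ring
      · field_simp
        ring
    have hz1 : z4b (-1) b r - 1 = -((1 - 1 / r) * ((1 - b / r) / (1 + b / r ^ 2))) := by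
      rw [hzeq]
      field_simp
      ring
    have hj1 : jou (z4b (-1) b r) + 1 = -(z4b (-1) b r - 1) ^ 2 / (2 * z4b (-1) b r) := by
      unfold jou
      field_simp
      ring
    have hkey : jou (z4b (-1) b r) + 1 = (((1 - 1 / r) ^ 2 : ℝ) : ℂ) * W r := by
      rw [hj1, hz1]
      push_cast
      ring
    have hpos : (0 : ℝ) < (1 - 1 / r) ^ 2 := by
      have : (0 : ℝ) < 1 - 1 / r := by
        rw [sub_pos, div_lt_one hr0]; exact hr
      positivity
    unfold hA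
    rw [hkey, Complex.arg_real_mul _ hpos]
  have hlimA : Tendsto (fun r => hA (jou (z4b (-1) b r))) (𝓝[>] (1 : ℝ))
      (𝓝 (arg (-(u ^ 2 / 2)) / Real.pi)) := by
    refine (harg.div_const Real.pi).congr' ?_
    filter_upwards [self_mem_nhdsWithin] with r hr
    exact (hAW r hr).symm
  set m : ℝ := arg (-(u ^ 2 / 2)) / Real.pi with hm
  have hm1 : m < 1 := by
    rw [hm, div_lt_one Real.pi_pos]
    exact lt_of_le_of_ne (Complex.arg_le_pi _) (Complex.mem_slitPlane_iff_arg.1 hslit).1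
  obtain ⟨y₀, hy₀, hlarge⟩ := omega_large ((1 - m) / 2) (by linarith)
  have hy : 0 < y₀ + 1 := by linarith
  obtain ⟨ω₁, ω₂, hω⟩ := isOmega_exists hy
  obtain ⟨hp1, hp2, _⟩ := omega_bounds hy hω
  have hL := hlarge (y₀ + 1) ω₁ ω₂ (by linarith) hω
  refine z4_core ha hb hb' hy hω ?_
  filter_upwards [hlimA.eventually (gt_mem_nhds (show m < ω₁ by linarith)),
    hB0.eventually (gt_mem_nhds hp2)] with r h4 h5
  exact Or.inl ⟨h4, h5⟩

theorem stable_of_abs_eq {a : ℝ} {b : ℂ} (ha : |a| = 1) (hb : ‖b‖ ≤ 1) (hb' : 0 < b.im) :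
    StableSol a b := by
  rcases (abs_eq (zero_le_one)).1 ha with h | h
  · rw [h]; exact stable_one hb hb'
  · rw [h]; exact stable_neg_one hb hb'

/-- The criterion in the closed disc. -/
theorem stable_iff {a : ℝ} {b : ℂ} (ha : |a| ≤ 1) (hb : ‖b‖ ≤ 1) (hb' : 0 < b.im) :
    StableSol a b ↔ (|a| = 1 ∨ ‖b‖ = 1 ∨ ∃ y ω₁ ω₂ : ℝ, 0 < y ∧ IsOmega y ω₁ ω₂ ∧
      ((hA (jou ((b - a) / (1 - a * b))) < ω₁ ∧ hB (jou ((b - a) / (1 - a * b))) < ω₂) ∨
        (hB (jou ((b - a) / (1 - a * b))) < ω₁ ∧ hA (jou ((b - a) / (1 - a * b))) < ω₂))) := by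
  rcases ha.lt_or_eq with ha1 | ha1
  · rcases hb.lt_or_eq with hb1 | hb1
    · rw [stable_iff_interior ha1 hb1 hb']
      constructor
      · exact fun h => Or.inr (Or.inr h)
      · rintro (h | h | h)
        · exact absurd h ha1.ne
        · exact absurd h hb1.ne
        · exact h
    · exact ⟨fun _ => Or.inr (Or.inl hb1), fun _ => stable_of_norm_eq ha1 hb1 hb'⟩
  · exact ⟨fun _ => Or.inl ha1, fun _ => stable_of_abs_eq ha1 hb hb'⟩

end Pool.Agent.Choc
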